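import Pool.Agent.CQF.Def

set_option autoImplicit false

/-!
# Definitions for the algebraic part

Row vectors are functions `Fin 2 → ℤ`, matrices act on the right: `v ᵥ* h`. The norm form is
`nf D v = v₀² - D v₁²` with `D` not a square; `F D v = λ(|nf D v|)`.
-/

open Matrix

namespace Pool.Agent.CQF

/-- Liouville's function at `|n|` -/
def lam (n : ℤ) : ℤ := ArithmeticFunction.liouville n.natAbs

/-- the norm form -/
def nf (D : ℤ) (v : Fin 2 → ℤ) : ℤ := v 0 ^ 2 - D * v 1 ^ 2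

/-- the sign function -/
def F (D : ℤ) (v : Fin 2 → ℤ) : ℤ := lam (nf D v)

/-- multiplication by `x₀ + x₁ √D` -/
def km (D : ℤ) (x : Fin 2 → ℤ) : M2 := !![x 0, x 1; D * x 1, x 0]

/-- primitive vectors -/
def Prm (v : Fin 2 → ℤ) : Prop := Int.gcd (v 0) (v 1) = 1

/-- height -/
def ht (v : Fin 2 → ℤ) : ℕ := max (v 0).natAbs (v 1).natAbs

/-- primitive vectors with height in `[N1, N2]` -/
noncomputable def pv (N1 N2 : ℝ) : Finset (Fin 2 → ℤ) :=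
  open Classical in
  (Fintype.piFinset fun _ : Fin 2 => Finset.Icc (-(⌊N2⌋₊ : ℤ)) (⌊N2⌋₊ : ℤ)).filter
    (fun v => Prm v ∧ N1 ≤ (ht v : ℝ) ∧ (ht v : ℝ) ≤ N2)

/-- logarithmic mass of a set of primitive vectors -/
noncomputable def ms (X : Set (Fin 2 → ℤ)) (N1 N2 : ℝ) : ℝ :=
  open Classical in
  ∑ v ∈ (pv N1 N2).filter (fun v => v ∈ X), 1 / (ht v : ℝ) ^ 2

/-- the vectors where `F (v h) = η F v` fails -/
def Dst (D : ℤ) (h : M2) (η : ℤ) : Set (Fin 2 → ℤ) := {v | F D (v ᵥ* h) ≠ η * F D v}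

/-- `h` is in the approximate invariance group of the base set `X0`, with sign `η` -/
def Inv (X0 : Set (Fin 2 → ℤ)) (D : ℤ) (h : M2) (η : ℤ) : Prop :=
  h.det ≠ 0 ∧ (η = 1 ∨ η = -1) ∧ ∃ A : ℝ, 1 ≤ A ∧ ∀ N1 N2 : ℝ, 1 ≤ N1 → N1 ≤ N2 →
    ms (Dst D h η) N1 N2 ≤ A * ms X0 (N1 / A) (A * N2)

/-- the unipotent matrix `T^k`: `(u, v) ↦ (u + k v, v)` -/
def Tk (k : ℤ) : M2 := !![1, 0; k, 1]

/-- the lower unipotent matrix with parameter `a/b`, times `b` -/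
def LQ (a b : ℤ) : M2 := !![b, 0; a, b]

/-- the upper unipotent matrix with parameter `a/b`, times `b` -/
def UQ (a b : ℤ) : M2 := !![b, a; 0, b]

/-- both signs of Liouville's function on irreducible quadratics in progressions
(proved in the library: `Pool.Agent.Quad.p_final`) -/
def AllQ : Prop := ∀ (A B C : ℤ), A ≠ 0 → ¬ IsSquare (B ^ 2 - 4 * A * C) → ∀ (N r : ℕ), 0 < N →
  ∀ e : ℤ, (e = 1 ∨ e = -1) → ∀ X0 : ℕ, ∃ n : ℕ, X0 ≤ n ∧ n ≡ r [MOD N] ∧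
    lam (A * (n : ℤ) ^ 2 + B * n + C) = e

/-- Mertens' theorem in progressions (proved in the library: `Pool.Agent.MertensAP`) -/
def MertAP : Prop := ∀ q : ℕ, 1 ≤ q → ∃ C : ℝ, 0 ≤ C ∧ ∀ a : ℕ, a.Coprime q → ∀ x : ℝ, 1 ≤ x →
  |∑ p ∈ (Finset.Icc 1 ⌊x⌋₊).filter (fun p : ℕ => p.Prime ∧ p ≡ a [MOD q]), Real.log p / p
    - Real.log x / q.totient| ≤ C

end Pool.Agent.CQF
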