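import Pool.Agent.CQF.Def

set_option autoImplicit false

/-!
# Module Bka (size 3): rows of blocks lie in the cone

`m = (m00 m01; m10 m11) ∈ Bk ζ n`, `x = m00 + m10`, `y = m01 + m11`. Then `m00 y - m01 x = 1` and
`m10 y - m11 x = -1`.  For `n` large (`n ≥ 4/ζ`, `n ≥ 4`): `2y ≥ n + 1 ≥ 5`.
* `m01 ≥ 1`: otherwise `m00 y = 1`, so `y = 1`.
* `m00 y = m01 x + 1 ≤ m01 n + 1 ≤ m01 (n + 1) ≤ 2 y m01`, so `m00 ≤ 2 m01`.
* `x / y ≥ (1 - ζ/8) n / ((1 + ζ/8) n / 2) = 2 (1 - ζ/8)/(1 + ζ/8) ≥ 2 - ζ/2`, so `m00 ≥ (2 - ζ/2) m01`.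
* `m11 ≥ 1`: otherwise `m10 y = -1`.
* `m10 = (m11 x - 1)/y ≤ m11 n / y ≤ 2 m11`.
* `m10 ≥ m11 (x - 1)/y ≥ m11 (2 - ζ/2 - 1/y) ≥ (2 - ζ) m11` as `1/y ≤ 2/n ≤ ζ/2`.
-/

namespace Pool.Agent.CQF

private theorem Bka_mem {ζ : ℝ} {n : ℕ} {m : M2} (hm : m ∈ Bk ζ n) :
    (∀ i j, 0 ≤ m i j ∧ m i j ≤ n) ∧ IsNN m ∧ (1 - ζ / 8) * (n : ℝ) < ((m 0 0 + m 1 0 : ℤ) : ℝ) ∧
    m 0 0 + m 1 0 ≤ n ∧ (n : ℤ) < 2 * (m 0 1 + m 1 1) ∧
    2 * ((m 0 1 + m 1 1 : ℤ) : ℝ) ≤ (1 + ζ / 8) * n := by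
  classical
  obtain ⟨h1, h2⟩ := Finset.mem_filter.1 hm
  refine ⟨?_, h2⟩
  intro i j
  have h3 : ∀ i, m i ∈ Fintype.piFinset fun _ : Fin 2 => Finset.Icc (0 : ℤ) n :=
    Fintype.mem_piFinset.1 h1
  exact Finset.mem_Icc.1 (Fintype.mem_piFinset.1 (h3 i) j)

theorem bk_cone (ζ : ℝ) (h0 : 0 < ζ) (h1 : ζ ≤ 1) : ∃ n0 : ℕ, ∀ n, n0 ≤ n → ∀ m ∈ Bk ζ n,
    InCone ζ m := by
  obtain ⟨n1, hn1⟩ := exists_nat_ge (4 / ζ)
  refine ⟨max n1 4, ?_⟩
  intro n hn m hm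
  have hn4 : 4 ≤ n := (le_max_right _ _).trans hn
  have hnz : 4 / ζ ≤ n := hn1.trans (by exact_mod_cast (le_max_left _ _).trans hn)
  rw [div_le_iff₀ h0] at hnz
  obtain ⟨hb, ⟨hnn, hdet⟩, hx1, hx2, hy1, hy2⟩ := Bka_mem hm
  have hn4' : (4 : ℤ) ≤ n := by exact_mod_cast hn4
  have a00 := hnn 0 0
  have a01 := hnn 0 1
  have a10 := hnn 1 0
  have a11 := hnn 1 1
  set a := m 0 0
  set b := m 0 1
  set c := m 1 0
  set d := m 1 1
  have r0 : a * (b + d) = b * (a + c) + 1 := by linear_combination hdet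
  have r1 : c * (b + d) = d * (a + c) - 1 := by linear_combination -hdet
  have hy0 : 0 < b + d := by omega
  have hy3 : 3 ≤ b + d := by omega
  have hb1 : 0 < b := by
    by_contra hcon
    have hb0 : b = 0 := by omega
    rw [hb0] at r0 hy3
    simp only [zero_mul, zero_add] at r0 hy3
    have ha0 : 0 < a := by
      by_contra h
      have : a = 0 := by omega
      rw [this] at r0
      simp at r0
    nlinarith
  have hd1 : 0 < d := by
    by_contra hcon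
    have hd0 : d = 0 := by omega
    rw [hd0] at r1
    simp only [zero_mul, add_zero, zero_sub] at r1
    nlinarith [mul_nonneg a10 a01]
  have u0 : a ≤ 2 * b := by
    by_contra hcon
    have h2 : 2 * b + 1 ≤ a := by omega
    have h3 : (2 * b + 1) * (b + d) ≤ a * (b + d) := mul_le_mul_of_nonneg_right h2 hy0.le
    have h4 : b * (a + c) ≤ b * (2 * (b + d) - 1) :=
      mul_le_mul_of_nonneg_left (by omega) hb1.le
    nlinarith
  have u1 : c ≤ 2 * d := by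
    by_contra hcon
    have h2 : 2 * d + 1 ≤ c := by omega
    have h3 : (2 * d + 1) * (b + d) ≤ c * (b + d) := mul_le_mul_of_nonneg_right h2 hy0.le
    have h4 : d * (a + c) ≤ d * (2 * (b + d) - 1) :=
      mul_le_mul_of_nonneg_left (by omega) hd1.le
    nlinarith
  have r0' : (a : ℝ) * (b + d) = b * (a + c) + 1 := by exact_mod_cast r0
  have r1' : (c : ℝ) * (b + d) = d * (a + c) - 1 := by exact_mod_cast r1
  push_cast at hx1 hy2
  have hyr : (0 : ℝ) < b + d := by exact_mod_cast hy0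
  have hbr : (1 : ℝ) ≤ b := by exact_mod_cast hb1
  have hdr : (1 : ℝ) ≤ d := by exact_mod_cast hd1
  have hnr : (0 : ℝ) ≤ n := Nat.cast_nonneg n
  have key : (2 - ζ) * ((b : ℝ) + d) ≤ (1 - ζ / 8) * n - ζ / 4 * n := by
    have h2 : (2 - ζ) * (2 * ((b : ℝ) + d)) ≤ (2 - ζ) * ((1 + ζ / 8) * n) :=
      mul_le_mul_of_nonneg_left hy2 (by linarith)
    nlinarith [mul_nonneg (mul_nonneg h0.le h0.le) hnr]
  have l0 : (2 - ζ) * (b : ℝ) ≤ a := by
    have h2 : (2 - ζ) * (b : ℝ) * (b + d) ≤ a * (b + d) := by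
      rw [r0']
      have h3 := mul_le_mul_of_nonneg_left key (by linarith : (0 : ℝ) ≤ b)
      have h4 : (b : ℝ) * ((1 - ζ / 8) * n) ≤ b * (a + c) :=
        mul_le_mul_of_nonneg_left hx1.le (by linarith)
      have h5 : 0 ≤ (b : ℝ) * (ζ / 4 * n) := by positivity
      nlinarith
    exact le_of_mul_le_mul_right h2 hyr
  have l1 : (2 - ζ) * (d : ℝ) ≤ c := by
    have h2 : (2 - ζ) * (d : ℝ) * (b + d) ≤ c * (b + d) := by
      rw [r1']
      have h3 := mul_le_mul_of_nonneg_left key (by linarith : (0 : ℝ) ≤ d)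
      have h4 : (d : ℝ) * ((1 - ζ / 8) * n) ≤ d * (a + c) :=
        mul_le_mul_of_nonneg_left hx1.le (by linarith)
      have h5 : 1 ≤ (d : ℝ) * (ζ / 4 * n) := by nlinarith
      nlinarith
    exact le_of_mul_le_mul_right h2 hyr
  intro i
  fin_cases i
  · exact ⟨hb1, l0, u0⟩
  · exact ⟨hd1, l1, u1⟩

/-- the cone is preserved by left multiplication with nonnegative matrices of determinant one -/
theorem cone_mul {ζ : ℝ} {r m : M2} (hr : IsNN r) (hm : InCone ζ m) : InCone ζ (r * m) := by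
  obtain ⟨hnn, hdet⟩ := hr
  intro i
  have hri0 := hnn i 0
  have hri1 := hnn i 1
  have hpos : 0 < r i 0 ∨ 0 < r i 1 := by
    by_contra hcon
    push Not at hcon
    have e0 : r i 0 = 0 := le_antisymm hcon.1 hri0
    have e1 : r i 1 = 0 := le_antisymm hcon.2 hri1
    fin_cases i
    · simp only [Fin.zero_eta, Fin.isValue] at e0 e1
      rw [e0, e1] at hdet
      simp at hdet
    · simp only [Fin.mk_one, Fin.isValue] at e0 e1
      rw [e0, e1] at hdet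
      simp at hdet
  obtain ⟨p0, q0, s0⟩ := hm 0
  obtain ⟨p1, q1, s1⟩ := hm 1
  have hri0' : (0 : ℝ) ≤ r i 0 := by exact_mod_cast hri0
  have hri1' : (0 : ℝ) ≤ r i 1 := by exact_mod_cast hri1
  simp only [Matrix.mul_apply, Fin.sum_univ_two]
  refine ⟨?_, ?_, ?_⟩
  · rcases hpos with h | h
    · have := mul_pos h p0
      have := mul_nonneg hri1 p1.le
      omega
    · have := mul_pos h p1
      have := mul_nonneg hri0 p0.le
      omega
  · push_cast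
    have h2 := mul_le_mul_of_nonneg_left q0 hri0'
    have h3 := mul_le_mul_of_nonneg_left q1 hri1'
    nlinarith
  · have h2 := mul_le_mul_of_nonneg_left s0 hri0
    have h3 := mul_le_mul_of_nonneg_left s1 hri1
    nlinarith

theorem nn_mul {r m : M2} (hr : IsNN r) (hm : IsNN m) : IsNN (r * m) := by
  obtain ⟨hr1, hr2⟩ := hr
  obtain ⟨hm1, hm2⟩ := hm
  refine ⟨?_, ?_⟩
  · intro i j
    simp only [Matrix.mul_apply, Fin.sum_univ_two]
    exact add_nonneg (mul_nonneg (hr1 i 0) (hm1 0 j)) (mul_nonneg (hr1 i 1) (hm1 1 j))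
  · simp only [Matrix.mul_apply, Fin.sum_univ_two]
    linear_combination (m 0 0 * m 1 1 - m 0 1 * m 1 0) * hr2 + hm2

theorem bk_nn {ζ : ℝ} {n : ℕ} {m : M2} (hm : m ∈ Bk ζ n) : IsNN m := (Bka_mem hm).2.1

/-- entries of a block are at most `n` -/
theorem bk_le {ζ : ℝ} {n : ℕ} {m : M2} (hm : m ∈ Bk ζ n) (i j : Fin 2) : m i j ≤ n :=
  ((Bka_mem hm).1 i j).2

end Pool.Agent.CQF
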