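import Pool.Agent.CQF.Far

set_option autoImplicit false

/-!
# Module Bkb (size 4): subnodes `h * m`, and blocks give disjoint subnodes

Let `h = (a b; c d)` be a node and `m` nonnegative of determinant one. `h * m` is a node, and for real `s`:
`s ∈ J (h m)` iff `m01 (a - c s) < m11 (d s - b)` and `m10 (d s - b) < m00 (a - c s)` (clear the positive
denominators).  If `s ∈ J h` then `u = a - c s > 0`, `v = d s - b > 0`.
Conversely `s ∈ J (h m)` implies `s ∈ J h`: the fractions `(a m01 + b m11)/(c m01 + d m11)` and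
`(a m00 + b m10)/(c m00 + d m10)` are in `[b/d, a/c]`.
Put `τ = v/(u + v)`; then `s ∈ J (h m)` iff `m01/y < τ < m00/x` with `x = m00 + m10`, `y = m01 + m11`
(`m01 (1 - τ) < m11 τ` iff `m01 < y τ`; `m10 τ < m00 (1 - τ)` iff `x τ < m00`), i.e. iff `τ` is in the interval
of the node `(m00, m01; x, y)`.  For blocks `x, y ≤ n < x + y`
(`x > (1 - ζ/8) n ≥ 7n/8`, `y > n/2`, `y ≤ (1+ζ/8) n/2 ≤ n`), so this node has order `n`, and
`fa_unique` gives `m00 = m00', m01 = m01', x = x', y = y'`.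
-/

namespace Pool.Agent.CQF

private theorem Bkb_mul (h m : M2) (i j : Fin 2) :
    (h * m) i j = h i 0 * m 0 j + h i 1 * m 1 j := by
  rw [Matrix.mul_apply, Fin.sum_univ_two]

private theorem Bkb_col0 {m : M2} (hm : IsNN m) : 0 < m 0 0 + m 1 0 := by
  obtain ⟨h0, h1⟩ := hm
  have a := h0 0 0
  have b := h0 1 0
  rcases lt_or_eq_of_le (add_nonneg a b) with h | h
  · exact h
  · exfalso
    have e1 : m 0 0 = 0 := by linarith
    have e2 : m 1 0 = 0 := by linarith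
    rw [e1, e2] at h1
    simp at h1

private theorem Bkb_col1 {m : M2} (hm : IsNN m) : 0 < m 0 1 + m 1 1 := by
  obtain ⟨h0, h1⟩ := hm
  have a := h0 0 1
  have b := h0 1 1
  rcases lt_or_eq_of_le (add_nonneg a b) with h | h
  · exact h
  · exfalso
    have e1 : m 0 1 = 0 := by linarith
    have e2 : m 1 1 = 0 := by linarith
    rw [e1, e2] at h1
    simp at h1

private theorem Bkb_comb {c d x y : ℤ} (hc : 0 < c) (hd : 0 < d) (hx : 0 ≤ x) (hy : 0 ≤ y)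
    (hxy : 0 < x + y) : 0 < c * x + d * y := by
  rcases lt_or_eq_of_le hx with h | h
  · have := mul_pos hc h
    have := mul_nonneg hd.le hy
    linarith
  · have hy' : 0 < y := by omega
    have := mul_pos hd hy'
    rw [← h]
    linarith

theorem nd_mul {h m : M2} (hh : IsNd h) (hm : IsNN m) : IsNd (h * m) := by
  have ha := a_pos hh
  have h00 := hm.1 0 0
  have h01 := hm.1 0 1
  have h10 := hm.1 1 0
  have h11 := hm.1 1 1
  refine ⟨?_, ?_, ?_, ?_⟩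
  · simp only [Bkb_mul]
    linear_combination (m 0 0 * m 1 1 - m 0 1 * m 1 0) * hh.det + hm.2
  · rw [Bkb_mul]
    have := mul_nonneg ha.le h01
    have := mul_nonneg hh.b0 h11
    linarith
  · rw [Bkb_mul]
    exact Bkb_comb hh.c0 hh.d0 h00 h10 (Bkb_col0 hm)
  · rw [Bkb_mul]
    exact Bkb_comb hh.c0 hh.d0 h01 h11 (Bkb_col1 hm)

theorem J_mul {h m : M2} (hh : IsNd h) (hm : IsNN m) : J (h * m) ⊆ J h := by
  have hn := nd_mul hh hm
  have h01 := hm.1 0 1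
  have h10 := hm.1 1 0
  intro s hs
  obtain ⟨hs1, hs2⟩ := hs
  have hc : (0 : ℝ) < h 1 0 := by exact_mod_cast hh.c0
  have hd : (0 : ℝ) < h 1 1 := by exact_mod_cast hh.d0
  have hc' : (0 : ℝ) < ((h * m) 1 0 : ℤ) := by exact_mod_cast hn.c0
  have hd' : (0 : ℝ) < ((h * m) 1 1 : ℤ) := by exact_mod_cast hn.d0
  constructor
  · refine lt_of_le_of_lt ?_ hs1
    rw [div_le_div_iff₀ hd hd']
    have : h 0 1 * (h * m) 1 1 ≤ (h * m) 0 1 * h 1 1 := by
      simp only [Bkb_mul]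
      have e : (h 0 0 * m 0 1 + h 0 1 * m 1 1) * h 1 1 -
        h 0 1 * (h 1 0 * m 0 1 + h 1 1 * m 1 1) = m 0 1 := by
        linear_combination (m 0 1) * hh.det
      linarith
    exact_mod_cast this
  · refine lt_of_lt_of_le hs2 ?_
    rw [div_le_div_iff₀ hc' hc]
    have : (h * m) 0 0 * h 1 0 ≤ h 0 0 * (h * m) 1 0 := by
      simp only [Bkb_mul]
      have e : h 0 0 * (h 1 0 * m 0 0 + h 1 1 * m 1 0) -
        (h 0 0 * m 0 0 + h 0 1 * m 1 0) * h 1 0 = m 1 0 := by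
        linear_combination (m 1 0) * hh.det
      linarith
    exact_mod_cast this

theorem nd_mul_lt {K : ℕ} {h m : M2} (hh : IsNd h) (hm : IsNN m) (hK : h 0 0 ≤ K * h 1 0) :
    (h * m) 0 0 ≤ K * (h * m) 1 0 := by
  have h00 := hm.1 0 0
  have h10 := hm.1 1 0
  have hb : h 0 1 ≤ K * h 1 1 := by
    by_contra hcon
    push Not at hcon
    have h1 : K * h 1 1 * h 1 0 < h 0 1 * h 1 0 := mul_lt_mul_of_pos_right hcon hh.c0
    have h2 : h 0 0 * h 1 1 ≤ K * h 1 0 * h 1 1 := mul_le_mul_of_nonneg_right hK hh.d0.le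
    have h3 := hh.det
    nlinarith
  simp only [Bkb_mul]
  have h1 : h 0 0 * m 0 0 ≤ K * h 1 0 * m 0 0 := mul_le_mul_of_nonneg_right hK h00
  have h2 : h 0 1 * m 1 0 ≤ K * h 1 1 * m 1 0 := mul_le_mul_of_nonneg_right hb h10
  nlinarith

private theorem Bkb_node {ζ : ℝ} (h0 : 0 < ζ) (h1 : ζ ≤ 1) {n : ℕ} {h m : M2} (hh : IsNd h)
    (hm : m ∈ Bk ζ n) {s : ℝ} (hs : s ∈ J (h * m)) :
    IsNd (!![m 0 0, m 0 1; m 0 0 + m 1 0, m 0 1 + m 1 1] : M2) ∧
    Win n n (!![m 0 0, m 0 1; m 0 0 + m 1 0, m 0 1 + m 1 1] : M2) ∧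
    ((h 1 1 : ℝ) * s - h 0 1) / (((h 0 0 : ℝ) - h 1 0 * s) + ((h 1 1 : ℝ) * s - h 0 1)) ∈
      J (!![m 0 0, m 0 1; m 0 0 + m 1 0, m 0 1 + m 1 1] : M2) := by
  classical
  unfold Bk at hm
  obtain ⟨-, hnn, hx1, hx2, hy1, hy2⟩ := Finset.mem_filter.1 hm
  have c0 := Bkb_col0 hnn
  have c1 := Bkb_col1 hnn
  have hn := nd_mul hh hnn
  have hsJ := J_mul hh hnn hs
  obtain ⟨hs1, hs2⟩ := hs
  obtain ⟨hj1, hj2⟩ := hsJ
  have hc : (0 : ℝ) < h 1 0 := by exact_mod_cast hh.c0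
  have hd : (0 : ℝ) < h 1 1 := by exact_mod_cast hh.d0
  have hc' : (0 : ℝ) < ((h * m) 1 0 : ℤ) := by exact_mod_cast hn.c0
  have hd' : (0 : ℝ) < ((h * m) 1 1 : ℤ) := by exact_mod_cast hn.d0
  have hn1 : 1 ≤ n := by omega
  have hn1' : (1 : ℝ) ≤ n := by exact_mod_cast hn1
  refine ⟨⟨?_, ?_, ?_, ?_⟩, ⟨?_, ?_, ?_⟩, ?_⟩
  · simp
    linear_combination hnn.2
  · simpa using hnn.1 0 1
  · simpa using c0
  · simpa using c1
  · simpa using hx2
  · have : ((m 0 1 + m 1 1 : ℤ) : ℝ) ≤ n := by nlinarith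
    simp
    exact_mod_cast this
  · have h3 : (n : ℝ) < ((m 0 0 + m 1 0 + (m 0 1 + m 1 1) : ℤ) : ℝ) := by
      have h4 : (n : ℝ) < 2 * ((m 0 1 + m 1 1 : ℤ) : ℝ) := by exact_mod_cast hy1
      push_cast at hx1 h4 ⊢
      nlinarith
    have h5 : (n : ℤ) < m 0 0 + m 1 0 + (m 0 1 + m 1 1) := by exact_mod_cast h3
    simpa using h5
  · rw [div_lt_iff₀ hd] at hj1
    rw [lt_div_iff₀ hc] at hj2
    have hu : 0 < (h 0 0 : ℝ) - h 1 0 * s := by linarith
    have hv : 0 < (h 1 1 : ℝ) * s - h 0 1 := by linarith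
    rw [div_lt_iff₀ hd'] at hs1
    rw [lt_div_iff₀ hc'] at hs2
    simp only [Bkb_mul] at hs1 hs2
    push_cast at hs1 hs2
    have hx : (0 : ℝ) < ((m 0 0 + m 1 0 : ℤ) : ℝ) := by exact_mod_cast c0
    have hy : (0 : ℝ) < ((m 0 1 + m 1 1 : ℤ) : ℝ) := by exact_mod_cast c1
    have huv : 0 < ((h 0 0 : ℝ) - h 1 0 * s) + ((h 1 1 : ℝ) * s - h 0 1) := by linarith
    unfold J
    rw [Set.mem_Ioo]
    simp only [Matrix.of_apply, Matrix.cons_val', Matrix.cons_val_zero, Matrix.cons_val_one,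
      Matrix.cons_val_fin_one, Matrix.empty_val']
    constructor
    · rw [div_lt_div_iff₀ hy huv]
      push_cast
      nlinarith
    · rw [div_lt_div_iff₀ huv hx]
      push_cast
      nlinarith

theorem bk_disj {ζ : ℝ} (h0 : 0 < ζ) (h1 : ζ ≤ 1) {n : ℕ} {h m m' : M2} (hh : IsNd h)
    (hm : m ∈ Bk ζ n) (hm' : m' ∈ Bk ζ n) {s : ℝ} (hs : s ∈ J (h * m)) (hs' : s ∈ J (h * m')) :
    m = m' := by
  obtain ⟨a1, a2, a3⟩ := Bkb_node h0 h1 hh hm hs
  obtain ⟨b1, b2, b3⟩ := Bkb_node h0 h1 hh hm' hs'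
  have e := fa_unique a1 b1 a2 b2 a3 b3
  have e00 : m 0 0 = m' 0 0 := by simpa using congrFun (congrFun e 0) 0
  have e01 : m 0 1 = m' 0 1 := by simpa using congrFun (congrFun e 0) 1
  have e10 : m 0 0 + m 1 0 = m' 0 0 + m' 1 0 := by simpa using congrFun (congrFun e 1) 0
  have e11 : m 0 1 + m 1 1 = m' 0 1 + m' 1 1 := by simpa using congrFun (congrFun e 1) 1
  ext i j
  fin_cases i <;> fin_cases j
  · exact e00
  · exact e01
  · show m 1 0 = m' 1 0
    linarith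
  · show m 1 1 = m' 1 1
    linarith

end Pool.Agent.CQF
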