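import Pool.Agent.CQF.Def

set_option autoImplicit false

/-!
# Module Bkc (size 4): number of blocks

For every coprime pair `(x, y)` of positive integers there are `0 ≤ m01 < y`, `0 < m00 ≤ x` with
`m00 y - m01 x = 1`; then `m = (m00, m01; x - m00, y - m01)` is nonnegative of determinant
`m00 (y - m01) - m01 (x - m00) = 1`, and has column sums `x, y`.  So `|Bk ζ n|` is at least the number of
coprime pairs with `(1 - ζ/8) n < x ≤ n`, `n < 2y ≤ (1 + ζ/8) n`.  The box has about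
`H = ζ n/8` values of `x` and `H/2` values of `y` (up to `±1`), and the number of
pairs in the box with a common divisor is at most `∑_{k = 2}^{n} (H/k + 1)(H/(2k) + 1)`
`≤ (H²/2) ∑_{k≥2} 1/k² + (3H/2)(1 + log n) + n`, where `∑_{k ≥ 2} 1/k² = π²/6 - 1 < 0.65`
(or elementary: `∑_{k≥2} 1/k² ≤ 1/4 + 1/9 + 1/16 + ∑_{k ≥ 5} 1/(k(k-1)) = 0.423 + 0.25 < 0.68`).
Hence at least `c n²` pairs for `n ≥ n0(ζ)`.
-/

namespace Pool.Agent.CQF

open Finset

private theorem Bkc_inv (N : ℕ) (hN : 2 ≤ N) :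
    ∑ k ∈ Icc 2 N, 1 / (k : ℝ) ^ 2 + 1 / (N : ℝ) ≤ 3 / 4 := by
  induction N, hN using Nat.le_induction with
  | base => norm_num
  | succ N hN ih =>
    rw [show Icc 2 (N + 1) = insert (N + 1) (Icc 2 N) from by
      ext x
      simp only [mem_Icc, mem_insert]
      omega, sum_insert (by simp)]
    have hN0 : (0 : ℝ) < N := by
      have : 0 < N := by omega
      exact_mod_cast this
    have h1 : 1 / ((N + 1 : ℕ) : ℝ) ^ 2 + 1 / ((N + 1 : ℕ) : ℝ) ≤ 1 / (N : ℝ) := by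
      push_cast
      rw [div_add_div _ _ (by positivity) (by positivity), div_le_div_iff₀ (by positivity) hN0]
      nlinarith
    linarith

private theorem Bkc_mult (a b k : ℕ) (hab : a ≤ b) (hk : 0 < k) :
    (((Ioc a b).filter (fun x => k ∣ x)).card : ℝ) ≤ ((b : ℝ) - a) / k + 1 := by
  have h1 : ((Ioc 0 b).filter (fun x => k ∣ x)).card =
      ((Ioc 0 a).filter (fun x => k ∣ x)).card + ((Ioc a b).filter (fun x => k ∣ x)).card := by
    rw [← card_union_of_disjoint]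
    · rw [← filter_union, Ioc_union_Ioc_eq_Ioc (Nat.zero_le _) hab]
    · apply disjoint_filter_filter
      rw [disjoint_left]
      intro x hx hx'
      rw [mem_Ioc] at hx hx'
      omega
  rw [Nat.Ioc_filter_dvd_card_eq_div, Nat.Ioc_filter_dvd_card_eq_div] at h1
  have h2 : (((b / k : ℕ)) : ℝ) = ((a / k : ℕ) : ℝ) + (((Ioc a b).filter (fun x => k ∣ x)).card : ℝ) := by
    exact_mod_cast h1
  have h3 : ((b / k : ℕ) : ℝ) ≤ (b : ℝ) / k := Nat.cast_div_le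
  have h4 : (a : ℝ) < k * (((a / k : ℕ) : ℝ) + 1) := by
    exact_mod_cast Nat.lt_mul_div_succ a hk
  have hk0 : (0 : ℝ) < k := by exact_mod_cast hk
  have h5 : (a : ℝ) / k < ((a / k : ℕ) : ℝ) + 1 := by
    rw [div_lt_iff₀ hk0]
    linarith
  rw [sub_div]
  linarith

private theorem Bkc_noncop (a b n c : ℕ) (A B : ℝ) (han : a ≤ n) (hcb : c ≤ b) (hn : 2 ≤ n)
    (hA : (n : ℝ) - a ≤ A) (hB : (b : ℝ) - c ≤ B) (hA0 : 0 ≤ A) (hB0 : 0 ≤ B) :
    ((((Ioc a n) ×ˢ (Ioc c b)).filter (fun p => ¬ Nat.Coprime p.1 p.2)).card : ℝ) ≤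
      3 / 4 * (A * B + (A + B) ^ 2 / 50) + 27 / 2 * n := by
  have h1 : ((Ioc a n) ×ˢ (Ioc c b)).filter (fun p => ¬ Nat.Coprime p.1 p.2) ⊆
      (Icc 2 n).biUnion (fun k => ((Ioc a n).filter (fun x => k ∣ x)) ×ˢ
        ((Ioc c b).filter (fun x => k ∣ x))) := by
    intro p hp
    rw [mem_filter, mem_product, mem_Ioc, mem_Ioc] at hp
    rw [mem_biUnion]
    have h2 : Nat.gcd p.1 p.2 ∣ p.1 := Nat.gcd_dvd_left _ _
    have h3 : Nat.gcd p.1 p.2 ∣ p.2 := Nat.gcd_dvd_right _ _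
    have h4 : 0 < Nat.gcd p.1 p.2 := Nat.gcd_pos_of_pos_left _ (by omega)
    have h5 : Nat.gcd p.1 p.2 ≤ p.1 := Nat.le_of_dvd (by omega) h2
    have h6 : Nat.gcd p.1 p.2 ≠ 1 := hp.2
    refine ⟨Nat.gcd p.1 p.2, ?_, ?_⟩
    · rw [mem_Icc]
      omega
    · rw [mem_product, mem_filter, mem_filter, mem_Ioc, mem_Ioc]
      exact ⟨⟨hp.1.1, h2⟩, ⟨hp.1.2, h3⟩⟩
  have h2 : ((((Ioc a n) ×ˢ (Ioc c b)).filter (fun p => ¬ Nat.Coprime p.1 p.2)).card : ℝ) ≤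
      ∑ k ∈ Icc 2 n, (A / k + 1) * (B / k + 1) := by
    have h3 := (card_le_card h1).trans card_biUnion_le
    have h4 : ((((Ioc a n) ×ˢ (Ioc c b)).filter (fun p => ¬ Nat.Coprime p.1 p.2)).card : ℝ) ≤
        ∑ k ∈ Icc 2 n, (((((Ioc a n).filter (fun x => k ∣ x)) ×ˢ
        ((Ioc c b).filter (fun x => k ∣ x))).card : ℕ) : ℝ) := by exact_mod_cast h3
    refine h4.trans (sum_le_sum fun k hk => ?_)
    rw [mem_Icc] at hk
    have hk0 : (0 : ℝ) < k := by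
      have : 0 < k := by omega
      exact_mod_cast this
    rw [card_product]
    push_cast
    apply mul_le_mul
    · refine (Bkc_mult a n k han (by omega)).trans ?_
      gcongr
    · refine (Bkc_mult c b k hcb (by omega)).trans ?_
      gcongr
    · positivity
    · positivity
  refine h2.trans ?_
  have h3 : ∀ k ∈ Icc 2 n, (A / k + 1) * (B / k + 1) ≤
      (A * B + (A + B) ^ 2 / 50) * (1 / (k : ℝ) ^ 2) + 27 / 2 := by
    intro k hk
    rw [mem_Icc] at hk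
    have hk0 : (0 : ℝ) < k := by
      have : 0 < k := by omega
      exact_mod_cast this
    have h4 : (A / k + 1) * (B / k + 1) = A * B * (1 / (k : ℝ) ^ 2) + (A + B) / k + 1 := by
      field_simp
      ring
    have h5 : (A + B) / k ≤ (A + B) ^ 2 / 50 * (1 / (k : ℝ) ^ 2) + 25 / 2 := by
      have h6 : (A + B) ^ 2 / 50 * (1 / (k : ℝ) ^ 2) = ((A + B) / k) ^ 2 / 50 := by
        field_simp
      rw [h6]
      nlinarith [sq_nonneg ((A + B) / k - 25)]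
    rw [h4]
    linarith
  refine (sum_le_sum h3).trans ?_
  rw [sum_add_distrib, ← mul_sum, sum_const, nsmul_eq_mul, Nat.card_Icc]
  have h4 := Bkc_inv n hn
  have h5 : 0 ≤ 1 / (n : ℝ) := by positivity
  have h6 : ∑ k ∈ Icc 2 n, 1 / (k : ℝ) ^ 2 ≤ 3 / 4 := by linarith
  have h7 : 0 ≤ A * B + (A + B) ^ 2 / 50 := by positivity
  have h8 : ((n + 1 - 2 : ℕ) : ℝ) ≤ n := by
    have : n + 1 - 2 ≤ n := by omega
    exact_mod_cast this
  have h9 := mul_le_mul_of_nonneg_left h6 h7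
  linarith

private theorem Bkc_mem (ζ : ℝ) (h1 : ζ ≤ 1) (n x y : ℕ) (hx1 : 1 < x) (hxn : x ≤ n)
    (hx : (1 - ζ / 8) * (n : ℝ) < x) (hy : n < 2 * y) (hy2 : 2 * (y : ℝ) ≤ (1 + ζ / 8) * n)
    (hc : Nat.Coprime x y) : ∃ m ∈ Bk ζ n, m 0 0 + m 1 0 = x ∧ m 0 1 + m 1 1 = y := by
  obtain ⟨m0, hm0⟩ := Nat.exists_mul_mod_eq_one_of_coprime hc.symm hx1
  have hn0 : (0 : ℝ) ≤ n := Nat.cast_nonneg _
  have hyn : y ≤ n := by
    have : (y : ℝ) ≤ n := by nlinarith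
    exact_mod_cast this
  set u := m0 % x with hu
  have hux : u < x := Nat.mod_lt _ (by omega)
  have hu1 : y * u % x = 1 := by
    rw [hu, Nat.mul_mod_mod]
    exact hm0.2
  have hdiv : x * (y * u / x) + 1 = y * u := by
    have := Nat.div_add_mod (y * u) x
    rw [hu1] at this
    exact this
  set q := y * u / x with hq
  have hqy : q < y := by
    have h2 : x * q < x * y := by
      calc x * q < x * q + 1 := Nat.lt_succ_self _
        _ = y * u := hdiv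
        _ ≤ y * x := Nat.mul_le_mul le_rfl hux.le
        _ = x * y := mul_comm _ _
    exact Nat.lt_of_mul_lt_mul_left h2
  have hdz : (x : ℤ) * q + 1 = y * u := by exact_mod_cast hdiv
  clear_value q u
  classical
  refine ⟨!![(u : ℤ), (q : ℤ); (x : ℤ) - u, (y : ℤ) - q], ?_, by simp, by simp⟩
  unfold Bk
  refine mem_filter.2 ⟨?_, ⟨?_, ?_⟩, ?_, ?_, ?_, ?_⟩
  · unfold box
    refine Fintype.mem_piFinset.2 fun i => Fintype.mem_piFinset.2 fun j => mem_Icc.2 ?_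
    fin_cases i <;> fin_cases j
    · show (0 : ℤ) ≤ (u : ℤ) ∧ (u : ℤ) ≤ n
      omega
    · show (0 : ℤ) ≤ (q : ℤ) ∧ (q : ℤ) ≤ n
      omega
    · show (0 : ℤ) ≤ (x : ℤ) - u ∧ (x : ℤ) - u ≤ n
      omega
    · show (0 : ℤ) ≤ (y : ℤ) - q ∧ (y : ℤ) - q ≤ n
      omega
  · intro i j
    fin_cases i <;> fin_cases j
    · show (0 : ℤ) ≤ (u : ℤ)
      omega
    · show (0 : ℤ) ≤ (q : ℤ)
      omega
    · show (0 : ℤ) ≤ (x : ℤ) - u
      omega
    · show (0 : ℤ) ≤ (y : ℤ) - q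
      omega
  · show (u : ℤ) * ((y : ℤ) - q) - (q : ℤ) * ((x : ℤ) - u) = 1
    linarith
  · show (1 - ζ / 8) * (n : ℝ) < (((u : ℤ) + ((x : ℤ) - u) : ℤ) : ℝ)
    push_cast
    linarith
  · show (u : ℤ) + ((x : ℤ) - u) ≤ n
    omega
  · show (n : ℤ) < 2 * ((q : ℤ) + ((y : ℤ) - q))
    omega
  · show 2 * (((q : ℤ) + ((y : ℤ) - q) : ℤ) : ℝ) ≤ (1 + ζ / 8) * n
    push_cast
    linarith

theorem bk_card (ζ : ℝ) (h0 : 0 < ζ) (h1 : ζ ≤ 1) : ∃ c : ℝ, 0 < c ∧ ∃ n0 : ℕ, ∀ n, n0 ≤ n →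
    c * (n : ℝ) ^ 2 ≤ ((Bk ζ n).card : ℝ) := by
  classical
  refine ⟨ζ ^ 2 / 2000, by positivity, ⌈30000 / ζ ^ 2⌉₊, fun n hn => ?_⟩
  have hnr : 30000 / ζ ^ 2 ≤ (n : ℝ) := (Nat.le_ceil _).trans (by exact_mod_cast hn)
  rw [div_le_iff₀ (by positivity)] at hnr
  have hz1 : ζ ^ 2 ≤ 1 := by nlinarith
  have hn0' : (0 : ℝ) ≤ n := Nat.cast_nonneg _
  have hn3 : (30000 : ℝ) ≤ n := by nlinarith
  have hn2 : 30000 ≤ n := by exact_mod_cast hn3
  set H : ℝ := ζ * n / 8 with hH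
  have hH0 : 0 ≤ H := by positivity
  have hHn : H ≤ n / 8 := by
    rw [hH]
    nlinarith
  set a : ℕ := ⌊(1 - ζ / 8) * (n : ℝ)⌋₊ with ha
  set b : ℕ := ⌊(1 + ζ / 8) * (n : ℝ) / 2⌋₊ with hb
  have ha0 : 0 ≤ (1 - ζ / 8) * (n : ℝ) := mul_nonneg (by linarith) hn0'
  have hb0 : 0 ≤ (1 + ζ / 8) * (n : ℝ) / 2 := by positivity
  have ha1 : (a : ℝ) ≤ (1 - ζ / 8) * (n : ℝ) := Nat.floor_le ha0
  have ha2 : (1 - ζ / 8) * (n : ℝ) < a + 1 := Nat.lt_floor_add_one _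
  have hb1 : (b : ℝ) ≤ (1 + ζ / 8) * (n : ℝ) / 2 := Nat.floor_le hb0
  have hb2 : (1 + ζ / 8) * (n : ℝ) / 2 < b + 1 := Nat.lt_floor_add_one _
  have hc1 : ((n / 2 : ℕ) : ℝ) ≤ n / 2 := Nat.cast_div_le
  have hc2 : (n : ℝ) / 2 ≤ ((n / 2 : ℕ) : ℝ) + 1 := by
    have h2 : n ≤ 2 * (n / 2) + 1 := by omega
    have h3 : (n : ℝ) ≤ 2 * ((n / 2 : ℕ) : ℝ) + 1 := by exact_mod_cast h2
    linarith
  have han : a ≤ n := by
    have : (a : ℝ) ≤ n := by nlinarith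
    exact_mod_cast this
  have hcb : n / 2 ≤ b := by
    apply Nat.le_floor
    calc ((n / 2 : ℕ) : ℝ) ≤ n / 2 := hc1
      _ ≤ (1 + ζ / 8) * (n : ℝ) / 2 := by nlinarith
  have hHe : (1 - ζ / 8) * (n : ℝ) = n - H := by rw [hH]; ring
  have hHe2 : (1 + ζ / 8) * (n : ℝ) / 2 = n / 2 + H / 2 := by rw [hH]; ring
  rw [hHe] at ha1 ha2
  rw [hHe2] at hb1 hb2
  have key := Bkc_noncop a b n (n / 2) (H + 1) (H / 2 + 1) han hcb (by omega) (by linarith)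
    (by linarith) (by linarith) (by linarith)
  set S := ((Ioc a n) ×ˢ (Ioc (n / 2) b)).filter (fun p => Nat.Coprime p.1 p.2) with hS
  have hcard : (((Ioc a n) ×ˢ (Ioc (n / 2) b)).card : ℝ) = (S.card : ℝ) +
      ((((Ioc a n) ×ˢ (Ioc (n / 2) b)).filter (fun p => ¬ Nat.Coprime p.1 p.2)).card : ℝ) := by
    have := card_filter_add_card_filter_not (s := (Ioc a n) ×ˢ (Ioc (n / 2) b))
      (fun p => Nat.Coprime p.1 p.2)
    exact_mod_cast this.symm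
  have hcard2 : H * (H / 2 - 1) ≤ (((Ioc a n) ×ˢ (Ioc (n / 2) b)).card : ℝ) := by
    rw [card_product, Nat.card_Ioc, Nat.card_Ioc]
    push_cast [Nat.cast_sub han, Nat.cast_sub hcb]
    by_cases h5 : 0 ≤ H / 2 - 1
    · apply mul_le_mul (by linarith) (by linarith) h5 (by linarith)
    · have h6 : (((n / 2 : ℕ)) : ℝ) ≤ b := by exact_mod_cast hcb
      have h7 : 0 ≤ ((n : ℝ) - a) * ((b : ℝ) - ((n / 2 : ℕ) : ℝ)) := mul_nonneg (by linarith) (by linarith)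
      have h8 : H * (H / 2 - 1) ≤ 0 := mul_nonpos_of_nonneg_of_nonpos hH0 (by linarith)
      linarith
  have hsurj : S.card ≤ (Bk ζ n).card := by
    apply card_le_card_of_surjOn (fun m : M2 => ((m 0 0 + m 1 0).toNat, (m 0 1 + m 1 1).toNat))
    intro p hp
    rw [hS, mem_coe, mem_filter, mem_product, mem_Ioc, mem_Ioc] at hp
    obtain ⟨⟨⟨hp1, hp2⟩, hp3, hp4⟩, hp5⟩ := hp
    have hx : (1 - ζ / 8) * (n : ℝ) < p.1 := by
      have h6 : a + 1 ≤ p.1 := hp1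
      have h7 : (a : ℝ) + 1 ≤ p.1 := by exact_mod_cast h6
      rw [hHe]
      linarith
    have hy2 : 2 * (p.2 : ℝ) ≤ (1 + ζ / 8) * n := by
      have h7 : (p.2 : ℝ) ≤ b := by exact_mod_cast hp4
      have h8 : (1 + ζ / 8) * (n : ℝ) = 2 * (n / 2 + H / 2) := by rw [← hHe2]; ring
      rw [h8]
      linarith
    have hx1 : 1 < p.1 := by
      have h7 : (1 : ℝ) < p.1 := by
        rw [hHe] at hx
        linarith
      exact_mod_cast h7
    obtain ⟨m, hm, hm1, hm2⟩ := Bkc_mem ζ h1 n p.1 p.2 hx1 hp2 hx (by omega) hy2 hp5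
    refine ⟨m, hm, ?_⟩
    simp only [hm1, hm2, Int.toNat_natCast]
  have hfin : (S.card : ℝ) ≤ ((Bk ζ n).card : ℝ) := by exact_mod_cast hsurj
  refine le_trans ?_ hfin
  have e1 : (S.card : ℝ) ≥ H * (H / 2 - 1) - (3 / 4 * ((H + 1) * (H / 2 + 1) +
      ((H + 1) + (H / 2 + 1)) ^ 2 / 50) + 27 / 2 * n) := by linarith
  have e2 : H * (H / 2 - 1) - (3 / 4 * ((H + 1) * (H / 2 + 1) +
      ((H + 1) + (H / 2 + 1)) ^ 2 / 50) + 27 / 2 * n) =
      73 / 800 * H ^ 2 - 443 / 200 * H - 81 / 100 - 27 / 2 * n := by ring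
  have e3 : H ^ 2 = ζ ^ 2 * n ^ 2 / 64 := by rw [hH]; ring
  have e4 : 30000 * (n : ℝ) ≤ ζ ^ 2 * n ^ 2 := by nlinarith
  rw [e2, e3] at e1
  nlinarith

end Pool.Agent.CQF
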