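import Mathlib

set_option autoImplicit false

/-!
# Module Dv (size 2): divisor bound

`τ(k) ≤ C k^{1/64}`. Proofs exist in the library on main, e.g. the lemma at line 30 of
`Pool/Agent/Results/MP_0581eb_nt/CantorCount.lean` (copy the proof here, do not import a Results file).
-/

namespace Pool.Agent.CQF

open Finset Real in
/-- Divisor bound: for every `δ > 0` there is `C` with `τ(n) ≤ C n^δ`. -/
private lemma dv_divisor_bound (δ : ℝ) (hδ : 0 < δ) :
    ∃ C : ℝ, 1 ≤ C ∧ ∀ n : ℕ, n ≠ 0 → (n.divisors.card : ℝ) ≤ C * (n : ℝ) ^ δ := by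
  -- a bound for small primes
  obtain ⟨B, hB1, hB⟩ : ∃ B : ℝ, 1 ≤ B ∧ ∀ a : ℕ, ((a : ℝ) + 1) ≤ B * (2 : ℝ) ^ (δ * a) := by
    have hl : 0 < δ * Real.log 2 := mul_pos hδ (Real.log_pos one_lt_two)
    refine ⟨1 + 1 / (δ * Real.log 2), ?_, ?_⟩
    · have : 0 ≤ 1 / (δ * Real.log 2) := by positivity
      linarith
    · intro a
      have h1 : (2 : ℝ) ^ (δ * a) = Real.exp (δ * Real.log 2 * a) := by
        rw [Real.rpow_def_of_pos two_pos]; congr 1; ring
      have h2 := Real.add_one_le_exp (δ * Real.log 2 * a)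
      rw [h1]
      have h3 : (a : ℝ) + 1 ≤ (1 + 1 / (δ * Real.log 2)) * (δ * Real.log 2 * a + 1) := by
        have h4 : (1 + 1 / (δ * Real.log 2)) * (δ * Real.log 2 * a + 1) =
            δ * Real.log 2 * a + 1 + a + 1 / (δ * Real.log 2) := by field_simp; ring
        rw [h4]
        have : 0 ≤ δ * Real.log 2 * a := by positivity
        have : 0 ≤ 1 / (δ * Real.log 2) := by positivity
        linarith
      refine h3.trans ?_
      have : 0 ≤ 1 + 1 / (δ * Real.log 2) := by positivity
      exact mul_le_mul_of_nonneg_left h2 this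
  obtain ⟨P, hP⟩ : ∃ P : ℕ, (2 : ℝ) ^ (1 / δ) ≤ P := exists_nat_ge _
  refine ⟨B ^ P, one_le_pow₀ hB1, ?_⟩
  intro n hn
  have key : ∀ p ∈ n.primeFactors, ((n.factorization p : ℝ) + 1) ≤
      (if p < P then B else 1) * ((p : ℝ) ^ (n.factorization p)) ^ δ := by
    intro p hp
    have hpp : p.Prime := Nat.prime_of_mem_primeFactors hp
    have hp2 : (2 : ℝ) ≤ p := by exact_mod_cast hpp.two_le
    have hpow : ((p : ℝ) ^ (n.factorization p)) ^ δ = (p : ℝ) ^ (δ * n.factorization p) := by
      rw [← Real.rpow_natCast, ← Real.rpow_mul (by linarith)]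
      congr 1; ring
    rw [hpow]
    split_ifs with h
    · refine (hB _).trans ?_
      apply mul_le_mul_of_nonneg_left _ (by linarith)
      exact Real.rpow_le_rpow (by norm_num) hp2 (by positivity)
    · have h1 : (2 : ℝ) ^ (1 / δ) ≤ p := hP.trans (by exact_mod_cast not_lt.mp h)
      have h2 : (2 : ℝ) ≤ (p : ℝ) ^ δ := by
        have := Real.rpow_le_rpow (by positivity) h1 hδ.le
        rwa [← Real.rpow_mul (by norm_num), one_div_mul_cancel hδ.ne', Real.rpow_one] at this
      rw [one_mul, Real.rpow_mul (by linarith), Real.rpow_natCast]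
      have h3 : ((n.factorization p : ℝ) + 1) ≤ 2 ^ (n.factorization p) := by
        have := Nat.lt_two_pow_self (n := n.factorization p)
        exact_mod_cast this
      exact h3.trans (pow_le_pow_left₀ (by norm_num) h2 _)
  have h1 : (n.divisors.card : ℝ) = ∏ p ∈ n.primeFactors, ((n.factorization p : ℝ) + 1) := by
    rw [Nat.card_divisors hn]; push_cast; rfl
  have h2 : (n : ℝ) ^ δ = ∏ p ∈ n.primeFactors, ((p : ℝ) ^ (n.factorization p)) ^ δ := by
    rw [Real.finsetProd_rpow _ _ (fun p _ => by positivity)]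
    congr 1
    have := Nat.prod_factorization_pow_eq_self hn
    conv_lhs => rw [← this]
    rw [Finsupp.prod, Nat.support_factorization]
    push_cast
    rfl
  rw [h1, h2]
  refine (Finset.prod_le_prod (fun p _ => by positivity) key).trans ?_
  rw [Finset.prod_mul_distrib]
  apply mul_le_mul_of_nonneg_right _ (Finset.prod_nonneg (fun p _ => by positivity))
  rw [Finset.prod_ite, Finset.prod_const, Finset.prod_const_one, mul_one]
  apply pow_le_pow_right₀ hB1
  calc (n.primeFactors.filter (fun p => p < P)).card ≤ (Finset.range P).card :=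
        Finset.card_le_card (fun p hp => by simp at hp; simpa using hp.2)
    _ = P := Finset.card_range P

theorem tau_le : ∃ C : ℝ, 1 ≤ C ∧ ∀ k : ℕ, 1 ≤ k →
    (k.divisors.card : ℝ) ≤ C * (k : ℝ) ^ (1 / 64 : ℝ) := by
  obtain ⟨C, h1, h⟩ := dv_divisor_bound (1 / 64) (by norm_num)
  exact ⟨C, h1, fun k hk => h k (by omega)⟩

end Pool.Agent.CQF
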