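import Pool.Agent.CQF.Def
import Pool.Agent.CQF.Dv

set_option autoImplicit false

/-!
# Module Coa (size 5): matrices `m` with `det m = det (m + p X) = 1`, for fixed `X ≠ 0`

`m = (a b; c d)`, entries in `[1, n]`, `X = (x11 x12; x21 x22) ≠ 0`, `p |x_ij| ≤ n`, `1 ≤ p ≤ n`.
`det (m + pX) = 1` gives (∗) `a x22 + d x11 - b x21 - c x12 = - p det X`.
Case 1, `x22 ≠ 0`. Then
`(x22 b - x12 d)(x22 c - x21 d) = - det X (d² + p x22 d) - x22² =: R(d)` (use `ad - bc = 1` and (∗) times
`x22 d`).  For each `d ∈ [1, n]` with `R(d) ≠ 0`: `x22 b - x12 d` is one of the `≤ 2 τ(|R(d)|)` integer divisors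
of `R(d)`, it determines `b`, then `c`, then `a` by (∗). `|R(d)| ≤ 2 (n/p)² · 2 n² + n² ≤ 5 n⁴`, so
`τ ≤ C (5 n⁴)^{1/64}`. If `R(d) = 0`: then `det X ≠ 0` (otherwise `R = - x22² ≠ 0`), so at most two such `d`
(quadratic in `d`), and for each of them `x22 b = x12 d` or `x22 c = x21 d`; so at most `2n` choices of `(b, c)`,
and `a` is determined. Total `≤ n · 2 C (5n⁴)^{1/64} + 4 n`.
Case 2, `x22 = 0, x11 ≠ 0`: exchange the roles: `m' = (d b; c a)`, `X' = (x22 x12; x21 x11)`.
Case 3, `x11 = x22 = 0`: (∗) is `b x21 + c x12 = - p x12 x21`. If `x12, x21 ≠ 0`, `b` determines `c`, and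
`a d = 1 + b c ≤ 2 n²` has at most `τ(1 + bc)` solutions.  If `x12 ≠ 0 = x21` then `c = 0`, excluded; if
`x21 ≠ 0 = x12` then `b = 0`, excluded.
-/

namespace Pool.Agent.CQF

private lemma coa_tau : ∃ C : ℝ, 1 ≤ C ∧ ∀ n k : ℕ, 1 ≤ n → 1 ≤ k → k ≤ 5 * n ^ 4 →
    (k.divisors.card : ℝ) ≤ C * (n : ℝ) ^ (1 / 16 : ℝ) := by
  obtain ⟨C, hC, h⟩ := tau_le
  refine ⟨5 * C, by linarith, fun n k hn hk hkn => ?_⟩
  have hn' : (0:ℝ) < n := by exact_mod_cast hn
  have h1 : (k : ℝ) ^ (1/64 : ℝ) ≤ ((5:ℝ) * (n:ℝ)^4) ^ (1/64:ℝ) := by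
    apply Real.rpow_le_rpow (by positivity) _ (by norm_num)
    exact_mod_cast hkn
  have h2 : ((5:ℝ) * (n:ℝ)^4) ^ (1/64:ℝ) ≤ 5 * (n:ℝ)^(1/16:ℝ) := by
    rw [Real.mul_rpow (by norm_num) (by positivity)]
    have h3 : ((n:ℝ)^4) ^ (1/64:ℝ) = (n:ℝ)^(1/16:ℝ) := by
      rw [← Real.rpow_natCast, ← Real.rpow_mul hn'.le]; norm_num
    rw [h3]
    apply mul_le_mul_of_nonneg_right _ (by positivity)
    calc (5:ℝ)^(1/64:ℝ) ≤ 5^(1:ℝ) := Real.rpow_le_rpow_of_exponent_le (by norm_num) (by norm_num)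
      _ = 5 := Real.rpow_one 5
  calc (k.divisors.card : ℝ) ≤ C * (k:ℝ)^(1/64:ℝ) := h k hk
    _ ≤ C * (5 * (n:ℝ)^(1/16:ℝ)) := mul_le_mul_of_nonneg_left (h1.trans h2) (by linarith)
    _ = 5 * C * (n:ℝ)^(1/16:ℝ) := by ring

private lemma coa_idiv (R : ℤ) (hR : R ≠ 0) (T : Finset ℤ) (hT : ∀ e ∈ T, e ∣ R) :
    T.card ≤ 2 * R.natAbs.divisors.card := by
  classical
  have hsub : T ⊆ (R.natAbs.divisors.image (fun k : ℕ => (k : ℤ))) ∪
      (R.natAbs.divisors.image (fun k : ℕ => -(k : ℤ))) := by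
    intro e he
    have h1 : e.natAbs ∈ R.natAbs.divisors := by
      rw [Nat.mem_divisors]
      exact ⟨Int.natAbs_dvd_natAbs.mpr (hT e he), by simpa using hR⟩
    rw [Finset.mem_union, Finset.mem_image, Finset.mem_image]
    rcases Int.natAbs_eq e with h | h
    · exact Or.inl ⟨e.natAbs, h1, h.symm⟩
    · exact Or.inr ⟨e.natAbs, h1, h.symm⟩
  calc T.card ≤ _ := Finset.card_le_card hsub
    _ ≤ _ + _ := Finset.card_union_le _ _
    _ ≤ R.natAbs.divisors.card + R.natAbs.divisors.card :=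
        Nat.add_le_add Finset.card_image_le Finset.card_image_le
    _ = _ := by ring

private lemma coa_sum (n : ℕ) (M : ℝ) (hM : 0 ≤ M) (S : Finset M2) (f : M2 → ℤ)
    (hf : ∀ m ∈ S, 1 ≤ f m ∧ f m ≤ n) (P : Finset ℤ)
    (h1 : ∀ e : ℤ, e ∉ P → 1 ≤ e → e ≤ n → ((S.filter (fun m => f m = e)).card : ℝ) ≤ M)
    (h2 : ∀ e ∈ P, ((S.filter (fun m => f m = e)).card : ℝ) ≤ 2 * n) :
    (S.card : ℝ) ≤ n * M + P.card * (2 * n) := by
  classical
  have hS : S.card = ∑ e ∈ Finset.Icc (1:ℤ) n, (S.filter (fun m => f m = e)).card := by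
    apply Finset.card_eq_sum_card_fiberwise
    intro m hm
    have := hf m hm
    exact Finset.mem_coe.mpr (Finset.mem_Icc.mpr this)
  rw [hS]
  push_cast
  have hb : ∀ e ∈ Finset.Icc (1:ℤ) n, ((S.filter (fun m => f m = e)).card : ℝ) ≤
      M + (if e ∈ P then (2 * n : ℝ) else 0) := by
    intro e he
    rw [Finset.mem_Icc] at he
    split_ifs with h
    · have := h2 e h
      linarith
    · have := h1 e h he.1 he.2
      linarith
  refine (Finset.sum_le_sum hb).trans ?_
  rw [Finset.sum_add_distrib, Finset.sum_const, Int.card_Icc, nsmul_eq_mul]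
  have e1 : (((n:ℤ) + 1 - 1).toNat : ℝ) = n := by simp
  rw [e1]
  apply add_le_add_right
  rw [← Finset.sum_filter, Finset.sum_const, nsmul_eq_mul]
  apply mul_le_mul_of_nonneg_right _ (by positivity)
  have : ((Finset.Icc (1:ℤ) n).filter (fun e => e ∈ P)).card ≤ P.card := by
    apply Finset.card_le_card
    intro e he
    exact (Finset.mem_filter.mp he).2
  exact_mod_cast this

private lemma coa_icc (n : ℕ) (S : Finset M2) (g : M2 → ℤ) (hg : ∀ m ∈ S, 1 ≤ g m ∧ g m ≤ n)
    (hinj : ∀ m ∈ S, ∀ m' ∈ S, g m = g m' → m = m') : S.card ≤ n := by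
  classical
  have := Finset.card_le_card_of_injOn (s := S) (t := Finset.Icc (1:ℤ) n) g
    (fun m hm => Finset.mem_coe.mpr (Finset.mem_Icc.mpr (hg m hm)))
    (fun m hm m' hm' h => hinj m hm m' hm' h)
  simpa using this

private lemma coa_ext (m m' : M2) (h00 : m 0 0 = m' 0 0) (h01 : m 0 1 = m' 0 1)
    (h10 : m 1 0 = m' 1 0) (h11 : m 1 1 = m' 1 1) : m = m' := by
  ext i j
  fin_cases i <;> fin_cases j <;> assumption

private lemma coa_case1 : ∃ C : ℝ, 1 ≤ C ∧ ∀ p n : ℕ, 1 ≤ p → p ≤ n → ∀ u v w t : ℤ, t ≠ 0 →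
    (p : ℤ) * |u| ≤ n → (p : ℤ) * |v| ≤ n → (p : ℤ) * |w| ≤ n → (p : ℤ) * |t| ≤ n →
    ∀ S : Finset M2, (∀ m ∈ S, (∀ i j, 1 ≤ m i j ∧ m i j ≤ n) ∧
      m 0 0 * m 1 1 - m 0 1 * m 1 0 = 1 ∧
      m 0 0 * t + m 1 1 * u - m 0 1 * w - m 1 0 * v = - p * (u * t - v * w)) →
    (S.card : ℝ) ≤ C * (n : ℝ) ^ (1 + 1 / 16 : ℝ) := by
  classical
  obtain ⟨C, hC, htau⟩ := coa_tau
  refine ⟨2 * C + 4, by linarith, ?_⟩
  intro p n hp hpn u v w t ht hu hv hw ht' S hS
  have hn : 1 ≤ n := hp.trans hpn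
  have hnR : (1:ℝ) ≤ n := by exact_mod_cast hn
  have hnZ : (1:ℤ) ≤ n := by exact_mod_cast hn
  have hpZ : (1:ℤ) ≤ p := by exact_mod_cast hp
  set Dt : ℤ := u * t - v * w with hDt
  set R : ℤ → ℤ := fun d => - Dt * (d ^ 2 + p * t * d) - t ^ 2 with hRdef
  have hkey : ∀ m ∈ S, (t * m 0 1 - v * m 1 1) * (t * m 1 0 - w * m 1 1) = R (m 1 1) := by
    intro m hm
    obtain ⟨_, h2, h3⟩ := hS m hm
    rw [hRdef]
    simp only
    linear_combination (-t^2) * h2 + t * m 1 1 * h3
  have ha : ∀ m ∈ S, ∀ m' ∈ S, m 0 1 = m' 0 1 → m 1 0 = m' 1 0 → m 1 1 = m' 1 1 → m = m' := by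
    intro m hm m' hm' h01 h10 h11
    apply coa_ext m m' _ h01 h10 h11
    obtain ⟨g1, g2, _⟩ := hS m hm
    obtain ⟨g1', g2', _⟩ := hS m' hm'
    have h5 : (m 0 0 - m' 0 0) * m 1 1 = 0 := by
      rw [h01, h10, h11] at g2
      rw [h11]
      linear_combination g2 - g2'
    rcases mul_eq_zero.mp h5 with h | h
    · linarith
    · have := (g1 1 1).1
      omega
  set M : ℝ := 2 * (C * (n : ℝ) ^ (1 / 16 : ℝ)) with hM
  have hM0 : 0 ≤ M := by positivity
  -- the roots
  set P : Finset ℤ := (Finset.Icc (1:ℤ) n).filter (fun d => R d = 0) with hP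
  have hPc : P.card ≤ 2 := by
    by_cases hne : P.Nonempty
    · obtain ⟨d0, hd0⟩ := hne
      have hR0 : R d0 = 0 := (Finset.mem_filter.mp hd0).2
      have hD0 : Dt ≠ 0 := by
        intro h
        rw [hRdef] at hR0
        simp only [h] at hR0
        have : t ^ 2 = 0 := by linarith
        exact ht (pow_eq_zero_iff (two_ne_zero) |>.mp this)
      have : P ⊆ {d0, - p * t - d0} := by
        intro d hd
        have hRd : R d = 0 := (Finset.mem_filter.mp hd).2
        have h6 : Dt * ((d - d0) * (d + d0 + p * t)) = 0 := by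
          rw [hRdef] at hRd hR0
          simp only at hRd hR0
          linear_combination hR0 - hRd
        rcases mul_eq_zero.mp h6 with h | h
        · exact absurd h hD0
        · rcases mul_eq_zero.mp h with h | h
          · rw [Finset.mem_insert]; left; linarith
          · rw [Finset.mem_insert, Finset.mem_singleton]; right; linarith
      exact (Finset.card_le_card this).trans Finset.card_le_two
    · rw [Finset.not_nonempty_iff_eq_empty] at hne
      rw [hne]; simp
  have hcount := coa_sum n M hM0 S (fun m => m 1 1) (fun m hm => (hS m hm).1 1 1) P ?_ ?_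
  · have h7 : (P.card : ℝ) ≤ 2 := by exact_mod_cast hPc
    have h8 : (n:ℝ) ^ (1 + 1/16 : ℝ) = n * (n:ℝ)^(1/16:ℝ) := by
      rw [Real.rpow_add (by linarith), Real.rpow_one]
    have h9 : (1:ℝ) ≤ (n:ℝ)^(1/16:ℝ) := Real.one_le_rpow hnR (by norm_num)
    rw [h8]
    calc (S.card : ℝ) ≤ n * M + P.card * (2 * n) := hcount
      _ ≤ n * M + 2 * (2 * n) := by
          have : (P.card : ℝ) * (2 * n) ≤ 2 * (2 * n) :=
            mul_le_mul_of_nonneg_right h7 (by positivity)
          linarith
      _ ≤ (2 * C + 4) * (n * (n:ℝ)^(1/16:ℝ)) := by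
          rw [hM]
          nlinarith
  · -- R ≠ 0
    intro e heP he1 hen
    have hRe : R e ≠ 0 := by
      intro h
      exact heP (Finset.mem_filter.mpr ⟨Finset.mem_Icc.mpr ⟨he1, hen⟩, h⟩)
    set T := (S.filter (fun m => m 1 1 = e)).image (fun m => t * m 0 1 - v * m 1 1) with hT
    have hTc : (S.filter (fun m => m 1 1 = e)).card = T.card := by
      rw [hT, Finset.card_image_of_injOn]
      intro m hm m' hm' hmm
      rw [Finset.mem_coe, Finset.mem_filter] at hm hm'
      have k1 := hkey m hm.1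
      have k2 := hkey m' hm'.1
      simp only at hmm
      rw [← hmm] at k2
      rw [hm.2] at k1 hmm k2
      rw [hm'.2] at k2 hmm
      have hb : m 0 1 = m' 0 1 := by
        have : t * (m 0 1 - m' 0 1) = 0 := by linarith
        rcases mul_eq_zero.mp this with h | h
        · exact absurd h ht
        · linarith
      have hc : m 1 0 = m' 1 0 := by
        have hz : (t * m 0 1 - v * e) * (t * (m 1 0 - m' 1 0)) = 0 := by
          linear_combination k1 - k2
        rcases mul_eq_zero.mp hz with h | h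
        · rw [h, zero_mul] at k1
          exact absurd k1.symm hRe
        · rcases mul_eq_zero.mp h with h | h
          · exact absurd h ht
          · linarith
      exact ha m hm.1 m' hm'.1 hb hc (hm.2.trans hm'.2.symm)
    rw [hTc]
    have hTd : T.card ≤ 2 * (R e).natAbs.divisors.card := by
      apply coa_idiv (R e) hRe
      intro x hx
      rw [hT, Finset.mem_image] at hx
      obtain ⟨m, hm, rfl⟩ := hx
      rw [Finset.mem_filter] at hm
      have := hkey m hm.1
      rw [hm.2] at this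
      rw [← this, hm.2]
      exact dvd_mul_right _ _
    have hRb : (R e).natAbs ≤ 5 * n ^ 4 := by
      have hu' : |u| ≤ n := by nlinarith [abs_nonneg u]
      have hv' : |v| ≤ n := by nlinarith [abs_nonneg v]
      have hw' : |w| ≤ n := by nlinarith [abs_nonneg w]
      have ht'' : |t| ≤ n := by nlinarith [abs_nonneg t]
      have hDb : |Dt| ≤ 2 * (n:ℤ)^2 := by
        rw [hDt]
        calc |u * t - v * w| ≤ |u * t| + |v * w| := abs_sub _ _
          _ = |u| * |t| + |v| * |w| := by rw [abs_mul, abs_mul]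
          _ ≤ n * n + n * n := add_le_add
              (mul_le_mul hu' ht'' (abs_nonneg _) (by positivity))
              (mul_le_mul hv' hw' (abs_nonneg _) (by positivity))
          _ = _ := by ring
      have hq : |e ^ 2 + p * t * e| ≤ 2 * (n:ℤ)^2 := by
        have he' : |e| ≤ n := by rw [abs_of_pos (by linarith)]; exact hen
        calc |e ^ 2 + p * t * e| ≤ |e ^ 2| + |p * t * e| := abs_add_le _ _
          _ = |e| * |e| + (p * |t|) * |e| := by
              rw [abs_mul, abs_mul, abs_pow, sq, Nat.abs_cast]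
          _ ≤ n * n + n * n := add_le_add
              (mul_le_mul he' he' (abs_nonneg _) (by positivity))
              (mul_le_mul ht' he' (abs_nonneg _) (by positivity))
          _ = _ := by ring
      have ht2 : t ^ 2 ≤ (n:ℤ)^2 := by
        rw [← sq_abs t]
        exact pow_le_pow_left₀ (abs_nonneg _) ht'' 2
      have : |R e| ≤ 5 * (n:ℤ)^4 := by
        rw [hRdef]
        simp only
        calc |- Dt * (e ^ 2 + p * t * e) - t ^ 2| ≤ |- Dt * (e ^ 2 + p * t * e)| + |t ^ 2| :=
              abs_sub _ _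
          _ = |Dt| * |e ^ 2 + p * t * e| + t ^ 2 := by
              rw [abs_mul, abs_neg, abs_of_nonneg (sq_nonneg t)]
          _ ≤ (2 * (n:ℤ)^2) * (2 * (n:ℤ)^2) + (n:ℤ)^2 := add_le_add
              (mul_le_mul hDb hq (abs_nonneg _) (by positivity)) ht2
          _ ≤ 5 * (n:ℤ)^4 := by nlinarith [sq_nonneg ((n:ℤ)), mul_nonneg (sq_nonneg (n:ℤ)) (sub_nonneg.mpr (one_le_pow₀ hnZ : (1:ℤ) ≤ (n:ℤ)^2))]
      have h10 : ((R e).natAbs : ℤ) ≤ 5 * (n:ℤ)^4 := by
        rw [Int.natCast_natAbs]; exact this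
      exact_mod_cast h10
    have h11 := htau n (R e).natAbs hn (Nat.one_le_iff_ne_zero.mpr (by simpa using hRe)) hRb
    have h12 : (T.card : ℝ) ≤ 2 * ((R e).natAbs.divisors.card : ℝ) := by exact_mod_cast hTd
    rw [hM]
    linarith
  · -- R = 0
    intro e he
    have hRe : R e = 0 := (Finset.mem_filter.mp he).2
    set F := S.filter (fun m => m 1 1 = e) with hF
    have hsplit : F ⊆ F.filter (fun m => t * m 0 1 = v * e) ∪ F.filter (fun m => t * m 1 0 = w * e) := by
      intro m hm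
      have hm' := Finset.mem_filter.mp hm
      have k1 := hkey m hm'.1
      rw [hm'.2, hRe] at k1
      refine Finset.mem_union.mpr ?_
      rcases mul_eq_zero.mp k1 with h | h
      · exact Or.inl (Finset.mem_filter.mpr ⟨hm, by linarith⟩)
      · exact Or.inr (Finset.mem_filter.mpr ⟨hm, by linarith⟩)
    have hA : (F.filter (fun m => t * m 0 1 = v * e)).card ≤ n := by
      apply coa_icc n _ (fun m => m 1 0)
      · intro m hm
        exact (hS m (Finset.mem_filter.mp (Finset.mem_filter.mp hm).1).1).1 1 0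
      · intro m hm m' hm' h
        rw [Finset.mem_filter, hF, Finset.mem_filter] at hm hm'
        apply ha m hm.1.1 m' hm'.1.1 _ h (hm.1.2.trans hm'.1.2.symm)
        have : t * (m 0 1 - m' 0 1) = 0 := by linarith [hm.2, hm'.2]
        rcases mul_eq_zero.mp this with h | h
        · exact absurd h ht
        · linarith
    have hB : (F.filter (fun m => t * m 1 0 = w * e)).card ≤ n := by
      apply coa_icc n _ (fun m => m 0 1)
      · intro m hm
        exact (hS m (Finset.mem_filter.mp (Finset.mem_filter.mp hm).1).1).1 0 1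
      · intro m hm m' hm' h
        rw [Finset.mem_filter, hF, Finset.mem_filter] at hm hm'
        refine ha m hm.1.1 m' hm'.1.1 h ?_ (hm.1.2.trans hm'.1.2.symm)
        have : t * (m 1 0 - m' 1 0) = 0 := by linarith [hm.2, hm'.2]
        rcases mul_eq_zero.mp this with h | h
        · exact absurd h ht
        · linarith
    have : F.card ≤ n + n := (Finset.card_le_card hsplit).trans
      ((Finset.card_union_le _ _).trans (Nat.add_le_add hA hB))
    have h13 : (F.card : ℝ) ≤ n + n := by exact_mod_cast this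
    linarith

private lemma coa_case3 : ∃ C : ℝ, 1 ≤ C ∧ ∀ p n : ℕ, 1 ≤ p → p ≤ n → ∀ v w : ℤ,
    v ≠ 0 → w ≠ 0 →
    ∀ S : Finset M2, (∀ m ∈ S, (∀ i j, 1 ≤ m i j ∧ m i j ≤ n) ∧
      m 0 0 * m 1 1 - m 0 1 * m 1 0 = 1 ∧
      m 0 1 * w + m 1 0 * v = - p * (v * w)) →
    (S.card : ℝ) ≤ C * (n : ℝ) ^ (1 + 1 / 16 : ℝ) := by
  classical
  obtain ⟨C, hC, htau⟩ := coa_tau
  refine ⟨C, hC, ?_⟩
  intro p n hp hpn v w hv hw S hS
  have hn : 1 ≤ n := hp.trans hpn
  have hnR : (1:ℝ) ≤ n := by exact_mod_cast hn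
  have hnZ : (1:ℤ) ≤ n := by exact_mod_cast hn
  set M : ℝ := C * (n : ℝ) ^ (1 / 16 : ℝ) with hM
  have hM0 : 0 ≤ M := by positivity
  have hcount := coa_sum n M hM0 S (fun m => m 0 1) (fun m hm => (hS m hm).1 0 1) ∅ ?_ ?_
  · have h8 : (n:ℝ) ^ (1 + 1/16 : ℝ) = n * (n:ℝ)^(1/16:ℝ) := by
      rw [Real.rpow_add (by linarith), Real.rpow_one]
    rw [h8]
    calc (S.card : ℝ) ≤ n * M + (Finset.card (∅ : Finset ℤ) : ℝ) * (2 * n) := hcount
      _ = C * (n * (n:ℝ)^(1/16:ℝ)) := by rw [hM, Finset.card_empty]; push_cast; ring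
  · intro e _ he1 hen
    by_cases hne : (S.filter (fun m => m 0 1 = e)).Nonempty
    · obtain ⟨m0, hm0⟩ := hne
      rw [Finset.mem_filter] at hm0
      obtain ⟨g1, g2, g3⟩ := hS m0 hm0.1
      set N : ℕ := (1 + e * m0 1 0).toNat with hN
      have hpos : 0 ≤ 1 + e * m0 1 0 := by
        have := (g1 1 0).1
        positivity
      have hNc : (N : ℤ) = 1 + e * m0 1 0 := Int.toNat_of_nonneg hpos
      have hN1 : 1 ≤ N := by
        have h1 := (g1 1 0).1
        have : (1:ℤ) ≤ N := by rw [hNc]; nlinarith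
        exact_mod_cast this
      have hNb : N ≤ 5 * n ^ 4 := by
        have h1 := (g1 1 0).2
        have h2 := (g1 1 0).1
        have h3 : e * m0 1 0 ≤ n * n := mul_le_mul hen h1 (by linarith) (by positivity)
        have : (N:ℤ) ≤ 5 * (n:ℤ)^4 := by
          rw [hNc]
          have h4 : (1:ℤ) ≤ (n:ℤ)^2 := one_le_pow₀ hnZ
          nlinarith
        exact_mod_cast this
      have hcc : ∀ m ∈ S, m 0 1 = e → m 1 0 = m0 1 0 := by
        intro m hm he
        obtain ⟨_, _, g3'⟩ := hS m hm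
        have : v * (m 1 0 - m0 1 0) = 0 := by
          rw [he] at g3'
          rw [hm0.2] at g3
          linear_combination g3' - g3
        rcases mul_eq_zero.mp this with h | h
        · exact absurd h hv
        · linarith
      have hprod : ∀ m ∈ S, m 0 1 = e → m 0 0 * m 1 1 = N := by
        intro m hm he
        obtain ⟨_, g2', _⟩ := hS m hm
        rw [hNc]
        rw [he, hcc m hm he] at g2'
        linarith
      have hle : (S.filter (fun m => m 0 1 = e)).card ≤ N.divisors.card := by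
        apply Finset.card_le_card_of_injOn (fun m => (m 0 0).toNat)
        · intro m hm
          rw [Finset.mem_coe, Finset.mem_filter] at hm
          obtain ⟨g1', _, _⟩ := hS m hm.1
          have h1 := (g1' 0 0).1
          have h2 := hprod m hm.1 hm.2
          rw [Finset.mem_coe, Nat.mem_divisors]
          refine ⟨?_, by omega⟩
          have : ((m 0 0).toNat : ℤ) ∣ (N : ℤ) := by
            rw [Int.toNat_of_nonneg (by linarith)]
            exact ⟨m 1 1, h2.symm⟩
          exact_mod_cast this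
        · intro m hm m' hm' h
          rw [Finset.mem_coe, Finset.mem_filter] at hm hm'
          obtain ⟨g1', _, _⟩ := hS m hm.1
          obtain ⟨g1'', _, _⟩ := hS m' hm'.1
          have h1 := (g1' 0 0).1
          have h1' := (g1'' 0 0).1
          have h2 := hprod m hm.1 hm.2
          have h2' := hprod m' hm'.1 hm'.2
          have h00 : m 0 0 = m' 0 0 := by
            simp only at h
            have : ((m 0 0).toNat : ℤ) = ((m' 0 0).toNat : ℤ) := by rw [h]
            rwa [Int.toNat_of_nonneg (by linarith), Int.toNat_of_nonneg (by linarith)] at this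
          apply coa_ext m m' h00 (hm.2.trans hm'.2.symm)
            ((hcc m hm.1 hm.2).trans (hcc m' hm'.1 hm'.2).symm)
          have h6 : m 0 0 * (m 1 1 - m' 1 1) = 0 := by
            rw [← h00] at h2'
            linear_combination h2 - h2'
          rcases mul_eq_zero.mp h6 with h | h
          · omega
          · linarith
      have h11 := htau n N hn hN1 hNb
      have h12 : ((S.filter (fun m => m 0 1 = e)).card : ℝ) ≤ (N.divisors.card : ℝ) := by
        exact_mod_cast hle
      exact h12.trans h11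
    · rw [Finset.not_nonempty_iff_eq_empty] at hne
      rw [hne]
      simpa using hM0
  · intro e he
    exact absurd he (Finset.notMem_empty e)

open Classical in
theorem fixed_X : ∃ C : ℝ, 1 ≤ C ∧ ∀ p n : ℕ, 1 ≤ p → p ≤ n → ∀ X : M2, X ≠ 0 →
    (∀ i j, (p : ℤ) * |X i j| ≤ n) →
    (((box n).filter (fun m : M2 => (∀ i j, 1 ≤ m i j) ∧ m 0 0 * m 1 1 - m 0 1 * m 1 0 = 1 ∧
      (m 0 0 + p * X 0 0) * (m 1 1 + p * X 1 1) - (m 0 1 + p * X 0 1) * (m 1 0 + p * X 1 0) = 1)).card : ℝ)
      ≤ C * (n : ℝ) ^ (1 + 1 / 16 : ℝ) := by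
  obtain ⟨C1, hC1, h1⟩ := coa_case1
  obtain ⟨C3, hC3, h3⟩ := coa_case3
  refine ⟨max C1 C3, hC1.trans (le_max_left _ _), ?_⟩
  intro p n hp hpn X hX hXb
  set S := (box n).filter (fun m : M2 => (∀ i j, 1 ≤ m i j) ∧ m 0 0 * m 1 1 - m 0 1 * m 1 0 = 1 ∧
      (m 0 0 + p * X 0 0) * (m 1 1 + p * X 1 1) -
        (m 0 1 + p * X 0 1) * (m 1 0 + p * X 1 0) = 1) with hS
  have hnn : (0:ℝ) ≤ (n : ℝ) ^ (1 + 1 / 16 : ℝ) := by positivity
  have hpZ : (p:ℤ) ≠ 0 := by
    have : p ≠ 0 := by omega
    exact_mod_cast this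
  have hbox : ∀ m ∈ S, (∀ i j, 1 ≤ m i j ∧ m i j ≤ n) ∧ m 0 0 * m 1 1 - m 0 1 * m 1 0 = 1 ∧
      m 0 0 * X 1 1 + m 1 1 * X 0 0 - m 0 1 * X 1 0 - m 1 0 * X 0 1 =
        - p * (X 0 0 * X 1 1 - X 0 1 * X 1 0) := by
    intro m hm
    rw [hS, Finset.mem_filter] at hm
    obtain ⟨hb, h1, h2, h3⟩ := hm
    refine ⟨fun i j => ⟨h1 i j, ?_⟩, h2, ?_⟩
    · have hb0 : (fun i j => m i j) ∈ (Fintype.piFinset fun _ : Fin 2 =>
          Fintype.piFinset fun _ : Fin 2 => Finset.Icc (0 : ℤ) n) := hb
      have hb1 := Fintype.mem_piFinset.mp (Fintype.mem_piFinset.mp hb0 i) j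
      exact (Finset.mem_Icc.mp hb1).2
    · apply mul_left_cancel₀ hpZ
      linear_combination h3 - h2
  by_cases ht : X 1 1 = 0
  · by_cases hu : X 0 0 = 0
    · -- both zero
      by_cases hv : X 0 1 = 0
      · -- then X 1 0 ≠ 0 and m 0 1 = 0
        have hw : X 1 0 ≠ 0 := by
          intro hw
          apply hX
          exact coa_ext X 0 hu hv hw ht
        have hem : S = ∅ := by
          rw [Finset.eq_empty_iff_forall_notMem]
          intro m hm
          obtain ⟨g1, _, g3⟩ := hbox m hm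
          rw [ht, hu, hv] at g3
          have : m 0 1 * X 1 0 = 0 := by linarith
          rcases mul_eq_zero.mp this with h | h
          · have := (g1 0 1).1
            omega
          · exact hw h
        rw [hem, Finset.card_empty]
        push_cast
        have : (0:ℝ) ≤ max C1 C3 := le_trans (by linarith) (le_max_left C1 C3)
        positivity
      · by_cases hw : X 1 0 = 0
        · have hem : S = ∅ := by
            rw [Finset.eq_empty_iff_forall_notMem]
            intro m hm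
            obtain ⟨g1, _, g3⟩ := hbox m hm
            rw [ht, hu, hw] at g3
            have : m 1 0 * X 0 1 = 0 := by linarith
            rcases mul_eq_zero.mp this with h | h
            · have := (g1 1 0).1
              omega
            · exact hv h
          rw [hem, Finset.card_empty]
          push_cast
          have : (0:ℝ) ≤ max C1 C3 := le_trans (by linarith) (le_max_left C1 C3)
          positivity
        · refine (h3 p n hp hpn (X 0 1) (X 1 0) hv hw S
            ?_).trans (mul_le_mul_of_nonneg_right (le_max_right _ _) hnn)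
          intro m hm
          obtain ⟨g1, g2, g3⟩ := hbox m hm
          refine ⟨g1, g2, ?_⟩
          rw [ht, hu] at g3
          linear_combination -g3
    · -- swap
      set σ : M2 → M2 := fun m => !![m 1 1, m 0 1; m 1 0, m 0 0] with hσ
      have hσi : Function.Injective σ := by
        intro m m' h
        have e00 := congrFun (congrFun h 0) 0
        have e01 := congrFun (congrFun h 0) 1
        have e10 := congrFun (congrFun h 1) 0
        have e11 := congrFun (congrFun h 1) 1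
        simp [hσ] at e00 e01 e10 e11
        exact coa_ext m m' e11 e01 e10 e00
      have hc : (S.image σ).card = S.card := Finset.card_image_of_injective S hσi
      rw [← hc]
      refine (h1 p n hp hpn (X 1 1) (X 0 1) (X 1 0) (X 0 0) hu (hXb 1 1) (hXb 0 1) (hXb 1 0)
        (hXb 0 0) (S.image σ) ?_).trans (mul_le_mul_of_nonneg_right (le_max_left _ _) hnn)
      intro m' hm'
      rw [Finset.mem_image] at hm'
      obtain ⟨m, hm, rfl⟩ := hm'
      obtain ⟨g1, g2, g3⟩ := hbox m hm
      have s00 : σ m 0 0 = m 1 1 := by simp [hσ]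
      have s01 : σ m 0 1 = m 0 1 := by simp [hσ]
      have s10 : σ m 1 0 = m 1 0 := by simp [hσ]
      have s11 : σ m 1 1 = m 0 0 := by simp [hσ]
      refine ⟨?_, ?_, ?_⟩
      · intro i j
        fin_cases i <;> fin_cases j
        · exact s00 ▸ g1 1 1
        · exact s01 ▸ g1 0 1
        · exact s10 ▸ g1 1 0
        · exact s11 ▸ g1 0 0
      · rw [s00, s01, s10, s11]; linarith
      · rw [s00, s01, s10, s11]; linear_combination g3
  · exact (h1 p n hp hpn (X 0 0) (X 0 1) (X 1 0) (X 1 1) ht (hXb 0 0) (hXb 0 1) (hXb 1 0)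
      (hXb 1 1) S hbox).trans (mul_le_mul_of_nonneg_right (le_max_left _ _) hnn)

end Pool.Agent.CQF
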