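import Pool.Agent.CQF.Coa
import Pool.Agent.CQF.Bka

set_option autoImplicit false

/-!
# Module Cob (size 4): pairs of blocks congruent mod `p`

`n ~ p^{4/3}`: `p⁴ ≤ n³ ≤ 8 p⁴` (so `p ≤ n`). Pairs `m, m' ∈ Bk ζ n` congruent mod `p`: `m' = m + p X`,
`p |x_ij| ≤ n` (entries in `[0, n]`). `X = 0`: at most `|Bk| ≤ (number of (x, y), m determined by its column sums
x, y ≤ n: m00 y - m01 x = 1, 0 ≤ m01 < y) ≤ n²` pairs (or: `|Bk| ≤ n² ` via the injection `m ↦ (x, y)`).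
`X ≠ 0`: the number of `X` is at most `(2 n/p + 1)⁴ ≤ (3n/p)⁴ = 81 n⁴/p⁴ ≤ 648 n`, and for each of them
`fixed_X` bounds the number of `m` (for `n ≥ n0` the entries of `m` are `≥ 1` by `bk_cone`:
`m i 1 ≥ 1`, `m i 0 ≥ (2 - ζ) m i 1 > 0`).
-/

namespace Pool.Agent.CQF

private theorem Cob_mem {ζ : ℝ} {n : ℕ} {m : M2} (hm : m ∈ Bk ζ n) :
    m ∈ box n ∧ IsNN m ∧ (n : ℤ) < 2 * (m 0 1 + m 1 1) ∧ m 0 0 + m 1 0 ≤ n ∧
      2 * ((m 0 1 + m 1 1 : ℤ) : ℝ) ≤ (1 + ζ / 8) * n := by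
  classical
  unfold Bk at hm
  rw [Finset.mem_filter] at hm
  exact ⟨hm.1, hm.2.1, hm.2.2.2.2.1, hm.2.2.2.1, hm.2.2.2.2.2⟩

private theorem Cob_card {ζ : ℝ} (h1 : ζ ≤ 1) {n : ℕ}
    (hc : ∀ m ∈ Bk ζ n, InCone ζ m) : ((Bk ζ n).card : ℝ) ≤ ((n : ℝ) + 1) ^ 2 := by
  classical
  have hle : (Bk ζ n).card ≤ ((Finset.Icc (0 : ℤ) n) ×ˢ (Finset.Icc (0 : ℤ) n)).card := by
    apply Finset.card_le_card_of_injOn (fun m => (m 0 0 + m 1 0, m 0 1 + m 1 1))
    · intro m hm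
      have hm' : m ∈ Bk ζ n := hm
      obtain ⟨-, h2, h3, h4, h5⟩ := Cob_mem hm'
      rw [Finset.mem_coe, Finset.mem_product, Finset.mem_Icc, Finset.mem_Icc]
      refine ⟨⟨?_, h4⟩, ⟨?_, ?_⟩⟩
      · exact add_nonneg (h2.1 0 0) (h2.1 1 0)
      · exact add_nonneg (h2.1 0 1) (h2.1 1 1)
      · have h6 : ((m 0 1 + m 1 1 : ℤ) : ℝ) ≤ (n : ℝ) := by
          have hn : (0 : ℝ) ≤ n := Nat.cast_nonneg n
          nlinarith
        have h7 : ((m 0 1 + m 1 1 : ℤ) : ℝ) ≤ ((n : ℤ) : ℝ) := by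
          rw [Int.cast_natCast]
          exact h6
        exact_mod_cast h7
    · intro m hm m' hm' heq
      have hmB : m ∈ Bk ζ n := hm
      have hmB' : m' ∈ Bk ζ n := hm'
      obtain ⟨-, g1, -, -, -⟩ := Cob_mem hmB
      obtain ⟨-, g1', -, -, -⟩ := Cob_mem hmB'
      have c0 := (hc m hmB 0).1
      have c1 := (hc m hmB 1).1
      have c0' := (hc m' hmB' 0).1
      have c1' := (hc m' hmB' 1).1
      have e1 : m 0 0 + m 1 0 = m' 0 0 + m' 1 0 := congrArg Prod.fst heq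
      have e2 : m 0 1 + m 1 1 = m' 0 1 + m' 1 1 := congrArg Prod.snd heq
      have d1 := g1.2
      have d2 := g1'.2
      set x := m 0 0 + m 1 0 with hx
      set y := m 0 1 + m 1 1 with hy
      have f1 : m 0 0 * y - m 0 1 * x = 1 := by rw [hx, hy]; linarith
      have f2 : m' 0 0 * y - m' 0 1 * x = 1 := by rw [e1, e2]; linarith
      have hdvd : y ∣ m 0 1 - m' 0 1 := by
        refine ⟨m 0 0 * (m 0 1 - m' 0 1) - m 0 1 * (m 0 0 - m' 0 0), ?_⟩
        have f3 : (m 0 0 - m' 0 0) * y = (m 0 1 - m' 0 1) * x := by linarith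
        calc m 0 1 - m' 0 1 = (m 0 1 - m' 0 1) * (m 0 0 * y - m 0 1 * x) := by rw [f1, mul_one]
          _ = m 0 0 * (m 0 1 - m' 0 1) * y - m 0 1 * ((m 0 1 - m' 0 1) * x) := by ring
          _ = m 0 0 * (m 0 1 - m' 0 1) * y - m 0 1 * ((m 0 0 - m' 0 0) * y) := by rw [f3]
          _ = _ := by ring
      have hz : m 0 1 - m' 0 1 = 0 := by
        apply Int.eq_zero_of_abs_lt_dvd hdvd
        rw [abs_lt]
        constructor <;> omega
      have hy0 : 0 < y := by omega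
      have k01 : m 0 1 = m' 0 1 := by omega
      have k11 : m 1 1 = m' 1 1 := by omega
      have k00 : m 0 0 = m' 0 0 := by
        have f4 : m 0 0 * y = m' 0 0 * y := by rw [k01] at f1; linarith
        exact mul_right_cancel₀ hy0.ne' f4
      have k10 : m 1 0 = m' 1 0 := by omega
      ext i j
      fin_cases i <;> fin_cases j
      · exact k00
      · exact k01
      · exact k10
      · exact k11
  have h2 : ((Finset.Icc (0 : ℤ) n) ×ˢ (Finset.Icc (0 : ℤ) n)).card = (n + 1) ^ 2 := by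
    rw [Finset.card_product, Int.card_Icc]
    have : ((n : ℤ) + 1 - 0).toNat = n + 1 := by omega
    rw [this, sq]
  rw [h2] at hle
  exact_mod_cast hle

/-- the matrices with entries in `[-R, R]` -/
private noncomputable def Cob_bx (R : ℕ) : Finset M2 :=
  Fintype.piFinset fun _ => Fintype.piFinset fun _ => Finset.Icc (-(R : ℤ)) R

private theorem Cob_mem_bx (R : ℕ) (X : M2) : X ∈ Cob_bx R ↔ ∀ i j, |X i j| ≤ R := by
  have h1 : X ∈ Cob_bx R ↔ ∀ i, (X i) ∈ Fintype.piFinset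
      (fun _ : Fin 2 => Finset.Icc (-(R : ℤ)) R) := Fintype.mem_piFinset
  rw [h1]
  refine forall_congr' (fun i => ?_)
  rw [Fintype.mem_piFinset]
  refine forall_congr' (fun j => ?_)
  rw [Finset.mem_Icc, abs_le]

private theorem Cob_card_bx (R : ℕ) : (Cob_bx R).card = (2 * R + 1) ^ 4 := by
  have h1 : (Cob_bx R).card = ∏ _i : Fin 2, (Fintype.piFinset
      (fun _ : Fin 2 => Finset.Icc (-(R : ℤ)) R)).card := Fintype.card_piFinset _
  rw [h1]
  simp only [Fintype.card_piFinset, Int.card_Icc, Finset.prod_const, Finset.card_univ,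
    Fintype.card_fin]
  have : ((R : ℤ) + 1 - -(R : ℤ)).toNat = 2 * R + 1 := by omega
  rw [this, ← pow_mul]

open Classical in
theorem coll_le (ζ : ℝ) (h0 : 0 < ζ) (h1 : ζ ≤ 1) : ∃ C : ℝ, 1 ≤ C ∧ ∃ n0 : ℕ, ∀ p n : ℕ, 1 ≤ p →
    n0 ≤ n → p ^ 4 ≤ n ^ 3 → n ^ 3 ≤ 8 * p ^ 4 →
    (((Bk ζ n ×ˢ Bk ζ n).filter (fun x : M2 × M2 => Cg p x.1 x.2)).card : ℝ) ≤
      C * (n : ℝ) ^ (2 + 1 / 16 : ℝ) := by
  obtain ⟨C, hC1, hC⟩ := fixed_X
  obtain ⟨n1, hn1⟩ := bk_cone ζ h0 h1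
  refine ⟨4 + 648 * C, by linarith, max n1 1, ?_⟩
  intro p n hp hn hpn hnp
  have hnn1 : n1 ≤ n := le_trans (le_max_left _ _) hn
  have hn1' : 1 ≤ n := le_trans (le_max_right _ _) hn
  have hcone := hn1 n hnn1
  have hpR : (0 : ℝ) < p := by exact_mod_cast hp
  have hnR : (1 : ℝ) ≤ n := by exact_mod_cast hn1'
  have hpn' : p ≤ n := by
    have h2 : p ^ 4 ≤ n ^ 4 := hpn.trans (Nat.pow_le_pow_right hn1' (by norm_num))
    exact (Nat.pow_le_pow_iff_left (by norm_num)).1 h2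
  set P := (Bk ζ n ×ˢ Bk ζ n).filter (fun x : M2 × M2 => Cg p x.1 x.2) with hP
  let f : M2 × M2 → M2 := fun x => Matrix.of (fun i j => (x.2 i j - x.1 i j) / (p : ℤ))
  have hpZ : (0 : ℤ) < p := by exact_mod_cast hp
  have hbox : ∀ m ∈ Bk ζ n, ∀ i j, 0 ≤ m i j ∧ m i j ≤ n := fun m hm i j =>
    ⟨(bk_nn hm).1 i j, bk_le hm i j⟩
  have hfx : ∀ x ∈ P, ∀ i j, x.2 i j = x.1 i j + p * f x i j := by
    intro x hx i j
    rw [hP, Finset.mem_filter] at hx
    have h2 : (p : ℤ) ∣ x.2 i j - x.1 i j := by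
      rw [← dvd_neg, neg_sub]
      exact hx.2 i j
    have h3 : (p : ℤ) * f x i j = x.2 i j - x.1 i j := Int.mul_ediv_cancel' h2
    rw [h3]
    ring
  have hfR : ∀ x ∈ P, ∀ i j, (p : ℤ) * |f x i j| ≤ n := by
    intro x hx i j
    have h2 := hfx x hx i j
    rw [hP, Finset.mem_filter, Finset.mem_product] at hx
    have h3 := hbox x.1 hx.1.1 i j
    have h4 := hbox x.2 hx.1.2 i j
    have h5 : (p : ℤ) * |f x i j| = |(p : ℤ) * f x i j| := by
      rw [abs_mul, abs_of_pos hpZ]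
    rw [h5, abs_le]
    constructor <;> linarith [h3.1, h3.2, h4.1, h4.2]
  have hmaps : ∀ x ∈ P, f x ∈ Cob_bx (n / p) := by
    intro x hx
    rw [Cob_mem_bx]
    intro i j
    have h2 := hfR x hx i j
    have h3 : |f x i j| ≤ (n : ℤ) / (p : ℤ) := by
      rw [Int.le_ediv_iff_mul_le hpZ]
      linarith
    rw [Int.natCast_div]
    exact h3
  have hfib : ∀ X ∈ Cob_bx (n / p), ((P.filter (fun x => f x = X)).card : ℝ) ≤
      (if X = 0 then ((n : ℝ) + 1) ^ 2 else 0) + C * (n : ℝ) ^ (1 + 1 / 16 : ℝ) := by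
    intro X _
    have hpos : 0 ≤ C * (n : ℝ) ^ (1 + 1 / 16 : ℝ) := by positivity
    by_cases hX : X = 0
    · rw [if_pos hX]
      have h2 : (P.filter (fun x => f x = X)).card ≤ (Bk ζ n).card := by
        apply Finset.card_le_card_of_injOn Prod.fst
        · intro x hx
          rw [Finset.mem_coe, Finset.mem_filter, hP, Finset.mem_filter,
            Finset.mem_product] at hx
          exact hx.1.1.1
        · intro x hx x' hx' heq
          rw [Finset.mem_coe, Finset.mem_filter] at hx hx'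
          refine Prod.ext heq ?_
          ext i j
          rw [hfx x hx.1 i j, hfx x' hx'.1 i j, hx.2, hx'.2]
          have h3 : x.1 = x'.1 := heq
          rw [h3]
      have h3 : ((P.filter (fun x => f x = X)).card : ℝ) ≤ ((Bk ζ n).card : ℝ) := by
        exact_mod_cast h2
      have h4 := Cob_card h1 hcone
      linarith
    · rw [if_neg hX, zero_add]
      by_cases hemp : (P.filter (fun x => f x = X)).Nonempty
      · obtain ⟨x₀, hx₀⟩ := hemp
        rw [Finset.mem_filter] at hx₀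
        have hXR : ∀ i j, (p : ℤ) * |X i j| ≤ n := by
          intro i j
          rw [← hx₀.2]
          exact hfR x₀ hx₀.1 i j
        refine le_trans ?_ (hC p n hp hpn' X hX hXR)
        rw [Nat.cast_le]
        apply Finset.card_le_card_of_injOn Prod.fst
        · intro x hx
          rw [Finset.mem_coe, Finset.mem_filter] at hx
          have hxP := hx.1
          have hx2 := hfx x hx.1
          rw [hP, Finset.mem_filter, Finset.mem_product] at hxP
          obtain ⟨⟨hb1, hb2⟩, -⟩ := hxP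
          rw [Finset.mem_coe, Finset.mem_filter]
          have hc1 := hcone x.1 hb1
          refine ⟨(Cob_mem hb1).1, ?_, (bk_nn hb1).2, ?_⟩
          · intro i j
            have h5 := hc1 i
            have h6 : (1 : ℤ) ≤ x.1 i 1 := h5.1
            fin_cases j
            · change 1 ≤ x.1 i 0
              have h7 : (0 : ℝ) < x.1 i 0 := by
                have h8 : (1 : ℝ) ≤ x.1 i 1 := by exact_mod_cast h6
                nlinarith [h5.2.1]
              have h9 : (0 : ℤ) < x.1 i 0 := by exact_mod_cast h7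
              omega
            · exact h6
          · have h5 := (bk_nn hb2).2
            rw [hx2 0 0, hx2 1 1, hx2 0 1, hx2 1 0, hx.2] at h5
            exact h5
        · intro x hx x' hx' heq
          rw [Finset.mem_coe, Finset.mem_filter] at hx hx'
          refine Prod.ext heq ?_
          ext i j
          rw [hfx x hx.1 i j, hfx x' hx'.1 i j, hx.2, hx'.2]
          have h3 : x.1 = x'.1 := heq
          rw [h3]
      · rw [Finset.not_nonempty_iff_eq_empty] at hemp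
        rw [hemp, Finset.card_empty, Nat.cast_zero]
        exact hpos
  have htot : (P.card : ℝ) ≤ ((n : ℝ) + 1) ^ 2 +
      ((2 * (n / p : ℕ) + 1 : ℕ) : ℝ) ^ 4 * (C * (n : ℝ) ^ (1 + 1 / 16 : ℝ)) := by
    rw [Finset.card_eq_sum_card_fiberwise hmaps]
    push_cast
    refine (Finset.sum_le_sum hfib).trans ?_
    rw [Finset.sum_add_distrib, Finset.sum_const, nsmul_eq_mul, Cob_card_bx]
    push_cast
    refine add_le_add ?_ le_rfl
    rw [Finset.sum_ite_eq']
    split_ifs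
    · exact le_rfl
    · positivity
  have hR : ((2 * (n / p : ℕ) + 1 : ℕ) : ℝ) ≤ 3 * n / p := by
    have h2 : ((n / p : ℕ) : ℝ) ≤ n / p := Nat.cast_div_le
    have h3 : (1 : ℝ) ≤ n / p := by
      rw [le_div_iff₀ hpR, one_mul]
      exact_mod_cast hpn'
    push_cast
    have h4 : 3 * (n : ℝ) / p = 2 * (n / p) + n / p := by ring
    rw [h4]
    linarith
  have hR4 : ((2 * (n / p : ℕ) + 1 : ℕ) : ℝ) ^ 4 ≤ 648 * n := by
    refine (pow_le_pow_left₀ (Nat.cast_nonneg _) hR 4).trans ?_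
    have h2 : (n : ℝ) ^ 3 ≤ 8 * (p : ℝ) ^ 4 := by exact_mod_cast hnp
    rw [div_pow, div_le_iff₀ (by positivity)]
    have h3 : (0 : ℝ) ≤ n := by linarith
    nlinarith [mul_le_mul_of_nonneg_left h2 h3]
  have hn0 : (0 : ℝ) < n := by linarith
  have e1 : (n : ℝ) * (n : ℝ) ^ (1 + 1 / 16 : ℝ) = (n : ℝ) ^ (2 + 1 / 16 : ℝ) := by
    have h2 : (2 + 1 / 16 : ℝ) = 1 + (1 + 1 / 16) := by norm_num
    rw [h2, Real.rpow_add hn0 1 (1 + 1 / 16), Real.rpow_one]
  have e2 : (n : ℝ) ^ 2 ≤ (n : ℝ) ^ (2 + 1 / 16 : ℝ) := by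
    rw [← Real.rpow_natCast]
    apply Real.rpow_le_rpow_of_exponent_le hnR
    norm_num
  have e3 : ((n : ℝ) + 1) ^ 2 ≤ 4 * (n : ℝ) ^ (2 + 1 / 16 : ℝ) := by
    have h2 : ((n : ℝ) + 1) ^ 2 ≤ 4 * (n : ℝ) ^ 2 := by nlinarith
    linarith
  have e4 : ((2 * (n / p : ℕ) + 1 : ℕ) : ℝ) ^ 4 * (C * (n : ℝ) ^ (1 + 1 / 16 : ℝ)) ≤
      648 * C * (n : ℝ) ^ (2 + 1 / 16 : ℝ) := by
    calc ((2 * (n / p : ℕ) + 1 : ℕ) : ℝ) ^ 4 * (C * (n : ℝ) ^ (1 + 1 / 16 : ℝ))
        ≤ (648 * n) * (C * (n : ℝ) ^ (1 + 1 / 16 : ℝ)) :=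
          mul_le_mul_of_nonneg_right hR4 (by positivity)
      _ = 648 * C * ((n : ℝ) * (n : ℝ) ^ (1 + 1 / 16 : ℝ)) := by ring
      _ = _ := by rw [e1]
  refine htot.trans ?_
  linarith

end Pool.Agent.CQF
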