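import Mathlib

set_option autoImplicit false

/-!
# Module Svc (size 4): the large sieve for a two-transitive action (pure finite linear algebra)

Let `n0 = card Ω`, `U = ∑ u`, `K ω ω' = ∑_{x : a x ω = ω'} u x`, `D ω ω' = K ω ω' - U / n0`.
* Row sums: `∑_{ω'} K ω ω' = U`; column sums: `∑_ω K ω ω' = U` because `a x` is a bijection of `Ω`
  (`x` contributes to exactly one `ω`). So `D` has zero row and column sums.
* For a real function `ψ` on `Ω × Ω` with zero row and column sums put `(A ψ)(x) = ∑_ω ψ (ω, a x ω)`.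
  Then `∑_x (A ψ x)² = ∑_{ω1, ω2} ∑_x ψ (ω1, a x ω1) ψ (ω2, a x ω2)`.
  Number of `x` with `a x ω1 = ω1'`, `a x ω2 = ω2'`: `κ` if `ω1 ≠ ω2, ω1' ≠ ω2'`; `0` if exactly one of the two is
  an equality (injectivity); and `#{x | a x ω = ω'} = ∑_{ω2' ≠ ω'} #{x | a x ω = ω', a x ω2 = ω2'} = κ (n0 - 1)`
  (with any `ω2 ≠ ω`).  So
  `∑_x (A ψ x)² = κ (n0 - 1) ∑ ψ² + κ ∑_{ω1 ≠ ω2, ω1' ≠ ω2'} ψ(ω1, ω1') ψ(ω2, ω2')`, and the last double sum is,
  by inclusion and exclusion, `(∑ψ)² - ∑_{ω1} (∑_{ω'} ψ(ω1, ω'))² - ∑_{ω'} (∑_ω ψ(ω, ω'))² + ∑ ψ² = ∑ ψ²`.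
  So `∑_x (A ψ x)² = κ n0 ∑ ψ²`.
* `∑ D² = ∑ D K` (zero sums) `= ∑_x u x (A D x) ≤ (∑ u²)^{1/2} (κ n0 ∑ D²)^{1/2}`, so `∑ D² ≤ κ n0 ∑ u²`.
-/

namespace Pool.Agent.CQF

open Finset in
private theorem Svc_count {X Ω : Type*} [Fintype X] [Fintype Ω] [DecidableEq Ω] (κ : ℕ) (a : X → Ω → Ω)
    (hinj : ∀ x, Function.Injective (a x))
    (h2 : ∀ ω1 ω2 ω1' ω2' : Ω, ω1 ≠ ω2 → ω1' ≠ ω2' →
      (Finset.univ.filter (fun x => a x ω1 = ω1' ∧ a x ω2 = ω2')).card = κ)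
    (hn : 2 ≤ Fintype.card Ω) (ω1 ω2 ω1' ω2' : Ω) :
    ∑ x, (if a x ω1 = ω1' then (1:ℝ) else 0) * (if a x ω2 = ω2' then (1:ℝ) else 0) =
      κ * (1 - (if ω1 = ω2 then (1:ℝ) else 0) - (if ω1' = ω2' then (1:ℝ) else 0) +
        (Fintype.card Ω : ℝ) * ((if ω1 = ω2 then (1:ℝ) else 0) * (if ω1' = ω2' then (1:ℝ) else 0))) := by
  have hgen : ∀ ω1 ω2 ω1' ω2' : Ω, ω1 ≠ ω2 → ω1' ≠ ω2' →
      ∑ x, (if a x ω1 = ω1' then (1:ℝ) else 0) * (if a x ω2 = ω2' then (1:ℝ) else 0) = κ := by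
    intro ω1 ω2 ω1' ω2' h h'
    rw [← h2 ω1 ω2 ω1' ω2' h h', card_filter]
    push_cast
    refine sum_congr rfl fun x _ => ?_
    by_cases h3 : a x ω1 = ω1' <;> by_cases h4 : a x ω2 = ω2' <;> simp [h3, h4]
  have hz : ∀ ω1 ω2 ω1' ω2' : Ω, ω1 ≠ ω2 → ω1' = ω2' →
      ∑ x, (if a x ω1 = ω1' then (1:ℝ) else 0) * (if a x ω2 = ω2' then (1:ℝ) else 0) = 0 := by
    intro ω1 ω2 ω1' ω2' h h'
    refine sum_eq_zero fun x _ => ?_
    by_cases h3 : a x ω1 = ω1'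
    · by_cases h4 : a x ω2 = ω2'
      · exact absurd (hinj x (by rw [h3, h4, h'])) h
      · simp [h4]
    · simp [h3]
  by_cases h : ω1 = ω2
  · subst h
    by_cases h' : ω1' = ω2'
    · subst h'
      obtain ⟨w, hw⟩ := Fintype.exists_ne_of_one_lt_card (by omega : 1 < Fintype.card Ω) ω1
      have h5 : ∑ x, (if a x ω1 = ω1' then (1:ℝ) else 0) * (if a x ω1 = ω1' then (1:ℝ) else 0) =
          ∑ w', ∑ x, (if a x ω1 = ω1' then (1:ℝ) else 0) * (if a x w = w' then (1:ℝ) else 0) := by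
        rw [sum_comm]
        refine sum_congr rfl fun x _ => ?_
        rw [← mul_sum]
        simp
      have h6 : ∀ w' ∈ (univ : Finset Ω), ∑ x, (if a x ω1 = ω1' then (1:ℝ) else 0) *
          (if a x w = w' then (1:ℝ) else 0) = κ - (if ω1' = w' then (κ:ℝ) else 0) := by
        intro w' _
        by_cases h7 : ω1' = w'
        · rw [hz ω1 w ω1' w' hw.symm h7, if_pos h7, sub_self]
        · rw [hgen ω1 w ω1' w' hw.symm h7, if_neg h7, sub_zero]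
      rw [h5, sum_congr rfl h6, sum_sub_distrib, sum_const, card_univ, nsmul_eq_mul]
      simp
      ring
    · rw [if_pos rfl, if_neg h']
      have h5 : ∑ x, (if a x ω1 = ω1' then (1:ℝ) else 0) * (if a x ω1 = ω2' then (1:ℝ) else 0) = 0 := by
        refine sum_eq_zero fun x _ => ?_
        by_cases h3 : a x ω1 = ω1'
        · have h4 : ¬ a x ω1 = ω2' := fun h4 => h' (h3.symm.trans h4)
          simp [h4]
        · simp [h3]
      rw [h5]
      ring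
  · by_cases h' : ω1' = ω2'
    · rw [hz ω1 ω2 ω1' ω2' h h', if_neg h, if_pos h']
      ring
    · rw [hgen ω1 ω2 ω1' ω2' h h', if_neg h, if_neg h']
      ring

open Finset in
private theorem Svc_sq {X Ω : Type*} [Fintype X] [Fintype Ω] [DecidableEq Ω] (κ : ℕ) (a : X → Ω → Ω)
    (hinj : ∀ x, Function.Injective (a x))
    (h2 : ∀ ω1 ω2 ω1' ω2' : Ω, ω1 ≠ ω2 → ω1' ≠ ω2' →
      (Finset.univ.filter (fun x => a x ω1 = ω1' ∧ a x ω2 = ω2')).card = κ)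
    (hn : 2 ≤ Fintype.card Ω) (ψ : Ω → Ω → ℝ) (hr : ∀ ω, ∑ ω', ψ ω ω' = 0)
    (hc : ∀ ω', ∑ ω, ψ ω ω' = 0) :
    ∑ x, (∑ ω, ψ ω (a x ω)) ^ 2 = κ * (Fintype.card Ω : ℝ) * ∑ ω, ∑ ω', ψ ω ω' ^ 2 := by
  have h1 : ∀ x ω, ψ ω (a x ω) = ∑ ω', ψ ω ω' * (if a x ω = ω' then (1:ℝ) else 0) := by
    intro x ω
    simp
  have h3 : ∀ x, (∑ ω, ψ ω (a x ω)) ^ 2 = ∑ ω1, ∑ ω1', ∑ ω2, ∑ ω2', ψ ω1 ω1' * ψ ω2 ω2' *
      ((if a x ω1 = ω1' then (1:ℝ) else 0) * (if a x ω2 = ω2' then (1:ℝ) else 0)) := by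
    intro x
    rw [pow_two, sum_mul]
    refine sum_congr rfl fun ω1 _ => ?_
    rw [h1 x ω1, sum_mul]
    refine sum_congr rfl fun ω1' _ => ?_
    rw [mul_sum]
    refine sum_congr rfl fun ω2 _ => ?_
    rw [h1 x ω2, mul_sum]
    refine sum_congr rfl fun ω2' _ => ?_
    ring
  simp_rw [h3]
  rw [sum_comm]
  have h4 : ∀ ω1 : Ω, ∑ x, ∑ ω1', ∑ ω2, ∑ ω2', ψ ω1 ω1' * ψ ω2 ω2' *
      ((if a x ω1 = ω1' then (1:ℝ) else 0) * (if a x ω2 = ω2' then (1:ℝ) else 0)) =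
      ∑ ω1', κ * (Fintype.card Ω : ℝ) * ψ ω1 ω1' ^ 2 := by
    intro ω1
    rw [sum_comm]
    refine (sum_congr rfl fun ω1' _ => ?_).trans (?_ :
      ∑ ω1', (κ * (Fintype.card Ω : ℝ) * ψ ω1 ω1' ^ 2 -
        κ * ψ ω1 ω1' * ∑ ω2', ψ ω1 ω2') = _)
    · rw [sum_comm]
      have h5 : ∀ ω2 : Ω, ∑ x, ∑ ω2', ψ ω1 ω1' * ψ ω2 ω2' *
          ((if a x ω1 = ω1' then (1:ℝ) else 0) * (if a x ω2 = ω2' then (1:ℝ) else 0)) =
          ∑ ω2', ψ ω1 ω1' * ψ ω2 ω2' * (κ * (1 - (if ω1 = ω2 then (1:ℝ) else 0) -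
            (if ω1' = ω2' then (1:ℝ) else 0) +
        (Fintype.card Ω : ℝ) * ((if ω1 = ω2 then (1:ℝ) else 0) * (if ω1' = ω2' then (1:ℝ) else 0)))) := by
        intro ω2
        rw [sum_comm]
        refine sum_congr rfl fun ω2' _ => ?_
        rw [← mul_sum, Svc_count κ a hinj h2 hn]
      rw [sum_congr rfl fun ω2 _ => h5 ω2]
      have h6 : ∀ ω2 : Ω, ∑ ω2', ψ ω1 ω1' * ψ ω2 ω2' * (κ * (1 - (if ω1 = ω2 then (1:ℝ) else 0) -
            (if ω1' = ω2' then (1:ℝ) else 0) +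
        (Fintype.card Ω : ℝ) * ((if ω1 = ω2 then (1:ℝ) else 0) * (if ω1' = ω2' then (1:ℝ) else 0)))) =
          κ * ψ ω1 ω1' * (∑ ω2', ψ ω2 ω2') - (if ω1 = ω2 then κ * ψ ω1 ω1' * (∑ ω2', ψ ω2 ω2') else 0)
          - κ * ψ ω1 ω1' * ψ ω2 ω1' +
          (if ω1 = ω2 then κ * (Fintype.card Ω : ℝ) * ψ ω1 ω1' * ψ ω2 ω1' else 0) := by
        intro ω2
        have h7 : ∀ ω2' ∈ (univ : Finset Ω), ψ ω1 ω1' * ψ ω2 ω2' * (κ * (1 - (if ω1 = ω2 then (1:ℝ) else 0) -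
            (if ω1' = ω2' then (1:ℝ) else 0) +
            (Fintype.card Ω : ℝ) * ((if ω1 = ω2 then (1:ℝ) else 0) * (if ω1' = ω2' then (1:ℝ) else 0)))) =
            κ * ψ ω1 ω1' * ψ ω2 ω2' * (1 - (if ω1 = ω2 then (1:ℝ) else 0)) +
            (if ω1' = ω2' then κ * ψ ω1 ω1' * ψ ω2 ω2' * (-1 + (Fintype.card Ω : ℝ) *
              (if ω1 = ω2 then (1:ℝ) else 0)) else 0) := by
          intro ω2' _
          split_ifs <;> ring
        rw [sum_congr rfl h7, sum_add_distrib, ← sum_mul, ← mul_sum, sum_ite_eq, if_pos (mem_univ _)]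
        split_ifs <;> ring
      rw [sum_congr rfl fun ω2 _ => h6 ω2, sum_add_distrib, sum_sub_distrib, sum_sub_distrib, sum_ite_eq,
        sum_ite_eq, if_pos (mem_univ _), if_pos (mem_univ _), ← mul_sum, ← mul_sum, hc, sum_comm]
      simp only [hc, hr]
      simp
      ring
    · rw [hr]
      simp
  rw [sum_congr rfl fun ω1 _ => h4 ω1]
  simp only [← mul_sum]

theorem frob {X Ω : Type*} [Fintype X] [Fintype Ω] [DecidableEq Ω] (κ : ℕ) (a : X → Ω → Ω)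
    (hinj : ∀ x, Function.Injective (a x))
    (h2 : ∀ ω1 ω2 ω1' ω2' : Ω, ω1 ≠ ω2 → ω1' ≠ ω2' →
      (Finset.univ.filter (fun x => a x ω1 = ω1' ∧ a x ω2 = ω2')).card = κ)
    (hn : 2 ≤ Fintype.card Ω) (u : X → ℝ) :
    ∑ ω, ∑ ω', ((∑ x ∈ Finset.univ.filter (fun x => a x ω = ω'), u x) -
      (∑ x, u x) / (Fintype.card Ω : ℝ)) ^ 2 ≤ κ * (Fintype.card Ω : ℝ) * ∑ x, u x ^ 2 := by
  classical
  obtain ⟨D, hD⟩ : ∃ D : Ω → Ω → ℝ, D = fun ω ω' =>
    (∑ x ∈ Finset.univ.filter (fun x => a x ω = ω'), u x) - (∑ x, u x) / (Fintype.card Ω : ℝ) := ⟨_, rfl⟩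
  have hn0 : (Fintype.card Ω : ℝ) ≠ 0 := by
    have : 0 < Fintype.card Ω := by omega
    exact_mod_cast this.ne'
  have hr : ∀ ω, ∑ ω', D ω ω' = 0 := by
    intro ω
    rw [hD]
    simp only [Finset.sum_sub_distrib, Finset.sum_const, Finset.card_univ, nsmul_eq_mul]
    rw [Finset.sum_fiberwise]
    field_simp
    ring
  have hc : ∀ ω', ∑ ω, D ω ω' = 0 := by
    intro ω'
    rw [hD]
    simp only [Finset.sum_sub_distrib, Finset.sum_const, Finset.card_univ, nsmul_eq_mul]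
    have h1 : ∑ ω, ∑ x ∈ Finset.univ.filter (fun x => a x ω = ω'), u x = ∑ x, u x := by
      simp_rw [Finset.sum_filter]
      rw [Finset.sum_comm]
      refine Finset.sum_congr rfl fun x _ => ?_
      obtain ⟨w, hw⟩ := (Finite.injective_iff_surjective.mp (hinj x)) ω'
      rw [Finset.sum_eq_single w]
      · rw [if_pos hw]
      · intro w' _ hne
        rw [if_neg]
        intro h
        exact hne (hinj x (h.trans hw.symm))
      · intro h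
        exact absurd (Finset.mem_univ _) h
    rw [h1]
    field_simp
    ring
  obtain ⟨S, hS⟩ : ∃ S, S = ∑ ω, ∑ ω', D ω ω' ^ 2 := ⟨_, rfl⟩
  have hS0 : 0 ≤ S := by
    rw [hS]
    exact Finset.sum_nonneg fun _ _ => Finset.sum_nonneg fun _ _ => sq_nonneg _
  have hA := Svc_sq κ a hinj h2 hn D hr hc
  rw [← hS] at hA
  have hI : S = ∑ x, u x * ∑ ω, D ω (a x ω) := by
    have h1 : ∀ ω, ∑ ω', D ω ω' ^ 2 = ∑ x, u x * D ω (a x ω) := by
      intro ω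
      have h3 : ∀ ω' ∈ (Finset.univ : Finset Ω), D ω ω' ^ 2 =
          (∑ x, if a x ω = ω' then u x * D ω (a x ω) else 0) -
            ((∑ x, u x) / (Fintype.card Ω : ℝ)) * D ω ω' := by
        intro ω' _
        have h4 : (∑ x, if a x ω = ω' then u x * D ω (a x ω) else 0) =
            (∑ x ∈ Finset.univ.filter (fun x => a x ω = ω'), u x) * D ω ω' := by
          rw [Finset.sum_mul, Finset.sum_filter]
          refine Finset.sum_congr rfl fun x _ => ?_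
          by_cases h : a x ω = ω'
          · rw [if_pos h, if_pos h, h]
          · rw [if_neg h, if_neg h]
        rw [h4, ← sub_mul, pow_two]
        congr 1
        rw [hD]
      rw [Finset.sum_congr rfl h3, Finset.sum_sub_distrib, ← Finset.mul_sum, hr, mul_zero, sub_zero,
        Finset.sum_comm]
      refine Finset.sum_congr rfl fun x _ => ?_
      simp
    rw [hS, Finset.sum_congr rfl fun ω _ => h1 ω, Finset.sum_comm]
    refine Finset.sum_congr rfl fun x _ => ?_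
    rw [Finset.mul_sum]
  have hCS := Finset.sum_mul_sq_le_sq_mul_sq Finset.univ u (fun x => ∑ ω, D ω (a x ω))
  rw [← hI, hA] at hCS
  have hgoal : S ≤ κ * (Fintype.card Ω : ℝ) * ∑ x, u x ^ 2 := by
    rcases hS0.eq_or_lt with h | h
    · rw [← h]
      have : 0 ≤ ∑ x, u x ^ 2 := Finset.sum_nonneg fun _ _ => sq_nonneg _
      positivity
    · have h5 : S * S ≤ (κ * (Fintype.card Ω : ℝ) * ∑ x, u x ^ 2) * S := by
        rw [← pow_two]
        refine hCS.trans (le_of_eq ?_)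
        ring
      exact le_of_mul_le_mul_right h5 h
  rw [hS, hD] at hgoal
  exact hgoal

end Pool.Agent.CQF
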