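import Pool.Agent.CQF.Svb
import Pool.Agent.CQF.Svc

set_option autoImplicit false

/-!
# Module Svd (size 4): two blocks give every class, with few exceptions

`B` is a finite set of integer matrices of determinant `1`, `Q` bounds the number of pairs of `B` congruent
mod `p`. For `g ∈ SL₂(ZMod p)` let `u g = #{m ∈ B : red p m = g}`; `∑ u = |B|`, `∑ u² = #{pairs congruent} ≤ Q`.
`frob` (with `Ω = Option (ZMod p)`, `n0 = p + 1`, `κ = p - 1`, `two_trans`, `act_inj`) gives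
`∑ D² ≤ (p² - 1) Q` for `D ω ω' = K ω ω' - |B|/(p+1)`, `K ω ω' = #{m ∈ B : act (red m) ω = ω'}`.
The number of pairs is `N ω = ∑_{ω'} K ω ω' K ω' ω*`, and since `D` has zero row and column sums,
`N ω - |B|²/(p+1) = ∑_{ω'} D ω ω' D ω' ω*`. So `∑_ω (N ω - |B|²/(p+1))² ≤ (∑ D²)(∑_{ω'} (D ω' ω*)²) ≤ ((p²-1) Q)²`.
An exceptional `ω` contributes at least `(|B|²/(2(p+1)))²`.
-/

namespace Pool.Agent.CQF

private theorem Svd_cg {p : ℕ} (m m' : M2) : Cg p m m' ↔ red p m = red p m' := by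
  unfold Cg red
  constructor
  · intro h
    ext i j
    rw [Matrix.map_apply, Matrix.map_apply]
    have h1 := h i j
    rw [← ZMod.intCast_zmod_eq_zero_iff_dvd] at h1
    push_cast at h1
    exact sub_eq_zero.1 h1
  · intro h i j
    have h1 := congrFun (congrFun h i) j
    rw [Matrix.map_apply, Matrix.map_apply] at h1
    rw [← ZMod.intCast_zmod_eq_zero_iff_dvd]
    push_cast
    exact sub_eq_zero.2 h1

open Classical in
theorem exc_le {p : ℕ} [Fact p.Prime] (B : Finset M2)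
    (hB : ∀ m ∈ B, m 0 0 * m 1 1 - m 0 1 * m 1 0 = 1) (Q : ℝ)
    (hQ : (((B ×ˢ B).filter (fun x : M2 × M2 => Cg p x.1 x.2)).card : ℝ) ≤ Q)
    (ωs : Option (ZMod p)) (T : Finset (Option (ZMod p)))
    (hT : ∀ ω ∈ T, (((B ×ˢ B).filter (fun x : M2 × M2 =>
      act (red p x.2) (act (red p x.1) ω) = ωs)).card : ℝ) < (B.card : ℝ) ^ 2 / (2 * (p + 1))) :
    (T.card : ℝ) * (B.card : ℝ) ^ 4 ≤ 4 * ((p : ℝ) + 1) ^ 2 * (((p : ℝ) ^ 2 - 1) * Q) ^ 2 := by
  have hp2 : 2 ≤ p := (Fact.out : p.Prime).two_le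
  have hp0 : (0 : ℝ) < p := by exact_mod_cast (by omega : 0 < p)
  have hdet : ∀ m ∈ B, (red p m).det = 1 := fun m hm => red_det p m (hB m hm)
  have hinj : ∀ m ∈ B, Function.Injective (act (red p m)) := fun m hm =>
    act_inj (red p m) (by rw [hdet m hm]; exact one_ne_zero)
  have hcard : Fintype.card (Option (ZMod p)) = p + 1 := by
    rw [Fintype.card_option, ZMod.card]
  let f : M2 → Matrix.SpecialLinearGroup (Fin 2) (ZMod p) := fun m =>
    if h : (red p m).det = 1 then ⟨red p m, h⟩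
      else (1 : Matrix.SpecialLinearGroup (Fin 2) (ZMod p))
  have hf : ∀ m ∈ B, (f m).1 = red p m := by
    intro m hm
    have h1 : f m = ⟨red p m, hdet m hm⟩ := dif_pos (hdet m hm)
    rw [h1]
  -- the weights
  let u : Matrix.SpecialLinearGroup (Fin 2) (ZMod p) → ℝ := fun g => ((B.filter (fun m => red p m = g.1)).card : ℝ)
  let κ : Option (ZMod p) → Option (ZMod p) → ℝ := fun ω ω' =>
    ((B.filter (fun m => act (red p m) ω = ω')).card : ℝ)
  -- sums of `u` over a set of matrices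
  have husum : ∀ (P : Matrix (Fin 2) (Fin 2) (ZMod p) → Prop),
      ∑ g ∈ Finset.univ.filter (fun g : Matrix.SpecialLinearGroup (Fin 2) (ZMod p) => P g.1), u g =
        ((B.filter (fun m => P (red p m))).card : ℝ) := by
    intro P
    change ∑ g ∈ Finset.univ.filter (fun g : Matrix.SpecialLinearGroup (Fin 2) (ZMod p) => P g.1),
      ((B.filter (fun m => red p m = g.1)).card : ℝ) = _
    rw [← Nat.cast_sum]
    congr 1
    have h1 : ∀ m ∈ B.filter (fun m => P (red p m)),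
        f m ∈ Finset.univ.filter
          (fun g : Matrix.SpecialLinearGroup (Fin 2) (ZMod p) => P g.1) := by
      intro m hm
      rw [Finset.mem_filter] at hm
      rw [Finset.mem_filter]
      refine ⟨Finset.mem_univ _, ?_⟩
      rw [hf m hm.1]
      exact hm.2
    rw [Finset.card_eq_sum_card_fiberwise h1]
    apply Finset.sum_congr rfl
    intro g hg
    rw [Finset.mem_filter] at hg
    congr 1
    ext m
    rw [Finset.mem_filter, Finset.mem_filter, Finset.mem_filter]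
    constructor
    · rintro ⟨hm, hmg⟩
      refine ⟨⟨hm, ?_⟩, ?_⟩
      · rw [hmg]; exact hg.2
      · apply Subtype.ext
        rw [hf m hm]
        exact hmg
    · rintro ⟨⟨hm, _⟩, h3⟩
      refine ⟨hm, ?_⟩
      rw [← hf m hm, h3]
  have hU : ∑ g, u g = (B.card : ℝ) := by
    have h1 := husum (fun _ => True)
    simpa using h1
  have hκ : ∀ ω ω', ∑ g ∈ Finset.univ.filter (fun g : Matrix.SpecialLinearGroup (Fin 2) (ZMod p) => act g.1 ω = ω'), u g = κ ω ω' :=
    fun ω ω' => by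
      have h1 := husum (fun M => act M ω = ω')
      convert h1
  -- the sum of squares
  have hsq : ∑ g, u g ^ 2 ≤ Q := by
    refine le_trans (le_of_eq ?_) hQ
    have h1 : ∀ x ∈ (B ×ˢ B).filter (fun x : M2 × M2 => Cg p x.1 x.2),
        f x.1 ∈ (Finset.univ : Finset (Matrix.SpecialLinearGroup (Fin 2) (ZMod p))) :=
      fun _ _ => Finset.mem_univ _
    rw [Finset.card_eq_sum_card_fiberwise h1]
    push_cast
    apply Finset.sum_congr rfl
    intro g _
    have h2 : (((B ×ˢ B).filter (fun x : M2 × M2 => Cg p x.1 x.2)).filter (fun x =>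
        f x.1 = g)) =
        (B.filter (fun m => red p m = g.1)) ×ˢ (B.filter (fun m => red p m = g.1)) := by
      ext ⟨m, m'⟩
      rw [Finset.mem_filter, Finset.mem_filter, Finset.mem_product, Finset.mem_product,
        Finset.mem_filter, Finset.mem_filter]
      constructor
      · rintro ⟨⟨⟨hm, hm'⟩, h3⟩, h4⟩
        have h4' : f m = g := h4
        have h5 : red p m = g.1 := by rw [← hf m hm, h4']
        rw [Svd_cg] at h3
        exact ⟨⟨hm, h5⟩, ⟨hm', h3 ▸ h5⟩⟩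
      · rintro ⟨⟨hm, h5⟩, ⟨hm', h6⟩⟩
        refine ⟨⟨⟨hm, hm'⟩, ?_⟩, ?_⟩
        · rw [Svd_cg]
          exact h5.trans h6.symm
        · apply Subtype.ext
          change (f m).1 = g.1
          rw [hf m hm]
          exact h5
    rw [h2, Finset.card_product]
    push_cast
    exact sq (u g)
  -- the large sieve
  let b : ℝ := (B.card : ℝ) / ((p : ℝ) + 1)
  let D : Option (ZMod p) → Option (ZMod p) → ℝ := fun ω ω' => κ ω ω' - b
  have hfrob : ∑ ω, ∑ ω', D ω ω' ^ 2 ≤ ((p : ℝ) ^ 2 - 1) * Q := by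
    have h1 := frob (X := Matrix.SpecialLinearGroup (Fin 2) (ZMod p)) (Ω := Option (ZMod p)) (p - 1) (fun g => act g.1)
      (fun g => act_inj g.1 (by rw [g.2]; exact one_ne_zero))
      (fun ω1 ω2 ω1' ω2' h h' => by
        have h2 := two_trans h h'
        convert h2)
      (by rw [hcard]; omega) u
    have h3 : ∑ ω, ∑ ω', D ω ω' ^ 2 = ∑ ω : Option (ZMod p), ∑ ω' : Option (ZMod p),
        ((∑ x ∈ Finset.univ.filter (fun x : Matrix.SpecialLinearGroup (Fin 2) (ZMod p) => act x.1 ω = ω'), u x) -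
          (∑ x, u x) / (Fintype.card (Option (ZMod p)) : ℝ)) ^ 2 := by
      apply Finset.sum_congr rfl
      intro ω _
      apply Finset.sum_congr rfl
      intro ω' _
      rw [hκ, hU, hcard]
      push_cast
      rfl
    rw [h3]
    refine le_trans (le_of_eq ?_) (h1.trans ?_)
    · apply Finset.sum_congr rfl
      intro ω _
      apply Finset.sum_congr rfl
      intro ω' _
      congr 3
    · rw [hcard]
      have h4 : (((p - 1 : ℕ) : ℝ)) * (((p + 1 : ℕ) : ℝ)) = (p : ℝ) ^ 2 - 1 := by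
        rw [Nat.cast_sub (by omega)]
        push_cast
        ring
      rw [h4]
      apply mul_le_mul_of_nonneg_left hsq
      have : (2 : ℝ) ≤ p := by exact_mod_cast hp2
      nlinarith
  -- row and column sums
  have hrow : ∀ ω, ∑ ω', κ ω ω' = (B.card : ℝ) := by
    intro ω
    change ∑ ω', ((B.filter (fun m => act (red p m) ω = ω')).card : ℝ) = _
    rw [← Nat.cast_sum]
    congr 1
    exact (Finset.card_eq_sum_card_fiberwise (f := fun m => act (red p m) ω)
      (fun m _ => Finset.mem_univ _)).symm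
  have hcol : ∀ ω', ∑ ω, κ ω ω' = (B.card : ℝ) := by
    intro ω'
    change ∑ ω, ((B.filter (fun m => act (red p m) ω = ω')).card : ℝ) = _
    have h1 : ∀ ω, ((B.filter (fun m => act (red p m) ω = ω')).card : ℝ) =
        ∑ m ∈ B, if act (red p m) ω = ω' then (1 : ℝ) else 0 := by
      intro ω
      rw [Finset.sum_boole]
    rw [Finset.sum_congr rfl (fun ω _ => h1 ω), Finset.sum_comm]
    have h2 : ∀ m ∈ B, ∑ ω, (if act (red p m) ω = ω' then (1 : ℝ) else 0) = 1 := by
      intro m hm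
      obtain ⟨ω0, hω0⟩ := (Finite.surjective_of_injective (hinj m hm)) ω'
      rw [Finset.sum_eq_single ω0]
      · rw [if_pos hω0]
      · intro ω _ hne
        rw [if_neg]
        intro h3
        exact hne (hinj m hm (h3.trans hω0.symm))
      · intro h3
        exact absurd (Finset.mem_univ _) h3
    rw [Finset.sum_congr rfl h2, Finset.sum_const, nsmul_eq_mul, mul_one]
  have hpb : ((p : ℝ) + 1) * b = B.card := by
    change ((p : ℝ) + 1) * ((B.card : ℝ) / ((p : ℝ) + 1)) = _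
    field_simp
  have hconst : ∑ _ω : Option (ZMod p), b = B.card := by
    rw [Finset.sum_const, Finset.card_univ, hcard, nsmul_eq_mul]
    push_cast
    exact hpb
  have hDrow : ∀ ω, ∑ ω', D ω ω' = 0 := by
    intro ω
    change ∑ ω', (κ ω ω' - b) = 0
    rw [Finset.sum_sub_distrib, hrow, hconst, sub_self]
  have hDcol : ∀ ω', ∑ ω, D ω ω' = 0 := by
    intro ω'
    change ∑ ω, (κ ω ω' - b) = 0
    rw [Finset.sum_sub_distrib, hcol, hconst, sub_self]
  -- the number of pairs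
  let Nn : Option (ZMod p) → ℝ := fun ω => (((B ×ˢ B).filter (fun x : M2 × M2 =>
      act (red p x.2) (act (red p x.1) ω) = ωs)).card : ℝ)
  have hNn : ∀ ω, Nn ω = ∑ ω', κ ω ω' * κ ω' ωs := by
    intro ω
    change (((B ×ˢ B).filter (fun x : M2 × M2 =>
      act (red p x.2) (act (red p x.1) ω) = ωs)).card : ℝ) = ∑ ω',
      ((B.filter (fun m => act (red p m) ω = ω')).card : ℝ) *
      ((B.filter (fun m => act (red p m) ω' = ωs)).card : ℝ)
    rw [Finset.card_eq_sum_card_fiberwise (f := fun x : M2 × M2 => act (red p x.1) ω)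
      (fun x _ => Finset.mem_univ _)]
    push_cast
    apply Finset.sum_congr rfl
    intro ω' _
    rw [← Nat.cast_mul, ← Finset.card_product]
    congr 2
    ext ⟨m, m'⟩
    simp only [Finset.mem_filter, Finset.mem_product]
    constructor
    · rintro ⟨⟨⟨h1, h2⟩, h3⟩, h4⟩
      rw [h4] at h3
      exact ⟨⟨h1, h4⟩, ⟨h2, h3⟩⟩
    · rintro ⟨⟨h1, h4⟩, ⟨h2, h3⟩⟩
      refine ⟨⟨⟨h1, h2⟩, ?_⟩, h4⟩
      rw [h4]
      exact h3
  have hND : ∀ ω, Nn ω - (B.card : ℝ) * b = ∑ ω', D ω ω' * D ω' ωs := by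
    intro ω
    have h1 : ∀ ω', κ ω ω' * κ ω' ωs = D ω ω' * D ω' ωs + b * D ω ω' + b * D ω' ωs + b * b := by
      intro ω'
      change _ = (κ ω ω' - b) * (κ ω' ωs - b) + b * (κ ω ω' - b) + b * (κ ω' ωs - b) + b * b
      ring
    rw [hNn, Finset.sum_congr rfl (fun ω' _ => h1 ω'), Finset.sum_add_distrib,
      Finset.sum_add_distrib, Finset.sum_add_distrib, ← Finset.mul_sum, ← Finset.mul_sum,
      ← Finset.mul_sum, hDrow, hDcol, hconst]
    ring
  have hE0 : 0 ≤ ∑ ω, ∑ ω', D ω ω' ^ 2 :=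
    Finset.sum_nonneg (fun ω _ => Finset.sum_nonneg (fun ω' _ => sq_nonneg _))
  have hvar : ∑ ω, (Nn ω - (B.card : ℝ) * b) ^ 2 ≤ (((p : ℝ) ^ 2 - 1) * Q) ^ 2 := by
    have h1 : ∀ ω, (Nn ω - (B.card : ℝ) * b) ^ 2 ≤
        (∑ ω', D ω ω' ^ 2) * ∑ ω', D ω' ωs ^ 2 := by
      intro ω
      rw [hND]
      exact Finset.sum_mul_sq_le_sq_mul_sq _ _ _
    refine (Finset.sum_le_sum (fun ω _ => h1 ω)).trans ?_
    rw [← Finset.sum_mul]
    have h2 : ∑ ω', D ω' ωs ^ 2 ≤ ∑ ω, ∑ ω', D ω ω' ^ 2 := by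
      apply Finset.sum_le_sum
      intro ω _
      exact Finset.single_le_sum (f := fun ω' => D ω ω' ^ 2) (fun ω' _ => sq_nonneg _)
        (Finset.mem_univ ωs)
    calc (∑ ω, ∑ ω', D ω ω' ^ 2) * ∑ ω', D ω' ωs ^ 2
        ≤ (∑ ω, ∑ ω', D ω ω' ^ 2) * (∑ ω, ∑ ω', D ω ω' ^ 2) := mul_le_mul_of_nonneg_left h2 hE0
      _ = (∑ ω, ∑ ω', D ω ω' ^ 2) ^ 2 := (sq _).symm
      _ ≤ (((p : ℝ) ^ 2 - 1) * Q) ^ 2 := pow_le_pow_left₀ hE0 hfrob 2
  have hbb : (B.card : ℝ) * b = (B.card : ℝ) ^ 2 / (p + 1) := by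
    change (B.card : ℝ) * ((B.card : ℝ) / ((p : ℝ) + 1)) = _
    ring
  have hlow : (T.card : ℝ) * ((B.card : ℝ) ^ 2 / (2 * (p + 1))) ^ 2 ≤
      ∑ ω, (Nn ω - (B.card : ℝ) * b) ^ 2 := by
    have h1 : ∑ ω ∈ T, (Nn ω - (B.card : ℝ) * b) ^ 2 ≤ ∑ ω, (Nn ω - (B.card : ℝ) * b) ^ 2 :=
      Finset.sum_le_sum_of_subset_of_nonneg (Finset.subset_univ T) (fun ω _ _ => sq_nonneg _)
    refine le_trans ?_ h1
    rw [← nsmul_eq_mul]
    apply Finset.card_nsmul_le_sum
    intro ω hω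
    have h2 : Nn ω < (B.card : ℝ) ^ 2 / (2 * (p + 1)) := hT ω hω
    have h3 : (B.card : ℝ) * b = 2 * ((B.card : ℝ) ^ 2 / (2 * (p + 1))) := by
      rw [hbb]
      field_simp
    have h4 : 0 ≤ (B.card : ℝ) ^ 2 / (2 * ((p : ℝ) + 1)) := by positivity
    rw [h3]
    nlinarith
  have hfin := hlow.trans hvar
  rw [div_pow, mul_div_assoc', div_le_iff₀ (by positivity)] at hfin
  calc (T.card : ℝ) * (B.card : ℝ) ^ 4 = (T.card : ℝ) * ((B.card : ℝ) ^ 2) ^ 2 := by ring
    _ ≤ _ := hfin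
    _ = _ := by ring

end Pool.Agent.CQF
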