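import Pool.Agent.CQF.Loc
import Pool.Agent.CQF.Svd

set_option autoImplicit false

/-!
# Module Cov (size 5): every cell `(w, j)` has many nodes `hh` of its class, with few exceptions

Fix `w ∈ nds K np`, `A`-balanced. For `j < p m` let `Y j` be the set of `(m1, m2) ∈ B × B` with `Cl w j m1 m2`.
Claim: for all `j` outside a set `E` of size `≤ m · 4 (p+1)² ((p²-1) Q)² / |B|⁴`,
`∑_{Y j} len (hh) ≥ |B|²/(2(p+1)) · len w / (4 R² A n⁴)`.

Proof. Mod `m`: `hh ≡ H0` mod `K`, `m ∣ K`, so the first row of `tr K j * hh * M` is `≡` first row of `H0 M` `≡ 0` mod `m`.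
`p` and `m` are coprime (`p ∤ K`, `m ∣ K`). So `Cl` holds iff the first row of `tt` is divisible by `p`, and by
`cls_null` (`p ∣ det M`, `p ∤ M01`; the first row `(x, y)` of `tr K j * hh` is not `≡ 0` mod `p` because
`det = 1`) iff `cls x y = ωs := cls (M11) (-M01)`. The first row of `tr K j * w * r * m1 * m2` is
`(1, K j) · (w r) · m1 · m2`, so `cls x y = act (red m2) (act (red m1) (ω j))`, `ω j = act (red (w r)) (some (K j))`
(`cls_mul, act_mul, red_mul, red_det`).  `ω j = ω j'` implies `j ≡ j'` mod `p` (`act_inj`, `p ∤ K`). Let `T` be the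
set of exceptional `ω` of `exc_le` for `ωs`: `card T ≤ 4 (p+1)² ((p²-1)Q)²/|B|⁴`. `E = {j < p m : ω j ∈ T}` has at most
`m · card T` elements. For `j ∉ E`, `card (Y j) ≥ |B|²/(2(p+1))`, and each `len hh ≥ len w/(4R²An⁴)` (`hh_size`).
-/

namespace Pool.Agent.CQF

variable {D : Dat}

theorem cov_det_mul {g h : M2} (hg : g 0 0 * g 1 1 - g 0 1 * g 1 0 = 1)
    (hh : h 0 0 * h 1 1 - h 0 1 * h 1 0 = 1) :
    (g * h) 0 0 * (g * h) 1 1 - (g * h) 0 1 * (g * h) 1 0 = 1 := by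
  simp only [Matrix.mul_apply, Fin.sum_univ_two]
  linear_combination (h 0 0 * h 1 1 - h 0 1 * h 1 0) * hg + hh

open Classical in
theorem cov_bdet (hD : D.Ok) {m : M2} (hm : m ∈ D.B) : m 0 0 * m 1 1 - m 0 1 * m 1 0 = 1 := by
  have h := (hD.hB m hm).1
  unfold Bk at h
  exact (Finset.mem_filter.1 h).2.1.2

theorem cov_wdet (hD : D.Ok) {w : M2} (hw : w ∈ nds D.K D.np) :
    (w * D.r w) 0 0 * (w * D.r w) 1 1 - (w * D.r w) 0 1 * (w * D.r w) 1 0 = 1 := by
  have h1 : IsNd w := ((mem_ndw hD.hK).1 hw).1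
  exact cov_det_mul h1.det (hD.hr w hw).1.2

/-- the class of `(1, K j) w r` -/
def covω (D : Dat) [Fact D.p.Prime] (w : M2) (j : ℕ) : Option (ZMod D.p) :=
  act (red D.p (w * D.r w)) (some ((D.K : ZMod D.p) * (j : ZMod D.p)))

theorem cov_iff (hD : D.Ok) [Fact D.p.Prime] {w m1 m2 : M2} (hw : w ∈ nds D.K D.np)
    (h1 : m1 ∈ D.B) (h2 : m2 ∈ D.B) (j : ℕ) :
    D.Cl w j m1 m2 ↔ act (red D.p m2) (act (red D.p m1) (covω D w j)) =
      cls ((D.M 1 1 : ℤ) : ZMod D.p) ((-(D.M 0 1) : ℤ) : ZMod D.p) := by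
  have hdw := cov_wdet hD hw
  have hd1 := cov_bdet hD h1
  have hd2 := cov_bdet hD h2
  have hdw1 := cov_det_mul hdw hd1
  have hdh := cov_det_mul hdw1 hd2
  set g : M2 := D.hh w m1 m2 with hg
  have hgdef : g = w * D.r w * m1 * m2 := rfl
  rw [← hgdef] at hdh
  set x : ℤ := g 0 0 + (D.K : ℤ) * j * g 1 0 with hx
  set y : ℤ := g 0 1 + (D.K : ℤ) * j * g 1 1 with hy
  have htt : ∀ i, D.tt w j m1 m2 0 i = x * D.M 0 i + y * D.M 1 i := by
    intro i
    have h0 : D.tt w j m1 m2 = tr D.K j * g * D.M := rfl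
    rw [h0]
    simp only [Matrix.mul_apply, Fin.sum_univ_two, tr, Matrix.of_apply, Matrix.cons_val',
      Matrix.cons_val_zero, Matrix.cons_val_one, Matrix.cons_val_fin_one, hx, hy]
    ring
  have hxy1 : x * g 1 1 - y * g 1 0 = 1 := by
    rw [hx, hy]; linear_combination hdh
  have hp1 : ¬ ((D.p : ℤ) ∣ x ∧ (D.p : ℤ) ∣ y) := by
    rintro ⟨ha, hb⟩
    have hc : (D.p : ℤ) ∣ 1 := by
      rw [← hxy1]
      exact dvd_sub (Dvd.dvd.mul_right ha _) (Dvd.dvd.mul_right hb _)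
    have := Int.natCast_dvd_natCast.1 (by simpa using hc : (D.p : ℤ) ∣ ((1 : ℕ) : ℤ))
    exact hD.hp.one_lt.ne' (Nat.dvd_one.1 this)
  -- divisibility by m
  have hmK : (D.m : ℤ) ∣ (D.K : ℤ) := Int.natCast_dvd_natCast.2 hD.hmK
  have hCg := (hD.hr w hw).2.2 m1 h1 m2 h2
  rw [← hgdef] at hCg
  have hmd : ∀ i, (D.m : ℤ) ∣ x * D.M 0 i + y * D.M 1 i := by
    intro i
    have hH := hD.fam.mod0 i
    simp only [Matrix.mul_apply, Fin.sum_univ_two] at hH
    have e0 : (D.m : ℤ) ∣ g 0 0 - D.H0 0 0 := dvd_trans hmK (hCg 0 0)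
    have e1 : (D.m : ℤ) ∣ g 0 1 - D.H0 0 1 := dvd_trans hmK (hCg 0 1)
    have : x * D.M 0 i + y * D.M 1 i = (D.H0 0 0 * D.M 0 i + D.H0 0 1 * D.M 1 i) +
        (g 0 0 - D.H0 0 0) * D.M 0 i + (g 0 1 - D.H0 0 1) * D.M 1 i +
        (D.K : ℤ) * (j * g 1 0 * D.M 0 i + j * g 1 1 * D.M 1 i) := by
      rw [hx, hy]; ring
    rw [this]
    exact dvd_add (dvd_add (dvd_add hH (Dvd.dvd.mul_right e0 _)) (Dvd.dvd.mul_right e1 _))
      (Dvd.dvd.mul_right hmK _)
  have hcop : IsCoprime (D.p : ℤ) (D.m : ℤ) := by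
    rw [Nat.isCoprime_iff_coprime]
    refine (Nat.Prime.coprime_iff_not_dvd hD.hp).2 ?_
    intro h
    exact hD.hpK (dvd_trans h hD.hmK)
  have hCl : D.Cl w j m1 m2 ↔ ((D.p : ℤ) ∣ x * D.M 0 0 + y * D.M 1 0 ∧
      (D.p : ℤ) ∣ x * D.M 0 1 + y * D.M 1 1) := by
    constructor
    · intro h
      refine ⟨?_, ?_⟩
      · have := h 0
        rw [htt] at this
        exact dvd_trans (Dvd.intro _ rfl) this
      · have := h 1
        rw [htt] at this
        exact dvd_trans (Dvd.intro _ rfl) this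
    · rintro ⟨ha, hb⟩ i
      rw [htt]
      fin_cases i
      · exact hcop.mul_dvd ha (hmd 0)
      · exact hcop.mul_dvd hb (hmd 1)
  have hdp : (D.p : ℤ) ∣ D.M 0 0 * D.M 1 1 - D.M 0 1 * D.M 1 0 := by
    rw [hD.fam.det]; exact Dvd.intro _ rfl
  rw [hCl, cls_null D.M hdp hD.fam.nd hp1]
  -- the class of (x, y)
  have hdw' : (red D.p (w * D.r w)).det ≠ 0 := by rw [red_det _ _ hdw]; exact one_ne_zero
  have hd1' : (red D.p m1).det ≠ 0 := by rw [red_det _ _ hd1]; exact one_ne_zero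
  have hd2' : (red D.p m2).det ≠ 0 := by rw [red_det _ _ hd2]; exact one_ne_zero
  have hdw1' : (red D.p (w * D.r w * m1)).det ≠ 0 := by rw [red_det _ _ hdw1]; exact one_ne_zero
  have hact : act (red D.p m2) (act (red D.p m1) (covω D w j)) = cls (x : ZMod D.p) (y : ZMod D.p) := by
    unfold covω
    rw [← act_mul _ _ hdw' hd1', ← red_mul, ← act_mul _ _ hdw1' hd2', ← red_mul, ← hgdef]
    unfold act
    simp only [rp, red, Matrix.map_apply, one_mul]
    congr 1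
    · rw [hx]; push_cast; ring
    · rw [hy]; push_cast; ring
  rw [hact]

theorem covω_inj (hD : D.Ok) [Fact D.p.Prime] {w : M2} (hw : w ∈ nds D.K D.np) {j j' : ℕ}
    (h : covω D w j = covω D w j') : j % D.p = j' % D.p := by
  have hdw := cov_wdet hD hw
  have hdw' : (red D.p (w * D.r w)).det ≠ 0 := by rw [red_det _ _ hdw]; exact one_ne_zero
  have h1 := act_inj _ hdw' h
  have h2 : (D.K : ZMod D.p) * (j : ZMod D.p) = (D.K : ZMod D.p) * (j' : ZMod D.p) :=
    Option.some.inj h1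
  have hK0 : (D.K : ZMod D.p) ≠ 0 := by
    intro h0
    exact hD.hpK ((ZMod.natCast_eq_zero_iff _ _).1 h0)
  have h3 := mul_left_cancel₀ hK0 h2
  exact (ZMod.natCast_eq_natCast_iff' _ _ _).1 h3

theorem cov_card_mod (p m : ℕ) (S : Finset ℕ) (h1 : ∀ j ∈ S, j < p * m)
    (h2 : ∀ j ∈ S, ∀ j' ∈ S, j % p = j' % p) : S.card ≤ m := by
  have h3 : S.card = (S.image (fun j => j / p)).card := by
    refine (Finset.card_image_of_injOn ?_).symm
    intro a ha b hb hab
    have hab' : a / p = b / p := hab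
    have := h2 a ha b hb
    rw [← Nat.div_add_mod a p, ← Nat.div_add_mod b p, hab', this]
  rw [h3]
  calc (S.image (fun j => j / p)).card ≤ (Finset.range m).card := by
        refine Finset.card_le_card ?_
        intro x hx
        obtain ⟨j, hj, rfl⟩ := Finset.mem_image.1 hx
        exact Finset.mem_range.2 (Nat.div_lt_of_lt_mul (h1 j hj))
    _ = m := Finset.card_range m

open Classical in
theorem cov (hD : D.Ok) (Q : ℝ) (hB0 : D.B.Nonempty)
    (hQ : (((D.B ×ˢ D.B).filter (fun x : M2 × M2 => Cg D.p x.1 x.2)).card : ℝ) ≤ Q)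
    {w : M2} (hw : w ∈ nds D.K D.np) (hb : Bal D.A w) :
    ∃ E ⊆ Finset.range (D.p * D.m),
      (E.card : ℝ) ≤ D.m * (4 * ((D.p : ℝ) + 1) ^ 2 * (((D.p : ℝ) ^ 2 - 1) * Q) ^ 2 / (D.B.card : ℝ) ^ 4) ∧
      ∀ j ∈ Finset.range (D.p * D.m), j ∉ E →
        (D.B.card : ℝ) ^ 2 / (2 * (D.p + 1)) * (len w / (4 * (D.R : ℝ) ^ 2 * D.A * (D.n : ℝ) ^ 4)) ≤
          ∑ x ∈ (D.B ×ˢ D.B).filter (fun x : M2 × M2 => D.Cl w j x.1 x.2), len (D.hh w x.1 x.2) := by
  have : Fact D.p.Prime := ⟨hD.hp⟩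
  set ωs : Option (ZMod D.p) := cls ((D.M 1 1 : ℤ) : ZMod D.p) ((-(D.M 0 1) : ℤ) : ZMod D.p) with hωs
  set T : Finset (Option (ZMod D.p)) := Finset.univ.filter (fun ω =>
    ((((D.B ×ˢ D.B).filter (fun x : M2 × M2 =>
      act (red D.p x.2) (act (red D.p x.1) ω) = ωs)).card : ℕ) : ℝ) <
        (D.B.card : ℝ) ^ 2 / (2 * ((D.p : ℝ) + 1))) with hT
  have hexc := exc_le D.B (fun m hm => cov_bdet hD hm) Q hQ ωs T (by
    intro ω hω
    exact (Finset.mem_filter.1 hω).2)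
  have hBpos : (0 : ℝ) < (D.B.card : ℝ) ^ 4 := by
    have : (0 : ℝ) < (D.B.card : ℝ) := by exact_mod_cast hB0.card_pos
    positivity
  have hTle : (T.card : ℝ) ≤ 4 * ((D.p : ℝ) + 1) ^ 2 * (((D.p : ℝ) ^ 2 - 1) * Q) ^ 2 /
      (D.B.card : ℝ) ^ 4 := by
    rw [le_div_iff₀ hBpos]; exact hexc
  refine ⟨(Finset.range (D.p * D.m)).filter (fun j => covω D w j ∈ T), Finset.filter_subset _ _, ?_, ?_⟩
  · have h1 : ((Finset.range (D.p * D.m)).filter (fun j => covω D w j ∈ T)).card ≤ D.m * T.card := by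
      refine Finset.card_le_mul_card_image_of_maps_to (f := fun j => covω D w j) ?_ _ ?_
      · intro j hj
        exact (Finset.mem_filter.1 hj).2
      · intro ω _
        refine cov_card_mod D.p D.m _ ?_ ?_
        · intro j hj
          exact Finset.mem_range.1 (Finset.mem_filter.1 (Finset.mem_filter.1 hj).1).1
        · intro j hj j' hj'
          have e1 := (Finset.mem_filter.1 hj).2
          have e2 := (Finset.mem_filter.1 hj').2
          exact covω_inj hD hw (e1.trans e2.symm)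
    calc (((Finset.range (D.p * D.m)).filter (fun j => covω D w j ∈ T)).card : ℝ)
        ≤ ((D.m * T.card : ℕ) : ℝ) := by exact_mod_cast h1
      _ = D.m * (T.card : ℝ) := by push_cast; ring
      _ ≤ _ := mul_le_mul_of_nonneg_left hTle (Nat.cast_nonneg _)
  · intro j hj hjE
    have hnT : covω D w j ∉ T := fun h => hjE (Finset.mem_filter.2 ⟨hj, h⟩)
    have hge : (D.B.card : ℝ) ^ 2 / (2 * ((D.p : ℝ) + 1)) ≤
        ((((D.B ×ˢ D.B).filter (fun x : M2 × M2 =>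
          act (red D.p x.2) (act (red D.p x.1) (covω D w j)) = ωs)).card : ℕ) : ℝ) := by
      by_contra hlt
      push Not at hlt
      exact hnT (Finset.mem_filter.2 ⟨Finset.mem_univ _, hlt⟩)
    have hset : (D.B ×ˢ D.B).filter (fun x : M2 × M2 => D.Cl w j x.1 x.2) =
        (D.B ×ˢ D.B).filter (fun x : M2 × M2 =>
          act (red D.p x.2) (act (red D.p x.1) (covω D w j)) = ωs) := by
      refine Finset.filter_congr ?_
      intro x hx
      obtain ⟨hx1, hx2⟩ := Finset.mem_product.1 hx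
      exact cov_iff hD hw hx1 hx2 j
    have hwn : IsNd w := ((mem_ndw hD.hK).1 hw).1
    have hlen : 0 ≤ len w / (4 * (D.R : ℝ) ^ 2 * D.A * (D.n : ℝ) ^ 4) := by
      have hc : (0 : ℝ) < w 1 0 := by exact_mod_cast hwn.c0
      have hd : (0 : ℝ) < w 1 1 := by exact_mod_cast hwn.d0
      have hA : (0 : ℝ) ≤ D.A := le_trans zero_le_one hD.hA
      unfold len
      positivity
    calc (D.B.card : ℝ) ^ 2 / (2 * (D.p + 1)) * (len w / (4 * (D.R : ℝ) ^ 2 * D.A * (D.n : ℝ) ^ 4))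
        ≤ ((((D.B ×ˢ D.B).filter (fun x : M2 × M2 => D.Cl w j x.1 x.2)).card : ℕ) : ℝ) *
          (len w / (4 * (D.R : ℝ) ^ 2 * D.A * (D.n : ℝ) ^ 4)) := by
          rw [hset]
          exact mul_le_mul_of_nonneg_right hge hlen
      _ = ((D.B ×ˢ D.B).filter (fun x : M2 × M2 => D.Cl w j x.1 x.2)).card •
          (len w / (4 * (D.R : ℝ) ^ 2 * D.A * (D.n : ℝ) ^ 4)) := by rw [nsmul_eq_mul]
      _ ≤ _ := by
          refine Finset.card_nsmul_le_sum _ _ _ ?_
          intro x hx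
          obtain ⟨hx1, hx2⟩ := Finset.mem_product.1 (Finset.mem_filter.1 hx).1
          exact (hh_size hD hw hb hx1 hx2).2

/-- for given `w, m1, m2` at most `m` values of `j` (one class mod `p`) satisfy `Cl` -/
theorem cl_card (hD : D.Ok) {w m1 m2 : M2} (hw : w ∈ nds D.K D.np) (h1 : m1 ∈ D.B)
    (h2 : m2 ∈ D.B) (T : Finset ℕ) (hT : ∀ j ∈ T, j < D.p * D.m ∧ D.Cl w j m1 m2) :
    T.card ≤ D.m := by
  have : Fact D.p.Prime := ⟨hD.hp⟩
  refine cov_card_mod D.p D.m T (fun j hj => (hT j hj).1) ?_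
  intro j hj j' hj'
  have e1 := (cov_iff hD hw h1 h2 j).1 (hT j hj).2
  have e2 := (cov_iff hD hw h1 h2 j').1 (hT j' hj').2
  have hd1' : (red D.p m1).det ≠ 0 := by rw [red_det _ _ (cov_bdet hD h1)]; exact one_ne_zero
  have hd2' : (red D.p m2).det ≠ 0 := by rw [red_det _ _ (cov_bdet hD h2)]; exact one_ne_zero
  exact covω_inj hD hw (act_inj _ hd1' (act_inj _ hd2' (e1.trans e2.symm)))

end Pool.Agent.CQF
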