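import Pool.Agent.CQF.Far

set_option autoImplicit false

/-!
# Data attached to one prime
-/

open MeasureTheory

namespace Pool.Agent.CQF

/-- hypotheses on the matrix `M` attached to the prime `p` -/
structure FamOk (K m : ℕ) (H0 : M2) (ζ c1 c2 : ℝ) (p : ℕ) (M : M2) : Prop where
  det : M 0 0 * M 1 1 - M 0 1 * M 1 0 = (p : ℤ) * m
  nd : ¬ (p : ℤ) ∣ M 0 1
  mod0 : ∀ j, (m : ℤ) ∣ (H0 * M) 0 j
  cone : ∀ α β : ℝ, 0 < β → (2 - ζ) * β ≤ α → α ≤ 2 * β → ∀ j,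
    c1 * √p * β ≤ α * M 0 j + β * M 1 j ∧ α * M 0 j + β * M 1 j ≤ c2 * √p * β

/-- the data for one prime: level `K`, prime `p`, cofactor `m`, base order `N`, top of the window `N2`,
order `np` of the nodes `w`, block size `n`, class matrix `H0`, matrix `M`, blocks `B`,
correcting matrices `r w` with entries `≤ R`, balancedness `A` -/
structure Dat where
  K : ℕ
  p : ℕ
  m : ℕ
  N : ℕ
  N2 : ℕ
  np : ℕ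
  n : ℕ
  R : ℕ
  H0 : M2
  M : M2
  B : Finset M2
  r : M2 → M2
  ζ : ℝ
  c1 : ℝ
  c2 : ℝ
  A : ℝ

/-- the hypotheses on the data -/
structure Dat.Ok (D : Dat) : Prop where
  hK : 1 ≤ D.K
  hp : D.p.Prime
  hpK : ¬ D.p ∣ D.K
  hm : 1 ≤ D.m
  hmK : D.m ∣ D.K
  hN : 1 ≤ D.N
  hNnp : D.N ≤ D.np
  hn : 1 ≤ D.n
  hR : 1 ≤ D.R
  hζ0 : 0 < D.ζ
  hζ1 : D.ζ ≤ 1
  hc1 : 0 < D.c1
  hc12 : D.c1 ≤ D.c2
  hA : 1 ≤ D.A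
  hH0 : D.H0 0 0 * D.H0 1 1 - D.H0 0 1 * D.H0 1 0 = 1
  fam : FamOk D.K D.m D.H0 D.ζ D.c1 D.c2 D.p D.M
  hB : ∀ m ∈ D.B, m ∈ Bk D.ζ D.n ∧ InCone D.ζ m
  hr : ∀ w ∈ nds D.K D.np, IsNN (D.r w) ∧ (∀ i j, D.r w i j ≤ D.R) ∧
    ∀ m1 ∈ D.B, ∀ m2 ∈ D.B, Cg D.K (w * D.r w * m1 * m2) D.H0
  hN2 : 2 * (D.R : ℝ) * D.np * (D.n : ℝ) ^ 2 * (1 + D.c2 * √D.p) ≤ D.N2

/-- the subnode `w r m1 m2` -/
def Dat.hh (D : Dat) (w m1 m2 : M2) : M2 := w * D.r w * m1 * m2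

/-- the matrix `(1, K j; 0, 1) (w r m1 m2) M` -/
def Dat.tt (D : Dat) (w : M2) (j : ℕ) (m1 m2 : M2) : M2 := tr D.K j * D.hh w m1 m2 * D.M

/-- its first row is divisible by `p m` -/
def Dat.Cl (D : Dat) (w : M2) (j : ℕ) (m1 m2 : M2) : Prop :=
  ∀ i, ((D.p : ℤ) * D.m) ∣ D.tt w j m1 m2 0 i

/-- the node `v` with `tt = diag (p m, 1) v` -/
def Dat.vv (D : Dat) (w : M2) (j : ℕ) (m1 m2 : M2) : M2 :=
  !![D.tt w j m1 m2 0 0 / ((D.p : ℤ) * D.m), D.tt w j m1 m2 0 1 / ((D.p : ℤ) * D.m);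
     D.tt w j m1 m2 1 0, D.tt w j m1 m2 1 1]

/-- hypotheses on the function `Φ` -/
structure PhiOk (K : ℕ) (m : ℕ) (H0 : M2) (Φ : M2 → ℝ) (Bd : Set M2) (p : ℕ) (M : M2) : Prop where
  pm : ∀ h, IsNd h → Φ h = 1 ∨ Φ h = -1
  sib : ∀ h v, IsNd h → h 0 0 ≤ K * h 1 0 → Cg K h H0 → IsNd v → ∀ j : ℤ,
    tr K j * h * M = dg ((p : ℤ) * m) * v → Φ v = - Φ h ∨ v ∈ Bd

/-- `K fract (q s / K)` -/
noncomputable def sg (K q : ℕ) (s : ℝ) : ℝ := K * Int.fract ((q : ℝ) * s / K)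

/-- the exceptional set of the relation `G (q s) = - G s` -/
def Xs (Φ : M2 → ℝ) (K N q : ℕ) : Set ℝ :=
  {s | 0 < s ∧ s < K ∧ Irrational s ∧ ∃ h ∈ nds K N, ∃ h' ∈ nds K N,
    s ∈ J h ∧ sg K q s ∈ J h' ∧ Φ h' ≠ - Φ h}

end Pool.Agent.CQF
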