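import Mathlib

set_option autoImplicit false

/-!
# CQF: quartic forms `Q₁ Q₂` over one quadratic field - definitions for the Farey part

Nodes of the Farey tree are integer matrices `h = (a b; c d)` of determinant `1` with `b ≥ 0`,
`c, d > 0`; the interval of `h` is `J h = (b/d, a/c)`, of length `1/(cd)`.
-/

open MeasureTheory

namespace Pool.Agent.CQF

/-- integer `2 × 2` matrices -/
abbrev M2 := Matrix (Fin 2) (Fin 2) ℤ

/-- nodes of the Farey tree (intervals in `(0, ∞)`) -/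
structure IsNd (h : M2) : Prop where
  det : h 0 0 * h 1 1 - h 0 1 * h 1 0 = 1
  b0 : 0 ≤ h 0 1
  c0 : 0 < h 1 0
  d0 : 0 < h 1 1

/-- `h` has some order in `[N1, N2]` (order `N` means `c, d ≤ N < c + d`) -/
def Win (N1 N2 : ℕ) (h : M2) : Prop :=
  h 1 0 ≤ N2 ∧ h 1 1 ≤ N2 ∧ (N1 : ℤ) < h 1 0 + h 1 1

/-- the open interval of a node -/
def J (h : M2) : Set ℝ := Set.Ioo ((h 0 1 : ℝ) / h 1 1) ((h 0 0 : ℝ) / h 1 0)

/-- the length of the interval of a node -/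
noncomputable def len (h : M2) : ℝ := 1 / ((h 1 0 : ℝ) * h 1 1)

/-- matrices with entries in `[0, B]` -/
noncomputable def box (B : ℕ) : Finset M2 :=
  Fintype.piFinset fun _ => Fintype.piFinset fun _ => Finset.Icc (0 : ℤ) B

/-- nodes with interval in `(0, K)` and some order in `[N1, N2]` -/
noncomputable def ndw (K N1 N2 : ℕ) : Finset M2 :=
  open Classical in
  (box (K * N2)).filter (fun h => IsNd h ∧ Win N1 N2 h ∧ h 0 0 ≤ K * h 1 0)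

/-- nodes of order `N` with interval in `(0, K)` -/
noncomputable def nds (K N : ℕ) : Finset M2 := ndw K N N

/-- ratio of the entries `c, d` at most `A` -/
def Bal (A : ℝ) (h : M2) : Prop := (h 1 0 : ℝ) ≤ A * h 1 1 ∧ (h 1 1 : ℝ) ≤ A * h 1 0

/-- Lebesgue measure on `(0, K)` -/
noncomputable def mu (K : ℕ) : Measure ℝ := volume.restrict (Set.Ioo (0 : ℝ) K)

instance (K : ℕ) : IsFiniteMeasure (mu K) := by
  unfold mu
  exact ⟨by simp⟩

/-- the unstable set of the function `Φ` on nodes, window `[N1, N2]` -/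
def Ust (Φ : M2 → ℝ) (K N1 N2 : ℕ) : Set ℝ :=
  {s | 0 < s ∧ s < K ∧ Irrational s ∧ ∃ h ∈ ndw K N1 N2, ∃ h' ∈ ndw K N1 N2,
    s ∈ J h ∧ s ∈ J h' ∧ Φ h ≠ Φ h'}

/-- points in a node of the window which is not `A`-balanced -/
def Eun (K N1 N2 : ℕ) (A : ℝ) : Set ℝ :=
  {s | 0 < s ∧ s < K ∧ Irrational s ∧ ∃ h ∈ ndw K N1 N2, s ∈ J h ∧ ¬ Bal A h}

/-- left child: `(c, d) ↦ (c + d, d)` -/
def Lm : M2 := !![1, 0; 1, 1]

/-- right child: `(c, d) ↦ (c, c + d)` -/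
def Um : M2 := !![1, 1; 0, 1]

/-- `Φ` changes when `h` is split -/
def Chg (Φ : M2 → ℝ) (h : M2) : Prop := Φ (h * Lm) ≠ Φ h ∨ Φ (h * Um) ≠ Φ h

/-- nonnegative matrices of determinant `1` -/
def IsNN (m : M2) : Prop := (∀ i j, 0 ≤ m i j) ∧ m 0 0 * m 1 1 - m 0 1 * m 1 0 = 1

/-- both rows `(α, β)` satisfy `0 < β`, `(2 - ζ) β ≤ α ≤ 2 β` -/
def InCone (ζ : ℝ) (m : M2) : Prop :=
  ∀ i, 0 < m i 1 ∧ (2 - ζ) * (m i 1 : ℝ) ≤ m i 0 ∧ m i 0 ≤ 2 * m i 1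

/-- blocks: column sums `x ∈ ((1 - ζ/8) n, n]`, `y ∈ (n/2, (1 + ζ/8) n/2]` -/
noncomputable def Bk (ζ : ℝ) (n : ℕ) : Finset M2 :=
  open Classical in
  (box n).filter (fun m => IsNN m ∧ (1 - ζ / 8) * (n : ℝ) < ((m 0 0 + m 1 0 : ℤ) : ℝ) ∧
    m 0 0 + m 1 0 ≤ n ∧ (n : ℤ) < 2 * (m 0 1 + m 1 1) ∧
    2 * ((m 0 1 + m 1 1 : ℤ) : ℝ) ≤ (1 + ζ / 8) * n)

/-- congruence of integer matrices -/
def Cg (K : ℕ) (g h : M2) : Prop := ∀ i j, (K : ℤ) ∣ g i j - h i j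

/-- translation by `K j` -/
def tr (K : ℕ) (j : ℤ) : M2 := !![1, (K : ℤ) * j; 0, 1]

/-- the diagonal matrix `(q, 1)` -/
def dg (q : ℤ) : M2 := !![q, 0; 0, 1]

end Pool.Agent.CQF
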