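import Pool.Agent.CQF.Hsa

set_option autoImplicit false

/-!
# Module Hsb (size 4): `(1 + x Y)² - D Y² ≡ a` mod `k b` with `k ∣ Y`

Let `m = k |b| ≥ 1`, write `m = m1 m2` with every prime factor of `m1` dividing `6 k D` and `m2` coprime to `6 k D`
(`m1`, `m2` coprime; `k ∣ m1` since `k ∣ m` is coprime to `m2`).
Mod `m1`: write `a = 1 + 24 k² |D| a''`, `|D| = s D`, `s = ±1`. The map `x' ↦ x' + 6 k D x'²` on `ZMod m1` is injective:
the difference of two values is `(x - y)(1 + 6 k D (x + y))` and `1 + 6 k D (x+y)` is a unit (every prime factor of `m1`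
divides `6 k D`); so it is surjective: choose `x'` with `x' + 6 k D x'² ≡ 6 k + k s a''`. Then with
`x = D x'`, `Y = 12 k`: `(1 + x Y)² - D Y² = 1 + 24 k D (x' + 6 k D x'² - 6 k) ≡ 1 + 24 k² D s a'' = a` mod `m1`.
Mod `m2`: `a` is coprime to `m2` (the primes of `m2` divide `b`), so `conic_solve` gives `X, Y` with `Y` a unit; put
`x = (X - 1)/Y` mod `m2`. Chinese remainders: `x, Y` with both congruences. `k ∣ m1` and `Y ≡ 12 k` mod `m1`, so `k ∣ Y`.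
-/

namespace Pool.Agent.CQF

private theorem hsb_split (W : ℕ) (m : ℕ) : 1 ≤ m →
    ∃ m1 m2 e : ℕ, m = m1 * m2 ∧ Nat.Coprime m2 W ∧ m1 ∣ W ^ e ∧ 1 ≤ m1 ∧ 1 ≤ m2 := by
  induction m using Nat.strong_induction_on with
  | _ m ih =>
    intro hm
    by_cases h : Nat.Coprime m W
    · exact ⟨1, m, 0, by simp, h, by simp, le_rfl, hm⟩
    · obtain ⟨p, hp, h1, h2⟩ := Nat.Prime.not_coprime_iff_dvd.1 h
      obtain ⟨m', rfl⟩ := h1
      have hm' : 1 ≤ m' := by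
        rcases Nat.eq_zero_or_pos m' with h0 | h0
        · rw [h0, mul_zero] at hm; omega
        · exact h0
      have hlt : m' < p * m' := by
        have := hp.two_le
        nlinarith
      obtain ⟨m1, m2, e, e1, e2, e3, e4, e5⟩ := ih m' hlt hm'
      refine ⟨p * m1, m2, e + 1, by rw [e1]; ring, e2, ?_, Nat.mul_pos hp.pos e4, e5⟩
      rw [pow_succ, mul_comm]
      exact Nat.mul_dvd_mul e3 h2

private theorem hsb_crt {m1 m2 : ℤ} (h : IsCoprime m1 m2) (u v : ℤ) :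
    ∃ z : ℤ, m1 ∣ z - u ∧ m2 ∣ z - v := by
  obtain ⟨α, β, hab⟩ := h
  refine ⟨u * (β * m2) + v * (α * m1), ⟨(v - u) * α, ?_⟩, ⟨(u - v) * β, ?_⟩⟩
  · linear_combination u * hab
  · linear_combination v * hab

theorem loc_solve (D : ℤ) (hD : D ≠ 0) (k : ℕ) (hk : 1 ≤ k) (a b : ℤ) (hb0 : b ≠ 0)
    (hab : IsCoprime a b) (ha : (24 * (k : ℤ) ^ 2 * |D|) ∣ a - 1) (hb : (24 * (k : ℤ) ^ 2 * |D|) ∣ b) :
    ∃ x Y : ℤ, (k : ℤ) ∣ Y ∧ (k * b : ℤ) ∣ (1 + x * Y) ^ 2 - D * Y ^ 2 - a := by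
  obtain ⟨W, hW⟩ : ∃ W : ℕ, W = 6 * k * D.natAbs := ⟨_, rfl⟩
  have hm1 : 1 ≤ k * b.natAbs := Nat.mul_pos hk (Int.natAbs_pos.2 hb0)
  obtain ⟨m1, m2, e, e1, e2, e3, e4, e5⟩ := hsb_split W (k * b.natAbs) hm1
  have hWD : (W : ℤ) = 6 * k * |D| := by
    rw [hW]; push_cast; rfl
  have hc12 : Nat.Coprime m1 m2 := by
    have h1 : Nat.Coprime m2 (W ^ e) := Nat.Coprime.pow_right e e2
    exact (Nat.Coprime.coprime_dvd_right e3 h1).symm
  have hkW : k ∣ W := by rw [hW]; exact ⟨6 * D.natAbs, by ring⟩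
  have hkm2 : Nat.Coprime k m2 := (Nat.Coprime.coprime_dvd_right hkW e2).symm
  have hkm1 : k ∣ m1 := by
    have h1 : k ∣ m1 * m2 := by rw [← e1]; exact Dvd.intro _ rfl
    exact hkm2.dvd_of_dvd_mul_right h1
  -- modulo m1
  obtain ⟨a2, ha2⟩ := ha
  obtain ⟨s, hs⟩ : ∃ s : ℤ, |D| = s * D := by
    rcases abs_choice D with h | h
    · exact ⟨1, by rw [h]; ring⟩
    · exact ⟨-1, by rw [h]; ring⟩
  have hx : ∃ x' : ℤ, (m1 : ℤ) ∣ x' + 6 * k * D * x' ^ 2 - (6 * k + k * s * a2) := by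
    have : NeZero m1 := ⟨by omega⟩
    have hnil : IsNilpotent (((6 * k * D : ℤ)) : ZMod m1) := by
      refine ⟨e, ?_⟩
      have h1 : (m1 : ℤ) ∣ (6 * k * D) ^ e := by
        have h2 : (m1 : ℤ) ∣ ((W ^ e : ℕ) : ℤ) := Int.natCast_dvd_natCast.2 e3
        have h3 : ((W ^ e : ℕ) : ℤ) ∣ (6 * k * D) ^ e := by
          push_cast
          apply pow_dvd_pow_of_dvd
          rw [hWD]
          exact mul_dvd_mul_left _ ((abs_dvd _ _).2 dvd_rfl)
        exact h2.trans h3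
      have h2 := (ZMod.intCast_zmod_eq_zero_iff_dvd ((6 * (k : ℤ) * D) ^ e) m1).2 h1
      rw [Int.cast_pow] at h2
      exact h2
    obtain ⟨w, hw⟩ : ∃ w : ZMod m1, w = ((6 * k * D : ℤ) : ZMod m1) := ⟨_, rfl⟩
    rw [← hw] at hnil
    have hinj : Function.Injective (fun x : ZMod m1 => x + w * x ^ 2) := by
      intro x y hxy
      have h1 : (x - y) * (1 + w * (x + y)) = 0 := by
        have h2 : x + w * x ^ 2 = y + w * y ^ 2 := hxy
        linear_combination h2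
      have hu : IsUnit (1 + w * (x + y)) := by
        apply IsNilpotent.isUnit_one_add
        exact (Commute.all w (x + y)).isNilpotent_mul_right hnil
      have h3 := (IsUnit.mul_left_eq_zero hu).1 h1
      exact sub_eq_zero.1 h3
    have hsurj := Finite.injective_iff_surjective.1 hinj
    obtain ⟨z, hz⟩ := hsurj ((6 * k + k * s * a2 : ℤ) : ZMod m1)
    obtain ⟨x', rfl⟩ := ZMod.intCast_surjective z
    refine ⟨x', ?_⟩
    rw [← ZMod.intCast_zmod_eq_zero_iff_dvd]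
    have hz' : ((x' : ℤ) : ZMod m1) + w * ((x' : ℤ) : ZMod m1) ^ 2 =
      ((6 * k + k * s * a2 : ℤ) : ZMod m1) := hz
    rw [hw] at hz'
    push_cast at hz' ⊢
    linear_combination hz'
  obtain ⟨x', hx'⟩ := hx
  -- modulo m2
  have hm2b : (m2 : ℤ) ∣ b := by
    have h1 : m2 ∣ k * b.natAbs := by rw [e1]; exact Dvd.intro_left _ rfl
    have h2 : m2 ∣ b.natAbs := hkm2.symm.dvd_of_dvd_mul_left h1
    exact Int.natCast_dvd.2 h2
  have ham2 : IsCoprime a (m2 : ℤ) := IsCoprime.of_isCoprime_of_dvd_right hab hm2b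
  have hDm2 : IsCoprime (6 * D) (m2 : ℤ) := by
    have h1 : IsCoprime ((W : ℕ) : ℤ) (m2 : ℤ) := Nat.isCoprime_iff_coprime.2 e2.symm
    refine IsCoprime.of_isCoprime_of_dvd_left h1 ?_
    rw [hWD]
    have h2 : 6 * D ∣ 6 * |D| := mul_dvd_mul_left _ ((dvd_abs _ _).2 dvd_rfl)
    exact h2.trans ⟨k, by ring⟩
  obtain ⟨X, Y2, hY2, hXY⟩ := conic_solve D m2 e5 hDm2 a ham2
  obtain ⟨u, v, huv⟩ := hY2
  -- glue
  have hcZ : IsCoprime (m1 : ℤ) (m2 : ℤ) := Nat.isCoprime_iff_coprime.2 hc12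
  obtain ⟨x, hxa, hxb⟩ := hsb_crt hcZ (D * x') ((X - 1) * u)
  obtain ⟨Y, hYa, hYb⟩ := hsb_crt hcZ (12 * k) Y2
  refine ⟨x, Y, ?_, ?_⟩
  · have h1 : (k : ℤ) ∣ Y - 12 * k := (Int.natCast_dvd_natCast.2 hkm1).trans hYa
    have h2 := dvd_add h1 (Dvd.intro_left (12 : ℤ) rfl : (k : ℤ) ∣ 12 * k)
    rwa [sub_add_cancel] at h2
  · have hA : (m1 : ℤ) ∣ (1 + x * Y) ^ 2 - D * Y ^ 2 - a := by
      obtain ⟨c1, hc1⟩ := hxa
      obtain ⟨c2, hc2⟩ := hYa
      obtain ⟨c3, hc3⟩ := hx'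
      have hx1 : x = D * x' + m1 * c1 := by linarith
      have hY1 : Y = 12 * k + m1 * c2 := by linarith
      have haa : a = 1 + 24 * (k : ℤ) ^ 2 * (s * D) * a2 := by
        rw [← hs]; linarith
      have h4 : (1 + (D * x') * (12 * k)) ^ 2 - D * (12 * k) ^ 2 - a = m1 * (24 * k * D * c3) := by
        rw [haa]
        linear_combination 24 * k * D * hc3
      obtain ⟨P, hP⟩ : ∃ P : ℤ, P = 1 + (D * x') * (12 * k) := ⟨_, rfl⟩
      obtain ⟨R, hR⟩ : ∃ R : ℤ, 1 + x * Y = P + m1 * R := by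
        refine ⟨c1 * (12 * k) + D * x' * c2 + m1 * c1 * c2, ?_⟩
        rw [hx1, hY1, hP]; ring
      rw [← hP] at h4
      refine ⟨24 * k * D * c3 + 2 * P * R + m1 * R ^ 2 - D * (2 * (12 * k) * c2 + m1 * c2 ^ 2), ?_⟩
      rw [hR, hY1]
      linear_combination h4
    have hB : (m2 : ℤ) ∣ (1 + x * Y) ^ 2 - D * Y ^ 2 - a := by
      obtain ⟨c1, hc1⟩ := hxb
      obtain ⟨c2, hc2⟩ := hYb
      obtain ⟨c3, hc3⟩ := hXY
      have hx1 : x = (X - 1) * u + m2 * c1 := by linarith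
      have hY1 : Y = Y2 + m2 * c2 := by linarith
      obtain ⟨R, hR⟩ : ∃ R : ℤ, 1 + x * Y = X + m2 * R := by
        refine ⟨c1 * Y2 + (X - 1) * u * c2 + m2 * c1 * c2 - (X - 1) * v, ?_⟩
        rw [hx1, hY1]
        linear_combination (X - 1) * huv
      refine ⟨c3 + 2 * X * R + m2 * R ^ 2 - D * (2 * Y2 * c2 + m2 * c2 ^ 2), ?_⟩
      rw [hR, hY1]
      linear_combination hc3
    have hAB := hcZ.mul_dvd hA hB
    have h1 : (m1 : ℤ) * m2 = k * |b| := by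
      have := congrArg (fun n : ℕ => (n : ℤ)) e1
      push_cast at this
      rw [← this]
    rw [h1] at hAB
    have h2 : (k : ℤ) * b ∣ k * |b| := mul_dvd_mul_left _ ((dvd_abs _ _).2 dvd_rfl)
    exact h2.trans hAB

end Pool.Agent.CQF
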