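import Pool.Agent.CQF.Gga
import Pool.Agent.CQF.Hsb

set_option autoImplicit false

/-!
# Module Ggb (size 4): a congruence subgroup is contained in the invariance group

`L(t) = (1 0; t 1)`, `U(t) = (1 t; 0 1)` for rational `t`; `LQ a b = b L(a/b)`, `UQ a b = b U(a/b)`.
Let `γ = (a b; c d)`, `det = 1`, `γ ≡ 1` mod `K0 = 24 k² |D|`.
If `b = 0` then `a = d = ±1`, in fact `a = d = 1` or (`K0 ≥ 24`) only `a ≡ 1` so `a = 1`: `γ = L(c)`, `k ∣ c`.
If `b ≠ 0`: `gcd(a, b) = 1`, `loc_solve` gives `x, Y`, `k ∣ Y`, `A := (1 + xY)² - D Y² = a + k b n'`; `A ≠ 0`.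
`A ≡ 1` mod `k²`: write `A = 1 + k² z`. Then
`γ = diag(A, 1/A) · L(c' A) · U(b/A) · L(-k n')` with `c' = c + d k n'`, `k ∣ c'`, and
`diag(A, 1/A) = U(k) · L(k z) · U(-k/A) · L(-k z A)`.
(Check: `γ L(k n') = (A b; c' d)`, `· U(-b/A) = (A 0; c' 1/A)` as `A d - b c' = 1`, `· L(-c' A) = diag(A, 1/A)`;
`U(k) L(k z) = (A k; k z 1)`, `· U(-k/A) = (A 0; kz 1/A)`, `· L(-k z A) = diag(A, 1/A)`.)
All factors are in the invariance group: `L(k n)` by `lq_int`; `U(k) `: `uq` with `LQ (D k) 1`; `U(b/A)`, `b = k b'`: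
`uq` with `LQ (D k b') A` from `lq_div` applied to `LQ (k (D b')) 1`; `U(-k/A)` similarly.
Multiply the integer matrices `LQ`, `UQ` (`inv_mul`), the product is a nonzero integer multiple of `γ` (`inv_smul`).
-/

open Matrix

namespace Pool.Agent.CQF

private theorem Ggb_mul {X0 : Set (Fin 2 → ℤ)} {D : ℤ} (hD : ¬ IsSquare D) {h h' : M2}
    (h1 : Inv X0 D h 1) (h2 : Inv X0 D h' 1) : Inv X0 D (h * h') 1 := by
  have := inv_mul hD h1 h2
  rwa [one_mul] at this

private theorem Ggb_diag (k z A : ℤ) (hA : A = 1 + k ^ 2 * z) :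
    UQ k 1 * LQ (k * z) 1 * UQ (-k) A * LQ (k * (-(z * A))) 1 = !![A ^ 2, 0; 0, 1] := by
  subst hA
  ext i j
  fin_cases i <;> fin_cases j <;> simp [LQ, UQ, Matrix.mul_apply, Fin.sum_univ_two] <;> ring

private theorem Ggb_prod (a b c d k n A c' : ℤ) (h1 : A = a + k * b * n) (h2 : a * d - b * c = 1)
    (h3 : c' = c + d * (k * n)) :
    (!![A ^ 2, 0; 0, 1] : M2) * LQ (c' * A) 1 * UQ b A * LQ (k * (-n)) 1 =
      A ^ 2 • (!![a, b; c, d] : M2) := by
  have h8 : c' * b + 1 = A * d := by rw [h1, h3]; linear_combination -h2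
  ext i j
  fin_cases i <;> fin_cases j <;>
    simp only [LQ, UQ, Matrix.mul_apply, Fin.sum_univ_two, Matrix.smul_apply, smul_eq_mul,
      Fin.zero_eta, Fin.mk_one, Matrix.of_apply, Matrix.cons_val', Matrix.cons_val_zero,
      Matrix.cons_val_one, Matrix.cons_val_fin_one]
  · linear_combination A ^ 2 * h1
  · ring
  · linear_combination (-(k * n * A)) * h8 + A ^ 2 * h3
  · linear_combination A * h8

theorem gamma_inv {X0 : Set (Fin 2 → ℤ)} {D : ℤ} (hD : ¬ IsSquare D) {k : ℕ} (hk1 : 1 ≤ k)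
    (hk : Inv X0 D (Tk k) 1) {γ : M2} (hγ : γ 0 0 * γ 1 1 - γ 0 1 * γ 1 0 = 1)
    (hc : Cg (24 * k ^ 2 * D.natAbs) γ 1) : Inv X0 D γ 1 := by
  have hD0 : D ≠ 0 := by
    rintro rfl
    exact hD ⟨0, by ring⟩
  have hk0 : (1 : ℤ) ≤ k := by exact_mod_cast hk1
  have habs : 1 ≤ |D| := Int.one_le_abs hD0
  have h00 := hc 0 0
  have h01 := hc 0 1
  have h10 := hc 1 0
  push_cast at h00 h01 h10
  rw [Matrix.one_apply_eq] at h00
  rw [Matrix.one_apply_ne (by decide), sub_zero] at h01 h10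
  have hk2 : ((k : ℤ) ^ 2) ∣ 24 * (k : ℤ) ^ 2 * |D| := ⟨24 * |D|, by ring⟩
  have hkk : (k : ℤ) ∣ 24 * (k : ℤ) ^ 2 * |D| := ⟨24 * k * |D|, by ring⟩
  obtain ⟨a, b, c, d, rfl⟩ : ∃ a b c d, γ = !![a, b; c, d] := ⟨_, _, _, _, Matrix.eta_fin_two γ⟩
  simp only [Matrix.of_apply, Matrix.cons_val', Matrix.cons_val_zero, Matrix.cons_val_one,
    Matrix.cons_val_fin_one] at hγ h00 h01 h10
  have hL : ∀ n : ℤ, Inv X0 D (LQ (k * n) 1) 1 := fun n => lq_int hD hk n
  obtain ⟨c2, hc2⟩ := hkk.trans h10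
  by_cases hb0 : b = 0
  · subst hb0
    have hu : a * d = 1 := by linear_combination hγ
    have ha : a = 1 ∧ d = 1 := by
      rcases Int.eq_one_or_neg_one_of_mul_eq_one' hu with h | h
      · exact h
      · exfalso
        obtain ⟨rfl, -⟩ := h
        have h5 : (24 * (k : ℤ) ^ 2 * |D|) ∣ 2 := by
          have : (-1 - 1 : ℤ) = -2 := by norm_num
          rw [this, dvd_neg] at h00
          exact h00
        have h6 := Int.le_of_dvd (by norm_num) h5
        nlinarith [mul_le_mul (one_le_pow₀ hk0 : (1 : ℤ) ≤ (k : ℤ) ^ 2) habs (by norm_num)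
          (by positivity)]
    obtain ⟨rfl, rfl⟩ := ha
    have := hL c2
    rw [← hc2] at this
    exact this
  · have hab : IsCoprime a b := ⟨d, -c, by linear_combination hγ⟩
    obtain ⟨x, Y, hY, n, hn⟩ := loc_solve D hD0 k hk1 a b hb0 hab h00 h01
    obtain ⟨A, hA⟩ : ∃ A, A = (1 + x * Y) ^ 2 - D * Y ^ 2 := ⟨_, rfl⟩
    rw [← hA] at hn
    have hA1 : A = a + k * b * n := by linear_combination hn
    have hA0 : A ≠ 0 := by
      have hv : (![1 + x * Y, Y] : Fin 2 → ℤ) ≠ 0 := by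
        intro h
        have e0 := congrFun h 0
        have e1 := congrFun h 1
        simp only [Matrix.cons_val_zero, Matrix.cons_val_one, Pi.zero_apply,
          Matrix.cons_val_fin_one] at e0 e1
        rw [e1] at e0
        norm_num at e0
      have := nf_ne hD hv
      simp only [nf, Matrix.cons_val_zero, Matrix.cons_val_one, Matrix.cons_val_fin_one] at this
      rw [hA]
      exact this
    obtain ⟨z, hz⟩ : ((k : ℤ) ^ 2) ∣ A - 1 := by
      have e : A - 1 = (a - 1) + b * (k * n) := by rw [hA1]; ring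
      rw [e]
      exact dvd_add (hk2.trans h00) ((hk2.trans h01).mul_right _)
    have hA2 : A = 1 + (k : ℤ) ^ 2 * z := by linear_combination hz
    obtain ⟨b', hb'⟩ := hkk.trans h01
    have hU1 : Inv X0 D (UQ k 1) 1 := by
      apply uq hD one_ne_zero
      rw [mul_comm]
      exact hL D
    have hU2 : ∀ e : ℤ, Inv X0 D (UQ (k * e) A) 1 := by
      intro e
      apply uq hD hA0
      have h5 := lq_div hD hk hY one_ne_zero (x := x) (hL (D * e))
      rw [← hA, mul_one] at h5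
      have h6 : D * (k * e) = k * (D * e) := by ring
      rw [h6]
      exact h5
    have hU2' : Inv X0 D (UQ (-k) A) 1 := by
      have := hU2 (-1)
      rwa [mul_neg, mul_one] at this
    have hU3 : Inv X0 D (UQ b A) 1 := by
      rw [hb']
      exact hU2 b'
    have hd : Inv X0 D (!![A ^ 2, 0; 0, 1] : M2) 1 := by
      rw [← Ggb_diag k z A hA2]
      exact Ggb_mul hD (Ggb_mul hD (Ggb_mul hD hU1 (hL z)) hU2') (hL _)
    have hc' : Inv X0 D (LQ ((c + d * (k * n)) * A) 1) 1 := by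
      have : (c + d * (k * n)) * A = k * ((c2 + d * n) * A) := by rw [hc2]; ring
      rw [this]
      exact hL _
    have hfin := Ggb_mul hD (Ggb_mul hD (Ggb_mul hD hd hc') hU3) (hL (-n))
    rw [Ggb_prod a b c d k n A _ hA1 hγ rfl, inv_smul (pow_ne_zero 2 hA0)] at hfin
    exact hfin

end Pool.Agent.CQF
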