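import Pool.Agent.CQF.Lnb
import Pool.Agent.CQF.Dat

set_option autoImplicit false

/-!
# Module Sbv (size 3): the sibling relation for `Phi`

`K0 ∣ K`, `H0 ≡ 1` mod `K0`, `M = km D ρ * δ` with `δ ∈ Δ`, `nf D ρ = p m`, `ρ ≡ (1, 0)` mod `K0`, `lam m = 1`, `p` prime.
Let `h` be a node, `h ≡ H0` mod `K`, `v` a node, `tr K j * h * M = dg (p m) * v`.
* `adj h ≡ 1` mod `K0`, so `rr (adj h) = rr 1 = 1` and `Phi h = F (h 1)`.
* `p m = nf D ρ ≡ 1` mod `K0`, so `dg (pm) ≡ 1`, `tr K j ≡ 1`, `km D ρ ≡ 1`, hence `v ≡ δ` mod `K0`, `rr (adj v) = rr (adj δ)`.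
* second row: `v 1 = (dg (pm) * v) 1 = (tr K j * h * M) 1 = (h * M) 1`.
* if `v ∉ Bds`: `Phi v = F ((v rr (adj δ)) 1) = F ((v adj δ) 1)` and `(v adj δ) 1 = (h * km D ρ) 1 = (h 1) ᵥ* km D ρ`, so
  `Phi v = F (h 1) F ρ = F (h 1) lam (p m) = - F (h 1) = - Phi h` (`F_km`, `lam_mul`, `lam_prime`).
-/

open Matrix

namespace Pool.Agent.CQF

private theorem Sbv_row (A B : M2) (i : Fin 2) : (A * B) i = A i ᵥ* B := by
  rw [Matrix.mul_apply_eq_vecMul]

theorem phi_ok (D : ℤ) (hD : ¬ IsSquare D) (K0 K : ℕ) (hK0 : 1 ≤ K0) (hK : 1 ≤ K) (hd : K0 ∣ K)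
    (rr : M2 → M2) (Rg : Finset M2) (hr : IsSec K0 rr Rg) (Δ : Finset M2) (hΔ : ∀ δ ∈ Δ, D1 δ)
    (H0 : M2) (hH : D1 H0) (hH1 : Cg K0 H0 1) (p m : ℕ) (hp : p.Prime) (hm : 1 ≤ m)
    (hlm : lam (m : ℤ) = 1) (ρ : Fin 2 → ℤ) (hρ : nf D ρ = (p : ℤ) * m)
    (h0 : (K0 : ℤ) ∣ ρ 0 - 1) (h1 : (K0 : ℤ) ∣ ρ 1) (δ : M2) (hδ : δ ∈ Δ) :
    PhiOk K m H0 (Phi D rr) (Bds D rr Δ) p (km D ρ * δ) := by
  have hadj1 : (1 : M2).adjugate = 1 := Matrix.adjugate_one
  have hdK : (K0 : ℤ) ∣ (K : ℤ) := by exact_mod_cast hd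
  refine ⟨?_, ?_⟩
  · intro h hh
    have e1 : D1 h := hh.det
    have e2 := d1_mul e1 (hr.d1 _ (d1_adj e1).1)
    have e3 := F_pm hD (prm_ne (row_prm e2 1))
    unfold Phi
    rcases e3 with e | e
    · left
      rw [e]
      norm_num
    · right
      rw [e]
      norm_num
  · intro h v hh _ hc hv j hE
    by_cases hvb : v ∈ Bds D rr Δ
    · exact Or.inr hvb
    left
    have hvδ : F D ((v * rr δ.adjugate) 1) = F D ((v * δ.adjugate) 1) := by
      by_contra hne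
      exact hvb ⟨δ, hδ, hne⟩
    -- `h`
    have ch : Cg K0 h 1 := cg_trans (cg_dvd hd hc) hH1
    have rh : rr h.adjugate = 1 := by
      rw [hr.eq _ _ (cg_adj ch), hadj1, hr.one]
    have Ph : Phi D rr h = ((F D (h 1) : ℤ) : ℝ) := by
      unfold Phi
      rw [rh, mul_one]
    -- congruences
    have ctr : Cg K0 (tr K j) 1 := by
      intro a b
      fin_cases a <;> fin_cases b <;> simp [tr, Dvd.dvd.mul_right hdK j]
    have cdg : Cg K0 (dg ((p : ℤ) * m)) 1 := by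
      have e : (K0 : ℤ) ∣ (p : ℤ) * m - 1 := by
        have e1 : (p : ℤ) * m - 1 = (ρ 0 - 1) * (ρ 0 + 1) - ρ 1 * (D * ρ 1) := by
          rw [← hρ, nf]
          ring
        rw [e1]
        exact dvd_sub (Dvd.dvd.mul_right h0 _) (Dvd.dvd.mul_right h1 _)
      intro a b
      fin_cases a <;> fin_cases b <;> simp [dg, e]
    have ckm : Cg K0 (km D ρ) 1 := by
      intro a b
      fin_cases a <;> fin_cases b <;> simp [km, h0, h1, Dvd.dvd.mul_left h1 D]
    have c1 : Cg K0 (tr K j * h * (km D ρ * δ)) δ := by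
      have e := cg_mul (cg_mul ctr ch) (cg_mul ckm (show Cg K0 δ δ from fun a b => by simp))
      simpa using e
    have c2 : Cg K0 (dg ((p : ℤ) * m) * v) v := by
      have e := cg_mul cdg (show Cg K0 v v from fun a b => by simp)
      simpa using e
    have cv : Cg K0 v δ := by
      rw [hE] at c1
      exact cg_trans (cg_symm c2) c1
    have rv : rr v.adjugate = rr δ.adjugate := hr.eq _ _ (cg_adj cv)
    -- second row
    have r1 : (dg ((p : ℤ) * m) * v) 1 = v 1 := by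
      funext b
      simp [dg, Matrix.mul_apply, Fin.sum_univ_two]
    have r2 : (tr K j * h * (km D ρ * δ)) 1 = (h * (km D ρ * δ)) 1 := by
      rw [Matrix.mul_assoc]
      funext b
      simp [tr, Matrix.mul_apply, Fin.sum_univ_two]
    have r3 : v 1 = (h * (km D ρ * δ)) 1 := by
      rw [← r1, ← r2, hE]
    have r4 : (v * δ.adjugate) 1 = h 1 ᵥ* km D ρ := by
      rw [Sbv_row, r3, ← Sbv_row, ← Sbv_row]
      congr 1
      rw [Matrix.mul_assoc, Matrix.mul_assoc, (d1_adj (hΔ δ hδ)).2.1, mul_one]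
    have e1 : F D ((v * rr v.adjugate) 1) = - F D (h 1) := by
      rw [rv, hvδ, r4, F_km]
      have e2 : F D ρ = -1 := by
        unfold F
        rw [hρ, lam_mul, lam_prime hp, hlm, mul_one]
      rw [e2]
      ring
    rw [Ph]
    unfold Phi
    rw [e1]
    push_cast
    ring

end Pool.Agent.CQF
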