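import Pool.Agent.CQF.Alg

set_option autoImplicit false

/-!
# Module Sec (size 3): a section of the reduction mod `K0`

There are finitely many classes of integer matrices mod `K0` (`Matrix (Fin 2) (Fin 2) (ZMod K0)` is finite). For each class
`κ` which contains a matrix of determinant one choose one such matrix, `1` for the class of `1`;
`rr g` = the chosen matrix of the class of `g` (and `1` if the class contains none). `Rg` = the finite range.
-/

open Matrix

namespace Pool.Agent.CQF

/-- determinant one -/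
def D1 (g : M2) : Prop := g 0 0 * g 1 1 - g 0 1 * g 1 0 = 1

/-- section of the reduction mod `K0` -/
structure IsSec (K0 : ℕ) (rr : M2 → M2) (Rg : Finset M2) : Prop where
  d1 : ∀ g, D1 g → D1 (rr g)
  cg : ∀ g, D1 g → Cg K0 (rr g) g
  eq : ∀ g g', Cg K0 g g' → rr g = rr g'
  one : rr 1 = 1
  mem : ∀ g, rr g ∈ Rg

private def sec_red (K : ℕ) (g : M2) : Fin 2 → Fin 2 → ZMod K := fun i j => (g i j : ZMod K)

private theorem sec_red_iff {K : ℕ} {g h : M2} : sec_red K g = sec_red K h ↔ Cg K g h := by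
  constructor
  · intro e i j
    have h1 := congrFun (congrFun e i) j
    have h2 : ((h i j : ℤ) : ZMod K) = (g i j : ℤ) := h1.symm
    exact (ZMod.intCast_eq_intCast_iff_dvd_sub _ _ _).1 h2
  · intro e
    funext i j
    exact ((ZMod.intCast_eq_intCast_iff_dvd_sub _ _ _).2 (e i j)).symm

private theorem sec_one : D1 (1 : M2) := by
  unfold D1
  simp

theorem exists_sec (K0 : ℕ) (hK : 1 ≤ K0) : ∃ (rr : M2 → M2) (Rg : Finset M2), IsSec K0 rr Rg := by
  classical
  have : NeZero K0 := ⟨by omega⟩
  let pick : (Fin 2 → Fin 2 → ZMod K0) → M2 := fun κ =>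
    if κ = sec_red K0 1 then 1 else if h : ∃ g, D1 g ∧ sec_red K0 g = κ then h.choose else 1
  have hp : ∀ g, D1 g → D1 (pick (sec_red K0 g)) ∧ sec_red K0 (pick (sec_red K0 g)) =
      sec_red K0 g := by
    intro g hg
    by_cases h1 : sec_red K0 g = sec_red K0 1
    · have e : pick (sec_red K0 g) = 1 := if_pos h1
      rw [e]
      exact ⟨sec_one, h1.symm⟩
    · have h2 : ∃ g', D1 g' ∧ sec_red K0 g' = sec_red K0 g := ⟨g, hg, rfl⟩
      have e : pick (sec_red K0 g) = h2.choose := by
        change (if sec_red K0 g = sec_red K0 1 then 1 else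
          if h : ∃ g', D1 g' ∧ sec_red K0 g' = sec_red K0 g then h.choose else 1) = _
        rw [if_neg h1, dif_pos h2]
      rw [e]
      exact h2.choose_spec
  refine ⟨fun g => pick (sec_red K0 g), Finset.univ.image pick, ⟨fun g hg => (hp g hg).1,
    fun g hg => sec_red_iff.1 (hp g hg).2, fun g g' h => ?_, if_pos rfl,
    fun g => Finset.mem_image_of_mem _ (Finset.mem_univ _)⟩⟩
  change pick (sec_red K0 g) = pick (sec_red K0 g')
  rw [sec_red_iff.2 h]

theorem cg_mul {K : ℕ} {a b c d : M2} (h : Cg K a b) (h' : Cg K c d) : Cg K (a * c) (b * d) := by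
  intro i j
  rw [Matrix.mul_apply, Matrix.mul_apply, ← Finset.sum_sub_distrib]
  refine Finset.dvd_sum fun k _ => ?_
  have e : a i k * c k j - b i k * d k j = (a i k - b i k) * c k j + b i k * (c k j - d k j) := by
    ring
  rw [e]
  exact dvd_add (Dvd.dvd.mul_right (h i k) _) (Dvd.dvd.mul_left (h' k j) _)

theorem cg_adj {K : ℕ} {a b : M2} (h : Cg K a b) : Cg K a.adjugate b.adjugate := by
  intro i j
  rw [Matrix.adjugate_fin_two, Matrix.adjugate_fin_two]
  fin_cases i <;> fin_cases j <;> simp only [Fin.mk_zero, Fin.mk_one, Fin.zero_eta, Fin.isValue,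
    Matrix.of_apply, Matrix.cons_val', Matrix.cons_val_zero, Matrix.cons_val_one,
    Matrix.cons_val_fin_one]
  · exact h 1 1
  · have := (h 0 1).neg_right
    rwa [neg_sub, sub_eq_add_neg, add_comm, ← sub_neg_eq_add, sub_neg_eq_add,
      ← sub_neg_eq_add (-(a 0 1))] at this
  · have := (h 1 0).neg_right
    rwa [neg_sub, sub_eq_add_neg, add_comm, ← sub_neg_eq_add, sub_neg_eq_add,
      ← sub_neg_eq_add (-(a 1 0))] at this
  · exact h 0 0

theorem cg_symm {K : ℕ} {a b : M2} (h : Cg K a b) : Cg K b a := by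
  intro i j
  have := (h i j).neg_right
  rwa [neg_sub] at this

theorem cg_trans {K : ℕ} {a b c : M2} (h : Cg K a b) (h' : Cg K b c) : Cg K a c := by
  intro i j
  have := dvd_add (h i j) (h' i j)
  rwa [sub_add_sub_cancel] at this

theorem cg_dvd {K K0 : ℕ} (hd : K0 ∣ K) {a b : M2} (h : Cg K a b) : Cg K0 a b := fun i j =>
  (Int.natCast_dvd_natCast.2 hd).trans (h i j)

theorem d1_adj {g : M2} (h : D1 g) : D1 g.adjugate ∧ g * g.adjugate = 1 ∧ g.adjugate * g = 1 := by
  have hdet : g.det = 1 := by rw [Matrix.det_fin_two]; exact h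
  refine ⟨?_, ?_, ?_⟩
  · unfold D1
    rw [← Matrix.det_fin_two, Matrix.det_adjugate, hdet]
    simp
  · rw [Matrix.mul_adjugate, hdet, one_smul]
  · rw [Matrix.adjugate_mul, hdet, one_smul]

theorem d1_mul {g g' : M2} (h : D1 g) (h' : D1 g') : D1 (g * g') := by
  have hdet : g.det = 1 := by rw [Matrix.det_fin_two]; exact h
  have hdet' : g'.det = 1 := by rw [Matrix.det_fin_two]; exact h'
  unfold D1
  rw [← Matrix.det_fin_two, Matrix.det_mul, hdet, hdet', one_mul]

end Pool.Agent.CQF
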