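import Pool.Agent.CQF.Lm
import Pool.Agent.CQF.Sec
import Pool.Agent.CQF.Dat

set_option autoImplicit false

/-!
# Module Sd (size 4): the cone condition after a bounded correction

`ρ = (e, f)`, `nf D ρ = p m ≥ p`, `|e|, |f| ≤ C √p`. `km D ρ = (e f; D f e)`. Let
`z = (2, 1) km D ρ = (2e + D f, 2f + e)`. `(2, 1) · (p m) = z · adj (km D ρ)`, so `2 p ≤ 2 p m ≤ 2 |z| (1 + |D|) C √p`,
`|z| ≥ √p/((1+|D|) C)` (sup norm).
With `S = (0 -1; 1 0)`, `(z0, z1) S = (z1, -z0)`; some `z S^i`, `i < 4`, has both coordinates `≥ 0`. For `(z0, z1) ≥ 0`: if `z1 < z0/2`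
use `Um`: `(z0, z0 + z1)`; if `z0 < z1/2` use `Lm`: `(z0 + z1, z1)`; otherwise `1`. So for some `δ` in the finite set `Δ` of the
`S^i, S^i Um, S^i Lm`, both coordinates of `z δ` are `≥ |z|/2`.
For `(α, β) = β (2 - ζ', 1)` with `0 ≤ ζ' ≤ ζ`, `β > 0`: `(α, β) km δ = β (z δ - ζ' (e, f) δ)`, and the coordinates of
`(e, f) δ` are at most `2 C √p`. So with `ζ = min 1 (1/(8 (1+|D|) C²))`, `c1 = 1/(4 (1+|D|) C)` and
`c2 = ` something like `8 (1 + |D|) C`.
`p ∤ (km D ρ * δ) 0 1`: this entry is one of `± e, ± f, ± e ± f`, in absolute value `≤ 2 C √p < p` for large `p`, and nonzero: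
`e = 0` gives `p ∣ D f²`, so `p ∣ f` (`p > |D|`), `f = 0`, contradiction to `nf = p m ≠ 0`; `f = 0` gives `p ∣ e²`, `e = 0`;
`e = ± f` gives `e² (1 - D) = p m`, so `p ∣ e` (`p > |1 - D| > 0`), `e = 0`, then `f = 0`.
-/

open Matrix

namespace Pool.Agent.CQF

private def SdQ (z0 z1 : ℤ) : Prop :=
  ∃ δ : M2, (∀ i j, -1 ≤ δ i j ∧ δ i j ≤ 1) ∧ D1 δ ∧
    ∀ j, |z0| ≤ 2 * (z0 * δ 0 j + z1 * δ 1 j) ∧ |z1| ≤ 2 * (z0 * δ 0 j + z1 * δ 1 j)

private theorem sd_nn {z0 z1 : ℤ} (h0 : 0 ≤ z0) (h1 : 0 ≤ z1) : SdQ z0 z1 := by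
  unfold SdQ
  rw [abs_of_nonneg h0, abs_of_nonneg h1]
  by_cases ha : 2 * z1 < z0
  · refine ⟨!![1, 1; 0, 1], ?_, ?_, ?_⟩
    · intro i j
      fin_cases i <;> fin_cases j <;> simp
    · simp [D1]
    · intro j
      fin_cases j
      · simp
        constructor <;> linarith
      · simp
        constructor <;> linarith
  · by_cases hb : 2 * z0 < z1
    · refine ⟨!![1, 0; 1, 1], ?_, ?_, ?_⟩
      · intro i j
        fin_cases i <;> fin_cases j <;> simp
      · simp [D1]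
      · intro j
        fin_cases j
        · simp
          constructor <;> linarith
        · simp
          constructor <;> linarith
    · refine ⟨!![1, 0; 0, 1], ?_, ?_, ?_⟩
      · intro i j
        fin_cases i <;> fin_cases j <;> simp
      · simp [D1]
      · intro j
        fin_cases j
        · simp
          constructor <;> linarith
        · simp
          constructor <;> linarith

private theorem sd_rot {z0 z1 : ℤ} (h : SdQ z1 (-z0)) : SdQ z0 z1 := by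
  obtain ⟨δ, h1, h2, h3⟩ := h
  refine ⟨!![-δ 1 0, -δ 1 1; δ 0 0, δ 0 1], ?_, ?_, ?_⟩
  · have a00 := h1 0 0
    have a01 := h1 0 1
    have a10 := h1 1 0
    have a11 := h1 1 1
    intro i j
    fin_cases i <;> fin_cases j <;> simp <;> omega
  · unfold D1 at h2 ⊢
    simp
    linarith
  · intro j
    have h4 := h3 j
    rw [abs_neg] at h4
    fin_cases j
    · simp at h4 ⊢
      constructor <;> linarith [h4.1, h4.2]
    · simp at h4 ⊢
      constructor <;> linarith [h4.1, h4.2]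

private theorem sd_all (z0 z1 : ℤ) : SdQ z0 z1 := by
  rcases le_total 0 z0 with h0 | h0
  · rcases le_total 0 z1 with h1 | h1
    · exact sd_nn h0 h1
    · refine sd_rot (sd_rot (sd_rot (sd_nn ?_ ?_)))
      · omega
      · omega
  · rcases le_total 0 z1 with h1 | h1
    · refine sd_rot (sd_nn ?_ ?_)
      · omega
      · omega
    · refine sd_rot (sd_rot (sd_nn ?_ ?_))
      · omega
      · omega

private theorem sd_zero {p x : ℤ} (hx : |x| < p) (h : p ∣ x) : x = 0 :=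
  Int.eq_zero_of_abs_lt_dvd h hx

/-- the entry is not divisible by `p` -/
private theorem sd_nd {D : ℤ} (hD : ¬ IsSquare D) {p : ℕ} (hp : p.Prime) {m : ℕ} (hm : 1 ≤ m)
    {e f s t : ℤ} (hnf : e ^ 2 - D * f ^ 2 = (p : ℤ) * m) (he : |e| < p) (hf : |f| < p)
    (hx : |e * s + f * t| < p) (hs : -1 ≤ s ∧ s ≤ 1) (ht : -1 ≤ t ∧ t ≤ 1)
    (hst : ¬ (s = 0 ∧ t = 0)) (hDp : |D| + 1 < p) : ¬ (p : ℤ) ∣ e * s + f * t := by
  intro h
  have hpZ : Prime (p : ℤ) := Nat.prime_iff_prime_int.1 hp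
  have h0 := sd_zero hx h
  have hpm : (0 : ℤ) < (p : ℤ) * m := by
    have h1 : (0 : ℤ) < p := by exact_mod_cast hp.pos
    have h2 : (0 : ℤ) < m := by exact_mod_cast hm
    positivity
  have hD0 : D ≠ 0 := by
    rintro rfl
    exact hD ⟨0, rfl⟩
  have hD1 : D ≠ 1 := by
    rintro rfl
    exact hD ⟨1, rfl⟩
  have hpD : ¬ (p : ℤ) ∣ D := fun hd => hD0 (sd_zero (by linarith [abs_nonneg D]) hd)
  have hpD1 : ¬ (p : ℤ) ∣ 1 - D := by
    intro hd
    have h1 : |1 - D| < p := by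
      have := abs_sub (1 : ℤ) D
      rw [abs_one] at this
      linarith
    have h2 := sd_zero h1 hd
    exact hD1 (by linarith)
  have hfin : ¬ (e = 0 ∧ f = 0) := by
    rintro ⟨rfl, rfl⟩
    simp at hnf
    have h1 := hp.pos
    omega
  by_cases hs0 : s = 0
  · have ht0 : t ≠ 0 := fun h1 => hst ⟨hs0, h1⟩
    rw [hs0, mul_zero, zero_add] at h0
    have hf0 : f = 0 := (mul_eq_zero.1 h0).resolve_right ht0
    apply hfin
    refine ⟨?_, hf0⟩
    apply sd_zero he
    apply hpZ.dvd_of_dvd_pow (n := 2)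
    refine ⟨m, ?_⟩
    rw [← hnf, hf0]
    ring
  · by_cases ht0 : t = 0
    · rw [ht0, mul_zero, add_zero] at h0
      have he0 : e = 0 := (mul_eq_zero.1 h0).resolve_right hs0
      apply hfin
      refine ⟨he0, ?_⟩
      apply sd_zero hf
      apply hpZ.dvd_of_dvd_pow (n := 2)
      have h1 : (p : ℤ) ∣ D * f ^ 2 := by
        refine ⟨-m, ?_⟩
        rw [he0] at hnf
        linarith
      exact (hpZ.dvd_or_dvd h1).resolve_left hpD
    · have hs2 : s ^ 2 = 1 := by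
        have : s = 1 ∨ s = -1 := by omega
        rcases this with rfl | rfl <;> norm_num
      have ht2 : t ^ 2 = 1 := by
        have : t = 1 ∨ t = -1 := by omega
        rcases this with rfl | rfl <;> norm_num
      have hef : e ^ 2 = f ^ 2 := by
        have h1 : e * s = -(f * t) := by linarith
        have h2 : (e * s) ^ 2 = (f * t) ^ 2 := by rw [h1]; ring
        rw [mul_pow, mul_pow, hs2, ht2, mul_one, mul_one] at h2
        exact h2
      have h1 : (p : ℤ) ∣ (1 - D) * f ^ 2 := by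
        refine ⟨m, ?_⟩
        rw [← hnf, hef]
        ring
      have h2 : (p : ℤ) ∣ f ^ 2 := (hpZ.dvd_or_dvd h1).resolve_left hpD1
      apply hfin
      constructor
      · apply sd_zero he
        apply hpZ.dvd_of_dvd_pow (n := 2)
        rw [hef]
        exact h2
      · apply sd_zero hf
        exact hpZ.dvd_of_dvd_pow h2

/-- the inequalities for one column -/
private theorem sd_ineq {D e f s t pm Z X Y : ℝ} {C P L ζ : ℝ} (hC : 1 ≤ C) (hP : 0 < P)
    (hL : L = 1 + |D|) (hζ : ζ = 1 / (4 * L * C ^ 2)) (he : |e| ≤ C * P) (hf : |f| ≤ C * P)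
    (hs : |s| ≤ 1) (ht : |t| ≤ 1) (hX : X = e * s + f * t) (hY : Y = D * f * s + e * t)
    (hZ : Z = (2 * e + D * f) * s + (2 * f + e) * t) (hpm : P ^ 2 ≤ pm)
    (hnf : e ^ 2 - D * f ^ 2 = pm) (h0 : |2 * e + D * f| ≤ 2 * Z) (h1 : |2 * f + e| ≤ 2 * Z)
    {α β : ℝ} (hβ : 0 < β) (ha : (2 - ζ) * β ≤ α) (hb : α ≤ 2 * β) :
    1 / (2 * L * C) * P * β ≤ α * X + β * Y ∧ α * X + β * Y ≤ 8 * L * C * P * β := by
  have hD := abs_nonneg D
  have hL1 : 1 ≤ L := by rw [hL]; linarith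
  have hB : 0 < C * P := by positivity
  have hζ0 : 0 < ζ := by rw [hζ]; positivity
  have hLC : 1 ≤ L * C := one_le_mul_of_one_le_of_one_le hL1 hC
  have hζ1 : ζ ≤ 1 := by
    rw [hζ, div_le_one (by positivity)]
    nlinarith [mul_le_mul hLC hC (by norm_num) (by positivity)]
  have hXb : |X| ≤ 2 * (C * P) := by
    rw [hX]
    calc |e * s + f * t| ≤ |e * s| + |f * t| := abs_add_le _ _
      _ = |e| * |s| + |f| * |t| := by rw [abs_mul, abs_mul]
      _ ≤ (C * P) * 1 + (C * P) * 1 := by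
          exact add_le_add (mul_le_mul he hs (abs_nonneg _) hB.le)
            (mul_le_mul hf ht (abs_nonneg _) hB.le)
      _ = 2 * (C * P) := by ring
  have hZ0 : 0 ≤ Z := by linarith [abs_nonneg (2 * e + D * f)]
  -- lower bound of `Z`
  have hZl : P ≤ Z * (L * C) := by
    have h2 : 2 * pm = (2 * e + D * f) * e - (2 * f + e) * (D * f) := by
      rw [← hnf]; ring
    have h3 : (2 * e + D * f) * e ≤ 2 * Z * (C * P) := by
      calc (2 * e + D * f) * e ≤ |(2 * e + D * f) * e| := le_abs_self _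
        _ = |2 * e + D * f| * |e| := abs_mul _ _
        _ ≤ 2 * Z * (C * P) := mul_le_mul h0 he (abs_nonneg _) (by linarith)
    have h4 : -((2 * f + e) * (D * f)) ≤ 2 * Z * (|D| * (C * P)) := by
      calc -((2 * f + e) * (D * f)) ≤ |(2 * f + e) * (D * f)| := neg_le_abs _
        _ = |2 * f + e| * (|D| * |f|) := by rw [abs_mul, abs_mul]
        _ ≤ 2 * Z * (|D| * (C * P)) := by
            apply mul_le_mul h1 (mul_le_mul_of_nonneg_left hf hD) (by positivity) (by linarith)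
    have h5 : P * P ≤ Z * (L * C) * P := by
      have e1 : 2 * Z * (C * P) + 2 * Z * (|D| * (C * P)) = 2 * (Z * (L * C) * P) := by
        rw [hL]; ring
      nlinarith
    exact le_of_mul_le_mul_right h5 hP
  -- upper bound of `Z`
  have hZu : Z ≤ (5 + |D|) * (C * P) := by
    have h2 : |2 * e + D * f| ≤ (2 + |D|) * (C * P) := by
      calc |2 * e + D * f| ≤ |2 * e| + |D * f| := abs_add_le _ _
        _ = 2 * |e| + |D| * |f| := by rw [abs_mul, abs_mul, abs_two]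
        _ ≤ 2 * (C * P) + |D| * (C * P) :=
            add_le_add (by linarith) (mul_le_mul_of_nonneg_left hf hD)
        _ = _ := by ring
    have h3 : |2 * f + e| ≤ 3 * (C * P) := by
      calc |2 * f + e| ≤ |2 * f| + |e| := abs_add_le _ _
        _ = 2 * |f| + |e| := by rw [abs_mul, abs_two]
        _ ≤ 3 * (C * P) := by linarith
    rw [hZ]
    calc (2 * e + D * f) * s + (2 * f + e) * t ≤ |(2 * e + D * f) * s| + |(2 * f + e) * t| :=
          add_le_add (le_abs_self _) (le_abs_self _)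
      _ = |2 * e + D * f| * |s| + |2 * f + e| * |t| := by rw [abs_mul, abs_mul]
      _ ≤ ((2 + |D|) * (C * P)) * 1 + (3 * (C * P)) * 1 :=
          add_le_add (mul_le_mul h2 hs (abs_nonneg _) (by positivity))
            (mul_le_mul h3 ht (abs_nonneg _) (by positivity))
      _ = _ := by ring
  have key : α * X + β * Y = β * Z - (2 * β - α) * X := by
    rw [hX, hY, hZ]; ring
  have hk0 : 0 ≤ 2 * β - α := by linarith
  have hk1 : 2 * β - α ≤ ζ * β := by linarith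
  have hkX : |(2 * β - α) * X| ≤ ζ * β * (2 * (C * P)) := by
    rw [abs_mul, abs_of_nonneg hk0]
    exact mul_le_mul hk1 hXb (abs_nonneg _) (by positivity)
  have hkX1 := (abs_le.1 hkX).1
  have hkX2 := (abs_le.1 hkX).2
  rw [key]
  constructor
  · have h2 : P / (L * C) ≤ Z := by
      rw [div_le_iff₀ (by positivity)]
      exact hZl
    have h3 : β * (P / (L * C)) ≤ β * Z := mul_le_mul_of_nonneg_left h2 hβ.le
    have h4 : ζ * β * (2 * (C * P)) = 1 / (2 * L * C) * P * β := by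
      rw [hζ]
      field_simp
      ring
    have h5 : β * (P / (L * C)) = 2 * (1 / (2 * L * C) * P * β) := by
      field_simp
    linarith
  · have h3 : β * Z ≤ β * ((5 + |D|) * (C * P)) := mul_le_mul_of_nonneg_left hZu hβ.le
    have h4 : ζ * β * (2 * (C * P)) ≤ 1 * β * (2 * (C * P)) := by gcongr
    have h5 : β * ((5 + |D|) * (C * P)) + 1 * β * (2 * (C * P)) ≤ 8 * L * C * P * β := by
      have e1 : 8 * L * C * P * β - (β * ((5 + |D|) * (C * P)) + 1 * β * (2 * (C * P))) =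
          (1 + 7 * |D|) * (β * (C * P)) := by
        rw [hL]; ring
      have e2 : 0 ≤ (1 + 7 * |D|) * (β * (C * P)) := by positivity
      linarith
    linarith

theorem cone_choice (D : ℤ) (hD : ¬ IsSquare D) (C : ℝ) (hC : 1 ≤ C) :
    ∃ (ζ c1 c2 : ℝ) (p0 : ℕ) (Δ : Finset M2), 0 < ζ ∧ ζ ≤ 1 ∧ 0 < c1 ∧ c1 ≤ c2 ∧ (∀ δ ∈ Δ, D1 δ) ∧
      ∀ p : ℕ, p.Prime → p0 ≤ p → ∀ (m : ℕ) (ρ : Fin 2 → ℤ), 1 ≤ m → nf D ρ = (p : ℤ) * m →
        (∀ j, |(ρ j : ℝ)| ≤ C * √p) → ∃ δ ∈ Δ, ¬ (p : ℤ) ∣ (km D ρ * δ) 0 1 ∧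
          ∀ α β : ℝ, 0 < β → (2 - ζ) * β ≤ α → α ≤ 2 * β → ∀ j,
            c1 * √p * β ≤ α * (km D ρ * δ) 0 j + β * (km D ρ * δ) 1 j ∧
            α * (km D ρ * δ) 0 j + β * (km D ρ * δ) 1 j ≤ c2 * √p * β := by
  classical
  obtain ⟨L, hL⟩ : ∃ L : ℝ, L = 1 + |(D : ℝ)| := ⟨_, rfl⟩
  have hDa := abs_nonneg (D : ℝ)
  have hL1 : 1 ≤ L := by rw [hL]; linarith
  have hLC : 1 ≤ L * C := one_le_mul_of_one_le_of_one_le hL1 hC
  refine ⟨1 / (4 * L * C ^ 2), 1 / (2 * L * C), 8 * L * C, ⌈4 * C ^ 2⌉₊ + D.natAbs + 2,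
    (Fintype.piFinset fun _ : Fin 2 => Fintype.piFinset fun _ : Fin 2 =>
      Finset.Icc (-1 : ℤ) 1).filter (fun δ => D1 δ), by positivity, ?_, by positivity, ?_, ?_, ?_⟩
  · rw [div_le_one (by positivity)]
    nlinarith [mul_le_mul hLC hC (by norm_num) (by positivity)]
  · rw [div_le_iff₀ (by positivity)]
    nlinarith
  · intro δ hδ
    exact (Finset.mem_filter.1 hδ).2
  · intro p hp hp0 m ρ hm hnf hρ
    obtain ⟨P, hP⟩ : ∃ P : ℝ, P = √p := ⟨_, rfl⟩
    rw [← hP] at hρ ⊢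
    have hp1 : (0 : ℝ) < p := by exact_mod_cast hp.pos
    have hP0 : 0 < P := by rw [hP]; exact Real.sqrt_pos.2 hp1
    have hPP : P ^ 2 = p := by rw [hP]; exact Real.sq_sqrt hp1.le
    have hpC : 4 * C ^ 2 < p := by
      have h1 : 4 * C ^ 2 ≤ (⌈4 * C ^ 2⌉₊ : ℝ) := Nat.le_ceil _
      have h2 : ((⌈4 * C ^ 2⌉₊ + D.natAbs + 2 : ℕ) : ℝ) ≤ p := by exact_mod_cast hp0
      push_cast at h2
      have h3 : (0 : ℝ) ≤ (D.natAbs : ℝ) := Nat.cast_nonneg _
      linarith
    have hDp : |D| + 1 < (p : ℤ) := by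
      rw [Int.abs_eq_natAbs]
      have : D.natAbs + 1 < p := by omega
      exact_mod_cast this
    have hP2 : 2 * C < P := by
      have h1 : (2 * C) ^ 2 < P ^ 2 := by rw [hPP]; linarith
      exact lt_of_pow_lt_pow_left₀ 2 hP0.le h1
    have h2CP : 2 * (C * P) < p := by
      rw [← hPP]
      nlinarith
    have he := hρ 0
    have hf := hρ 1
    obtain ⟨δ, hδ1, hδ2, hδ3⟩ := sd_all (2 * ρ 0 + D * ρ 1) (2 * ρ 1 + ρ 0)
    have hkm0 : ∀ j, (km D ρ * δ) 0 j = ρ 0 * δ 0 j + ρ 1 * δ 1 j := by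
      intro j
      rw [Matrix.mul_apply, Fin.sum_univ_two]
      rfl
    have hkm1 : ∀ j, (km D ρ * δ) 1 j = D * ρ 1 * δ 0 j + ρ 0 * δ 1 j := by
      intro j
      rw [Matrix.mul_apply, Fin.sum_univ_two]
      rfl
    have hcast : ∀ i j, |((δ i j : ℤ) : ℝ)| ≤ 1 := by
      intro i j
      have h1 := hδ1 i j
      rw [abs_le]
      constructor
      · exact_mod_cast h1.1
      · exact_mod_cast h1.2
    refine ⟨δ, ?_, ?_, ?_⟩
    · rw [Finset.mem_filter]
      refine ⟨?_, hδ2⟩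
      refine Fintype.mem_piFinset.2 fun i => Fintype.mem_piFinset.2 fun j => ?_
      rw [Finset.mem_Icc]
      exact hδ1 i j
    · rw [hkm0]
      have hltR : ∀ x : ℤ, |(x : ℝ)| < p → |x| < (p : ℤ) := by
        intro x hx
        have h1 : ((|x| : ℤ) : ℝ) < ((p : ℤ) : ℝ) := by
          push_cast
          exact hx
        exact_mod_cast h1
      apply sd_nd hD hp hm hnf
      · apply hltR
        nlinarith
      · apply hltR
        nlinarith
      · apply hltR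
        push_cast
        have hB : 0 < C * P := by positivity
        calc |(ρ 0 : ℝ) * δ 0 1 + ρ 1 * δ 1 1| ≤ |(ρ 0 : ℝ) * δ 0 1| + |(ρ 1 : ℝ) * δ 1 1| :=
              abs_add_le _ _
          _ = |(ρ 0 : ℝ)| * |(δ 0 1 : ℝ)| + |(ρ 1 : ℝ)| * |(δ 1 1 : ℝ)| := by
              rw [abs_mul, abs_mul]
          _ ≤ (C * P) * 1 + (C * P) * 1 :=
              add_le_add (mul_le_mul he (hcast _ _) (abs_nonneg _) hB.le)
                (mul_le_mul hf (hcast _ _) (abs_nonneg _) hB.le)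
          _ < p := by linarith
      · exact hδ1 0 1
      · exact hδ1 1 1
      · rintro ⟨h1, h2⟩
        unfold D1 at hδ2
        rw [h1, h2] at hδ2
        simp at hδ2
      · exact hDp
    · intro α β hβ ha hb j
      have h3 := hδ3 j
      rw [hkm0, hkm1]
      push_cast
      have hnf' : (ρ 0 : ℝ) ^ 2 - D * (ρ 1 : ℝ) ^ 2 = (p : ℝ) * m := by
        have h4 : nf D ρ = ρ 0 ^ 2 - D * ρ 1 ^ 2 := rfl
        rw [h4] at hnf
        exact_mod_cast hnf
      have hm' : (1 : ℝ) ≤ m := by exact_mod_cast hm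
      refine sd_ineq (D := (D : ℝ)) (e := (ρ 0 : ℝ)) (f := (ρ 1 : ℝ)) (s := (δ 0 j : ℝ))
        (t := (δ 1 j : ℝ)) (pm := (p : ℝ) * m)
        (Z := ((2 * ρ 0 + D * ρ 1 : ℤ) : ℝ) * (δ 0 j : ℝ) + ((2 * ρ 1 + ρ 0 : ℤ) : ℝ) *
          (δ 1 j : ℝ)) (ζ := 1 / (4 * L * C ^ 2)) hC hP0 hL rfl he hf (hcast _ _) (hcast _ _)
        rfl rfl ?_ ?_ hnf' ?_ ?_ hβ ha hb
      · push_cast
        ring
      · rw [hPP]
        nlinarith
      · exact_mod_cast h3.1
      · exact_mod_cast h3.2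

end Pool.Agent.CQF
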