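import Pool.Agent.CQF.Lm
import Pool.Agent.CQF.Sec
import Pool.Agent.CQF.Dat

set_option autoImplicit false

/-!
# Module Se (size 3): the class matrix `H0`

* `exists_H0`: `ρ = (e, f)` primitive, `e ≡ 1`, `f ≡ 0` mod `K0`. Bezout: `e w + f z = 1`. `H0 = (e, -f; z, w)` has determinant
  `e w + f z = 1`. Mod `K0`: `w ≡ 1`. Replace the second row by `(z, w) - z' (e, -f)` with `z' = z`: the entry `z - z e ≡ 0` and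
  `w + z f ≡ w ≡ 1`.
* `mod0`: `(e, -f) km D ρ = (e² - D f², e f - f e) = (nf ρ, 0)`. If `ρ' ≡ ρ` mod `m` and `m ∣ nf ρ` then the first row of
  `H0 * (km D ρ' * δ)` is `≡` first row of `H0 * km D ρ * δ ≡ 0` mod `m`.
-/

open Matrix

namespace Pool.Agent.CQF

theorem exists_H0 (K0 : ℕ) (ρ : Fin 2 → ℤ) (hρ : Prm ρ) (h0 : (K0 : ℤ) ∣ ρ 0 - 1)
    (h1 : (K0 : ℤ) ∣ ρ 1) : ∃ H0 : M2, D1 H0 ∧ Cg K0 H0 1 ∧ H0 0 0 = ρ 0 ∧ H0 0 1 = - ρ 1 := by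
  obtain ⟨w, z, hwz⟩ : ∃ w z : ℤ, ρ 0 * w + ρ 1 * z = 1 := by
    refine ⟨Int.gcdA (ρ 0) (ρ 1), Int.gcdB (ρ 0) (ρ 1), ?_⟩
    rw [← Int.gcd_eq_gcd_ab]
    have : Int.gcd (ρ 0) (ρ 1) = 1 := hρ
    rw [this]
    rfl
  refine ⟨!![ρ 0, -ρ 1; z - z * ρ 0, w + z * ρ 1], ?_, ?_, rfl, rfl⟩
  · change ρ 0 * (w + z * ρ 1) - (-ρ 1) * (z - z * ρ 0) = 1
    linear_combination hwz
  · obtain ⟨a, ha⟩ := h0
    obtain ⟨b, hb⟩ := h1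
    intro i j
    fin_cases i <;> fin_cases j
    · change (K0 : ℤ) ∣ ρ 0 - 1
      exact ⟨a, ha⟩
    · change (K0 : ℤ) ∣ -ρ 1 - 0
      exact ⟨-b, by rw [hb]; ring⟩
    · change (K0 : ℤ) ∣ z - z * ρ 0 - 0
      exact ⟨-(z * a), by linear_combination (-z) * ha⟩
    · change (K0 : ℤ) ∣ w + z * ρ 1 - 1
      exact ⟨-(a * w), by linear_combination (-w) * ha + hwz⟩

theorem mod0_of (D : ℤ) (m : ℕ) (ρ ρ' : Fin 2 → ℤ) (H0 δ : M2) (h00 : H0 0 0 = ρ 0)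
    (h01 : H0 0 1 = - ρ 1) (hm : (m : ℤ) ∣ nf D ρ) (hc : ∀ j, (m : ℤ) ∣ ρ' j - ρ j) (j : Fin 2) :
    (m : ℤ) ∣ (H0 * (km D ρ' * δ)) 0 j := by
  obtain ⟨a, ha⟩ := hc 0
  obtain ⟨b, hb⟩ := hc 1
  obtain ⟨c, hc'⟩ := hm
  have e : (H0 * (km D ρ' * δ)) 0 j = (ρ 0 * ρ' 0 - D * ρ 1 * ρ' 1) * δ 0 j +
      (ρ 0 * ρ' 1 - ρ 1 * ρ' 0) * δ 1 j := by
    rw [Matrix.mul_apply, Fin.sum_univ_two, Matrix.mul_apply, Matrix.mul_apply, Fin.sum_univ_two,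
      Fin.sum_univ_two, h00, h01]
    simp only [km, Matrix.of_apply, Matrix.cons_val', Matrix.cons_val_zero, Matrix.cons_val_one,
      Matrix.cons_val_fin_one]
    ring
  rw [e]
  unfold nf at hc'
  refine ⟨(c + ρ 0 * a - D * ρ 1 * b) * δ 0 j + (ρ 0 * b - ρ 1 * a) * δ 1 j, ?_⟩
  linear_combination δ 0 j * hc' + (ρ 0 * δ 0 j - ρ 1 * δ 1 j) * ha + (ρ 0 * δ 1 j - D * ρ 1 * δ 0 j) * hb

end Pool.Agent.CQF
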