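import Pool.Agent.CQF.Alg

set_option autoImplicit false

/-!
# Module Sfa (size 3): supply of primes

From `MertAP` (with `q`, `a = 1`): `S(x) = ∑_{p ≤ x, p ≡ 1 (q)} log p/p = log x/φ + O(C)`. With `P0 = (log N)²`:
`S(P0²) - S(P0) ≥ log P0/φ - 2C`, and `log p ≤ 2 log P0` for `p ≤ P0²`, so
`∑_{P0 < p ≤ P0²} 1/p ≥ (log P0/φ - 2C)/(2 log P0) ≥ 1/(4φ)` for `N` large. Put `cW = 1/(4 φ(q))`.
-/

namespace Pool.Agent.CQF

theorem primes_sum (hM : MertAP) (q : ℕ) (hq : 1 ≤ q) : ∃ c : ℝ, 0 < c ∧ ∃ N0 : ℕ, ∀ N : ℕ, N0 ≤ N →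
    ∃ P : Finset ℕ, (∀ p ∈ P, p.Prime ∧ p ≡ 1 [MOD q] ∧ (Real.log N) ^ 2 < p ∧
      (p : ℝ) ≤ (Real.log N) ^ 4) ∧ c ≤ ∑ p ∈ P, (1 : ℝ) / p := by
  classical
  obtain ⟨C, hC0, hC⟩ := hM q hq
  have hS := hC 1 (Nat.coprime_one_left q)
  have hφ : 0 < q.totient := Nat.totient_pos.2 hq
  have hφ' : (0 : ℝ) < q.totient := by exact_mod_cast hφ
  set φ : ℝ := (q.totient : ℝ) with hφd
  refine ⟨1 / (4 * φ), by positivity, ?_⟩
  have hlim : Filter.Tendsto (fun N : ℕ => Real.log ((Real.log N) ^ 2)) Filter.atTop Filter.atTop :=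
    Real.tendsto_log_atTop.comp ((Filter.tendsto_pow_atTop two_ne_zero).comp
      (Real.tendsto_log_atTop.comp tendsto_natCast_atTop_atTop))
  obtain ⟨N0, hN0⟩ := Filter.eventually_atTop.1 (hlim.eventually_ge_atTop (max (4 * φ * C) 1))
  refine ⟨N0, fun N hN => ?_⟩
  have hb := hN0 N hN
  set P0 : ℝ := (Real.log N) ^ 2 with hP0
  have hb1 : 4 * φ * C ≤ Real.log P0 := (le_max_left _ _).trans hb
  have hb2 : 1 ≤ Real.log P0 := (le_max_right _ _).trans hb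
  have hP00 : 0 ≤ P0 := sq_nonneg _
  have hP01 : 1 < P0 := by
    by_contra hcon
    have := Real.log_nonpos hP00 (not_lt.1 hcon)
    linarith
  have hP2 : P0 ≤ P0 ^ 2 := by nlinarith
  set A := (Finset.Icc 1 ⌊P0⌋₊).filter (fun p : ℕ => p.Prime ∧ p ≡ 1 [MOD q]) with hA
  set B := (Finset.Icc 1 ⌊P0 ^ 2⌋₊).filter (fun p : ℕ => p.Prime ∧ p ≡ 1 [MOD q]) with hB
  have hAB : A ⊆ B := by
    intro p hp
    rw [hA, Finset.mem_filter, Finset.mem_Icc] at hp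
    rw [hB, Finset.mem_filter, Finset.mem_Icc]
    exact ⟨⟨hp.1.1, hp.1.2.trans (Nat.floor_mono hP2)⟩, hp.2⟩
  have h1 := hS P0 hP01.le
  have h2 := hS (P0 ^ 2) (hP01.le.trans hP2)
  rw [← hA] at h1
  rw [← hB, Real.log_pow] at h2
  have hmem : ∀ p ∈ B \ A, (p.Prime ∧ p ≡ 1 [MOD q]) ∧ P0 < p ∧ (p : ℝ) ≤ P0 ^ 2 := by
    intro p hp
    rw [Finset.mem_sdiff] at hp
    obtain ⟨hp1, hp2⟩ := hp
    rw [hB, Finset.mem_filter, Finset.mem_Icc] at hp1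
    refine ⟨hp1.2, ?_, ?_⟩
    · by_contra hcon
      apply hp2
      rw [hA, Finset.mem_filter, Finset.mem_Icc]
      exact ⟨⟨hp1.1.1, Nat.le_floor (not_lt.1 hcon)⟩, hp1.2⟩
    · exact (Nat.le_floor_iff (by positivity)).1 hp1.1.2
  have hsum : ∑ p ∈ B \ A, Real.log p / p = ∑ p ∈ B, Real.log p / p - ∑ p ∈ A, Real.log p / p := by
    rw [Finset.sum_sdiff_eq_sub hAB]
  have h3 : Real.log P0 / φ - 2 * C ≤ ∑ p ∈ B \ A, Real.log p / p := by
    rw [hsum]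
    have h4 := abs_le.1 h1
    have h5 := abs_le.1 h2
    have h6 : ((2 : ℕ) : ℝ) * Real.log P0 / φ = 2 * (Real.log P0 / φ) := by push_cast; ring
    rw [h6] at h5
    linarith [h4.2, h5.1]
  have h4 : ∑ p ∈ B \ A, Real.log p / p ≤ 2 * Real.log P0 * ∑ p ∈ B \ A, (1 : ℝ) / p := by
    rw [Finset.mul_sum]
    refine Finset.sum_le_sum fun p hp => ?_
    obtain ⟨_, hq1, hq2⟩ := hmem p hp
    have hp0 : (0 : ℝ) < p := by linarith
    have h5 : Real.log p ≤ 2 * Real.log P0 := by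
      have := Real.log_le_log hp0 hq2
      rw [Real.log_pow] at this
      exact_mod_cast this
    rw [mul_one_div]
    exact div_le_div_of_nonneg_right h5 hp0.le
  refine ⟨B \ A, fun p hp => ?_, ?_⟩
  · obtain ⟨h5, h6, h7⟩ := hmem p hp
    refine ⟨h5.1, h5.2, h6, ?_⟩
    calc (p : ℝ) ≤ P0 ^ 2 := h7
      _ = (Real.log N) ^ 4 := by rw [hP0]; ring
  · have h5 : Real.log P0 / φ - 2 * C ≤ 2 * Real.log P0 * ∑ p ∈ B \ A, (1 : ℝ) / p := h3.trans h4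
    have h6 : 2 * Real.log P0 * (1 / (4 * φ)) ≤ Real.log P0 / φ - 2 * C := by
      have h7 : 2 * C ≤ Real.log P0 / (2 * φ) := by
        rw [le_div_iff₀ (by positivity)]
        linarith
      have h8 : 2 * Real.log P0 * (1 / (4 * φ)) = Real.log P0 / φ - Real.log P0 / (2 * φ) := by
        field_simp
        ring
      rw [h8]
      linarith
    have h7 := h6.trans h5
    exact le_of_mul_le_mul_left h7 (by linarith)

/-- `D` is a square modulo primes `p ≡ 1` mod `4 |D|` (see `isSquare_disc` in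
`Pool/Agent/LogPar/PrimeEl.lean` on main: quadratic reciprocity) -/
theorem exists_theta (D : ℤ) (hD : D ≠ 0) (p : ℕ) (hp : p.Prime) (hc : p ≡ 1 [MOD 4 * D.natAbs])
    (hbig : D.natAbs < p) : ∃ θ : ℤ, (p : ℤ) ∣ θ ^ 2 - D := by
  have : Fact p.Prime := ⟨hp⟩
  have hD' : 0 < D.natAbs := Int.natAbs_pos.2 hD
  have hodd : Odd p := by
    rw [Nat.odd_iff]
    exact Nat.ModEq.of_dvd ⟨2 * D.natAbs, by ring⟩ hc
  have hne : ((D : ℤ) : ZMod p) ≠ 0 := by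
    rw [Ne, ZMod.intCast_zmod_eq_zero_iff_dvd]
    intro h
    have h' : p ∣ D.natAbs := Int.natCast_dvd.1 h
    have := Nat.le_of_dvd hD' h'
    omega
  have hsq : IsSquare ((D : ℤ) : ZMod p) := by
    rw [← legendreSym.eq_one_iff p hne, jacobiSym.legendreSym.to_jacobiSym,
      jacobiSym.mod_right _ hodd]
    have : p % (4 * D.natAbs) = 1 := by
      have h1 : p % (4 * D.natAbs) = 1 % (4 * D.natAbs) := hc
      rw [h1, Nat.mod_eq_of_lt (by omega)]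
    rw [this, jacobiSym.one_right]
  obtain ⟨r, hr⟩ := hsq
  obtain ⟨θ, hθ⟩ := ZMod.intCast_surjective r
  refine ⟨θ, ?_⟩
  rw [← ZMod.intCast_zmod_eq_zero_iff_dvd]
  push_cast
  rw [hr, ← hθ]
  ring

end Pool.Agent.CQF
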