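import Pool.Agent.CQF.Sc
import Pool.Agent.CQF.Sd
import Pool.Agent.CQF.Se
import Pool.Agent.CQF.Sfa

set_option autoImplicit false

/-!
# Module Sfb (size 4): the supply of sibling matrices

`mb, C` from `elem`; `ζ, c1, c2, Δ` from `cone_choice`; `K = K0 · mb!` (every `1 ≤ m ≤ mb` divides `K`); `a = 2`.
For `N` large let `P'` be the primes from `primes_sum` with `q = 4 |D|` (`D ≠ 0`), all `≥ p0`, `> |D|`, `> mb`, and for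
`p ∈ P'` let `m_p, ρ_p` be as in `elem` (`exists_theta`). The class of `p` is `(m_p, ρ_p mod K)`: at most `mb K²` classes; let
`P ⊆ P'` be a class with the largest `∑ 1/p`, so `≥ c/(mb K²) =: cW`. `m` the common value, `p1 ∈ P`, `H0` from
`exists_H0` for `ρ_{p1}`; `mod0_of` (congruence mod `K`, hence mod `m`; `m ∣ nf ρ_{p1} = p1 m`) gives `mod0`; `δ p` and the cone condition
from `cone_choice`; `det (km D ρ * δ) = nf ρ = p m`.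
-/

open Matrix

namespace Pool.Agent.CQF

theorem supply (hQ : AllQ) (hM : MertAP) (D : ℤ) (hD : ¬ IsSquare D) (K0 : ℕ) (hK0 : 1 ≤ K0) :
    ∃ (K : ℕ) (ζ c1 c2 cW : ℝ) (Δ : Finset M2), 1 ≤ K ∧ K0 ∣ K ∧ 0 < ζ ∧ ζ ≤ 1 ∧ 0 < c1 ∧
      c1 ≤ c2 ∧ 0 < cW ∧ (∀ δ ∈ Δ, D1 δ) ∧ ∃ N0 : ℕ, ∀ N : ℕ, N0 ≤ N →
        ∃ (m : ℕ) (H0 : M2) (P : Finset ℕ) (ρ : ℕ → Fin 2 → ℤ) (δ : ℕ → M2),
          1 ≤ m ∧ m ∣ K ∧ D1 H0 ∧ Cg K0 H0 1 ∧ lam (m : ℤ) = 1 ∧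
          (∀ p ∈ P, p.Prime ∧ (Real.log N) ^ 2 < p ∧ (p : ℝ) ≤ (Real.log N) ^ (2 * 2)) ∧
          cW ≤ ∑ p ∈ P, (1 : ℝ) / p ∧
          (∀ p ∈ P, δ p ∈ Δ ∧ nf D (ρ p) = (p : ℤ) * m ∧ (K0 : ℤ) ∣ ρ p 0 - 1 ∧ (K0 : ℤ) ∣ ρ p 1 ∧
            FamOk K m H0 ζ c1 c2 p (km D (ρ p) * δ p)) := by
  classical
  obtain ⟨mb, p0, C, hC, hel⟩ := elem hQ D hD K0 hK0
  obtain ⟨ζ, c1, c2, p1, Δ, hζ0, hζ1, hc1, hc12, hΔ, hcone⟩ := cone_choice D hD C hC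
  have hD0 : D ≠ 0 := by
    rintro rfl
    exact hD ⟨0, by simp⟩
  have hDn : 1 ≤ D.natAbs := Int.natAbs_pos.2 hD0
  obtain ⟨c, hc, N1, hP⟩ := primes_sum hM (4 * D.natAbs) (by omega)
  set K : ℕ := K0 * mb.factorial with hKdef
  have hK1 : 1 ≤ K := Nat.mul_pos hK0 (Nat.factorial_pos mb)
  have : NeZero K := ⟨by omega⟩
  set T : Finset (ℕ × (ZMod K × ZMod K)) := Finset.range (mb + 1) ×ˢ Finset.univ with hT
  have hTcard : (T.card : ℝ) = ((mb : ℝ) + 1) * ((K : ℝ) * K) := by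
    rw [hT, Finset.card_product, Finset.card_range, Finset.card_univ, Fintype.card_prod, ZMod.card]
    push_cast
    ring
  have hKR : (0 : ℝ) < K := by exact_mod_cast hK1
  have hTpos : (0 : ℝ) < ((mb : ℝ) + 1) * ((K : ℝ) * K) := by positivity
  refine ⟨K, ζ, c1, c2, c / (((mb : ℝ) + 1) * ((K : ℝ) * K)), Δ, hK1, Dvd.intro _ rfl, hζ0, hζ1,
    hc1, hc12, div_pos hc hTpos, hΔ, max N1 ⌈Real.exp ((p0 + p1 + D.natAbs + 1 : ℕ) : ℝ)⌉₊, ?_⟩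
  intro N hN
  have hN1 : N1 ≤ N := le_trans (le_max_left _ _) hN
  have hN2 : Real.exp ((p0 + p1 + D.natAbs + 1 : ℕ) : ℝ) ≤ N :=
    le_trans (Nat.le_ceil _) (by exact_mod_cast le_trans (le_max_right _ _) hN)
  have hlog : ((p0 + p1 + D.natAbs + 1 : ℕ) : ℝ) ≤ Real.log N := by
    rw [← Real.log_exp ((p0 + p1 + D.natAbs + 1 : ℕ) : ℝ)]
    exact Real.log_le_log (Real.exp_pos _) hN2
  have hB1 : (1 : ℝ) ≤ ((p0 + p1 + D.natAbs + 1 : ℕ) : ℝ) := by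
    exact_mod_cast Nat.le_add_left 1 _
  have hlog2 : ((p0 + p1 + D.natAbs + 1 : ℕ) : ℝ) ≤ (Real.log N) ^ 2 := by
    nlinarith
  obtain ⟨P', hP', hs⟩ := hP N hN1
  have hbig : ∀ p ∈ P', p0 + p1 + D.natAbs + 1 < p := by
    intro p hp
    have := (hP' p hp).2.2.1
    exact_mod_cast lt_of_le_of_lt hlog2 this
  have hex : ∀ p ∈ P', ∃ (m : ℕ) (ρ : Fin 2 → ℤ) (δ : M2), (1 ≤ m ∧ m ≤ mb ∧ lam (m : ℤ) = 1 ∧
      nf D ρ = (p : ℤ) * m ∧ (K0 : ℤ) ∣ ρ 0 - 1 ∧ (K0 : ℤ) ∣ ρ 1 ∧ Prm ρ) ∧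
      δ ∈ Δ ∧ ¬ (p : ℤ) ∣ (km D ρ * δ) 0 1 ∧
          ∀ α β : ℝ, 0 < β → (2 - ζ) * β ≤ α → α ≤ 2 * β → ∀ j,
            c1 * √p * β ≤ α * (km D ρ * δ) 0 j + β * (km D ρ * δ) 1 j ∧
            α * (km D ρ * δ) 0 j + β * (km D ρ * δ) 1 j ≤ c2 * √p * β := by
    intro p hp
    obtain ⟨hpp, hpq, -, -⟩ := hP' p hp
    have hb := hbig p hp
    obtain ⟨θ, hθ⟩ := exists_theta D hD0 p hpp hpq (by omega)
    obtain ⟨m, ρ, h1, h2, h3, h4, h5, h6, h7, h8⟩ := hel p hpp (by omega) ⟨θ, hθ⟩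
    obtain ⟨δ, hδ, hnd, hcn⟩ := hcone p hpp (by omega) m ρ h1 h4 h8
    exact ⟨m, ρ, δ, ⟨h1, h2, h3, h4, h5, h6, h7⟩, hδ, hnd, hcn⟩
  choose! mm ρ δ hbas hδ hnd hcn using hex
  have hmaps : ∀ p ∈ P', ((mm p, ((ρ p 0 : ZMod K), (ρ p 1 : ZMod K))) :
      ℕ × (ZMod K × ZMod K)) ∈ T := by
    intro p hp
    rw [hT, Finset.mem_product]
    exact ⟨Finset.mem_range.2 (Nat.lt_succ_of_le (hbas p hp).2.1), Finset.mem_univ _⟩
  have hTne : T.Nonempty := by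
    rw [hT]
    exact ⟨(0, (0, 0)), Finset.mem_product.2 ⟨Finset.mem_range.2 (Nat.succ_pos _),
      Finset.mem_univ _⟩⟩
  obtain ⟨t, -, ht⟩ := Finset.exists_le_sum_fiber_of_maps_to_of_nsmul_le_sum
    (s := P') (t := T) (f := fun p => (mm p, ((ρ p 0 : ZMod K), (ρ p 1 : ZMod K))))
    (w := fun p : ℕ => (1 : ℝ) / p) (b := c / (((mb : ℝ) + 1) * ((K : ℝ) * K))) hmaps hTne (by
      rw [nsmul_eq_mul, hTcard, mul_div_cancel₀ _ hTpos.ne']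
      exact hs)
  set P : Finset ℕ := P'.filter (fun p => (mm p, ((ρ p 0 : ZMod K), (ρ p 1 : ZMod K))) = t)
    with hPdef
  have hPne : P.Nonempty := by
    by_contra hne
    rw [Finset.not_nonempty_iff_eq_empty] at hne
    rw [hne, Finset.sum_empty] at ht
    exact absurd (div_pos hc hTpos) (not_lt.2 ht)
  obtain ⟨r, hr⟩ := hPne
  have hr' : r ∈ P' := (Finset.mem_filter.1 hr).1
  have hreq := (Finset.mem_filter.1 hr).2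
  obtain ⟨k1, k2, k3, k4, k5, k6, k7⟩ := hbas r hr'
  obtain ⟨H0, hH, hHc, h00, h01⟩ := exists_H0 K0 (ρ r) k7 k5 k6
  have hmK : mm r ∣ K := (Nat.dvd_factorial k1 k2).trans (Dvd.intro_left _ rfl)
  refine ⟨mm r, H0, P, ρ, δ, k1, hmK, hH, hHc, k3, ?_, ht, ?_⟩
  · intro p hp
    obtain ⟨a1, -, a3, a4⟩ := hP' p (Finset.mem_filter.1 hp).1
    exact ⟨a1, a3, by simpa using a4⟩
  · intro p hp
    have hp' : p ∈ P' := (Finset.mem_filter.1 hp).1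
    have hpeq := (Finset.mem_filter.1 hp).2
    have heq : ((mm p, ((ρ p 0 : ZMod K), (ρ p 1 : ZMod K))) : ℕ × (ZMod K × ZMod K)) =
      (mm r, ((ρ r 0 : ZMod K), (ρ r 1 : ZMod K))) := hpeq.trans hreq.symm
    have e1 : mm p = mm r := congrArg Prod.fst heq
    have e2 : (ρ p 0 : ZMod K) = (ρ r 0 : ZMod K) := congrArg (fun x => x.2.1) heq
    have e3 : (ρ p 1 : ZMod K) = (ρ r 1 : ZMod K) := congrArg (fun x => x.2.2) heq
    obtain ⟨l1, l2, l3, l4, l5, l6, l7⟩ := hbas p hp'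
    rw [e1] at l4
    refine ⟨hδ p hp', l4, l5, l6, ?_, hnd p hp', ?_, hcn p hp'⟩
    · have hd := hΔ (δ p) (hδ p hp')
      have h1 : (km D (ρ p) * δ p).det = (p : ℤ) * mm r := by
        rw [Matrix.det_mul, det_km, l4, Matrix.det_fin_two, hd, mul_one]
      rw [Matrix.det_fin_two] at h1
      exact h1
    · intro j
      refine mod0_of D (mm r) (ρ r) (ρ p) H0 (δ p) h00 h01 ?_ ?_ j
      · rw [k4]
        exact Dvd.intro_left _ rfl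
      · have hmKZ : ((mm r : ℕ) : ℤ) ∣ (K : ℤ) := by exact_mod_cast hmK
        have g1 : (K : ℤ) ∣ ρ p 0 - ρ r 0 := (ZMod.intCast_eq_intCast_iff_dvd_sub _ _ _).1 e2.symm
        have g2 : (K : ℤ) ∣ ρ p 1 - ρ r 1 := (ZMod.intCast_eq_intCast_iff_dvd_sub _ _ _).1 e3.symm
        intro i
        fin_cases i
        · exact hmKZ.trans g1
        · exact hmKZ.trans g2

end Pool.Agent.CQF
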