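import Pool.Agent.CQF.Far

set_option autoImplicit false

/-!
# Module Msr (size 4): lengths and measures of nodes

`J h` has length `a/c - b/d = 1/(cd)`; nodes of the same order `N` are pairwise disjoint (`fa_unique`; an
open interval which meets another one contains a common irrational point) and cover the irrational points of
`(0, K)` (`fa_nds`), so `∑ len = K`. Number of nodes of order `N` in `(0, K)`: `(c, d)` with
`1 ≤ c, d ≤ N` and, for given `(c, d)` (coprime), the solutions `(a, b)` of `ad - bc = 1` are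
`(a0 + tc, b0 + td)`; with `0 ≤ b < K d` at most `K` of them.  (Injection
`h ↦ (c, d, ⌊b / d⌋)` into `[1,N] × [1,N] × [0, K)`: from `c, d` and `⌊b/d⌋` recover `b mod d` since
`b c ≡ -1 mod d`.)
-/

open MeasureTheory

namespace Pool.Agent.CQF

theorem vol_J {h : M2} (hh : IsNd h) : volume (J h) = ENNReal.ofReal (len h) := by
  unfold J len
  rw [Real.volume_Ioo]
  congr 1
  have hc : (0 : ℝ) < h 1 0 := by exact_mod_cast hh.c0
  have hd : (0 : ℝ) < h 1 1 := by exact_mod_cast hh.d0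
  have e : (h 0 0 : ℝ) * h 1 1 - h 0 1 * h 1 0 = 1 := by exact_mod_cast hh.det
  rw [div_sub_div _ _ hc.ne' hd.ne']
  congr 1
  linarith

theorem len_pos {h : M2} (hh : IsNd h) : 0 < len h := by
  unfold len
  have hc : (0 : ℝ) < h 1 0 := by exact_mod_cast hh.c0
  have hd : (0 : ℝ) < h 1 1 := by exact_mod_cast hh.d0
  positivity

private theorem Msr_meas (h : M2) : MeasurableSet (J h) := measurableSet_Ioo

private theorem Msr_le {K : ℕ} {h : M2} (hh : IsNd h) : (mu K).real (J h) ≤ len h := by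
  unfold mu Measure.real
  refine ENNReal.toReal_le_of_le_ofReal (len_pos hh).le ?_
  rw [← vol_J hh]
  exact Measure.restrict_apply_le _ _

private theorem Msr_eq {K : ℕ} {h : M2} (hh : IsNd h) (ha : h 0 0 ≤ K * h 1 0) :
    (mu K).real (J h) = len h := by
  unfold mu Measure.real
  rw [Measure.restrict_apply (Msr_meas h), Set.inter_eq_left.2 (J_subset hh ha), vol_J hh,
    ENNReal.toReal_ofReal (len_pos hh).le]

theorem mu_J {K N1 N2 : ℕ} (hK : 1 ≤ K) {h : M2} (hh : h ∈ ndw K N1 N2) :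
    (mu K).real (J h) = len h := by
  rw [mem_ndw hK] at hh
  exact Msr_eq hh.1 hh.2.2

theorem card_nds (K N : ℕ) (hK : 1 ≤ K) : (nds K N).card ≤ K * N ^ 2 := by
  classical
  have h1 : (nds K N).card ≤ (Finset.Icc (1 : ℤ) N ×ˢ Finset.Icc (1 : ℤ) N ×ˢ
      Finset.Ico (0 : ℤ) K).card := by
    refine Finset.card_le_card_of_injOn (fun h => (h 1 0, h 1 1, h 0 1 / h 1 1)) ?_ ?_
    · intro h hh
      have hh' : h ∈ nds K N := hh
      unfold nds at hh'
      rw [mem_ndw hK] at hh'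
      obtain ⟨⟨hdet, hb, hc, hd⟩, ⟨w1, w2, w3⟩, ha⟩ := hh'
      have e4 : h 0 1 < K * h 1 1 := by
        have e5 : h 0 1 * h 1 0 < (K * h 1 1) * h 1 0 := by
          have := mul_le_mul_of_nonneg_right ha hd.le
          nlinarith
        exact lt_of_mul_lt_mul_right e5 hc.le
      simp only [Finset.coe_product, Set.mem_prod, Finset.mem_coe, Finset.mem_Icc,
        Finset.mem_Ico]
      refine ⟨⟨by omega, w1⟩, ⟨by omega, w2⟩, Int.ediv_nonneg hb hd.le, ?_⟩
      exact Int.ediv_lt_of_lt_mul hd e4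
    · intro h hh h' hh' he
      have hh1 : h ∈ nds K N := hh
      have hh1' : h' ∈ nds K N := hh'
      unfold nds at hh1 hh1'
      rw [mem_ndw hK] at hh1 hh1'
      obtain ⟨⟨hdet, hb, hc, hd⟩, -⟩ := hh1
      obtain ⟨⟨hdet', hb', hc', hd'⟩, -⟩ := hh1'
      simp only [Prod.mk.injEq] at he
      obtain ⟨e1, e2, e3⟩ := he
      have hcop : IsCoprime (h 1 1) (h 1 0) := ⟨h 0 0, -h 0 1, by linear_combination hdet⟩
      have hdvd : h 1 1 ∣ h 0 1 - h' 0 1 := by
        refine hcop.dvd_of_dvd_mul_right ⟨h 0 0 - h' 0 0, ?_⟩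
        rw [← e1, ← e2] at hdet'
        linear_combination hdet' - hdet
      have hmod : h 0 1 % h 1 1 = h' 0 1 % h 1 1 :=
        ((Int.modEq_iff_dvd).2 hdvd).symm
      rw [← e2] at e3
      rw [Int.emod_def, Int.emod_def, e3] at hmod
      have eb : h 0 1 = h' 0 1 := by linarith
      have ea : h 0 0 = h' 0 0 := by
        rw [← e1, ← e2, ← eb] at hdet'
        have : h 0 0 * h 1 1 = h' 0 0 * h 1 1 := by linarith
        exact mul_right_cancel₀ hd.ne' this
      ext i j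
      fin_cases i <;> fin_cases j
      · exact ea
      · exact eb
      · exact e1
      · exact e2
  rw [Finset.card_product, Finset.card_product, Int.card_Icc, Int.card_Ico] at h1
  have e1 : ((N : ℤ) + 1 - 1).toNat = N := by omega
  have e2 : ((K : ℤ) - 0).toNat = K := by omega
  rw [e1, e2] at h1
  calc _ ≤ N * (N * K) := h1
    _ = K * N ^ 2 := by ring

theorem nds_disj {K N : ℕ} (hK : 1 ≤ K) {h h' : M2} (hh : h ∈ nds K N) (hh' : h' ∈ nds K N)
    (hne : h ≠ h') : Disjoint (J h) (J h') := by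
  unfold nds at hh hh'
  rw [mem_ndw hK] at hh hh'
  rw [Set.disjoint_left]
  intro s hs hs'
  exact hne (fa_unique hh.1 hh'.1 hh.2.1 hh'.2.1 hs hs')

private theorem Msr_rat (K : ℕ) : (mu K).real {s : ℝ | ¬ Irrational s} = 0 := by
  have h1 : {s : ℝ | ¬ Irrational s} = Set.range ((↑) : ℚ → ℝ) := by
    ext s
    simp only [Set.mem_setOf_eq, Irrational, not_not]
  unfold mu Measure.real
  rw [h1, (Set.countable_range _).measure_zero, ENNReal.toReal_zero]

/-- disjoint intervals whose irrational points lie in `X` -/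
theorem sum_len_le {ι : Type*} {K : ℕ} (T : Finset ι) (f : ι → M2)
    (hf : ∀ i ∈ T, IsNd (f i) ∧ f i 0 0 ≤ K * f i 1 0)
    (hd : ∀ i ∈ T, ∀ j ∈ T, i ≠ j → Disjoint (J (f i)) (J (f j)))
    (X : Set ℝ) (hX : ∀ i ∈ T, ∀ s ∈ J (f i), Irrational s → s ∈ X) :
    ∑ i ∈ T, len (f i) ≤ (mu K).real X := by
  have h1 : ∑ i ∈ T, len (f i) = (mu K).real (⋃ i ∈ T, J (f i)) := by
    rw [measureReal_biUnion_finset (fun i hi j hj hij => hd i hi j hj hij)
      (fun i _ => Msr_meas (f i))]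
    exact Finset.sum_congr rfl fun i hi => (Msr_eq (hf i hi).1 (hf i hi).2).symm
  rw [h1]
  calc (mu K).real (⋃ i ∈ T, J (f i)) ≤ (mu K).real (X ∪ {s : ℝ | ¬ Irrational s}) := by
        refine measureReal_mono ?_
        intro s hs
        rw [Set.mem_iUnion₂] at hs
        obtain ⟨i, hi, hs⟩ := hs
        by_cases h : Irrational s
        · exact Or.inl (hX i hi s hs h)
        · exact Or.inr h
    _ ≤ (mu K).real X + (mu K).real {s : ℝ | ¬ Irrational s} := measureReal_union_le _ _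
    _ = (mu K).real X := by rw [Msr_rat, add_zero]

/-- a set of irrational points covered by intervals of nodes -/
theorem le_sum_len {K : ℕ} (T : Finset M2) (hf : ∀ h ∈ T, IsNd h) (X : Set ℝ)
    (hX : ∀ s ∈ X, 0 < s → s < K → ∃ h ∈ T, s ∈ J h) :
    (mu K).real X ≤ ∑ h ∈ T, len h := by
  have h0 : (mu K).real (Set.Ioo (0 : ℝ) K)ᶜ = 0 := by
    unfold mu Measure.real
    rw [Measure.restrict_apply measurableSet_Ioo.compl, Set.compl_inter_self, measure_empty,
      ENNReal.toReal_zero]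
  calc (mu K).real X ≤ (mu K).real ((⋃ h ∈ T, J h) ∪ (Set.Ioo (0 : ℝ) K)ᶜ) := by
        refine measureReal_mono ?_
        intro s hs
        by_cases h : s ∈ Set.Ioo (0 : ℝ) K
        · left
          obtain ⟨g, hg, hs'⟩ := hX s hs h.1 h.2
          exact Set.mem_iUnion₂.2 ⟨g, hg, hs'⟩
        · exact Or.inr h
    _ ≤ (mu K).real (⋃ h ∈ T, J h) + (mu K).real (Set.Ioo (0 : ℝ) K)ᶜ :=
        measureReal_union_le _ _
    _ = (mu K).real (⋃ h ∈ T, J h) := by rw [h0, add_zero]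
    _ ≤ ∑ h ∈ T, (mu K).real (J h) := measureReal_biUnion_finset_le T _
    _ ≤ ∑ h ∈ T, len h := Finset.sum_le_sum fun h hh => Msr_le (hf h hh)

private theorem Msr_univ (K : ℕ) : (mu K).real Set.univ = K := by
  unfold mu Measure.real
  rw [Measure.restrict_apply_univ, Real.volume_Ioo, sub_zero, ENNReal.toReal_ofReal (by positivity)]

theorem sum_len (K N : ℕ) (hK : 1 ≤ K) (hN : 1 ≤ N) : ∑ h ∈ nds K N, len h = K := by
  have hnd : ∀ h ∈ nds K N, IsNd h ∧ h 0 0 ≤ K * h 1 0 := by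
    intro h hh
    unfold nds at hh
    rw [mem_ndw hK] at hh
    exact ⟨hh.1, hh.2.2⟩
  apply le_antisymm
  · rw [← Msr_univ K]
    exact sum_len_le (nds K N) id hnd (fun i hi j hj hij => nds_disj hK hi hj hij) Set.univ
      (fun _ _ _ _ _ => Set.mem_univ _)
  · calc (K : ℝ) = (mu K).real Set.univ := (Msr_univ K).symm
      _ ≤ (mu K).real ({s : ℝ | Irrational s} ∪ {s : ℝ | ¬ Irrational s}) := by
          refine measureReal_mono ?_
          intro s _
          exact em _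
      _ ≤ (mu K).real {s : ℝ | Irrational s} + (mu K).real {s : ℝ | ¬ Irrational s} :=
          measureReal_union_le _ _
      _ = (mu K).real {s : ℝ | Irrational s} := by rw [Msr_rat, add_zero]
      _ ≤ ∑ h ∈ nds K N, len h := le_sum_len (nds K N) (fun h hh => (hnd h hh).1) _
          (fun s hs h0 h1 => fa_nds hK hN h0 h1 hs)

private theorem Msr_irr : MeasurableSet {s : ℝ | Irrational s} := by
  have h1 : {s : ℝ | Irrational s} = (Set.range ((↑) : ℚ → ℝ))ᶜ := by
    ext s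
    rfl
  rw [h1]
  exact (Set.countable_range _).measurableSet.compl

theorem meas_Ust (Φ : M2 → ℝ) (K N1 N2 : ℕ) : MeasurableSet (Ust Φ K N1 N2) := by
  classical
  have h1 : Ust Φ K N1 N2 = (Set.Ioo (0 : ℝ) K ∩ {s : ℝ | Irrational s}) ∩
      ⋃ h ∈ ndw K N1 N2, ⋃ h' ∈ (ndw K N1 N2).filter (fun h' => Φ h ≠ Φ h'), J h ∩ J h' := by
    ext s
    simp only [Ust, Set.mem_setOf_eq, Set.mem_inter_iff, Set.mem_Ioo, Set.mem_iUnion,
      Finset.mem_filter, exists_prop]
    constructor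
    · rintro ⟨h1, h2, h3, h, hh, h', hh', h4, h5, h6⟩
      exact ⟨⟨⟨h1, h2⟩, h3⟩, h, hh, h', ⟨hh', h6⟩, h4, h5⟩
    · rintro ⟨⟨⟨h1, h2⟩, h3⟩, h, hh, h', ⟨hh', h6⟩, h4, h5⟩
      exact ⟨h1, h2, h3, h, hh, h', hh', h4, h5, h6⟩
  rw [h1]
  refine (measurableSet_Ioo.inter Msr_irr).inter ?_
  refine Finset.measurableSet_biUnion _ fun h _ => Finset.measurableSet_biUnion _ fun h' _ => ?_
  exact (Msr_meas h).inter (Msr_meas h')

theorem meas_Eun (K N1 N2 : ℕ) (A : ℝ) : MeasurableSet (Eun K N1 N2 A) := by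
  classical
  have h1 : Eun K N1 N2 A = (Set.Ioo (0 : ℝ) K ∩ {s : ℝ | Irrational s}) ∩
      ⋃ h ∈ (ndw K N1 N2).filter (fun h => ¬ Bal A h), J h := by
    ext s
    simp only [Eun, Set.mem_setOf_eq, Set.mem_inter_iff, Set.mem_Ioo, Set.mem_iUnion,
      Finset.mem_filter, exists_prop]
    constructor
    · rintro ⟨h1, h2, h3, h, hh, h4, h5⟩
      exact ⟨⟨⟨h1, h2⟩, h3⟩, h, ⟨hh, h5⟩, h4⟩
    · rintro ⟨⟨⟨h1, h2⟩, h3⟩, h, ⟨hh, h5⟩, h4⟩
      exact ⟨h1, h2, h3, h, hh, h4, h5⟩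
  rw [h1]
  refine (measurableSet_Ioo.inter Msr_irr).inter ?_
  exact Finset.measurableSet_biUnion _ fun h _ => Msr_meas h

/-- the set of points in unbalanced nodes of order `N`, as a sum -/
theorem sum_unbal (K N : ℕ) (hK : 1 ≤ K) (hN : 1 ≤ N) (A : ℝ) (T : Finset M2)
    (hT : ∀ h ∈ T, h ∈ nds K N ∧ ¬ Bal A h) :
    ∑ h ∈ T, len h ≤ (mu K).real (Eun K N N A) := by
  have hnd : ∀ h ∈ T, IsNd h ∧ h 0 0 ≤ K * h 1 0 := by
    intro h hh
    have h1 := (hT h hh).1
    unfold nds at h1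
    rw [mem_ndw hK] at h1
    exact ⟨h1.1, h1.2.2⟩
  refine sum_len_le T id hnd (fun i hi j hj hij => nds_disj hK (hT i hi).1 (hT j hj).1 hij) _ ?_
  intro h hh s hs hi
  have h2 := J_subset (hnd h hh).1 (hnd h hh).2 hs
  exact ⟨h2.1, h2.2, hi, h, (hT h hh).1, hs, (hT h hh).2⟩

end Pool.Agent.CQF
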