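import Pool.Agent.CQF.Fob
import Pool.Agent.CQF.Msr
import Pool.Agent.CQF.Dat

set_option autoImplicit false

/-!
# Module Foc (size 4): the function of the nodes of order `N`

`g s = ∑_{h ∈ nds K N} Φ h 1_{J h}(s)` on `(0, K)`, `G s = g (K fract s)` is `1`-periodic, measurable, `|G| ≤ 1`
(disjoint intervals) and a sum of at most `K N²` indicator functions of intervals of `[0, 1)` with coefficients `±1`, so
`‖fc G k‖ ≤ K N² · 2/(2π|k|) ≤ K N²/|k|`.
`∫_0^K g(s) g(sg K q s) ds = K ∫_0^1 G(s) G(q s) ds` (substitution `s = K t`; `sg K q (K t) = K fract (q t)`).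
If the relation fails only on `Xs`: for irrational `s ∈ (0,K) \ Xs`, `g (sg s) = - g s`, `g s = ±1` (`fa_nds`,
`nds_disj`), so `∫ g(s) g(sg s) ds ≤ - K + 2 mu K (Xs)`.  Therefore, with `fc_avg` (`R = K N²`):
-/

open MeasureTheory

namespace Pool.Agent.CQF

/-- the function of the nodes of order `N` -/
noncomputable def focg (K N : ℕ) (Φ : M2 → ℝ) (s : ℝ) : ℝ :=
  ∑ h ∈ nds K N, Φ h * (J h).indicator (fun _ => (1 : ℝ)) s

private theorem measJ (h : M2) : MeasurableSet (J h) := measurableSet_Ioo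

private theorem focg_meas (K N : ℕ) (Φ : M2 → ℝ) : Measurable (focg K N Φ) := by
  unfold focg
  apply Finset.measurable_fun_sum
  intro h _
  exact (measurable_const.indicator (measJ h)).const_mul _

private theorem focg_eq {K N : ℕ} (hK : 1 ≤ K) (Φ : M2 → ℝ) {h : M2} (hh : h ∈ nds K N) {s : ℝ}
    (hs : s ∈ J h) : focg K N Φ s = Φ h := by
  unfold focg
  rw [Finset.sum_eq_single_of_mem h hh]
  · rw [Set.indicator_of_mem hs, mul_one]
  · intro h' hh' hne
    have hd := nds_disj hK hh' hh hne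
    have : s ∉ J h' := fun h1 => Set.disjoint_left.1 hd h1 hs
    rw [Set.indicator_of_notMem this, mul_zero]

private theorem nd_of_mem {K N : ℕ} (hK : 1 ≤ K) {h : M2} (hh : h ∈ nds K N) : IsNd h :=
  ((mem_ndw hK).1 hh).1

private theorem focg_abs {K N : ℕ} (hK : 1 ≤ K) (Φ : M2 → ℝ)
    (hΦ : ∀ h, IsNd h → Φ h = 1 ∨ Φ h = -1) (s : ℝ) : |focg K N Φ s| ≤ 1 := by
  by_cases hex : ∃ h ∈ nds K N, s ∈ J h
  · obtain ⟨h, hh, hs⟩ := hex
    rw [focg_eq hK Φ hh hs]
    rcases hΦ h (nd_of_mem hK hh) with h1 | h1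
    · rw [h1]; simp
    · rw [h1]; simp
  · push Not at hex
    have : focg K N Φ s = 0 := by
      unfold focg
      apply Finset.sum_eq_zero
      intro h hh
      rw [Set.indicator_of_notMem (hex h hh), mul_zero]
    rw [this]; simp

/-- the periodic function -/
noncomputable def focG (K N : ℕ) (Φ : M2 → ℝ) (s : ℝ) : ℝ := focg K N Φ (K * Int.fract s)

private theorem focG_meas (K N : ℕ) (Φ : M2 → ℝ) : Measurable (focG K N Φ) :=
  (focg_meas K N Φ).comp (measurable_fract.const_mul _)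

private theorem norm_exp_int (k : ℤ) (hk : k ≠ 0) (a b : ℝ) :
    ‖∫ s in a..b, Complex.exp (-(2 * Real.pi * Complex.I * k * s))‖ ≤ 1 / |(k : ℝ)| := by
  have hc : (-(2 * Real.pi * Complex.I * k) : ℂ) ≠ 0 := by
    rw [neg_ne_zero]
    have : (k : ℂ) ≠ 0 := by exact_mod_cast hk
    have hpi : (Real.pi : ℂ) ≠ 0 := by exact_mod_cast Real.pi_ne_zero
    exact mul_ne_zero (mul_ne_zero (mul_ne_zero two_ne_zero hpi) Complex.I_ne_zero) this
  have h1 : ∫ s in a..b, Complex.exp (-(2 * Real.pi * Complex.I * k * s)) =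
      ∫ s in a..b, Complex.exp (-(2 * Real.pi * Complex.I * k) * s) := by
    congr 1
    ext s
    congr 1
    ring
  rw [h1, integral_exp_mul_complex hc, norm_div]
  have hn : ∀ x : ℝ, ‖Complex.exp (-(2 * Real.pi * Complex.I * k) * x)‖ = 1 := by
    intro x
    rw [Complex.norm_exp]
    have : (-(2 * Real.pi * Complex.I * k) * x : ℂ).re = 0 := by
      simp [Complex.mul_re, Complex.mul_im]
    rw [this, Real.exp_zero]
  have h2 : ‖(-(2 * Real.pi * Complex.I * k) : ℂ)‖ = 2 * Real.pi * |(k : ℝ)| := by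
    rw [norm_neg, norm_mul, norm_mul, norm_mul, Complex.norm_I]
    have e1 : ‖(k : ℂ)‖ = |(k : ℝ)| := by
      rw [← Complex.ofReal_intCast, Complex.norm_real, Real.norm_eq_abs]
    have e2 : ‖(Real.pi : ℂ)‖ = Real.pi := by
      rw [Complex.norm_real, Real.norm_eq_abs, abs_of_pos Real.pi_pos]
    rw [e1, e2]
    simp
  rw [h2]
  have hk' : (0 : ℝ) < |(k : ℝ)| := abs_pos.2 (by exact_mod_cast hk)
  have h3 : ‖Complex.exp (-(2 * Real.pi * Complex.I * k) * b) -
      Complex.exp (-(2 * Real.pi * Complex.I * k) * a)‖ ≤ 2 := by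
    calc _ ≤ ‖Complex.exp (-(2 * Real.pi * Complex.I * k) * b)‖ +
          ‖Complex.exp (-(2 * Real.pi * Complex.I * k) * a)‖ := norm_sub_le _ _
      _ = 2 := by rw [hn, hn]; norm_num
  have hpi := Real.pi_gt_three
  rw [div_le_div_iff₀ (by positivity) hk', one_mul]
  calc _ ≤ 2 * |(k : ℝ)| := mul_le_mul_of_nonneg_right h3 hk'.le
    _ ≤ 2 * Real.pi * |(k : ℝ)| := by
      apply mul_le_mul_of_nonneg_right _ hk'.le
      linarith

private theorem fc_ind {K N : ℕ} (hK : 1 ≤ K) {h : M2} (hh : h ∈ nds K N) (k : ℤ) (hk : k ≠ 0) :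
    ‖∫ s in (0 : ℝ)..1, (((J h).indicator (fun _ => (1 : ℝ)) (K * Int.fract s) : ℝ) : ℂ) *
      Complex.exp (-(2 * Real.pi * Complex.I * k * s))‖ ≤ 1 / |(k : ℝ)| := by
  have hm := (mem_ndw hK).1 hh
  have hsub := J_subset hm.1 hm.2.2
  have hK0 : (0 : ℝ) < K := by exact_mod_cast hK
  set α : ℝ := ((h 0 1 : ℝ) / h 1 1) / K with hα
  set β : ℝ := ((h 0 0 : ℝ) / h 1 0) / K with hβ
  have hc0 : (0 : ℝ) < h 1 0 := by exact_mod_cast hm.1.c0
  have hd0 : (0 : ℝ) < h 1 1 := by exact_mod_cast hm.1.d0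
  have hb0 : (0 : ℝ) ≤ h 0 1 := by exact_mod_cast hm.1.b0
  have hα0 : 0 ≤ α := by positivity
  have hβ1 : β ≤ 1 := by
    rw [hβ, div_le_one hK0, div_le_iff₀ hc0]
    exact_mod_cast hm.2.2
  have hαβ : α ≤ β := by
    rw [hα, hβ]
    apply div_le_div_of_nonneg_right _ hK0.le
    rw [div_le_div_iff₀ hd0 hc0]
    have := hm.1.det
    have h2 : (h 0 0 : ℝ) * h 1 1 - h 0 1 * h 1 0 = 1 := by exact_mod_cast this
    linarith
  have e1 : ∫ s in (0 : ℝ)..1, (((J h).indicator (fun _ => (1 : ℝ)) (K * Int.fract s) : ℝ) : ℂ) *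
      Complex.exp (-(2 * Real.pi * Complex.I * k * s)) =
      ∫ s in α..β, Complex.exp (-(2 * Real.pi * Complex.I * k * s)) := by
    rw [intervalIntegral.integral_of_le zero_le_one, intervalIntegral.integral_of_le hαβ,
      ← integral_Ico_eq_integral_Ioc, integral_Ioc_eq_integral_Ioo]
    have e2 : ∫ s in Set.Ico (0 : ℝ) 1,
        (((J h).indicator (fun _ => (1 : ℝ)) (K * Int.fract s) : ℝ) : ℂ) *
        Complex.exp (-(2 * Real.pi * Complex.I * k * s)) =
        ∫ s in Set.Ico (0 : ℝ) 1, (Set.Ioo α β).indicator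
          (fun s : ℝ => Complex.exp (-(2 * Real.pi * Complex.I * k * s))) s := by
      apply setIntegral_congr_fun measurableSet_Ico
      intro s hs
      have hfr : Int.fract s = s := Int.fract_eq_self.2 hs
      simp only [hfr]
      by_cases hmem : s ∈ Set.Ioo α β
      · have : (K : ℝ) * s ∈ J h := by
          constructor
          · have := hmem.1
            rw [hα, div_lt_iff₀ hK0] at this
            linarith
          · have := hmem.2
            rw [hβ, lt_div_iff₀ hK0] at this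
            linarith
        rw [Set.indicator_of_mem this, Set.indicator_of_mem hmem]
        simp
      · have : (K : ℝ) * s ∉ J h := by
          intro h1
          apply hmem
          constructor
          · rw [hα, div_lt_iff₀ hK0]
            have := h1.1
            linarith
          · rw [hβ, lt_div_iff₀ hK0]
            have := h1.2
            linarith
        rw [Set.indicator_of_notMem this, Set.indicator_of_notMem hmem]
        simp
    rw [e2, setIntegral_indicator measurableSet_Ioo]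
    congr 2
    apply Set.inter_eq_right.2
    intro s hs
    exact ⟨hα0.trans hs.1.le, lt_of_lt_of_le hs.2 hβ1⟩
  rw [e1]
  exact norm_exp_int k hk α β

private theorem fc_focG {K N : ℕ} (hK : 1 ≤ K) (Φ : M2 → ℝ)
    (hΦ : ∀ h, IsNd h → Φ h = 1 ∨ Φ h = -1) (k : ℤ) (hk : k ≠ 0) :
    ‖fc (focG K N Φ) k‖ ≤ ((K : ℝ) * (N : ℝ) ^ 2) / |(k : ℝ)| := by
  have hk' : (0 : ℝ) < |(k : ℝ)| := abs_pos.2 (by exact_mod_cast hk)
  have e1 : fc (focG K N Φ) k = ∑ h ∈ nds K N, (Φ h : ℂ) *
      ∫ s in (0 : ℝ)..1, (((J h).indicator (fun _ => (1 : ℝ)) (K * Int.fract s) : ℝ) : ℂ) *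
        Complex.exp (-(2 * Real.pi * Complex.I * k * s)) := by
    unfold fc
    have hint : ∀ h ∈ nds K N, IntervalIntegrable (fun s : ℝ => (Φ h : ℂ) *
        ((((J h).indicator (fun _ => (1 : ℝ)) (K * Int.fract s) : ℝ) : ℂ) *
        Complex.exp (-(2 * Real.pi * Complex.I * k * s)))) volume 0 1 := by
      intro h _
      apply IntervalIntegrable.const_mul
      rw [intervalIntegrable_iff_integrableOn_Ioc_of_le zero_le_one]
      have hmeas : Measurable (fun s : ℝ =>
          (((J h).indicator (fun _ => (1 : ℝ)) (K * Int.fract s) : ℝ) : ℂ) *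
          Complex.exp (-(2 * Real.pi * Complex.I * k * s))) := by
        apply Measurable.mul
        · apply Complex.measurable_ofReal.comp
          exact (measurable_const.indicator (measJ h)).comp (measurable_fract.const_mul _)
        · apply Continuous.measurable
          fun_prop
      refine Measure.integrableOn_of_bounded (M := 1) (by simp) hmeas.aestronglyMeasurable ?_
      refine Filter.Eventually.of_forall fun s => ?_
      rw [norm_mul, Complex.norm_real, Complex.norm_exp]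
      have h0 : (-(2 * Real.pi * Complex.I * k * s) : ℂ).re = 0 := by
        simp [Complex.mul_re, Complex.mul_im]
      rw [h0, Real.exp_zero, mul_one]
      unfold Set.indicator
      split_ifs <;> simp
    rw [← Finset.sum_congr rfl fun h _ => intervalIntegral.integral_const_mul _ _,
      ← intervalIntegral.integral_finsetSum hint]
    congr 1
    ext s
    unfold focG focg
    push_cast
    rw [Finset.sum_mul]
    apply Finset.sum_congr rfl
    intro h _
    ring
  rw [e1]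
  calc _ ≤ ∑ h ∈ nds K N, ‖(Φ h : ℂ) *
        ∫ s in (0 : ℝ)..1, (((J h).indicator (fun _ => (1 : ℝ)) (K * Int.fract s) : ℝ) : ℂ) *
        Complex.exp (-(2 * Real.pi * Complex.I * k * s))‖ := norm_sum_le _ _
    _ ≤ ∑ h ∈ nds K N, 1 / |(k : ℝ)| := by
      apply Finset.sum_le_sum
      intro h hh
      rw [norm_mul]
      have h1 : ‖(Φ h : ℂ)‖ = 1 := by
        rw [Complex.norm_real, Real.norm_eq_abs]
        rcases hΦ h (nd_of_mem hK hh) with h2 | h2
        · rw [h2]; simp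
        · rw [h2]; simp
      rw [h1, one_mul]
      exact fc_ind hK hh k hk
    _ = (nds K N).card * (1 / |(k : ℝ)|) := by rw [Finset.sum_const, nsmul_eq_mul]
    _ ≤ ((K : ℝ) * (N : ℝ) ^ 2) * (1 / |(k : ℝ)|) := by
      apply mul_le_mul_of_nonneg_right _ (by positivity)
      exact_mod_cast card_nds K N hK
    _ = _ := by rw [mul_one_div]

private theorem sg_meas (K q : ℕ) : Measurable (sg K q) := by
  unfold sg
  apply Measurable.const_mul
  apply measurable_fract.comp
  fun_prop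

private theorem meas_Xs (Φ : M2 → ℝ) (K N q : ℕ) : MeasurableSet (Xs Φ K N q) := by
  have e : Xs Φ K N q = (Set.Ioo (0 : ℝ) K ∩ {s | Irrational s}) ∩
      ⋃ h ∈ nds K N, ⋃ h' ∈ nds K N, (J h ∩ sg K q ⁻¹' J h') ∩ {_s : ℝ | Φ h' ≠ -Φ h} := by
    ext s
    simp only [Xs, Set.mem_ofPred_eq, Set.mem_inter_iff, Set.mem_Ioo, Set.mem_iUnion,
      Set.mem_preimage, exists_prop]
    constructor
    · rintro ⟨h1, h2, h3, h, hh, h', hh', h4, h5, h6⟩
      exact ⟨⟨⟨h1, h2⟩, h3⟩, h, hh, h', hh', ⟨h4, h5⟩, h6⟩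
    · rintro ⟨⟨⟨h1, h2⟩, h3⟩, h, hh, h', hh', ⟨h4, h5⟩, h6⟩
      exact ⟨h1, h2, h3, h, hh, h', hh', h4, h5, h6⟩
  rw [e]
  apply MeasurableSet.inter
  · exact measurableSet_Ioo.inter IsGδ.setOfPred_irrational.measurableSet
  · apply Finset.measurableSet_biUnion
    intro h _
    apply Finset.measurableSet_biUnion
    intro h' _
    apply MeasurableSet.inter
    · exact (measJ h).inter (sg_meas K q (measJ h'))
    · exact MeasurableSet.const _

private theorem ae_irr : ∀ᵐ s : ℝ, Irrational s := by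
  have h1 : (Set.range ((↑) : ℚ → ℝ)).Countable := Set.countable_range _
  have h2 := h1.ae_notMem volume
  filter_upwards [h2] with s hs
  exact hs

private theorem sg_irr {K q : ℕ} (hK : 1 ≤ K) (hq : 1 ≤ q) {s : ℝ} (hs : Irrational s) :
    Irrational (sg K q s) ∧ 0 < sg K q s ∧ sg K q s < K := by
  have hK0 : (0 : ℝ) < K := by exact_mod_cast hK
  have h1 : Irrational ((q : ℝ) * s / K) := by
    apply Irrational.div_natCast _ (by omega)
    exact hs.natCast_mul (by omega)
  have h2 : Irrational (Int.fract ((q : ℝ) * s / K)) := by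
    unfold Int.fract
    exact h1.sub_intCast _
  have h3 : Irrational (sg K q s) := by
    unfold sg
    exact h2.natCast_mul (by omega)
  refine ⟨h3, ?_, ?_⟩
  · unfold sg
    apply mul_pos hK0
    apply lt_of_le_of_ne (Int.fract_nonneg _)
    intro h4
    apply h2
    exact ⟨0, by rw [← h4]; simp⟩
  · unfold sg
    have := Int.fract_lt_one ((q : ℝ) * s / K)
    calc (K : ℝ) * Int.fract ((q : ℝ) * s / K) < K * 1 := by
          exact mul_lt_mul_of_pos_left this hK0
      _ = K := mul_one _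

private theorem corr_eq {K N : ℕ} (hK : 1 ≤ K) (Φ : M2 → ℝ) (q : ℕ) :
    (K : ℝ) * ∫ s in (0 : ℝ)..1, focG K N Φ s * focG K N Φ (q * s) =
      ∫ s in Set.Ioo (0 : ℝ) K, focg K N Φ s * focg K N Φ (sg K q s) := by
  have hK0 : (0 : ℝ) < K := by exact_mod_cast hK
  have h1 := intervalIntegral.mul_integral_comp_mul_left (a := (0 : ℝ)) (b := 1)
    (f := fun s => focg K N Φ s * focg K N Φ (sg K q s)) (K : ℝ)
  rw [mul_zero, mul_one, intervalIntegral.integral_of_le hK0.le, integral_Ioc_eq_integral_Ioo] at h1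
  rw [← h1]
  congr 1
  rw [intervalIntegral.integral_of_le zero_le_one, intervalIntegral.integral_of_le zero_le_one,
    ← integral_Ico_eq_integral_Ioc, ← integral_Ico_eq_integral_Ioc]
  apply setIntegral_congr_fun measurableSet_Ico
  intro s hs
  have hfr : Int.fract s = s := Int.fract_eq_self.2 hs
  have h2 : (q : ℝ) * (K * s) / K = q * s := by
    field_simp
  simp only [focG, sg, hfr, h2]

private theorem corr_le {K N : ℕ} (hK : 1 ≤ K) (hN : 1 ≤ N) (Φ : M2 → ℝ)
    (hΦ : ∀ h, IsNd h → Φ h = 1 ∨ Φ h = -1) (q : ℕ) (hq : 1 ≤ q) :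
    ∫ s in Set.Ioo (0 : ℝ) K, focg K N Φ s * focg K N Φ (sg K q s) ≤
      -(K : ℝ) + 2 * (mu K).real (Xs Φ K N q) := by
  have hK0 : (0 : ℝ) < K := by exact_mod_cast hK
  have hX := meas_Xs Φ K N q
  have hle : ∫ s in Set.Ioo (0 : ℝ) K, focg K N Φ s * focg K N Φ (sg K q s) ≤
      ∫ s in Set.Ioo (0 : ℝ) K, (-1 + 2 * (Xs Φ K N q).indicator (fun _ => (1 : ℝ)) s) := by
    apply integral_mono_ae
    · have hmeas : Measurable fun s => focg K N Φ s * focg K N Φ (sg K q s) :=
        (focg_meas K N Φ).mul ((focg_meas K N Φ).comp (sg_meas K q))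
      refine Measure.integrableOn_of_bounded (M := 1) (by simp) hmeas.aestronglyMeasurable ?_
      refine Filter.Eventually.of_forall fun s => ?_
      rw [norm_mul, Real.norm_eq_abs, Real.norm_eq_abs]
      exact mul_le_one₀ (focg_abs hK Φ hΦ _) (abs_nonneg _) (focg_abs hK Φ hΦ _)
    · have hmeas : Measurable fun s => (-1 + 2 * (Xs Φ K N q).indicator (fun _ => (1 : ℝ)) s) := by
        apply Measurable.const_add
        exact (measurable_const.indicator hX).const_mul _
      refine Measure.integrableOn_of_bounded (M := 1) (by simp) hmeas.aestronglyMeasurable ?_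
      refine Filter.Eventually.of_forall fun s => ?_
      unfold Set.indicator
      split_ifs <;> norm_num
    · have h1 : ∀ᵐ s ∂(volume.restrict (Set.Ioo (0 : ℝ) K)), Irrational s :=
        ae_restrict_of_ae ae_irr
      have h2 : ∀ᵐ s ∂(volume.restrict (Set.Ioo (0 : ℝ) K)), s ∈ Set.Ioo (0 : ℝ) K :=
        ae_restrict_mem measurableSet_Ioo
      filter_upwards [h1, h2] with s hs1 hs2
      obtain ⟨h, hh, hsJ⟩ := fa_nds hK hN hs2.1 hs2.2 hs1
      obtain ⟨g1, g2, g3⟩ := sg_irr hK hq hs1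
      obtain ⟨h', hh', hsJ'⟩ := fa_nds hK hN g2 g3 g1
      rw [focg_eq hK Φ hh hsJ, focg_eq hK Φ hh' hsJ']
      have hp := hΦ h (nd_of_mem hK hh)
      have hp' := hΦ h' (nd_of_mem hK hh')
      by_cases hsX : s ∈ Xs Φ K N q
      · rw [Set.indicator_of_mem hsX]
        rcases hp with hp | hp <;> rcases hp' with hp' | hp' <;> rw [hp, hp'] <;> norm_num
      · rw [Set.indicator_of_notMem hsX]
        have h3 : Φ h' = -Φ h := by
          by_contra hne
          exact hsX ⟨hs2.1, hs2.2, hs1, h, hh, h', hh', hsJ, hsJ', hne⟩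
        rw [h3]
        rcases hp with hp | hp <;> rw [hp] <;> norm_num
  refine hle.trans (le_of_eq ?_)
  have hfin : volume (Set.Ioo (0 : ℝ) K) ≠ ⊤ := by simp
  have hi1 : IntegrableOn (fun _ : ℝ => (-1 : ℝ)) (Set.Ioo (0 : ℝ) K) := by
    exact integrableOn_const hfin
  have hi2 : IntegrableOn (fun s : ℝ => 2 * (Xs Φ K N q).indicator (fun _ => (1 : ℝ)) s)
      (Set.Ioo (0 : ℝ) K) := by
    apply Integrable.const_mul
    apply Integrable.indicator _ hX
    exact integrableOn_const hfin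
  rw [integral_add hi1 hi2, integral_const_mul, integral_indicator hX]
  unfold mu
  simp only [integral_const, smul_eq_mul, mul_one, mul_neg]
  congr 1
  · simp [Measure.real]
  · rw [measureReal_restrict_apply_univ]

open Classical in
theorem xs_avg (K N : ℕ) (hK : 1 ≤ K) (hN : 1 ≤ N) (Φ : M2 → ℝ)
    (hΦ : ∀ h, IsNd h → Φ h = 1 ∨ Φ h = -1) (P : Finset ℕ) (w : ℕ → ℝ) (q : ℕ → ℕ)
    (hw : ∀ i ∈ P, 0 ≤ w i) (hw1 : ∑ i ∈ P, w i = 1) (hq : ∀ i ∈ P, 1 ≤ q i) (δ : ℝ) (hδ : 0 ≤ δ)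
    (F : ℕ) (hF : 1 ≤ F)
    (hd : ∀ k : ℕ, 1 ≤ k → k ≤ F → ∑ i ∈ P.filter (fun i => q i ∣ k), w i ≤ δ) :
    (K : ℝ) * (1 - √(δ + 2 * ((K : ℝ) * (N : ℝ) ^ 2) ^ 2 / F)) ≤
      2 * ∑ i ∈ P, w i * (mu K).real (Xs Φ K N (q i)) := by
  have hK0 : (0 : ℝ) < K := by exact_mod_cast hK
  have hper : ∀ s, focG K N Φ (s + 1) = focG K N Φ s := by
    intro s
    unfold focG
    rw [Int.fract_add_one]
  have h1 := fc_avg P w q hw hw1 hq (focG K N Φ) (focG_meas K N Φ)
    (fun s => focg_abs hK Φ hΦ _) hper ((K : ℝ) * (N : ℝ) ^ 2) δ (by positivity) hδ F hF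
    (fun k hk => fc_focG hK Φ hΦ k hk) hd
  have h2 := mul_le_mul_of_nonneg_left h1 hK0.le
  have h3 : (K : ℝ) * ∑ i ∈ P, w i * ∫ s in (0 : ℝ)..1, focG K N Φ s * focG K N Φ (q i * s) ≤
      -(K : ℝ) + 2 * ∑ i ∈ P, w i * (mu K).real (Xs Φ K N (q i)) := by
    have e : (K : ℝ) * ∑ i ∈ P, w i * ∫ s in (0 : ℝ)..1, focG K N Φ s * focG K N Φ (q i * s) =
        ∑ i ∈ P, w i * ((K : ℝ) * ∫ s in (0 : ℝ)..1, focG K N Φ s * focG K N Φ (q i * s)) := by
      rw [Finset.mul_sum]
      exact Finset.sum_congr rfl fun i _ => by ring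
    rw [e]
    have e2 : -(K : ℝ) + 2 * ∑ i ∈ P, w i * (mu K).real (Xs Φ K N (q i)) =
        ∑ i ∈ P, w i * (-(K : ℝ) + 2 * (mu K).real (Xs Φ K N (q i))) := by
      have e3 : ∑ i ∈ P, w i * (-(K : ℝ) + 2 * (mu K).real (Xs Φ K N (q i))) =
          (∑ i ∈ P, w i) * (-(K : ℝ)) + 2 * ∑ i ∈ P, w i * (mu K).real (Xs Φ K N (q i)) := by
        rw [Finset.sum_mul, Finset.mul_sum, ← Finset.sum_add_distrib]
        exact Finset.sum_congr rfl fun i _ => by ring
      rw [e3, hw1, one_mul]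
    rw [e2]
    apply Finset.sum_le_sum
    intro i hi
    apply mul_le_mul_of_nonneg_left _ (hw i hi)
    rw [corr_eq hK Φ (q i)]
    exact corr_le hK hN Φ hΦ (q i) (hq i hi)
  have h4 := h2.trans h3
  have h5 : (K : ℝ) * (1 - √(δ + 2 * ((K : ℝ) * (N : ℝ) ^ 2) ^ 2 / F)) =
      K + K * -√(δ + 2 * ((K : ℝ) * (N : ℝ) ^ 2) ^ 2 / F) := by ring
  rw [h5]
  linarith

end Pool.Agent.CQF
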