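import Pool.Agent.CQF.Mva

set_option autoImplicit false

/-!
# Module Mvb (size 4): average over the primes of the mass of bad nodes

Orders: there are `G` (depending only on `ρ`, `Λ`) and for all `lo ≥ 1` a set `Xs` of at most `G` natural numbers
`≥ lo` such that every node `v`, `ρ`-balanced with `lo ≤ v10 ≤ Λ lo`, has order `X` for some `X ∈ Xs`: take
`τ_k = lo (1 + 1/ρ)^k`, `X_k = ⌊τ_k⌋` for `k ≤ k0`, `(1 + 1/ρ)^{k0 - 1} ≥ ρ Λ`, and also `⌈lo⌉`: for such `v`,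
`m = max (v10, v11) ∈ [lo, ρ Λ lo]`; let `k` be minimal with `m ≤ τ_k`; if `k = 0` then `m = lo`..., otherwise
`τ_k < (1 + 1/ρ) m ≤ v10 + v11` (`min ≥ m/ρ`), so `m ≤ X_k < v10 + v11`.
Let `V0` = all nodes `v ∈ ndw K N N2`, `ρ`-balanced, `lo ≤ v10 ≤ Λ lo`, and `V1 ⊆ V0` those in `Bd` or with the irrational
points of `J v` in `U`. For a node `v` let `ψ v = #{p ∈ P : condition}`.  Exchange sums and Cauchy-Schwarz:
`∑_p ∑_{v ∈ V1, cond p} len v = ∑_{v ∈ V1} len v ψ v ≤ (∑_{V0} len v ψ²)^{1/2} (∑_{V1} len v)^{1/2}`;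
`∑_{V0} len v ψ² ≤ ∑_{X ∈ Xs} (second moment) ≤ G · 8ρK(W² + W)` (`p p' ≤ lo ≤ X`), and
`∑_{V1} len v ≤ ∑_{X} mu K U + ∑_{Bd} len v ≤ G u + β` (`sum_len_le` for the nodes of order `X`: disjoint).
-/

open MeasureTheory

namespace Pool.Agent.CQF

private theorem mvb_cover (V : Finset M2) (n : ℕ) (A : ℕ → M2 → Prop) [∀ k, DecidablePred (A k)]
    (h : ∀ v ∈ V, ∃ k ∈ Finset.range n, A k v) (f : M2 → ℝ) (hf : ∀ v ∈ V, 0 ≤ f v) :
    ∑ v ∈ V, f v ≤ ∑ k ∈ Finset.range n, ∑ v ∈ V.filter (fun v => A k v), f v := by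
  calc ∑ v ∈ V, f v ≤ ∑ v ∈ V, ∑ k ∈ Finset.range n, (if A k v then f v else 0) := by
        refine Finset.sum_le_sum (fun v hv => ?_)
        obtain ⟨k, hk, hkv⟩ := h v hv
        calc f v = if A k v then f v else 0 := by rw [if_pos hkv]
          _ ≤ _ := Finset.single_le_sum (f := fun k => if A k v then f v else 0)
              (fun j _ => by
                split_ifs
                · exact hf v hv
                · exact le_rfl) hk
    _ = ∑ k ∈ Finset.range n, ∑ v ∈ V, (if A k v then f v else 0) := Finset.sum_comm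
    _ = _ := by
        refine Finset.sum_congr rfl (fun k _ => ?_)
        exact (Finset.sum_filter (fun v => A k v) f).symm

private theorem mvb_order {ρ Λ : ℝ} (hρ : 1 ≤ ρ) {k0 : ℕ} (hk0 : ρ * Λ ≤ (1 + 1 / ρ) ^ k0)
    {lo : ℝ} (hlo : 1 ≤ lo) {c d : ℤ} (hc : 0 < c) (hd : 0 < d) (h1 : (c : ℝ) ≤ ρ * d)
    (h2 : (d : ℝ) ≤ ρ * c) (h3 : lo ≤ c) (h4 : (c : ℝ) ≤ Λ * lo) :
    ∃ k ∈ Finset.range (k0 + 1), c ≤ (⌊lo * (1 + 1 / ρ) ^ k⌋₊ : ℕ) ∧
      d ≤ (⌊lo * (1 + 1 / ρ) ^ k⌋₊ : ℕ) ∧ ((⌊lo * (1 + 1 / ρ) ^ k⌋₊ : ℕ) : ℤ) < c + d := by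
  have hρ0 : 0 < ρ := by linarith
  have hcr : (0 : ℝ) < c := by exact_mod_cast hc
  have hdr : (0 : ℝ) < d := by exact_mod_cast hd
  have hΛ : 1 ≤ Λ := by
    by_contra h
    push Not at h
    nlinarith
  have hex : ∃ k, (c : ℝ) ≤ lo * (1 + 1 / ρ) ^ k ∧ (d : ℝ) ≤ lo * (1 + 1 / ρ) ^ k := by
    refine ⟨k0, ?_, ?_⟩
    · calc (c : ℝ) ≤ Λ * lo := h4
        _ ≤ (ρ * Λ) * lo := by nlinarith [mul_nonneg (sub_nonneg.mpr hρ) (by positivity : 0 ≤ Λ * lo)]
        _ ≤ _ := by rw [mul_comm]; exact mul_le_mul_of_nonneg_left hk0 (by linarith)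
    · calc (d : ℝ) ≤ ρ * c := h2
        _ ≤ ρ * (Λ * lo) := mul_le_mul_of_nonneg_left h4 hρ0.le
        _ = lo * (ρ * Λ) := by ring
        _ ≤ _ := mul_le_mul_of_nonneg_left hk0 (by linarith)
  classical
  set k := Nat.find hex with hk
  have s1 : (c : ℝ) ≤ lo * (1 + 1 / ρ) ^ k := (Nat.find_spec hex).1
  have s2 : (d : ℝ) ≤ lo * (1 + 1 / ρ) ^ k := (Nat.find_spec hex).2
  have hkk0 : k ≤ k0 := by
    refine Nat.find_min' hex ⟨?_, ?_⟩
    · calc (c : ℝ) ≤ Λ * lo := h4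
        _ ≤ (ρ * Λ) * lo := by nlinarith [mul_nonneg (sub_nonneg.mpr hρ) (by positivity : 0 ≤ Λ * lo)]
        _ ≤ _ := by rw [mul_comm]; exact mul_le_mul_of_nonneg_left hk0 (by linarith)
    · calc (d : ℝ) ≤ ρ * c := h2
        _ ≤ ρ * (Λ * lo) := mul_le_mul_of_nonneg_left h4 hρ0.le
        _ = lo * (ρ * Λ) := by ring
        _ ≤ _ := mul_le_mul_of_nonneg_left hk0 (by linarith)
  refine ⟨k, Finset.mem_range.mpr (by omega), ?_, ?_, ?_⟩
  · obtain ⟨c', rfl⟩ := Int.eq_ofNat_of_zero_le hc.le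
    have : c' ≤ ⌊lo * (1 + 1 / ρ) ^ k⌋₊ := Nat.le_floor (by simpa using s1)
    exact_mod_cast this
  · obtain ⟨d', rfl⟩ := Int.eq_ofNat_of_zero_le hd.le
    have : d' ≤ ⌊lo * (1 + 1 / ρ) ^ k⌋₊ := Nat.le_floor (by simpa using s2)
    exact_mod_cast this
  · have h5 : ((⌊lo * (1 + 1 / ρ) ^ k⌋₊ : ℕ) : ℝ) ≤ lo * (1 + 1 / ρ) ^ k :=
      Nat.floor_le (by positivity)
    have h6 : lo * (1 + 1 / ρ) ^ k < c + d := by
      rcases Nat.eq_zero_or_pos k with h0 | h0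
      · rw [h0, pow_zero, mul_one]
        linarith
      · have h7 := Nat.find_min hex (m := k - 1) (by omega)
        rw [not_and_or, not_le, not_le] at h7
        have h8 : lo * (1 + 1 / ρ) ^ k = (lo * (1 + 1 / ρ) ^ (k - 1)) * (1 + 1 / ρ) := by
          have : k = (k - 1) + 1 := by omega
          rw [this, pow_succ]
          simp only [Nat.add_sub_cancel]
          ring
        rw [h8]
        rcases h7 with h7 | h7
        · calc _ < (c : ℝ) * (1 + 1 / ρ) := mul_lt_mul_of_pos_right h7 (by positivity)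
            _ = c + c / ρ := by ring
            _ ≤ c + d := by
                have : (c : ℝ) / ρ ≤ d := by rw [div_le_iff₀ hρ0]; linarith
                linarith
        · calc _ < (d : ℝ) * (1 + 1 / ρ) := mul_lt_mul_of_pos_right h7 (by positivity)
            _ = d + d / ρ := by ring
            _ ≤ c + d := by
                have : (d : ℝ) / ρ ≤ c := by rw [div_le_iff₀ hρ0]; linarith
                linarith
    have h7 := h5.trans_lt h6
    exact_mod_cast h7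

open Classical in
theorem avg_bad (K : ℕ) (hK : 1 ≤ K) (ρ Λ : ℝ) (hρ : 1 ≤ ρ) (hΛ : 1 ≤ Λ) :
    ∃ G : ℝ, 1 ≤ G ∧ ∀ (N N2 : ℕ) (lo : ℝ) (P : Finset ℕ) (M : ℕ → M2) (U : Set ℝ) (Bd : Set M2)
      (V : ℕ → Finset M2), 1 ≤ N → 1 ≤ lo → (∀ p ∈ P, p.Prime) →
      (∀ p ∈ P, ∀ p' ∈ P, ((p * p' : ℕ) : ℝ) ≤ lo) → (∀ p ∈ P, ¬ (p : ℤ) ∣ M p 0 1) →
      (∀ p ∈ P, ∀ v ∈ V p, v ∈ ndw K N N2 ∧ Bal ρ v ∧ lo ≤ (v 1 0 : ℝ) ∧ (v 1 0 : ℝ) ≤ Λ * lo ∧
        (p : ℤ) ∣ v 1 0 * M p 0 1 - v 1 1 * M p 0 0 ∧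
        (v ∈ Bd ∨ ∀ s ∈ J v, Irrational s → s ∈ U)) →
      ∑ p ∈ P, ∑ v ∈ V p, len v ≤
        √(G * ((∑ p ∈ P, (1 : ℝ) / p) ^ 2 + ∑ p ∈ P, (1 : ℝ) / p)) *
        √(G * (mu K).real U + ∑ v ∈ (ndw K N N2).filter (fun v => v ∈ Bd ∧ Bal ρ v), len v) := by
  have hρ0 : 0 < ρ := by linarith
  have hbase : (1 : ℝ) < 1 + 1 / ρ := by
    have : (0 : ℝ) < 1 / ρ := by positivity
    linarith
  obtain ⟨k0, hk0⟩ := pow_unbounded_of_one_lt (ρ * Λ) hbase
  have hKr : (1 : ℝ) ≤ K := by exact_mod_cast hK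
  set G : ℝ := (k0 + 1) * (8 * ρ * K) with hG
  have h8 : (1 : ℝ) ≤ 8 * ρ * K := by nlinarith
  have hGk : (k0 + 1 : ℝ) ≤ G := by
    rw [hG]
    have : (0 : ℝ) ≤ k0 + 1 := by positivity
    nlinarith
  refine ⟨G, ?_, ?_⟩
  · have : (0 : ℝ) ≤ k0 := by positivity
    linarith
  intro N N2 lo P M U Bd V hN hlo hP hPP hM hV
  set S := ndw K N N2 with hS
  set V0 := S.filter (fun v => Bal ρ v ∧ lo ≤ (v 1 0 : ℝ) ∧ (v 1 0 : ℝ) ≤ Λ * lo) with hV0
  set Cu : M2 → Prop := fun v => ∀ s ∈ J v, Irrational s → s ∈ U with hCu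
  set V1 := V0.filter (fun v => v ∈ Bd ∨ Cu v) with hV1
  set C : ℕ → M2 → Prop := fun p v => (p : ℤ) ∣ v 1 0 * M p 0 1 - v 1 1 * M p 0 0 with hC
  set ψ : M2 → ℝ := fun v => ((P.filter (fun p : ℕ => C p v)).card : ℝ) with hψ
  set X : ℕ → ℕ := fun k => ⌊lo * (1 + 1 / ρ) ^ k⌋₊ with hX
  have hnd : ∀ v ∈ S, IsNd v ∧ v 0 0 ≤ K * v 1 0 := by
    intro v hv
    rw [hS, mem_ndw hK] at hv
    exact ⟨hv.1, hv.2.2⟩
  have hV0S : ∀ v ∈ V0, v ∈ S := fun v hv => (Finset.mem_filter.mp hv).1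
  have hV1V0 : ∀ v ∈ V1, v ∈ V0 := fun v hv => (Finset.mem_filter.mp hv).1
  have hlen : ∀ v ∈ V0, 0 ≤ len v := fun v hv => (len_pos (hnd v (hV0S v hv)).1).le
  have hXk : ∀ v ∈ V0, ∃ k ∈ Finset.range (k0 + 1), v ∈ nds K (X k) := by
    intro v hv
    obtain ⟨hn, hn'⟩ := hnd v (hV0S v hv)
    obtain ⟨_, hb, hl1, hl2⟩ := Finset.mem_filter.mp hv
    obtain ⟨k, hk, e1, e2, e3⟩ := mvb_order hρ hk0.le hlo hn.c0 hn.d0 hb.1 hb.2 hl1 hl2
    refine ⟨k, hk, ?_⟩
    unfold nds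
    rw [mem_ndw hK]
    exact ⟨hn, ⟨e1, e2, e3⟩, hn'⟩
  have hXlo : ∀ k, ⌊lo⌋₊ ≤ X k := by
    intro k
    refine Nat.floor_le_floor ?_
    have : (1 : ℝ) ≤ (1 + 1 / ρ) ^ k := one_le_pow₀ hbase.le
    nlinarith
  have hlo1 : 1 ≤ ⌊lo⌋₊ := Nat.le_floor (by simpa using hlo)
  -- the left hand side
  have hL : ∑ p ∈ P, ∑ v ∈ V p, len v ≤ ∑ v ∈ V1, len v * ψ v := by
    calc ∑ p ∈ P, ∑ v ∈ V p, len v ≤ ∑ p ∈ P, ∑ v ∈ V1, len v * (if C p v then 1 else 0) := by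
          refine Finset.sum_le_sum (fun p hp => ?_)
          have : ∑ v ∈ V1, len v * (if C p v then (1 : ℝ) else 0) =
              ∑ v ∈ V1.filter (fun v => C p v), len v := by
            refine Eq.trans ?_ (Finset.sum_filter (s := V1) (fun v => C p v) (fun v => len v)).symm
            refine Finset.sum_congr rfl (fun v _ => ?_)
            split_ifs <;> simp
          rw [this]
          refine Finset.sum_le_sum_of_subset_of_nonneg ?_ ?_
          · intro v hv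
            obtain ⟨a1, a2, a3, a4, a5, a6⟩ := hV p hp v hv
            rw [Finset.mem_filter, hV1, Finset.mem_filter, hV0, Finset.mem_filter]
            exact ⟨⟨⟨a1, a2, a3, a4⟩, a6⟩, a5⟩
          · intro v hv _
            exact hlen v (hV1V0 v (Finset.mem_filter.mp hv).1)
      _ = ∑ v ∈ V1, len v * ψ v := by
          rw [Finset.sum_comm]
          refine Finset.sum_congr rfl (fun v _ => ?_)
          rw [← Finset.mul_sum]
          congr 1
          simp only [hψ]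
          rw [Finset.card_filter]
          push_cast
          rfl
  -- second moment
  have hsm : ∑ v ∈ V1, len v * ψ v ^ 2 ≤
      G * ((∑ p ∈ P, (1 : ℝ) / p) ^ 2 + ∑ p ∈ P, (1 : ℝ) / p) := by
    have h1 : ∑ v ∈ V1, len v * ψ v ^ 2 ≤ ∑ v ∈ V0, len v * ψ v ^ 2 := by
      refine Finset.sum_le_sum_of_subset_of_nonneg (fun v hv => hV1V0 v hv) ?_
      intro v hv _
      exact mul_nonneg (hlen v hv) (sq_nonneg _)
    have h2 := mvb_cover V0 (k0 + 1) (fun k v => v ∈ nds K (X k)) hXk (fun v => len v * ψ v ^ 2)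
      (fun v hv => mul_nonneg (hlen v hv) (sq_nonneg _))
    have h3 : ∀ k ∈ Finset.range (k0 + 1),
        ∑ v ∈ V0.filter (fun v => v ∈ nds K (X k)), len v * ψ v ^ 2 ≤
          8 * ρ * K * ((∑ p ∈ P, (1 : ℝ) / p) ^ 2 + ∑ p ∈ P, (1 : ℝ) / p) := by
      intro k _
      refine le_trans ?_ (second_moment K (X k) hK (hlo1.trans (hXlo k)) ρ hρ P hP
        (fun p hp p' hp' => (Nat.le_floor (hPP p hp p' hp')).trans (hXlo k)) M hM)
      refine Finset.sum_le_sum_of_subset_of_nonneg ?_ ?_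
      · intro v hv
        obtain ⟨b1, b2⟩ := Finset.mem_filter.mp hv
        obtain ⟨_, b3, _⟩ := Finset.mem_filter.mp b1
        exact Finset.mem_filter.mpr ⟨b2, b3⟩
      · intro v hv _
        obtain ⟨b1, b2⟩ := Finset.mem_filter.mp hv
        unfold nds at b1
        rw [mem_ndw hK] at b1
        exact mul_nonneg (len_pos b1.1).le (sq_nonneg _)
    calc _ ≤ _ := h1
      _ ≤ _ := h2
      _ ≤ ∑ k ∈ Finset.range (k0 + 1),
          8 * ρ * K * ((∑ p ∈ P, (1 : ℝ) / p) ^ 2 + ∑ p ∈ P, (1 : ℝ) / p) := Finset.sum_le_sum h3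
      _ = _ := by
          rw [Finset.sum_const, Finset.card_range, nsmul_eq_mul, hG]
          push_cast
          ring
  -- total length
  have htl : ∑ v ∈ V1, len v ≤
      G * (mu K).real U + ∑ v ∈ S.filter (fun v => v ∈ Bd ∧ Bal ρ v), len v := by
    have h1 : ∑ v ∈ V1, len v ≤ ∑ v ∈ V0.filter (fun v => Cu v), len v +
        ∑ v ∈ S.filter (fun v => v ∈ Bd ∧ Bal ρ v), len v := by
      have e1 : ∑ v ∈ V1, len v = ∑ v ∈ V1.filter (fun v => v ∈ Bd), len v +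
          ∑ v ∈ V1.filter (fun v => ¬ v ∈ Bd), len v :=
        (Finset.sum_filter_add_sum_filter_not V1 (fun v => v ∈ Bd) (fun v => len v)).symm
      rw [e1, add_comm]
      refine add_le_add ?_ ?_
      · refine Finset.sum_le_sum_of_subset_of_nonneg ?_ ?_
        · intro v hv
          obtain ⟨b1, b2⟩ := Finset.mem_filter.mp hv
          obtain ⟨b3, b4⟩ := Finset.mem_filter.mp b1
          exact Finset.mem_filter.mpr ⟨b3, b4.resolve_left b2⟩
        · intro v hv _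
          exact hlen v (Finset.mem_filter.mp hv).1
      · refine Finset.sum_le_sum_of_subset_of_nonneg ?_ ?_
        · intro v hv
          obtain ⟨b1, b2⟩ := Finset.mem_filter.mp hv
          obtain ⟨b3, b4⟩ := Finset.mem_filter.mp b1
          obtain ⟨b5, b6, _⟩ := Finset.mem_filter.mp b3
          exact Finset.mem_filter.mpr ⟨b5, b2, b6⟩
        · intro v hv _
          exact (len_pos (hnd v (Finset.mem_filter.mp hv).1).1).le
    have h2 := mvb_cover (V0.filter (fun v => Cu v)) (k0 + 1) (fun k v => v ∈ nds K (X k))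
      (fun v hv => hXk v (Finset.mem_filter.mp hv).1) (fun v => len v)
      (fun v hv => hlen v (Finset.mem_filter.mp hv).1)
    have h3 : ∀ k ∈ Finset.range (k0 + 1),
        ∑ v ∈ (V0.filter (fun v => Cu v)).filter (fun v => v ∈ nds K (X k)), len v ≤
          (mu K).real U := by
      intro k _
      refine sum_len_le (K := K) ((V0.filter (fun v => Cu v)).filter (fun v => v ∈ nds K (X k)))
        (fun v => v) ?_ ?_ U ?_
      · intro v hv
        exact hnd v (hV0S v (Finset.mem_filter.mp (Finset.mem_filter.mp hv).1).1)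
      · intro v hv v' hv' hne
        exact nds_disj hK (Finset.mem_filter.mp hv).2 (Finset.mem_filter.mp hv').2 hne
      · intro v hv s hs hi
        exact (Finset.mem_filter.mp (Finset.mem_filter.mp hv).1).2 s hs hi
    have h4 : ∑ v ∈ V0.filter (fun v => Cu v), len v ≤ G * (mu K).real U := by
      calc _ ≤ _ := h2
        _ ≤ ∑ k ∈ Finset.range (k0 + 1), (mu K).real U := Finset.sum_le_sum h3
        _ = (k0 + 1) * (mu K).real U := by
            rw [Finset.sum_const, Finset.card_range, nsmul_eq_mul]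
            push_cast
            ring
        _ ≤ _ := mul_le_mul_of_nonneg_right hGk measureReal_nonneg
    linarith
  -- Cauchy-Schwarz
  have hcs : ∑ v ∈ V1, len v * ψ v ≤ √(∑ v ∈ V1, len v * ψ v ^ 2) * √(∑ v ∈ V1, len v) := by
    have h1 := Real.sum_mul_le_sqrt_mul_sqrt V1 (fun v => √(len v) * ψ v) (fun v => √(len v))
    have e1 : ∀ v ∈ V1, √(len v) * ψ v * √(len v) = len v * ψ v := by
      intro v hv
      have := Real.mul_self_sqrt (hlen v (hV1V0 v hv))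
      linear_combination ψ v * this
    have e2 : ∀ v ∈ V1, (√(len v) * ψ v) ^ 2 = len v * ψ v ^ 2 := by
      intro v hv
      rw [mul_pow, Real.sq_sqrt (hlen v (hV1V0 v hv))]
    have e3 : ∀ v ∈ V1, √(len v) ^ 2 = len v := fun v hv => Real.sq_sqrt (hlen v (hV1V0 v hv))
    rw [Finset.sum_congr rfl e1, Finset.sum_congr rfl e2, Finset.sum_congr rfl e3] at h1
    exact h1
  calc _ ≤ _ := hL
    _ ≤ _ := hcs
    _ ≤ _ := mul_le_mul (Real.sqrt_le_sqrt hsm) (Real.sqrt_le_sqrt htl) (Real.sqrt_nonneg _)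
        (Real.sqrt_nonneg _)

end Pool.Agent.CQF
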