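import Mathlib

set_option autoImplicit false

/-!
# Module Wt (size 2): a number `≤ F` has few prime factors `> P0`

The primes `p > P0` dividing `k ≤ F` have product `≤ k ≤ F`, so there are at most `log F / log P0` of them, and each has
`1/p ≤ 1/P0`.
-/

namespace Pool.Agent.CQF

open Classical in
theorem few_primes (P : Finset ℕ) (P0 : ℝ) (h0 : 2 ≤ P0) (hP : ∀ p ∈ P, p.Prime ∧ P0 < p) (k F : ℕ)
    (hk : 1 ≤ k) (hkF : k ≤ F) :
    ∑ p ∈ P.filter (fun p => p ∣ k), (1 : ℝ) / p ≤ Real.log F / (P0 * Real.log P0) := by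
  set S := P.filter (fun p => p ∣ k) with hS
  have hP0 : 0 < P0 := by linarith
  have hlog : 0 < Real.log P0 := Real.log_pos (by linarith)
  have hdvd : ∏ p ∈ S, p ∣ k := by
    refine Finset.prod_primes_dvd k ?_ ?_
    · intro p hp
      exact (hP p (Finset.mem_filter.1 hp).1).1.prime
    · intro p hp
      exact (Finset.mem_filter.1 hp).2
  have hle : ∏ p ∈ S, p ≤ F := (Nat.le_of_dvd (by omega) hdvd).trans hkF
  have hpow : P0 ^ S.card ≤ (F : ℝ) := by
    calc P0 ^ S.card = ∏ _p ∈ S, P0 := by rw [Finset.prod_const]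
      _ ≤ ∏ p ∈ S, (p : ℝ) := Finset.prod_le_prod (fun _ _ => hP0.le)
          (fun p hp => (hP p (Finset.mem_filter.1 hp).1).2.le)
      _ = ((∏ p ∈ S, p : ℕ) : ℝ) := by push_cast; rfl
      _ ≤ (F : ℝ) := by exact_mod_cast hle
  have hcard : (S.card : ℝ) * Real.log P0 ≤ Real.log F := by
    rw [← Real.log_pow]
    exact Real.log_le_log (by positivity) hpow
  calc ∑ p ∈ S, (1 : ℝ) / p ≤ ∑ _p ∈ S, 1 / P0 := by
        refine Finset.sum_le_sum fun p hp => ?_
        exact one_div_le_one_div_of_le hP0 (hP p (Finset.mem_filter.1 hp).1).2.le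
    _ = S.card * (1 / P0) := by rw [Finset.sum_const, nsmul_eq_mul]
    _ ≤ Real.log F / (P0 * Real.log P0) := by
        rw [mul_one_div, div_le_div_iff₀ hP0 (by positivity)]
        calc (S.card : ℝ) * (P0 * Real.log P0) = P0 * (S.card * Real.log P0) := by ring
          _ ≤ P0 * Real.log F := mul_le_mul_of_nonneg_left hcard hP0.le
          _ = Real.log F * P0 := mul_comm _ _

end Pool.Agent.CQF
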