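import Pool.Agent.CQF.Tb
import Pool.Agent.CQF.Foc
import Pool.Agent.CQF.Mvb
import Pool.Agent.CQF.Wt

set_option autoImplicit false

/-!
# Module Ta (size 4): the abstract theorem

`u = mu K (Ust Φ K N N2)`, `β` the sum over `Bd`. Weights `w p = (1/p)/W`, `W = ∑_{p ∈ P} 1/p ≥ cW`.
For each `p ∈ P`, `per_prime` with `V p` = the filter of `ndw K N N2` given there. Average:
`∑ w p mu K (Xs Φ K N (p m)) ≤ K/8 + C1 u + (C1/W) ∑_p ∑_{V p} len v`, and `avg_bad` (with `ρ = c2/c1`, `U = Ust`) gives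
`(1/W) ∑∑ ≤ √(G (1 + 1/cW)) √(G u + β)`.  `xs_avg` with `q p = p m`, `F = N^5`,
`δ = log (N^5)/((log N)² log((log N)²) cW)` (`few_primes`, `P0 = (log N)²`; `q p ∣ k` implies `p ∣ k`):
for `N` large `√(δ + 2 K² N⁴/N⁵) ≤ 1/2`, so
`K/2 ≤ 2 (K/8 + C1 u + C1 √(G(1+1/cW)) √(G u + β))`, i.e. `K/8 ≤ C1 u + C1 √(G(1 + 1/cW)) √(G u + β)`, and so
`u + β ≥ ε` with `ε` depending only on `K, C1, G, cW`.
-/

open MeasureTheory

namespace Pool.Agent.CQF

/-- final step: a quadratic inequality in `√x` bounds `x` from below -/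
private theorem Ta_low (T A : ℝ) (hT : 0 < T) (hA : 0 < A) (x : ℝ) (hx : 0 ≤ x)
    (h : T ≤ A * x + A * √x) : min 1 ((T / (2 * A)) ^ 2) ≤ x := by
  by_contra hlt
  rw [not_le] at hlt
  have hx1 : x < 1 := lt_of_lt_of_le hlt (min_le_left _ _)
  have hx2 : x < (T / (2 * A)) ^ 2 := lt_of_lt_of_le hlt (min_le_right _ _)
  have hpos : 0 < T / (2 * A) := by positivity
  have hs : √x < T / (2 * A) := by
    rw [Real.sqrt_lt' hpos]
    exact hx2
  have hxs : x ≤ √x := by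
    rw [Real.le_sqrt hx hx]
    nlinarith
  have h3 : A * x + A * √x ≤ 2 * A * √x := by nlinarith
  have h4 : 2 * A * √x < T := by
    have := mul_lt_mul_of_pos_left hs (by positivity : 0 < 2 * A)
    rw [mul_div_cancel₀ _ (by positivity : (2 * A) ≠ 0)] at this
    exact this
  linarith

/-- the size of `N` -/
private theorem Ta_big (K : ℕ) (cW : ℝ) (hcW : 0 < cW) :
    ∃ N1 : ℕ, 1 ≤ N1 ∧ ∀ N : ℕ, N1 ≤ N → 2 ≤ (Real.log N) ^ 2 ∧
      √(Real.log ((N ^ 5 : ℕ) : ℝ) / ((Real.log N) ^ 2 * Real.log ((Real.log N) ^ 2)) / cW +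
        2 * ((K : ℝ) * (N : ℝ) ^ 2) ^ 2 / ((N ^ 5 : ℕ) : ℝ)) ≤ 1 / 2 := by
  refine ⟨max (max ⌈Real.exp 3⌉₊ ⌈Real.exp (20 / cW)⌉₊) (16 * K ^ 2) + 1, by omega, ?_⟩
  intro N hN
  have hN1 : ⌈Real.exp 3⌉₊ ≤ N :=
    le_trans (le_max_left _ _) (le_trans (le_max_left _ _) (le_trans (Nat.le_succ _) hN))
  have hN2 : ⌈Real.exp (20 / cW)⌉₊ ≤ N :=
    le_trans (le_max_right _ _) (le_trans (le_max_left _ _) (le_trans (Nat.le_succ _) hN))
  have hN3 : 16 * K ^ 2 ≤ N := le_trans (le_max_right _ _) (le_trans (Nat.le_succ _) hN)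
  have hN0 : 0 < N := by omega
  have hNpos : (0 : ℝ) < N := by exact_mod_cast hN0
  have hL3 : 3 ≤ Real.log N := by
    rw [Real.le_log_iff_exp_le hNpos]
    exact le_trans (Nat.le_ceil _) (by exact_mod_cast hN1)
  have hLc : 20 / cW ≤ Real.log N := by
    rw [Real.le_log_iff_exp_le hNpos]
    exact le_trans (Nat.le_ceil _) (by exact_mod_cast hN2)
  have hN3' : (16 : ℝ) * (K : ℝ) ^ 2 ≤ N := by exact_mod_cast hN3
  set L := Real.log N with hL
  have hLpos : 0 < L := by linarith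
  refine ⟨by nlinarith, ?_⟩
  have hlogL : 1 ≤ Real.log L := by
    rw [Real.le_log_iff_exp_le hLpos]
    have := Real.exp_one_lt_d9
    linarith
  have hlog2 : Real.log (L ^ 2) = 2 * Real.log L := by
    rw [Real.log_pow]
    norm_num
  have hlog5 : Real.log ((N ^ 5 : ℕ) : ℝ) = 5 * L := by
    push_cast
    rw [Real.log_pow]
    norm_num [hL]
  have hδ : Real.log ((N ^ 5 : ℕ) : ℝ) / (L ^ 2 * Real.log (L ^ 2)) / cW ≤ 1 / 8 := by
    rw [hlog5, hlog2, div_div, div_le_div_iff₀ (by positivity) (by norm_num)]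
    have h20 : 20 ≤ L * cW := by
      rw [div_le_iff₀ hcW] at hLc
      exact hLc
    have : 5 * L * 8 ≤ L ^ 2 * 2 * cW := by nlinarith
    have h2 : L ^ 2 * 2 * cW ≤ L ^ 2 * (2 * Real.log L) * cW := by
      have : 0 ≤ L ^ 2 * cW := by positivity
      nlinarith
    linarith
  have hd2 : 2 * ((K : ℝ) * (N : ℝ) ^ 2) ^ 2 / ((N ^ 5 : ℕ) : ℝ) ≤ 1 / 8 := by
    push_cast
    rw [div_le_div_iff₀ (by positivity) (by norm_num)]
    have h4 : 0 < (N : ℝ) ^ 4 := by positivity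
    calc 2 * ((K : ℝ) * (N : ℝ) ^ 2) ^ 2 * 8 = 16 * (K : ℝ) ^ 2 * (N : ℝ) ^ 4 := by ring
      _ ≤ N * (N : ℝ) ^ 4 := mul_le_mul_of_nonneg_right hN3' h4.le
      _ = 1 * (N : ℝ) ^ 5 := by ring
  rw [show (1 : ℝ) / 2 = √(1 / 4) by
    rw [show (1 : ℝ) / 4 = (1 / 2) ^ 2 by norm_num, Real.sqrt_sq (by norm_num)]]
  apply Real.sqrt_le_sqrt
  linarith

open Classical in
theorem absA (K a : ℕ) (hK : 1 ≤ K) (ha : 1 ≤ a) (ζ c1 c2 cW : ℝ) (h0 : 0 < ζ) (h1 : ζ ≤ 1)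
    (hc1 : 0 < c1) (hc12 : c1 ≤ c2) (hcW : 0 < cW) :
    ∃ ε : ℝ, 0 < ε ∧ ∃ C N0 : ℕ, ∀ N : ℕ, N0 ≤ N →
      ∀ (m : ℕ) (H0 : M2) (P : Finset ℕ) (M : ℕ → M2) (Φ : M2 → ℝ) (Bd : Set M2),
        1 ≤ m → m ∣ K → H0 0 0 * H0 1 1 - H0 0 1 * H0 1 0 = 1 →
        (∀ p ∈ P, p.Prime ∧ (Real.log N) ^ 2 < p ∧ (p : ℝ) ≤ (Real.log N) ^ (2 * a)) →
        cW ≤ ∑ p ∈ P, (1 : ℝ) / p → (∀ p ∈ P, FamOk K m H0 ζ c1 c2 p (M p)) →
        (∀ p ∈ P, PhiOk K m H0 Φ Bd p (M p)) →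
        ε ≤ (mu K).real (Ust Φ K N ⌊(N : ℝ) * (Real.log N) ^ C⌋₊) +
          ∑ v ∈ (ndw K N ⌊(N : ℝ) * (Real.log N) ^ C⌋₊).filter
            (fun v => v ∈ Bd ∧ Bal (c2 / c1) v), len v := by
  obtain ⟨C1, Λ, hC1, hΛ, C, N0p, hpp⟩ := per_prime K a hK ha ζ c1 c2 h0 h1 hc1 hc12
  have hρ : 1 ≤ c2 / c1 := by
    rw [le_div_iff₀ hc1]
    linarith
  obtain ⟨G, hG, hav⟩ := avg_bad K hK (c2 / c1) Λ hρ hΛ
  obtain ⟨N1, hN1, hbig⟩ := Ta_big K cW hcW
  set D : ℝ := √(G * (1 + 1 / cW)) with hD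
  have hDpos : 0 ≤ D := Real.sqrt_nonneg _
  have hKpos : (0 : ℝ) < K := by exact_mod_cast hK
  set A : ℝ := C1 + C1 * D * √G with hA
  have hApos : 0 < A := by
    have : 0 ≤ C1 * D * √G := by positivity
    linarith
  refine ⟨min 1 (((K : ℝ) / 8 / (2 * A)) ^ 2), by positivity, C, max N0p N1, ?_⟩
  intro N hN m H0 P M Φ Bd hm hmK hH0 hP hW hfam hphi
  have hNp : N0p ≤ N := le_trans (le_max_left _ _) hN
  have hNb : N1 ≤ N := le_trans (le_max_right _ _) hN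
  have hN' : 1 ≤ N := le_trans hN1 hNb
  obtain ⟨hL2, hsq⟩ := hbig N hNb
  obtain ⟨lo, hlo, hlo2, hper⟩ := hpp N hNp
  set N2 := ⌊(N : ℝ) * (Real.log N) ^ C⌋₊ with hN2
  set u := (mu K).real (Ust Φ K N N2) with hu
  set β := ∑ v ∈ (ndw K N N2).filter (fun v => v ∈ Bd ∧ Bal (c2 / c1) v), len v with hβ
  set W := ∑ p ∈ P, (1 : ℝ) / p with hWdef
  have hWpos : 0 < W := lt_of_lt_of_le hcW hW
  have hu0 : 0 ≤ u := by positivity
  have hlen : ∀ v ∈ ndw K N N2, 0 ≤ len v := by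
    intro v hv
    unfold ndw at hv
    rw [Finset.mem_filter] at hv
    have h1 : (0 : ℝ) < v 1 0 := by exact_mod_cast hv.2.1.c0
    have h2 : (0 : ℝ) < v 1 1 := by exact_mod_cast hv.2.1.d0
    unfold len
    positivity
  have hβ0 : 0 ≤ β := by
    apply Finset.sum_nonneg
    intro v hv
    rw [Finset.mem_filter] at hv
    exact hlen v hv.1
  -- the sets V p
  let V : ℕ → Finset M2 := fun p => (ndw K N N2).filter (fun v => Bal (c2 / c1) v ∧
    lo ≤ (v 1 0 : ℝ) ∧ (v 1 0 : ℝ) ≤ Λ * lo ∧ (p : ℤ) ∣ v 1 0 * M p 0 1 - v 1 1 * M p 0 0 ∧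
    (v ∈ Bd ∨ ∀ s ∈ J v, Irrational s → s ∈ Ust Φ K N N2))
  have hVmem : ∀ p v, v ∈ V p ↔ v ∈ ndw K N N2 ∧ Bal (c2 / c1) v ∧
    lo ≤ (v 1 0 : ℝ) ∧ (v 1 0 : ℝ) ≤ Λ * lo ∧ (p : ℤ) ∣ v 1 0 * M p 0 1 - v 1 1 * M p 0 0 ∧
    (v ∈ Bd ∨ ∀ s ∈ J v, Irrational s → s ∈ Ust Φ K N N2) := by
    intro p v
    exact Finset.mem_filter
  have hX : ∀ p ∈ P, (mu K).real (Xs Φ K N (p * m)) ≤ K / 8 +
      C1 * (u + p * ∑ v ∈ V p, len v) := by
    intro p hp
    exact hper m p H0 (M p) Φ Bd hm hmK hH0 (hP p hp).1 (hP p hp).2.1 (hP p hp).2.2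
      (hfam p hp) (hphi p hp) (V p) (hVmem p)
  have hlo1 : 1 ≤ lo := le_trans (by exact_mod_cast hN') hlo
  have hpp' : ∀ p ∈ P, ∀ p' ∈ P, ((p * p' : ℕ) : ℝ) ≤ lo := by
    intro p hp p' hp'
    refine le_trans ?_ hlo2
    push_cast
    calc (p : ℝ) * p' ≤ (Real.log N) ^ (2 * a) * (Real.log N) ^ (2 * a) :=
          mul_le_mul (hP p hp).2.2 (hP p' hp').2.2 (by positivity)
            (le_trans (by positivity) (hP p hp).2.2)
      _ = (Real.log N) ^ (4 * a) := by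
          rw [← pow_add]
          congr 1
          ring
  have hbad := hav N N2 lo P M (Ust Φ K N N2) Bd V hN' hlo1 (fun p hp => (hP p hp).1) hpp'
    (fun p hp => (hfam p hp).nd) (fun p hp v hv => by
      rw [hVmem] at hv
      exact hv)
  -- average
  set w : ℕ → ℝ := fun p => (1 / (p : ℝ)) / W with hw
  have hw0 : ∀ i ∈ P, 0 ≤ w i := by
    intro i _
    simp only [hw]
    positivity
  have hw1 : ∑ i ∈ P, w i = 1 := by
    simp only [hw]
    rw [← Finset.sum_div, ← hWdef, div_self hWpos.ne']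
  have havg : ∑ p ∈ P, w p * (mu K).real (Xs Φ K N (p * m)) ≤
      K / 8 + C1 * u + C1 * (1 / W * ∑ p ∈ P, ∑ v ∈ V p, len v) := by
    calc ∑ p ∈ P, w p * (mu K).real (Xs Φ K N (p * m)) ≤
        ∑ p ∈ P, w p * (K / 8 + C1 * (u + p * ∑ v ∈ V p, len v)) :=
          Finset.sum_le_sum fun p hp => mul_le_mul_of_nonneg_left (hX p hp) (hw0 p hp)
      _ = ∑ p ∈ P, (w p * (K / 8 + C1 * u) + C1 * (1 / W * ∑ v ∈ V p, len v)) := by
          apply Finset.sum_congr rfl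
          intro p hp
          have hp0 : (p : ℝ) ≠ 0 := by exact_mod_cast (hP p hp).1.ne_zero
          simp only [hw]
          field_simp
          ring
      _ = (∑ p ∈ P, w p) * (K / 8 + C1 * u) +
          C1 * (1 / W * ∑ p ∈ P, ∑ v ∈ V p, len v) := by
          rw [Finset.sum_add_distrib, Finset.sum_mul, ← Finset.mul_sum, ← Finset.mul_sum]
      _ = _ := by rw [hw1, one_mul]
  have hDW : 1 / W * √(G * (W ^ 2 + W)) ≤ D := by
    have e1 : 1 / W * √(G * (W ^ 2 + W)) = √(G * (1 + 1 / W)) := by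
      have : G * (W ^ 2 + W) = W ^ 2 * (G * (1 + 1 / W)) := by
        field_simp
      rw [this, Real.sqrt_mul (by positivity), Real.sqrt_sq hWpos.le]
      field_simp
    rw [e1, hD]
    apply Real.sqrt_le_sqrt
    apply mul_le_mul_of_nonneg_left _ (by linarith)
    have := one_div_le_one_div_of_le hcW hW
    linarith
  have hsum : 1 / W * ∑ p ∈ P, ∑ v ∈ V p, len v ≤ D * √(G * u + β) := by
    calc 1 / W * ∑ p ∈ P, ∑ v ∈ V p, len v ≤
        1 / W * (√(G * (W ^ 2 + W)) * √(G * u + β)) :=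
          mul_le_mul_of_nonneg_left hbad (by positivity)
      _ = (1 / W * √(G * (W ^ 2 + W))) * √(G * u + β) := by ring
      _ ≤ _ := mul_le_mul_of_nonneg_right hDW (Real.sqrt_nonneg _)
  -- the Fourier part
  set δ : ℝ := Real.log ((N ^ 5 : ℕ) : ℝ) / ((Real.log N) ^ 2 * Real.log ((Real.log N) ^ 2)) / cW
    with hδ
  have hlogP0 : 0 < Real.log ((Real.log N) ^ 2) := Real.log_pos (by linarith)
  have hlogF : 0 ≤ Real.log ((N ^ 5 : ℕ) : ℝ) := by
    apply Real.log_nonneg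
    exact_mod_cast Nat.one_le_pow _ _ hN'
  have hδ0 : 0 ≤ δ := by
    rw [hδ]
    positivity
  have hxs := xs_avg K N hK hN' Φ (by
      intro h hh
      by_cases hPe : P.Nonempty
      · obtain ⟨p, hp⟩ := hPe
        exact (hphi p hp).pm h hh
      · rw [Finset.not_nonempty_iff_eq_empty] at hPe
        rw [hPe] at hw1
        simp at hw1) P w (fun p => p * m) hw0 hw1
    (fun i hi => Nat.one_le_iff_ne_zero.mpr (Nat.mul_ne_zero (hP i hi).1.ne_zero (by omega)))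
    δ hδ0 (N ^ 5) (Nat.one_le_pow _ _ hN') (by
      intro k hk hkF
      have hfew := few_primes P ((Real.log N) ^ 2) hL2 (fun p hp => ⟨(hP p hp).1, (hP p hp).2.1⟩)
        k (N ^ 5) hk hkF
      calc ∑ i ∈ P.filter (fun i => i * m ∣ k), w i ≤ ∑ i ∈ P.filter (fun i => i ∣ k), w i := by
            apply Finset.sum_le_sum_of_subset_of_nonneg
            · intro i hi
              rw [Finset.mem_filter] at hi ⊢
              exact ⟨hi.1, dvd_trans (Dvd.intro _ rfl) hi.2⟩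
            · intro i hi _
              exact hw0 i (Finset.mem_filter.mp hi).1
        _ = (∑ i ∈ P.filter (fun i => i ∣ k), (1 : ℝ) / i) / W := by
            rw [Finset.sum_div]
        _ ≤ (Real.log ((N ^ 5 : ℕ) : ℝ) / ((Real.log N) ^ 2 * Real.log ((Real.log N) ^ 2))) / W :=
            div_le_div_of_nonneg_right hfew hWpos.le
        _ ≤ δ := by
            rw [hδ]
            exact div_le_div_of_nonneg_left (by positivity) hcW hW)
  have hK2 : (K : ℝ) / 2 ≤ (K : ℝ) * (1 - √(δ + 2 * ((K : ℝ) * (N : ℝ) ^ 2) ^ 2 /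
      ((N ^ 5 : ℕ) : ℝ))) := by
    nlinarith
  have hmain : (K : ℝ) / 8 ≤ C1 * u + C1 * (D * √(G * u + β)) := by
    have h3 := mul_le_mul_of_nonneg_left hsum (by linarith : 0 ≤ C1)
    have h4 := le_trans hK2 hxs
    have h5 := havg
    linarith
  -- the final inequality
  have hx0 : 0 ≤ u + β := by linarith
  have hGu : √(G * u + β) ≤ √G * √(u + β) := by
    rw [← Real.sqrt_mul (by linarith)]
    apply Real.sqrt_le_sqrt
    nlinarith
  apply Ta_low ((K : ℝ) / 8) A (by positivity) hApos (u + β) hx0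
  calc (K : ℝ) / 8 ≤ C1 * u + C1 * (D * √(G * u + β)) := hmain
    _ ≤ C1 * (u + β) + C1 * (D * (√G * √(u + β))) := by
        have e1 : C1 * u ≤ C1 * (u + β) := mul_le_mul_of_nonneg_left (by linarith) (by linarith)
        have e2 : C1 * (D * √(G * u + β)) ≤ C1 * (D * (√G * √(u + β))) :=
          mul_le_mul_of_nonneg_left (mul_le_mul_of_nonneg_left hGu hDpos) (by linarith)
        linarith
    _ ≤ A * (u + β) + A * √(u + β) := by
        have hs0 : 0 ≤ √(u + β) := Real.sqrt_nonneg _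
        have hc : 0 ≤ C1 * D * √G := by positivity
        have hA1 : C1 ≤ A := by linarith
        have hA2 : C1 * D * √G ≤ A := by linarith
        have e1 := mul_le_mul_of_nonneg_right hA1 hx0
        have e2 := mul_le_mul_of_nonneg_right hA2 hs0
        calc C1 * (u + β) + C1 * (D * (√G * √(u + β))) =
            C1 * (u + β) + C1 * D * √G * √(u + β) := by ring
          _ ≤ _ := by linarith

end Pool.Agent.CQF
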