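import Pool.Agent.CQF.Msr

set_option autoImplicit false

/-!
# Module Ub (size 4): the unstable set is small if few splits change `Φ`

Let `s ∈ Ust \ Eun`: there are nodes `h, h'` of the window containing `s` with `Φ h ≠ Φ h'`.
By `fa_win` they have orders `M, M' ∈ [N1, N2]`; let `h_N` be the unique node of order `N` containing `s`
(`fa_exists`, `fa_unique`); `h = h_M`, `h' = h_{M'}`. So for some `N1 ≤ N < N2`, `Φ (h_N) ≠ Φ (h_{N+1})`, and by
`fa_succ` (and uniqueness) `c + d = N + 1` for `h_N` and `h_{N+1} ∈ {h_N Lm, h_N Um}`, so `Chg Φ h_N`;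
`h_N ∈ ndw K N1 N2` (by `fa_lt`), `N1 < c + d = N + 1 ≤ N2`, and `h_N` is `A`-balanced because `s ∉ Eun`.
So `Ust ⊆ Eun ∪ ⋃ J h` over the `A`-balanced `h` of the finset `T` below, and for balanced `h`,
`len h = 1/(cd) ≤ (A + 3)/(c+d)^2` since `(c+d)^2/(cd) = c/d + d/c + 2 ≤ A + 1 + 2`
(if `c ≤ d` then `c/d ≤ 1`, `d/c ≤ A`).
-/

open MeasureTheory

namespace Pool.Agent.CQF

private theorem Ub_key (Φ : M2 → ℝ) {N1 N2 : ℕ} (h1 : 1 ≤ N1) {s : ℝ} (hs : 0 < s)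
    (hi : Irrational s) {h h' : M2} {M M' : ℕ} (hN : N1 ≤ M) (hM : M ≤ N2) (hN' : N1 ≤ M')
    (hM' : M' ≤ N2) (hh : IsNd h) (hh' : IsNd h') (hw : Win M M h) (hw' : Win M' M' h')
    (hsJ : s ∈ J h) (hsJ' : s ∈ J h') (hne : Φ h ≠ Φ h') :
    ∃ (N : ℕ) (g : M2), N1 ≤ N ∧ N + 1 ≤ N2 ∧ IsNd g ∧ Win N N g ∧ s ∈ J g ∧
      g 1 0 + g 1 1 = N + 1 ∧ Chg Φ g := by
  classical
  have hex : ∀ N : ℕ, ∃ g : M2, 1 ≤ N → IsNd g ∧ Win N N g ∧ s ∈ J g := by
    intro N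
    by_cases hN1 : 1 ≤ N
    · obtain ⟨g, hg⟩ := fa_exists hN1 hs hi
      exact ⟨g, fun _ => hg⟩
    · exact ⟨0, fun h => absurd h hN1⟩
  choose g hg using hex
  by_contra hcon
  push Not at hcon
  have hstep : ∀ N, N1 ≤ N → N + 1 ≤ N2 → Φ (g (N + 1)) = Φ (g N) := by
    intro N hN1 hN2
    obtain ⟨a1, a2, a3⟩ := hg N (by omega)
    obtain ⟨b1, b2, b3⟩ := hg (N + 1) (by omega)
    obtain ⟨g', c1, c2, c3, c4⟩ := fa_succ a1 a2 a3 hi
    have hgg : g (N + 1) = g' := fa_unique b1 c1 b2 c2 b3 c3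
    rw [hgg]
    rcases c4 with c4 | ⟨c4, c5⟩
    · rw [c4]
    · have hnc := hcon N (g N) hN1 hN2 a1 a2 a3 c4
      unfold Chg at hnc
      push Not at hnc
      rcases c5 with c5 | c5
      · rw [c5]; exact hnc.1
      · rw [c5]; exact hnc.2
  have hall : ∀ k, N1 + k ≤ N2 → Φ (g (N1 + k)) = Φ (g N1) := by
    intro k
    induction k with
    | zero => intro _; rfl
    | succ k ih =>
      intro hk
      rw [← ih (by omega), ← hstep (N1 + k) (by omega) (by omega)]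
      rfl
  have e1 : h = g M := by
    obtain ⟨a1, a2, a3⟩ := hg M (by omega)
    exact fa_unique hh a1 hw a2 hsJ a3
  have e2 : h' = g M' := by
    obtain ⟨a1, a2, a3⟩ := hg M' (by omega)
    exact fa_unique hh' a1 hw' a2 hsJ' a3
  apply hne
  rw [e1, e2]
  have f1 := hall (M - N1) (by omega)
  have f2 := hall (M' - N1) (by omega)
  rw [show N1 + (M - N1) = M by omega] at f1
  rw [show N1 + (M' - N1) = M' by omega] at f2
  rw [f1, f2]

private theorem Ub_len {h : M2} (hh : IsNd h) {A : ℝ} (hb : Bal A h) :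
    len h ≤ (A + 3) * (1 / ((h 1 0 : ℝ) + h 1 1) ^ 2) := by
  have hc : (0 : ℝ) < h 1 0 := by exact_mod_cast hh.c0
  have hd : (0 : ℝ) < h 1 1 := by exact_mod_cast hh.d0
  obtain ⟨b1, b2⟩ := hb
  unfold len
  rw [mul_one_div, div_le_div_iff₀ (by positivity) (by positivity), one_mul]
  rcases le_total (h 1 0 : ℝ) (h 1 1) with hle | hle
  · nlinarith [mul_le_mul_of_nonneg_left hle hc.le, mul_le_mul_of_nonneg_right b2 hd.le]
  · nlinarith [mul_le_mul_of_nonneg_left hle hd.le, mul_le_mul_of_nonneg_right b1 hc.le]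

theorem ust_le (Φ : M2 → ℝ) (K N1 N2 : ℕ) (hK : 1 ≤ K) (h1 : 1 ≤ N1) (h12 : N1 ≤ N2) (A : ℝ)
    (hA : 1 ≤ A) (T : Finset M2)
    (hT : ∀ h, h ∈ T ↔ h ∈ ndw K N1 N2 ∧ Chg Φ h ∧ (N1 : ℤ) < h 1 0 + h 1 1 ∧
      h 1 0 + h 1 1 ≤ (N2 : ℤ)) :
    (mu K).real (Ust Φ K N1 N2) ≤ (mu K).real (Eun K N1 N2 A) +
      (A + 3) * ∑ h ∈ T, 1 / ((h 1 0 : ℝ) + h 1 1) ^ 2 := by
  classical
  set Tb := T.filter (fun h => Bal A h) with hTb
  have hsub : Ust Φ K N1 N2 ⊆ Eun K N1 N2 A ∪ ⋃ h ∈ Tb, J h := by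
    rintro s ⟨hs0, hsK, hi, h, hh, h', hh', hsJ, hsJ', hne⟩
    by_cases hE : s ∈ Eun K N1 N2 A
    · exact Or.inl hE
    · right
      rw [mem_ndw hK] at hh hh'
      obtain ⟨M, m1, m2, m3⟩ := fa_win h12 hh.1 hh.2.1
      obtain ⟨M', m1', m2', m3'⟩ := fa_win h12 hh'.1 hh'.2.1
      obtain ⟨N, g, g1, g2, g3, g4, g5, g6, g7⟩ := Ub_key Φ h1 hs0 hi m1 m2 m1' m2' hh.1 hh'.1
        m3 m3' hsJ hsJ' hne
      have hgn : g ∈ ndw K N1 N2 := by
        rw [mem_ndw hK]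
        exact ⟨g3, win_mono g1 (by omega) g4, fa_lt g3 g5 hsK⟩
      have hgT : g ∈ T := by
        rw [hT]
        refine ⟨hgn, g7, ?_, ?_⟩
        · rw [g6]
          have : (N1 : ℤ) ≤ N := by exact_mod_cast g1
          omega
        · rw [g6]
          exact_mod_cast g2
      simp only [Set.mem_iUnion]
      refine ⟨g, ?_, g5⟩
      rw [hTb, Finset.mem_filter]
      refine ⟨hgT, ?_⟩
      by_contra hb
      exact hE ⟨hs0, hsK, hi, g, hgn, g5, hb⟩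
  have h2 : (mu K).real (Ust Φ K N1 N2) ≤ (mu K).real (Eun K N1 N2 A) +
      ∑ h ∈ Tb, (mu K).real (J h) := by
    calc (mu K).real (Ust Φ K N1 N2) ≤ (mu K).real (Eun K N1 N2 A ∪ ⋃ h ∈ Tb, J h) :=
          measureReal_mono hsub
      _ ≤ (mu K).real (Eun K N1 N2 A) + (mu K).real (⋃ h ∈ Tb, J h) :=
          measureReal_union_le _ _
      _ ≤ _ := by
          gcongr
          exact measureReal_biUnion_finset_le _ _
  refine h2.trans ?_
  refine add_le_add le_rfl ?_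
  have h3 : ∑ h ∈ Tb, (mu K).real (J h) ≤
      ∑ h ∈ Tb, (A + 3) * (1 / ((h 1 0 : ℝ) + h 1 1) ^ 2) := by
    apply Finset.sum_le_sum
    intro h hh
    rw [hTb, Finset.mem_filter, hT] at hh
    rw [mu_J hK hh.1.1]
    exact Ub_len ((mem_ndw hK).1 hh.1.1).1 hh.2
  refine h3.trans ?_
  rw [← Finset.mul_sum]
  apply mul_le_mul_of_nonneg_left _ (by linarith)
  apply Finset.sum_le_sum_of_subset_of_nonneg
  · exact Finset.filter_subset _ _
  · intro h _ _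
    positivity

end Pool.Agent.CQF
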