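import Pool.Agent.CQF.Ivc
import Pool.Agent.CQF.Ggb
import Pool.Agent.CQF.Sbv
import Pool.Agent.CQF.Sfb
import Pool.Agent.CQF.Ta
import Pool.Agent.CQF.Ub

set_option autoImplicit false

/-!
# Module Ea (size 5): lower bound for the mass of the base set in every window

Given `Inv X0 D (Tk k) 1`. `K0 = 24 k² |D|`; `exists_sec K0` gives `rr, Rg`;
`supply` gives `K, ζ, c1, c2, cW, Δ`; `absA K 2 ζ c1 c2 cW` gives `ε0, C, N0`; `chg_le` and `bds_le` (`ρ = c2/c1`) give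
`Gam1, A1`, `Gam2, A2`; by `gamma_inv` every `γ ∈ Gam1 ∪ Gam2` satisfies `Inv X0 D γ 1` with some constant.
For large `N`, `N2 = ⌊N (log N)^C⌋₊`: take `m, H0, P, ρ, δ` from `supply`, `M p = km D (ρ p) * δ p`, `Φ = Phi D rr`,
`Bd = Bds D rr Δ`; `phi_ok` gives `PhiOk`; `absA`: `ε0 ≤ mu K (Ust Φ K N N2) + β`.
`ust_le` with `A' = L · loglog N` (`L` a large constant, such that `eun_le` gives `mu K (Eun K N N2 A') ≤ ε0/2`:
`4 K (2 + log (2 N2/N))/A' ≤ 4 K (3 + C loglog N)/A'`), and `chg_le` for the finset `T` of `ust_le`: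
`ε0/2 ≤ (A' + 3) A1 ∑_{Gam1} ms (Dst γ 1) (N/A1) (A1 N2) + A2 ∑_{Gam2} ms (Dst γ 1) (N/A2) (A2 N2)`
`≤ (A' + 4) A'' ms X0 (N/A'') (A'' N2)` (`Inv`, `ms_mono`; the windows are `≥ 1` at the bottom for `N` large).
Hence `ms X0 (N/A'') (A'' N (log N)^C) ≥ ε0/(2 A'' (A' + 4)) ≥ c/loglog N`.
-/

open Matrix MeasureTheory

namespace Pool.Agent.CQF

/-- a uniform constant for finitely many elements of the approximate invariance group -/
private theorem ea_unif {X0 : Set (Fin 2 → ℤ)} {D : ℤ} (G : Finset M2)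
    (hG : ∀ γ ∈ G, Inv X0 D γ 1) : ∃ A : ℝ, 1 ≤ A ∧ ∀ γ ∈ G, ∀ N1 N2 : ℝ, 1 ≤ N1 → N1 ≤ N2 →
      ms (Dst D γ 1) N1 N2 ≤ A * ms X0 (N1 / A) (A * N2) := by
  classical
  induction G using Finset.induction_on with
  | empty => exact ⟨1, le_refl _, fun γ hγ => absurd hγ (Finset.notMem_empty γ)⟩
  | insert a s ha ih =>
    obtain ⟨A1, hA1, h1⟩ := ih fun γ hγ => hG γ (Finset.mem_insert_of_mem hγ)
    obtain ⟨A2, hA2, h2⟩ := (hG a (Finset.mem_insert_self a s)).2.2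
    refine ⟨max A1 A2, le_max_of_le_left hA1, ?_⟩
    intro γ hγ N1 N2 hN1 hN12
    have key : ∀ A : ℝ, 1 ≤ A → A ≤ max A1 A2 →
        ms (Dst D γ 1) N1 N2 ≤ A * ms X0 (N1 / A) (A * N2) →
        ms (Dst D γ 1) N1 N2 ≤ max A1 A2 * ms X0 (N1 / max A1 A2) (max A1 A2 * N2) := by
      intro A hA hAm hle
      refine hle.trans ?_
      have hm1 : (1 : ℝ) ≤ max A1 A2 := hA.trans hAm
      apply mul_le_mul hAm _ (ms_nonneg _ _ _) (by linarith)
      apply ms_mono (fun v _ hv => hv)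
      · apply div_le_div_of_nonneg_left (by linarith) (by linarith) hAm
      · apply mul_le_mul_of_nonneg_right hAm (by linarith)
    rcases Finset.mem_insert.1 hγ with hγ | hγ
    · subst hγ
      exact key A2 hA2 (le_max_right _ _) (h2 N1 N2 hN1 hN12)
    · exact key A1 hA1 (le_max_left _ _) (h1 γ hγ N1 N2 hN1 hN12)

/-- sums of masses over a finite set of group elements -/
private theorem ea_sum {X0 : Set (Fin 2 → ℤ)} {D : ℤ} (G : Finset M2) (A1 A3 W M1 M2 : ℝ)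
    (hA1 : 1 ≤ A1) (hA3 : 1 ≤ A3)
    (h3 : ∀ γ ∈ G, ∀ N1 N2 : ℝ, 1 ≤ N1 → N1 ≤ N2 →
      ms (Dst D γ 1) N1 N2 ≤ A3 * ms X0 (N1 / A3) (A3 * N2))
    (hM1 : A1 ≤ M1) (hM12 : M1 ≤ M2) (hW : A1 * A3 ≤ W) :
    A1 * ∑ γ ∈ G, ms (Dst D γ 1) (M1 / A1) (A1 * M2) ≤
      A1 * (G.card * A3) * ms X0 (M1 / W) (W * M2) := by
  have hA10 : 0 < A1 := by linarith
  have hA30 : 0 < A3 := by linarith
  have hM10 : 0 < M1 := by linarith
  have hM20 : 0 < M2 := by linarith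
  have hterm : ∀ γ ∈ G, ms (Dst D γ 1) (M1 / A1) (A1 * M2) ≤ A3 * ms X0 (M1 / W) (W * M2) := by
    intro γ hγ
    have h1 : 1 ≤ M1 / A1 := by rw [le_div_iff₀ hA10]; linarith
    have h2 : M1 / A1 ≤ A1 * M2 := by
      rw [div_le_iff₀ hA10]
      have e1 : M2 ≤ A1 * M2 := le_mul_of_one_le_left hM20.le hA1
      have e2 : A1 * M2 ≤ A1 * M2 * A1 := le_mul_of_one_le_right (by positivity) hA1
      linarith
    refine (h3 γ hγ _ _ h1 h2).trans ?_
    apply mul_le_mul_of_nonneg_left _ hA30.le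
    apply ms_mono (fun v _ hv => hv)
    · rw [div_div]
      exact div_le_div_of_nonneg_left hM10.le (by positivity) hW
    · calc A3 * (A1 * M2) = (A1 * A3) * M2 := by ring
        _ ≤ W * M2 := mul_le_mul_of_nonneg_right hW hM20.le
  calc _ ≤ A1 * ∑ _γ ∈ G, A3 * ms X0 (M1 / W) (W * M2) :=
        mul_le_mul_of_nonneg_left (Finset.sum_le_sum hterm) hA10.le
    _ = _ := by
      rw [Finset.sum_const, nsmul_eq_mul]
      ring

theorem window_of_Tk (hQ : AllQ) (hM : MertAP) (X0 : Set (Fin 2 → ℤ)) (D : ℤ) (hD : ¬ IsSquare D)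
    (k : ℕ) (hk1 : 1 ≤ k) (hk : Inv X0 D (Tk k) 1) :
    ∃ (c A : ℝ) (C N0 : ℕ), 0 < c ∧ 1 ≤ A ∧ ∀ N : ℕ, N0 ≤ N →
      c / Real.log (Real.log N) ≤ ms X0 ((N : ℝ) / A) (A * ((N : ℝ) * (Real.log N) ^ C)) := by
  classical
  have hD0 : D ≠ 0 := by
    rintro rfl
    exact hD ⟨0, by norm_num⟩
  have hK0 : 1 ≤ 24 * k ^ 2 * D.natAbs := by
    have h1 : 0 < D.natAbs := Int.natAbs_pos.2 hD0
    have h2 : 0 < 24 * k ^ 2 * D.natAbs := by positivity
    exact h2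
  have hgi : ∀ γ : M2, D1 γ ∧ Cg (24 * k ^ 2 * D.natAbs) γ 1 → Inv X0 D γ 1 :=
    fun γ hγ => gamma_inv hD hk1 hk hγ.1 hγ.2
  generalize 24 * k ^ 2 * D.natAbs = K0 at hK0 hgi
  obtain ⟨rr, Rg, hr⟩ := exists_sec K0 hK0
  obtain ⟨K, ζ, c1', c2', cW, Δ, hK, hK0K, hζ0, hζ1, hc1, hc12, hcW, hΔ, N0s, hsup⟩ :=
    supply hQ hM D hD K0 hK0
  obtain ⟨ε0, hε0, C, N0a, habs⟩ := absA K 2 hK (by norm_num) ζ c1' c2' cW hζ0 hζ1 hc1 hc12 hcW
  obtain ⟨Gam1, A1, hA1, hG1, hchg⟩ := chg_le D hD K0 K hK0 hK rr Rg hr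
  have hρ : 1 ≤ c2' / c1' := by rw [le_div_iff₀ hc1]; linarith
  obtain ⟨Gam2, A2, hA2, hG2, hbds⟩ := bds_le D hD K0 K hK0 hK rr Rg hr Δ hΔ (c2' / c1') hρ
  obtain ⟨A3, hA3, hun⟩ := ea_unif (X0 := X0) (D := D) (Gam1 ∪ Gam2) (by
    intro γ hγ
    rcases Finset.mem_union.1 hγ with h | h
    · exact hgi γ (hG1 γ h)
    · exact hgi γ (hG2 γ h))
  have hA10 : 0 < A1 := by linarith
  have hA20 : 0 < A2 := by linarith
  have hA30 : 0 < A3 := by linarith
  have hK0' : (0 : ℝ) < K := by exact_mod_cast hK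
  set W : ℝ := A1 * A2 * A3 with hW
  have hW13 : A1 * A3 ≤ W := by
    rw [hW]
    have : A1 * A3 ≤ A2 * (A1 * A3) := le_mul_of_one_le_left (by positivity) hA2
    linarith [this, mul_comm A2 (A1 * A3), mul_assoc A1 A3 A2, mul_comm A3 A2, mul_assoc A1 A2 A3]
  have hW23 : A2 * A3 ≤ W := by
    rw [hW, mul_assoc]
    exact le_mul_of_one_le_left (by positivity) hA1
  have hW1 : 1 ≤ W := by
    have : 1 ≤ A2 * A3 := one_le_mul_of_one_le_of_one_le hA2 hA3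
    linarith
  have hW0 : 0 < W := by linarith
  set L : ℝ := 8 * K * (3 + C) / ε0 + 1 with hL
  have hL1 : 1 ≤ L := by
    rw [hL]
    have : 0 ≤ 8 * (K : ℝ) * (3 + C) / ε0 := by positivity
    linarith
  set Gc : ℝ := A1 * (Gam1.card * A3) + A2 * (Gam2.card * A3) with hGc
  have hGc0 : 0 ≤ Gc := by positivity
  refine ⟨ε0 / (2 * ((Gc + 1) * (L + 4))), W, C,
    max (max N0s N0a) (max (max ⌈A1⌉₊ ⌈A2⌉₊) ⌈Real.exp (Real.exp 1)⌉₊), by positivity, hW1, ?_⟩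
  intro N hN
  have hNs : N0s ≤ N := le_trans (le_trans (le_max_left _ _) (le_max_left _ _)) hN
  have hNa : N0a ≤ N := le_trans (le_trans (le_max_right _ _) (le_max_left _ _)) hN
  have hN1 : A1 ≤ N := le_trans (Nat.le_ceil _) (by
    exact_mod_cast le_trans (le_trans (le_trans (le_max_left _ _) (le_max_left _ _))
      (le_max_right _ _)) hN)
  have hN2 : A2 ≤ N := le_trans (Nat.le_ceil _) (by
    exact_mod_cast le_trans (le_trans (le_trans (le_max_right _ _) (le_max_left _ _))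
      (le_max_right _ _)) hN)
  have hNe : Real.exp (Real.exp 1) ≤ N := le_trans (Nat.le_ceil _) (by
    exact_mod_cast le_trans (le_trans (le_max_right _ _) (le_max_right _ _)) hN)
  have hNr : (1 : ℝ) ≤ N := le_trans hA1 hN1
  have hNn : 1 ≤ N := by exact_mod_cast hNr
  have hN0 : (0 : ℝ) < N := by linarith
  have hlog : Real.exp 1 ≤ Real.log N := by
    rw [Real.le_log_iff_exp_le hN0]
    exact hNe
  have hlog1 : 1 ≤ Real.log N := by
    have := Real.add_one_le_exp (1 : ℝ)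
    linarith
  have hll : 1 ≤ Real.log (Real.log N) := by
    rw [Real.le_log_iff_exp_le (by linarith)]
    exact hlog
  set ℓ : ℝ := Real.log (Real.log N) with hℓ
  set N2 : ℕ := ⌊(N : ℝ) * (Real.log N) ^ C⌋₊ with hN2def
  have hpow1 : 1 ≤ (Real.log N) ^ C := one_le_pow₀ hlog1
  have hN2le : (N2 : ℝ) ≤ (N : ℝ) * (Real.log N) ^ C := Nat.floor_le (by positivity)
  have hNN2 : N ≤ N2 := by
    apply Nat.le_floor
    exact le_mul_of_one_le_right hN0.le hpow1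
  obtain ⟨m, H0, P, ρ, δ, hm1, hmK, hH0, hH1, hlm, hP, hPW, hPd⟩ := hsup N hNs
  have hab := habs N hNa m H0 P (fun p => km D (ρ p) * δ p) (Phi D rr) (Bds D rr Δ) hm1 hmK hH0 hP
    hPW (fun p hp => (hPd p hp).2.2.2.2) (fun p hp => phi_ok D hD K0 K hK0 hK hK0K rr Rg hr Δ hΔ H0
      hH0 hH1 p m (hP p hp).1 hm1 hlm (ρ p) (hPd p hp).2.1 (hPd p hp).2.2.1 (hPd p hp).2.2.2.1
      (δ p) (hPd p hp).1)
  rw [← hN2def] at hab
  set Y : ℝ := ms X0 ((N : ℝ) / W) (W * ((N : ℝ) * (Real.log N) ^ C)) with hY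
  have hY0 : 0 ≤ Y := ms_nonneg _ _ _
  -- the parameter `A'`
  set A' : ℝ := L * ℓ with hA'
  have hA'1 : 1 ≤ A' := one_le_mul_of_one_le_of_one_le hL1 hll
  have hYm : ms X0 ((N : ℝ) / W) (W * (N2 : ℝ)) ≤ Y := by
    apply ms_mono (fun v _ hv => hv) (le_refl _)
    exact mul_le_mul_of_nonneg_left hN2le hW0.le
  have hNN2r : (N : ℝ) ≤ (N2 : ℝ) := by exact_mod_cast hNN2
  -- the unstable set
  set T : Finset M2 := (ndw K N N2).filter (fun h => Chg (Phi D rr) h ∧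
    (N : ℤ) < h 1 0 + h 1 1 ∧ h 1 0 + h 1 1 ≤ (N2 : ℤ)) with hT
  have hTm : ∀ h, h ∈ T ↔ h ∈ ndw K N N2 ∧ Chg (Phi D rr) h ∧ (N : ℤ) < h 1 0 + h 1 1 ∧
      h 1 0 + h 1 1 ≤ (N2 : ℤ) := by
    intro h
    rw [hT, Finset.mem_filter]
  have hust := ust_le (Phi D rr) K N N2 hK hNn hNN2 A' hA'1 T hTm
  have hchg' : ∑ h ∈ T, 1 / ((h 1 0 : ℝ) + h 1 1) ^ 2 ≤ A1 * (Gam1.card * A3) * Y := by
    refine (hchg N N2 T hNn hNN2 fun h hh => (hTm h).1 hh).trans ?_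
    refine (ea_sum (X0 := X0) Gam1 A1 A3 W N N2 hA1 hA3
      (fun γ hγ => hun γ (Finset.mem_union_left _ hγ)) hN1 hNN2r hW13).trans ?_
    exact mul_le_mul_of_nonneg_left hYm (by positivity)
  have hbds' : ∑ v ∈ (ndw K N N2).filter (fun v => v ∈ Bds D rr Δ ∧ Bal (c2' / c1') v), len v ≤
      A2 * (Gam2.card * A3) * Y := by
    refine le_trans (le_of_eq ?_) ((hbds N N2 hNn hNN2).trans ?_)
    · congr
    · refine (ea_sum (X0 := X0) Gam2 A2 A3 W N N2 hA2 hA3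
        (fun γ hγ => hun γ (Finset.mem_union_right _ hγ)) hN2 hNN2r hW23).trans ?_
      exact mul_le_mul_of_nonneg_left hYm (by positivity)
  have heun := eun_le K N N2 hK hNn hNN2 A' hA'1
  have heun2 : (mu K).real (Eun K N N2 A') ≤ ε0 / 2 := by
    refine heun.trans ?_
    have h1 : Real.log (2 * N2 / N) ≤ 1 + C * ℓ := by
      have h2 : (2 * N2 / N : ℝ) ≤ 2 * (Real.log N) ^ C := by
        rw [div_le_iff₀ hN0]
        linarith
      have h3 : (0 : ℝ) < 2 * N2 / N := by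
        have : (0 : ℝ) < N2 := by linarith
        positivity
      calc Real.log (2 * N2 / N) ≤ Real.log (2 * (Real.log N) ^ C) := Real.log_le_log h3 h2
        _ = Real.log 2 + C * ℓ := by
          rw [Real.log_mul (by norm_num) (by positivity), Real.log_pow]
        _ ≤ 1 + C * ℓ := by
          have := Real.log_two_lt_d9
          linarith
    have h2 : 2 + Real.log (2 * N2 / N) ≤ (3 + C) * ℓ := by
      have : (3 : ℝ) ≤ 3 * ℓ := by linarith
      calc 2 + Real.log (2 * N2 / N) ≤ 3 + C * ℓ := by linarith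
        _ ≤ 3 * ℓ + C * ℓ := by linarith
        _ = _ := by ring
    have hℓ0 : 0 < ℓ := by linarith
    have hL0 : 0 < L := by linarith
    rw [div_le_iff₀ (by positivity)]
    calc 4 * (K : ℝ) * (2 + Real.log (2 * N2 / N)) ≤ 4 * K * ((3 + C) * ℓ) :=
          mul_le_mul_of_nonneg_left h2 (by positivity)
      _ = ε0 / 2 * (8 * K * (3 + C) / ε0 * ℓ) := by
        field_simp
        ring
      _ ≤ ε0 / 2 * (L * ℓ) := by
        apply mul_le_mul_of_nonneg_left _ (by positivity)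
        apply mul_le_mul_of_nonneg_right _ hℓ0.le
        rw [hL]
        linarith
  -- conclusion
  have hfin : ε0 / 2 ≤ (Gc + 1) * (L + 4) * ℓ * Y := by
    have h1 : (A' + 3) * ∑ h ∈ T, 1 / ((h 1 0 : ℝ) + h 1 1) ^ 2 ≤
        (A' + 3) * (A1 * (Gam1.card * A3) * Y) := mul_le_mul_of_nonneg_left hchg' (by linarith)
    have h2 : ε0 / 2 ≤ (A' + 3) * (A1 * (Gam1.card * A3) * Y) + A2 * (Gam2.card * A3) * Y := by
      linarith
    have h3 : A2 * (Gam2.card * A3) * Y ≤ (A' + 3) * (A2 * (Gam2.card * A3) * Y) :=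
      le_mul_of_one_le_left (by positivity) (by linarith)
    have h4 : (A' + 3) * (A1 * (Gam1.card * A3) * Y) + (A' + 3) * (A2 * (Gam2.card * A3) * Y) =
        (A' + 3) * (Gc * Y) := by
      rw [hGc]; ring
    have h5 : A' + 3 ≤ (L + 4) * ℓ := by
      rw [hA', add_mul]
      linarith
    calc ε0 / 2 ≤ (A' + 3) * (Gc * Y) := by linarith
      _ ≤ (L + 4) * ℓ * ((Gc + 1) * Y) := by
        apply mul_le_mul h5 _ (by positivity) (by positivity)
        apply mul_le_mul_of_nonneg_right (by linarith) hY0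
      _ = _ := by ring
  have hℓ0 : 0 < ℓ := by linarith
  rw [div_div, div_le_iff₀ (by positivity)]
  calc ε0 = 2 * (ε0 / 2) := by ring
    _ ≤ 2 * ((Gc + 1) * (L + 4) * ℓ * Y) := mul_le_mul_of_nonneg_left hfin (by norm_num)
    _ = _ := by ring

end Pool.Agent.CQF
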