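import Pool.Agent.CQF.Msr

set_option autoImplicit false

/-!
# Module Eb (size 4): few points lie in unbalanced nodes

`E = Eun K N1 N2 A`. Let `s ∈ E`, `s ∈ J h = (b/d, a/c)`, `c, d ≤ N2`, `c + d > N1`, `h` not `A`-balanced.
Case 1: `d > A c` (the negation of the second inequality in `Bal`). Then `c < d / A ≤ N2 / A`, and `d ≥ c`
so `d > N1 / 2`; also `0 < a ≤ K c`. So `s ∈ (a/c - 1/(c D_c), a/c)` with `D_c = max (A c) (N1 / 2)`
(as `a/c - b/d = 1/(cd)` and `d ≥ D_c`).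
Case 2: `c > A d`: `s ∈ (b/d, b/d + 1/(d D_d))`, `0 ≤ b < K d`, `d < N2 / A`.
So the measure is at most `2 ∑_{1 ≤ c < N2/A} K c · 1/(c D_c) = 2 K ∑_{1 ≤ c ≤ N2/A} 1 / max (A c) (N1/2)`.
The summand is nonincreasing in `c`, so the sum is at most the integral over `[0, N2/A]`, which is
`(1/A)(1 + log (2 N2/N1))`. (Or directly: the terms with `A c ≤ N1/2` contribute at most
`(N1/(2A)) (2/N1) = 1/A`; the others at most `(1/A) ∑_{N1/(2A) < c ≤ N2/A} 1/c ≤ (1/A)(1 + log(2 N2/N1) + 1)`.)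
There is room: the constant claimed is `4` and `2 + log`.
-/

open MeasureTheory

namespace Pool.Agent.CQF

private lemma Eb_harm (m n : ℕ) (hm : 1 ≤ m) (hmn : m ≤ n) :
    ∑ c ∈ Finset.Icc m n, 1 / (c : ℝ) ≤ 1 + Real.log ((n : ℝ) / m) := by
  induction n, hmn using Nat.le_induction with
  | base =>
    have hm0 : (m : ℝ) ≠ 0 := by
      have : (0 : ℝ) < m := by exact_mod_cast hm
      exact this.ne'
    rw [Finset.Icc_self, Finset.sum_singleton, div_self hm0, Real.log_one, add_zero]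
    rw [div_le_one (by exact_mod_cast hm)]
    exact_mod_cast hm
  | succ n hmn ih =>
    have hm0 : (0 : ℝ) < m := by exact_mod_cast hm
    have hn0 : (0 : ℝ) < n := by exact_mod_cast (by omega : 0 < n)
    rw [← Finset.insert_Icc_right_eq_Icc_add_one (by omega), Finset.sum_insert (by simp)]
    have h1 : (1 : ℝ) / ((n + 1 : ℕ) : ℝ) ≤ Real.log (((n + 1 : ℕ) : ℝ) / m) - Real.log ((n : ℝ) / m) := by
      have h2 : Real.log ((n : ℝ) / ((n + 1 : ℕ) : ℝ)) ≤ (n : ℝ) / ((n + 1 : ℕ) : ℝ) - 1 :=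
        Real.log_le_sub_one_of_pos (by positivity)
      have h3 : (n : ℝ) / ((n + 1 : ℕ) : ℝ) - 1 = -(1 / ((n + 1 : ℕ) : ℝ)) := by
        push_cast
        field_simp
        ring
      have h4 : Real.log ((n : ℝ) / ((n + 1 : ℕ) : ℝ)) = Real.log n - Real.log ((n + 1 : ℕ) : ℝ) :=
        Real.log_div hn0.ne' (by positivity)
      have h5 : Real.log (((n + 1 : ℕ) : ℝ) / m) = Real.log ((n + 1 : ℕ) : ℝ) - Real.log m :=
        Real.log_div (by positivity) hm0.ne'
      have h6 : Real.log ((n : ℝ) / m) = Real.log n - Real.log m := Real.log_div hn0.ne' hm0.ne'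
      rw [h5, h6]
      linarith
    linarith

private lemma Eb_sum (N1 N2 n : ℕ) (h1 : 1 ≤ N1) (h12 : N1 ≤ N2) (A : ℝ) (hA : 1 ≤ A)
    (hn : (n : ℝ) ≤ N2 / A) :
    ∑ c ∈ Finset.Icc 1 n, 1 / max (A * c) ((N1 : ℝ) / 2) ≤ (2 + Real.log (2 * N2 / N1)) / A := by
  have hA0 : 0 < A := by linarith
  have hN1 : (0 : ℝ) < N1 := by exact_mod_cast h1
  have hN2 : (N1 : ℝ) ≤ N2 := by exact_mod_cast h12
  set m : ℕ := ⌊(N1 : ℝ) / (2 * A)⌋₊ with hmdef
  have hm1 : (m : ℝ) ≤ (N1 : ℝ) / (2 * A) := Nat.floor_le (by positivity)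
  have hm2 : (N1 : ℝ) / (2 * A) < m + 1 := Nat.lt_floor_add_one _
  have hlog : 0 ≤ Real.log (2 * N2 / N1) := by
    apply Real.log_nonneg
    rw [le_div_iff₀ hN1]
    linarith
  -- split
  have hsplit : ∑ c ∈ Finset.Icc 1 n, 1 / max (A * c) ((N1 : ℝ) / 2) ≤
      ∑ c ∈ Finset.Icc 1 m, 2 / (N1 : ℝ) + ∑ c ∈ Finset.Icc (m + 1) n, 1 / (A * (c : ℝ)) := by
    have hsub : Finset.Icc 1 n ⊆ Finset.Icc 1 m ∪ Finset.Icc (m + 1) n := by
      intro c hc
      simp only [Finset.mem_union, Finset.mem_Icc] at hc ⊢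
      omega
    have hdisj : Disjoint (Finset.Icc 1 m) (Finset.Icc (m + 1) n) := by
      rw [Finset.disjoint_left]
      intro c hc hc'
      simp only [Finset.mem_Icc] at hc hc'
      omega
    refine (Finset.sum_le_sum_of_subset_of_nonneg hsub (fun c _ _ => by positivity)).trans ?_
    rw [Finset.sum_union hdisj]
    refine add_le_add (Finset.sum_le_sum fun c hc => ?_) (Finset.sum_le_sum fun c hc => ?_)
    · have h3 : (1 : ℝ) / max (A * c) ((N1 : ℝ) / 2) ≤ 1 / ((N1 : ℝ) / 2) :=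
        one_div_le_one_div_of_le (by positivity) (le_max_right _ _)
      refine h3.trans (le_of_eq ?_)
      field_simp
    · have hc1 : 1 ≤ c := by
        rw [Finset.mem_Icc] at hc; omega
      have hc0 : (0 : ℝ) < c := by exact_mod_cast hc1
      exact one_div_le_one_div_of_le (by positivity) (le_max_left _ _)
  have hpart1 : ∑ c ∈ Finset.Icc 1 m, 2 / (N1 : ℝ) ≤ 1 / A := by
    rw [Finset.sum_const, Nat.card_Icc, nsmul_eq_mul]
    have : ((m + 1 - 1 : ℕ) : ℝ) = m := by norm_num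
    rw [this]
    calc (m : ℝ) * (2 / N1) ≤ (N1 : ℝ) / (2 * A) * (2 / N1) :=
          mul_le_mul_of_nonneg_right hm1 (by positivity)
      _ = 1 / A := by field_simp
  have hpart2 : ∑ c ∈ Finset.Icc (m + 1) n, 1 / (A * (c : ℝ)) ≤ (1 + Real.log (2 * N2 / N1)) / A := by
    have h3 : ∑ c ∈ Finset.Icc (m + 1) n, 1 / (A * (c : ℝ)) = (1 / A) * ∑ c ∈ Finset.Icc (m + 1) n, 1 / (c : ℝ) := by
      rw [Finset.mul_sum]
      refine Finset.sum_congr rfl fun c _ => ?_
      rw [one_div_mul_one_div]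
    rw [h3]
    rcases Nat.lt_or_ge n (m + 1) with h4 | h4
    · rw [Finset.Icc_eq_empty (by omega), Finset.sum_empty, mul_zero]
      positivity
    · have h5 := Eb_harm (m + 1) n (by omega) h4
      have h6 : Real.log ((n : ℝ) / ((m + 1 : ℕ) : ℝ)) ≤ Real.log (2 * N2 / N1) := by
        have hn0 : (0 : ℝ) < n := by exact_mod_cast (by omega : 0 < n)
        apply Real.log_le_log (by positivity)
        push_cast
        rw [div_le_div_iff₀ (by positivity) hN1]
        have h7 : (n : ℝ) * A ≤ N2 := by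
          rw [le_div_iff₀ hA0] at hn
          exact hn
        have h8 : (N1 : ℝ) < (m + 1) * (2 * A) := by
          rw [div_lt_iff₀ (by positivity)] at hm2
          exact hm2
        have h9 : (n : ℝ) * N1 ≤ n * ((m + 1) * (2 * A)) := mul_le_mul_of_nonneg_left h8.le hn0.le
        have h10 : (n : ℝ) * ((m + 1) * (2 * A)) = (n * A) * (2 * (m + 1)) := by ring
        have h11 : (n : ℝ) * A * (2 * (m + 1)) ≤ N2 * (2 * (m + 1)) :=
          mul_le_mul_of_nonneg_right h7 (by positivity)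
        linarith
      rw [div_eq_mul_one_div (1 + Real.log (2 * N2 / N1)) A, mul_comm]
      exact mul_le_mul_of_nonneg_right (h5.trans (by linarith)) (by positivity)
  refine hsplit.trans ((add_le_add hpart1 hpart2).trans (le_of_eq ?_))
  ring

private lemma Eb_sub (K N1 N2 : ℕ) (hK : 1 ≤ K) (A : ℝ) (hA : 1 ≤ A) :
    Eun K N1 N2 A ⊆
      (⋃ c ∈ Finset.Icc 1 ⌊(N2 : ℝ) / A⌋₊, ⋃ a ∈ Finset.Icc 1 (K * c),
        Set.Ioo ((a : ℝ) / c - 1 / (c * max (A * c) ((N1 : ℝ) / 2))) ((a : ℝ) / c)) ∪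
      (⋃ c ∈ Finset.Icc 1 ⌊(N2 : ℝ) / A⌋₊, ⋃ b ∈ Finset.range (K * c),
        Set.Ioo ((b : ℝ) / c) ((b : ℝ) / c + 1 / (c * max (A * c) ((N1 : ℝ) / 2)))) := by
  have hA0 : 0 < A := by linarith
  rintro s ⟨hs0, hsK, -, h, hh, hsJ, hbal⟩
  obtain ⟨hnd, ⟨hw1, hw2, hw3⟩, haK⟩ := (mem_ndw hK).mp hh
  have hdet := hnd.det
  obtain ⟨c, hc⟩ := Int.eq_ofNat_of_zero_le hnd.c0.le
  obtain ⟨d, hd⟩ := Int.eq_ofNat_of_zero_le hnd.d0.le
  obtain ⟨b, hb⟩ := Int.eq_ofNat_of_zero_le hnd.b0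
  have hc0 : 0 < c := by have := hnd.c0; omega
  have hd0 : 0 < d := by have := hnd.d0; omega
  have ha0 : 0 < h 0 0 := by
    by_contra hcon
    have h1 : h 0 0 ≤ 0 := not_lt.mp hcon
    rw [hc, hd, hb] at hdet
    have h2 : h 0 0 * (d : ℤ) ≤ 0 := mul_nonpos_of_nonpos_of_nonneg h1 (by positivity)
    have h3 : (0 : ℤ) ≤ (b : ℤ) * c := by positivity
    linarith
  obtain ⟨a, ha⟩ := Int.eq_ofNat_of_zero_le ha0.le
  rw [ha, hc, hd, hb] at hdet
  rw [hc] at hw1 hw3
  rw [hd] at hw2 hw3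
  rw [ha, hc] at haK
  have ha0' : 0 < a := by omega
  have hcR : (0 : ℝ) < c := by exact_mod_cast hc0
  have hdR : (0 : ℝ) < d := by exact_mod_cast hd0
  have hdetR : (a : ℝ) * d - b * c = 1 := by exact_mod_cast hdet
  have hJ : (b : ℝ) / d < s ∧ s < (a : ℝ) / c := by
    have h1 := hsJ
    unfold J at h1
    rw [ha, hb, hc, hd] at h1
    simp only [Set.mem_Ioo, Int.cast_natCast] at h1
    exact h1
  have hdiff : (a : ℝ) / c - b / d = 1 / (c * d) := by
    rw [div_sub_div _ _ hcR.ne' hdR.ne']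
    congr 1
    linarith
  unfold Bal at hbal
  rw [hc, hd] at hbal
  simp only [Int.cast_natCast] at hbal
  have hN1 : (N1 : ℝ) < c + d := by exact_mod_cast hw3
  by_cases hcase : (d : ℝ) ≤ A * c
  · -- c > A d
    have hgt : A * d < c := by
      by_contra hcon
      exact hbal ⟨not_lt.mp hcon, hcase⟩
    right
    have hdc : (d : ℝ) ≤ c := by nlinarith
    have hD : max (A * d) ((N1 : ℝ) / 2) ≤ c := max_le hgt.le (by linarith)
    have hDpos : 0 < max (A * d) ((N1 : ℝ) / 2) := lt_of_lt_of_le (by positivity) (le_max_left _ _)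
    have hcN2 : (c : ℝ) ≤ N2 := by exact_mod_cast hw1
    have hdn : d ≤ ⌊(N2 : ℝ) / A⌋₊ := by
      apply Nat.le_floor
      rw [le_div_iff₀ hA0]
      nlinarith
    have hbK : b < K * d := by
      have h1 : (b : ℝ) / d < a / c := hJ.1.trans hJ.2
      have h2 : (a : ℝ) / c ≤ K := by
        rw [div_le_iff₀ hcR]
        exact_mod_cast haK
      have h3 : (b : ℝ) / d < K := lt_of_lt_of_le h1 h2
      rw [div_lt_iff₀ hdR] at h3
      exact_mod_cast h3
    simp only [Set.mem_iUnion]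
    refine ⟨d, Finset.mem_Icc.mpr ⟨hd0, hdn⟩, b, Finset.mem_range.mpr hbK, hJ.1, ?_⟩
    have h4 : 1 / ((c : ℝ) * d) ≤ 1 / (d * max (A * d) ((N1 : ℝ) / 2)) := by
      apply one_div_le_one_div_of_le (by positivity)
      rw [mul_comm (c : ℝ) d]
      exact mul_le_mul_of_nonneg_left hD hdR.le
    linarith [hJ.2]
  · have hgt : A * c < d := not_le.mp hcase
    left
    have hdc : (c : ℝ) ≤ d := by nlinarith
    have hD : max (A * c) ((N1 : ℝ) / 2) ≤ d := max_le hgt.le (by linarith)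
    have hDpos : 0 < max (A * c) ((N1 : ℝ) / 2) := lt_of_lt_of_le (by positivity) (le_max_left _ _)
    have hdN2 : (d : ℝ) ≤ N2 := by exact_mod_cast hw2
    have hcn : c ≤ ⌊(N2 : ℝ) / A⌋₊ := by
      apply Nat.le_floor
      rw [le_div_iff₀ hA0]
      nlinarith
    have haK' : a ≤ K * c := by exact_mod_cast haK
    simp only [Set.mem_iUnion]
    refine ⟨c, Finset.mem_Icc.mpr ⟨hc0, hcn⟩, a, Finset.mem_Icc.mpr ⟨ha0', haK'⟩, ?_, hJ.2⟩
    have h4 : 1 / ((c : ℝ) * d) ≤ 1 / (c * max (A * c) ((N1 : ℝ) / 2)) := by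
      apply one_div_le_one_div_of_le (by positivity)
      exact mul_le_mul_of_nonneg_left hD hcR.le
    linarith [hJ.1]

theorem eun_le (K N1 N2 : ℕ) (hK : 1 ≤ K) (h1 : 1 ≤ N1) (h12 : N1 ≤ N2) (A : ℝ) (hA : 1 ≤ A) :
    (mu K).real (Eun K N1 N2 A) ≤ 4 * K * (2 + Real.log (2 * N2 / N1)) / A := by
  have hA0 : 0 < A := by linarith
  have hN1 : (0 : ℝ) < N1 := by exact_mod_cast h1
  have hN2 : (N1 : ℝ) ≤ N2 := by exact_mod_cast h12
  have hlog : 0 ≤ Real.log (2 * N2 / N1) := by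
    apply Real.log_nonneg
    rw [le_div_iff₀ hN1]
    linarith
  set n := ⌊(N2 : ℝ) / A⌋₊ with hn
  have hnle : (n : ℝ) ≤ N2 / A := Nat.floor_le (by positivity)
  set Dn : ℕ → ℝ := fun c => max (A * c) ((N1 : ℝ) / 2) with hDn
  have hDpos : ∀ c, 0 < Dn c := fun c => lt_of_lt_of_le (by positivity) (le_max_right _ _)
  have hvol1 : volume (⋃ c ∈ Finset.Icc 1 n, ⋃ a ∈ Finset.Icc 1 (K * c),
      Set.Ioo ((a : ℝ) / c - 1 / (c * Dn c)) ((a : ℝ) / c)) ≤
      ENNReal.ofReal (∑ c ∈ Finset.Icc 1 n, K / Dn c) := by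
    refine (measure_biUnion_finset_le _ _).trans ?_
    rw [ENNReal.ofReal_sum_of_nonneg (fun c _ => by have := hDpos c; positivity)]
    refine Finset.sum_le_sum fun c hc => ?_
    refine (measure_biUnion_finset_le _ _).trans ?_
    have hc1 : 1 ≤ c := (Finset.mem_Icc.mp hc).1
    have hcR : (0 : ℝ) < c := by exact_mod_cast hc1
    have h3 : ∀ a ∈ Finset.Icc 1 (K * c), volume (Set.Ioo ((a : ℝ) / c - 1 / (c * Dn c)) ((a : ℝ) / c)) =
        ENNReal.ofReal (1 / (c * Dn c)) := by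
      intro a _
      rw [Real.volume_Ioo]
      congr 1
      ring
    rw [Finset.sum_congr rfl h3, Finset.sum_const, Nat.card_Icc, ← ENNReal.ofReal_nsmul]
    apply ENNReal.ofReal_le_ofReal
    rw [nsmul_eq_mul]
    have h4 : ((K * c + 1 - 1 : ℕ) : ℝ) = K * c := by
      rw [Nat.add_sub_cancel]; push_cast; ring
    rw [h4]
    have h5 := hDpos c
    apply le_of_eq
    field_simp
  have hvol2 : volume (⋃ c ∈ Finset.Icc 1 n, ⋃ b ∈ Finset.range (K * c),
      Set.Ioo ((b : ℝ) / c) ((b : ℝ) / c + 1 / (c * Dn c))) ≤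
      ENNReal.ofReal (∑ c ∈ Finset.Icc 1 n, K / Dn c) := by
    refine (measure_biUnion_finset_le _ _).trans ?_
    rw [ENNReal.ofReal_sum_of_nonneg (fun c _ => by have := hDpos c; positivity)]
    refine Finset.sum_le_sum fun c hc => ?_
    refine (measure_biUnion_finset_le _ _).trans ?_
    have hc1 : 1 ≤ c := (Finset.mem_Icc.mp hc).1
    have hcR : (0 : ℝ) < c := by exact_mod_cast hc1
    have h3 : ∀ b ∈ Finset.range (K * c), volume (Set.Ioo ((b : ℝ) / c) ((b : ℝ) / c + 1 / (c * Dn c))) =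
        ENNReal.ofReal (1 / (c * Dn c)) := by
      intro a _
      rw [Real.volume_Ioo]
      congr 1
      ring
    rw [Finset.sum_congr rfl h3, Finset.sum_const, Finset.card_range, ← ENNReal.ofReal_nsmul]
    apply ENNReal.ofReal_le_ofReal
    rw [nsmul_eq_mul]
    have h5 := hDpos c
    apply le_of_eq
    push_cast
    field_simp
  have hsum : ∑ c ∈ Finset.Icc 1 n, (K : ℝ) / Dn c ≤ K * ((2 + Real.log (2 * N2 / N1)) / A) := by
    have h3 := Eb_sum N1 N2 n h1 h12 A hA hnle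
    have h4 : ∑ c ∈ Finset.Icc 1 n, (K : ℝ) / Dn c = K * ∑ c ∈ Finset.Icc 1 n, 1 / Dn c := by
      rw [Finset.mul_sum]
      refine Finset.sum_congr rfl fun c _ => ?_
      rw [div_eq_mul_one_div]
    rw [h4]
    exact mul_le_mul_of_nonneg_left h3 (Nat.cast_nonneg _)
  have hS0 : 0 ≤ ∑ c ∈ Finset.Icc 1 n, (K : ℝ) / Dn c :=
    Finset.sum_nonneg fun c _ => by have := hDpos c; positivity
  have hfin : mu K (Eun K N1 N2 A) ≤ ENNReal.ofReal (4 * K * (2 + Real.log (2 * N2 / N1)) / A) := by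
    calc mu K (Eun K N1 N2 A) ≤ volume (Eun K N1 N2 A) := by
          unfold mu
          exact Measure.restrict_apply_le _ _
      _ ≤ _ := measure_mono (Eb_sub K N1 N2 hK A hA)
      _ ≤ _ := measure_union_le _ _
      _ ≤ ENNReal.ofReal (∑ c ∈ Finset.Icc 1 n, K / Dn c) + ENNReal.ofReal (∑ c ∈ Finset.Icc 1 n, K / Dn c) :=
          add_le_add hvol1 hvol2
      _ = ENNReal.ofReal (∑ c ∈ Finset.Icc 1 n, K / Dn c + ∑ c ∈ Finset.Icc 1 n, K / Dn c) :=
          (ENNReal.ofReal_add hS0 hS0).symm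
      _ ≤ _ := by
          apply ENNReal.ofReal_le_ofReal
          have h5 : 0 ≤ (K : ℝ) * ((2 + Real.log (2 * N2 / N1)) / A) := by positivity
          calc _ ≤ (K : ℝ) * ((2 + Real.log (2 * N2 / N1)) / A) + K * ((2 + Real.log (2 * N2 / N1)) / A) :=
                add_le_add hsum hsum
            _ ≤ 4 * (K * ((2 + Real.log (2 * N2 / N1)) / A)) := by linarith
            _ = 4 * K * (2 + Real.log (2 * N2 / N1)) / A := by ring
  unfold Measure.real
  refine (ENNReal.toReal_mono ENNReal.ofReal_ne_top hfin).trans (le_of_eq ?_)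
  exact ENNReal.toReal_ofReal (by positivity)

end Pool.Agent.CQF
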