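import Pool.Agent.CQF.Def

set_option autoImplicit false

/-!
# Module Far (size 4): existence, uniqueness and splitting of Farey nodes

Elementary facts.  Everything is over integers; `s` is irrational.

* `mem_ndw`: the box condition in `ndw` is automatic: `c, d ≤ N2`, `a ≤ K c`, and
  `b c = a d - 1 < a d ≤ K c d` gives `b ≤ K d`.
* `fa_exists`: induction on `N`: for `N = 1` take `(i+1, i; 1, 1)`, `i = ⌊s⌋` (a natural number);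
  step: `fa_succ`.
* `fa_succ`: if `N + 1 < c + d` keep `h`.  Otherwise `c + d = N + 1`, and `s ≠ (a+b)/(c+d)` (irrational);
  `h * Um = (a, a+b; c, c+d)` has interval `((a+b)/(c+d), a/c)`, `h * Lm = (a+b, b; c+d, d)` has interval
  `(b/d, (a+b)/(c+d))`.
* `fa_unique`: let `h, h'` have order `N` and contain `s`. If `b/d < b'/d'` then, since `b'/d' < s < a/c`,
  the fraction `b'/d'` lies strictly between the neighbours `b/d < a/c`, so `d' ≥ c + d > N`: contradiction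
  (`a d' - b' c ≥ 1`, `b' d - b d' ≥ 1`, `d' = d (a d' - b' c) + c (b' d - b d')`). By symmetry `b/d = b'/d'`,
  so `b d' = b' d`, and coprimality gives `b = b', d = d'`. Same for `a/c`.
* `fa_lt`: if `K c < a` then `b/d < s < K < a/c`, but an integer strictly between gives `1 ≥ c + d ≥ 2`.
* `fa_win`: take `max N1 c d`.
-/

namespace Pool.Agent.CQF

theorem a_pos {h : M2} (hh : IsNd h) : 0 < h 0 0 := by
  obtain ⟨hdet, hb, hc, hd⟩ := hh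
  have h1 : 0 < h 0 0 * h 1 1 := by
    have := mul_nonneg hb hc.le
    linarith
  exact (mul_pos_iff_of_pos_right hd).1 h1

theorem mem_ndw {K N1 N2 : ℕ} (hK : 1 ≤ K) {h : M2} :
    h ∈ ndw K N1 N2 ↔ IsNd h ∧ Win N1 N2 h ∧ h 0 0 ≤ K * h 1 0 := by
  classical
  unfold ndw
  rw [Finset.mem_filter]
  refine ⟨fun h1 => h1.2, fun h1 => ⟨?_, h1⟩⟩
  obtain ⟨hh, hw, ha⟩ := h1
  have ha0 := a_pos hh
  obtain ⟨hdet, hb, hc, hd⟩ := hh
  obtain ⟨hw1, hw2, -⟩ := hw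
  have hK' : (1 : ℤ) ≤ K := by exact_mod_cast hK
  have hN : (0 : ℤ) ≤ N2 := by positivity
  have e1 : (N2 : ℤ) ≤ K * N2 := by nlinarith
  have e2 : (K : ℤ) * h 1 0 ≤ K * N2 := mul_le_mul_of_nonneg_left hw1 (by positivity)
  have e3 : (K : ℤ) * h 1 1 ≤ K * N2 := mul_le_mul_of_nonneg_left hw2 (by positivity)
  have e4 : h 0 1 ≤ K * h 1 1 := by
    have e5 : h 0 1 * h 1 0 ≤ (K * h 1 1) * h 1 0 := by
      have := mul_le_mul_of_nonneg_right ha hd.le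
      nlinarith
    exact le_of_mul_le_mul_right e5 hc
  refine Fintype.mem_piFinset.2 fun x => Fintype.mem_piFinset.2 fun y => Finset.mem_Icc.2 ?_
  push_cast
  fin_cases x <;> fin_cases y
  · exact ⟨ha0.le, ha.trans e2⟩
  · exact ⟨hb, e4.trans e3⟩
  · exact ⟨hc.le, hw1.trans e1⟩
  · exact ⟨hd.le, hw2.trans e1⟩

theorem fa_win {N1 N2 : ℕ} (h12 : N1 ≤ N2) {h : M2} (hh : IsNd h) (hw : Win N1 N2 h) :
    ∃ N, N1 ≤ N ∧ N ≤ N2 ∧ Win N N h := by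
  obtain ⟨hdet, hb, hc, hd⟩ := hh
  obtain ⟨hw1, hw2, hw3⟩ := hw
  refine ⟨max N1 (max (h 1 0).toNat (h 1 1).toNat), le_max_left _ _, ?_, ?_, ?_, ?_⟩
  all_goals omega

theorem win_mono {N1 N2 N1' N2' : ℕ} (h1 : N1' ≤ N1) (h2 : N2 ≤ N2') {h : M2} (hw : Win N1 N2 h) :
    Win N1' N2' h := by
  obtain ⟨hw1, hw2, hw3⟩ := hw
  refine ⟨?_, ?_, ?_⟩
  all_goals omega

private theorem Far_Lm (h : M2) : (h * Lm) 0 0 = h 0 0 + h 0 1 ∧ (h * Lm) 0 1 = h 0 1 ∧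
    (h * Lm) 1 0 = h 1 0 + h 1 1 ∧ (h * Lm) 1 1 = h 1 1 := by
  refine ⟨?_, ?_, ?_, ?_⟩ <;> simp [Lm, Matrix.mul_apply, Fin.sum_univ_two]

private theorem Far_Um (h : M2) : (h * Um) 0 0 = h 0 0 ∧ (h * Um) 0 1 = h 0 0 + h 0 1 ∧
    (h * Um) 1 0 = h 1 0 ∧ (h * Um) 1 1 = h 1 0 + h 1 1 := by
  refine ⟨?_, ?_, ?_, ?_⟩ <;> simp [Um, Matrix.mul_apply, Fin.sum_univ_two]

/-- `(h * Lm) = (a+b, b; c+d, d)`, `(h * Um) = (a, a+b; c, c+d)` are nodes -/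
theorem fa_child {h : M2} (hh : IsNd h) : IsNd (h * Lm) ∧ IsNd (h * Um) ∧
    (h * Lm) 1 0 = h 1 0 + h 1 1 ∧ (h * Lm) 1 1 = h 1 1 ∧
    (h * Um) 1 0 = h 1 0 ∧ (h * Um) 1 1 = h 1 0 + h 1 1 := by
  have ha := a_pos hh
  obtain ⟨hdet, hb, hc, hd⟩ := hh
  obtain ⟨l1, l2, l3, l4⟩ := Far_Lm h
  obtain ⟨u1, u2, u3, u4⟩ := Far_Um h
  refine ⟨⟨?_, ?_, ?_, ?_⟩, ⟨?_, ?_, ?_, ?_⟩, l3, l4, u3, u4⟩
  · rw [l1, l2, l3, l4]
    linarith
  · rw [l2]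
    exact hb
  · rw [l3]
    omega
  · rw [l4]
    exact hd
  · rw [u1, u2, u3, u4]
    linarith
  · rw [u2]
    omega
  · rw [u3]
    exact hc
  · rw [u4]
    omega

theorem fa_succ {N : ℕ} {h : M2} (hh : IsNd h) (hw : Win N N h) {s : ℝ} (hs : s ∈ J h)
    (hi : Irrational s) : ∃ h', IsNd h' ∧ Win (N + 1) (N + 1) h' ∧ s ∈ J h' ∧
      (h' = h ∨ (h 1 0 + h 1 1 = N + 1 ∧ (h' = h * Lm ∨ h' = h * Um))) := by
  obtain ⟨n1, n2, l3, l4, u3, u4⟩ := fa_child hh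
  obtain ⟨l1, l2, -, -⟩ := Far_Lm h
  obtain ⟨u1, u2, -, -⟩ := Far_Um h
  obtain ⟨hdet, hb, hc, hd⟩ := hh
  obtain ⟨hw1, hw2, hw3⟩ := hw
  obtain ⟨hs1, hs2⟩ := hs
  by_cases hcd : (N : ℤ) + 1 < h 1 0 + h 1 1
  · refine ⟨h, ⟨hdet, hb, hc, hd⟩, ⟨?_, ?_, ?_⟩, ⟨hs1, hs2⟩, Or.inl rfl⟩
    all_goals push_cast
    all_goals omega
  · have hcd' : h 1 0 + h 1 1 = N + 1 := by omega
    have hne : s ≠ ((h 0 0 + h 0 1 : ℤ) : ℝ) / ((h 1 0 + h 1 1 : ℤ) : ℝ) := by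
      intro he
      apply hi
      refine ⟨((h 0 0 + h 0 1 : ℤ) : ℚ) / ((h 1 0 + h 1 1 : ℤ) : ℚ), ?_⟩
      rw [he]
      push_cast
      rfl
    rcases lt_or_gt_of_ne hne with hlt | hgt
    · refine ⟨h * Lm, n1, ⟨?_, ?_, ?_⟩, ⟨?_, ?_⟩, Or.inr ⟨hcd', Or.inl rfl⟩⟩
      · rw [l3]
        push_cast
        omega
      · rw [l4]
        push_cast
        omega
      · rw [l3, l4]
        push_cast
        omega
      · rw [l2, l4]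
        exact hs1
      · rw [l1, l3]
        exact hlt
    · refine ⟨h * Um, n2, ⟨?_, ?_, ?_⟩, ⟨?_, ?_⟩, Or.inr ⟨hcd', Or.inr rfl⟩⟩
      · rw [u3]
        push_cast
        omega
      · rw [u4]
        push_cast
        omega
      · rw [u3, u4]
        push_cast
        omega
      · rw [u2, u4]
        exact hgt
      · rw [u1, u3]
        exact hs2

theorem fa_exists {N : ℕ} (hN : 1 ≤ N) {s : ℝ} (hs : 0 < s) (hi : Irrational s) :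
    ∃ h, IsNd h ∧ Win N N h ∧ s ∈ J h := by
  induction N, hN using Nat.le_induction with
  | base =>
    refine ⟨!![(⌊s⌋₊ : ℤ) + 1, (⌊s⌋₊ : ℤ); 1, 1], ⟨?_, ?_, ?_, ?_⟩, ⟨?_, ?_, ?_⟩, ?_, ?_⟩
    · simp
    · simp
    · simp
    · simp
    · simp
    · simp
    · simp
    · have h1 : (⌊s⌋₊ : ℝ) ≤ s := Nat.floor_le hs.le
      have h2 : (⌊s⌋₊ : ℝ) ≠ s := fun he => hi ⟨(⌊s⌋₊ : ℚ), by exact_mod_cast he⟩
      simpa using lt_of_le_of_ne h1 h2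
    · simpa using Nat.lt_floor_add_one s
  | succ N hN ih =>
    obtain ⟨h, h1, h2, h3⟩ := ih
    obtain ⟨h', h4, h5, h6, -⟩ := fa_succ h1 h2 h3 hi
    exact ⟨h', h4, h5, h6⟩

private theorem Far_lt {h h' : M2} (hh : IsNd h) (hh' : IsNd h') {s : ℝ} (hs : s ∈ J h)
    (hs' : s ∈ J h') : h' 0 1 * h 1 0 < h 0 0 * h' 1 1 := by
  have hc : (0 : ℝ) < h 1 0 := by exact_mod_cast hh.c0
  have hd : (0 : ℝ) < h' 1 1 := by exact_mod_cast hh'.d0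
  have h1 : (h' 0 1 : ℝ) / h' 1 1 < (h 0 0 : ℝ) / h 1 0 := hs'.1.trans hs.2
  rw [div_lt_div_iff₀ hd hc] at h1
  exact_mod_cast h1

private theorem Far_u1 {N : ℕ} {h h' : M2} (hh : IsNd h) (hh' : IsNd h') (hw : Win N N h)
    (hw' : Win N N h') {s : ℝ} (hs : s ∈ J h) (hs' : s ∈ J h') :
    ¬ h 0 1 * h' 1 1 < h' 0 1 * h 1 1 := by
  intro h2
  have h1 := Far_lt hh hh' hs hs'
  have e : h' 1 1 = h 1 1 * (h 0 0 * h' 1 1 - h' 0 1 * h 1 0) +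
      h 1 0 * (h' 0 1 * h 1 1 - h 0 1 * h' 1 1) := by
    linear_combination (-h' 1 1) * hh.det
  have e1 : h 1 1 ≤ h 1 1 * (h 0 0 * h' 1 1 - h' 0 1 * h 1 0) :=
    le_mul_of_one_le_right hh.d0.le (by omega)
  have e2 : h 1 0 ≤ h 1 0 * (h' 0 1 * h 1 1 - h 0 1 * h' 1 1) :=
    le_mul_of_one_le_right hh.c0.le (by omega)
  have e3 := hw.2.2
  have e4 := hw'.2.1
  omega

private theorem Far_u2 {N : ℕ} {h h' : M2} (hh : IsNd h) (hh' : IsNd h') (hw : Win N N h)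
    (hw' : Win N N h') {s : ℝ} (hs : s ∈ J h) (hs' : s ∈ J h') :
    ¬ h' 0 0 * h 1 0 < h 0 0 * h' 1 0 := by
  intro h2
  have h1 := Far_lt hh' hh hs' hs
  have e : h' 1 0 = h 1 1 * (h 0 0 * h' 1 0 - h' 0 0 * h 1 0) +
      h 1 0 * (h' 0 0 * h 1 1 - h 0 1 * h' 1 0) := by
    linear_combination (-h' 1 0) * hh.det
  have e1 : h 1 1 ≤ h 1 1 * (h 0 0 * h' 1 0 - h' 0 0 * h 1 0) :=
    le_mul_of_one_le_right hh.d0.le (by omega)
  have e2 : h 1 0 ≤ h 1 0 * (h' 0 0 * h 1 1 - h 0 1 * h' 1 0) :=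
    le_mul_of_one_le_right hh.c0.le (by omega)
  have e3 := hw.2.2
  have e4 := hw'.1
  omega

theorem fa_unique {N : ℕ} {h h' : M2} (hh : IsNd h) (hh' : IsNd h') (hw : Win N N h)
    (hw' : Win N N h') {s : ℝ} (hs : s ∈ J h) (hs' : s ∈ J h') : h = h' := by
  have e1 : h 0 1 * h' 1 1 = h' 0 1 * h 1 1 :=
    le_antisymm (not_lt.1 (Far_u1 hh' hh hw' hw hs' hs)) (not_lt.1 (Far_u1 hh hh' hw hw' hs hs'))
  have e2 : h 0 0 * h' 1 0 = h' 0 0 * h 1 0 :=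
    le_antisymm (not_lt.1 (Far_u2 hh hh' hw hw' hs hs')) (not_lt.1 (Far_u2 hh' hh hw' hw hs' hs))
  have hd : h 1 1 = h' 1 1 := by
    apply Int.dvd_antisymm hh.d0.le hh'.d0.le
    · exact ⟨h 0 0 * h' 1 1 - h' 0 1 * h 1 0, by
        linear_combination (-h' 1 1) * hh.det - h 1 0 * e1⟩
    · exact ⟨h' 0 0 * h 1 1 - h 0 1 * h' 1 0, by
        linear_combination (-h 1 1) * hh'.det + h' 1 0 * e1⟩
  have hc : h 1 0 = h' 1 0 := by
    apply Int.dvd_antisymm hh.c0.le hh'.c0.le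
    · exact ⟨h' 0 0 * h 1 1 - h 0 1 * h' 1 0, by
        linear_combination (-h' 1 0) * hh.det + h 1 1 * e2⟩
    · exact ⟨h 0 0 * h' 1 1 - h' 0 1 * h 1 0, by
        linear_combination (-h 1 0) * hh'.det - h' 1 1 * e2⟩
  have hb : h 0 1 = h' 0 1 := by
    rw [hd] at e1
    exact mul_right_cancel₀ hh'.d0.ne' e1
  have ha : h 0 0 = h' 0 0 := by
    rw [hc] at e2
    exact mul_right_cancel₀ hh'.c0.ne' e2
  ext i j
  fin_cases i <;> fin_cases j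
  · exact ha
  · exact hb
  · exact hc
  · exact hd

theorem fa_lt {K : ℕ} {h : M2} (hh : IsNd h) {s : ℝ} (hs : s ∈ J h) (hK : s < K) :
    h 0 0 ≤ K * h 1 0 := by
  by_contra hn
  rw [not_le] at hn
  obtain ⟨hdet, hb, hc, hd⟩ := hh
  have hd' : (0 : ℝ) < h 1 1 := by exact_mod_cast hd
  have h1 : (h 0 1 : ℝ) / h 1 1 < K := hs.1.trans hK
  rw [div_lt_iff₀ hd'] at h1
  have h2 : h 0 1 < K * h 1 1 := by exact_mod_cast h1
  have e : (1 : ℤ) = h 1 1 * (h 0 0 - K * h 1 0) + h 1 0 * (K * h 1 1 - h 0 1) := by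
    linear_combination (-1) * hdet
  have e1 : h 1 1 ≤ h 1 1 * (h 0 0 - K * h 1 0) := le_mul_of_one_le_right hd.le (by omega)
  have e2 : h 1 0 ≤ h 1 0 * (K * h 1 1 - h 0 1) := le_mul_of_one_le_right hc.le (by omega)
  omega

theorem J_subset {K : ℕ} {h : M2} (hh : IsNd h) (hK : h 0 0 ≤ K * h 1 0) :
    J h ⊆ Set.Ioo (0 : ℝ) K := by
  obtain ⟨hdet, hb, hc, hd⟩ := hh
  have hd' : (0 : ℝ) < h 1 1 := by exact_mod_cast hd
  have hc' : (0 : ℝ) < h 1 0 := by exact_mod_cast hc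
  have hb' : (0 : ℝ) ≤ h 0 1 := by exact_mod_cast hb
  rintro s ⟨hs1, hs2⟩
  constructor
  · exact lt_of_le_of_lt (by positivity) hs1
  · refine lt_of_lt_of_le hs2 ?_
    rw [div_le_iff₀ hc']
    exact_mod_cast hK

/-- existence in `(0, K)` -/
theorem fa_nds {K N : ℕ} (hK : 1 ≤ K) (hN : 1 ≤ N) {s : ℝ} (hs : 0 < s) (hsK : s < K)
    (hi : Irrational s) : ∃ h ∈ nds K N, s ∈ J h := by
  obtain ⟨h, h1, h2, h3⟩ := fa_exists hN hs hi
  refine ⟨h, ?_, h3⟩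
  unfold nds
  rw [mem_ndw hK]
  exact ⟨h1, h2, fa_lt h1 h3 hsK⟩

end Pool.Agent.CQF
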