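import Mathlib

set_option autoImplicit false

/-!
# Module Foa (size 5): Fourier lower bound for `∫ G(s) G(q s) ds`

`G : ℝ → ℝ` is measurable, `1`-periodic, `|G| ≤ 1`. `c k = ∫_0^1 G(s) e(-k s) ds`, `e(x) = exp(2πi x)`.
* Dilation: for `q ≥ 1` the function `s ↦ G(q s)` has `k`-th coefficient `c (k/q)` if `q ∣ k` and `0` otherwise.
  (`∫_0^1 F(q s) ds = ∫_0^1 F` for periodic `F`; if `q ∤ k`, the coefficient `I` satisfies `I = e(-k/q) I` by the shift
  `s → s + 1/q`.)
* Parseval (`AddCircle`, `fourierCoeff`, `hasSum_inner`-type identities or polarisation of `tsum_sq_fourierCoeff`):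
  `∫_0^1 G(s) G(q s) ds = ∑_{k ∈ ℤ} c(q k) conj (c k)` and `∑ |c k|² ≤ 1`.
* The term `k = 0` is `|c 0|² ≥ 0`. The others: absolute value at most
  `(∑ |c k|²)^{1/2} (∑_{k ≠ 0} |c (q k)|²)^{1/2} ≤ (∑_{l ≠ 0, q ∣ l} |c l|²)^{1/2}`.
-/

open MeasureTheory

namespace Pool.Agent.CQF

/-- Fourier coefficients -/
noncomputable def fc (G : ℝ → ℝ) (k : ℤ) : ℂ :=
  ∫ s in (0 : ℝ)..1, (G s : ℂ) * Complex.exp (-(2 * Real.pi * Complex.I * k * s))

private theorem foa_fc_eq (G : ℝ → ℝ) (k : ℤ) :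
    fourierCoeffOn (zero_lt_one (α := ℝ)) (fun s => (G s : ℂ)) k = fc G k := by
  rw [fourierCoeffOn_eq_integral]
  unfold fc
  simp only [sub_zero, div_one, one_smul]
  refine intervalIntegral.integral_congr (fun s _ => ?_)
  simp only [smul_eq_mul]
  rw [mul_comm]
  congr 1
  rw [fourier_coe_apply]
  congr 1
  push_cast
  simp

private theorem foa_memLp (G : ℝ → ℝ) (hG : Measurable G) (C : ℝ) (hb : ∀ s, |G s| ≤ C) :
    MemLp (fun s => (G s : ℂ)) 2 (volume.restrict (Set.Ioc (0 : ℝ) 1)) := by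
  refine MemLp.of_bound (Complex.measurable_ofReal.comp hG).aestronglyMeasurable C ?_
  filter_upwards with s
  simpa using hb s

private theorem foa_hasSum (G : ℝ → ℝ) (hG : Measurable G) (C : ℝ) (hb : ∀ s, |G s| ≤ C) :
    HasSum (fun k : ℤ => ‖fc G k‖ ^ 2) (∫ s in (0 : ℝ)..1, G s ^ 2) := by
  have h := hasSum_sq_fourierCoeffOn (zero_lt_one (α := ℝ)) (foa_memLp G hG C hb)
  simp only [foa_fc_eq, sub_zero, inv_one, one_smul] at h
  convert h using 1
  refine intervalIntegral.integral_congr (fun s _ => ?_)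
  simp

private theorem foa_int (G : ℝ → ℝ) (hG : Measurable G) (C : ℝ) (hb : ∀ s, |G s| ≤ C) (a b : ℝ) :
    IntervalIntegrable G volume a b := by
  refine (intervalIntegrable_const (c := C)).mono_fun hG.aestronglyMeasurable ?_
  filter_upwards with s
  rw [Real.norm_eq_abs, Real.norm_eq_abs]
  exact (hb s).trans (le_abs_self C)

private theorem foa_intc (G : ℝ → ℝ) (hG : Measurable G) (C : ℝ) (hb : ∀ s, |G s| ≤ C) (k : ℤ)
    (a b : ℝ) :
    IntervalIntegrable (fun s => (G s : ℂ) * Complex.exp (-(2 * Real.pi * Complex.I * k * s)))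
      volume a b := by
  refine (intervalIntegrable_const (c := C)).mono_fun ?_ ?_
  · refine Measurable.aestronglyMeasurable ?_
    fun_prop
  · filter_upwards with s
    rw [norm_mul]
    have : ‖Complex.exp (-(2 * Real.pi * Complex.I * k * s))‖ = 1 := by
      rw [Complex.norm_exp]
      simp
    rw [this, mul_one, Real.norm_eq_abs, Complex.norm_real, Real.norm_eq_abs]
    exact (hb s).trans (le_abs_self C)

private theorem foa_add (G F : ℝ → ℝ) (hG : Measurable G) (hF : Measurable F) (C : ℝ)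
    (hb : ∀ s, |G s| ≤ C) (hb' : ∀ s, |F s| ≤ C) (k : ℤ) :
    fc (fun s => G s + F s) k = fc G k + fc F k := by
  unfold fc
  rw [← intervalIntegral.integral_add (foa_intc G hG C hb k 0 1) (foa_intc F hF C hb' k 0 1)]
  refine intervalIntegral.integral_congr (fun s _ => ?_)
  push_cast
  ring

theorem fc_summable (G : ℝ → ℝ) (hG : Measurable G) (hb : ∀ s, |G s| ≤ 1) :
    Summable (fun k : ℤ => ‖fc G k‖ ^ 2) ∧ ∑' k : ℤ, ‖fc G k‖ ^ 2 ≤ 1 := by
  have h := foa_hasSum G hG 1 hb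
  refine ⟨h.summable, ?_⟩
  rw [h.tsum_eq]
  have h1 : (∫ s in (0 : ℝ)..1, G s ^ 2) ≤ ∫ s in (0 : ℝ)..1, (1 : ℝ) := by
    refine intervalIntegral.integral_mono_on (by norm_num) ?_ (by simp) (fun s _ => ?_)
    · refine foa_int (fun s => G s ^ 2) (hG.pow_const 2) 1 (fun s => ?_) 0 1
      rw [abs_of_nonneg (sq_nonneg _), ← sq_abs]
      exact pow_le_one₀ (abs_nonneg _) (hb s)
    · rw [← sq_abs]
      exact pow_le_one₀ (abs_nonneg _) (hb s)
  simpa using h1

private theorem foa_corr (G F : ℝ → ℝ) (hG : Measurable G) (hF : Measurable F)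
    (hb : ∀ s, |G s| ≤ 1) (hb' : ∀ s, |F s| ≤ 1) :
    HasSum (fun k : ℤ => (fc G k * (starRingEnd ℂ) (fc F k)).re) (∫ s in (0 : ℝ)..1, G s * F s) := by
  have h1 := foa_hasSum G hG 1 hb
  have h2 := foa_hasSum F hF 1 hb'
  have hb2 : ∀ s, |G s + F s| ≤ 2 := fun s => (abs_add_le _ _).trans (by linarith [hb s, hb' s])
  have h3 := foa_hasSum (fun s => G s + F s) (hG.add hF) 2 hb2
  have h4 := ((h3.sub h1).sub h2).mul_left (1 / 2)
  have e1 : (fun k : ℤ => (fc G k * (starRingEnd ℂ) (fc F k)).re) = fun i : ℤ =>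
      1 / 2 * (‖fc (fun s => G s + F s) i‖ ^ 2 - ‖fc G i‖ ^ 2 - ‖fc F i‖ ^ 2) := by
    funext k
    rw [foa_add G F hG hF 1 hb hb' k, ← Complex.normSq_eq_norm_sq, ← Complex.normSq_eq_norm_sq,
      ← Complex.normSq_eq_norm_sq, Complex.normSq_add]
    ring
  have e2 : (∫ s in (0 : ℝ)..1, G s * F s) =
      1 / 2 * (((∫ (s : ℝ) in 0..1, (G s + F s) ^ 2) - ∫ (s : ℝ) in 0..1, G s ^ 2) -
        ∫ (s : ℝ) in 0..1, F s ^ 2) := by
    rw [← intervalIntegral.integral_sub, ← intervalIntegral.integral_sub,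
      ← intervalIntegral.integral_const_mul]
    · refine intervalIntegral.integral_congr (fun s _ => ?_)
      ring
    · refine (foa_int (fun s => (G s + F s) ^ 2) ((hG.add hF).pow_const 2) (2 ^ 2) (fun s => ?_) 0 1).sub
        (foa_int (fun s => G s ^ 2) (hG.pow_const 2) 1 (fun s => ?_) 0 1)
      · rw [abs_of_nonneg (sq_nonneg _), ← sq_abs]
        exact pow_le_pow_left₀ (abs_nonneg _) (hb2 s) 2
      · rw [abs_of_nonneg (sq_nonneg _), ← sq_abs]
        exact pow_le_one₀ (abs_nonneg _) (hb s)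
    · refine (foa_int (fun s => F s ^ 2) (hF.pow_const 2) 1 (fun s => ?_) 0 1)
      rw [abs_of_nonneg (sq_nonneg _), ← sq_abs]
      exact pow_le_one₀ (abs_nonneg _) (hb' s)
    · refine (foa_int (fun s => (G s + F s) ^ 2) ((hG.add hF).pow_const 2) (2 ^ 2) (fun s => ?_) 0 1)
      rw [abs_of_nonneg (sq_nonneg _), ← sq_abs]
      exact pow_le_pow_left₀ (abs_nonneg _) (hb2 s) 2
    · refine (foa_int (fun s => G s ^ 2) (hG.pow_const 2) 1 (fun s => ?_) 0 1)
      rw [abs_of_nonneg (sq_nonneg _), ← sq_abs]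
      exact pow_le_one₀ (abs_nonneg _) (hb s)
  rw [e1, e2]
  exact h4

/-- coefficients of the dilate -/
private theorem foa_dil0 (G : ℝ → ℝ) (hG : Measurable G) (hb : ∀ s, |G s| ≤ 1)
    (hp : ∀ s, G (s + 1) = G s) (q : ℕ) (hq : 1 ≤ q) :
    fc (fun s => G (q * s)) 0 = fc G 0 := by
  have hq0 : (q : ℝ) ≠ 0 := by positivity
  unfold fc
  simp only [Int.cast_zero, mul_zero, zero_mul, neg_zero, Complex.exp_zero, mul_one]
  rw [intervalIntegral.integral_ofReal, intervalIntegral.integral_ofReal]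
  congr 1
  rw [intervalIntegral.integral_comp_mul_left (fun x => G x) hq0]
  have hper : Function.Periodic G 1 := hp
  have h := hper.intervalIntegral_add_zsmul_eq (q : ℤ) 0
    (fun a b => foa_int G hG 1 hb a b)
  simp only [zsmul_eq_mul, Int.cast_natCast, zero_add, smul_eq_mul, mul_zero, mul_one] at h ⊢
  rw [h]
  field_simp

private theorem foa_dil (G : ℝ → ℝ)
    (hp : ∀ s, G (s + 1) = G s) (q : ℕ) (hq : 1 ≤ q) (k : ℤ) (hk : ¬ (q : ℤ) ∣ k) :
    fc (fun s => G (q * s)) k = 0 := by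
  have hq0 : (q : ℝ) ≠ 0 := by positivity
  set h : ℝ → ℂ := fun s => (G (q * s) : ℂ) * Complex.exp (-(2 * Real.pi * Complex.I * k * s)) with hh
  have hper : Function.Periodic h 1 := by
    intro s
    simp only [hh]
    have e1 : G (q * (s + 1)) = G (q * s) := by
      have : ∀ n : ℕ, G (q * s + n) = G (q * s) := by
        intro n
        induction n with
        | zero => simp
        | succ n ih =>
          rw [← ih, ← hp (q * s + n)]
          congr 1
          push_cast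
          ring
      rw [← this q]
      congr 1
      ring
    rw [e1]
    congr 1
    have : (-(2 * Real.pi * Complex.I * k * ((s + 1 : ℝ) : ℂ)) : ℂ) =
        -(2 * Real.pi * Complex.I * k * s) + ((-k : ℤ) : ℂ) * (2 * Real.pi * Complex.I) := by
      push_cast
      ring
    rw [this, Complex.exp_add, Complex.exp_int_mul_two_pi_mul_I, mul_one]
  have hsh : ∀ s, h (s + 1 / q) = Complex.exp (-(2 * Real.pi * Complex.I * k * (1 / q))) * h s := by
    intro s
    simp only [hh]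
    have e1 : G (q * (s + 1 / q)) = G (q * s) := by
      rw [← hp (q * s)]
      congr 1
      field_simp
    rw [e1]
    have : (-(2 * Real.pi * Complex.I * k * ((s + 1 / q : ℝ) : ℂ)) : ℂ) =
        -(2 * Real.pi * Complex.I * k * (1 / q)) + -(2 * Real.pi * Complex.I * k * s) := by
      push_cast
      ring
    rw [this, Complex.exp_add]
    ring
  have h1 : (∫ s in (0 : ℝ)..1, h (s + 1 / q)) = ∫ s in (0 : ℝ)..1, h s := by
    rw [intervalIntegral.integral_comp_add_right (fun x => h x)]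
    have := hper.intervalIntegral_add_eq (0 + 1 / q) 0
    rw [show (1 : ℝ) + 1 / q = 0 + 1 / q + 1 by ring, this, zero_add]
  simp only [hsh] at h1
  rw [intervalIntegral.integral_const_mul] at h1
  have hne : Complex.exp (-(2 * Real.pi * Complex.I * k * (1 / q))) ≠ 1 := by
    intro h2
    rw [Complex.exp_eq_one_iff] at h2
    obtain ⟨n, hn⟩ := h2
    apply hk
    refine ⟨-n, ?_⟩
    have hpi : (2 * Real.pi * Complex.I : ℂ) ≠ 0 := Complex.two_pi_I_ne_zero
    have hqc : (q : ℂ) ≠ 0 := by exact_mod_cast (show q ≠ 0 by omega)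
    have h3 : (2 * Real.pi * Complex.I : ℂ) * (k + n * q) = 0 := by
      have : (2 * Real.pi * Complex.I : ℂ) * (k + n * q) =
        q * ((2 * Real.pi * Complex.I * k * (1 / q)) + n * (2 * Real.pi * Complex.I)) := by
        field_simp
      rw [this, ← hn]
      ring
    rcases mul_eq_zero.mp h3 with h4 | h4
    · exact absurd h4 hpi
    · have h5 : ((k + n * q : ℤ) : ℂ) = 0 := by push_cast; exact h4
      have h6 : k + n * q = 0 := by exact_mod_cast h5
      linarith
  have : (∫ s in (0 : ℝ)..1, h s) = 0 := by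
    by_contra h0
    exact hne (mul_right_cancel₀ h0 (by rw [h1, one_mul]))
  exact this

theorem fc_corr (G : ℝ → ℝ) (hG : Measurable G) (hb : ∀ s, |G s| ≤ 1) (hp : ∀ s, G (s + 1) = G s)
    (q : ℕ) (hq : 1 ≤ q) :
    -√(∑' k : ℤ, if k ≠ 0 ∧ (q : ℤ) ∣ k then ‖fc G k‖ ^ 2 else 0) ≤
      ∫ s in (0 : ℝ)..1, G s * G (q * s) := by
  set F : ℝ → ℝ := fun s => G (q * s) with hF
  have hFm : Measurable F := hG.comp (measurable_const.mul measurable_id)
  have hFb : ∀ s, |F s| ≤ 1 := fun s => hb _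
  have hs := foa_corr G F hG hFm hb hFb
  obtain ⟨hs1, hs2⟩ := fc_summable G hG hb
  obtain ⟨hf1, hf2⟩ := fc_summable F hFm hFb
  set u : ℤ → ℝ := fun k => if k ≠ 0 ∧ (q : ℤ) ∣ k then ‖fc G k‖ else 0 with hu
  have hu2 : ∀ k, u k ^ 2 = if k ≠ 0 ∧ (q : ℤ) ∣ k then ‖fc G k‖ ^ 2 else 0 := by
    intro k
    simp only [hu]
    split_ifs <;> simp
  simp only [← hu2]
  have husum : Summable (fun k => u k ^ 2) := by
    refine Summable.of_nonneg_of_le (fun k => sq_nonneg _) (fun k => ?_) hs1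
    rw [hu2]
    split_ifs
    · exact le_rfl
    · positivity
  refine ge_of_tendsto' hs (fun s => ?_)
  have h1 : ∀ k ∈ s, -(u k * ‖fc F k‖) ≤ (fc G k * (starRingEnd ℂ) (fc F k)).re := by
    intro k _
    by_cases hk0 : k = 0
    · subst hk0
      have : fc F 0 = fc G 0 := foa_dil0 G hG hb hp q hq
      rw [this, Complex.mul_conj]
      simp only [hu]
      simp only [ne_eq, not_true_eq_false, false_and, if_false, zero_mul, neg_zero]
      rw [Complex.ofReal_re]
      exact Complex.normSq_nonneg _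
    · by_cases hkq : (q : ℤ) ∣ k
      · have : u k = ‖fc G k‖ := by simp only [hu]; rw [if_pos ⟨hk0, hkq⟩]
        rw [this]
        have h2 := Complex.abs_re_le_norm (fc G k * (starRingEnd ℂ) (fc F k))
        rw [norm_mul, RCLike.norm_conj] at h2
        linarith [neg_abs_le (fc G k * (starRingEnd ℂ) (fc F k)).re]
      · have : fc F k = 0 := foa_dil G hp q hq k hkq
        rw [this]
        simp
  have h2 : ∑ k ∈ s, u k * ‖fc F k‖ ≤ √(∑' k, u k ^ 2) := by
    calc ∑ k ∈ s, u k * ‖fc F k‖ ≤ √(∑ k ∈ s, u k ^ 2) * √(∑ k ∈ s, ‖fc F k‖ ^ 2) :=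
          Real.sum_mul_le_sqrt_mul_sqrt s _ _
      _ ≤ √(∑' k, u k ^ 2) * 1 := by
          refine mul_le_mul (Real.sqrt_le_sqrt (husum.sum_le_tsum s (fun k _ => sq_nonneg _))) ?_
            (Real.sqrt_nonneg _) (Real.sqrt_nonneg _)
          rw [Real.sqrt_le_one]
          exact (hf1.sum_le_tsum s (fun k _ => sq_nonneg _)).trans hf2
      _ = _ := mul_one _
  calc -√(∑' k, u k ^ 2) ≤ -∑ k ∈ s, u k * ‖fc F k‖ := by linarith
    _ = ∑ k ∈ s, -(u k * ‖fc F k‖) := by rw [Finset.sum_neg_distrib]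
    _ ≤ _ := Finset.sum_le_sum h1

end Pool.Agent.CQF
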