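import Pool.Agent.CQF.Foa

set_option autoImplicit false

/-!
# Module Fob (size 4): average over multipliers

`G` as in `Foa` and moreover `‖fc G k‖ ≤ R/|k|` for `k ≠ 0`. Weights `w i ≥ 0`, `∑ w = 1`, multipliers `q i`, such
that for every natural `1 ≤ k ≤ F` the sum of `w i` over `q i ∣ k` is at most `δ`. By `fc_corr`, Jensen/Cauchy
(`∑ w i √(x i) ≤ √(∑ w i x i)`) and exchange of sums
`∑ w i ∫ G(s) G(q i s) ≥ - √(∑_{k ≠ 0} ‖fc G k‖² ∑_{q i ∣ k} w i) ≥ - √(δ ∑_{0 < |k| ≤ F} ‖fc G k‖² + ∑_{|k| > F} R²/k²)`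
`≥ -√(δ + 2 R²/F)`.
-/

open MeasureTheory

namespace Pool.Agent.CQF

open Classical in
private theorem fob_nat (F : ℕ) (hF : 1 ≤ F) (R : ℝ) (v : Finset ℕ) :
    ∑ n ∈ v, (if F < n then R ^ 2 / (n : ℝ) ^ 2 else 0) ≤ R ^ 2 / F := by
  set M := v.sup id + F with hM
  have h1 : ∑ n ∈ v, (if F < n then R ^ 2 / (n : ℝ) ^ 2 else 0) ≤
      ∑ n ∈ Finset.Ioc F M, R ^ 2 / (n : ℝ) ^ 2 := by
    rw [← Finset.sum_filter]
    apply Finset.sum_le_sum_of_subset_of_nonneg
    · intro n hn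
      rw [Finset.mem_filter] at hn
      rw [Finset.mem_Ioc]
      refine ⟨hn.2, ?_⟩
      have : id n ≤ v.sup id := Finset.le_sup hn.1
      simp only [id] at this
      omega
    · intro n _ _
      positivity
  refine h1.trans ?_
  have h2 : ∑ n ∈ Finset.Ioc F M, R ^ 2 / (n : ℝ) ^ 2 =
      R ^ 2 * ∑ n ∈ Finset.Ioc F M, ((n : ℝ) ^ 2)⁻¹ := by
    rw [Finset.mul_sum]
    exact Finset.sum_congr rfl fun n _ => div_eq_mul_inv _ _
  rw [h2, div_eq_mul_inv]
  apply mul_le_mul_of_nonneg_left _ (sq_nonneg R)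
  have h3 := sum_Ioc_inv_sq_le_sub (α := ℝ) (k := F) (n := M) (by omega) (by omega)
  have h4 : (0 : ℝ) ≤ (M : ℝ)⁻¹ := by positivity
  linarith

open Classical in
private theorem fob_int (F : ℕ) (hF : 1 ≤ F) (R : ℝ) (u : Finset ℤ) :
    ∑ k ∈ u, (if F < k.natAbs then R ^ 2 / (k : ℝ) ^ 2 else 0) ≤ 2 * R ^ 2 / F := by
  have hk : ∀ k : ℤ, (if F < k.natAbs then R ^ 2 / (k : ℝ) ^ 2 else 0) =
      (if F < k.natAbs then R ^ 2 / (k.natAbs : ℝ) ^ 2 else 0) := by
    intro k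
    have : (k.natAbs : ℝ) ^ 2 = (k : ℝ) ^ 2 := by
      rw [Nat.cast_natAbs, Int.cast_abs, sq_abs]
    rw [this]
  have hpart : ∀ w : Finset ℤ, Set.InjOn Int.natAbs (w : Set ℤ) →
      ∑ k ∈ w, (if F < k.natAbs then R ^ 2 / (k : ℝ) ^ 2 else 0) ≤ R ^ 2 / F := by
    intro w hw
    calc ∑ k ∈ w, (if F < k.natAbs then R ^ 2 / (k : ℝ) ^ 2 else 0)
        = ∑ k ∈ w, (if F < k.natAbs then R ^ 2 / (k.natAbs : ℝ) ^ 2 else 0) :=
          Finset.sum_congr rfl fun k _ => hk k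
      _ = ∑ n ∈ w.image Int.natAbs, (if F < n then R ^ 2 / (n : ℝ) ^ 2 else 0) :=
          (Finset.sum_image (f := fun n : ℕ => if F < n then R ^ 2 / (n : ℝ) ^ 2 else 0) hw).symm
      _ ≤ _ := fob_nat F hF R _
  rw [← Finset.sum_filter_add_sum_filter_not u (fun k => 0 ≤ k)]
  have h1 := hpart (u.filter fun k => 0 ≤ k) (by
    intro a ha b hb hab
    rw [Finset.mem_coe, Finset.mem_filter] at ha hb
    have h1 := ha.2
    have h2 := hb.2
    omega)
  have h2 := hpart (u.filter fun k => ¬ 0 ≤ k) (by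
    intro a ha b hb hab
    rw [Finset.mem_coe, Finset.mem_filter] at ha hb
    have h1 := ha.2
    have h2 := hb.2
    omega)
  calc _ ≤ R ^ 2 / F + R ^ 2 / F := add_le_add h1 h2
    _ = 2 * R ^ 2 / F := by ring

open Classical in
theorem fc_avg {ι : Type*} (S : Finset ι) (w : ι → ℝ) (q : ι → ℕ) (hw : ∀ i ∈ S, 0 ≤ w i)
    (hw1 : ∑ i ∈ S, w i = 1) (hq : ∀ i ∈ S, 1 ≤ q i) (G : ℝ → ℝ) (hG : Measurable G)
    (hb : ∀ s, |G s| ≤ 1) (hp : ∀ s, G (s + 1) = G s) (R δ : ℝ) (hR : 0 ≤ R) (hδ : 0 ≤ δ) (F : ℕ)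
    (hF : 1 ≤ F) (hc : ∀ k : ℤ, k ≠ 0 → ‖fc G k‖ ≤ R / |(k : ℝ)|)
    (hd : ∀ k : ℕ, 1 ≤ k → k ≤ F → ∑ i ∈ S.filter (fun i => q i ∣ k), w i ≤ δ) :
    -√(δ + 2 * R ^ 2 / F) ≤ ∑ i ∈ S, w i * ∫ s in (0 : ℝ)..1, G s * G (q i * s) := by
  obtain ⟨hsum, hle1⟩ := fc_summable G hG hb
  set a : ℤ → ℝ := fun k => ‖fc G k‖ ^ 2 with ha
  have ha0 : ∀ k, 0 ≤ a k := fun k => sq_nonneg _
  set T : ι → ℝ := fun i => ∑' k : ℤ, if k ≠ 0 ∧ (q i : ℤ) ∣ k then a k else 0 with hT
  have hTs : ∀ i, Summable fun k : ℤ => if k ≠ 0 ∧ (q i : ℤ) ∣ k then a k else 0 := by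
    intro i
    refine Summable.of_nonneg_of_le (fun k => ?_) (fun k => ?_) hsum
    · split_ifs
      · exact ha0 k
      · exact le_rfl
    · split_ifs
      · exact le_rfl
      · exact ha0 k
  have hT0 : ∀ i, 0 ≤ T i := fun i => tsum_nonneg fun k => by
    split_ifs
    · exact ha0 k
    · exact le_rfl
  -- the tail
  set c : ℤ → ℝ := fun k => if F < k.natAbs then R ^ 2 / (k : ℝ) ^ 2 else 0 with hcdef
  have hc0 : 0 ≤ c := fun k => by
    simp only [hcdef, Pi.zero_apply]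
    split_ifs
    · positivity
    · exact le_rfl
  have hcs : Summable c := summable_of_sum_le hc0 (fob_int F hF R)
  have hct : ∑' k, c k ≤ 2 * R ^ 2 / F := Real.tsum_le_of_sum_le hc0 (fob_int F hF R)
  -- the weighted sum
  have hmain : ∑ i ∈ S, w i * T i ≤ δ + 2 * R ^ 2 / F := by
    have h1 : ∑ i ∈ S, w i * T i =
        ∑' k : ℤ, ∑ i ∈ S, w i * (if k ≠ 0 ∧ (q i : ℤ) ∣ k then a k else 0) := by
      rw [Summable.tsum_finsetSum (fun i _ => (hTs i).mul_left (w i))]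
      exact Finset.sum_congr rfl fun i _ => (tsum_mul_left).symm
    rw [h1]
    have hpt : ∀ k : ℤ, ∑ i ∈ S, w i * (if k ≠ 0 ∧ (q i : ℤ) ∣ k then a k else 0) ≤
        δ * a k + c k := by
      intro k
      by_cases hk : k = 0
      · subst hk
        have h2 : ∑ i ∈ S, w i * (if (0 : ℤ) ≠ 0 ∧ (q i : ℤ) ∣ 0 then a 0 else 0) = 0 := by
          apply Finset.sum_eq_zero
          intro i _
          rw [if_neg (fun h => h.1 rfl), mul_zero]
        rw [h2]
        have := mul_nonneg hδ (ha0 0)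
        have := hc0 0
        simp only [Pi.zero_apply] at this
        linarith
      · have h2 : ∑ i ∈ S, w i * (if k ≠ 0 ∧ (q i : ℤ) ∣ k then a k else 0) =
            (∑ i ∈ S.filter (fun i => q i ∣ k.natAbs), w i) * a k := by
          rw [Finset.sum_filter, Finset.sum_mul]
          apply Finset.sum_congr rfl
          intro i _
          have h3 : ((q i : ℤ) ∣ k) ↔ q i ∣ k.natAbs := Int.natCast_dvd
          by_cases h4 : q i ∣ k.natAbs
          · rw [if_pos ⟨hk, h3.2 h4⟩, if_pos h4]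
          · rw [if_neg (fun h => h4 (h3.1 h.2)), if_neg h4, mul_zero, zero_mul]
        rw [h2]
        have hk1 : 1 ≤ k.natAbs := Int.natAbs_pos.2 hk
        by_cases hkF : k.natAbs ≤ F
        · have h5 := hd k.natAbs hk1 hkF
          have h6 := mul_le_mul_of_nonneg_right h5 (ha0 k)
          have := hc0 k
          simp only [Pi.zero_apply] at this
          linarith
        · push Not at hkF
          have h5 : ∑ i ∈ S.filter (fun i => q i ∣ k.natAbs), w i ≤ 1 := by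
            rw [← hw1]
            exact Finset.sum_le_sum_of_subset_of_nonneg (Finset.filter_subset _ _)
              fun i hi _ => hw i hi
          have h6 : a k ≤ c k := by
            have h7 := hc k hk
            have h8 : c k = (R / |(k : ℝ)|) ^ 2 := by
              simp only [hcdef]
              rw [if_pos hkF, div_pow, sq_abs]
            rw [h8]
            exact pow_le_pow_left₀ (norm_nonneg _) h7 2
          have h9 : 0 ≤ δ * a k := mul_nonneg hδ (ha0 k)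
          calc (∑ i ∈ S.filter (fun i => q i ∣ k.natAbs), w i) * a k ≤ 1 * a k :=
                mul_le_mul_of_nonneg_right h5 (ha0 k)
            _ ≤ δ * a k + c k := by linarith
    have hs1 : Summable fun k : ℤ =>
        ∑ i ∈ S, w i * (if k ≠ 0 ∧ (q i : ℤ) ∣ k then a k else 0) :=
      summable_sum fun i _ => (hTs i).mul_left (w i)
    have hs2 : Summable fun k : ℤ => δ * a k + c k := (hsum.mul_left δ).add hcs
    calc _ ≤ ∑' k : ℤ, (δ * a k + c k) := hs1.tsum_le_tsum hpt hs2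
      _ = δ * ∑' k, a k + ∑' k, c k := by
        rw [(hsum.mul_left δ).tsum_add hcs, tsum_mul_left]
      _ ≤ δ * 1 + 2 * R ^ 2 / F := add_le_add (mul_le_mul_of_nonneg_left hle1 hδ) hct
      _ = _ := by ring
  -- Jensen
  have hjen : (∑ i ∈ S, w i * √(T i)) ^ 2 ≤ ∑ i ∈ S, w i * T i := by
    have h1 := Finset.sum_mul_sq_le_sq_mul_sq S (fun i => √(w i)) (fun i => √(w i) * √(T i))
    have e1 : ∑ i ∈ S, √(w i) * (√(w i) * √(T i)) = ∑ i ∈ S, w i * √(T i) :=
      Finset.sum_congr rfl fun i hi => by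
        rw [← mul_assoc, Real.mul_self_sqrt (hw i hi)]
    have e2 : ∑ i ∈ S, √(w i) ^ 2 = 1 := by
      rw [← hw1]
      exact Finset.sum_congr rfl fun i hi => Real.sq_sqrt (hw i hi)
    have e3 : ∑ i ∈ S, (√(w i) * √(T i)) ^ 2 = ∑ i ∈ S, w i * T i :=
      Finset.sum_congr rfl fun i hi => by
        rw [mul_pow, Real.sq_sqrt (hw i hi), Real.sq_sqrt (hT0 i)]
    rw [e1, e2, e3, one_mul] at h1
    exact h1
  have hsq : ∑ i ∈ S, w i * √(T i) ≤ √(δ + 2 * R ^ 2 / F) :=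
    Real.le_sqrt_of_sq_le (hjen.trans hmain)
  have hlow : -∑ i ∈ S, w i * √(T i) ≤ ∑ i ∈ S, w i * ∫ s in (0 : ℝ)..1, G s * G (q i * s) := by
    rw [← Finset.sum_neg_distrib]
    apply Finset.sum_le_sum
    intro i hi
    have h1 := fc_corr G hG hb hp (q i) (hq i hi)
    have h2 := mul_le_mul_of_nonneg_left h1 (hw i hi)
    calc -(w i * √(T i)) = w i * -√(T i) := by ring
      _ ≤ _ := h2
  linarith

end Pool.Agent.CQF
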