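import Pool.Agent.CQF.Loc
import Pool.Agent.CQF.Msr

set_option autoImplicit false

/-!
# Module Fxa (size 4): pointwise relation and cells

`q = p m`. For irrational `s ∈ (0, K)`: `j = ⌊q s / K⌋ < q` (a natural number), `σ = sg K q s = q s - K j ∈ (0, K)`
irrational. The cell of `(w, j)` is `{s | q s - K j ∈ J w}`, an open interval of length `len w / q` in `(0, K)`.

* `rel`: `Φ h' = Φ w` because `σ ∉ Ust` lies in both `h'` (order `N`) and `w` (order `np`), both in `ndw K N N2`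
  (`np ≤ N2` by `hN2`);
  `Φ hh = Φ w` by assumption; `sib` (with `vv_eq`, `hh_nd`, `vv_nd`) gives `Φ vv = - Φ hh` as `vv ∉ Bd`; `Φ vv = Φ h`
  by assumption. So `Φ h' = Φ w = Φ hh = - Φ vv = - Φ h`.
* `meas_pre`: `∑_{j < q} |{s ∈ (0,K) : q s - K j ∈ X ∩ (0, K)}| = |X ∩ (0, K)|`: the map `sg K q` on `(0, K)` preserves
  the measure: for measurable `X`, `{s ∈ (0, K) : sg K q s ∈ X}` has measure `mu K X` (it is, up to finitely many points,
  the disjoint union over `j < q` of `(X ∩ (0,K) + K j)/q`).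
-/

open MeasureTheory

namespace Pool.Agent.CQF

theorem sg_eq {K q : ℕ} (hK : 1 ≤ K) (hq : 1 ≤ q) {s : ℝ} (h0 : 0 < s) (h1 : s < K)
    (hi : Irrational s) : ∃ j : ℕ, j < q ∧ sg K q s = q * s - K * j ∧ 0 < sg K q s ∧ sg K q s < K ∧
      Irrational (sg K q s) := by
  have hKp : (0 : ℝ) < K := by exact_mod_cast hK
  have hqp : (0 : ℝ) < q := by exact_mod_cast hq
  have hx0 : 0 < (q : ℝ) * s / K := by positivity
  have hxq : (q : ℝ) * s / K < q := by
    rw [div_lt_iff₀ hKp]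
    exact mul_lt_mul_of_pos_left h1 hqp
  have hfl0 : 0 ≤ ⌊(q : ℝ) * s / K⌋ := Int.floor_nonneg.mpr hx0.le
  obtain ⟨j, hj⟩ := Int.eq_ofNat_of_zero_le hfl0
  have hjq : j < q := by
    have h2 : ⌊(q : ℝ) * s / K⌋ < (q : ℤ) := by
      rw [Int.floor_lt]
      exact_mod_cast hxq
    rw [hj] at h2
    exact_mod_cast h2
  have hsg : sg K q s = q * s - K * j := by
    unfold sg
    rw [← Int.self_sub_floor, hj]
    push_cast
    field_simp
  have hirr : Irrational (sg K q s) := by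
    rw [hsg]
    have h3 : Irrational ((q : ℝ) * s) := by
      have := hi.natCast_mul (m := q) (by omega)
      exact this
    have h4 := h3.sub_natCast (K * j)
    push_cast at h4
    exact h4
  refine ⟨j, hjq, hsg, ?_, ?_, hirr⟩
  · have h5 : 0 ≤ sg K q s := by
      unfold sg
      exact mul_nonneg hKp.le (Int.fract_nonneg _)
    rcases h5.lt_or_eq with h6 | h6
    · exact h6
    · exfalso
      exact hirr.ne_zero h6.symm
  · unfold sg
    have := Int.fract_lt_one ((q : ℝ) * s / K)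
    nlinarith

private theorem fxa_cell {K q : ℕ} (hq : 1 ≤ q) (X : Set ℝ) (j : ℕ) :
    volume {s : ℝ | (q : ℝ) * s - K * j ∈ X} = ENNReal.ofReal ((q : ℝ)⁻¹) * volume X := by
  have hqp : (0 : ℝ) < q := by exact_mod_cast hq
  have h1 : {s : ℝ | (q : ℝ) * s - K * j ∈ X} =
      ((q : ℝ) * ·) ⁻¹' ((fun t : ℝ => t + (-((K : ℝ) * j))) ⁻¹' X) := by
    ext s
    simp [sub_eq_add_neg]
  rw [h1, Real.volume_preimage_mul_left hqp.ne', measure_preimage_add_right,
    abs_of_pos (inv_pos.mpr hqp)]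

theorem meas_pre {K q : ℕ} (hK : 1 ≤ K) (hq : 1 ≤ q) {X : Set ℝ} (hX : MeasurableSet X) :
    (mu K).real {s | sg K q s ∈ X} = (mu K).real X := by
  have hKp : (0 : ℝ) < K := by exact_mod_cast hK
  have hqp : (0 : ℝ) < q := by exact_mod_cast hq
  set A : ℕ → Set ℝ := fun j => {s : ℝ | (q : ℝ) * s - K * j ∈ X ∩ Set.Ioo (0 : ℝ) K} with hA
  have hmA : ∀ j, MeasurableSet (A j) := fun j =>
    (measurableSet_preimage (by fun_prop) (hX.inter measurableSet_Ioo))
  have hsgm : MeasurableSet {s | sg K q s ∈ X} := by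
    have : Measurable (sg K q) := by
      unfold sg
      fun_prop
    exact this hX
  unfold mu
  rw [measureReal_restrict_apply hsgm, measureReal_restrict_apply hX]
  have hae : ({s | sg K q s ∈ X} ∩ Set.Ioo (0 : ℝ) K : Set ℝ) =ᵐ[volume]
      (⋃ j ∈ Finset.range q, A j : Set ℝ) := by
    have hcount : (Set.range (fun r : ℚ => (r : ℝ))).Countable := Set.countable_range _
    have hnull : volume (Set.range (fun r : ℚ => (r : ℝ))) = 0 := hcount.measure_zero _
    rw [ae_eq_set]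
    constructor
    · refine measure_mono_null ?_ hnull
      rintro s ⟨⟨hs1, hs2⟩, hs3⟩
      by_contra hirr
      apply hs3
      obtain ⟨j, hj, he, h0, h1, -⟩ := sg_eq hK hq hs2.1 hs2.2 hirr
      simp only [Set.mem_iUnion]
      refine ⟨j, Finset.mem_range.mpr hj, ?_⟩
      show (q : ℝ) * s - K * j ∈ X ∩ Set.Ioo (0 : ℝ) K
      rw [← he]
      exact ⟨hs1, h0, h1⟩
    · refine measure_mono_null ?_ hnull
      rintro s ⟨hs1, hs3⟩
      exfalso
      apply hs3
      simp only [Set.mem_iUnion] at hs1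
      obtain ⟨j, hj, hx, h0, h1⟩ := hs1
      have hj := Finset.mem_range.mp hj
      have hj' : (j : ℝ) + 1 ≤ q := by exact_mod_cast hj
      have hs0 : 0 < s := by
        have : 0 < (q : ℝ) * s := by
          have : 0 ≤ (K : ℝ) * j := by positivity
          linarith
        exact (mul_pos_iff_of_pos_left hqp).mp this
      have hsK : s < K := by
        have h2 : (q : ℝ) * s < q * K := by
          have : (K : ℝ) * (j + 1) ≤ K * q := mul_le_mul_of_nonneg_left hj' hKp.le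
          nlinarith
        exact lt_of_mul_lt_mul_left h2 hqp.le
      have hfl : ⌊(q : ℝ) * s / K⌋ = (j : ℤ) := by
        rw [Int.floor_eq_iff]
        constructor
        · rw [le_div_iff₀ hKp]
          push_cast
          nlinarith
        · rw [div_lt_iff₀ hKp]
          push_cast
          nlinarith
      have hsg : sg K q s = q * s - K * j := by
        unfold sg
        rw [← Int.self_sub_floor, hfl]
        push_cast
        field_simp
      refine ⟨?_, hs0, hsK⟩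
      show sg K q s ∈ X
      rw [hsg]
      exact hx
  have hdisj : ((Finset.range q : Finset ℕ) : Set ℕ).PairwiseDisjoint A := by
    intro i _ j _ hij
    rw [Function.onFun, Set.disjoint_left]
    rintro s ⟨-, h1, h2⟩ ⟨-, h3, h4⟩
    apply hij
    have h5 : ((i : ℤ) : ℝ) - j < 1 := by
      have : (K : ℝ) * (i - j) < K * 1 := by linarith
      have := lt_of_mul_lt_mul_left this hKp.le
      push_cast
      linarith
    have h6 : ((j : ℤ) : ℝ) - i < 1 := by
      have : (K : ℝ) * (j - i) < K * 1 := by linarith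
      have := lt_of_mul_lt_mul_left this hKp.le
      push_cast
      linarith
    have h7 : (i : ℤ) - j < 1 := by exact_mod_cast h5
    have h8 : (j : ℤ) - i < 1 := by exact_mod_cast h6
    omega
  have hsum : volume (⋃ j ∈ Finset.range q, A j : Set ℝ) = volume (X ∩ Set.Ioo (0 : ℝ) K) := by
    rw [measure_biUnion_finset hdisj (fun j _ => hmA j)]
    have : ∀ j ∈ Finset.range q, volume (A j) =
        ENNReal.ofReal ((q : ℝ)⁻¹) * volume (X ∩ Set.Ioo (0 : ℝ) K) := fun j _ => fxa_cell hq _ j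
    rw [Finset.sum_congr rfl this, Finset.sum_const, Finset.card_range, nsmul_eq_mul, ← mul_assoc]
    have : (q : ENNReal) * ENNReal.ofReal ((q : ℝ)⁻¹) = 1 := by
      rw [← ENNReal.ofReal_natCast, ← ENNReal.ofReal_mul hqp.le, mul_inv_cancel₀ hqp.ne',
        ENNReal.ofReal_one]
    rw [this, one_mul]
  unfold Measure.real
  rw [measure_congr hae, hsum]

theorem rel {D : Dat} (hD : D.Ok) {Φ : M2 → ℝ} {Bd : Set M2}
    (hΦ : PhiOk D.K D.m D.H0 Φ Bd D.p D.M) {s : ℝ} {j : ℕ}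
    (hj : j < D.p * D.m) {w h h' m1 m2 : M2} (hw : w ∈ nds D.K D.np)
    (hs : (D.p : ℝ) * D.m * s - D.K * j ∈ J w) (h1 : m1 ∈ D.B) (h2 : m2 ∈ D.B)
    (hc : D.Cl w j m1 m2) (ha : Φ (D.hh w m1 m2) = Φ w) (hb : D.vv w j m1 m2 ∉ Bd)
    (hv : Φ (D.vv w j m1 m2) = Φ h) (hh' : h' ∈ nds D.K D.N)
    (hs' : (D.p : ℝ) * D.m * s - D.K * j ∈ J h') (hi : Irrational s)
    (hU : (D.p : ℝ) * D.m * s - D.K * j ∉ Ust Φ D.K D.N D.N2) : Φ h' = - Φ h := by
  have hp1 : 1 ≤ D.p := hD.hp.one_lt.le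
  have hnN2 : D.np ≤ D.N2 := by
    have h3 := hD.hN2
    have hR : (1 : ℝ) ≤ D.R := by exact_mod_cast hD.hR
    have hn : (1 : ℝ) ≤ D.n := by exact_mod_cast hD.hn
    have hn2 : (1 : ℝ) ≤ (D.n : ℝ) ^ 2 := by nlinarith
    have hc2 : 0 ≤ D.c2 * √D.p := by
      have : 0 ≤ D.c2 := (hD.hc1.le).trans hD.hc12
      positivity
    have hnp : (0 : ℝ) ≤ D.np := by positivity
    have h4 : (D.np : ℝ) ≤ 2 * D.R * D.np * (D.n : ℝ) ^ 2 * (1 + D.c2 * √D.p) := by
      have e1 : (D.np : ℝ) ≤ 2 * D.R * D.np := by nlinarith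
      have e2 : 2 * D.R * (D.np : ℝ) ≤ 2 * D.R * D.np * (D.n : ℝ) ^ 2 := by
        have : (0 : ℝ) ≤ 2 * D.R * D.np := by positivity
        nlinarith
      have e3 : 2 * D.R * (D.np : ℝ) * (D.n : ℝ) ^ 2 ≤
          2 * D.R * D.np * (D.n : ℝ) ^ 2 * (1 + D.c2 * √D.p) := by
        have : (0 : ℝ) ≤ 2 * D.R * D.np * (D.n : ℝ) ^ 2 := by positivity
        nlinarith
      linarith
    have h5 : (D.np : ℝ) ≤ D.N2 := h4.trans h3
    exact_mod_cast h5
  have hNN2 : D.N ≤ D.N2 := hD.hNnp.trans hnN2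
  obtain ⟨wn, ww, wa⟩ := (mem_ndw hD.hK).mp hw
  obtain ⟨hn', hw', ha'⟩ := (mem_ndw hD.hK).mp hh'
  have hwm : w ∈ ndw D.K D.N D.N2 := (mem_ndw hD.hK).mpr ⟨wn, win_mono hD.hNnp hnN2 ww, wa⟩
  have hhm : h' ∈ ndw D.K D.N D.N2 := (mem_ndw hD.hK).mpr ⟨hn', win_mono le_rfl hNN2 hw', ha'⟩
  have hσ := J_subset wn wa hs
  have hσi : Irrational ((D.p : ℝ) * D.m * s - D.K * j) := by
    have h3 : Irrational (((D.p * D.m : ℕ) : ℝ) * s) := by
      have h0 : D.p * D.m ≠ 0 := by
        have := Nat.mul_le_mul hp1 hD.hm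
        omega
      exact hi.natCast_mul h0
    have h4 := h3.sub_natCast (D.K * j)
    push_cast at h4
    exact h4
  have hΦw : Φ h' = Φ w := by
    by_contra hne
    exact hU ⟨hσ.1, hσ.2, hσi, h', hhm, w, hwm, hs', hs, hne⟩
  obtain ⟨g1, g2, -, -, g5⟩ := hh_nd hD hw h1 h2
  obtain ⟨v1, -, -, -⟩ := vv_nd hD hj hw h1 h2 hc
  have hsib := hΦ.sib (D.hh w m1 m2) (D.vv w j m1 m2) g1 g2 g5 v1 j (vv_eq hp1 hD.hm hc)
  rcases hsib with h3 | h3
  · rw [hΦw, ← ha, ← hv, h3, neg_neg]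
  · exact absurd h3 hb

end Pool.Agent.CQF
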