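import Pool.Agent.CQF.Fxa

set_option autoImplicit false

/-!
# Module Fxb (size 4): few cells cross an endpoint of a node of order `N`

`q = p m`; cells `I(w, j) = {s | q s - K j ∈ J w}`, `w ∈ nds K np`, `j < q`, are open intervals
`((K j + b/d)/q, (K j + a/c)/q)` in `(0, K)` of length `len w / q`, pairwise disjoint. A cell which
contains an irrational point of `J h`, `h ∈ nds K N` but is not contained in `J h` contains (in its interior) one of the
two endpoints of `J h`. So the number of cells not contained in any `J h` is at most `2 card (nds K N) ≤ 2 K N²`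
(every cell contains an irrational point, which lies in some `J h`, `fa_nds`).
If `w` is `A`-balanced of order `np` then `len w ≤ 4 A / np² ≤ 4 A / N²`
(`max (c, d) > np/2`, `c d ≥ max²/A`). So the sum of `len w / q` over these cells is at most
`2 K N² · 4 A / (N² q) = 8 A K / q`.
-/

open MeasureTheory

namespace Pool.Agent.CQF

theorem len_bal {K np : ℕ} {A : ℝ} (hA : 1 ≤ A) (hK : 1 ≤ K) (hnp : 1 ≤ np) {w : M2}
    (hw : w ∈ nds K np) (hb : Bal A w) : len w ≤ 4 * A / (np : ℝ) ^ 2 := by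
  obtain ⟨h1, ⟨h2, h3, h4⟩, h5⟩ := (mem_ndw hK).1 hw
  obtain ⟨b1, b2⟩ := hb
  have hc0 : (0 : ℝ) < (w 1 0 : ℝ) := by exact_mod_cast h1.c0
  have hd0 : (0 : ℝ) < (w 1 1 : ℝ) := by exact_mod_cast h1.d0
  have h6 : (np : ℝ) ≤ (w 1 0 : ℝ) + w 1 1 := by exact_mod_cast h4.le
  have hnp' : (0 : ℝ) < np := by exact_mod_cast hnp
  unfold len
  generalize (w 1 0 : ℝ) = c at *
  generalize (w 1 1 : ℝ) = d at *
  rw [div_le_div_iff₀ (by positivity) (by positivity), one_mul]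
  have h7 : (np : ℝ) ^ 2 ≤ (c + d) ^ 2 := by
    apply pow_le_pow_left₀ hnp'.le h6
  have h8 : c * c ≤ A * d * c := mul_le_mul_of_nonneg_right b1 hc0.le
  have h9 : d * d ≤ A * c * d := mul_le_mul_of_nonneg_right b2 hd0.le
  have h10 : c * d ≤ A * (c * d) := by
    have := mul_pos hc0 hd0
    nlinarith
  nlinarith

private theorem Fxb_end {K N q : ℕ} (hK : 1 ≤ K) (hN : 1 ≤ N) (hq : 1 ≤ q) {w : M2} {j : ℕ}
    (hw : IsNd w) (hwK : w 0 0 ≤ K * w 1 0) (hj : j < q)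
    (hn : ¬ ∃ h ∈ nds K N, ∀ s : ℝ, (q : ℝ) * s - K * j ∈ J w → s ∈ J h) :
    ∃ y ∈ nds K N ×ˢ (Finset.univ : Finset Bool),
      (q : ℝ) * (if y.2 then (y.1 0 1 : ℝ) / y.1 1 1 else (y.1 0 0 : ℝ) / y.1 1 0) - K * j ∈ J w := by
  have hq' : (0 : ℝ) < q := by exact_mod_cast hq
  have hK' : (0 : ℝ) < K := by exact_mod_cast hK
  have hlt : (w 0 1 : ℝ) / w 1 1 < (w 0 0 : ℝ) / w 1 0 := by
    have hc0 : (0 : ℝ) < (w 1 0 : ℝ) := by exact_mod_cast hw.c0
    have hd0 : (0 : ℝ) < (w 1 1 : ℝ) := by exact_mod_cast hw.d0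
    rw [div_lt_div_iff₀ hd0 hc0]
    have h1 : ((w 0 0 * w 1 1 - w 0 1 * w 1 0 : ℤ) : ℝ) = 1 := by rw [hw.det]; norm_num
    push_cast at h1
    linarith
  have hsub := J_subset hw hwK
  obtain ⟨s, hsi, hs1, hs2⟩ := exists_irrational_btwn
    (show ((w 0 1 : ℝ) / w 1 1 + K * j) / q < ((w 0 0 : ℝ) / w 1 0 + K * j) / q by
      apply div_lt_div_of_pos_right _ hq'
      linarith)
  rw [div_lt_iff₀ hq'] at hs1
  rw [lt_div_iff₀ hq'] at hs2
  have hs : (q : ℝ) * s - K * j ∈ J w := ⟨by linarith, by linarith⟩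
  have hs' := hsub hs
  have hs0 : 0 < s := by
    have h1 := hs'.1
    have h2 : (0 : ℝ) ≤ K * j := by positivity
    by_contra hc
    push Not at hc
    nlinarith
  have hsK : s < K := by
    have h1 := hs'.2
    have h2 : (j : ℝ) + 1 ≤ q := by exact_mod_cast hj
    have h3 : (q : ℝ) * s < K * q := by nlinarith
    nlinarith
  obtain ⟨h, hh, hsh⟩ := fa_nds hK hN hs0 hsK hsi
  have hn' : ∃ s' : ℝ, (q : ℝ) * s' - K * j ∈ J w ∧ s' ∉ J h := by
    by_contra hc
    push Not at hc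
    exact hn ⟨h, hh, hc⟩
  obtain ⟨s', hs'1, hs'2⟩ := hn'
  have hcase : s' ≤ (h 0 1 : ℝ) / h 1 1 ∨ (h 0 0 : ℝ) / h 1 0 ≤ s' := by
    by_contra hc
    push Not at hc
    exact hs'2 ⟨hc.1, hc.2⟩
  rcases hcase with hc | hc
  · refine ⟨(h, true), Finset.mem_product.2 ⟨hh, Finset.mem_univ _⟩, ?_⟩
    rw [if_pos rfl]
    have h1 := hsh.1
    have h2 := hs'1.1
    have h3 := hs.2
    constructor
    · have := mul_le_mul_of_nonneg_left hc hq'.le
      change (w 0 1 : ℝ) / w 1 1 < (q : ℝ) * ((h 0 1 : ℝ) / h 1 1) - K * j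
      linarith
    · have := mul_lt_mul_of_pos_left h1 hq'
      change (q : ℝ) * ((h 0 1 : ℝ) / h 1 1) - K * j < (w 0 0 : ℝ) / w 1 0
      linarith
  · refine ⟨(h, false), Finset.mem_product.2 ⟨hh, Finset.mem_univ _⟩, ?_⟩
    rw [if_neg (by simp)]
    have h1 := hsh.2
    have h2 := hs'1.2
    have h3 := hs.1
    constructor
    · have := mul_lt_mul_of_pos_left h1 hq'
      change (w 0 1 : ℝ) / w 1 1 < (q : ℝ) * ((h 0 0 : ℝ) / h 1 0) - K * j
      linarith
    · have := mul_le_mul_of_nonneg_left hc hq'.le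
      change (q : ℝ) * ((h 0 0 : ℝ) / h 1 0) - K * j < (w 0 0 : ℝ) / w 1 0
      linarith

theorem cross {K N np q : ℕ} {A : ℝ} (hA : 1 ≤ A) (hK : 1 ≤ K) (hN : 1 ≤ N) (hnp : N ≤ np)
    (hq : 1 ≤ q) (T : Finset (M2 × ℕ))
    (hT : ∀ x ∈ T, x.1 ∈ nds K np ∧ Bal A x.1 ∧ x.2 < q ∧
      ¬ ∃ h ∈ nds K N, ∀ s : ℝ, (q : ℝ) * s - K * x.2 ∈ J x.1 → s ∈ J h) :
    ∑ x ∈ T, len x.1 / q ≤ 8 * A * K / q := by
  have hq' : (0 : ℝ) < q := by exact_mod_cast hq
  have hK' : (0 : ℝ) < K := by exact_mod_cast hK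
  have hN' : (0 : ℝ) < N := by exact_mod_cast hN
  have hNnp : (N : ℝ) ≤ np := by exact_mod_cast hnp
  have hcard : T.card ≤ (nds K N ×ˢ (Finset.univ : Finset Bool)).card := by
    apply Finset.card_le_card_of_forall_subsingleton
      (fun (x : M2 × ℕ) (y : M2 × Bool) => (q : ℝ) *
        (if y.2 then (y.1 0 1 : ℝ) / y.1 1 1 else (y.1 0 0 : ℝ) / y.1 1 0) - K * x.2 ∈ J x.1)
    · intro x hx
      obtain ⟨h1, h2, h3, h4⟩ := hT x hx
      obtain ⟨g1, g2, g3⟩ := (mem_ndw hK).1 h1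
      exact Fxb_end hK hN hq g1 g3 h3 h4
    · intro y _ x hx x' hx'
      obtain ⟨hx1, hx2⟩ := hx
      obtain ⟨hx'1, hx'2⟩ := hx'
      obtain ⟨h1, h2, h3, h4⟩ := hT x hx1
      obtain ⟨h1', h2', h3', h4'⟩ := hT x' hx'1
      obtain ⟨g1, g2, g3⟩ := (mem_ndw hK).1 h1
      obtain ⟨g1', g2', g3'⟩ := (mem_ndw hK).1 h1'
      generalize (if y.2 then (y.1 0 1 : ℝ) / y.1 1 1 else (y.1 0 0 : ℝ) / y.1 1 0) = z at hx2 hx'2
      have k1 := J_subset g1 g3 hx2
      have k2 := J_subset g1' g3' hx'2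
      have e2 : x.2 = x'.2 := by
        have a1 := k1.1
        have a2 := k1.2
        have a3 := k2.1
        have a4 := k2.2
        have b1 : (K : ℝ) * ((x.2 : ℝ) - x'.2) < K * 1 := by linarith
        have b2 : (K : ℝ) * ((x'.2 : ℝ) - x.2) < K * 1 := by linarith
        have c1 := lt_of_mul_lt_mul_left b1 hK'.le
        have c2 := lt_of_mul_lt_mul_left b2 hK'.le
        have c3 : (x.2 : ℝ) < x'.2 + 1 := by linarith
        have c4 : (x'.2 : ℝ) < x.2 + 1 := by linarith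
        have c5 : x.2 < x'.2 + 1 := by exact_mod_cast c3
        have c6 : x'.2 < x.2 + 1 := by exact_mod_cast c4
        omega
      have e1 : x.1 = x'.1 := by
        by_contra hne
        rw [e2] at hx2
        exact Set.disjoint_left.1 (nds_disj hK h1 h1' hne) hx2 hx'2
      exact Prod.ext e1 e2
  rw [Finset.card_product, Finset.card_univ, Fintype.card_bool] at hcard
  have hcard2 : (T.card : ℝ) ≤ 2 * (K * (N : ℝ) ^ 2) := by
    have h1 := card_nds K N hK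
    have h2 : T.card ≤ 2 * (K * N ^ 2) := by omega
    exact_mod_cast h2
  have hterm : ∀ x ∈ T, len x.1 / q ≤ 4 * A / (N : ℝ) ^ 2 / q := by
    intro x hx
    obtain ⟨h1, h2, h3, h4⟩ := hT x hx
    apply div_le_div_of_nonneg_right _ hq'.le
    apply (len_bal hA hK (hN.trans hnp) h1 h2).trans
    apply div_le_div_of_nonneg_left (by positivity) (by positivity)
    exact pow_le_pow_left₀ hN'.le hNnp 2
  calc ∑ x ∈ T, len x.1 / q ≤ ∑ _x ∈ T, 4 * A / (N : ℝ) ^ 2 / q := Finset.sum_le_sum hterm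
    _ = T.card * (4 * A / (N : ℝ) ^ 2 / q) := by rw [Finset.sum_const, nsmul_eq_mul]
    _ ≤ 2 * (K * (N : ℝ) ^ 2) * (4 * A / (N : ℝ) ^ 2 / q) := by
        apply mul_le_mul_of_nonneg_right hcard2
        positivity
    _ = 8 * A * K / q := by
        field_simp
        ring

end Pool.Agent.CQF
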