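import Pool.Agent.CQF.Cov
import Pool.Agent.CQF.Fxb

set_option autoImplicit false

/-!
# Module Fxc (size 5): the exceptional set for one prime

`q = p m`, `u = mu K (Ust Φ K N N2)`. `Xs` is the set where the relation `G(q s) = - G(s)` fails.  Let `W` be the finset of
all cells `(w, j)`, `w ∈ nds K np`, `j < q`. For irrational `s ∈ (0, K)` there is exactly one cell containing `s`.
Call `(w, j)` good if there are `m1, m2 ∈ B` with `Cl`, `Φ hh = Φ w`, `vv ∉ Bd` and an `h ∈ nds K N` containing the whole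
cell with `Φ vv = Φ h`.  By `rel`, `Xs ⊆ {σ(s) ∈ Ust} ∪ (non-good cells)` (up to nothing: `Xs` consists of irrational points).
`|{σ ∈ Ust}| = u` (`meas_pre`, `meas_Ust`). Non-good cells are of one of the types
 1. `w` not `A`-balanced: total `∑_{w, j} len w/q = ∑_w len w ≤ mu K (Eun K np np A)` (`sum_unbal`);
 2. `w` balanced and `j` in the exceptional set of `cov`: total `≤ ∑_w len w · card E / q ≤ K · e / q`,
    `e := m · 4 (p+1)² ((p²-1)Q)²/|B|⁴`;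
 3. `w` balanced, cell in no `J h`, `h ∈ nds K N`: total `≤ 8 A K / q` (`cross`);
 4. otherwise: `∑_{Y} len hh ≥ c0' · len w` with
    `c0' = |B|²/(2(p+1)) / (4 R² A n⁴)`, and every `(m1, m2) ∈ Y` is bad: `Φ hh ≠ Φ w`, or `vv ∈ Bd`, or
    `Φ vv ≠ Φ h` where `J h ⊇` cell.
    So `len w ≤ (1/c0') (∑_{Y, Φ hh ≠ Φ w} len hh + ∑_{Y, vv ∈ Bd or (irrational points of J vv) ⊆ Ust} len hh)`
    (if `Φ vv ≠ Φ h`, all irrational points of `J vv ⊆` cell `⊆ J h` are in `Ust`, provided `vv ∈ ndw K N N2`, which holds by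
    `vv_win` and `hlow`).
    Summing over the cells of type 4: the first sum: if `Φ hh ≠ Φ w` the irrational points of `J hh ⊆ J w` are in `Ust`
    (`w, hh ∈ ndw K N N2`); for fixed `(w, m1, m2)` at most `m` values of `j` (`cl_card`); the `J hh` are disjoint
    (`hh_disj`), so by `sum_len_le` the total is `≤ m u`. The second sum: by `vv_len` and `vv_inj` it is at most
    `c2² p ∑_{v ∈ V} len v` over the finset `V` (given) of nodes `v` which are in `Bd` or have the irrational points of `J v` in `Ust`.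
Total: `mu K Xs ≤ u + mu K (Eun K np np A) + K e/q + 8AK/q + (1/(c0' q)) (m u + c2² p ∑_{v ∈ V} len v)`.
-/

open MeasureTheory

namespace Pool.Agent.CQF

variable {D : Dat}

private theorem Fxc_cell_le {K q : ℕ} (hq : 1 ≤ q) {w : M2} (hw : IsNd w) (j : ℕ) :
    (mu K).real {s : ℝ | (q : ℝ) * s - K * j ∈ J w} ≤ len w / q := by
  have hq0 : (0:ℝ) < q := by exact_mod_cast hq
  have hc : (0:ℝ) < w 1 0 := by exact_mod_cast hw.c0
  have hd : (0:ℝ) < w 1 1 := by exact_mod_cast hw.d0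
  have hcell : {s : ℝ | (q : ℝ) * s - K * j ∈ J w} =
      Set.Ioo ((K * j + (w 0 1 : ℝ) / w 1 1) / q) ((K * j + (w 0 0 : ℝ) / w 1 0) / q) := by
    ext s
    simp only [J, Set.mem_ofPred_eq, Set.mem_Ioo]
    rw [div_lt_iff₀ hq0, lt_div_iff₀ hq0]
    constructor
    · rintro ⟨h1, h2⟩; constructor <;> linarith
    · rintro ⟨h1, h2⟩; constructor <;> linarith
  have hlen : (w 0 0 : ℝ) / w 1 0 - (w 0 1 : ℝ) / w 1 1 = len w := by
    unfold len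
    have h' : (w 0 0 : ℝ) * w 1 1 - w 0 1 * w 1 0 = 1 := by exact_mod_cast hw.det
    rw [div_sub_div _ _ hc.ne' hd.ne']
    congr 1
    linarith
  have hvol : volume {s : ℝ | (q : ℝ) * s - K * j ∈ J w} = ENNReal.ofReal (len w / q) := by
    rw [hcell, Real.volume_Ioo]
    congr 1
    rw [← sub_div, ← hlen]
    congr 1
    ring
  have hpos : 0 ≤ len w / q := by
    have := (len_pos hw).le
    positivity
  unfold Measure.real mu
  have h1 : (volume.restrict (Set.Ioo (0 : ℝ) K)) {s : ℝ | (q : ℝ) * s - K * j ∈ J w} ≤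
      volume {s : ℝ | (q : ℝ) * s - K * j ∈ J w} := Measure.restrict_apply_le _ _
  rw [hvol] at h1
  calc _ ≤ (ENNReal.ofReal (len w / q)).toReal := ENNReal.toReal_mono ENNReal.ofReal_ne_top h1
    _ = len w / q := ENNReal.toReal_ofReal hpos

open Classical in
private theorem Fxc_t1 {K np q : ℕ} (hK : 1 ≤ K) (hnp : 1 ≤ np) (hq : 1 ≤ q) (A : ℝ) :
    ∑ x ∈ (nds K np ×ˢ Finset.range q).filter (fun x => ¬ Bal A x.1), len x.1 / q ≤
      (mu K).real (Eun K np np A) := by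
  have hq0 : (q : ℝ) ≠ 0 := by positivity
  rw [Finset.filter_product_left (fun w => ¬ Bal A w), Finset.sum_product]
  simp only [Finset.sum_const, Finset.card_range, nsmul_eq_mul]
  have : ∀ w : M2, (q : ℝ) * (len w / q) = len w := fun w => by field_simp
  simp only [this]
  apply sum_unbal K np hK hnp A
  intro h hh
  simpa using hh

open Classical in
private theorem Fxc_t2 {K np q : ℕ} (hK : 1 ≤ K) (hnp : 1 ≤ np) (hq : 1 ≤ q) (A : ℝ)
    (E : M2 → Finset ℕ) (c : ℝ) (hc : 0 ≤ c)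
    (hE : ∀ w ∈ nds K np, Bal A w → ((E w).card : ℝ) ≤ c) :
    ∑ x ∈ (nds K np ×ˢ Finset.range q).filter (fun x => Bal A x.1 ∧ x.2 ∈ E x.1), len x.1 / q ≤
      K * c / q := by
  have hq0 : (0 : ℝ) < q := by exact_mod_cast hq
  rw [Finset.sum_filter, Finset.sum_product, ← sum_len K np hK hnp, Finset.sum_mul, Finset.sum_div]
  apply Finset.sum_le_sum
  intro w hw
  have hwn : IsNd w := ((mem_ndw hK).1 hw).1
  have hl := (len_pos hwn).le
  by_cases hb : Bal A w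
  · simp only [hb, true_and]
    rw [← Finset.sum_filter, Finset.sum_const, nsmul_eq_mul]
    have h1 : (((Finset.range q).filter (fun j => j ∈ E w)).card : ℝ) ≤ c := by
      refine le_trans ?_ (hE w hw hb)
      exact_mod_cast Finset.card_le_card (fun j hj => (Finset.mem_filter.1 hj).2)
    calc _ ≤ c * (len w / q) := mul_le_mul_of_nonneg_right h1 (by positivity)
      _ = len w * c / q := by ring
  · simp only [hb, false_and, if_false, Finset.sum_const_zero]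
    positivity

private theorem Fxc_np (hD : D.Ok) : D.np ≤ D.N2 := by
  have h := hD.hN2
  have hR : (1:ℝ) ≤ D.R := by exact_mod_cast hD.hR
  have hn : (1:ℝ) ≤ D.n := by exact_mod_cast hD.hn
  have hc2 : 0 ≤ D.c2 * √(D.p : ℝ) := mul_nonneg (le_trans hD.hc1.le hD.hc12) (Real.sqrt_nonneg _)
  have h0 : (0:ℝ) ≤ D.np := Nat.cast_nonneg _
  have h1 : (1:ℝ) ≤ (D.n : ℝ)^2 := by nlinarith
  have h2 : (D.np : ℝ) ≤ 2 * (D.R : ℝ) * D.np * (D.n : ℝ) ^ 2 * (1 + D.c2 * √D.p) := by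
    have a1 : (D.np : ℝ) ≤ 2 * (D.R : ℝ) * D.np := by nlinarith
    have a2 : 2 * (D.R : ℝ) * D.np ≤ 2 * (D.R : ℝ) * D.np * (D.n : ℝ) ^ 2 :=
      le_mul_of_one_le_right (by positivity) h1
    have a3 : 2 * (D.R : ℝ) * D.np * (D.n : ℝ) ^ 2 ≤
        2 * (D.R : ℝ) * D.np * (D.n : ℝ) ^ 2 * (1 + D.c2 * √D.p) :=
      le_mul_of_one_le_right (by positivity) (by linarith)
    linarith
  exact_mod_cast h2.trans h

private theorem Fxc_w (hD : D.Ok) {w : M2} (hw : w ∈ nds D.K D.np) : w ∈ ndw D.K D.N D.N2 := by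
  have h := (mem_ndw hD.hK).1 hw
  exact (mem_ndw hD.hK).2 ⟨h.1, win_mono hD.hNnp (Fxc_np hD) h.2.1, h.2.2⟩

private theorem Fxc_h (hD : D.Ok) {w : M2} (hw : w ∈ nds D.K D.N) : w ∈ ndw D.K D.N D.N2 := by
  have h := (mem_ndw hD.hK).1 hw
  exact (mem_ndw hD.hK).2 ⟨h.1, win_mono le_rfl (hD.hNnp.trans (Fxc_np hD)) h.2.1, h.2.2⟩

open Classical in
/-- first sum of type 4 -/
private theorem Fxc_s1 (hD : D.Ok) (Φ : M2 → ℝ) (T : Finset (M2 × ℕ))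
    (hT : T ⊆ nds D.K D.np ×ˢ Finset.range (D.p * D.m)) :
    ∑ x ∈ T, ∑ y ∈ (D.B ×ˢ D.B).filter (fun y => D.Cl x.1 x.2 y.1 y.2 ∧
        Φ (D.hh x.1 y.1 y.2) ≠ Φ x.1), len (D.hh x.1 y.1 y.2) ≤
      D.m * (mu D.K).real (Ust Φ D.K D.N D.N2) := by
  have hpos : ∀ w ∈ nds D.K D.np, ∀ y ∈ D.B ×ˢ D.B, 0 ≤ len (D.hh w y.1 y.2) := by
    intro w hw y hy
    have hy' := Finset.mem_product.1 hy
    exact (len_pos (hh_nd hD hw hy'.1 hy'.2).1).le
  calc ∑ x ∈ T, ∑ y ∈ (D.B ×ˢ D.B).filter (fun y => D.Cl x.1 x.2 y.1 y.2 ∧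
        Φ (D.hh x.1 y.1 y.2) ≠ Φ x.1), len (D.hh x.1 y.1 y.2)
      ≤ ∑ x ∈ nds D.K D.np ×ˢ Finset.range (D.p * D.m), ∑ y ∈ (D.B ×ˢ D.B).filter
        (fun y => D.Cl x.1 x.2 y.1 y.2 ∧ Φ (D.hh x.1 y.1 y.2) ≠ Φ x.1),
          len (D.hh x.1 y.1 y.2) := by
        apply Finset.sum_le_sum_of_subset_of_nonneg hT
        intro x hx _
        apply Finset.sum_nonneg
        intro y hy
        exact hpos x.1 (Finset.mem_product.1 hx).1 y (Finset.mem_filter.1 hy).1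
    _ = ∑ w ∈ nds D.K D.np, ∑ y ∈ D.B ×ˢ D.B, ∑ j ∈ Finset.range (D.p * D.m),
          (if D.Cl w j y.1 y.2 ∧ Φ (D.hh w y.1 y.2) ≠ Φ w then len (D.hh w y.1 y.2) else 0) := by
        rw [Finset.sum_product]
        apply Finset.sum_congr rfl
        intro w _
        rw [Finset.sum_comm]
        apply Finset.sum_congr rfl
        intro j _
        rw [Finset.sum_filter]
    _ ≤ ∑ w ∈ nds D.K D.np, ∑ y ∈ D.B ×ˢ D.B,
          (if Φ (D.hh w y.1 y.2) ≠ Φ w then (D.m : ℝ) * len (D.hh w y.1 y.2) else 0) := by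
        apply Finset.sum_le_sum
        intro w hw
        apply Finset.sum_le_sum
        intro y hy
        by_cases hc : Φ (D.hh w y.1 y.2) ≠ Φ w
        · simp only [hc, ne_eq, not_false_eq_true, and_true, if_true]
          rw [← Finset.sum_filter, Finset.sum_const, nsmul_eq_mul]
          apply mul_le_mul_of_nonneg_right _ (hpos w hw y hy)
          have hy' := Finset.mem_product.1 hy
          exact_mod_cast cl_card hD hw hy'.1 hy'.2 _ (fun j hj => by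
            have := Finset.mem_filter.1 hj
            exact ⟨Finset.mem_range.1 this.1, this.2⟩)
        · simp only [hc, and_false, if_false, Finset.sum_const_zero, le_refl]
    _ = D.m * ∑ z ∈ (nds D.K D.np ×ˢ (D.B ×ˢ D.B)).filter
          (fun z => Φ (D.hh z.1 z.2.1 z.2.2) ≠ Φ z.1), len (D.hh z.1 z.2.1 z.2.2) := by
        rw [Finset.sum_filter, Finset.sum_product, Finset.mul_sum]
        apply Finset.sum_congr rfl
        intro w _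
        rw [Finset.mul_sum]
        apply Finset.sum_congr rfl
        intro y _
        split_ifs <;> simp
    _ ≤ D.m * (mu D.K).real (Ust Φ D.K D.N D.N2) := by
        apply mul_le_mul_of_nonneg_left _ (Nat.cast_nonneg _)
        apply sum_len_le
        · intro z hz
          have h1 := (Finset.mem_filter.1 hz).1
          have h2 := Finset.mem_product.1 h1
          have h3 := Finset.mem_product.1 h2.2
          have h4 := hh_nd hD h2.1 h3.1 h3.2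
          exact ⟨h4.1, h4.2.1⟩
        · intro z hz z' hz' hne
          have h1 := (Finset.mem_filter.1 hz).1
          have h2 := Finset.mem_product.1 h1
          have h3 := Finset.mem_product.1 h2.2
          have h1' := (Finset.mem_filter.1 hz').1
          have h2' := Finset.mem_product.1 h1'
          have h3' := Finset.mem_product.1 h2'.2
          apply hh_disj hD h2.1 h2'.1 h3.1 h3'.1 h3.2 h3'.2
          intro he
          apply hne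
          simpa [Prod.ext_iff] using he
        · intro z hz s hs hi
          have h0 := (Finset.mem_filter.1 hz).2
          have h1 := (Finset.mem_filter.1 hz).1
          have h2 := Finset.mem_product.1 h1
          have h3 := Finset.mem_product.1 h2.2
          have h4 := hh_nd hD h2.1 h3.1 h3.2
          have h5 := J_subset h4.1 h4.2.1 hs
          exact ⟨h5.1, h5.2, hi, _, h4.2.2.2.1, _, Fxc_w hD h2.1, hs, h4.2.2.1 hs, h0⟩

open Classical in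
/-- second sum of type 4 -/
private theorem Fxc_s2 (hD : D.Ok) (Φ : M2 → ℝ) (Bd : Set M2)
    (lo : ℝ) (hlo : (D.N : ℝ) ≤ lo) (hlo' : lo ≤ D.c1 * √D.p * (D.np * (D.n : ℝ) ^ 2 / (8 * D.A)))
    (V : Finset M2)
    (hV : ∀ v, v ∈ V ↔ v ∈ ndw D.K D.N D.N2 ∧ Bal (D.c2 / D.c1) v ∧ lo ≤ (v 1 0 : ℝ) ∧
      (v 1 0 : ℝ) ≤ D.c2 * √D.p * (2 * D.R * D.np * (D.n : ℝ) ^ 2) ∧
      (D.p : ℤ) ∣ v 1 0 * D.M 0 1 - v 1 1 * D.M 0 0 ∧
      (v ∈ Bd ∨ ∀ s ∈ J v, Irrational s → s ∈ Ust Φ D.K D.N D.N2))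
    (T : Finset (M2 × ℕ))
    (hT : T ⊆ nds D.K D.np ×ˢ Finset.range (D.p * D.m))
    (hTb : ∀ x ∈ T, Bal D.A x.1)
    (hTh : ∀ x ∈ T, ∃ h ∈ nds D.K D.N,
      ∀ s : ℝ, ((D.p * D.m : ℕ) : ℝ) * s - D.K * x.2 ∈ J x.1 → s ∈ J h)
    (hTn : ∀ x ∈ T, ¬ ∃ m1 ∈ D.B, ∃ m2 ∈ D.B, D.Cl x.1 x.2 m1 m2 ∧ Φ (D.hh x.1 m1 m2) = Φ x.1 ∧
      D.vv x.1 x.2 m1 m2 ∉ Bd ∧ ∃ h ∈ nds D.K D.N,
      (∀ s : ℝ, ((D.p * D.m : ℕ) : ℝ) * s - D.K * x.2 ∈ J x.1 → s ∈ J h) ∧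
      Φ (D.vv x.1 x.2 m1 m2) = Φ h) :
    ∑ x ∈ T, ∑ y ∈ (D.B ×ˢ D.B).filter (fun y => D.Cl x.1 x.2 y.1 y.2 ∧
        ¬ (Φ (D.hh x.1 y.1 y.2) ≠ Φ x.1)), len (D.hh x.1 y.1 y.2) ≤
      D.c2 ^ 2 * D.p * ∑ v ∈ V, len v := by
  have hvec : ∀ x ∈ T, ∀ y ∈ (D.B ×ˢ D.B).filter (fun y => D.Cl x.1 x.2 y.1 y.2 ∧
        ¬ (Φ (D.hh x.1 y.1 y.2) ≠ Φ x.1)), x.1 ∈ nds D.K D.np ∧ x.2 < D.p * D.m ∧
          y.1 ∈ D.B ∧ y.2 ∈ D.B ∧ D.Cl x.1 x.2 y.1 y.2 ∧ Φ (D.hh x.1 y.1 y.2) = Φ x.1 := by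
    intro x hx y hy
    have h1 := Finset.mem_product.1 (hT hx)
    have h2 := Finset.mem_filter.1 hy
    have h3 := Finset.mem_product.1 h2.1
    exact ⟨h1.1, Finset.mem_range.1 h1.2, h3.1, h3.2, h2.2.1, not_not.1 h2.2.2⟩
  set Z : Finset ((_ : M2 × ℕ) × (M2 × M2)) := T.sigma (fun x => (D.B ×ˢ D.B).filter (fun y => D.Cl x.1 x.2 y.1 y.2 ∧
        ¬ (Φ (D.hh x.1 y.1 y.2) ≠ Φ x.1))) with hZ
  have hZm : ∀ z ∈ Z, z.1.1 ∈ nds D.K D.np ∧ z.1.2 < D.p * D.m ∧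
          z.2.1 ∈ D.B ∧ z.2.2 ∈ D.B ∧ D.Cl z.1.1 z.1.2 z.2.1 z.2.2 ∧
          Φ (D.hh z.1.1 z.2.1 z.2.2) = Φ z.1.1 ∧ z.1 ∈ T := by
    intro z hz
    rw [hZ, Finset.mem_sigma] at hz
    obtain ⟨a1, a2, a3, a4, a5, a6⟩ := hvec z.1 hz.1 z.2 hz.2
    exact ⟨a1, a2, a3, a4, a5, a6, hz.1⟩
  have e1 : ∑ x ∈ T, ∑ y ∈ (D.B ×ˢ D.B).filter (fun y => D.Cl x.1 x.2 y.1 y.2 ∧
        ¬ (Φ (D.hh x.1 y.1 y.2) ≠ Φ x.1)), len (D.hh x.1 y.1 y.2) =
      ∑ z ∈ Z, len (D.hh z.1.1 z.2.1 z.2.2) := by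
    rw [hZ, Finset.sum_sigma]
  rw [e1]
  have hinj : Set.InjOn (fun z : (_ : M2 × ℕ) × (M2 × M2) => D.vv z.1.1 z.1.2 z.2.1 z.2.2)
      (Z : Set ((_ : M2 × ℕ) × (M2 × M2))) := by
    intro z hz z' hz' he
    obtain ⟨a1, a2, a3, a4, a5, a6, a7⟩ := hZm z hz
    obtain ⟨b1, b2, b3, b4, b5, b6, b7⟩ := hZm z' hz'
    have h := vv_inj hD a2 b2 a1 b1 a3 b3 a4 b4 a5 b5 he
    obtain ⟨⟨x1, x2⟩, ⟨y1, y2⟩⟩ := z
    obtain ⟨⟨x1', x2'⟩, ⟨y1', y2'⟩⟩ := z'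
    simp only [Prod.mk.injEq] at h
    obtain ⟨h1, h2, h3, h4⟩ := h
    subst h1 h2 h3 h4
    rfl
  have hsub : Z.image (fun z : (_ : M2 × ℕ) × (M2 × M2) => D.vv z.1.1 z.1.2 z.2.1 z.2.2) ⊆ V := by
    intro v hv
    obtain ⟨z, hz, rfl⟩ := Finset.mem_image.1 hv
    obtain ⟨a1, a2, a3, a4, a5, a6, a7⟩ := hZm z hz
    have hvn := vv_nd hD a2 a1 a3 a4 a5
    have hs0 := vv_size (j := z.1.2) hD a1 a3 a4 0
    have hsz := hh_size hD a1 (hTb _ a7) a3 a4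
    have hcn := hh_cone hD a1 a3 a4
    have hp0 : 0 ≤ D.c1 * √(D.p : ℝ) := mul_nonneg hD.hc1.le (Real.sqrt_nonneg _)
    have hp2 : 0 ≤ D.c2 * √(D.p : ℝ) := mul_nonneg (le_trans hD.hc1.le hD.hc12) (Real.sqrt_nonneg _)
    have hlow1 : lo ≤ (D.vv z.1.1 z.1.2 z.2.1 z.2.2 1 0 : ℝ) := by
      calc lo ≤ D.c1 * √D.p * (D.np * (D.n : ℝ) ^ 2 / (8 * D.A)) := hlo'
        _ ≤ D.c1 * √D.p * (D.hh z.1.1 z.2.1 z.2.2 1 1 : ℝ) := mul_le_mul_of_nonneg_left hsz.1 hp0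
        _ ≤ _ := hs0.1
    have hlowN : (D.N : ℤ) < D.vv z.1.1 z.1.2 z.2.1 z.2.2 1 0 + D.vv z.1.1 z.1.2 z.2.1 z.2.2 1 1 := by
      have h1 : (D.N : ℝ) ≤ (D.vv z.1.1 z.1.2 z.2.1 z.2.2 1 0 : ℝ) := hlo.trans hlow1
      have h2 : (D.N : ℤ) ≤ D.vv z.1.1 z.1.2 z.2.1 z.2.2 1 0 := by exact_mod_cast h1
      have := hvn.1.d0
      linarith
    have hwin := vv_win hD a2 a1 a3 a4 a5 hlowN
    rw [hV]
    refine ⟨hwin, vv_bal hD a1 a3 a4, hlow1, ?_, hvn.2.2.2, ?_⟩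
    · exact hs0.2.trans (mul_le_mul_of_nonneg_left hcn.2.2.2 hp2)
    · by_cases hb : D.vv z.1.1 z.1.2 z.2.1 z.2.2 ∈ Bd
      · exact Or.inl hb
      · right
        obtain ⟨h, hh, hcell⟩ := hTh _ a7
        have hne : Φ (D.vv z.1.1 z.1.2 z.2.1 z.2.2) ≠ Φ h := by
          intro he
          exact hTn _ a7 ⟨z.2.1, a3, z.2.2, a4, a5, a6, hb, h, hh, hcell, he⟩
        intro s hs hi
        have h5 := J_subset hvn.1 hvn.2.1 hs
        have h6 := hvn.2.2.1 s hs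
        have h7 : s ∈ J h := by
          apply hcell
          push_cast
          exact h6
        exact ⟨h5.1, h5.2, hi, _, hwin, _, Fxc_h hD hh, hs, h7, hne⟩
  have hVpos : ∀ v ∈ V, 0 ≤ len v := by
    intro v hv
    have h1 := ((hV v).1 hv).1
    exact (len_pos ((mem_ndw hD.hK).1 h1).1).le
  calc ∑ z ∈ Z, len (D.hh z.1.1 z.2.1 z.2.2)
      ≤ ∑ z ∈ Z, D.c2 ^ 2 * D.p * len (D.vv z.1.1 z.1.2 z.2.1 z.2.2) := by
        apply Finset.sum_le_sum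
        intro z hz
        obtain ⟨a1, a2, a3, a4, a5, a6, a7⟩ := hZm z hz
        exact vv_len hD a1 a3 a4
    _ = D.c2 ^ 2 * D.p * ∑ v ∈ Z.image (fun z : (_ : M2 × ℕ) × (M2 × M2) =>
          D.vv z.1.1 z.1.2 z.2.1 z.2.2), len v := by
        rw [Finset.sum_image hinj, Finset.mul_sum]
    _ ≤ D.c2 ^ 2 * D.p * ∑ v ∈ V, len v := by
        apply mul_le_mul_of_nonneg_left _ (by positivity)
        exact Finset.sum_le_sum_of_subset_of_nonneg hsub (fun v hv _ => hVpos v hv)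

open Classical in
theorem xs_le (hD : D.Ok) {Φ : M2 → ℝ} {Bd : Set M2} (hΦ : PhiOk D.K D.m D.H0 Φ Bd D.p D.M)
    (Q : ℝ) (hB0 : D.B.Nonempty)
    (hQ : (((D.B ×ˢ D.B).filter (fun x : M2 × M2 => Cg D.p x.1 x.2)).card : ℝ) ≤ Q)
    (lo : ℝ) (hlo : (D.N : ℝ) ≤ lo) (hlo' : lo ≤ D.c1 * √D.p * (D.np * (D.n : ℝ) ^ 2 / (8 * D.A)))
    (V : Finset M2)
    (hV : ∀ v, v ∈ V ↔ v ∈ ndw D.K D.N D.N2 ∧ Bal (D.c2 / D.c1) v ∧ lo ≤ (v 1 0 : ℝ) ∧
      (v 1 0 : ℝ) ≤ D.c2 * √D.p * (2 * D.R * D.np * (D.n : ℝ) ^ 2) ∧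
      (D.p : ℤ) ∣ v 1 0 * D.M 0 1 - v 1 1 * D.M 0 0 ∧
      (v ∈ Bd ∨ ∀ s ∈ J v, Irrational s → s ∈ Ust Φ D.K D.N D.N2)) :
    (mu D.K).real (Xs Φ D.K D.N (D.p * D.m)) ≤ (mu D.K).real (Ust Φ D.K D.N D.N2) +
      (mu D.K).real (Eun D.K D.np D.np D.A) +
      D.K * (4 * ((D.p : ℝ) + 1) ^ 2 * (((D.p : ℝ) ^ 2 - 1) * Q) ^ 2 / (D.B.card : ℝ) ^ 4) / D.p +
      8 * D.A * D.K / D.p +
      (2 * (D.p + 1) / (D.B.card : ℝ) ^ 2 * (4 * (D.R : ℝ) ^ 2 * D.A * (D.n : ℝ) ^ 4)) / (D.p * D.m) *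
        (D.m * (mu D.K).real (Ust Φ D.K D.N D.N2) + D.c2 ^ 2 * D.p * ∑ v ∈ V, len v) := by
  have hK := hD.hK
  have hp1 : 1 ≤ D.p := hD.hp.one_lt.le
  have hq : 1 ≤ D.p * D.m := Nat.mul_pos hp1 hD.hm
  have hN := hD.hN
  have hnp : 1 ≤ D.np := hN.trans hD.hNnp
  have hp0 : (0:ℝ) < D.p := by exact_mod_cast hp1
  have hm0 : (0:ℝ) < D.m := by exact_mod_cast hD.hm
  have hq0 : (0:ℝ) < ((D.p * D.m : ℕ) : ℝ) := by exact_mod_cast hq
  -- exceptional sets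
  have hcov : ∀ w : M2, ∃ E : Finset ℕ, (w ∈ nds D.K D.np → Bal D.A w →
      ((E.card : ℝ) ≤ D.m * (4 * ((D.p : ℝ) + 1) ^ 2 * (((D.p : ℝ) ^ 2 - 1) * Q) ^ 2 / (D.B.card : ℝ) ^ 4) ∧
      ∀ j ∈ Finset.range (D.p * D.m), j ∉ E →
        (D.B.card : ℝ) ^ 2 / (2 * (D.p + 1)) * (len w / (4 * (D.R : ℝ) ^ 2 * D.A * (D.n : ℝ) ^ 4)) ≤
          ∑ x ∈ (D.B ×ˢ D.B).filter (fun x : M2 × M2 => D.Cl w j x.1 x.2), len (D.hh w x.1 x.2))) := by
    intro w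
    by_cases hw : w ∈ nds D.K D.np ∧ Bal D.A w
    · obtain ⟨E, _, h1, h2⟩ := cov hD Q hB0 hQ hw.1 hw.2
      exact ⟨E, fun _ _ => ⟨h1, h2⟩⟩
    · exact ⟨∅, fun h1 h2 => absurd ⟨h1, h2⟩ hw⟩
  choose E hE using hcov
  set q : ℕ := D.p * D.m with hqdef
  set W : Finset (M2 × ℕ) := nds D.K D.np ×ˢ Finset.range q with hW
  set Good : M2 × ℕ → Prop := fun x => ∃ m1 ∈ D.B, ∃ m2 ∈ D.B, D.Cl x.1 x.2 m1 m2 ∧
      Φ (D.hh x.1 m1 m2) = Φ x.1 ∧ D.vv x.1 x.2 m1 m2 ∉ Bd ∧ ∃ h ∈ nds D.K D.N,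
      (∀ s : ℝ, (q : ℝ) * s - D.K * x.2 ∈ J x.1 → s ∈ J h) ∧
      Φ (D.vv x.1 x.2 m1 m2) = Φ h with hGood
  set cell : M2 × ℕ → Set ℝ := fun x => {s : ℝ | (q : ℝ) * s - D.K * x.2 ∈ J x.1} with hcell
  -- the inclusion
  have hincl : Xs Φ D.K D.N q ⊆ {s | sg D.K q s ∈ Ust Φ D.K D.N D.N2} ∪
      ⋃ x ∈ W.filter (fun x => ¬ Good x), cell x := by
    rintro s ⟨hs0, hsK, hsi, h, hh, h', hh', hsh, hsh', hne⟩
    by_cases hU : sg D.K q s ∈ Ust Φ D.K D.N D.N2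
    · exact Or.inl hU
    right
    obtain ⟨j, hj, hsg, hsg0, hsgK, hsgi⟩ := sg_eq hK hq hs0 hsK hsi
    obtain ⟨w, hw, hsw⟩ := fa_nds hK hnp hsg0 hsgK hsgi
    rw [Set.mem_iUnion₂]
    refine ⟨(w, j), Finset.mem_filter.2 ⟨Finset.mem_product.2 ⟨hw, Finset.mem_range.2 hj⟩, ?_⟩, ?_⟩
    · rintro ⟨m1, h1, m2, h2, hc, ha, hb, g, hg, hgc, hv⟩
      have hsg' : sg D.K q s = (D.p : ℝ) * D.m * s - D.K * j := by
        rw [hsg, hqdef]; push_cast; ring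
      have hsgJ : s ∈ J g := by
        apply hgc
        simp only
        rw [← hsg]; exact hsw
      have hgh : h = g := fa_unique ((mem_ndw hK).1 hh).1 ((mem_ndw hK).1 hg).1
        ((mem_ndw hK).1 hh).2.1 ((mem_ndw hK).1 hg).2.1 hsh hsgJ
      apply hne
      rw [hgh]
      refine rel hD hΦ hj hw ?_ h1 h2 hc ha hb hv hh' ?_ hsi ?_
      · rw [← hsg']; exact hsw
      · rw [← hsg']; exact hsh'
      · rw [← hsg']; exact hU
    · simp only [hcell, Set.mem_ofPred_eq]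
      rw [← hsg]; exact hsw
  have hpre : (mu D.K).real {s | sg D.K q s ∈ Ust Φ D.K D.N D.N2} =
      (mu D.K).real (Ust Φ D.K D.N D.N2) := meas_pre hK hq (meas_Ust _ _ _ _)
  have hbound : (mu D.K).real (Xs Φ D.K D.N q) ≤ (mu D.K).real (Ust Φ D.K D.N D.N2) +
      ∑ x ∈ W.filter (fun x => ¬ Good x), len x.1 / q := by
    calc (mu D.K).real (Xs Φ D.K D.N q)
        ≤ (mu D.K).real ({s | sg D.K q s ∈ Ust Φ D.K D.N D.N2} ∪
          ⋃ x ∈ W.filter (fun x => ¬ Good x), cell x) := measureReal_mono hincl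
      _ ≤ (mu D.K).real {s | sg D.K q s ∈ Ust Φ D.K D.N D.N2} +
          (mu D.K).real (⋃ x ∈ W.filter (fun x => ¬ Good x), cell x) := measureReal_union_le _ _
      _ ≤ (mu D.K).real (Ust Φ D.K D.N D.N2) +
          ∑ x ∈ W.filter (fun x => ¬ Good x), (mu D.K).real (cell x) := by
          rw [hpre]
          gcongr
          exact measureReal_biUnion_finset_le _ _
      _ ≤ _ := by
          gcongr with x hx
          have h1 := (Finset.mem_product.1 (Finset.mem_filter.1 hx).1).1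
          exact Fxc_cell_le hq ((mem_ndw hK).1 h1).1 x.2
  -- decomposition
  set T1 := W.filter (fun x => ¬ Bal D.A x.1) with hT1
  set T2 := W.filter (fun x => Bal D.A x.1 ∧ x.2 ∈ E x.1) with hT2
  set T3 := W.filter (fun x => Bal D.A x.1 ∧ ¬ ∃ h ∈ nds D.K D.N,
    ∀ s : ℝ, (q : ℝ) * s - D.K * x.2 ∈ J x.1 → s ∈ J h) with hT3
  set T4 := W.filter (fun x => ¬ Good x ∧ Bal D.A x.1 ∧ x.2 ∉ E x.1 ∧ ∃ h ∈ nds D.K D.N,
    ∀ s : ℝ, (q : ℝ) * s - D.K * x.2 ∈ J x.1 → s ∈ J h) with hT4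
  have hsubT : W.filter (fun x => ¬ Good x) ⊆ T1 ∪ T2 ∪ T3 ∪ T4 := by
    intro x hx
    obtain ⟨hxW, hxG⟩ := Finset.mem_filter.1 hx
    by_cases hb : Bal D.A x.1
    · by_cases he : x.2 ∈ E x.1
      · exact Finset.mem_union_left _ (Finset.mem_union_left _ (Finset.mem_union_right _
          (Finset.mem_filter.2 ⟨hxW, hb, he⟩)))
      · by_cases hc : ∃ h ∈ nds D.K D.N,
            ∀ s : ℝ, (q : ℝ) * s - D.K * x.2 ∈ J x.1 → s ∈ J h
        · exact Finset.mem_union_right _ (Finset.mem_filter.2 ⟨hxW, hxG, hb, he, hc⟩)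
        · exact Finset.mem_union_left _ (Finset.mem_union_right _
            (Finset.mem_filter.2 ⟨hxW, hb, hc⟩))
    · exact Finset.mem_union_left _ (Finset.mem_union_left _ (Finset.mem_union_left _
        (Finset.mem_filter.2 ⟨hxW, hb⟩)))
  have hWpos : ∀ x ∈ W, 0 ≤ len x.1 / (q : ℝ) := by
    intro x hx
    have h1 := (Finset.mem_product.1 hx).1
    have := (len_pos ((mem_ndw hK).1 h1).1).le
    positivity
  have hdec : ∑ x ∈ W.filter (fun x => ¬ Good x), len x.1 / (q : ℝ) ≤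
      ∑ x ∈ T1, len x.1 / (q : ℝ) + ∑ x ∈ T2, len x.1 / (q : ℝ) + ∑ x ∈ T3, len x.1 / (q : ℝ) +
        ∑ x ∈ T4, len x.1 / (q : ℝ) := by
    have hun : ∀ S S' : Finset (M2 × ℕ), S ⊆ W → S' ⊆ W →
        ∑ x ∈ S ∪ S', len x.1 / (q : ℝ) ≤ ∑ x ∈ S, len x.1 / (q : ℝ) + ∑ x ∈ S', len x.1 / (q : ℝ) := by
      intro S S' hS hS'
      rw [← Finset.sum_union_inter]
      have : 0 ≤ ∑ x ∈ S ∩ S', len x.1 / (q : ℝ) :=
        Finset.sum_nonneg (fun x hx => hWpos x (hS (Finset.mem_inter.1 hx).1))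
      linarith
    have s1 : T1 ⊆ W := Finset.filter_subset _ _
    have s2 : T2 ⊆ W := Finset.filter_subset _ _
    have s3 : T3 ⊆ W := Finset.filter_subset _ _
    have s4 : T4 ⊆ W := Finset.filter_subset _ _
    have hall : T1 ∪ T2 ∪ T3 ∪ T4 ⊆ W :=
      Finset.union_subset (Finset.union_subset (Finset.union_subset s1 s2) s3) s4
    calc _ ≤ ∑ x ∈ T1 ∪ T2 ∪ T3 ∪ T4, len x.1 / (q : ℝ) :=
          Finset.sum_le_sum_of_subset_of_nonneg hsubT (fun x hx _ => hWpos x (hall hx))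
      _ ≤ ∑ x ∈ T1 ∪ T2 ∪ T3, len x.1 / (q : ℝ) + ∑ x ∈ T4, len x.1 / (q : ℝ) :=
          hun _ _ (Finset.union_subset (Finset.union_subset s1 s2) s3) s4
      _ ≤ _ := by
          have h1 := hun (T1 ∪ T2) T3 (Finset.union_subset s1 s2) s3
          have h2 := hun T1 T2 s1 s2
          linarith
  have b1 : ∑ x ∈ T1, len x.1 / (q : ℝ) ≤ (mu D.K).real (Eun D.K D.np D.np D.A) :=
    Fxc_t1 hK hnp hq D.A
  have hQ0 : 0 ≤ Q := le_trans (Nat.cast_nonneg _) hQ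
  set e : ℝ := 4 * ((D.p : ℝ) + 1) ^ 2 * (((D.p : ℝ) ^ 2 - 1) * Q) ^ 2 / (D.B.card : ℝ) ^ 4 with he
  have he0 : 0 ≤ e := by positivity
  have b2 : ∑ x ∈ T2, len x.1 / (q : ℝ) ≤ D.K * e / D.p := by
    have h := Fxc_t2 hK hnp hq D.A E (D.m * e) (by positivity) (fun w hw hb => (hE w hw hb).1)
    refine h.trans (le_of_eq ?_)
    rw [hqdef]; push_cast
    field_simp
  have b3 : ∑ x ∈ T3, len x.1 / (q : ℝ) ≤ 8 * D.A * D.K / D.p := by
    have h := cross hD.hA hK hN hD.hNnp hq T3 (fun x hx => by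
      obtain ⟨h1, h2, h3⟩ := Finset.mem_filter.1 hx
      have h4 := Finset.mem_product.1 h1
      exact ⟨h4.1, h2, Finset.mem_range.1 h4.2, h3⟩)
    refine h.trans ?_
    have hA := hD.hA
    apply div_le_div_of_nonneg_left (by positivity) hp0
    rw [hqdef]
    have : D.p ≤ D.p * D.m := Nat.le_mul_of_pos_right _ hD.hm
    exact_mod_cast this
  have hBc : (0:ℝ) < D.B.card := by exact_mod_cast hB0.card_pos
  have hR0 : (0:ℝ) < D.R := by exact_mod_cast hD.hR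
  have hn0 : (0:ℝ) < D.n := by exact_mod_cast hD.hn
  have hA0 : (0:ℝ) < D.A := lt_of_lt_of_le one_pos hD.hA
  set C0 : ℝ := 2 * (D.p + 1) / (D.B.card : ℝ) ^ 2 * (4 * (D.R : ℝ) ^ 2 * D.A * (D.n : ℝ) ^ 4) with hC0
  have hC0p : 0 < C0 := by positivity
  have b4 : ∑ x ∈ T4, len x.1 / (q : ℝ) ≤ C0 / (D.p * D.m) *
      (D.m * (mu D.K).real (Ust Φ D.K D.N D.N2) + D.c2 ^ 2 * D.p * ∑ v ∈ V, len v) := by
    have hT4W : T4 ⊆ W := Finset.filter_subset _ _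
    have c1 := Fxc_s1 hD Φ T4 hT4W
    have c2 := Fxc_s2 hD Φ Bd lo hlo hlo' V hV T4 hT4W
      (fun x hx => (Finset.mem_filter.1 hx).2.2.1)
      (fun x hx => (Finset.mem_filter.1 hx).2.2.2.2)
      (fun x hx => (Finset.mem_filter.1 hx).2.1)
    have c3 : ∀ x ∈ T4, len x.1 / (q : ℝ) ≤ C0 / (D.p * D.m) *
        ∑ y ∈ (D.B ×ˢ D.B).filter (fun y : M2 × M2 => D.Cl x.1 x.2 y.1 y.2), len (D.hh x.1 y.1 y.2) := by
      intro x hx
      obtain ⟨h1, h2, h3, h4, h5⟩ := Finset.mem_filter.1 hx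
      have h6 := Finset.mem_product.1 h1
      have h7 := (hE x.1 h6.1 h3).2 x.2 h6.2 h4
      have h8 : C0 * ((D.B.card : ℝ) ^ 2 / (2 * (D.p + 1)) *
          (len x.1 / (4 * (D.R : ℝ) ^ 2 * D.A * (D.n : ℝ) ^ 4))) = len x.1 := by
        rw [hC0]; field_simp
      have h9 : len x.1 ≤ C0 * ∑ y ∈ (D.B ×ˢ D.B).filter
          (fun y : M2 × M2 => D.Cl x.1 x.2 y.1 y.2), len (D.hh x.1 y.1 y.2) := by
        rw [← h8]
        exact mul_le_mul_of_nonneg_left h7 hC0p.le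
      have hqq : (q : ℝ) = D.p * D.m := by rw [hqdef]; push_cast; ring
      rw [hqq, div_mul_eq_mul_div]
      exact div_le_div_of_nonneg_right h9 (by positivity)
    calc ∑ x ∈ T4, len x.1 / (q : ℝ) ≤ ∑ x ∈ T4, C0 / (D.p * D.m) *
        ∑ y ∈ (D.B ×ˢ D.B).filter (fun y : M2 × M2 => D.Cl x.1 x.2 y.1 y.2), len (D.hh x.1 y.1 y.2) :=
          Finset.sum_le_sum c3
      _ = C0 / (D.p * D.m) * (∑ x ∈ T4, ∑ y ∈ (D.B ×ˢ D.B).filter (fun y => D.Cl x.1 x.2 y.1 y.2 ∧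
            Φ (D.hh x.1 y.1 y.2) ≠ Φ x.1), len (D.hh x.1 y.1 y.2) +
          ∑ x ∈ T4, ∑ y ∈ (D.B ×ˢ D.B).filter (fun y => D.Cl x.1 x.2 y.1 y.2 ∧
            ¬ (Φ (D.hh x.1 y.1 y.2) ≠ Φ x.1)), len (D.hh x.1 y.1 y.2)) := by
          rw [← Finset.mul_sum, ← Finset.sum_add_distrib]
          congr 1
          apply Finset.sum_congr rfl
          intro x _
          rw [← Finset.filter_filter, ← Finset.filter_filter]
          exact (Finset.sum_filter_add_sum_filter_not _ _ _).symm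
      _ ≤ _ := by
          apply mul_le_mul_of_nonneg_left (add_le_add c1 c2) (by positivity)
  linarith

end Pool.Agent.CQF
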