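import Pool.Agent.CQF.Ivc

set_option autoImplicit false

/-!
# Module Gga (size 4): unipotents in the invariance group

`LQ a b = !![b, 0; a, b]` is `b` times the unipotent with parameter `a/b`. Write `I(a, b)` for `Inv X0 D (LQ a b) 1`,
`b ≠ 0`.
* `LQ a b * LQ c d = LQ (a d + b c) (b d)`, `adj (LQ a b) = LQ (-a) b`, `LQ (c a) (c b) = c • LQ a b`. So `I(k, 1)`
  (`LQ k 1 = Tk k`) gives `I(k n, 1)` for all integers `n` (`lq_int`).
* division by `A = (1 + x Y)² - D Y²` for `k ∣ Y` (`lq_div`): put `h = Tk k'` with `k' = -Y (x² - D)` (in `k ℤ`),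
  `z = (-x, 1)`, `z' = z ᵥ* h = (-x + k', 1)`; `nf D z' = (x² - D) A = nf D z * A`, both nonzero (`A ≠ 0` as `D` is not a
  square and `(1 + xY, Y) ≠ 0`).
  `W = km D z * h * adj (km D z')` is lower triangular, `W = !![nf D z', 0; τ, nf D z]` (its first row is
  `z h adj(km z') = z' adj(km z') = nf(z') e1`; its determinant is `nf D z * nf D z'`). For such `W`,
  `W * LQ a b * adj W = (nf D z)² • LQ a (A b)`. Signs: `W` has sign `F z · 1 · F z'`, and it occurs twice.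
* `uq`: `km D e2 = !![0, 1; D, 0]` (`e2 = (0, 1)`), `adj (km D e2) * LQ (D a) b * km D e2 = -D • UQ a b` up to the exact
  scalar (compute); so `I(D a, b)` implies `Inv (UQ a b) 1`.
-/

open Matrix

namespace Pool.Agent.CQF

private theorem lq_pow (k : ℤ) (n : ℕ) : (Tk k) ^ n = LQ (k * n) 1 := by
  induction n with
  | zero =>
    ext i j
    fin_cases i <;> fin_cases j <;> simp [LQ]
  | succ n ih =>
    rw [pow_succ, ih]
    ext i j
    fin_cases i <;> fin_cases j <;> simp [LQ, Tk, Matrix.mul_apply, Fin.sum_univ_two]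
    ring

private theorem adj_lq (a b : ℤ) : (LQ a b).adjugate = LQ (-a) b := by
  simp [LQ, Matrix.adjugate_fin_two]

theorem lq_int {X0 : Set (Fin 2 → ℤ)} {D : ℤ} (hD : ¬ IsSquare D) {k : ℕ}
    (hk : Inv X0 D (Tk k) 1) (n : ℤ) : Inv X0 D (LQ (k * n) 1) 1 := by
  obtain ⟨m, rfl | rfl⟩ := n.eq_nat_or_neg
  · have := inv_pow hD hk m
    rwa [lq_pow] at this
  · have := inv_adj hD (inv_pow hD hk m)
    rw [lq_pow, adj_lq] at this
    rwa [mul_neg]

private theorem F_mul_self {D : ℤ} (hD : ¬ IsSquare D) {z : Fin 2 → ℤ} (hz : z ≠ 0) :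
    F D z * F D z = 1 := by
  rcases F_pm hD hz with h | h <;> simp [h]

theorem lq_div {X0 : Set (Fin 2 → ℤ)} {D : ℤ} (hD : ¬ IsSquare D) {k : ℕ}
    (hk : Inv X0 D (Tk k) 1) {x Y : ℤ} (hY : (k : ℤ) ∣ Y) {a b : ℤ} (hb : b ≠ 0)
    (h : Inv X0 D (LQ a b) 1) : Inv X0 D (LQ a (((1 + x * Y) ^ 2 - D * Y ^ 2) * b)) 1 := by
  obtain ⟨m, rfl⟩ := hY
  have h1 := lq_int hD hk (-(m * (x ^ 2 - D)))
  obtain ⟨k', hk'⟩ : ∃ k' : ℤ, k' = (k : ℤ) * (-(m * (x ^ 2 - D))) := ⟨_, rfl⟩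
  rw [← hk'] at h1
  have hz : (![-x, 1] : Fin 2 → ℤ) ≠ 0 := by
    intro h0
    have := congrFun h0 1
    simp at this
  have hz' : (![-x + k', 1] : Fin 2 → ℤ) ≠ 0 := by
    intro h0
    have := congrFun h0 1
    simp at this
  have hN : x ^ 2 - D ≠ 0 := by
    have := nf_ne hD hz
    simpa [nf] using this
  have hW := inv_mul hD (inv_mul hD (inv_km (X0 := X0) hD hz) h1) (inv_adj hD (inv_km (X0 := X0) hD hz'))
  have hWW := inv_mul hD (inv_mul hD hW h) (inv_adj hD hW)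
  have hs : F D ![-x, 1] * 1 * F D ![-x + k', 1] * 1 * (F D ![-x, 1] * 1 * F D ![-x + k', 1]) = 1 := by
    have e1 := F_mul_self hD hz
    have e2 := F_mul_self hD hz'
    calc _ = (F D ![-x, 1] * F D ![-x, 1]) * (F D ![-x + k', 1] * F D ![-x + k', 1]) := by ring
      _ = 1 := by rw [e1, e2]; norm_num
  rw [hs] at hWW
  have hW0 : km D ![-x, 1] * LQ k' 1 * (km D ![-x + k', 1]).adjugate =
      !![(-x + k') ^ 2 - D, 0; (D - x * k') * (-x + k') + x * D, x ^ 2 - D] := by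
    ext i j
    fin_cases i <;> fin_cases j <;>
      simp [LQ, km, Matrix.adjugate_fin_two, Matrix.mul_apply, Fin.sum_univ_two, -mul_eq_mul_left_iff,
        -mul_eq_mul_right_iff, -add_left_inj, -add_right_inj] <;> ring
  rw [hW0] at hWW
  have hfin : !![(-x + k') ^ 2 - D, 0; (D - x * k') * (-x + k') + x * D, x ^ 2 - D] * LQ a b *
      (!![(-x + k') ^ 2 - D, 0; (D - x * k') * (-x + k') + x * D, x ^ 2 - D] : M2).adjugate =
      ((x ^ 2 - D) ^ 2) • LQ a (((1 + x * (k * m)) ^ 2 - D * (k * m) ^ 2) * b) := by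
    have hk2 : (-x + k') ^ 2 - D = (x ^ 2 - D) * ((1 + x * (k * m)) ^ 2 - D * (k * m) ^ 2) := by
      rw [hk']; ring
    rw [hk2]
    ext i j
    fin_cases i <;> fin_cases j <;>
      simp [LQ, Matrix.adjugate_fin_two, Matrix.mul_apply, Fin.sum_univ_two] <;> ring
  rw [hfin] at hWW
  exact (inv_smul (pow_ne_zero 2 hN)).1 hWW

theorem uq {X0 : Set (Fin 2 → ℤ)} {D : ℤ} (hD : ¬ IsSquare D) {a b : ℤ} (hb : b ≠ 0)
    (h : Inv X0 D (LQ (D * a) b) 1) : Inv X0 D (UQ a b) 1 := by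
  have hz : (![0, 1] : Fin 2 → ℤ) ≠ 0 := by
    intro h0
    have := congrFun h0 1
    simp at this
  have hD0 : -D ≠ 0 := by
    intro h0
    apply hD
    rw [neg_eq_zero.1 h0]
    exact IsSquare.zero
  have h1 := inv_mul hD (inv_mul hD (inv_adj hD (inv_km (X0 := X0) hD hz)) h) (inv_km (X0 := X0) hD hz)
  have hs : F D ![0, 1] * 1 * F D ![0, 1] = 1 := by
    rw [mul_one, F_mul_self hD hz]
  rw [hs] at h1
  have e : (km D ![0, 1]).adjugate * LQ (D * a) b * km D ![0, 1] = (-D) • UQ a b := by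
    ext i j
    fin_cases i <;> fin_cases j <;>
      simp [LQ, UQ, km, Matrix.adjugate_fin_two, Matrix.mul_apply, Fin.sum_univ_two] <;> ring
  rw [e] at h1
  exact (inv_smul hD0).1 h1

end Pool.Agent.CQF
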