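import Pool.Agent.CQF.Ivc

set_option autoImplicit false

/-!
# Module Gna (size 3): base relation for two arbitrary irreducible forms

`Qi(u, v) = ai u² + bi u v + ci v²`, `D = b1² - 4 a1 c1` and `b2² - 4 a2 c2` not squares (so `a1, a2 ≠ 0`).
`B1 = !![2 a1, 0; b1, 1]`: `v B1 = (2 a1 v₀ + b1 v₁, v₁)`, `nf D (v B1) = 4 a1 Q1(v)`; `adj B1 = !![1, 0; -b1, 2 a1]`,
`v adj B1 = (v₀ - b1 v₁, 2 a1 v₁)`. Put `Q(v) = Q2(v adj B1) = α v₀² + β v₀ v₁ + γ v₁²` with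
`α = a2`, `β = 2 a1 b2 - 2 a2 b1`, `γ = a2 b1² - 2 a1 b1 b2 + 4 a1² c2`; `β² - 4αγ = 4 a1² (b2² - 4 a2 c2)`, not a square.
`η = ε lam a1`. `X0 = {v | lam (Q1(v) Q2(v)) ≠ ε}`. Let `v` be primitive with `lam (Q v) ≠ η F v` and `v adj B1 = c w`, `w` primitive,
`c > 0`: `Q v = c² Q2(w)`, so `lam (Q v) = lam (Q2 w)`; `c (w B1) = det B1 • v`, so `F v = F (w B1) = lam (4 a1 Q1(w)) = lam a1 lam (Q1 w)`.
So `lam (Q1 Q2 (w)) = lam a1 F v lam (Q v) ≠ lam a1 η = ε` (all values are `±1`), i.e. `w ∈ X0`: `trf (adj B1)`.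
If `β = 0` and `γ = -D α` then `Q = α nf D`, so `Q2(v adj B1) = α nf D v`; with `v = w B1`: `4 a1² Q2(w) = 4 α a1 Q1(w)`, so `Q2` is
proportional to `Q1` (compare coefficients; or directly: `β = 0` gives `a1 b2 = a2 b1`, and `γ = -Dα` gives `4 a1² c2 = 4 a1 c1 a2`).
-/

open Matrix

namespace Pool.Agent.CQF

/-- value of a binary quadratic form -/
def qf (a b c : ℤ) (v : Fin 2 → ℤ) : ℤ := a * v 0 ^ 2 + b * v 0 * v 1 + c * v 1 ^ 2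

/-- the base set -/
def X0s (a1 b1 c1 a2 b2 c2 ε : ℤ) : Set (Fin 2 → ℤ) :=
  {v | lam (qf a1 b1 c1 v * qf a2 b2 c2 v) ≠ ε}

/-- `lam (q v) = η F v` for most primitive `v` -/
def NearC (X0 : Set (Fin 2 → ℤ)) (D α β γ η : ℤ) : Prop :=
  (η = 1 ∨ η = -1) ∧ ∃ A : ℝ, 1 ≤ A ∧ ∀ N1 N2 : ℝ, 1 ≤ N1 → N1 ≤ N2 →
    ms {v | lam (qf α β γ v) ≠ η * F D v} N1 N2 ≤ A * ms X0 (N1 / A) (A * N2)

private theorem gna_mulsq {k d : ℤ} (hk : k ≠ 0) (h : ¬ IsSquare d) : ¬ IsSquare (k ^ 2 * d) := by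
  rintro ⟨r, hr⟩
  have h1 : k ^ 2 ∣ r ^ 2 := ⟨d, by rw [hr]; ring⟩
  have h2 : k ∣ r := (Int.pow_dvd_pow_iff two_ne_zero).1 h1
  obtain ⟨s, rfl⟩ := h2
  apply h
  refine ⟨s, ?_⟩
  have h3 : k ^ 2 * d = k ^ 2 * (s * s) := by rw [hr]; ring
  exact mul_left_cancel₀ (pow_ne_zero 2 hk) h3

private theorem gna_a_ne {a b c : ℤ} (h : ¬ IsSquare (b ^ 2 - 4 * a * c)) : a ≠ 0 := by
  rintro rfl
  exact h ⟨b, by ring⟩

theorem base_near {a1 b1 c1 a2 b2 c2 ε : ℤ} (hD : ¬ IsSquare (b1 ^ 2 - 4 * a1 * c1))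
    (hD2 : ¬ IsSquare (b2 ^ 2 - 4 * a2 * c2))
    (hnp : ¬ (a1 * b2 = a2 * b1 ∧ a1 * c2 = a2 * c1 ∧ b1 * c2 = b2 * c1))
    (hε : ε = 1 ∨ ε = -1) :
    ∃ α β γ η : ℤ, ¬ IsSquare (β ^ 2 - 4 * α * γ) ∧
      ¬ (β = 0 ∧ γ = -(b1 ^ 2 - 4 * a1 * c1) * α) ∧
      NearC (X0s a1 b1 c1 a2 b2 c2 ε) (b1 ^ 2 - 4 * a1 * c1) α β γ η := by
  have ha1 : a1 ≠ 0 := gna_a_ne hD
  have hdet : (!![1, 0; -b1, 2 * a1] : M2).det ≠ 0 := by
    rw [Matrix.det_fin_two_of]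
    simpa using ha1
  have hla : lam a1 = 1 ∨ lam a1 = -1 := lam_pm ha1
  have hla2 : lam a1 * lam a1 = 1 := by rcases hla with h | h <;> rw [h] <;> norm_num
  refine ⟨a2, 2 * a1 * b2 - 2 * a2 * b1, a2 * b1 ^ 2 - 2 * a1 * b1 * b2 + 4 * a1 ^ 2 * c2,
    ε * lam a1, ?_, ?_, ?_, ?_⟩
  · have h1 := gna_mulsq (mul_ne_zero two_ne_zero ha1) hD2
    intro h2
    apply h1
    have e : (2 * a1) ^ 2 * (b2 ^ 2 - 4 * a2 * c2) = (2 * a1 * b2 - 2 * a2 * b1) ^ 2 -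
      4 * a2 * (a2 * b1 ^ 2 - 2 * a1 * b1 * b2 + 4 * a1 ^ 2 * c2) := by ring
    rw [e]
    exact h2
  · rintro ⟨h1, h2⟩
    apply hnp
    have e1 : a1 * b2 = a2 * b1 := by linarith
    have e2 : 4 * a1 * (a1 * c2) = 4 * a1 * (a2 * c1) := by
      linear_combination h2 + 2 * b1 * e1
    have e3 : a1 * c2 = a2 * c1 := mul_left_cancel₀ (mul_ne_zero four_ne_zero ha1) e2
    refine ⟨e1, e3, ?_⟩
    have e4 : a1 * (b1 * c2) = a1 * (b2 * c1) := by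
      linear_combination b1 * e3 - c1 * e1
    exact mul_left_cancel₀ ha1 e4
  · rcases hε with h | h <;> rcases hla with h' | h' <;> rw [h, h'] <;> norm_num
  · obtain ⟨A, hA, H⟩ := trf (!![1, 0; -b1, 2 * a1] : M2) hdet
    refine ⟨A, hA, fun N1 N2 h1 h2 => H _ _ ?_ N1 N2 h1 h2⟩
    intro v w c hv hw hc hvw hvX
    have k0 : v 0 - b1 * v 1 = c * w 0 := by
      have := congrFun hvw 0
      simp [Matrix.vecMul, dotProduct, Fin.sum_univ_two] at this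
      linarith
    have k1 : 2 * a1 * v 1 = c * w 1 := by
      have := congrFun hvw 1
      simp [Matrix.vecMul, dotProduct, Fin.sum_univ_two] at this
      linarith
    have hnf : nf (b1 ^ 2 - 4 * a1 * c1) v ≠ 0 := nf_ne hD (prm_ne hv)
    have q1 : a1 * nf (b1 ^ 2 - 4 * a1 * c1) v = c ^ 2 * qf a1 b1 c1 w := by
      have e : c ^ 2 * qf a1 b1 c1 w = a1 * (c * w 0) ^ 2 + b1 * (c * w 0) * (c * w 1) +
        c1 * (c * w 1) ^ 2 := by unfold qf; ring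
      rw [e, ← k0, ← k1]
      unfold nf
      ring
    have q2 : qf a2 (2 * a1 * b2 - 2 * a2 * b1)
        (a2 * b1 ^ 2 - 2 * a1 * b1 * b2 + 4 * a1 ^ 2 * c2) v = c ^ 2 * qf a2 b2 c2 w := by
      have e : c ^ 2 * qf a2 b2 c2 w = a2 * (c * w 0) ^ 2 + b2 * (c * w 0) * (c * w 1) +
        c2 * (c * w 1) ^ 2 := by unfold qf; ring
      rw [e, ← k0, ← k1]
      unfold qf
      ring
    have hq1 : qf a1 b1 c1 w ≠ 0 := by
      intro h0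
      rw [h0, mul_zero] at q1
      exact mul_ne_zero ha1 hnf q1
    have l1 : lam a1 * F (b1 ^ 2 - 4 * a1 * c1) v = lam (qf a1 b1 c1 w) := by
      unfold F
      rw [← lam_mul, q1, lam_mul, lam_sq hc.ne', one_mul]
    have l2 : lam (qf a2 (2 * a1 * b2 - 2 * a2 * b1)
        (a2 * b1 ^ 2 - 2 * a1 * b1 * b2 + 4 * a1 ^ 2 * c2) v) = lam (qf a2 b2 c2 w) := by
      rw [q2, lam_mul, lam_sq hc.ne', one_mul]
    have l3 : lam (qf a1 b1 c1 w) * lam (qf a1 b1 c1 w) = 1 := by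
      rcases lam_pm hq1 with h | h <;> rw [h] <;> norm_num
    show lam (qf a1 b1 c1 w * qf a2 b2 c2 w) ≠ ε
    intro h0
    apply (show lam (qf a2 (2 * a1 * b2 - 2 * a2 * b1)
        (a2 * b1 ^ 2 - 2 * a1 * b1 * b2 + 4 * a1 ^ 2 * c2) v) ≠
          ε * lam a1 * F (b1 ^ 2 - 4 * a1 * c1) v from hvX)
    rw [lam_mul] at h0
    rw [l2, mul_assoc, l1, ← h0]
    linear_combination -(lam (qf a2 b2 c2 w)) * l3

end Pool.Agent.CQF
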