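import Pool.Agent.CQF.Gna

set_option autoImplicit false

/-!
# Module Gnb (size 3): the similitudes of the second form

`M2z x y = !![x, y α; -y γ, x + y β]`, `det = N2 = x² + β x y + α γ y²`, identity `qf (v ᵥ* M2z) = N2 * qf v`.
`β² - 4αγ` is not a square, so `N2 ≠ 0` for `(x, y) ≠ 0` and `qf v ≠ 0` for `v ≠ 0`.
Claim: `Inv X0 D (M2z x y) (lam N2)`. Let `v` be primitive, `F (v M) ≠ χ F v`, `χ = lam N2`. `lam (qf (v M)) = χ lam (qf v)`. If
`lam (qf v) = η F v` and `lam (qf (v M)) = η F (v M)` then `F (v M) = χ F v`; so `v ∈ Y := {lam (qf v) ≠ η F v}` or, writing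
`v M = c w` with `w` primitive, `w ∈ Y` (`lam` and `F` do not see the factor `c`).  `ms_union`, `trf`, `NearC`.
-/

open Matrix

namespace Pool.Agent.CQF

/-- similitudes of `α v₀² + β v₀ v₁ + γ v₁²` -/
def M2z (α β γ x y : ℤ) : M2 := !![x, y * α; -(y * γ), x + y * β]

private theorem Gnb_ht_one {v : Fin 2 → ℤ} (hv : Prm v) : 1 ≤ ht v := by
  by_contra h
  have h0 : ht v = 0 := by omega
  unfold ht at h0
  have h1 : (v 0).natAbs = 0 := by omega
  have h2 : (v 1).natAbs = 0 := by omega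
  have e0 : v 0 = 0 := Int.natAbs_eq_zero.1 h1
  have e1 : v 1 = 0 := Int.natAbs_eq_zero.1 h2
  unfold Prm at hv
  rw [e0, e1] at hv
  simp at hv

private theorem Gnb_ms_max (X : Set (Fin 2 → ℤ)) (N1 N2 : ℝ) : ms X N1 N2 ≤ ms X (max 1 N1) N2 := by
  classical
  unfold ms
  refine Finset.sum_le_sum_of_subset_of_nonneg ?_ ?_
  · intro v hv
    rw [Finset.mem_filter] at hv ⊢
    refine ⟨?_, hv.2⟩
    unfold pv at hv ⊢
    rw [Finset.mem_filter] at hv ⊢
    refine ⟨hv.1.1, hv.1.2.1, ?_, hv.1.2.2.2⟩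
    refine max_le ?_ hv.1.2.2.1
    exact_mod_cast Gnb_ht_one hv.1.2.1
  · intro v _ _
    positivity

private theorem Gnb_det (α β γ x y : ℤ) : (M2z α β γ x y).det = x ^ 2 + β * x * y + α * γ * y ^ 2 := by
  unfold M2z
  rw [Matrix.det_fin_two_of]
  ring

private theorem Gnb_qf (α β γ x y : ℤ) (v : Fin 2 → ℤ) :
    qf α β γ (v ᵥ* M2z α β γ x y) = (x ^ 2 + β * x * y + α * γ * y ^ 2) * qf α β γ v := by
  have h0 : (v ᵥ* M2z α β γ x y) 0 = v 0 * x + v 1 * (-(y * γ)) := by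
    simp [M2z, Matrix.vecMul, dotProduct, Fin.sum_univ_two]
  have h1 : (v ᵥ* M2z α β γ x y) 1 = v 0 * (y * α) + v 1 * (x + y * β) := by
    simp [M2z, Matrix.vecMul, dotProduct, Fin.sum_univ_two]
  unfold qf
  rw [h0, h1]
  ring

private theorem Gnb_qf_smul (α β γ c : ℤ) (w : Fin 2 → ℤ) : qf α β γ (c • w) = c ^ 2 * qf α β γ w := by
  unfold qf
  simp only [Pi.smul_apply, smul_eq_mul]
  ring

private theorem Gnb_N2_ne {α β γ : ℤ} (hd : ¬ IsSquare (β ^ 2 - 4 * α * γ)) {x y : ℤ}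
    (hxy : ¬ (x = 0 ∧ y = 0)) : x ^ 2 + β * x * y + α * γ * y ^ 2 ≠ 0 := by
  intro h
  have hne : (![2 * x + β * y, y] : Fin 2 → ℤ) ≠ 0 := by
    intro h'
    have e1 : y = 0 := by simpa using congrFun h' 1
    have e0 : 2 * x + β * y = 0 := by simpa using congrFun h' 0
    rw [e1] at e0
    apply hxy
    constructor
    · linarith
    · exact e1
  apply nf_ne hd hne
  unfold nf
  simp only [Matrix.cons_val_zero, Matrix.cons_val_one]
  linear_combination 4 * h

private theorem Gnb_qf_ne {α β γ : ℤ} (hd : ¬ IsSquare (β ^ 2 - 4 * α * γ)) {v : Fin 2 → ℤ}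
    (hv : v ≠ 0) : qf α β γ v ≠ 0 := by
  have hα : α ≠ 0 := by
    intro h
    apply hd
    rw [h]
    exact ⟨β, by ring⟩
  intro h
  have hne : (![2 * α * v 0 + β * v 1, v 1] : Fin 2 → ℤ) ≠ 0 := by
    intro h'
    have e1 : v 1 = 0 := by simpa using congrFun h' 1
    have e0 : 2 * α * v 0 + β * v 1 = 0 := by simpa using congrFun h' 0
    rw [e1] at e0
    have e0' : v 0 = 0 := by
      have : (2 * α) * v 0 = 0 := by linarith
      rcases mul_eq_zero.1 this with h1 | h1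
      · exfalso
        apply hα
        linarith
      · exact h1
    apply hv
    funext i
    fin_cases i
    · exact e0'
    · exact e1
  apply nf_ne hd hne
  unfold nf
  simp only [Matrix.cons_val_zero, Matrix.cons_val_one]
  unfold qf at h
  linear_combination 4 * α * h

theorem inv_M2z {X0 : Set (Fin 2 → ℤ)} {D α β γ η : ℤ} (hD : ¬ IsSquare D)
    (hd : ¬ IsSquare (β ^ 2 - 4 * α * γ)) (h : NearC X0 D α β γ η) {x y : ℤ}
    (hxy : ¬ (x = 0 ∧ y = 0)) :
    Inv X0 D (M2z α β γ x y) (lam (x ^ 2 + β * x * y + α * γ * y ^ 2)) := by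
  obtain ⟨hη, A0, hA0, hb0⟩ := h
  have hN := Gnb_N2_ne hd hxy
  have hdet : (M2z α β γ x y).det ≠ 0 := by
    rw [Gnb_det]
    exact hN
  obtain ⟨A1, hA1, hb1⟩ := trf (M2z α β γ x y) hdet
  set M := M2z α β γ x y with hM
  set Y : Set (Fin 2 → ℤ) := {v | lam (qf α β γ v) ≠ η * F D v} with hY
  set Z : Set (Fin 2 → ℤ) := {v | lam (qf α β γ (v ᵥ* M)) ≠ η * F D (v ᵥ* M)} with hZ
  have hηη : η * η = 1 := by
    rcases hη with h | h <;> rw [h] <;> norm_num
  have hunion : ∀ N1 N2 : ℝ, ms (Dst D M (lam (x ^ 2 + β * x * y + α * γ * y ^ 2))) N1 N2 ≤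
      ms Y N1 N2 + ms Z N1 N2 := by
    intro N1 N2
    refine ms_union ?_ N1 N2
    intro v hv hvD
    by_contra hcon
    rw [not_or] at hcon
    obtain ⟨h1, h2⟩ := hcon
    simp only [hY, hZ, Set.mem_setOf_eq, not_not] at h1 h2
    apply hvD
    rw [hM, Gnb_qf, lam_mul, h1, ← hM] at h2
    have := congrArg (fun t => η * t) h2
    calc F D (v ᵥ* M) = η * η * F D (v ᵥ* M) := by rw [hηη, one_mul]
      _ = η * (η * F D (v ᵥ* M)) := by ring
      _ = η * (lam (x ^ 2 + β * x * y + α * γ * y ^ 2) * (η * F D v)) := this.symm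
      _ = (η * η) * (lam (x ^ 2 + β * x * y + α * γ * y ^ 2) * F D v) := by ring
      _ = lam (x ^ 2 + β * x * y + α * γ * y ^ 2) * F D v := by rw [hηη, one_mul]
  have hZY : ∀ N1 N2 : ℝ, 1 ≤ N1 → N1 ≤ N2 → ms Z N1 N2 ≤ A1 * ms Y (N1 / A1) (A1 * N2) := by
    intro N1 N2 h1 h2
    refine hb1 Z Y ?_ N1 N2 h1 h2
    intro v w c hv hw hc hvw hvZ
    simp only [hY, hZ, Set.mem_setOf_eq] at hvZ ⊢
    rw [hvw, Gnb_qf_smul, lam_mul, lam_sq hc.ne', one_mul, F_smul D hc.ne'] at hvZ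
    exact hvZ
  refine ⟨hdet, lam_pm hN, 2 * (A0 * A1), ?_, ?_⟩
  · nlinarith
  intro N1 N2 h1 h2
  have hA0' : (0 : ℝ) < A0 := by linarith
  have hA1' : (0 : ℝ) < A1 := by linarith
  have hAA : 1 ≤ A0 * A1 := by nlinarith
  have hA0A : A0 ≤ A0 * A1 := by nlinarith
  have hA1A : A1 ≤ A0 * A1 := by nlinarith
  have hN1 : 0 < N1 := by linarith
  have hN2 : 0 < N2 := by linarith
  set S := ms X0 (N1 / (2 * (A0 * A1))) (2 * (A0 * A1) * N2) with hS
  have hS0 : 0 ≤ S := ms_nonneg _ _ _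
  have hYb : ms Y N1 N2 ≤ A0 * S := by
    refine (hb0 N1 N2 h1 h2).trans ?_
    refine mul_le_mul_of_nonneg_left ?_ hA0'.le
    refine ms_mono (fun v _ hv => hv) ?_ ?_
    · refine div_le_div_of_nonneg_left hN1.le hA0' ?_
      linarith
    · refine mul_le_mul_of_nonneg_right ?_ hN2.le
      linarith
  have hYb2 : ms Y (N1 / A1) (A1 * N2) ≤ A0 * S := by
    refine (Gnb_ms_max Y _ _).trans ?_
    have hle : max 1 (N1 / A1) ≤ A1 * N2 := by
      refine max_le ?_ ?_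
      · nlinarith
      · rw [div_le_iff₀ hA1']
        have e1 : N2 ≤ A1 * N2 := by nlinarith
        have e2 : A1 * N2 ≤ A1 * N2 * A1 := by nlinarith
        linarith
    refine (hb0 (max 1 (N1 / A1)) (A1 * N2) (le_max_left _ _) hle).trans ?_
    refine mul_le_mul_of_nonneg_left ?_ hA0'.le
    refine ms_mono (fun v _ hv => hv) ?_ ?_
    · have e1 : N1 / (2 * (A0 * A1)) ≤ N1 / A1 / A0 := by
        rw [div_div]
        refine div_le_div_of_nonneg_left hN1.le (by positivity) ?_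
        nlinarith
      refine e1.trans ?_
      exact div_le_div_of_nonneg_right (le_max_right _ _) hA0'.le
    · have : A0 * (A1 * N2) = (A0 * A1) * N2 := by ring
      rw [this]
      refine mul_le_mul_of_nonneg_right ?_ hN2.le
      linarith
  calc ms (Dst D M (lam (x ^ 2 + β * x * y + α * γ * y ^ 2))) N1 N2 ≤ ms Y N1 N2 + ms Z N1 N2 :=
        hunion N1 N2
    _ ≤ A0 * S + A1 * (A0 * S) := by
        refine add_le_add hYb ((hZY N1 N2 h1 h2).trans ?_)
        exact mul_le_mul_of_nonneg_left hYb2 hA1'.le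
    _ ≤ 2 * (A0 * A1) * S := by
        have e1 : A0 * S ≤ (A0 * A1) * S := mul_le_mul_of_nonneg_right hA0A hS0
        have e2 : A1 * (A0 * S) = (A0 * A1) * S := by ring
        linarith

end Pool.Agent.CQF
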