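import Pool.Agent.CQF.Gnb

set_option autoImplicit false

/-!
# Module Gnc (size 4): a unipotent from two tori

`α ≠ 0` (otherwise `β² - 4αγ = β²`). For an integer `x` put
`h x = M2z α β γ x 1 * km D (x, -α) = !![n1, 0; b, n2]` with `n1 = x² - D α²`, `n2 = x² + β x + α γ`,
`b = -(x (γ + D α) + D α β)`; all of `n1, n2` nonzero; `Inv X0 D (h x) s`, `s = ±1` (`inv_M2z`, `inv_km`, `inv_mul`).
With `h = h 1`, `h' = h 0`: `h * h' * adj h * adj h' = LQ e Δ`, `Δ = n1 n1' n2 n2'`,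
`e = n2 n2' (b (n1' - n2') - b' (n1 - n2)) = n2 n2' α ((γ + D α)² - D β²)`, and its sign is `s² s'² = 1`.
`e ≠ 0`: `(γ + Dα)² = D β²` would give (`D` not a square) `β = 0` and `γ = -D α`.
`(LQ e Δ)^n = Δ^(n-1) • LQ (n e) Δ`; with `n = |Δ|` this is `± Δ^n • LQ (± e) 1`, so `Inv X0 D (Tk (±e)) 1`
(`LQ k 1 = Tk k`; `inv_smul`, `inv_pow`), and `adj (Tk e) = Tk (-e)`. `k = |e|`.
-/

open Matrix

namespace Pool.Agent.CQF

private theorem gnc_pow (Δ e : ℤ) (n : ℕ) :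
    Δ • (LQ e Δ) ^ n = Δ ^ n • LQ (n * e) Δ := by
  induction n with
  | zero =>
    ext i j
    fin_cases i <;> fin_cases j <;> simp [LQ]
  | succ n ih =>
    rw [pow_succ, ← Matrix.smul_mul, ih]
    ext i j
    fin_cases i <;> fin_cases j <;>
      simp [LQ, Matrix.mul_apply, Fin.sum_univ_two, -mul_eq_mul_left_iff,
        -mul_eq_mul_right_iff] <;> ring

private theorem gnc_Tk {X0 : Set (Fin 2 → ℤ)} {D : ℤ} (hD : ¬ IsSquare D) {e Δ : ℤ} (he : e ≠ 0)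
    (hΔ : Δ ≠ 0) (h : Inv X0 D (LQ e Δ) 1) : ∃ k : ℕ, 1 ≤ k ∧ Inv X0 D (Tk k) 1 := by
  have hpw := (inv_smul hΔ).2 (inv_pow hD h Δ.natAbs)
  rw [gnc_pow] at hpw
  have h3 := (inv_smul (pow_ne_zero _ hΔ)).1 hpw
  have h4 : Inv X0 D (Tk e) 1 ∨ Inv X0 D (Tk (-e)) 1 := by
    rcases Int.natAbs_eq Δ with h | h
    · left
      have e1 : LQ ((Δ.natAbs : ℤ) * e) Δ = Δ • Tk e := by
        rw [← h]
        ext i j
        fin_cases i <;> fin_cases j <;> simp [Tk, LQ]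
      rw [e1] at h3
      exact (inv_smul hΔ).1 h3
    · right
      have h' : (Δ.natAbs : ℤ) = -Δ := by omega
      have e1 : LQ ((Δ.natAbs : ℤ) * e) Δ = Δ • Tk (-e) := by
        rw [h']
        ext i j
        fin_cases i <;> fin_cases j <;> simp [Tk, LQ]
      rw [e1] at h3
      exact (inv_smul hΔ).1 h3
  have hadj : ∀ x : ℤ, (Tk x).adjugate = Tk (-x) := by
    intro x
    simp [Tk, Matrix.adjugate_fin_two]
  have h5 : Inv X0 D (Tk e) 1 ∧ Inv X0 D (Tk (-e)) 1 := by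
    rcases h4 with h | h
    · refine ⟨h, ?_⟩
      have := inv_adj hD h
      rwa [hadj] at this
    · refine ⟨?_, h⟩
      have := inv_adj hD h
      rwa [hadj, neg_neg] at this
  refine ⟨e.natAbs, Int.natAbs_pos.2 he, ?_⟩
  rcases Int.natAbs_eq e with h | h
  · rw [← h]
    exact h5.1
  · have h' : (e.natAbs : ℤ) = -e := by omega
    rw [h']
    exact h5.2

theorem near_Tk {X0 : Set (Fin 2 → ℤ)} {D α β γ η : ℤ} (hD : ¬ IsSquare D)
    (hd : ¬ IsSquare (β ^ 2 - 4 * α * γ)) (hnp : ¬ (β = 0 ∧ γ = -D * α))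
    (h : NearC X0 D α β γ η) : ∃ k : ℕ, 1 ≤ k ∧ Inv X0 D (Tk k) 1 := by
  have hα : α ≠ 0 := by
    rintro rfl
    exact hd ⟨β, by ring⟩
  have hz : ∀ x : ℤ, (![x, -α] : Fin 2 → ℤ) ≠ 0 := by
    intro x h0
    have h1 := congrFun h0 1
    simp at h1
    exact hα h1
  have hn1 : ∀ x : ℤ, x ^ 2 - D * α ^ 2 ≠ 0 := by
    intro x
    have := nf_ne hD (hz x)
    simpa [nf] using this
  have hn2 : ∀ x : ℤ, x ^ 2 + β * x + α * γ ≠ 0 := by
    intro x h0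
    apply hd
    refine ⟨2 * x + β, ?_⟩
    linear_combination (-4) * h0
  have hh : ∀ x : ℤ, ∃ s : ℤ, s * s = 1 ∧ Inv X0 D
      !![x ^ 2 - D * α ^ 2, 0; -(x * (γ + D * α) + D * α * β), x ^ 2 + β * x + α * γ] s := by
    intro x
    have h1 := inv_M2z hD hd h (x := x) (y := 1) (by simp)
    have h2 := inv_mul hD h1 (inv_km (X0 := X0) hD (hz x))
    have e1 : M2z α β γ x 1 * km D ![x, -α] =
        !![x ^ 2 - D * α ^ 2, 0; -(x * (γ + D * α) + D * α * β), x ^ 2 + β * x + α * γ] := by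
      ext i j
      fin_cases i <;> fin_cases j <;>
        simp [M2z, km, Matrix.mul_apply, Fin.sum_univ_two, -mul_eq_mul_left_iff,
          -mul_eq_mul_right_iff] <;> ring
    rw [e1] at h2
    refine ⟨_, ?_, h2⟩
    rcases h2.2.1 with h3 | h3 <;> rw [h3] <;> norm_num
  obtain ⟨s, hs, h1⟩ := hh 1
  obtain ⟨s', hs', h0⟩ := hh 0
  have hprod := inv_mul hD (inv_mul hD (inv_mul hD h1 h0) (inv_adj hD h1)) (inv_adj hD h0)
  have hsg : s * s' * s * s' = 1 := by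
    calc s * s' * s * s' = (s * s) * (s' * s') := by ring
      _ = 1 := by rw [hs, hs']; norm_num
  rw [hsg] at hprod
  obtain ⟨Δ, hΔ⟩ : ∃ Δ : ℤ, Δ = (1 - D * α ^ 2) * (-(D * α ^ 2)) * (1 + β + α * γ) * (α * γ) :=
    ⟨_, rfl⟩
  obtain ⟨e, he⟩ : ∃ e : ℤ, e = (1 + β + α * γ) * (α * γ) * (α * ((γ + D * α) ^ 2 - D * β ^ 2)) :=
    ⟨_, rfl⟩
  have hmat : (!![1 ^ 2 - D * α ^ 2, 0; -(1 * (γ + D * α) + D * α * β), 1 ^ 2 + β * 1 + α * γ] *
      !![0 ^ 2 - D * α ^ 2, 0; -(0 * (γ + D * α) + D * α * β), 0 ^ 2 + β * 0 + α * γ] *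
      (!![1 ^ 2 - D * α ^ 2, 0; -(1 * (γ + D * α) + D * α * β), 1 ^ 2 + β * 1 + α * γ] :
        M2).adjugate *
      (!![0 ^ 2 - D * α ^ 2, 0; -(0 * (γ + D * α) + D * α * β), 0 ^ 2 + β * 0 + α * γ] :
        M2).adjugate) = LQ e Δ := by
    rw [hΔ, he]
    ext i j
    fin_cases i <;> fin_cases j <;>
      simp [LQ, Matrix.adjugate_fin_two, Matrix.mul_apply, Fin.sum_univ_two, -mul_eq_mul_left_iff,
        -mul_eq_mul_right_iff] <;> ring
  rw [hmat] at hprod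
  have h11 : 1 - D * α ^ 2 ≠ 0 := by simpa using hn1 1
  have h10 : -(D * α ^ 2) ≠ 0 := by simpa using hn1 0
  have h21 : 1 + β + α * γ ≠ 0 := by simpa using hn2 1
  have h20 : α * γ ≠ 0 := by simpa using hn2 0
  have hnf : (γ + D * α) ^ 2 - D * β ^ 2 ≠ 0 := by
    have hv : (![γ + D * α, β] : Fin 2 → ℤ) ≠ 0 := by
      intro h0
      have e0 := congrFun h0 0
      have e1 := congrFun h0 1
      simp at e0 e1
      exact hnp ⟨e1, by linarith⟩
    have := nf_ne hD hv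
    simpa [nf] using this
  have hΔ0 : Δ ≠ 0 := by
    rw [hΔ]
    exact mul_ne_zero (mul_ne_zero (mul_ne_zero h11 h10) h21) h20
  have he0 : e ≠ 0 := by
    rw [he]
    exact mul_ne_zero (mul_ne_zero h21 h20) (mul_ne_zero hα hnf)
  exact gnc_Tk hD he0 hΔ0 hprod

end Pool.Agent.CQF
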