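import Mathlib

set_option autoImplicit false

/-!
# Module Hsa (size 4): local solvability of `X² - D Y² ≡ a`, `Y` a unit

`m` coprime to `6 D`, `a` coprime to `m`: there are `X, Y` with `Y` coprime to `m` and `m ∣ X² - D Y² - a`.
Prime modulus `q ≥ 5`, `q ∤ D`, `q ∤ a`: the sets `{X²}` and `{a + D Y²}` have `(q+1)/2` elements each, so they meet:
`X² = a + D Y²`. If `Y ≠ 0` fine. If `Y = 0`, `a = X² = s²`, `s ≠ 0`; choose `t ≠ 0` with `D t² ≠ 1`
(at least `q - 1 - 2 ≥ 2 > 0` values) and take `X = s (1 + D t²)/(1 - D t²)`, `Y = 2 s t/(1 - D t²) ≠ 0`.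
Prime powers: if `X ≢ 0` mod `q` keep `Y` and lift `X` (a unit which is a square mod `q`, `q` odd, is a square mod `q^e`;
Hensel or induction on `e`: `X' = X + q^e t` with `2 X t ≡ ...`); if `X ≡ 0` mod `q` keep `X` and lift `Y`
(`D Y² ≡ X² - a`, `D` and `Y` units).
General `m`: Chinese remainder theorem (induction over coprime factors, e.g. `Nat.recOnPosPrimePosCoprime`).
-/

namespace Pool.Agent.CQF

private lemma Hsa_field {K : Type*} [Field K] [Fintype K] (hK : Fintype.card K % 2 = 1) (D a : K) (hD : D ≠ 0)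
    (h2 : (2 : K) ≠ 0) (h3 : (3 : K) ≠ 0) (ha : a ≠ 0) :
    ∃ x y : K, y ≠ 0 ∧ x ^ 2 - D * y ^ 2 - a = 0 := by
  obtain ⟨x, y, hxy⟩ := FiniteField.exists_root_sum_quadratic
    (f := Polynomial.X ^ 2 - Polynomial.C a) (g := Polynomial.C (-D) * Polynomial.X ^ 2)
    (Polynomial.degree_X_pow_sub_C (by norm_num) a)
    (Polynomial.degree_C_mul_X_pow 2 (neg_ne_zero.mpr hD)) hK
  simp only [Polynomial.eval_sub, Polynomial.eval_pow, Polynomial.eval_X, Polynomial.eval_C,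
    Polynomial.eval_mul] at hxy
  have hxy' : x ^ 2 - D * y ^ 2 - a = 0 := by linear_combination hxy
  by_cases hy : y = 0
  · have hx2 : x ^ 2 = a := by
      rw [hy] at hxy'
      linear_combination hxy'
    have hx : x ≠ 0 := by
      intro h
      apply ha
      rw [← hx2, h]
      ring
    have key : ∀ t : K, t ≠ 0 → D * t ^ 2 ≠ 1 → ∃ x y : K, y ≠ 0 ∧ x ^ 2 - D * y ^ 2 - a = 0 := by
      intro t ht hDt
      have hne : 1 - D * t ^ 2 ≠ 0 := fun h => hDt (by linear_combination -h)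
      refine ⟨x * (1 + D * t ^ 2) / (1 - D * t ^ 2), 2 * x * t / (1 - D * t ^ 2), ?_, ?_⟩
      · exact div_ne_zero (mul_ne_zero (mul_ne_zero h2 hx) ht) hne
      · rw [← hx2]
        field_simp
        ring
    by_cases hD1 : D = 1
    · refine key 2 h2 ?_
      rw [hD1]
      intro h
      apply h3
      linear_combination h
    · refine key 1 one_ne_zero ?_
      rw [one_pow, mul_one]
      exact hD1
  · exact ⟨x, y, hy, hxy'⟩

private lemma Hsa_prime (D a : ℤ) (q : ℕ) (hq : q.Prime) (hD : ¬ (q : ℤ) ∣ 6 * D) (ha : ¬ (q : ℤ) ∣ a) :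
    ∃ X Y : ℤ, ¬ (q : ℤ) ∣ Y ∧ (q : ℤ) ∣ X ^ 2 - D * Y ^ 2 - a := by
  have : Fact q.Prime := ⟨hq⟩
  have hdvd : ∀ z : ℤ, ((z : ZMod q) = 0 ↔ (q : ℤ) ∣ z) := fun z => ZMod.intCast_zmod_eq_zero_iff_dvd z q
  have h1 : ((6 * D : ℤ) : ZMod q) ≠ 0 := fun h => hD ((hdvd _).mp h)
  have h6 : ((6 : ZMod q) * (D : ZMod q)) ≠ 0 := by
    intro h
    apply h1
    push_cast
    exact h
  have hD0 : (D : ZMod q) ≠ 0 := right_ne_zero_of_mul h6
  have h60 : (6 : ZMod q) ≠ 0 := left_ne_zero_of_mul h6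
  have h23 : (2 : ZMod q) * 3 ≠ 0 := by
    intro h
    apply h60
    rw [← h]
    norm_num
  have h2 : (2 : ZMod q) ≠ 0 := left_ne_zero_of_mul h23
  have h3 : (3 : ZMod q) ≠ 0 := right_ne_zero_of_mul h23
  have ha0 : (a : ZMod q) ≠ 0 := fun h => ha ((hdvd _).mp h)
  have hodd : Fintype.card (ZMod q) % 2 = 1 := by
    rw [ZMod.card]
    rcases hq.eq_two_or_odd with h | h
    · exfalso
      subst h
      apply h2
      rfl
    · exact h
  obtain ⟨x, y, hy, hxy⟩ := Hsa_field hodd (D : ZMod q) (a : ZMod q) hD0 h2 h3 ha0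
  obtain ⟨X, rfl⟩ := ZMod.intCast_surjective x
  obtain ⟨Y, rfl⟩ := ZMod.intCast_surjective y
  refine ⟨X, Y, fun h => hy ((hdvd _).mpr h), (hdvd _).mp ?_⟩
  push_cast
  exact hxy

private lemma Hsa_pow (D a : ℤ) (q : ℕ) (hq : q.Prime) (hD : ¬ (q : ℤ) ∣ 6 * D) (ha : ¬ (q : ℤ) ∣ a) (n : ℕ) :
    ∃ X Y : ℤ, ¬ (q : ℤ) ∣ Y ∧ (q : ℤ) ^ (n + 1) ∣ X ^ 2 - D * Y ^ 2 - a := by
  have hqZ : Prime (q : ℤ) := Nat.prime_iff_prime_int.mp hq
  induction n with
  | zero =>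
    obtain ⟨X, Y, h1, h2⟩ := Hsa_prime D a q hq hD ha
    refine ⟨X, Y, h1, ?_⟩
    rw [zero_add, pow_one]
    exact h2
  | succ n ih =>
    obtain ⟨X, Y, hY, k, hk⟩ := ih
    have hu : IsCoprime (2 * D * Y) (q : ℤ) := by
      rw [isCoprime_comm]
      refine (Prime.coprime_iff_not_dvd hqZ).mpr ?_
      intro h
      rcases hqZ.dvd_or_dvd h with h1 | h1
      · apply hD
        have h2 : 6 * D = 3 * (2 * D) := by ring
        rw [h2]
        exact Dvd.dvd.mul_left h1 3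
      · exact hY h1
    obtain ⟨u, v, huv⟩ := hu
    -- Y' = Y + q^(n+1) t with t = u k
    refine ⟨X, Y + (q : ℤ) ^ (n + 1) * (u * k), ?_, ?_⟩
    · intro h
      apply hY
      have h1 : (q : ℤ) ∣ (q : ℤ) ^ (n + 1) * (u * k) :=
        Dvd.dvd.mul_right (dvd_pow_self _ (by omega)) _
      have h2 := dvd_sub h h1
      rwa [add_sub_cancel_right] at h2
    · refine ⟨v * k - D * (q : ℤ) ^ n * (u * k) ^ 2, ?_⟩
      have h1 : X ^ 2 - D * (Y + (q : ℤ) ^ (n + 1) * (u * k)) ^ 2 - a =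
          (X ^ 2 - D * Y ^ 2 - a) - (q : ℤ) ^ (n + 1) * (k * (u * (2 * D * Y))) -
            D * ((q : ℤ) ^ (n + 1) * (u * k)) ^ 2 := by ring
      rw [h1, hk]
      have h2 : u * (2 * D * Y) = 1 - v * q := by linear_combination huv
      rw [h2]
      ring

theorem conic_solve (D : ℤ) (m : ℕ) (hm : 1 ≤ m) (hD : IsCoprime (6 * D) (m : ℤ)) (a : ℤ)
    (ha : IsCoprime a (m : ℤ)) :
    ∃ X Y : ℤ, IsCoprime Y (m : ℤ) ∧ (m : ℤ) ∣ X ^ 2 - D * Y ^ 2 - a := by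
  induction m using Nat.recOnPosPrimePosCoprime with
  | prime_pow q n hq hn =>
    obtain ⟨n, rfl⟩ : ∃ k, n = k + 1 := ⟨n - 1, by omega⟩
    have hqZ : Prime (q : ℤ) := Nat.prime_iff_prime_int.mp hq
    push_cast at hD ha ⊢
    have hD' : ¬ (q : ℤ) ∣ 6 * D := by
      have h1 : IsCoprime (6 * D) (q : ℤ) := (IsCoprime.pow_right_iff (by omega)).mp hD
      rw [isCoprime_comm] at h1
      exact (Prime.coprime_iff_not_dvd hqZ).mp h1
    have ha' : ¬ (q : ℤ) ∣ a := by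
      have h1 : IsCoprime a (q : ℤ) := (IsCoprime.pow_right_iff (by omega)).mp ha
      rw [isCoprime_comm] at h1
      exact (Prime.coprime_iff_not_dvd hqZ).mp h1
    obtain ⟨X, Y, h1, h2⟩ := Hsa_pow D a q hq hD' ha' n
    refine ⟨X, Y, ?_, h2⟩
    apply IsCoprime.pow_right
    rw [isCoprime_comm]
    exact (Prime.coprime_iff_not_dvd hqZ).mpr h1
  | zero => omega
  | one => exact ⟨0, 1, isCoprime_one_left, by simp⟩
  | coprime m₁ m₂ h1 h2 hcop ih1 ih2 =>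
    push_cast at hD ha ⊢
    obtain ⟨X₁, Y₁, c1, d1⟩ := ih1 (by omega) (IsCoprime.of_mul_right_left hD)
      (IsCoprime.of_mul_right_left ha)
    obtain ⟨X₂, Y₂, c2, d2⟩ := ih2 (by omega) (IsCoprime.of_mul_right_right hD)
      (IsCoprime.of_mul_right_right ha)
    have hc : IsCoprime (m₁ : ℤ) (m₂ : ℤ) := Nat.isCoprime_iff_coprime.mpr hcop
    obtain ⟨u, v, huv⟩ := hc
    have eX1 : X₁ * (v * m₂) + X₂ * (u * m₁) = X₁ + m₁ * (u * (X₂ - X₁)) := by
      linear_combination X₁ * huv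
    have eX2 : X₁ * (v * m₂) + X₂ * (u * m₁) = X₂ + m₂ * (v * (X₁ - X₂)) := by
      linear_combination X₂ * huv
    have eY1 : Y₁ * (v * m₂) + Y₂ * (u * m₁) = Y₁ + m₁ * (u * (Y₂ - Y₁)) := by
      linear_combination Y₁ * huv
    have eY2 : Y₁ * (v * m₂) + Y₂ * (u * m₁) = Y₂ + m₂ * (v * (Y₁ - Y₂)) := by
      linear_combination Y₂ * huv
    refine ⟨X₁ * (v * m₂) + X₂ * (u * m₁), Y₁ * (v * m₂) + Y₂ * (u * m₁), ?_, ?_⟩
    · apply IsCoprime.mul_right
      · rw [eY1]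
        exact IsCoprime.add_mul_left_left c1 _
      · rw [eY2]
        exact IsCoprime.add_mul_left_left c2 _
    · apply IsCoprime.mul_dvd ⟨u, v, huv⟩
      · rw [eX1, eY1]
        obtain ⟨k, hk⟩ := d1
        refine ⟨k + (u * (X₂ - X₁)) * (2 * X₁ + m₁ * (u * (X₂ - X₁))) -
          D * ((u * (Y₂ - Y₁)) * (2 * Y₁ + m₁ * (u * (Y₂ - Y₁)))), ?_⟩
        linear_combination hk
      · rw [eX2, eY2]
        obtain ⟨k, hk⟩ := d2
        refine ⟨k + (v * (X₁ - X₂)) * (2 * X₂ + m₂ * (v * (X₁ - X₂))) -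
          D * ((v * (Y₁ - Y₂)) * (2 * Y₂ + m₂ * (v * (Y₁ - Y₂)))), ?_⟩
        linear_combination hk

end Pool.Agent.CQF
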