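import Pool.Agent.CQF.Trf

set_option autoImplicit false

/-!
# Module Ivc (size 3): calculus of the approximate invariance group

* product: for primitive `v` in `Dst (h h') (η η')`: `F (v h h') ≠ η η' F v`, so `F (v h) ≠ η F v` or
  `F (v h h') ≠ η' F (v h)` (all values are `±1`, `v h ≠ 0`). In the second case write `v h = c w`, `w` primitive:
  `F (w h') ≠ η' F w`. Use `ms_union`, `trf h` with `X = {v | F (v h h') ≠ η' F (v h)}`, `Y = Dst h' η'`, and the two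
  hypotheses; windows compose (`A` may be enlarged, `ms_mono`; `ms X (N1/A) ..` is only assumed for `1 ≤ N1`, so for
  the composed window use the hypothesis at `max 1 (N1/A)`: vectors of height `< 1` do not exist).
* `adj h`: for primitive `v ∈ Dst (adj h) η`, `v adj h = c w`: `c (w h) = (det h) v`, so `F (w h) = F v`, `F (v adj h) = F w`,
  so `F w ≠ η F v`, i.e. `F (w h) ≠ η F w`. Use `trf (adj h)`.
-/

open Matrix

namespace Pool.Agent.CQF

theorem ivc_ht {v : Fin 2 → ℤ} (hv : Prm v) : (1 : ℝ) ≤ (ht v : ℝ) := by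
  have h : 1 ≤ ht v := by
    by_contra h0
    have h1 : ht v = 0 := by omega
    unfold ht at h1
    have h2 : (v 0).natAbs = 0 := by omega
    have h3 : (v 1).natAbs = 0 := by omega
    unfold Prm at hv
    rw [Int.natAbs_eq_zero.1 h2, Int.natAbs_eq_zero.1 h3] at hv
    simp at hv
  exact_mod_cast h

theorem ivc_max (X : Set (Fin 2 → ℤ)) (N1 N2 : ℝ) : ms X N1 N2 ≤ ms X (max 1 N1) N2 := by
  classical
  unfold ms
  apply Finset.sum_le_sum_of_subset_of_nonneg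
  · intro v hv
    rw [Finset.mem_filter] at hv ⊢
    refine ⟨?_, hv.2⟩
    have h1 := hv.1
    unfold pv at h1 ⊢
    rw [Finset.mem_filter] at h1 ⊢
    exact ⟨h1.1, h1.2.1, max_le (ivc_ht h1.2.1) h1.2.2.1, h1.2.2.2⟩
  · intro v _ _
    positivity

theorem ivc_aux {X0 Y : Set (Fin 2 → ℤ)} {A1 A3 : ℝ} (h1 : 1 ≤ A1) (h3 : 1 ≤ A3)
    (H : ∀ N1 N2 : ℝ, 1 ≤ N1 → N1 ≤ N2 → ms Y N1 N2 ≤ A1 * ms X0 (N1 / A1) (A1 * N2))
    {N1 N2 : ℝ} (hN1 : 1 ≤ N1) (hN2 : N1 ≤ N2) :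
    A3 * ms Y (N1 / A3) (A3 * N2) ≤ (A3 * A1) * ms X0 (N1 / (A3 * A1)) ((A3 * A1) * N2) := by
  have hA1 : 0 < A1 := by linarith
  have hA3 : 0 < A3 := by linarith
  rw [mul_assoc]
  apply mul_le_mul_of_nonneg_left _ hA3.le
  refine (ivc_max Y _ _).trans ?_
  have e1 : N1 / A3 ≤ N1 := div_le_self (by linarith) h3
  have e2 : N2 ≤ A3 * N2 := by nlinarith
  refine (H _ _ (le_max_left _ _) (max_le (by linarith) (by linarith))).trans ?_
  apply mul_le_mul_of_nonneg_left _ hA1.le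
  apply ms_mono (fun v _ hv => hv)
  · rw [← div_div]
    exact div_le_div_of_nonneg_right (le_max_right _ _) hA1.le
  · exact le_of_eq (by ring)

theorem ivc_grow {X0 : Set (Fin 2 → ℤ)} {A B : ℝ} (hA : 1 ≤ A) (hAB : A ≤ B) {N1 N2 : ℝ}
    (hN1 : 1 ≤ N1) (hN2 : N1 ≤ N2) :
    ms X0 (N1 / A) (A * N2) ≤ ms X0 (N1 / B) (B * N2) := by
  apply ms_mono (fun v _ hv => hv)
  · exact div_le_div_of_nonneg_left (by linarith) (by linarith) hAB
  · exact mul_le_mul_of_nonneg_right hAB (by linarith)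

theorem ivc_empty (N1 N2 : ℝ) : ms ∅ N1 N2 = 0 := by
  unfold ms
  simp

theorem inv_mul {X0 : Set (Fin 2 → ℤ)} {D : ℤ} (hD : ¬ IsSquare D) {h h' : M2} {η η' : ℤ}
    (h1 : Inv X0 D h η) (h2 : Inv X0 D h' η') : Inv X0 D (h * h') (η * η') := by
  obtain ⟨d1, s1, A1, a1, H1⟩ := h1
  obtain ⟨d2, s2, A2, a2, H2⟩ := h2
  obtain ⟨A3, a3, H3⟩ := trf h d1
  refine ⟨by rw [Matrix.det_mul]; exact mul_ne_zero d1 d2, ?_, A1 + A3 * A2, by nlinarith, ?_⟩
  · rcases s1 with s1 | s1 <;> rcases s2 with s2 | s2 <;> rw [s1, s2] <;> norm_num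
  intro N1 N2 hN1 hN2
  have u1 : ms (Dst D (h * h') (η * η')) N1 N2 ≤ ms (Dst D h η) N1 N2 +
      ms {v | F D (v ᵥ* (h * h')) ≠ η' * F D (v ᵥ* h)} N1 N2 := by
    apply ms_union
    intro v _ hv
    by_contra hc
    rw [not_or] at hc
    obtain ⟨c1, c2⟩ := hc
    simp only [Dst, Set.mem_setOf_eq, not_not] at c1 c2 hv
    apply hv
    rw [c2, c1]; ring
  have u2 := H3 {v | F D (v ᵥ* (h * h')) ≠ η' * F D (v ᵥ* h)} (Dst D h' η') (by
    intro v w c _ _ hc hvw hv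
    simp only [Dst, Set.mem_setOf_eq] at hv ⊢
    rw [← Matrix.vecMul_vecMul, hvw, Matrix.smul_vecMul, F_smul D hc.ne', F_smul D hc.ne'] at hv
    exact hv) N1 N2 hN1 hN2
  have u3 := ivc_aux a2 a3 H2 hN1 hN2
  have u4 := H1 N1 N2 hN1 hN2
  have hpos : 1 ≤ A3 * A2 := by nlinarith
  have u5 := ivc_grow (X0 := X0) a1 (show A1 ≤ A1 + A3 * A2 by linarith) hN1 hN2
  have u6 := ivc_grow (X0 := X0) hpos (show A3 * A2 ≤ A1 + A3 * A2 by linarith) hN1 hN2
  calc ms (Dst D (h * h') (η * η')) N1 N2 ≤ A1 * ms X0 (N1 / A1) (A1 * N2) +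
        (A3 * A2) * ms X0 (N1 / (A3 * A2)) ((A3 * A2) * N2) := by linarith
    _ ≤ A1 * ms X0 (N1 / (A1 + A3 * A2)) ((A1 + A3 * A2) * N2) +
        (A3 * A2) * ms X0 (N1 / (A1 + A3 * A2)) ((A1 + A3 * A2) * N2) :=
        add_le_add (mul_le_mul_of_nonneg_left u5 (by linarith))
          (mul_le_mul_of_nonneg_left u6 (by linarith))
    _ = _ := by ring

theorem inv_adj {X0 : Set (Fin 2 → ℤ)} {D : ℤ} (hD : ¬ IsSquare D) {h : M2} {η : ℤ}
    (h1 : Inv X0 D h η) : Inv X0 D h.adjugate η := by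
  obtain ⟨d1, s1, A1, a1, H1⟩ := h1
  have hdet : h.adjugate.det ≠ 0 := by
    rw [Matrix.det_adjugate]
    simpa using d1
  obtain ⟨A3, a3, H3⟩ := trf h.adjugate hdet
  refine ⟨hdet, s1, A3 * A1, by nlinarith, ?_⟩
  intro N1 N2 hN1 hN2
  refine le_trans ?_ (ivc_aux a1 a3 H1 hN1 hN2)
  apply H3 _ _ _ N1 N2 hN1 hN2
  intro v w c _ _ hc hvw hv
  simp only [Dst, Set.mem_setOf_eq] at hv ⊢
  intro hw
  apply hv
  have e1 : c • (w ᵥ* h) = h.det • v := by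
    rw [← Matrix.smul_vecMul, ← hvw, Matrix.vecMul_vecMul, Matrix.adjugate_mul,
      Matrix.vecMul_smul, Matrix.vecMul_one]
  have e2 : F D (w ᵥ* h) = F D v := by
    rw [← F_smul D hc.ne' (w ᵥ* h), e1, F_smul D d1]
  rw [hvw, F_smul D hc.ne', ← e2, hw]
  rcases s1 with s1 | s1 <;> rw [s1] <;> ring

theorem inv_smul {X0 : Set (Fin 2 → ℤ)} {D : ℤ} {c : ℤ} (hc : c ≠ 0) {h : M2} {η : ℤ} :
    Inv X0 D (c • h) η ↔ Inv X0 D h η := by
  have e1 : Dst D (c • h) η = Dst D h η := by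
    ext v
    simp only [Dst, Set.mem_setOf_eq]
    rw [Matrix.vecMul_smul, F_smul D hc]
  have e2 : (c • h).det ≠ 0 ↔ h.det ≠ 0 := by
    rw [Matrix.det_smul]
    constructor
    · intro h1 h2
      exact h1 (by rw [h2, mul_zero])
    · intro h1
      exact mul_ne_zero (pow_ne_zero _ hc) h1
  unfold Inv
  rw [e1, e2]

theorem inv_km {X0 : Set (Fin 2 → ℤ)} {D : ℤ} (hD : ¬ IsSquare D) {x : Fin 2 → ℤ} (hx : x ≠ 0) :
    Inv X0 D (km D x) (F D x) := by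
  refine ⟨by rw [det_km]; exact nf_ne hD hx, F_pm hD hx, 1, le_rfl, ?_⟩
  intro N1 N2 _ _
  have e1 : Dst D (km D x) (F D x) = ∅ := by
    ext v
    simp only [Dst, Set.mem_setOf_eq, Set.mem_empty_iff_false, iff_false, not_not]
    rw [F_km, mul_comm]
  rw [e1, ivc_empty, one_mul]
  exact ms_nonneg _ _ _

theorem inv_one {X0 : Set (Fin 2 → ℤ)} {D : ℤ} : Inv X0 D 1 1 := by
  refine ⟨by rw [Matrix.det_one]; exact one_ne_zero, Or.inl rfl, 1, le_rfl, ?_⟩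
  intro N1 N2 _ _
  have e1 : Dst D 1 1 = ∅ := by
    ext v
    simp only [Dst, Set.mem_setOf_eq, Set.mem_empty_iff_false, iff_false, not_not]
    rw [Matrix.vecMul_one, one_mul]
  rw [e1, ivc_empty, one_mul]
  exact ms_nonneg _ _ _

/-- powers -/
theorem inv_pow {X0 : Set (Fin 2 → ℤ)} {D : ℤ} (hD : ¬ IsSquare D) {h : M2}
    (h1 : Inv X0 D h 1) (n : ℕ) : Inv X0 D (h ^ n) 1 := by
  induction n with
  | zero => rw [pow_zero]; exact inv_one
  | succ n ih =>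
    rw [pow_succ]
    have := inv_mul hD ih h1
    rwa [one_mul] at this

end Pool.Agent.CQF
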