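import Pool.Agent.CQF.Alg

set_option autoImplicit false

/-!
# Module Lm (size 3): basic facts on `lam`, `nf`, `km`, `F`

`D` is not a square (so `nf D v ≠ 0` for `v ≠ 0`: `v₀² = D v₁²`, `v₁ ≠ 0` would make `D` the square of a rational,
hence of an integer).
-/

open Matrix

namespace Pool.Agent.CQF

theorem lam_mul (a b : ℤ) : lam (a * b) = lam a * lam b := by
  unfold lam
  rw [Int.natAbs_mul, ArithmeticFunction.liouville_apply_mul]

theorem lam_pm {a : ℤ} (ha : a ≠ 0) : lam a = 1 ∨ lam a = -1 := by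
  unfold lam
  rw [ArithmeticFunction.liouville_apply (Int.natAbs_ne_zero.2 ha)]
  exact neg_one_pow_eq_or ℤ _

theorem lam_sq {a : ℤ} (ha : a ≠ 0) : lam (a ^ 2) = 1 := by
  rw [pow_two, lam_mul]
  rcases lam_pm ha with h | h <;> rw [h] <;> norm_num

theorem lam_neg (a : ℤ) : lam (-a) = lam a := by
  unfold lam
  rw [Int.natAbs_neg]

theorem lam_prime {p : ℕ} (hp : p.Prime) : lam (p : ℤ) = -1 := by
  unfold lam
  rw [Int.natAbs_natCast, ArithmeticFunction.liouville_apply hp.ne_zero,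
    ArithmeticFunction.cardFactors_apply_prime hp, pow_one]

theorem nf_ne {D : ℤ} (hD : ¬ IsSquare D) {v : Fin 2 → ℤ} (hv : v ≠ 0) : nf D v ≠ 0 := by
  intro h
  unfold nf at h
  have h1 : v 0 ^ 2 = D * v 1 ^ 2 := by linarith
  by_cases hv1 : v 1 = 0
  · rw [hv1] at h1
    have h2 : v 0 = 0 := by
      have : v 0 ^ 2 = 0 := by rw [h1]; ring
      exact pow_eq_zero_iff (two_ne_zero) |>.1 this
    apply hv
    funext i
    fin_cases i
    · exact h2
    · exact hv1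
  · have hdvd : v 1 ^ 2 ∣ v 0 ^ 2 := ⟨D, by rw [h1]; ring⟩
    have hd : v 1 ∣ v 0 := (Int.pow_dvd_pow_iff two_ne_zero).1 hdvd
    obtain ⟨k, hk⟩ := hd
    apply hD
    refine ⟨k, ?_⟩
    have h3 : v 1 ^ 2 * (k * k) = v 1 ^ 2 * D := by
      rw [hk] at h1
      linarith
    exact (mul_left_cancel₀ (pow_ne_zero 2 hv1) h3).symm

theorem F_pm {D : ℤ} (hD : ¬ IsSquare D) {v : Fin 2 → ℤ} (hv : v ≠ 0) :
    F D v = 1 ∨ F D v = -1 := lam_pm (nf_ne hD hv)

theorem nf_km (D : ℤ) (v x : Fin 2 → ℤ) : nf D (v ᵥ* km D x) = nf D v * nf D x := by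
  simp only [nf, km, Matrix.vecMul, dotProduct, Fin.sum_univ_two, Matrix.of_apply,
    Matrix.cons_val', Matrix.cons_val_zero, Matrix.cons_val_one, Matrix.cons_val_fin_one]
  ring

theorem F_km (D : ℤ) (v x : Fin 2 → ℤ) : F D (v ᵥ* km D x) = F D v * F D x := by
  unfold F
  rw [nf_km, lam_mul]

theorem F_smul (D : ℤ) {c : ℤ} (hc : c ≠ 0) (v : Fin 2 → ℤ) : F D (c • v) = F D v := by
  unfold F
  have : nf D (c • v) = c ^ 2 * nf D v := by
    simp only [nf, Pi.smul_apply, smul_eq_mul]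
    ring
  rw [this, lam_mul, lam_sq hc, one_mul]

theorem det_km (D : ℤ) (x : Fin 2 → ℤ) : (km D x).det = nf D x := by
  rw [Matrix.det_fin_two]
  simp only [nf, km, Matrix.of_apply,
    Matrix.cons_val', Matrix.cons_val_zero, Matrix.cons_val_one, Matrix.cons_val_fin_one]
  ring

theorem prm_ne {v : Fin 2 → ℤ} (hv : Prm v) : v ≠ 0 := by
  rintro rfl
  unfold Prm at hv
  simp at hv

theorem vecMul_ne {g : M2} (hg : g.det ≠ 0) {v : Fin 2 → ℤ} (hv : v ≠ 0) : v ᵥ* g ≠ 0 :=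
  fun h => hv (Matrix.eq_zero_of_vecMul_eq_zero hg h)

/-- every nonzero vector is a multiple of a primitive one -/
theorem exists_prm {v : Fin 2 → ℤ} (hv : v ≠ 0) : ∃ (w : Fin 2 → ℤ) (c : ℤ), 0 < c ∧ Prm w ∧
    v = c • w := by
  have hne : Int.gcd (v 0) (v 1) ≠ 0 := by
    intro h
    rw [Int.gcd_eq_zero_iff] at h
    apply hv
    funext i
    fin_cases i
    · exact h.1
    · exact h.2
  have hpos : 0 < Int.gcd (v 0) (v 1) := Nat.pos_of_ne_zero hne
  refine ⟨fun i => v i / (Int.gcd (v 0) (v 1) : ℤ), (Int.gcd (v 0) (v 1) : ℤ),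
    by exact_mod_cast hpos, ?_, ?_⟩
  · unfold Prm
    exact Int.gcd_ediv_gcd_ediv_gcd hpos
  · funext i
    simp only [Pi.smul_apply, smul_eq_mul]
    have hd : (Int.gcd (v 0) (v 1) : ℤ) ∣ v i := by
      fin_cases i
      · exact Int.gcd_dvd_left _ _
      · exact Int.gcd_dvd_right _ _
    exact (Int.mul_ediv_cancel' hd).symm

/-- rows of a matrix of determinant one are primitive -/
theorem row_prm {h : M2} (hh : h 0 0 * h 1 1 - h 0 1 * h 1 0 = 1) (i : Fin 2) : Prm (h i) := by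
  unfold Prm
  rw [← Int.isCoprime_iff_gcd_eq_one]
  fin_cases i
  · exact ⟨h 1 1, -h 1 0, by
      simp only [Fin.zero_eta]
      linarith⟩
  · exact ⟨-h 0 1, h 0 0, by
      simp only [Fin.mk_one]
      linarith⟩

end Pool.Agent.CQF
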