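import Pool.Agent.CQF.Lm

set_option autoImplicit false

/-!
# Module Trf (size 4): transfer of masses by an integer matrix

For a primitive `v` write `v g = c w` with `w` primitive and `c > 0` (`exists_prm`). `c` divides `det g`:
`det g • v = (v g) adj g = c (w adj g)` and `v` is primitive. So `1 ≤ c ≤ |det g|`, `ht w ≤ 2 B ht v` and
`|det g| ht v = c ht (w adj g) ≤ |det g| 2 B ht w`, with `B` a bound for the `|g i j|`, `B ≥ 1`. So
`ht v/(2B) ≤ ht w ≤ 2B ht v`. The map `v ↦ w` is injective on primitive vectors: `v g = c w`, `v' g = c' w` give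
`(c' v - c v') g = 0`, so `c' v = c v'`, and as `v, v'` are primitive and `c, c' > 0`, `v = v'`.  So
`ms X N1 N2 ≤ (2B)² ms Y (N1/(2B)) (2B N2)`; `A = (2B)²` (the window only grows).
-/

open Matrix

namespace Pool.Agent.CQF

private theorem mem_pv {N1 N2 : ℝ} {v : Fin 2 → ℤ} :
    v ∈ pv N1 N2 ↔ Prm v ∧ N1 ≤ (ht v : ℝ) ∧ (ht v : ℝ) ≤ N2 := by
  classical
  unfold pv
  rw [Finset.mem_filter]
  constructor
  · exact fun h => h.2
  · intro h
    refine ⟨?_, h⟩
    rw [Fintype.mem_piFinset]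
    have h1 : ht v ≤ ⌊N2⌋₊ := Nat.le_floor h.2.2
    have h2 : (v 0).natAbs ≤ ht v := le_max_left _ _
    have h3 : (v 1).natAbs ≤ ht v := le_max_right _ _
    intro i
    rw [Finset.mem_Icc]
    fin_cases i
    · simp only [Fin.zero_eta, Fin.isValue]
      omega
    · simp only [Fin.mk_one, Fin.isValue]
      omega

theorem ms_nonneg (X : Set (Fin 2 → ℤ)) (N1 N2 : ℝ) : 0 ≤ ms X N1 N2 := by
  unfold ms
  exact Finset.sum_nonneg fun v _ => by positivity

theorem ms_mono {X Y : Set (Fin 2 → ℤ)} (h : ∀ v, Prm v → v ∈ X → v ∈ Y) {N1 N2 M1 M2 : ℝ}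
    (h1 : M1 ≤ N1) (h2 : N2 ≤ M2) : ms X N1 N2 ≤ ms Y M1 M2 := by
  classical
  unfold ms
  refine Finset.sum_le_sum_of_subset_of_nonneg ?_ (fun v _ _ => by positivity)
  intro v hv
  rw [Finset.mem_filter, mem_pv] at hv ⊢
  exact ⟨⟨hv.1.1, h1.trans hv.1.2.1, hv.1.2.2.trans h2⟩, h v hv.1.1 hv.2⟩

theorem ms_union {X Y Z : Set (Fin 2 → ℤ)} (h : ∀ v, Prm v → v ∈ X → v ∈ Y ∨ v ∈ Z) (N1 N2 : ℝ) :
    ms X N1 N2 ≤ ms Y N1 N2 + ms Z N1 N2 := by
  classical
  unfold ms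
  rw [← Finset.sum_union_inter]
  refine le_trans ?_ (le_add_of_nonneg_right (Finset.sum_nonneg fun v _ => by positivity))
  refine Finset.sum_le_sum_of_subset_of_nonneg ?_ (fun v _ _ => by positivity)
  intro v hv
  rw [Finset.mem_filter] at hv
  rw [Finset.mem_union, Finset.mem_filter, Finset.mem_filter]
  rcases h v (mem_pv.1 hv.1).1 hv.2 with h' | h'
  · exact Or.inl ⟨hv.1, h'⟩
  · exact Or.inr ⟨hv.1, h'⟩

private theorem ht_vecMul (g : M2) (v : Fin 2 → ℤ) :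
    ht (v ᵥ* g) ≤ (1 + (g 0 0).natAbs + (g 0 1).natAbs + (g 1 0).natAbs + (g 1 1).natAbs) * ht v := by
  have h2 : (v 0).natAbs ≤ ht v := le_max_left _ _
  have h3 : (v 1).natAbs ≤ ht v := le_max_right _ _
  have key : ∀ j, ((v ᵥ* g) j).natAbs ≤ ((g 0 j).natAbs + (g 1 j).natAbs) * ht v := by
    intro j
    have e : (v ᵥ* g) j = v 0 * g 0 j + v 1 * g 1 j := by
      simp [Matrix.vecMul, dotProduct, Fin.sum_univ_two]
    rw [e]
    refine (Int.natAbs_add_le _ _).trans ?_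
    rw [Int.natAbs_mul, Int.natAbs_mul, add_mul, mul_comm (g 0 j).natAbs, mul_comm (g 1 j).natAbs]
    exact add_le_add (Nat.mul_le_mul_right _ h2) (Nat.mul_le_mul_right _ h3)
  have k0 := key 0
  have k1 := key 1
  have hh : ht (v ᵥ* g) = max ((v ᵥ* g) 0).natAbs ((v ᵥ* g) 1).natAbs := rfl
  rw [hh]
  refine max_le (k0.trans ?_) (k1.trans ?_)
  · exact Nat.mul_le_mul_right _ (by omega)
  · exact Nat.mul_le_mul_right _ (by omega)

private theorem ht_smul (c : ℤ) (v : Fin 2 → ℤ) : ht (c • v) = c.natAbs * ht v := by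
  unfold ht
  simp only [Pi.smul_apply, smul_eq_mul, Int.natAbs_mul]
  exact (Nat.mul_max_mul_left _ _ _)

private theorem prm_smul_inj {v v' : Fin 2 → ℤ} (hv : Prm v) (hv' : Prm v') {c c' : ℤ}
    (hc : 0 < c) (hc' : 0 < c') (h : c' • v = c • v') : v = v' := by
  have h0 : c' * v 0 = c * v' 0 := by
    have := congrFun h 0
    simpa using this
  have h1 : c' * v 1 = c * v' 1 := by
    have := congrFun h 1
    simpa using this
  have e1 : Int.gcd (c' * v 0) (c' * v 1) = c'.natAbs * Int.gcd (v 0) (v 1) := Int.gcd_mul_left _ _ _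
  have e2 : Int.gcd (c * v' 0) (c * v' 1) = c.natAbs * Int.gcd (v' 0) (v' 1) := Int.gcd_mul_left _ _ _
  rw [h0, h1, e2] at e1
  unfold Prm at hv hv'
  rw [hv, hv', mul_one, mul_one] at e1
  have e : c = c' := by omega
  subst e
  funext i
  fin_cases i
  · exact mul_left_cancel₀ hc.ne' h0
  · exact mul_left_cancel₀ hc.ne' h1

theorem trf (g : M2) (hg : g.det ≠ 0) : ∃ A : ℝ, 1 ≤ A ∧ ∀ X Y : Set (Fin 2 → ℤ),
    (∀ v w : Fin 2 → ℤ, ∀ c : ℤ, Prm v → Prm w → 0 < c → v ᵥ* g = c • w → v ∈ X → w ∈ Y) →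
    ∀ N1 N2 : ℝ, 1 ≤ N1 → N1 ≤ N2 → ms X N1 N2 ≤ A * ms Y (N1 / A) (A * N2) := by
  classical
  obtain ⟨B, hB⟩ : ∃ B : ℕ, B = 1 + (g 0 0).natAbs + (g 0 1).natAbs + (g 1 0).natAbs
    + (g 1 1).natAbs := ⟨_, rfl⟩
  have hB1 : 1 ≤ B := by omega
  have hB1' : (1 : ℝ) ≤ B := by exact_mod_cast hB1
  have hA1 : (1 : ℝ) ≤ (B : ℝ) ^ 2 := one_le_pow₀ hB1'
  have hBA : (B : ℝ) ≤ (B : ℝ) ^ 2 := by nlinarith
  -- the map
  have hex : ∀ v : Fin 2 → ℤ, ∃ w : Fin 2 → ℤ, ∃ c : ℤ, Prm v → (0 < c ∧ Prm w ∧ v ᵥ* g = c • w) := by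
    intro v
    by_cases hv : Prm v
    · obtain ⟨w, c, h1, h2, h3⟩ := exists_prm (vecMul_ne hg (prm_ne hv))
      exact ⟨w, c, fun _ => ⟨h1, h2, h3⟩⟩
    · exact ⟨0, 0, fun h => absurd h hv⟩
  choose φ γ hφ using hex
  have hle : ∀ v, Prm v → ht (φ v) ≤ B * ht v := by
    intro v hv
    obtain ⟨h1, h2, h3⟩ := hφ v hv
    have e := ht_vecMul g v
    rw [h3, ht_smul, ← hB] at e
    refine le_trans ?_ e
    exact Nat.le_mul_of_pos_left _ (by omega)
  have hge : ∀ v, Prm v → ht v ≤ B * ht (φ v) := by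
    intro v hv
    obtain ⟨h1, h2, h3⟩ := hφ v hv
    have e1 : g.det • v = γ v • (φ v ᵥ* g.adjugate) := by
      rw [← Matrix.smul_vecMul, ← h3, Matrix.vecMul_vecMul, Matrix.mul_adjugate,
        Matrix.vecMul_smul, Matrix.vecMul_one]
    have hdvd : γ v ∣ g.det := by
      have hb := Int.gcd_eq_gcd_ab (v 0) (v 1)
      have hv' : Int.gcd (v 0) (v 1) = 1 := hv
      rw [hv'] at hb
      have d0 : γ v ∣ g.det * v 0 := ⟨(φ v ᵥ* g.adjugate) 0, by
        have := congrFun e1 0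
        simpa using this⟩
      have d1 : γ v ∣ g.det * v 1 := ⟨(φ v ᵥ* g.adjugate) 1, by
        have := congrFun e1 1
        simpa using this⟩
      have : g.det = g.det * v 0 * (v 0).gcdA (v 1) + g.det * v 1 * (v 0).gcdB (v 1) := by
        push_cast at hb
        linear_combination g.det * hb
      rw [this]
      exact dvd_add (d0.mul_right _) (d1.mul_right _)
    have hle' : (γ v).natAbs ≤ g.det.natAbs := Nat.le_of_dvd (by omega) (Int.natAbs_dvd_natAbs.2 hdvd)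
    have e2 := congrArg ht e1
    rw [ht_smul, ht_smul] at e2
    have e3 := ht_vecMul g.adjugate (φ v)
    have e4 : 1 + (g.adjugate 0 0).natAbs + (g.adjugate 0 1).natAbs + (g.adjugate 1 0).natAbs
        + (g.adjugate 1 1).natAbs = B := by
      rw [Matrix.adjugate_fin_two, hB]
      simp
      omega
    rw [e4] at e3
    have hd : 0 < g.det.natAbs := by omega
    refine Nat.le_of_mul_le_mul_left ?_ hd
    calc g.det.natAbs * ht v = (γ v).natAbs * ht (φ v ᵥ* g.adjugate) := e2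
      _ ≤ g.det.natAbs * (B * ht (φ v)) := Nat.mul_le_mul hle' e3
  have hinj : ∀ v, Prm v → ∀ v', Prm v' → φ v = φ v' → v = v' := by
    intro v hv v' hv' e
    obtain ⟨h1, h2, h3⟩ := hφ v hv
    obtain ⟨h1', h2', h3'⟩ := hφ v' hv'
    refine prm_smul_inj hv hv' h1 h1' ?_
    by_contra hne
    have hz : (γ v' • v - γ v • v') ≠ 0 := sub_ne_zero.2 hne
    apply vecMul_ne hg hz
    rw [Matrix.sub_vecMul, Matrix.smul_vecMul, Matrix.smul_vecMul, h3, h3', e, smul_smul, smul_smul,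
      mul_comm, sub_self]
  have hpos : ∀ v, Prm v → 0 < ht v := by
    intro v hv
    by_contra h
    have h0 : ht v = 0 := by omega
    have h2 : (v 0).natAbs ≤ ht v := le_max_left _ _
    have h3 : (v 1).natAbs ≤ ht v := le_max_right _ _
    apply prm_ne hv
    funext i
    fin_cases i
    · simp only [Fin.zero_eta, Fin.isValue, Pi.zero_apply]
      omega
    · simp only [Fin.mk_one, Fin.isValue, Pi.zero_apply]
      omega
  refine ⟨(B : ℝ) ^ 2, hA1, ?_⟩
  intro X Y hXY N1 N2 hN1 hN12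
  have hsub : ((pv N1 N2).filter (fun v => v ∈ X)).image φ ⊆
      (pv (N1 / (B : ℝ) ^ 2) ((B : ℝ) ^ 2 * N2)).filter (fun v => v ∈ Y) := by
    intro w hw
    rw [Finset.mem_image] at hw
    obtain ⟨v, hv, rfl⟩ := hw
    rw [Finset.mem_filter, mem_pv] at hv
    obtain ⟨⟨hp, ha, hb⟩, hx⟩ := hv
    obtain ⟨h1, h2, h3⟩ := hφ v hp
    rw [Finset.mem_filter, mem_pv]
    have q1 : (ht (φ v) : ℝ) ≤ B * ht v := by exact_mod_cast hle v hp
    have q2 : (ht v : ℝ) ≤ B * ht (φ v) := by exact_mod_cast hge v hp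
    have q3 : (0 : ℝ) ≤ ht (φ v) := by positivity
    have q4 : (0 : ℝ) ≤ ht v := by positivity
    refine ⟨⟨h2, ?_, ?_⟩, hXY v _ _ hp h2 h1 h3 hx⟩
    · rw [div_le_iff₀ (by positivity)]
      nlinarith [mul_le_mul_of_nonneg_right hBA q3]
    · nlinarith [mul_le_mul_of_nonneg_right hBA q4]
  calc ms X N1 N2 = ∑ v ∈ (pv N1 N2).filter (fun v => v ∈ X), 1 / (ht v : ℝ) ^ 2 := by
        unfold ms; rfl
    _ ≤ ∑ v ∈ (pv N1 N2).filter (fun v => v ∈ X), (B : ℝ) ^ 2 * (1 / (ht (φ v) : ℝ) ^ 2) := by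
        refine Finset.sum_le_sum ?_
        intro v hv
        rw [Finset.mem_filter, mem_pv] at hv
        obtain ⟨⟨hp, ha, hb⟩, hx⟩ := hv
        obtain ⟨h1, h2, h3⟩ := hφ v hp
        have q1 : (ht (φ v) : ℝ) ≤ B * ht v := by exact_mod_cast hle v hp
        have p1 : (0 : ℝ) < ht v := by exact_mod_cast hpos v hp
        have p2 : (0 : ℝ) < ht (φ v) := by exact_mod_cast hpos _ h2
        rw [mul_one_div, div_le_div_iff₀ (by positivity) (by positivity), one_mul, ← mul_pow]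
        exact pow_le_pow_left₀ p2.le q1 2
    _ = (B : ℝ) ^ 2 * ∑ w ∈ ((pv N1 N2).filter (fun v => v ∈ X)).image φ, 1 / (ht w : ℝ) ^ 2 := by
        rw [← Finset.mul_sum, Finset.sum_image]
        intro v hv v' hv' e
        rw [Finset.mem_coe, Finset.mem_filter, mem_pv] at hv hv'
        exact hinj v hv.1.1 v' hv'.1.1 e
    _ ≤ (B : ℝ) ^ 2 * ms Y (N1 / (B : ℝ) ^ 2) ((B : ℝ) ^ 2 * N2) := by
        refine mul_le_mul_of_nonneg_left ?_ (by positivity)
        unfold ms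
        exact Finset.sum_le_sum_of_subset_of_nonneg hsub (fun v _ _ => by positivity)

end Pool.Agent.CQF
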