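import Pool.Agent.CQF.Dat
import Pool.Agent.CQF.Bka
import Pool.Agent.CQF.Bkb

set_option autoImplicit false

/-!
# Module Loca (size 4): only the statements about `hh`: the nodes `hh` and `vv`

Write `w = (a b; c d)`, `q = r m1 m2` (nonnegative, rows `(α, β)`, `(γ, δ)` in the cone by `cone_mul`),
`hh = w q = (a'' b''; c'' d'')`, so `c'' = c α + d γ`, `d'' = c β + d δ` and `(2 - ζ) d'' ≤ c'' ≤ 2 d''`.
* `hh` is a node, `J hh ⊆ J w` (`nd_mul, J_mul, nd_mul_lt`).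
* sizes: `c, d ≤ np`, `c + d > np`.  `(c1, d1) = (c, d) r`: `min (c, d) ≤ c1, d1 ≤ 2 R max (c, d)` (each column of `r` is
  nonzero and nonnegative).  Column sums of `m1 m2`: `(x1, y1) m2`, between `y1 y2 > n²/4` and `x1 x2 ≤ n²`
  (`x1 ≥ y1` for a block: `x1 > (1 - ζ/8) n ≥ (7/8) n`, `y1 ≤ (9/16) n`).
  So `c'', d'' ≤ 2 R np n²`, and if `w` is `A`-balanced (`min (c,d) ≥ max/A > np/(2A)`) then `d'' ≥ np n²/(8A)`
  and `c'' d'' ≤ (2 R max(c,d) n²)² ≤ 4 R² A c d n⁴`.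
* `vv`: `tt = diag(pm, 1) vv` by divisibility; `det tt = p m`, so `det vv = 1`. Second row of `tt` is
  `(c, d) q M = (c'', d'') M`, and by `cone` (`α = c''`, `β = d''`) both coordinates are in
  `[c1 √p d'', c2 √p d'']`, so positive. All entries of `q M` are positive by `cone` applied to the rows of `q`;
  the first row of `tt` is `(a + K j c, b + K j d) (q M)`, which is `≥ 0`, so `vv 0 1 ≥ 0`.
  `vv 0 0 ≤ K vv 1 0`: `(a + K j c, b + K j d) ≤ K (j + 1) (c, d)` entrywise (`a ≤ K c`, and `b ≤ K d` since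
  `b c < a d ≤ K c d`), and `j + 1 ≤ p m`.
* if `s ∈ J vv` then `p m s - K j ∈ J w`: `vv01/vv11 < s` gives
  `p m s > tt01/tt11 = K j + (a x + b y)/(c x + d y)` with `(x, y)` the second column of `q M` (nonnegative, not
  both zero), which is `≥ K j + b/d`; similarly `p m s < tt00/tt10 ≤ K j + a/c`.
* `vv10 M01 - vv11 M00 = - d'' det M` is divisible by `p`.
* `len hh = 1/(c'' d'') ≤ 1/d''²` and `len vv = 1/(vv10 vv11) ≥ 1/(c2² p d''²)`.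
* windows: `np ≤` ... `hh` and `vv` have entries `≤ N2` (`hN2`) and `c'' + d'' ≥ c + d > np ≥ N`;
  for `vv`: its interval is contained in an interval of length `len w / (p m)`... simply: we only claim the window
  of `vv` under the assumption `N < vv10 + vv11` (hypothesis `hlow` of `vv_win`).
-/


namespace Pool.Agent.CQF

variable {D : Dat}

private theorem Loca_row (g h : M2) (i j : Fin 2) :
    (g * h) i j = g i 0 * h 0 j + g i 1 * h 1 j := by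
  simp [Matrix.mul_apply, Fin.sum_univ_two]

private theorem Loca_nn {w : M2} (hw : IsNd w) : IsNN w := by
  have ha := a_pos hw
  refine ⟨fun i j => ?_, hw.det⟩
  fin_cases i <;> fin_cases j
  · exact ha.le
  · exact hw.b0
  · exact hw.c0.le
  · exact hw.d0.le

private theorem Loca_blk {ζ : ℝ} (h0 : 0 < ζ) (h1 : ζ ≤ 1) {n : ℕ} {m : M2} (hm : m ∈ Bk ζ n)
    (j : Fin 2) : (n : ℝ) / 2 ≤ (m 0 j : ℝ) + m 1 j ∧ (m 0 j : ℝ) + m 1 j ≤ n ∧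
      0 ≤ (m 0 j : ℝ) ∧ 0 ≤ (m 1 j : ℝ) := by
  classical
  have hnn := bk_nn hm
  rw [Bk, Finset.mem_filter] at hm
  obtain ⟨_, _, g1, g2, g3, g4⟩ := hm
  have n0 : (0 : ℝ) ≤ n := Nat.cast_nonneg n
  have e2 : ((m 0 0 : ℝ) + m 1 0) ≤ n := by exact_mod_cast g2
  have e3 : (n : ℝ) < 2 * ((m 0 1 : ℝ) + m 1 1) := by exact_mod_cast g3
  push_cast at g1 g4
  have k1 : ζ / 8 * (n : ℝ) ≤ n / 8 := by nlinarith
  have p0 : ∀ i k, (0 : ℝ) ≤ m i k := fun i k => by exact_mod_cast hnn.1 i k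
  fin_cases j
  · refine ⟨?_, e2, p0 _ _, p0 _ _⟩
    show (n : ℝ) / 2 ≤ (m 0 0 : ℝ) + m 1 0
    nlinarith
  · refine ⟨?_, ?_, p0 _ _, p0 _ _⟩
    · show (n : ℝ) / 2 ≤ (m 0 1 : ℝ) + m 1 1
      linarith
    · show (m 0 1 : ℝ) + m 1 1 ≤ n
      nlinarith

private theorem Loca_up {ζ : ℝ} (h0 : 0 < ζ) (h1 : ζ ≤ 1) {n : ℕ} {m : M2} (hm : m ∈ Bk ζ n)
    {h : M2} {X : ℝ} (hX : ∀ j, 0 ≤ (h 1 j : ℝ) ∧ (h 1 j : ℝ) ≤ X) (j : Fin 2) :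
    0 ≤ ((h * m) 1 j : ℝ) ∧ ((h * m) 1 j : ℝ) ≤ X * n := by
  obtain ⟨_, b2, b3, b4⟩ := Loca_blk h0 h1 hm j
  have x0 : 0 ≤ X := (hX 0).1.trans (hX 0).2
  rw [Loca_row]
  push_cast
  refine ⟨add_nonneg (mul_nonneg (hX 0).1 b3) (mul_nonneg (hX 1).1 b4), ?_⟩
  calc (h 1 0 : ℝ) * m 0 j + h 1 1 * m 1 j ≤ X * m 0 j + X * m 1 j :=
        add_le_add (mul_le_mul_of_nonneg_right (hX 0).2 b3)
          (mul_le_mul_of_nonneg_right (hX 1).2 b4)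
    _ = X * (m 0 j + m 1 j) := by ring
    _ ≤ X * n := mul_le_mul_of_nonneg_left b2 x0

private theorem Loca_lo {ζ : ℝ} (h0 : 0 < ζ) (h1 : ζ ≤ 1) {n : ℕ} {m : M2} (hm : m ∈ Bk ζ n)
    {h : M2} {Y : ℝ} (hY0 : 0 ≤ Y) (hY : ∀ j, Y ≤ (h 1 j : ℝ)) (j : Fin 2) :
    Y * (n / 2) ≤ ((h * m) 1 j : ℝ) := by
  obtain ⟨b1, _, b3, b4⟩ := Loca_blk h0 h1 hm j
  rw [Loca_row]
  push_cast
  calc Y * ((n : ℝ) / 2) ≤ Y * (m 0 j + m 1 j) := mul_le_mul_of_nonneg_left b1 hY0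
    _ = Y * m 0 j + Y * m 1 j := by ring
    _ ≤ (h 1 0 : ℝ) * m 0 j + h 1 1 * m 1 j :=
        add_le_add (mul_le_mul_of_nonneg_right (hY 0) b3) (mul_le_mul_of_nonneg_right (hY 1) b4)

private theorem Loca_w (hD : D.Ok) {w : M2} (hw : w ∈ nds D.K D.np) :
    IsNd w ∧ Win D.np D.np w ∧ w 0 0 ≤ D.K * w 1 0 := (mem_ndw hD.hK).1 hw

/-- the second row of `w r` -/
private theorem Loca_r (hD : D.Ok) {w : M2} (hw : w ∈ nds D.K D.np) (X : ℝ)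
    (hX : ∀ j, (w 1 j : ℝ) ≤ X) (j : Fin 2) :
    0 ≤ ((w * D.r w) 1 j : ℝ) ∧ ((w * D.r w) 1 j : ℝ) ≤ 2 * D.R * X := by
  obtain ⟨hn, _, _⟩ := Loca_w hD hw
  obtain ⟨hr, hR, _⟩ := hD.hr w hw
  have p0 : ∀ i k, (0 : ℝ) ≤ D.r w i k := fun i k => by exact_mod_cast hr.1 i k
  have pR : ∀ i k, (D.r w i k : ℝ) ≤ D.R := fun i k => by exact_mod_cast hR i k
  have c0 : (0 : ℝ) ≤ w 1 0 := by exact_mod_cast hn.c0.le
  have d0 : (0 : ℝ) ≤ w 1 1 := by exact_mod_cast hn.d0.le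
  have x0 : 0 ≤ X := c0.trans (hX 0)
  rw [Loca_row]
  push_cast
  refine ⟨add_nonneg (mul_nonneg c0 (p0 _ _)) (mul_nonneg d0 (p0 _ _)), ?_⟩
  have e1 : (w 1 0 : ℝ) * D.r w 0 j ≤ X * D.R := mul_le_mul (hX 0) (pR _ _) (p0 _ _) x0
  have e2 : (w 1 1 : ℝ) * D.r w 1 j ≤ X * D.R := mul_le_mul (hX 1) (pR _ _) (p0 _ _) x0
  linarith

private theorem Loca_rlo (hD : D.Ok) {w : M2} (hw : w ∈ nds D.K D.np) (Y : ℝ) (hY0 : 0 ≤ Y)
    (hY : ∀ j, Y ≤ (w 1 j : ℝ)) (j : Fin 2) : Y ≤ ((w * D.r w) 1 j : ℝ) := by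
  obtain ⟨hr, _, _⟩ := hD.hr w hw
  have p0 : ∀ i k, (0 : ℝ) ≤ D.r w i k := fun i k => by exact_mod_cast hr.1 i k
  have hcol : (1 : ℝ) ≤ (D.r w 0 j : ℝ) + D.r w 1 j := by
    have : (1 : ℤ) ≤ D.r w 0 j + D.r w 1 j := by
      by_contra hc
      have g0 := hr.1 0 j
      have g1 := hr.1 1 j
      have z0 : D.r w 0 j = 0 := by omega
      have z1 : D.r w 1 j = 0 := by omega
      have hdet := hr.2
      fin_cases j
      · simp only [Fin.zero_eta] at z0 z1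
        rw [z0, z1] at hdet
        simp at hdet
      · simp only [Fin.mk_one] at z0 z1
        rw [z0, z1] at hdet
        simp at hdet
    exact_mod_cast this
  rw [Loca_row]
  push_cast
  calc Y = Y * 1 := (mul_one Y).symm
    _ ≤ Y * (D.r w 0 j + D.r w 1 j) := mul_le_mul_of_nonneg_left hcol hY0
    _ = Y * D.r w 0 j + Y * D.r w 1 j := by ring
    _ ≤ _ := add_le_add (mul_le_mul_of_nonneg_right (hY 0) (p0 _ _))
        (mul_le_mul_of_nonneg_right (hY 1) (p0 _ _))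

private theorem Loca_hup (hD : D.Ok) {w m1 m2 : M2} (hw : w ∈ nds D.K D.np) (h1 : m1 ∈ D.B)
    (h2 : m2 ∈ D.B) (X : ℝ) (hX : ∀ j, (w 1 j : ℝ) ≤ X) (j : Fin 2) :
    0 ≤ (D.hh w m1 m2 1 j : ℝ) ∧ (D.hh w m1 m2 1 j : ℝ) ≤ 2 * D.R * X * (D.n : ℝ) ^ 2 := by
  have a1 := Loca_r hD hw X hX
  have a2 := Loca_up hD.hζ0 hD.hζ1 (hD.hB m1 h1).1 a1
  have a3 := Loca_up hD.hζ0 hD.hζ1 (hD.hB m2 h2).1 a2 j
  refine ⟨a3.1, a3.2.trans (le_of_eq ?_)⟩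
  ring

private theorem Loca_np (hD : D.Ok) {w : M2} (hw : w ∈ nds D.K D.np) (j : Fin 2) :
    (w 1 j : ℝ) ≤ D.np := by
  obtain ⟨_, hwin, _⟩ := Loca_w hD hw
  fin_cases j
  · exact_mod_cast hwin.1
  · exact_mod_cast hwin.2.1

private theorem Loca_hh (w m1 m2 : M2) : D.hh w m1 m2 = w * (D.r w * m1 * m2) := by
  unfold Dat.hh
  simp only [Matrix.mul_assoc]

private theorem Loca_q (hD : D.Ok) {w m1 m2 : M2} (hw : w ∈ nds D.K D.np) (h1 : m1 ∈ D.B)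
    (h2 : m2 ∈ D.B) : IsNN (D.r w * m1 * m2) ∧ InCone D.ζ (D.r w * m1 * m2) := by
  have hr := (hD.hr w hw).1
  have n1 := nn_mul hr (bk_nn (hD.hB m1 h1).1)
  exact ⟨nn_mul n1 (bk_nn (hD.hB m2 h2).1), cone_mul n1 (hD.hB m2 h2).2⟩

theorem hh_nd (hD : D.Ok) {w m1 m2 : M2} (hw : w ∈ nds D.K D.np) (h1 : m1 ∈ D.B) (h2 : m2 ∈ D.B) :
    IsNd (D.hh w m1 m2) ∧ D.hh w m1 m2 0 0 ≤ D.K * D.hh w m1 m2 1 0 ∧ J (D.hh w m1 m2) ⊆ J w ∧
    D.hh w m1 m2 ∈ ndw D.K D.N D.N2 ∧ Cg D.K (D.hh w m1 m2) D.H0 := by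
  obtain ⟨hn, hwin, hK⟩ := Loca_w hD hw
  obtain ⟨q1, q2⟩ := Loca_q hD hw h1 h2
  have g1 : IsNd (D.hh w m1 m2) := by
    rw [Loca_hh]
    exact nd_mul hn q1
  have g2 : D.hh w m1 m2 0 0 ≤ D.K * D.hh w m1 m2 1 0 := by
    rw [Loca_hh]
    exact nd_mul_lt hn q1 hK
  have g3 : J (D.hh w m1 m2) ⊆ J w := by
    rw [Loca_hh]
    exact J_mul hn q1
  refine ⟨g1, g2, g3, ?_, (hD.hr w hw).2.2 m1 h1 m2 h2⟩
  rw [mem_ndw hD.hK]
  refine ⟨g1, ⟨?_, ?_, ?_⟩, g2⟩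
  all_goals try
    have hup := Loca_hup hD hw h1 h2 D.np (Loca_np hD hw)
    have hN2 : 2 * (D.R : ℝ) * D.np * (D.n : ℝ) ^ 2 ≤ D.N2 := by
      refine le_trans ?_ hD.hN2
      have : 0 ≤ D.c2 * √D.p := mul_nonneg (hD.hc1.le.trans hD.hc12) (Real.sqrt_nonneg _)
      have h3 : 0 ≤ 2 * (D.R : ℝ) * D.np * (D.n : ℝ) ^ 2 := by positivity
      nlinarith
  · exact_mod_cast (hup 0).2.trans hN2
  · exact_mod_cast (hup 1).2.trans hN2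
  · have hc := hwin.2.2
    have hNnp : (D.N : ℤ) ≤ D.np := by exact_mod_cast hD.hNnp
    have e0 := Loca_row w (D.r w * m1 * m2) 1 0
    have e1 := Loca_row w (D.r w * m1 * m2) 1 1
    rw [← Loca_hh] at e0 e1
    rw [e0, e1]
    have k0 := q2 0
    have k1 := q2 1
    have z0 := hD.hζ1
    have t0 : (1 : ℤ) ≤ (D.r w * m1 * m2) 0 1 := k0.1
    have t1 : (1 : ℤ) ≤ (D.r w * m1 * m2) 1 1 := k1.1
    have n00 := q1.1 0 0
    have n10 := q1.1 1 0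
    have c0 := hn.c0
    have d0 := hn.d0
    nlinarith [mul_nonneg c0.le n00, mul_nonneg d0.le n10, mul_le_mul_of_nonneg_left t0 c0.le,
      mul_le_mul_of_nonneg_left t1 d0.le]

/-- the second row of `hh` is in the cone -/
theorem hh_cone (hD : D.Ok) {w m1 m2 : M2} (hw : w ∈ nds D.K D.np) (h1 : m1 ∈ D.B) (h2 : m2 ∈ D.B) :
    0 < D.hh w m1 m2 1 1 ∧ (2 - D.ζ) * (D.hh w m1 m2 1 1 : ℝ) ≤ D.hh w m1 m2 1 0 ∧
    D.hh w m1 m2 1 0 ≤ 2 * D.hh w m1 m2 1 1 ∧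
    ((D.hh w m1 m2 1 1 : ℤ) : ℝ) ≤ 2 * D.R * D.np * (D.n : ℝ) ^ 2 := by
  obtain ⟨hn, _, _⟩ := Loca_w hD hw
  obtain ⟨_, q2⟩ := Loca_q hD hw h1 h2
  have g := cone_mul (Loca_nn hn) q2
  rw [← Loca_hh] at g
  exact ⟨(g 1).1, (g 1).2.1, (g 1).2.2, (Loca_hup hD hw h1 h2 D.np (Loca_np hD hw) 1).2⟩

theorem hh_size (hD : D.Ok) {w m1 m2 : M2} (hw : w ∈ nds D.K D.np) (hb : Bal D.A w)
    (h1 : m1 ∈ D.B) (h2 : m2 ∈ D.B) :
    (D.np : ℝ) * (D.n : ℝ) ^ 2 / (8 * D.A) ≤ D.hh w m1 m2 1 1 ∧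
    len w / (4 * (D.R : ℝ) ^ 2 * D.A * (D.n : ℝ) ^ 4) ≤ len (D.hh w m1 m2) := by
  obtain ⟨hn, hwin, _⟩ := Loca_w hD hw
  have hA := hD.hA
  have hA0 : 0 < D.A := by linarith
  have c0 : (0 : ℝ) < w 1 0 := by exact_mod_cast hn.c0
  have d0 : (0 : ℝ) < w 1 1 := by exact_mod_cast hn.d0
  have hsum : (D.np : ℝ) < (w 1 0 : ℝ) + w 1 1 := by exact_mod_cast hwin.2.2
  have np0 : (0 : ℝ) ≤ D.np := Nat.cast_nonneg _
  obtain ⟨b1, b2⟩ := hb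
  constructor
  · set Y : ℝ := (D.np : ℝ) / (2 * D.A) with hY
    have hY0 : 0 ≤ Y := by positivity
    have hYj : ∀ j, Y ≤ (w 1 j : ℝ) := by
      intro j
      rw [hY, div_le_iff₀ (by positivity)]
      fin_cases j
      · show (D.np : ℝ) ≤ (w 1 0 : ℝ) * (2 * D.A)
        nlinarith
      · show (D.np : ℝ) ≤ (w 1 1 : ℝ) * (2 * D.A)
        nlinarith
    have a1 := Loca_rlo hD hw Y hY0 hYj
    have a2 := Loca_lo hD.hζ0 hD.hζ1 (hD.hB m1 h1).1 hY0 a1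
    have a3 := Loca_lo hD.hζ0 hD.hζ1 (hD.hB m2 h2).1
      (mul_nonneg hY0 (by positivity)) a2 1
    refine le_trans (le_of_eq ?_) a3
    rw [hY]
    field_simp
    ring
  · set X : ℝ := max (w 1 0 : ℝ) (w 1 1) with hX
    have hXj : ∀ j, (w 1 j : ℝ) ≤ X := by
      intro j
      fin_cases j
      · exact le_max_left _ _
      · exact le_max_right _ _
    have u0 := Loca_hup hD hw h1 h2 X hXj 0
    have u1 := Loca_hup hD hw h1 h2 X hXj 1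
    have hXX : X * X ≤ D.A * (w 1 0 * w 1 1) := by
      rcases max_cases (w 1 0 : ℝ) (w 1 1) with ⟨h, _⟩ | ⟨h, _⟩
      · rw [hX, h]
        nlinarith
      · rw [hX, h]
        nlinarith
    have hnd := (hh_nd hD hw h1 h2).1
    have C0 : (0 : ℝ) < D.hh w m1 m2 1 0 := by exact_mod_cast hnd.c0
    have D0 : (0 : ℝ) < D.hh w m1 m2 1 1 := by exact_mod_cast hnd.d0
    have hR0 : (0 : ℝ) < D.R := by exact_mod_cast hD.hR
    have hn0 : (0 : ℝ) < D.n := by exact_mod_cast hD.hn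
    have X0 : 0 ≤ X := c0.le.trans (hXj 0)
    have hprod : (D.hh w m1 m2 1 0 : ℝ) * D.hh w m1 m2 1 1 ≤
        w 1 0 * w 1 1 * (4 * (D.R : ℝ) ^ 2 * D.A * (D.n : ℝ) ^ 4) := by
      calc (D.hh w m1 m2 1 0 : ℝ) * D.hh w m1 m2 1 1
          ≤ (2 * D.R * X * (D.n : ℝ) ^ 2) * (2 * D.R * X * (D.n : ℝ) ^ 2) :=
            mul_le_mul u0.2 u1.2 D0.le (by positivity)
        _ = (4 * (D.R : ℝ) ^ 2 * (D.n : ℝ) ^ 4) * (X * X) := by ring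
        _ ≤ (4 * (D.R : ℝ) ^ 2 * (D.n : ℝ) ^ 4) * (D.A * (w 1 0 * w 1 1)) :=
            mul_le_mul_of_nonneg_left hXX (by positivity)
        _ = _ := by ring
    unfold len
    rw [div_div]
    exact one_div_le_one_div_of_le (mul_pos C0 D0) hprod

/-- disjointness of the intervals of the nodes `hh` -/
theorem hh_disj (hD : D.Ok) {w w' m1 m1' m2 m2' : M2} (hw : w ∈ nds D.K D.np)
    (hw' : w' ∈ nds D.K D.np) (h1 : m1 ∈ D.B) (h1' : m1' ∈ D.B) (h2 : m2 ∈ D.B) (h2' : m2' ∈ D.B)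
    (hne : (w, m1, m2) ≠ (w', m1', m2')) :
    Disjoint (J (D.hh w m1 m2)) (J (D.hh w' m1' m2')) := by
  rw [Set.disjoint_left]
  intro s hs hs'
  apply hne
  obtain ⟨hn, hwin, _⟩ := Loca_w hD hw
  obtain ⟨hn', hwin', _⟩ := Loca_w hD hw'
  have e1 : w = w' := fa_unique hn hn' hwin hwin' ((hh_nd hD hw h1 h2).2.2.1 hs)
    ((hh_nd hD hw' h1' h2').2.2.1 hs')
  subst e1
  have hr := (hD.hr w hw).1
  have hnr : IsNd (w * D.r w) := nd_mul hn hr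
  have hB1 := (hD.hB m1 h1).1
  have hB1' := (hD.hB m1' h1').1
  have hB2 := (hD.hB m2 h2).1
  have hB2' := (hD.hB m2' h2').1
  have s1 : s ∈ J (w * D.r w * m1) := J_mul (nd_mul hnr (bk_nn hB1)) (bk_nn hB2) hs
  have s1' : s ∈ J (w * D.r w * m1') := J_mul (nd_mul hnr (bk_nn hB1')) (bk_nn hB2') hs'
  have e2 : m1 = m1' := bk_disj hD.hζ0 hD.hζ1 hnr hB1 hB1' s1 s1'
  subst e2
  have e3 : m2 = m2' := bk_disj hD.hζ0 hD.hζ1 (nd_mul hnr (bk_nn hB1)) hB2 hB2' hs hs'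
  rw [e3]

end Pool.Agent.CQF
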