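import Pool.Agent.CQF.Loca

set_option autoImplicit false

/-!
# Module Locb (size 4): only the statements about `vv`: the nodes `hh` and `vv`

Write `w = (a b; c d)`, `q = r m1 m2` (nonnegative, rows `(α, β)`, `(γ, δ)` in the cone by `cone_mul`),
`hh = w q = (a'' b''; c'' d'')`, so `c'' = c α + d γ`, `d'' = c β + d δ` and `(2 - ζ) d'' ≤ c'' ≤ 2 d''`.
* `hh` is a node, `J hh ⊆ J w` (`nd_mul, J_mul, nd_mul_lt`).
* sizes: `c, d ≤ np`, `c + d > np`.  `(c1, d1) = (c, d) r`: `min (c, d) ≤ c1, d1 ≤ 2 R max (c, d)` (each column of `r` is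
  nonzero and nonnegative).  Column sums of `m1 m2`: `(x1, y1) m2`, between `y1 y2 > n²/4` and `x1 x2 ≤ n²`
  (`x1 ≥ y1` for a block: `x1 > (1 - ζ/8) n ≥ (7/8) n`, `y1 ≤ (9/16) n`).
  So `c'', d'' ≤ 2 R np n²`, and if `w` is `A`-balanced (`min (c,d) ≥ max/A > np/(2A)`) then `d'' ≥ np n²/(8A)`
  and `c'' d'' ≤ (2 R max(c,d) n²)² ≤ 4 R² A c d n⁴`.
* `vv`: `tt = diag(pm, 1) vv` by divisibility; `det tt = p m`, so `det vv = 1`. Second row of `tt` is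
  `(c, d) q M = (c'', d'') M`, and by `cone` (`α = c''`, `β = d''`) both coordinates are in
  `[c1 √p d'', c2 √p d'']`, so positive. All entries of `q M` are positive by `cone` applied to the rows of `q`;
  the first row of `tt` is `(a + K j c, b + K j d) (q M)`, which is `≥ 0`, so `vv 0 1 ≥ 0`.
  `vv 0 0 ≤ K vv 1 0`: `(a + K j c, b + K j d) ≤ K (j + 1) (c, d)` entrywise (`a ≤ K c`, and `b ≤ K d` since
  `b c < a d ≤ K c d`), and `j + 1 ≤ p m`.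
* if `s ∈ J vv` then `p m s - K j ∈ J w`: `vv01/vv11 < s` gives
  `p m s > tt01/tt11 = K j + (a x + b y)/(c x + d y)` with `(x, y)` the second column of `q M` (nonnegative, not
  both zero), which is `≥ K j + b/d`; similarly `p m s < tt00/tt10 ≤ K j + a/c`.
* `vv10 M01 - vv11 M00 = - d'' det M` is divisible by `p`.
* `len hh = 1/(c'' d'') ≤ 1/d''²` and `len vv = 1/(vv10 vv11) ≥ 1/(c2² p d''²)`.
* windows: `np ≤` ... `hh` and `vv` have entries `≤ N2` (`hN2`) and `c'' + d'' ≥ c + d > np ≥ N`;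
  for `vv`: its interval is contained in an interval of length `len w / (p m)`... simply: we only claim the window
  of `vv` under the assumption `N < vv10 + vv11` (hypothesis `hlow` of `vv_win`).
-/


namespace Pool.Agent.CQF

variable {D : Dat}

private theorem Locb_row (g h : M2) (i j : Fin 2) :
    (g * h) i j = g i 0 * h 0 j + g i 1 * h 1 j := by
  simp [Matrix.mul_apply, Fin.sum_univ_two]

private theorem Locb_w (hD : D.Ok) {w : M2} (hw : w ∈ nds D.K D.np) :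
    IsNd w ∧ Win D.np D.np w ∧ w 0 0 ≤ D.K * w 1 0 := (mem_ndw hD.hK).1 hw

/-- first row of `tt` in terms of `hh` -/
private theorem Locb_t0 (w m1 m2 : M2) (j : ℕ) (i : Fin 2) :
    D.tt w j m1 m2 0 i = (D.hh w m1 m2 0 0 + D.K * j * D.hh w m1 m2 1 0) * D.M 0 i +
      (D.hh w m1 m2 0 1 + D.K * j * D.hh w m1 m2 1 1) * D.M 1 i := by
  unfold Dat.tt
  rw [Locb_row, Locb_row, Locb_row]
  simp [tr]

private theorem Locb_t1 (w m1 m2 : M2) (j : ℕ) (i : Fin 2) :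
    D.tt w j m1 m2 1 i = D.hh w m1 m2 1 0 * D.M 0 i + D.hh w m1 m2 1 1 * D.M 1 i := by
  unfold Dat.tt
  rw [Locb_row, Locb_row, Locb_row]
  simp [tr]

private theorem Locb_v1 (w m1 m2 : M2) (j : ℕ) (i : Fin 2) :
    D.vv w j m1 m2 1 i = D.tt w j m1 m2 1 i := by
  unfold Dat.vv
  fin_cases i <;> simp

private theorem Locb_v0 {w m1 m2 : M2} {j : ℕ} (hc : D.Cl w j m1 m2) (i : Fin 2) :
    ((D.p : ℤ) * D.m) * D.vv w j m1 m2 0 i = D.tt w j m1 m2 0 i := by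
  have h := Int.mul_ediv_cancel' (hc i)
  unfold Dat.vv
  fin_cases i
  · simpa using h
  · simpa using h

theorem vv_eq {w m1 m2 : M2} {j : ℕ} (hp : 1 ≤ D.p) (hm : 1 ≤ D.m) (hc : D.Cl w j m1 m2) :
    tr D.K j * D.hh w m1 m2 * D.M = dg ((D.p : ℤ) * D.m) * D.vv w j m1 m2 := by
  show D.tt w j m1 m2 = _
  ext i k
  rw [Locb_row]
  fin_cases i
  · simp only [Fin.zero_eta, dg, Matrix.of_apply, Matrix.cons_val', Matrix.cons_val_zero,
      Matrix.cons_val_one, Matrix.cons_val_fin_one, zero_mul, add_zero]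
    rw [Locb_v0 hc]
  · simp only [Fin.mk_one, dg, Matrix.of_apply, Matrix.cons_val', Matrix.cons_val_zero,
      Matrix.cons_val_one, Matrix.cons_val_fin_one, zero_mul, zero_add, one_mul]
    rw [Locb_v1]

theorem vv_size (hD : D.Ok) {w m1 m2 : M2} {j : ℕ} (hw : w ∈ nds D.K D.np)
    (h1 : m1 ∈ D.B) (h2 : m2 ∈ D.B) (i : Fin 2) :
    D.c1 * √D.p * D.hh w m1 m2 1 1 ≤ D.vv w j m1 m2 1 i ∧
    (D.vv w j m1 m2 1 i : ℝ) ≤ D.c2 * √D.p * D.hh w m1 m2 1 1 := by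
  obtain ⟨g1, g2, g3, _⟩ := hh_cone hD hw h1 h2
  have h := hD.fam.cone (D.hh w m1 m2 1 0) (D.hh w m1 m2 1 1) (by exact_mod_cast g1) g2
    (by exact_mod_cast g3) i
  rw [Locb_v1, Locb_t1]
  push_cast
  exact h

private theorem Locb_sp (hD : D.Ok) : 0 < √(D.p : ℝ) :=
  Real.sqrt_pos.2 (by exact_mod_cast hD.hp.pos)

private theorem Locb_pos (hD : D.Ok) {w m1 m2 : M2} {j : ℕ} (hw : w ∈ nds D.K D.np)
    (h1 : m1 ∈ D.B) (h2 : m2 ∈ D.B) (i : Fin 2) : 0 < D.vv w j m1 m2 1 i := by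
  have h := (vv_size (j := j) hD hw h1 h2 i).1
  have g1 : (0 : ℝ) < D.hh w m1 m2 1 1 := by exact_mod_cast (hh_cone hD hw h1 h2).1
  have : (0 : ℝ) < D.vv w j m1 m2 1 i :=
    (mul_pos (mul_pos hD.hc1 (Locb_sp hD)) g1).trans_le h
  exact_mod_cast this

private theorem Locb_hh (w m1 m2 : M2) : D.hh w m1 m2 = w * (D.r w * m1 * m2) := by
  unfold Dat.hh
  simp only [Matrix.mul_assoc]

/-- the matrix `r m1 m2 M` has positive entries -/
private theorem Locb_W (hD : D.Ok) {w m1 m2 : M2} (hw : w ∈ nds D.K D.np) (h1 : m1 ∈ D.B)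
    (h2 : m2 ∈ D.B) (i k : Fin 2) : 0 < (D.r w * m1 * m2 * D.M) i k := by
  have hr := (hD.hr w hw).1
  have n1 := nn_mul hr (bk_nn (hD.hB m1 h1).1)
  have hc := cone_mul n1 (hD.hB m2 h2).2 i
  have h := (hD.fam.cone ((D.r w * m1 * m2) i 0) ((D.r w * m1 * m2) i 1)
    (by exact_mod_cast hc.1) hc.2.1 (by exact_mod_cast hc.2.2) k).1
  have g1 : (0 : ℝ) < (D.r w * m1 * m2) i 1 := by exact_mod_cast hc.1
  have : (0 : ℝ) < (D.r w * m1 * m2 * D.M) i k := by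
    rw [Locb_row]
    push_cast
    exact (mul_pos (mul_pos hD.hc1 (Locb_sp hD)) g1).trans_le h
  exact_mod_cast this

/-- `tt` in terms of `w` and `r m1 m2 M` -/
private theorem Locb_s0 (w m1 m2 : M2) (j : ℕ) (i : Fin 2) :
    D.tt w j m1 m2 0 i = (w 0 0 + D.K * j * w 1 0) * (D.r w * m1 * m2 * D.M) 0 i +
      (w 0 1 + D.K * j * w 1 1) * (D.r w * m1 * m2 * D.M) 1 i := by
  have e : D.tt w j m1 m2 = tr D.K j * w * (D.r w * m1 * m2 * D.M) := by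
    unfold Dat.tt
    rw [Locb_hh]
    simp only [Matrix.mul_assoc]
  rw [e, Locb_row, Locb_row (tr D.K j) w 0 0, Locb_row (tr D.K j) w 0 1]
  simp [tr]

private theorem Locb_s1 (w m1 m2 : M2) (j : ℕ) (i : Fin 2) :
    D.tt w j m1 m2 1 i = w 1 0 * (D.r w * m1 * m2 * D.M) 0 i +
      w 1 1 * (D.r w * m1 * m2 * D.M) 1 i := by
  have e : D.tt w j m1 m2 = tr D.K j * w * (D.r w * m1 * m2 * D.M) := by
    unfold Dat.tt
    rw [Locb_hh]
    simp only [Matrix.mul_assoc]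
  rw [e, Locb_row, Locb_row (tr D.K j) w 1 0, Locb_row (tr D.K j) w 1 1]
  simp [tr]

theorem vv_nd (hD : D.Ok) {w m1 m2 : M2} {j : ℕ} (hj : j < D.p * D.m) (hw : w ∈ nds D.K D.np)
    (h1 : m1 ∈ D.B) (h2 : m2 ∈ D.B) (hc : D.Cl w j m1 m2) :
    IsNd (D.vv w j m1 m2) ∧ D.vv w j m1 m2 0 0 ≤ D.K * D.vv w j m1 m2 1 0 ∧
    (∀ s ∈ J (D.vv w j m1 m2), (D.p : ℝ) * D.m * s - D.K * j ∈ J w) ∧
    (D.p : ℤ) ∣ D.vv w j m1 m2 1 0 * D.M 0 1 - D.vv w j m1 m2 1 1 * D.M 0 0 := by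
  obtain ⟨hn, hwin, hK⟩ := Locb_w hD hw
  have hhn := (hh_nd hD hw h1 h2).1
  have hp0 : (0 : ℤ) < D.p := by exact_mod_cast hD.hp.pos
  have hm0 : (0 : ℤ) < D.m := by exact_mod_cast hD.hm
  have hq0 : (0 : ℤ) < (D.p : ℤ) * D.m := mul_pos hp0 hm0
  have hK0 : (0 : ℤ) ≤ D.K := by positivity
  have hj0 : (0 : ℤ) ≤ j := by positivity
  have hjq : (j : ℤ) + 1 ≤ (D.p : ℤ) * D.m := by
    have : ((j : ℕ) : ℤ) < ((D.p * D.m : ℕ) : ℤ) := by exact_mod_cast hj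
    push_cast at this
    omega
  have ha := a_pos hn
  have hb := hn.b0
  have hc0 := hn.c0
  have hd0 := hn.d0
  have W := fun i k => Locb_W hD hw h1 h2 i k
  have v00 := Locb_v0 hc 0
  have v01 := Locb_v0 hc 1
  have v10 := Locb_v1 (D := D) w m1 m2 j 0
  have v11 := Locb_v1 (D := D) w m1 m2 j 1
  have s00 := Locb_s0 (D := D) w m1 m2 j 0
  have s01 := Locb_s0 (D := D) w m1 m2 j 1
  have s10 := Locb_s1 (D := D) w m1 m2 j 0
  have s11 := Locb_s1 (D := D) w m1 m2 j 1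
  have t00 := Locb_t0 (D := D) w m1 m2 j 0
  have t01 := Locb_t0 (D := D) w m1 m2 j 1
  have t10 := Locb_t1 (D := D) w m1 m2 j 0
  have t11 := Locb_t1 (D := D) w m1 m2 j 1
  have dM := hD.fam.det
  have dh := hhn.det
  have P0 := Locb_pos (j := j) hD hw h1 h2 0
  have P1 := Locb_pos (j := j) hD hw h1 h2 1
  set Q : M2 := D.r w * m1 * m2 * D.M with hQ
  set V : M2 := D.vv w j m1 m2 with hV
  set T : M2 := D.tt w j m1 m2 with hT
  set q : ℤ := (D.p : ℤ) * D.m with hq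
  have w00 := W 0 0
  have w01 := W 0 1
  have w10 := W 1 0
  have w11 := W 1 1
  have kj : (0 : ℤ) ≤ D.K * j := mul_nonneg hK0 hj0
  have A0 : (0 : ℤ) ≤ w 0 0 + D.K * j * w 1 0 := by
    have := mul_nonneg kj hc0.le
    omega
  have B0 : (0 : ℤ) ≤ w 0 1 + D.K * j * w 1 1 := by
    have := mul_nonneg kj hd0.le
    omega
  have hbK : w 0 1 ≤ D.K * w 1 1 := by
    have e1 : w 0 1 * w 1 0 ≤ D.K * w 1 1 * w 1 0 := by
      have e2 := hn.det
      have e3 := mul_le_mul_of_nonneg_right hK hd0.le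
      nlinarith
    exact le_of_mul_le_mul_right e1 hc0
  refine ⟨⟨?_, ?_, P0, P1⟩, ?_, ?_, ?_⟩
  · have e1 : q * (V 0 0 * V 1 1 - V 0 1 * V 1 0) = q * 1 := by
      calc q * (V 0 0 * V 1 1 - V 0 1 * V 1 0) = (q * V 0 0) * V 1 1 - (q * V 0 1) * V 1 0 := by ring
        _ = T 0 0 * T 1 1 - T 0 1 * T 1 0 := by rw [v00, v01, v10, v11]
        _ = (D.hh w m1 m2 0 0 * D.hh w m1 m2 1 1 - D.hh w m1 m2 0 1 * D.hh w m1 m2 1 0) *
            (D.M 0 0 * D.M 1 1 - D.M 0 1 * D.M 1 0) := by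
            rw [t00, t01, t10, t11]
            ring
        _ = q * 1 := by rw [dh, dM]; ring
    exact mul_left_cancel₀ hq0.ne' e1
  · have e1 : 0 ≤ q * V 0 1 := by
      rw [v01, s01]
      exact add_nonneg (mul_nonneg A0 w01.le) (mul_nonneg B0 w11.le)
    exact nonneg_of_mul_nonneg_right e1 hq0
  · have e1 : q * V 0 0 ≤ q * (D.K * V 1 0) := by
      rw [v00, v10, s00, s10]
      have f1 : w 0 0 + D.K * j * w 1 0 ≤ D.K * (j + 1) * w 1 0 := by nlinarith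
      have f2 : w 0 1 + D.K * j * w 1 1 ≤ D.K * (j + 1) * w 1 1 := by nlinarith
      calc (w 0 0 + D.K * j * w 1 0) * Q 0 0 + (w 0 1 + D.K * j * w 1 1) * Q 1 0
          ≤ (D.K * (j + 1) * w 1 0) * Q 0 0 + (D.K * (j + 1) * w 1 1) * Q 1 0 :=
            add_le_add (mul_le_mul_of_nonneg_right f1 w00.le) (mul_le_mul_of_nonneg_right f2 w10.le)
        _ = (j + 1) * (D.K * (w 1 0 * Q 0 0 + w 1 1 * Q 1 0)) := by ring
        _ ≤ q * (D.K * (w 1 0 * Q 0 0 + w 1 1 * Q 1 0)) := by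
            refine mul_le_mul_of_nonneg_right hjq ?_
            exact mul_nonneg hK0 (add_nonneg (mul_nonneg hc0.le w00.le) (mul_nonneg hd0.le w10.le))
    exact le_of_mul_le_mul_left e1 hq0
  · rintro s ⟨hs1, hs2⟩
    have qr : (0 : ℝ) < q := by exact_mod_cast hq0
    have P0r : (0 : ℝ) < V 1 0 := by exact_mod_cast P0
    have P1r : (0 : ℝ) < V 1 1 := by exact_mod_cast P1
    have cr : (0 : ℝ) < w 1 0 := by exact_mod_cast hc0
    have dr : (0 : ℝ) < w 1 1 := by exact_mod_cast hd0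
    have w00r : (0 : ℝ) < Q 0 0 := by exact_mod_cast w00
    have w01r : (0 : ℝ) < Q 0 1 := by exact_mod_cast w01
    have w10r : (0 : ℝ) < Q 1 0 := by exact_mod_cast w10
    have w11r : (0 : ℝ) < Q 1 1 := by exact_mod_cast w11
    have dw : (w 0 0 : ℝ) * w 1 1 - w 0 1 * w 1 0 = 1 := by exact_mod_cast hn.det
    have v00r : (q : ℝ) * V 0 0 = ((w 0 0 : ℝ) + D.K * j * w 1 0) * Q 0 0 +
        (w 0 1 + D.K * j * w 1 1) * Q 1 0 := by
      have := v00.trans s00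
      exact_mod_cast this
    have v01r : (q : ℝ) * V 0 1 = ((w 0 0 : ℝ) + D.K * j * w 1 0) * Q 0 1 +
        (w 0 1 + D.K * j * w 1 1) * Q 1 1 := by
      have := v01.trans s01
      exact_mod_cast this
    have v10r : (V 1 0 : ℝ) = w 1 0 * Q 0 0 + w 1 1 * Q 1 0 := by
      have := v10.trans s10
      exact_mod_cast this
    have v11r : (V 1 1 : ℝ) = w 1 0 * Q 0 1 + w 1 1 * Q 1 1 := by
      have := v11.trans s11
      exact_mod_cast this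
    have hqr : (D.p : ℝ) * D.m = q := by
      rw [hq]
      push_cast
      ring
    rw [hqr]
    rw [div_lt_iff₀ P1r] at hs1
    rw [lt_div_iff₀ P0r] at hs2
    constructor
    · rw [div_lt_iff₀ dr]
      -- `b < (q s - K j) d`
      have e1 : (q : ℝ) * V 0 1 < q * (s * V 1 1) := mul_lt_mul_of_pos_left hs1 qr
      rw [v01r, v11r] at e1
      -- multiply
      have e2 : (w 0 1 : ℝ) * (w 1 0 * Q 0 1 + w 1 1 * Q 1 1) <
          ((q : ℝ) * s - D.K * j) * w 1 1 * (w 1 0 * Q 0 1 + w 1 1 * Q 1 1) := by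
        nlinarith [mul_lt_mul_of_pos_right e1 dr, mul_pos w01r dr]
      have e3 : (0 : ℝ) < w 1 0 * Q 0 1 + w 1 1 * Q 1 1 := by positivity
      exact lt_of_mul_lt_mul_right e2 e3.le
    · rw [lt_div_iff₀ cr]
      have e1 : (q : ℝ) * (s * V 1 0) < q * V 0 0 := mul_lt_mul_of_pos_left hs2 qr
      rw [v00r, v10r] at e1
      have e2 : ((q : ℝ) * s - D.K * j) * w 1 0 * (w 1 0 * Q 0 0 + w 1 1 * Q 1 0) <
          (w 0 0 : ℝ) * (w 1 0 * Q 0 0 + w 1 1 * Q 1 0) := by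
        nlinarith [mul_lt_mul_of_pos_right e1 cr, mul_pos w10r cr]
      have e3 : (0 : ℝ) < w 1 0 * Q 0 0 + w 1 1 * Q 1 0 := by positivity
      exact lt_of_mul_lt_mul_right e2 e3.le
  · rw [v10, v11, t10, t11]
    refine ⟨-(D.hh w m1 m2 1 1 * D.m), ?_⟩
    linear_combination (-D.hh w m1 m2 1 1) * dM

theorem vv_bal (hD : D.Ok) {w m1 m2 : M2} {j : ℕ} (hw : w ∈ nds D.K D.np)
    (h1 : m1 ∈ D.B) (h2 : m2 ∈ D.B) : Bal (D.c2 / D.c1) (D.vv w j m1 m2) := by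
  have hc1 := hD.hc1
  have hc2 : 0 ≤ D.c2 := hc1.le.trans hD.hc12
  have key : ∀ i k : Fin 2, (D.vv w j m1 m2 1 i : ℝ) ≤ D.c2 / D.c1 * D.vv w j m1 m2 1 k := by
    intro i k
    have a := (vv_size (j := j) hD hw h1 h2 i).2
    have b := (vv_size (j := j) hD hw h1 h2 k).1
    calc (D.vv w j m1 m2 1 i : ℝ) ≤ D.c2 * √D.p * D.hh w m1 m2 1 1 := a
      _ = D.c2 / D.c1 * (D.c1 * √D.p * D.hh w m1 m2 1 1) := by field_simp
      _ ≤ D.c2 / D.c1 * D.vv w j m1 m2 1 k := mul_le_mul_of_nonneg_left b (by positivity)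
  exact ⟨key 0 1, key 1 0⟩

theorem vv_len (hD : D.Ok) {w m1 m2 : M2} {j : ℕ} (hw : w ∈ nds D.K D.np)
    (h1 : m1 ∈ D.B) (h2 : m2 ∈ D.B) :
    len (D.hh w m1 m2) ≤ D.c2 ^ 2 * D.p * len (D.vv w j m1 m2) := by
  obtain ⟨g1, g2, _, _⟩ := hh_cone hD hw h1 h2
  have a0 := (vv_size (j := j) hD hw h1 h2 0).2
  have a1 := (vv_size (j := j) hD hw h1 h2 1).2
  have P0 : (0 : ℝ) < D.vv w j m1 m2 1 0 := by exact_mod_cast Locb_pos (j := j) hD hw h1 h2 0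
  have P1 : (0 : ℝ) < D.vv w j m1 m2 1 1 := by exact_mod_cast Locb_pos (j := j) hD hw h1 h2 1
  have D0 : (0 : ℝ) < D.hh w m1 m2 1 1 := by exact_mod_cast g1
  have hz := hD.hζ1
  have C0 : (D.hh w m1 m2 1 1 : ℝ) ≤ D.hh w m1 m2 1 0 := by nlinarith
  have hp0 : (0 : ℝ) < D.p := by exact_mod_cast hD.hp.pos
  have hs : √(D.p : ℝ) * √(D.p : ℝ) = D.p := Real.mul_self_sqrt hp0.le
  have hc2 : 0 ≤ D.c2 := hD.hc1.le.trans hD.hc12
  have hprod : (D.vv w j m1 m2 1 0 : ℝ) * D.vv w j m1 m2 1 1 ≤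
      D.c2 ^ 2 * D.p * (D.hh w m1 m2 1 0 * D.hh w m1 m2 1 1) := by
    calc (D.vv w j m1 m2 1 0 : ℝ) * D.vv w j m1 m2 1 1
        ≤ (D.c2 * √D.p * D.hh w m1 m2 1 1) * (D.c2 * √D.p * D.hh w m1 m2 1 1) :=
          mul_le_mul a0 a1 P1.le (by positivity)
      _ = D.c2 ^ 2 * (√(D.p : ℝ) * √(D.p : ℝ)) * (D.hh w m1 m2 1 1 * D.hh w m1 m2 1 1) := by ring
      _ = D.c2 ^ 2 * D.p * (D.hh w m1 m2 1 1 * D.hh w m1 m2 1 1) := by rw [hs]
      _ ≤ D.c2 ^ 2 * D.p * (D.hh w m1 m2 1 0 * D.hh w m1 m2 1 1) := by gcongr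
  have C1 : (0 : ℝ) < D.hh w m1 m2 1 0 := D0.trans_le C0
  unfold len
  rw [mul_one_div, div_le_div_iff₀ (mul_pos C1 D0) (mul_pos P0 P1)]
  linarith

theorem vv_win (hD : D.Ok) {w m1 m2 : M2} {j : ℕ} (hj : j < D.p * D.m) (hw : w ∈ nds D.K D.np)
    (h1 : m1 ∈ D.B) (h2 : m2 ∈ D.B) (hc : D.Cl w j m1 m2)
    (hlow : (D.N : ℤ) < D.vv w j m1 m2 1 0 + D.vv w j m1 m2 1 1) :
    D.vv w j m1 m2 ∈ ndw D.K D.N D.N2 := by
  obtain ⟨g1, g2, _, _⟩ := vv_nd hD hj hw h1 h2 hc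
  obtain ⟨_, _, _, f4⟩ := hh_cone hD hw h1 h2
  have hc2 : 0 ≤ D.c2 := hD.hc1.le.trans hD.hc12
  have hle : ∀ i, (D.vv w j m1 m2 1 i : ℝ) ≤ D.N2 := by
    intro i
    have a := (vv_size (j := j) hD hw h1 h2 i).2
    have hN2 := hD.hN2
    have z0 : 0 ≤ 2 * (D.R : ℝ) * D.np * (D.n : ℝ) ^ 2 := by positivity
    have z1 : 0 ≤ D.c2 * √D.p := mul_nonneg hc2 (Real.sqrt_nonneg _)
    calc (D.vv w j m1 m2 1 i : ℝ) ≤ D.c2 * √D.p * D.hh w m1 m2 1 1 := a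
      _ ≤ D.c2 * √D.p * (2 * D.R * D.np * (D.n : ℝ) ^ 2) := mul_le_mul_of_nonneg_left f4 z1
      _ ≤ 2 * D.R * D.np * (D.n : ℝ) ^ 2 * (1 + D.c2 * √D.p) := by nlinarith
      _ ≤ D.N2 := hN2
  rw [mem_ndw hD.hK]
  exact ⟨g1, ⟨by exact_mod_cast hle 0, by exact_mod_cast hle 1, hlow⟩, g2⟩

end Pool.Agent.CQF
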