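import Pool.Agent.CQF.Locb

set_option autoImplicit false

/-!
# Module Locc (size 3): injectivity of `vv`: the nodes `hh` and `vv`

Write `w = (a b; c d)`, `q = r m1 m2` (nonnegative, rows `(α, β)`, `(γ, δ)` in the cone by `cone_mul`),
`hh = w q = (a'' b''; c'' d'')`, so `c'' = c α + d γ`, `d'' = c β + d δ` and `(2 - ζ) d'' ≤ c'' ≤ 2 d''`.
* `hh` is a node, `J hh ⊆ J w` (`nd_mul, J_mul, nd_mul_lt`).
* sizes: `c, d ≤ np`, `c + d > np`.  `(c1, d1) = (c, d) r`: `min (c, d) ≤ c1, d1 ≤ 2 R max (c, d)` (each column of `r` is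
  nonzero and nonnegative).  Column sums of `m1 m2`: `(x1, y1) m2`, between `y1 y2 > n²/4` and `x1 x2 ≤ n²`
  (`x1 ≥ y1` for a block: `x1 > (1 - ζ/8) n ≥ (7/8) n`, `y1 ≤ (9/16) n`).
  So `c'', d'' ≤ 2 R np n²`, and if `w` is `A`-balanced (`min (c,d) ≥ max/A > np/(2A)`) then `d'' ≥ np n²/(8A)`
  and `c'' d'' ≤ (2 R max(c,d) n²)² ≤ 4 R² A c d n⁴`.
* `vv`: `tt = diag(pm, 1) vv` by divisibility; `det tt = p m`, so `det vv = 1`. Second row of `tt` is
  `(c, d) q M = (c'', d'') M`, and by `cone` (`α = c''`, `β = d''`) both coordinates are in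
  `[c1 √p d'', c2 √p d'']`, so positive. All entries of `q M` are positive by `cone` applied to the rows of `q`;
  the first row of `tt` is `(a + K j c, b + K j d) (q M)`, which is `≥ 0`, so `vv 0 1 ≥ 0`.
  `vv 0 0 ≤ K vv 1 0`: `(a + K j c, b + K j d) ≤ K (j + 1) (c, d)` entrywise (`a ≤ K c`, and `b ≤ K d` since
  `b c < a d ≤ K c d`), and `j + 1 ≤ p m`.
* if `s ∈ J vv` then `p m s - K j ∈ J w`: `vv01/vv11 < s` gives
  `p m s > tt01/tt11 = K j + (a x + b y)/(c x + d y)` with `(x, y)` the second column of `q M` (nonnegative, not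
  both zero), which is `≥ K j + b/d`; similarly `p m s < tt00/tt10 ≤ K j + a/c`.
* `vv10 M01 - vv11 M00 = - d'' det M` is divisible by `p`.
* `len hh = 1/(c'' d'') ≤ 1/d''²` and `len vv = 1/(vv10 vv11) ≥ 1/(c2² p d''²)`.
* windows: `np ≤` ... `hh` and `vv` have entries `≤ N2` (`hN2`) and `c'' + d'' ≥ c + d > np ≥ N`;
  for `vv`: its interval is contained in an interval of length `len w / (p m)`... simply: we only claim the window
  of `vv` under the assumption `N < vv10 + vv11` (hypothesis `hlow` of `vv_win`).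
-/


namespace Pool.Agent.CQF

variable {D : Dat}

private theorem Locc_cancel {m : ℤ} (hm : m ≠ 0) {A B M : M2}
    (hM : M 0 0 * M 1 1 - M 0 1 * M 1 0 = m) (h : A * M = B * M) : A = B := by
  have h1 : M.det = m := by rw [Matrix.det_fin_two, hM]
  have h2 : A * M * M.adjugate = B * M * M.adjugate := by rw [h]
  rw [Matrix.mul_assoc, Matrix.mul_assoc, Matrix.mul_adjugate, h1] at h2
  ext a b
  have h3 := congrFun (congrFun h2 a) b
  simp only [Matrix.mul_smul, Matrix.mul_one, Matrix.smul_apply, smul_eq_mul] at h3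
  exact mul_left_cancel₀ hm h3

private theorem Locc_tr (K : ℕ) (j : ℤ) (h : M2) (i : Fin 2) :
    (tr K j * h) 0 i = h 0 i + (K : ℤ) * j * h 1 i ∧ (tr K j * h) 1 i = h 1 i := by
  unfold tr
  constructor <;> simp [Matrix.mul_apply, Fin.sum_univ_two]

private theorem Locc_lt {K : ℕ} (hK : 1 ≤ K) {h h' : M2} {j j' : ℤ} (hh : IsNd h) (hh' : IsNd h')
    (hK1 : h 0 0 ≤ K * h 1 0) (he : tr K j * h = tr K j' * h') : ¬ j < j' := by
  intro hlt
  have e1 := congrFun (congrFun he 0) 0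
  have e2 := congrFun (congrFun he 1) 0
  rw [(Locc_tr K j h 0).1, (Locc_tr K j' h' 0).1] at e1
  rw [(Locc_tr K j h 0).2, (Locc_tr K j' h' 0).2] at e2
  have p1 := a_pos hh'
  have p2 := hh'.c0
  rw [e2] at e1 hK1
  have hK' : (1 : ℤ) ≤ K := by exact_mod_cast hK
  have h1 : (1 : ℤ) ≤ j' - j := by omega
  have h2 : (K : ℤ) * h' 1 0 * 1 ≤ (K : ℤ) * h' 1 0 * (j' - j) :=
    mul_le_mul_of_nonneg_left h1 (by positivity)
  nlinarith

private theorem Locc_ne {h : M2} (hh : IsNd h) : (J h).Nonempty := by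
  unfold J
  rw [Set.nonempty_Ioo]
  have hc : (0 : ℝ) < h 1 0 := by exact_mod_cast hh.c0
  have hd : (0 : ℝ) < h 1 1 := by exact_mod_cast hh.d0
  rw [div_lt_div_iff₀ hd hc]
  have h1 : h 0 1 * h 1 0 < h 0 0 * h 1 1 := by
    have := hh.det
    linarith
  exact_mod_cast h1

/-- `(w, j, m1, m2) ↦ vv` is injective: `vv` gives the second row of `hh` (as `M` is invertible), and
`hh = (tr K j)⁻¹ diag(pm, 1) vv M⁻¹` lies in `(0, K)`, so `j` is determined (two nodes with intervals in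
`(0, K)` which differ by `tr K (j - j')` have `j = j'`), then `hh`, then `w, m1, m2` by `hh_disj`. -/
theorem vv_inj (hD : D.Ok) {w w' m1 m1' m2 m2' : M2} {j j' : ℕ} (hj : j < D.p * D.m)
    (hj' : j' < D.p * D.m) (hw : w ∈ nds D.K D.np)
    (hw' : w' ∈ nds D.K D.np) (h1 : m1 ∈ D.B) (h1' : m1' ∈ D.B) (h2 : m2 ∈ D.B) (h2' : m2' ∈ D.B)
    (hc : D.Cl w j m1 m2) (hc' : D.Cl w' j' m1' m2')
    (he : D.vv w j m1 m2 = D.vv w' j' m1' m2') : (w, j, m1, m2) = (w', j', m1', m2') := by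
  have hp1 : 1 ≤ D.p := hD.hp.one_lt.le
  have e1 := vv_eq (w := w) (m1 := m1) (m2 := m2) hp1 hD.hm hc
  have e2 := vv_eq (w := w') (m1 := m1') (m2 := m2') hp1 hD.hm hc'
  rw [he, ← e2] at e1
  have hpm : ((D.p : ℤ) * D.m) ≠ 0 := by
    have := hD.hm
    positivity
  have e3 : tr D.K j * D.hh w m1 m2 = tr D.K j' * D.hh w' m1' m2' :=
    Locc_cancel hpm hD.fam.det e1
  obtain ⟨n1, n2, -, -, -⟩ := hh_nd hD hw h1 h2
  obtain ⟨n1', n2', -, -, -⟩ := hh_nd hD hw' h1' h2'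
  have l1 := Locc_lt hD.hK n1 n1' n2 e3
  have l2 := Locc_lt hD.hK n1' n1 n2' e3.symm
  have hjj : j = j' := by omega
  subst hjj
  have e4 : D.hh w m1 m2 = D.hh w' m1' m2' := by
    ext a b
    have c1 := congrFun (congrFun e3 1) b
    have c0 := congrFun (congrFun e3 0) b
    rw [(Locc_tr _ _ _ b).2, (Locc_tr _ _ _ b).2] at c1
    rw [(Locc_tr _ _ _ b).1, (Locc_tr _ _ _ b).1, c1] at c0
    fin_cases a
    · exact add_right_cancel c0
    · exact c1
  by_contra hne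
  have hne' : (w, m1, m2) ≠ (w', m1', m2') := by
    intro h
    apply hne
    rw [Prod.mk.injEq, Prod.mk.injEq] at h
    obtain ⟨rfl, rfl, rfl⟩ := h
    rfl
  have hd := hh_disj hD hw hw' h1 h1' h2 h2' hne'
  rw [e4] at hd
  have := Locc_ne n1'
  rw [disjoint_self] at hd
  rw [hd] at this
  exact Set.not_nonempty_empty this

end Pool.Agent.CQF
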