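import Pool.Agent.CQF.Msr

set_option autoImplicit false

/-!
# Module Mva (size 4): second moment over the nodes of one order

`𝒫` a finite set of primes, `M p` integer matrices with `p ∤ (M p) 0 1`, so that the condition
`p ∣ v10 M01 - v11 M00` says `v10 ≡ κ_p v11` mod `p`, `κ_p = M00/M01`.
For balanced `v ∈ nds K X`: `len v = 1/(v10 v11) ≤ ρ / max² ≤ 4 ρ / X²` (`max > X/2`).
Number of `v ∈ nds K X` satisfying the conditions for `p` and `p'`: at most `K` nodes for each pair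
`(v10, v11) ∈ [1, X]²`; for given `v11`, `v10` is determined mod `p p'` (`p ≠ p'`) or mod `p` (`p = p'`); so at most
`K X (X/(pp') + 1) ≤ 2 K X²/(p p')`, resp. `2 K X²/p`  (`p p' ≤ X`). Hence
`∑_v len v (#{p})² ≤ (4ρ/X²) (∑_{p ≠ p'} 2KX²/(pp') + ∑_p 2KX²/p) ≤ 8 ρ K (W² + W)`, `W = ∑ 1/p`.
-/

namespace Pool.Agent.CQF

private theorem mva_ent {K X : ℕ} (hK : 1 ≤ K) {v : M2} (hv : v ∈ nds K X) :
    (v 0 0 * v 1 1 - v 0 1 * v 1 0 = 1) ∧ 0 ≤ v 0 1 ∧ 0 < v 1 0 ∧ 0 < v 1 1 ∧ v 1 0 ≤ X ∧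
      v 1 1 ≤ X ∧ (X : ℤ) < v 1 0 + v 1 1 ∧ v 0 1 < K * v 1 1 := by
  unfold nds at hv
  rw [mem_ndw hK] at hv
  obtain ⟨h1, ⟨h2, h3, h4⟩, h5⟩ := hv
  refine ⟨h1.det, h1.b0, h1.c0, h1.d0, h2, h3, h4, ?_⟩
  have hc := h1.c0
  have hd := h1.d0
  have h6 : v 0 1 * v 1 0 < (K * v 1 1) * v 1 0 := by
    have h7 : v 0 0 * v 1 1 ≤ (K * v 1 0) * v 1 1 := mul_le_mul_of_nonneg_right h5 hd.le
    have := h1.det
    nlinarith
  exact lt_of_mul_lt_mul_right h6 hc.le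

private theorem mva_inj {K X : ℕ} (hK : 1 ≤ K) {v v' : M2} (hv : v ∈ nds K X) (hv' : v' ∈ nds K X)
    (h0 : v 1 0 = v' 1 0) (h1 : v 1 1 = v' 1 1) (h2 : v 0 1 / v 1 1 = v' 0 1 / v' 1 1) : v = v' := by
  obtain ⟨a1, a2, a3, a4, _, _, _, a8⟩ := mva_ent hK hv
  obtain ⟨b1, b2, b3, b4, _, _, _, b8⟩ := mva_ent hK hv'
  rw [← h0, ← h1] at b1
  rw [← h1] at h2 b4
  have hcop : IsCoprime (v 1 1) (v 1 0) := ⟨v 0 0, -v 0 1, by linarith⟩
  have hdvd : v 1 1 ∣ v 0 1 - v' 0 1 := by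
    refine hcop.dvd_of_dvd_mul_right ⟨v 0 0 - v' 0 0, ?_⟩
    linear_combination b1 - a1
  have e1 : v 0 1 = v' 0 1 := by
    have m1 := Int.mul_ediv_add_emod (v 0 1) (v 1 1)
    have m2 := Int.mul_ediv_add_emod (v' 0 1) (v 1 1)
    have m3 : v 0 1 % v 1 1 = v' 0 1 % v 1 1 := (Int.emod_emod_of_dvd _ (dvd_refl _) ▸
      (Int.emod_emod_of_dvd (v 0 1) (dvd_refl (v 1 1))).symm ▸
        (Int.emod_eq_emod_iff_emod_sub_eq_zero.mpr (Int.emod_eq_zero_of_dvd hdvd)))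
    rw [h2, m3] at m1
    linarith
  have e0 : v 0 0 = v' 0 0 := by
    have : (v 0 0 - v' 0 0) * v 1 1 = 0 := by
      rw [e1] at a1
      linear_combination a1 - b1
    rcases mul_eq_zero.mp this with h | h
    · linarith
    · omega
  ext i j
  fin_cases i <;> fin_cases j <;> simp [e0, e1, h0, h1]

private theorem mva_card (K X : ℕ) (hK : 1 ≤ K) (hX : 1 ≤ X) (q : ℕ) (hq : 1 ≤ q) (hqX : q ≤ X)
    (T : Finset M2) (hT : ∀ v ∈ T, v ∈ nds K X)
    (hc : ∀ v ∈ T, ∀ v' ∈ T, v 1 1 = v' 1 1 → (q : ℤ) ∣ v 1 0 - v' 1 0) :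
    (T.card : ℝ) ≤ 2 * K * X ^ 2 * (1 / q) := by
  have hq0 : (0 : ℤ) < q := by exact_mod_cast hq
  have h1 : T.card ≤ (Finset.Icc (1 : ℤ) X ×ˢ (Finset.Ico (0 : ℤ) K ×ˢ
      Finset.Icc (0 : ℤ) ((X : ℤ) / q))).card := by
    refine Finset.card_le_card_of_injOn (fun v => (v 1 1, v 0 1 / v 1 1, v 1 0 / q)) ?_ ?_
    · intro v hv
      obtain ⟨a1, a2, a3, a4, a5, a6, a7, a8⟩ := mva_ent hK (hT v hv)
      simp only [Finset.coe_product, Set.mem_prod, Finset.mem_coe, Finset.mem_Icc, Finset.mem_Ico]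
      refine ⟨⟨by omega, a6⟩, ⟨Int.ediv_nonneg a2 a4.le, ?_⟩, Int.ediv_nonneg a3.le hq0.le,
        Int.ediv_le_ediv hq0 a5⟩
      exact Int.ediv_lt_of_lt_mul a4 a8
    · intro v hv v' hv' he
      simp only [Prod.mk.injEq] at he
      obtain ⟨e1, e2, e3⟩ := he
      have hd := hc v hv v' hv' e1
      have m1 := Int.mul_ediv_add_emod (v 1 0) q
      have m2 := Int.mul_ediv_add_emod (v' 1 0) q
      have m3 : v 1 0 % q = v' 1 0 % q :=
        Int.emod_eq_emod_iff_emod_sub_eq_zero.mpr (Int.emod_eq_zero_of_dvd hd)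
      rw [e3, m3] at m1
      exact mva_inj hK (hT v hv) (hT v' hv') (by linarith) e1 e2
  rw [Finset.card_product, Finset.card_product, Int.card_Icc, Int.card_Ico, Int.card_Icc] at h1
  have e1 : ((X : ℤ) + 1 - 1).toNat = X := by simp
  have e2 : ((K : ℤ) - 0).toNat = K := by simp
  have e3 : ((X : ℤ) / q + 1 - 0).toNat = X / q + 1 := by
    have : (X : ℤ) / q + 1 - 0 = ((X / q + 1 : ℕ) : ℤ) := by push_cast; ring
    rw [this, Int.toNat_natCast]
  rw [e1, e2, e3] at h1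
  have h2 : (T.card : ℝ) ≤ X * (K * ((X / q : ℕ) + 1)) := by exact_mod_cast h1
  have hqr : (0 : ℝ) < q := by exact_mod_cast hq
  have h3 : ((X / q : ℕ) : ℝ) ≤ X / q := Nat.cast_div_le
  have h4 : (1 : ℝ) ≤ X / q := by
    rw [le_div_iff₀ hqr]
    simpa using (by exact_mod_cast hqX : (q : ℝ) ≤ X)
  calc (T.card : ℝ) ≤ X * (K * ((X / q : ℕ) + 1)) := h2
    _ ≤ X * (K * (X / q + X / q)) := by
        refine mul_le_mul_of_nonneg_left (mul_le_mul_of_nonneg_left (by linarith) ?_) ?_ <;>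
          positivity
    _ = _ := by ring

private theorem mva_len {K X : ℕ} (hK : 1 ≤ K) (hX : 1 ≤ X) (ρ : ℝ) (hρ : 1 ≤ ρ) {v : M2}
    (hv : v ∈ nds K X) (hb : Bal ρ v) : len v ≤ 4 * ρ / X ^ 2 := by
  obtain ⟨_, _, a3, a4, a5, a6, a7, _⟩ := mva_ent hK hv
  obtain ⟨b1, b2⟩ := hb
  unfold len
  have c3 : (0 : ℝ) < v 1 0 := by exact_mod_cast a3
  have c4 : (0 : ℝ) < v 1 1 := by exact_mod_cast a4
  have c7 : (X : ℝ) < v 1 0 + v 1 1 := by exact_mod_cast a7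
  have cX : (1 : ℝ) ≤ X := by exact_mod_cast hX
  rw [div_le_div_iff₀ (by positivity) (by positivity), one_mul]
  have h1 : (v 1 0 : ℝ) ^ 2 ≤ ρ * (v 1 0 * v 1 1) := by nlinarith
  have h2 : (v 1 1 : ℝ) ^ 2 ≤ ρ * (v 1 0 * v 1 1) := by nlinarith
  have h3 : (X : ℝ) ^ 2 ≤ (v 1 0 + v 1 1) ^ 2 := by nlinarith
  nlinarith [mul_pos c3 c4]

open Classical in
theorem second_moment (K X : ℕ) (hK : 1 ≤ K) (hX : 1 ≤ X) (ρ : ℝ) (hρ : 1 ≤ ρ) (P : Finset ℕ)
    (hP : ∀ p ∈ P, p.Prime) (hPX : ∀ p ∈ P, ∀ p' ∈ P, p * p' ≤ X) (M : ℕ → M2)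
    (hM : ∀ p ∈ P, ¬ (p : ℤ) ∣ M p 0 1) :
    ∑ v ∈ (nds K X).filter (fun v => Bal ρ v),
      len v * ((P.filter (fun p : ℕ => (p : ℤ) ∣ v 1 0 * M p 0 1 - v 1 1 * M p 0 0)).card : ℝ) ^ 2 ≤
      8 * ρ * K * ((∑ p ∈ P, (1 : ℝ) / p) ^ 2 + ∑ p ∈ P, (1 : ℝ) / p) := by
  set C : ℕ → M2 → Prop := fun p v => (p : ℤ) ∣ v 1 0 * M p 0 1 - v 1 1 * M p 0 0 with hC
  set V := (nds K X).filter (fun v => Bal ρ v) with hV
  have hXr : (1 : ℝ) ≤ X := by exact_mod_cast hX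
  have h1 : ∀ v, ((P.filter (fun p : ℕ => C p v)).card : ℝ) ^ 2 =
      ∑ p ∈ P, ∑ p' ∈ P, if C p v ∧ C p' v then (1 : ℝ) else 0 := by
    intro v
    rw [sq, Finset.card_filter, Nat.cast_sum, Finset.sum_mul_sum]
    refine Finset.sum_congr rfl (fun p _ => Finset.sum_congr rfl (fun p' _ => ?_))
    by_cases h : C p v <;> by_cases h' : C p' v <;> simp [h, h']
  have h2 : ∀ p ∈ P, ∀ p' ∈ P, ∑ v ∈ V, len v * (if C p v ∧ C p' v then (1 : ℝ) else 0) ≤
      8 * ρ * K * ((1 : ℝ) / p * (1 / p') + if p = p' then (1 : ℝ) / p else 0) := by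
    intro p hp p' hp'
    have hpp := hP p hp
    have hpp' := hP p' hp'
    -- the modulus
    obtain ⟨q, hq1, hqX, hqc, hqr⟩ : ∃ q : ℕ, 1 ≤ q ∧ q ≤ X ∧
        (∀ z : ℤ, (p : ℤ) ∣ z → (p' : ℤ) ∣ z → (q : ℤ) ∣ z) ∧
        (1 : ℝ) / q ≤ (1 : ℝ) / p * (1 / p') + if p = p' then (1 : ℝ) / p else 0 := by
      by_cases hpe : p = p'
      · refine ⟨p, hpp.one_lt.le, ?_, fun z hz _ => hz, ?_⟩
        · have := hPX p hp p hp
          nlinarith [hpp.one_lt]
        · rw [if_pos hpe]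
          have : (0 : ℝ) ≤ (1 : ℝ) / p * (1 / p') := by positivity
          linarith
      · refine ⟨p * p', Nat.mul_pos hpp.pos hpp'.pos, hPX p hp p' hp', fun z hz hz' => ?_, ?_⟩
        · have hco : IsCoprime (p : ℤ) (p' : ℤ) := by
            rw [Nat.isCoprime_iff_coprime]
            exact (Nat.coprime_primes hpp hpp').mpr hpe
          push_cast
          exact hco.mul_dvd hz hz'
        · rw [if_neg hpe]
          push_cast
          rw [one_div_mul_one_div, add_zero]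
    have h3 : ∑ v ∈ V, len v * (if C p v ∧ C p' v then (1 : ℝ) else 0) =
        ∑ v ∈ V.filter (fun v => C p v ∧ C p' v), len v := by
      refine Eq.trans ?_ (Finset.sum_filter (s := V) (fun v => C p v ∧ C p' v) (fun v => len v)).symm
      refine Finset.sum_congr rfl (fun v _ => ?_)
      split_ifs <;> simp
    rw [h3]
    have h4 : ∑ v ∈ V.filter (fun v => C p v ∧ C p' v), len v ≤
        ((V.filter (fun v => C p v ∧ C p' v)).card : ℝ) * (4 * ρ / X ^ 2) := by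
      rw [← nsmul_eq_mul]
      refine Finset.sum_le_card_nsmul _ _ _ (fun v hv => ?_)
      rw [Finset.mem_filter, hV, Finset.mem_filter] at hv
      exact mva_len hK hX ρ hρ hv.1.1 hv.1.2
    have h5 := mva_card K X hK hX q hq1 hqX (V.filter (fun v => C p v ∧ C p' v))
      (fun v hv => by
        rw [Finset.mem_filter, hV, Finset.mem_filter] at hv
        exact hv.1.1)
      (fun v hv v' hv' he => by
        rw [Finset.mem_filter] at hv hv'
        refine hqc _ ?_ ?_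
        · have h6 : (p : ℤ) ∣ (v 1 0 - v' 1 0) * M p 0 1 := by
            have h7 := dvd_sub hv.2.1 hv'.2.1
            have h8 : (v 1 0 - v' 1 0) * M p 0 1 = (v 1 0 * M p 0 1 - v 1 1 * M p 0 0) -
                (v' 1 0 * M p 0 1 - v' 1 1 * M p 0 0) := by
              rw [he]; ring
            rw [h8]
            exact h7
          rcases (Nat.prime_iff_prime_int.mp hpp).dvd_or_dvd h6 with h | h
          · exact h
          · exact absurd h (hM p hp)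
        · have h6 : (p' : ℤ) ∣ (v 1 0 - v' 1 0) * M p' 0 1 := by
            have h7 := dvd_sub hv.2.2 hv'.2.2
            have h8 : (v 1 0 - v' 1 0) * M p' 0 1 = (v 1 0 * M p' 0 1 - v 1 1 * M p' 0 0) -
                (v' 1 0 * M p' 0 1 - v' 1 1 * M p' 0 0) := by
              rw [he]; ring
            rw [h8]
            exact h7
          rcases (Nat.prime_iff_prime_int.mp hpp').dvd_or_dvd h6 with h | h
          · exact h
          · exact absurd h (hM p' hp'))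
    calc _ ≤ ((V.filter (fun v => C p v ∧ C p' v)).card : ℝ) * (4 * ρ / X ^ 2) := h4
      _ ≤ (2 * K * X ^ 2 * (1 / q)) * (4 * ρ / X ^ 2) := by
          refine mul_le_mul_of_nonneg_right h5 (by positivity)
      _ = 8 * ρ * K * (1 / q) := by
          field_simp
          ring
      _ ≤ _ := mul_le_mul_of_nonneg_left hqr (by positivity)
  calc ∑ v ∈ V, len v * ((P.filter (fun p : ℕ => C p v)).card : ℝ) ^ 2
      = ∑ p ∈ P, ∑ p' ∈ P, ∑ v ∈ V, len v * (if C p v ∧ C p' v then (1 : ℝ) else 0) := by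
        have : ∀ v ∈ V, len v * ((P.filter (fun p : ℕ => C p v)).card : ℝ) ^ 2 =
            ∑ p ∈ P, ∑ p' ∈ P, len v * (if C p v ∧ C p' v then (1 : ℝ) else 0) := by
          intro v _
          rw [h1, Finset.mul_sum]
          refine Finset.sum_congr rfl (fun p _ => ?_)
          rw [Finset.mul_sum]
        rw [Finset.sum_congr rfl this, Finset.sum_comm]
        refine Finset.sum_congr rfl (fun p _ => ?_)
        rw [Finset.sum_comm]
    _ ≤ ∑ p ∈ P, ∑ p' ∈ P, 8 * ρ * K * ((1 : ℝ) / p * (1 / p') + if p = p' then (1 : ℝ) / p else 0) :=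
        Finset.sum_le_sum (fun p hp => Finset.sum_le_sum (fun p' hp' => h2 p hp p' hp'))
    _ = _ := by
        simp only [← Finset.mul_sum, Finset.sum_add_distrib]
        rw [← Finset.sum_mul, ← sq]
        congr 2
        refine Finset.sum_congr rfl (fun p hp => ?_)
        rw [Finset.sum_ite_eq, if_pos hp]

end Pool.Agent.CQF
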