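import Pool.Agent.CQF.Bkc

set_option autoImplicit false

/-!
# Module Pg (size 2): many blocks in one class mod `K`

Pigeonhole: `Bk ζ n` has at least `c n²` elements (`bk_card`) and there are at most `K⁴` classes of integer
matrices mod `K` (reduction map to `Matrix (Fin 2) (Fin 2) (ZMod K)`).
-/

namespace Pool.Agent.CQF

theorem exists_class (ζ : ℝ) (h0 : 0 < ζ) (h1 : ζ ≤ 1) (K : ℕ) (hK : 1 ≤ K) :
    ∃ c : ℝ, 0 < c ∧ ∃ n0 : ℕ, ∀ n, n0 ≤ n → ∃ B ⊆ Bk ζ n,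
      c * (n : ℝ) ^ 2 ≤ (B.card : ℝ) ∧ ∀ m ∈ B, ∀ m' ∈ B, Cg K m m' := by
  classical
  obtain ⟨c, hc, n0, hn0⟩ := bk_card ζ h0 h1
  have : NeZero K := ⟨by omega⟩
  set T : Finset (Fin 2 → Fin 2 → ZMod K) := Finset.univ with hT
  have hTne : T.Nonempty := ⟨fun _ _ => 0, Finset.mem_univ _⟩
  have hTpos : (0 : ℝ) < T.card := by exact_mod_cast hTne.card_pos
  refine ⟨c / T.card, div_pos hc hTpos, n0, fun n hn => ?_⟩
  let φ : M2 → (Fin 2 → Fin 2 → ZMod K) := fun m i j => ((m i j : ℤ) : ZMod K)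
  obtain ⟨y, _, hy⟩ := Finset.exists_le_card_fiber_of_nsmul_le_card_of_maps_to
    (s := Bk ζ n) (t := T) (f := φ) (b := c / T.card * (n : ℝ) ^ 2)
    (fun a _ => Finset.mem_univ _) hTne (by
      rw [nsmul_eq_mul]
      have h2 := hn0 n hn
      have h3 : (T.card : ℝ) * (c / T.card * (n : ℝ) ^ 2) = c * (n : ℝ) ^ 2 := by
        field_simp
      rw [h3]
      exact h2)
  refine ⟨(Bk ζ n).filter (fun x => φ x = y), Finset.filter_subset _ _, hy, ?_⟩
  intro m hm m' hm' i j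
  have e1 := congrFun (congrFun (Finset.mem_filter.1 hm).2 i) j
  have e2 := congrFun (congrFun (Finset.mem_filter.1 hm').2 i) j
  have e3 : ((m i j - m' i j : ℤ) : ZMod K) = 0 := by
    push_cast
    rw [show ((m i j : ℤ) : ZMod K) = y i j from e1, show ((m' i j : ℤ) : ZMod K) = y i j from e2,
      sub_self]
  exact (ZMod.intCast_zmod_eq_zero_iff_dvd _ _).1 e3

end Pool.Agent.CQF
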