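import Pool.Agent.CQF.Def

set_option autoImplicit false

/-!
# Module Rk (size 4): nonnegative representatives modulo `K`

Every integer matrix `g` of determinant one is congruent mod `K` to a product of matrices `Um = (1 1; 0 1)` and
`Lm = (1 0; 1 1)`: `SL₂(ℤ)` is generated by `T = Um` and `S = (0 -1; 1 0) = Um⁻¹ Lm Um⁻¹`
(`Matrix.SpecialLinearGroup.SL2Z_generators`) and `Um⁻¹ ≡ Um^(K-1)`, `Lm⁻¹ ≡ Lm^(K-1)` mod `K`. A product of
matrices `Um, Lm` is nonnegative of determinant one. There are finitely many classes mod `K`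
(`Matrix (Fin 2) (Fin 2) (ZMod K)` is finite), so the entries can be bounded.
(Alternatively a direct Euclidean algorithm.)
-/

namespace Pool.Agent.CQF

private theorem rk_nn_mul {a b : M2} (ha : IsNN a) (hb : IsNN b) : IsNN (a * b) := by
  obtain ⟨ha0, ha1⟩ := ha
  obtain ⟨hb0, hb1⟩ := hb
  constructor
  · intro i j
    rw [Matrix.mul_apply, Fin.sum_univ_two]
    exact add_nonneg (mul_nonneg (ha0 _ _) (hb0 _ _)) (mul_nonneg (ha0 _ _) (hb0 _ _))
  · simp only [Matrix.mul_apply, Fin.sum_univ_two]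
    linear_combination (b 0 0 * b 1 1 - b 0 1 * b 1 0) * ha1 + hb1

private theorem rk_cg_mul {K : ℕ} {a b c d : M2} (h1 : Cg K a b) (h2 : Cg K c d) :
    Cg K (a * c) (b * d) := by
  intro i j
  rw [Matrix.mul_apply, Matrix.mul_apply, Fin.sum_univ_two, Fin.sum_univ_two]
  have e : a i 0 * c 0 j + a i 1 * c 1 j - (b i 0 * d 0 j + b i 1 * d 1 j)
      = (a i 0 - b i 0) * c 0 j + b i 0 * (c 0 j - d 0 j)
        + ((a i 1 - b i 1) * c 1 j + b i 1 * (c 1 j - d 1 j)) := by ring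
  rw [e]
  exact dvd_add (dvd_add (Dvd.dvd.mul_right (h1 _ _) _) (Dvd.dvd.mul_left (h2 _ _) _))
    (dvd_add (Dvd.dvd.mul_right (h1 _ _) _) (Dvd.dvd.mul_left (h2 _ _) _))

private theorem rk_ex (K : ℕ) (hK : 1 ≤ K) (g : Matrix.SpecialLinearGroup (Fin 2) ℤ) :
    ∃ r : M2, IsNN r ∧ Cg K r (g : M2) := by
  have hK' : (1 : ℤ) ≤ K := by exact_mod_cast hK
  have hg : g ∈ Subgroup.closure ({ModularGroup.S, ModularGroup.T} :
      Set (Matrix.SpecialLinearGroup (Fin 2) ℤ)) := by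
    rw [SpecialLinearGroup.SL2Z_generators]; trivial
  refine Subgroup.closure_induction'' 
    (p := fun (g : Matrix.SpecialLinearGroup (Fin 2) ℤ) _ => ∃ r : M2, IsNN r ∧ Cg K r (g : M2))
    ?_ ?_ ?_ ?_ hg
  · intro x hx
    rcases hx with rfl | hx
    · refine ⟨!![(K : ℤ), K ^ 2 - 1; 1, K], ⟨?_, ?_⟩, ?_⟩
      · intro i j
        fin_cases i <;> fin_cases j <;> simp <;> nlinarith
      · simp; ring
      · intro i j
        rw [ModularGroup.coe_S]
        fin_cases i <;> fin_cases j <;> simp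
    · rw [Set.mem_singleton_iff] at hx
      subst hx
      refine ⟨!![1, 1; 0, 1], ⟨?_, ?_⟩, ?_⟩
      · intro i j
        fin_cases i <;> fin_cases j <;> simp
      · simp
      · intro i j
        rw [ModularGroup.coe_T]
        simp
  · intro x hx
    rcases hx with rfl | hx
    · refine ⟨!![(K : ℤ), 1; K ^ 2 - 1, K], ⟨?_, ?_⟩, ?_⟩
      · intro i j
        fin_cases i <;> fin_cases j <;> simp <;> nlinarith
      · simp; ring
      · intro i j
        rw [Matrix.SpecialLinearGroup.coe_inv, ModularGroup.coe_S, Matrix.adjugate_fin_two]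
        fin_cases i <;> fin_cases j <;> simp
    · rw [Set.mem_singleton_iff] at hx
      subst hx
      refine ⟨!![1, (K : ℤ) - 1; 0, 1], ⟨?_, ?_⟩, ?_⟩
      · intro i j
        fin_cases i <;> fin_cases j <;> simp <;> linarith
      · simp
      · intro i j
        rw [ModularGroup.coe_T_inv]
        fin_cases i <;> fin_cases j <;> simp
  · refine ⟨1, ⟨?_, ?_⟩, ?_⟩
    · intro i j
      fin_cases i <;> fin_cases j <;> simp
    · simp
    · intro i j
      simp
  · rintro x y - - ⟨r, hr, hr'⟩ ⟨s, hs, hs'⟩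
    refine ⟨r * s, rk_nn_mul hr hs, ?_⟩
    rw [Matrix.SpecialLinearGroup.coe_mul]
    exact rk_cg_mul hr' hs'

theorem exists_nn (K : ℕ) (hK : 1 ≤ K) : ∃ R : ℕ, 1 ≤ R ∧ ∀ g : M2,
    g 0 0 * g 1 1 - g 0 1 * g 1 0 = 1 → ∃ r : M2, IsNN r ∧ Cg K r g ∧ ∀ i j, r i j ≤ R := by
  classical
  have : NeZero K := ⟨by omega⟩
  have key : ∀ q : Matrix (Fin 2) (Fin 2) (ZMod K), ∃ R : ℕ, ∀ g : M2,
      g 0 0 * g 1 1 - g 0 1 * g 1 0 = 1 → (∀ i j, ((g i j : ℤ) : ZMod K) = q i j) →
      ∃ r : M2, IsNN r ∧ Cg K r g ∧ ∀ i j, r i j ≤ R := by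
    intro q
    by_cases h : ∃ g : M2, g 0 0 * g 1 1 - g 0 1 * g 1 0 = 1 ∧
        ∀ i j, ((g i j : ℤ) : ZMod K) = q i j
    · obtain ⟨g0, hg0, hq0⟩ := h
      obtain ⟨r, hr, hc⟩ := rk_ex K hK ⟨g0, by rw [Matrix.det_fin_two]; exact hg0⟩
      refine ⟨(∑ i, ∑ j, r i j).toNat, fun g _ hq => ⟨r, hr, ?_, ?_⟩⟩
      · intro i j
        have h1 : (K : ℤ) ∣ r i j - g0 i j := hc i j
        have h2 : (K : ℤ) ∣ g0 i j - g i j := by
          rw [← ZMod.intCast_eq_intCast_iff_dvd_sub, hq i j, hq0 i j]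
        have h3 := dvd_add h1 h2
        have e : r i j - g0 i j + (g0 i j - g i j) = r i j - g i j := by ring
        rwa [e] at h3
      · intro i j
        have h1 : r i j ≤ ∑ i, ∑ j, r i j := by
          calc r i j ≤ ∑ j, r i j :=
                Finset.single_le_sum (f := fun j => r i j) (fun j _ => hr.1 i j) (Finset.mem_univ j)
            _ ≤ ∑ i, ∑ j, r i j :=
                Finset.single_le_sum (f := fun i => ∑ j, r i j)
                  (fun i _ => Finset.sum_nonneg fun j _ => hr.1 i j) (Finset.mem_univ i)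
        exact h1.trans (Int.self_le_toNat _)
    · refine ⟨0, fun g hg hq => absurd ⟨g, hg, hq⟩ h⟩
  choose R hR using key
  refine ⟨1 + ∑ q, R q, by omega, fun g hg => ?_⟩
  obtain ⟨r, hr, hc, hb⟩ := hR (fun i j => ((g i j : ℤ) : ZMod K)) g hg (fun i j => rfl)
  refine ⟨r, hr, hc, fun i j => (hb i j).trans ?_⟩
  have h1 : R (fun i j => ((g i j : ℤ) : ZMod K)) ≤ ∑ q, R q :=
    Finset.single_le_sum (f := R) (fun q _ => Nat.zero_le _)
      (Finset.mem_univ (fun i j => ((g i j : ℤ) : ZMod K)))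
  push_cast
  have h2 : ((R (fun i j => ((g i j : ℤ) : ZMod K)) : ℕ) : ℤ) ≤ ((∑ q, R q : ℕ) : ℤ) := by
    exact_mod_cast h1
  push_cast at h2
  linarith

end Pool.Agent.CQF
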