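import Pool.Agent.CQF.Lm

set_option autoImplicit false

/-!
# Module Sa (size 5): reduced bases of the lattices `Λ = {(e, f) : e ≡ θ f mod p}`

`θ² ≡ D` mod `p`, `p` prime, `D` not a square. For nonzero `β ∈ Λ`: `p ∣ nf D β ≠ 0`, so `(1 + |D|) |β|² ≥ p` (sup norm `|β|`).
* A nonzero vector with `|β| ≤ √p` exists (pigeonhole: the `(⌊√p⌋+1)² > p` pairs; see `thue` in
  `Pool/Agent/LogPar/PrimeEl.lean` on main).
* Let `β1` be a nonzero vector of `Λ` with minimal `β10² + β11²`; it is primitive in `Λ`. Choose `β2 ∈ Λ` with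
  `det (β1, β2) = ± p` (complete `β1` to a basis of `Λ`: `Λ` has the basis `(θ, 1), (p, 0)`, coordinates of `β1` in this
  basis are coprime by minimality; Bezout), sign `+` after replacing `β2` by `-β2`, and reduce `β2` modulo `β1`:
  `|β2 · β1| ≤ |β1|²/2` (Euclidean). Then `|β2|² |β1|² = p² + (β1 · β2)² ≤ p² + |β1|⁴/4`, and with
  `p/(1+|D|) ≤ |β1|² ≤ 2 p`: `|β2|² ≤ (1 + |D|) p + p/2`.
* every `v ∈ Λ` is an integer combination of `β1, β2` (they are a basis; or by Cramer: the determinants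
  `det (v, β2)`, `det (β1, v)` are divisible by `p` for vectors of `Λ`).
-/

open Matrix

namespace Pool.Agent.CQF

private theorem Sa_thue {p : ℕ} (hp : p.Prime) (θ : ℤ) :
    ∃ e f : ℤ, ¬ (e = 0 ∧ f = 0) ∧ e ^ 2 ≤ p ∧ f ^ 2 ≤ p ∧ (p : ℤ) ∣ e - θ * f := by
  have : Fact p.Prime := ⟨hp⟩
  obtain ⟨s, hs⟩ : ∃ s : ℕ, s = Nat.sqrt p := ⟨_, rfl⟩
  have hs1 : s * s ≤ p := by rw [hs]; exact Nat.sqrt_le _
  have hs2 : p < (s + 1) * (s + 1) := by rw [hs]; exact Nat.lt_succ_sqrt _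
  obtain ⟨a, ha, b, hb, hab, he⟩ := Finset.exists_ne_map_eq_of_card_lt_of_maps_to
    (s := Finset.range (s + 1) ×ˢ Finset.range (s + 1)) (t := (Finset.univ : Finset (ZMod p)))
    (f := fun x : ℕ × ℕ => ((x.1 : ZMod p) - x.2 * (θ : ZMod p)))
    (by rw [Finset.card_product, Finset.card_range, Finset.card_univ, ZMod.card]; exact hs2)
    (fun x _ => Finset.mem_coe.2 (Finset.mem_univ _))
  rw [Finset.mem_product, Finset.mem_range, Finset.mem_range] at ha hb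
  have hsq : ∀ x y : ℕ, x < s + 1 → y < s + 1 → ((x : ℤ) - y) ^ 2 ≤ p := by
    intro x y hx hy
    have h1 : |((x : ℤ) - y)| ≤ s := by rw [abs_le]; constructor <;> omega
    calc ((x : ℤ) - y) ^ 2 = |((x : ℤ) - y)| ^ 2 := (sq_abs _).symm
      _ ≤ (s : ℤ) ^ 2 := pow_le_pow_left₀ (abs_nonneg _) h1 2
      _ = ((s * s : ℕ) : ℤ) := by push_cast; ring
      _ ≤ p := by exact_mod_cast hs1
  refine ⟨(a.1 : ℤ) - b.1, (a.2 : ℤ) - b.2, ?_, hsq _ _ ha.1 hb.1, hsq _ _ ha.2 hb.2, ?_⟩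
  · rintro ⟨h1, h2⟩
    apply hab
    ext <;> omega
  · rw [← ZMod.intCast_zmod_eq_zero_iff_dvd]
    push_cast
    linear_combination he

private theorem Sa_min {p : ℕ} (hp : p.Prime) (θ : ℤ) :
    ∃ e f : ℤ, ¬ (e = 0 ∧ f = 0) ∧ (p : ℤ) ∣ e - θ * f ∧ e ^ 2 + f ^ 2 ≤ 2 * p ∧
      ∀ e' f' : ℤ, ¬ (e' = 0 ∧ f' = 0) → (p : ℤ) ∣ e' - θ * f' →
        e ^ 2 + f ^ 2 ≤ e' ^ 2 + f' ^ 2 := by
  classical
  obtain ⟨e0, f0, h1, h2, h3, h4⟩ := Sa_thue hp θ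
  have hex : ∃ n : ℕ, ∃ e f : ℤ, ¬ (e = 0 ∧ f = 0) ∧ (p : ℤ) ∣ e - θ * f ∧
      e ^ 2 + f ^ 2 = n :=
    ⟨(e0 ^ 2 + f0 ^ 2).toNat, e0, f0, h1, h4, (Int.toNat_of_nonneg (by positivity)).symm⟩
  have hmin : ∀ e' f' : ℤ, ¬ (e' = 0 ∧ f' = 0) → (p : ℤ) ∣ e' - θ * f' →
      (Nat.find hex : ℤ) ≤ e' ^ 2 + f' ^ 2 := by
    intro e' f' h5 h6
    have h7 := Nat.find_min' hex ⟨e', f', h5, h6,
      (Int.toNat_of_nonneg (by positivity : (0 : ℤ) ≤ e' ^ 2 + f' ^ 2)).symm⟩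
    have h8 : (0 : ℤ) ≤ e' ^ 2 + f' ^ 2 := by positivity
    omega
  obtain ⟨e, f, h5, h6, h7⟩ := Nat.find_spec hex
  refine ⟨e, f, h5, h6, ?_, ?_⟩
  · rw [h7]
    have := hmin e0 f0 h1 h4
    linarith
  · intro e' f' h8 h9
    rw [h7]
    exact hmin e' f' h8 h9

theorem red_basis (D : ℤ) (hD : ¬ IsSquare D) : ∃ C : ℝ, 1 ≤ C ∧ ∀ p : ℕ, p.Prime → ∀ θ : ℤ,
    (p : ℤ) ∣ θ ^ 2 - D → ∃ b1 b2 : Fin 2 → ℤ,
      b1 0 * b2 1 - b1 1 * b2 0 = p ∧ (p : ℤ) ∣ b1 0 - θ * b1 1 ∧ (p : ℤ) ∣ b2 0 - θ * b2 1 ∧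
      (∀ j, |(b1 j : ℝ)| ≤ C * √p ∧ |(b2 j : ℝ)| ≤ C * √p) ∧
      ∀ v : Fin 2 → ℤ, (p : ℤ) ∣ v 0 - θ * v 1 → ∃ x y : ℤ, v = x • b1 + y • b2 := by
  refine ⟨√(3 + |(D : ℝ)|), ?_, ?_⟩
  · rw [Real.one_le_sqrt]
    have := abs_nonneg (D : ℝ)
    linarith
  intro p hp θ hθ
  have hp0 : (0 : ℤ) < p := by exact_mod_cast hp.pos
  obtain ⟨e, f, hne, hd, hN2, hmin⟩ := Sa_min hp θ
  obtain ⟨N, hN⟩ : ∃ N : ℤ, N = e ^ 2 + f ^ 2 := ⟨_, rfl⟩
  have hN0 : 0 < N := by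
    rw [hN]
    rcases eq_or_ne e 0 with h | h
    · have hf : f ≠ 0 := fun h' => hne ⟨h, h'⟩
      positivity
    · positivity
  -- the lower bound
  have hlow : (p : ℤ) ≤ (1 + |D|) * N := by
    have hv : (![e, f] : Fin 2 → ℤ) ≠ 0 := by
      intro h
      exact hne ⟨congrFun h 0, congrFun h 1⟩
    have h1 := nf_ne hD hv
    simp only [nf, Matrix.cons_val_zero, Matrix.cons_val_one, Matrix.cons_val_fin_one] at h1
    have h2 : (p : ℤ) ∣ e ^ 2 - D * f ^ 2 := by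
      have h3 : e ^ 2 - D * f ^ 2 = (e - θ * f) * (e + θ * f) + (θ ^ 2 - D) * f ^ 2 := by ring
      rw [h3]
      exact dvd_add (hd.mul_right _) (hθ.mul_right _)
    have h3 := Int.le_of_dvd (abs_pos.2 h1) ((dvd_abs _ _).2 h2)
    have h4 : |e ^ 2 - D * f ^ 2| ≤ e ^ 2 + |D| * f ^ 2 := by
      have h5 : |e ^ 2 - D * f ^ 2| ≤ |e ^ 2| + |D * f ^ 2| := abs_sub _ _
      rw [abs_mul, abs_of_nonneg (sq_nonneg e), abs_of_nonneg (sq_nonneg f)] at h5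
      exact h5
    have h6 : (1 + |D|) * N = e ^ 2 + |D| * f ^ 2 + (f ^ 2 + |D| * e ^ 2) := by rw [hN]; ring
    have h7 : 0 ≤ f ^ 2 + |D| * e ^ 2 := by positivity
    linarith
  have hd' : (p : ℤ) ∣ e - θ * f := hd
  obtain ⟨y0, hy0⟩ := hd
  have he : e = θ * f + p * y0 := by linarith
  -- primitive
  have hcop : IsCoprime f y0 := by
    rw [Int.isCoprime_iff_gcd_eq_one]
    have hg0 : Int.gcd f y0 ≠ 0 := by
      intro h
      rw [Int.gcd_eq_zero_iff] at h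
      apply hne
      refine ⟨?_, h.1⟩
      rw [he, h.1, h.2]; ring
    obtain ⟨g, hg⟩ : ∃ g : ℕ, g = Int.gcd f y0 := ⟨_, rfl⟩
    rw [← hg] at hg0 ⊢
    obtain ⟨f', hf'⟩ : (g : ℤ) ∣ f := by rw [hg]; exact Int.gcd_dvd_left _ _
    obtain ⟨y', hy'⟩ : (g : ℤ) ∣ y0 := by rw [hg]; exact Int.gcd_dvd_right _ _
    have he' : e = g * (θ * f' + p * y') := by rw [he, hf', hy']; ring
    have hne' : ¬ (θ * f' + p * y' = 0 ∧ f' = 0) := by
      rintro ⟨h1, h2⟩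
      apply hne
      exact ⟨by rw [he', h1, mul_zero], by rw [hf', h2, mul_zero]⟩
    have h1 := hmin (θ * f' + p * y') f' hne' ⟨y', by ring⟩
    have h2 : e ^ 2 + f ^ 2 = (g : ℤ) ^ 2 * ((θ * f' + p * y') ^ 2 + f' ^ 2) := by
      rw [he', hf']; ring
    rw [← hN] at h1 h2
    have h3 : 0 < (θ * f' + p * y') ^ 2 + f' ^ 2 := by linarith
    rw [h2] at h1
    have h4 : (g : ℤ) ^ 2 ≤ 1 := by
      by_contra hcon
      push Not at hcon
      nlinarith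
    have h5 : (g : ℤ) ≤ 1 := by
      by_contra hcon
      push Not at hcon
      nlinarith
    omega
  obtain ⟨u, w, huw⟩ := hcop
  obtain ⟨m, hm⟩ : ∃ m : ℤ, m = ((w * θ - u * p) * e + w * f) / N := ⟨_, rfl⟩
  obtain ⟨r0, hr0⟩ : ∃ r : ℤ, r = w * θ - u * p - m * e := ⟨_, rfl⟩
  obtain ⟨r1, hr1⟩ : ∃ r : ℤ, r = w - m * f := ⟨_, rfl⟩
  have hdet : e * r1 - f * r0 = p := by
    rw [hr0, hr1]
    linear_combination w * he + (p : ℤ) * huw
  have hr : (p : ℤ) ∣ r0 - θ * r1 := ⟨-u - m * y0, by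
    rw [hr0, hr1]
    linear_combination (-m) * he⟩
  have hdot : 0 ≤ r0 * e + r1 * f ∧ r0 * e + r1 * f < N := by
    have h1 : r0 * e + r1 * f = ((w * θ - u * p) * e + w * f) % N := by
      rw [Int.emod_def, ← hm, hr0, hr1, hN]; ring
    rw [h1]
    exact ⟨Int.emod_nonneg _ hN0.ne', Int.emod_lt_of_pos _ hN0⟩
  have hlag : (r0 ^ 2 + r1 ^ 2) * N = p ^ 2 + (r0 * e + r1 * f) ^ 2 := by
    rw [hN, ← hdet]; ring
  have hb2 : r0 ^ 2 + r1 ^ 2 ≤ (3 + |D|) * p := by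
    have h1 : (r0 * e + r1 * f) ^ 2 ≤ N * (2 * p) := by
      have h2 : (r0 * e + r1 * f) ^ 2 ≤ N * N := by nlinarith [hdot.1, hdot.2]
      have h3 : N * N ≤ N * (2 * p) := by
        apply mul_le_mul_of_nonneg_left _ hN0.le
        rw [hN]; exact hN2
      linarith
    have h4 : (p : ℤ) ^ 2 ≤ (1 + |D|) * N * p := by
      rw [sq]; exact mul_le_mul_of_nonneg_right hlow hp0.le
    have h5 : (r0 ^ 2 + r1 ^ 2) * N ≤ ((3 + |D|) * p) * N := by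
      rw [hlag]; linarith
    exact le_of_mul_le_mul_right h5 hN0
  have hb1 : e ^ 2 + f ^ 2 ≤ (3 + |D|) * p := by
    have : 0 ≤ (1 + |D|) * p := by positivity
    linarith
  have key : ∀ a b : ℤ, a ^ 2 + b ^ 2 ≤ (3 + |D|) * p →
      |(a : ℝ)| ≤ √(3 + |(D : ℝ)|) * √p ∧ |(b : ℝ)| ≤ √(3 + |(D : ℝ)|) * √p := by
    intro a b hab
    have h0 : (0 : ℝ) ≤ 3 + |(D : ℝ)| := by positivity
    rw [← Real.sqrt_mul h0]
    have h1 : ((a : ℝ)) ^ 2 + (b : ℝ) ^ 2 ≤ (3 + |(D : ℝ)|) * p := by exact_mod_cast hab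
    constructor
    · apply Real.abs_le_sqrt
      have := sq_nonneg (b : ℝ)
      linarith
    · apply Real.abs_le_sqrt
      have := sq_nonneg (a : ℝ)
      linarith
  refine ⟨![e, f], ![r0, r1], ?_, ?_, ?_, ?_, ?_⟩
  · simpa using hdet
  · simpa using hd'
  · simpa using hr
  · intro j
    have k1 := key e f hb1
    have k2 := key r0 r1 hb2
    fin_cases j
    · exact ⟨k1.1, k2.1⟩
    · exact ⟨k1.2, k2.2⟩
  · intro v hv
    obtain ⟨x, hx⟩ : (p : ℤ) ∣ v 0 * r1 - v 1 * r0 := by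
      have : v 0 * r1 - v 1 * r0 = (v 0 - θ * v 1) * r1 - v 1 * (r0 - θ * r1) := by ring
      rw [this]
      exact dvd_sub (hv.mul_right _) (hr.mul_left _)
    obtain ⟨y, hy⟩ : (p : ℤ) ∣ e * v 1 - f * v 0 := by
      have : e * v 1 - f * v 0 = (e - θ * f) * v 1 - f * (v 0 - θ * v 1) := by ring
      rw [this]
      exact dvd_sub (hd'.mul_right _) (hv.mul_left _)
    refine ⟨x, y, ?_⟩
    ext j
    fin_cases j
    · have h1 : (p : ℤ) * v 0 = p * (x * e + y * r0) := by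
        linear_combination (-v 0) * hdet + e * hx + r0 * hy
      simpa using mul_left_cancel₀ hp0.ne' h1
    · have h1 : (p : ℤ) * v 1 = p * (x * f + y * r1) := by
        linear_combination (-v 1) * hdet + f * hx + r1 * hy
      simpa using mul_left_cancel₀ hp0.ne' h1

end Pool.Agent.CQF
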