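import Pool.Agent.CQF.Lm

set_option autoImplicit false

/-!
# Module Sb (size 4): values of binary forms with `lam = 1` in a residue class

`q(x, y) = A x² + B x y + C y²`, `B² - 4AC = 4D`, `D` not a square, `q` takes a positive value, `q(x0, y0)` is coprime
to `K0`. Claim: there are `x ≡ x0`, `y ≡ y0` mod `K0`, coprime, with `q(x, y) > 0` and `lam (q(x, y)) = 1`.
* First let `A > 0`. Choose `y1 ≡ y0` mod `K0`, `y1 > 0`. A prime `ℓ` dividing `K0` and `y1` (hence `y0`) does not divide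
  `x0` (otherwise `ℓ ∣ q(x0, y0)`). Let `t0` be the product of the primes dividing `y1` but not `x0`; then
  `x1 = x0 + K0 t0` is coprime to `y1` (`ℓ ∣ y1`: if `ℓ ∣ x0` then `ℓ ∤ K0`, `ℓ ∤ t0`; if `ℓ ∤ x0` then `ℓ ∣ t0`).
  For `n : ℕ` put `x = x1 + K0 y1 n` (coprime to `y1`): `q(x, y1)` is a quadratic polynomial in `n` with leading coefficient
  `A (K0 y1)² ≠ 0` and discriminant `(K0 y1)² · y1² · 4 D`, not a square (`D` is not). By `AllQ` (`N = 1`, `e = 1`) there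
  are arbitrarily large `n` with `lam = 1`, and for `n` large the value is positive.
* General case: let `q(u1, u2) > 0`, `(u1, u2)` primitive (divide by the gcd). Choose `(w1, w2)` with
  `u1 w2 - u2 w1 = 1` and substitute `(x, y) = X (u1, u2) + Y (w1, w2)`: a form with the same discriminant and leading coefficient
  `q(u1, u2) > 0`; coprimality and congruences are preserved (unimodular substitution).
-/

open Matrix

namespace Pool.Agent.CQF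

private theorem sb_cop (x0 K y : ℤ) (hy : y ≠ 0)
    (h : ∀ l : ℕ, l.Prime → (l : ℤ) ∣ K → (l : ℤ) ∣ y → ¬ (l : ℤ) ∣ x0) :
    ∃ t : ℤ, IsCoprime (x0 + K * t) y := by
  classical
  set S := y.natAbs.primeFactors.filter (fun l : ℕ => ¬ (l : ℤ) ∣ x0) with hS
  refine ⟨((∏ l ∈ S, l : ℕ) : ℤ), ?_⟩
  rw [Int.isCoprime_iff_gcd_eq_one]
  by_contra hne
  obtain ⟨l, hl, h1, h2⟩ := Nat.Prime.not_coprime_iff_dvd.1 hne
  have h1' : (l : ℤ) ∣ x0 + K * ((∏ l ∈ S, l : ℕ) : ℤ) := Int.natCast_dvd.2 h1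
  have h2' : (l : ℤ) ∣ y := Int.natCast_dvd.2 h2
  have hlp : Prime (l : ℤ) := Nat.prime_iff_prime_int.1 hl
  by_cases hx : (l : ℤ) ∣ x0
  · have h3 : (l : ℤ) ∣ K * ((∏ l ∈ S, l : ℕ) : ℤ) := (dvd_add_right hx).1 h1'
    rcases hlp.dvd_or_dvd h3 with h4 | h4
    · exact h l hl h4 h2' hx
    · have h5 : l ∣ ∏ l ∈ S, l := Int.natCast_dvd_natCast.1 h4
      obtain ⟨q, hq, hq'⟩ := (hl.prime.dvd_finsetProd_iff _).1 h5
      rw [hS, Finset.mem_filter] at hq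
      have hqp : q.Prime := Nat.prime_of_mem_primeFactors hq.1
      rw [(Nat.prime_dvd_prime_iff_eq hl hqp).1 hq'] at hx
      exact hq.2 hx
  · have h4 : l ∈ S := by
      rw [hS, Finset.mem_filter, Nat.mem_primeFactors]
      exact ⟨⟨hl, h2, Int.natAbs_ne_zero.2 hy⟩, hx⟩
    have h5 : (l : ℤ) ∣ ((∏ l ∈ S, l : ℕ) : ℤ) :=
      Int.natCast_dvd_natCast.2 (Finset.dvd_prod_of_mem _ h4)
    exact hx ((dvd_add_left (h5.mul_left K)).1 h1')

private theorem sb_sq {D m : ℤ} (hD : ¬ IsSquare D) (hm : m ≠ 0) : ¬ IsSquare (m ^ 2 * D) := by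
  rintro ⟨r, hr⟩
  have h1 : m ^ 2 ∣ r ^ 2 := ⟨D, by rw [hr]; ring⟩
  obtain ⟨k, hk⟩ := (Int.pow_dvd_pow_iff (by norm_num)).1 h1
  apply hD
  refine ⟨k, ?_⟩
  have h2 : m ^ 2 * D = m ^ 2 * (k * k) := by rw [hr, hk]; ring
  exact mul_left_cancel₀ (pow_ne_zero 2 hm) h2

private theorem sb_pos (hQ : AllQ) (D : ℤ) (hD : ¬ IsSquare D) (A B C : ℤ)
    (hd : B ^ 2 - 4 * A * C = 4 * D) (hA : 0 < A)
    (K0 : ℕ) (hK : 1 ≤ K0) (x0 y0 : ℤ)
    (hc : IsCoprime (A * x0 ^ 2 + B * x0 * y0 + C * y0 ^ 2) (K0 : ℤ)) :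
    ∃ x y : ℤ, (K0 : ℤ) ∣ x - x0 ∧ (K0 : ℤ) ∣ y - y0 ∧ IsCoprime x y ∧
      0 < A * x ^ 2 + B * x * y + C * y ^ 2 ∧ lam (A * x ^ 2 + B * x * y + C * y ^ 2) = 1 := by
  have hK' : (1 : ℤ) ≤ K0 := by exact_mod_cast hK
  set y1 : ℤ := y0 + K0 * (|y0| + 1) with hy1
  have hy1p : 0 < y1 := by
    have h1 : |y0| + 1 ≤ K0 * (|y0| + 1) := by
      have : 0 ≤ |y0| + 1 := by positivity
      nlinarith
    have h2 := neg_abs_le y0
    rw [hy1]
    linarith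
  obtain ⟨t, ht⟩ := sb_cop x0 K0 y1 hy1p.ne' (by
    intro l hl h1 h2 h3
    have h4 : (l : ℤ) ∣ y0 := by
      rw [hy1] at h2
      exact (dvd_add_left (h1.mul_right _)).1 h2
    have h5 : (l : ℤ) ∣ A * x0 ^ 2 + B * x0 * y0 + C * y0 ^ 2 := by
      obtain ⟨a, ha⟩ := h3
      obtain ⟨b, hb⟩ := h4
      refine ⟨A * a * x0 + B * a * y0 + C * b * y0, ?_⟩
      linear_combination (A * x0 + B * y0) * ha + C * y0 * hb
    exact (Nat.prime_iff_prime_int.1 hl).not_isUnit (hc.isUnit_of_dvd' h5 h1))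
  set x1 : ℤ := x0 + K0 * t with hx1
  set a : ℤ := A * (K0 * y1) ^ 2 with ha
  set b : ℤ := 2 * A * x1 * K0 * y1 + B * K0 * y1 ^ 2 with hb
  set c : ℤ := A * x1 ^ 2 + B * x1 * y1 + C * y1 ^ 2 with hc'
  have hKy : 0 < (K0 : ℤ) * y1 := by positivity
  have ha1 : 1 ≤ a := by
    have : 0 < a := by rw [ha]; positivity
    exact this
  have hdisc : b ^ 2 - 4 * a * c = (2 * K0 * y1 ^ 2) ^ 2 * D := by
    rw [ha, hb, hc']
    linear_combination (K0 * y1 ^ 2 : ℤ) ^ 2 * hd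
  have hns : ¬ IsSquare (b ^ 2 - 4 * a * c) := by
    rw [hdisc]
    exact sb_sq hD (by positivity)
  obtain ⟨n, hn, _, hl⟩ := hQ a b c (by omega) hns 1 0 one_pos 1 (Or.inl rfl)
    (b.natAbs + c.natAbs + 1)
  have heq : A * (x1 + K0 * y1 * n) ^ 2 + B * (x1 + K0 * y1 * n) * y1 + C * y1 ^ 2 =
      a * (n : ℤ) ^ 2 + b * n + c := by
    rw [ha, hb, hc']
    ring
  refine ⟨x1 + K0 * y1 * n, y1, ?_, ?_, ?_, ?_, ?_⟩
  · refine ⟨t + y1 * n, ?_⟩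
    rw [hx1]
    ring
  · exact ⟨|y0| + 1, by rw [hy1]; ring⟩
  · have h1 : x1 + K0 * y1 * n = x1 + y1 * (K0 * n) := by ring
    rw [h1]
    exact IsCoprime.add_mul_left_left ht (K0 * n)
  · rw [heq]
    have hn' : |b| + |c| + 1 ≤ (n : ℤ) := by
      have : ((b.natAbs + c.natAbs + 1 : ℕ) : ℤ) ≤ n := by exact_mod_cast hn
      push_cast at this
      simpa using this
    have hb1 := neg_abs_le b
    have hc1 := neg_abs_le c
    have hb0 := abs_nonneg b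
    have hc0 := abs_nonneg c
    nlinarith [mul_nonneg (show (0 : ℤ) ≤ (n : ℤ) by positivity)
      (show (0 : ℤ) ≤ n - |b| - |c| - 1 by linarith), mul_nonneg (show (0 : ℤ) ≤ a - 1 by linarith)
      (sq_nonneg (n : ℤ)), mul_nonneg (show (0 : ℤ) ≤ (n : ℤ) by positivity)
      (show (0 : ℤ) ≤ b + |b| by linarith), mul_nonneg hc0 (show (0 : ℤ) ≤ (n : ℤ) - 1 by linarith)]
  · rw [heq]
    exact hl

theorem forms_value (hQ : AllQ) (D : ℤ) (hD : ¬ IsSquare D) (A B C : ℤ)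
    (hd : B ^ 2 - 4 * A * C = 4 * D) (hpos : ∃ x y : ℤ, 0 < A * x ^ 2 + B * x * y + C * y ^ 2)
    (K0 : ℕ) (hK : 1 ≤ K0) (x0 y0 : ℤ)
    (hc : IsCoprime (A * x0 ^ 2 + B * x0 * y0 + C * y0 ^ 2) (K0 : ℤ)) :
    ∃ x y : ℤ, (K0 : ℤ) ∣ x - x0 ∧ (K0 : ℤ) ∣ y - y0 ∧ Int.gcd x y = 1 ∧
      0 < A * x ^ 2 + B * x * y + C * y ^ 2 ∧ lam (A * x ^ 2 + B * x * y + C * y ^ 2) = 1 := by
  obtain ⟨u, v, huv⟩ := hpos
  have hg : 0 < Int.gcd u v := by
    rcases Nat.eq_zero_or_pos (Int.gcd u v) with h | h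
    · rw [Int.gcd_eq_zero_iff] at h
      rw [h.1, h.2] at huv
      simp at huv
    · exact h
  obtain ⟨u1, hu1⟩ : (Int.gcd u v : ℤ) ∣ u := Int.gcd_dvd_left ..
  obtain ⟨u2, hu2⟩ : (Int.gcd u v : ℤ) ∣ v := Int.gcd_dvd_right ..
  set g : ℤ := (Int.gcd u v : ℤ) with hgdef
  have hg' : 0 < g := Int.natCast_pos.2 hg
  have hbez : g * (u1 * Int.gcdA u v + u2 * Int.gcdB u v) = g * 1 := by
    have h1 := Int.gcd_eq_gcd_ab u v
    calc g * (u1 * Int.gcdA u v + u2 * Int.gcdB u v)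
        = (g * u1) * Int.gcdA u v + (g * u2) * Int.gcdB u v := by ring
      _ = u * Int.gcdA u v + v * Int.gcdB u v := by rw [← hu1, ← hu2]
      _ = g * 1 := by rw [← h1, mul_one]
  have hbez' := mul_left_cancel₀ hg'.ne' hbez
  set w2 : ℤ := Int.gcdA u v with hw2
  set w1 : ℤ := -Int.gcdB u v with hw1
  have hdet : u1 * w2 - u2 * w1 = 1 := by rw [hw1]; linarith
  have hpos' : 0 < A * u1 ^ 2 + B * u1 * u2 + C * u2 ^ 2 := by
    have h1 : A * u ^ 2 + B * u * v + C * v ^ 2 =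
        g ^ 2 * (A * u1 ^ 2 + B * u1 * u2 + C * u2 ^ 2) := by
      rw [hu1, hu2]; ring
    rw [h1] at huv
    exact (mul_pos_iff_of_pos_left (by positivity)).1 huv
  obtain ⟨X, Y, hX, hY, hXY, hp, hl⟩ := sb_pos hQ D hD
    (A * u1 ^ 2 + B * u1 * u2 + C * u2 ^ 2)
    (2 * A * u1 * w1 + B * (u1 * w2 + u2 * w1) + 2 * C * u2 * w2)
    (A * w1 ^ 2 + B * w1 * w2 + C * w2 ^ 2)
    (by
      have h1 : (2 * A * u1 * w1 + B * (u1 * w2 + u2 * w1) + 2 * C * u2 * w2) ^ 2 -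
          4 * (A * u1 ^ 2 + B * u1 * u2 + C * u2 ^ 2) * (A * w1 ^ 2 + B * w1 * w2 + C * w2 ^ 2) =
          (B ^ 2 - 4 * A * C) * (u1 * w2 - u2 * w1) ^ 2 := by ring
      rw [h1, hdet, hd]; ring) hpos' K0 hK (w2 * x0 - w1 * y0) (-u2 * x0 + u1 * y0)
    (by
      have h1 : (A * u1 ^ 2 + B * u1 * u2 + C * u2 ^ 2) * (w2 * x0 - w1 * y0) ^ 2 +
          (2 * A * u1 * w1 + B * (u1 * w2 + u2 * w1) + 2 * C * u2 * w2) *
            (w2 * x0 - w1 * y0) * (-u2 * x0 + u1 * y0) +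
          (A * w1 ^ 2 + B * w1 * w2 + C * w2 ^ 2) * (-u2 * x0 + u1 * y0) ^ 2 =
          (A * x0 ^ 2 + B * x0 * y0 + C * y0 ^ 2) * (u1 * w2 - u2 * w1) ^ 2 := by ring
      rw [h1, hdet, one_pow, mul_one]
      exact hc)
  have hval : A * (X * u1 + Y * w1) ^ 2 + B * (X * u1 + Y * w1) * (X * u2 + Y * w2) +
      C * (X * u2 + Y * w2) ^ 2 = (A * u1 ^ 2 + B * u1 * u2 + C * u2 ^ 2) * X ^ 2 +
      (2 * A * u1 * w1 + B * (u1 * w2 + u2 * w1) + 2 * C * u2 * w2) * X * Y +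
      (A * w1 ^ 2 + B * w1 * w2 + C * w2 ^ 2) * Y ^ 2 := by ring
  refine ⟨X * u1 + Y * w1, X * u2 + Y * w2, ?_, ?_, ?_, ?_, ?_⟩
  · have h1 : X * u1 + Y * w1 - x0 = (X - (w2 * x0 - w1 * y0)) * u1 +
        (Y - (-u2 * x0 + u1 * y0)) * w1 := by linear_combination x0 * hdet
    rw [h1]
    exact dvd_add (hX.mul_right _) (hY.mul_right _)
  · have h1 : X * u2 + Y * w2 - y0 = (X - (w2 * x0 - w1 * y0)) * u2 +
        (Y - (-u2 * x0 + u1 * y0)) * w2 := by linear_combination y0 * hdet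
    rw [h1]
    exact dvd_add (hX.mul_right _) (hY.mul_right _)
  · rw [← Int.isCoprime_iff_gcd_eq_one]
    obtain ⟨a, b, hab⟩ := hXY
    refine ⟨a * w2 - b * u2, -a * w1 + b * u1, ?_⟩
    linear_combination hab + (a * X + b * Y) * hdet
  · rw [hval]
    exact hp
  · rw [hval]
    exact hl

end Pool.Agent.CQF
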