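import Pool.Agent.CQF.Sa
import Pool.Agent.CQF.Sb

set_option autoImplicit false

/-!
# Module Sc (size 4): prime elements

For a large prime `p` with `θ² ≡ D` mod `p` take the basis `b1, b2` of `red_basis`. The form
`q(x, y) = nf D (x b1 + y b2)/p = A x² + B x y + C' y²` has integer coefficients (`p ∣ nf b1`, `p ∣ nf b2`,
`p ∣ b10 b20 - D b11 b21 ≡ (θ² - D) b11 b21`, `B` is twice an integer), `B² - 4 A C' = 4 D (det/p)² = 4 D`, and coefficients bounded by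
a constant `C''(D)`. It takes a positive value: if `D < 0`, `A > 0` (`nf > 0`); if `D > 0`: `A ≠ 0` (`nf b1 ≠ 0`), and if `A < 0`,
`q(-B, 2A) = -A (B² - 4AC') = -4 A D > 0`.
`x0, y0 ∈ ℤ` with `x0 b1 + y0 b2 ≡ (1, 0)` mod `K0` exist since `det = p` is prime to `K0` (`p > K0`), may be taken in
`[0, K0)`; `p q(x0, y0) ≡ nf (1, 0) = 1` mod `K0`, so `q(x0, y0)` is coprime to `K0`. Let `(x, y)` be as in `forms_value`.
As there are finitely many triples `(A, B, C')` and pairs `(x0, y0)`, choose one `(x, y)` for each; this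
bounds `x, y` and `m = q(x, y) ≤ mb`. `ρ = x b1 + y b2`: `nf ρ = p m`, `ρ ≡ (1, 0)` mod `K0`, entries `≤ C √p`.
`gcd (ρ0, ρ1) = 1`: a prime `ℓ ≠ p` dividing both: `ρ/ℓ ∈ Λ` (`ℓ` is invertible mod `p`), so `ρ/ℓ` is an integer combination of `b1, b2`, and
`ℓ ∣ x, y`: contradiction (linear independence). `ℓ = p`: `p² ∣ nf ρ = p m`, `p ∣ m`, impossible for `p > mb`.
-/

open Matrix

namespace Pool.Agent.CQF

private theorem sc_fin (P : (ℤ × ℤ × ℤ × ℤ × ℤ) → ℤ → ℤ → Prop)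
    (S : Finset (ℤ × ℤ × ℤ × ℤ × ℤ)) :
    ∃ R : ℕ, ∀ s ∈ S, (∃ x y, P s x y) → ∃ x y, P s x y ∧ |x| ≤ R ∧ |y| ≤ R := by
  classical
  induction S using Finset.induction_on with
  | empty => exact ⟨0, fun s hs => absurd hs (Finset.notMem_empty s)⟩
  | insert s S _ ih =>
    obtain ⟨R, hR⟩ := ih
    by_cases h : ∃ x y, P s x y
    · obtain ⟨x, y, hxy⟩ := h
      refine ⟨R + x.natAbs + y.natAbs, fun t ht hex => ?_⟩
      rcases Finset.mem_insert.1 ht with rfl | ht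
      · refine ⟨x, y, hxy, ?_, ?_⟩
        · push_cast
          have := abs_nonneg y
          have : (0 : ℤ) ≤ R := by positivity
          linarith
        · push_cast
          have := abs_nonneg x
          have : (0 : ℤ) ≤ R := by positivity
          linarith
      · obtain ⟨x', y', h1, h2, h3⟩ := hR t ht hex
        refine ⟨x', y', h1, h2.trans ?_, h3.trans ?_⟩
        · push_cast
          have := abs_nonneg y
          have := abs_nonneg x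
          linarith
        · push_cast
          have := abs_nonneg y
          have := abs_nonneg x
          linarith
    · refine ⟨R, fun t ht hex => ?_⟩
      rcases Finset.mem_insert.1 ht with rfl | ht
      · exact absurd hex h
      · exact hR t ht hex

private theorem sc_abs {M : ℕ} {D p A e f g h : ℤ} {C : ℝ} (hM : 2 * (1 + |(D : ℝ)|) * C ^ 2 ≤ M)
    (hp : 0 < p) (hA : p * A = e * f - D * (g * h) ∨ p * A = 2 * (e * f - D * (g * h)))
    (he : |(e : ℝ)| ≤ C * √p) (hf : |(f : ℝ)| ≤ C * √p)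
    (hg : |(g : ℝ)| ≤ C * √p) (hh : |(h : ℝ)| ≤ C * √p) : |A| ≤ M := by
  have hpR : (0 : ℝ) < p := by exact_mod_cast hp
  have hsq : √(p : ℝ) * √p = p := Real.mul_self_sqrt hpR.le
  have hn : 0 ≤ C * √(p : ℝ) := (abs_nonneg _).trans he
  have h1 : |(e : ℝ) * f| ≤ C ^ 2 * p := by
    rw [abs_mul]
    calc |(e : ℝ)| * |(f : ℝ)| ≤ (C * √p) * (C * √p) :=
          mul_le_mul he hf (abs_nonneg _) hn
      _ = C ^ 2 * (√p * √p) := by ring
      _ = _ := by rw [hsq]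
  have h2 : |(g : ℝ) * h| ≤ C ^ 2 * p := by
    rw [abs_mul]
    calc |(g : ℝ)| * |(h : ℝ)| ≤ (C * √p) * (C * √p) :=
          mul_le_mul hg hh (abs_nonneg _) hn
      _ = C ^ 2 * (√p * √p) := by ring
      _ = _ := by rw [hsq]
  have h3 : |(e : ℝ) * f - D * (g * h)| ≤ (1 + |(D : ℝ)|) * C ^ 2 * p := by
    calc |(e : ℝ) * f - D * (g * h)| ≤ |(e : ℝ) * f| + |(D : ℝ) * (g * h)| := abs_sub _ _
      _ = |(e : ℝ) * f| + |(D : ℝ)| * |(g : ℝ) * h| := by rw [abs_mul (D : ℝ)]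
      _ ≤ C ^ 2 * p + |(D : ℝ)| * (C ^ 2 * p) := by
          gcongr
      _ = _ := by ring
  have h4 : (p : ℝ) * |(A : ℝ)| ≤ 2 * ((1 + |(D : ℝ)|) * C ^ 2 * p) := by
    rw [← abs_of_pos hpR, ← abs_mul, abs_of_pos hpR]
    have hnn : 0 ≤ |(e : ℝ) * f - D * (g * h)| := abs_nonneg _
    rcases hA with hA | hA
    · have h5 : (p : ℝ) * A = e * f - D * (g * h) := by exact_mod_cast hA
      rw [h5]
      linarith
    · have h5 : (p : ℝ) * A = 2 * (e * f - D * (g * h)) := by exact_mod_cast hA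
      rw [h5, abs_mul, abs_two]
      linarith
  have h5 : |(A : ℝ)| ≤ M := by
    refine le_trans ?_ hM
    have : (p : ℝ) * |(A : ℝ)| ≤ p * (2 * (1 + |(D : ℝ)|) * C ^ 2) := by
      refine h4.trans (le_of_eq ?_)
      ring
    exact le_of_mul_le_mul_left this hpR
  have h6 : ((|A| : ℤ) : ℝ) ≤ ((M : ℤ) : ℝ) := by
    rw [Int.cast_abs]
    exact_mod_cast h5
  exact_mod_cast h6

theorem elem (hQ : AllQ) (D : ℤ) (hD : ¬ IsSquare D) (K0 : ℕ) (hK : 1 ≤ K0) :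
    ∃ (mb p0 : ℕ) (C : ℝ), 1 ≤ C ∧ ∀ p : ℕ, p.Prime → p0 ≤ p → (∃ θ : ℤ, (p : ℤ) ∣ θ ^ 2 - D) →
      ∃ (m : ℕ) (ρ : Fin 2 → ℤ), 1 ≤ m ∧ m ≤ mb ∧ lam (m : ℤ) = 1 ∧ nf D ρ = (p : ℤ) * m ∧
        (K0 : ℤ) ∣ ρ 0 - 1 ∧ (K0 : ℤ) ∣ ρ 1 ∧ Prm ρ ∧ ∀ j, |(ρ j : ℝ)| ≤ C * √p := by
  obtain ⟨C0, hC0, hrb⟩ := red_basis D hD
  obtain ⟨M, hM⟩ := exists_nat_ge (2 * (1 + |(D : ℝ)|) * C0 ^ 2)
  obtain ⟨R, hR⟩ := sc_fin (fun s x y => (K0 : ℤ) ∣ x - s.2.2.2.1 ∧ (K0 : ℤ) ∣ y - s.2.2.2.2 ∧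
      Int.gcd x y = 1 ∧ 0 < s.1 * x ^ 2 + s.2.1 * x * y + s.2.2.1 * y ^ 2 ∧
      lam (s.1 * x ^ 2 + s.2.1 * x * y + s.2.2.1 * y ^ 2) = 1)
    (Finset.Icc (-(M : ℤ)) M ×ˢ Finset.Icc (-(M : ℤ)) M ×ˢ Finset.Icc (-(M : ℤ)) M ×ˢ
      Finset.Icc (0 : ℤ) K0 ×ˢ Finset.Icc (0 : ℤ) K0)
  refine ⟨3 * M * R ^ 2, max K0 (3 * M * R ^ 2) + 1, 2 * R * C0 + 1, ?_, ?_⟩
  · have : (0 : ℝ) ≤ 2 * R * C0 := by positivity
    linarith
  intro p hp hp0 ⟨θ, hθ⟩
  obtain ⟨b1, b2, hdet, hb1, hb2, hbd, hbas⟩ := hrb p hp θ hθ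
  have hpK : K0 < p := lt_of_le_of_lt (le_max_left _ _) (by omega : max K0 (3 * M * R ^ 2) < p)
  have hpm : 3 * M * R ^ 2 < p :=
    lt_of_le_of_lt (le_max_right _ _) (by omega : max K0 (3 * M * R ^ 2) < p)
  have hpZ : (0 : ℤ) < p := by exact_mod_cast hp.pos
  have hpp : Prime (p : ℤ) := Nat.prime_iff_prime_int.1 hp
  obtain ⟨k1, hk1⟩ := hb1
  obtain ⟨k2, hk2⟩ := hb2
  obtain ⟨k3, hk3⟩ := hθ
  -- the coefficients
  obtain ⟨A, hA⟩ : ∃ A : ℤ, p * A = b1 0 * b1 0 - D * (b1 1 * b1 1) :=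
    ⟨k1 * (b1 0 + θ * b1 1) + k3 * b1 1 ^ 2, by
      linear_combination (-(b1 0 + θ * b1 1)) * hk1 - b1 1 ^ 2 * hk3⟩
  obtain ⟨C', hC'⟩ : ∃ C' : ℤ, p * C' = b2 0 * b2 0 - D * (b2 1 * b2 1) :=
    ⟨k2 * (b2 0 + θ * b2 1) + k3 * b2 1 ^ 2, by
      linear_combination (-(b2 0 + θ * b2 1)) * hk2 - b2 1 ^ 2 * hk3⟩
  obtain ⟨B, hB⟩ : ∃ B : ℤ, p * B = 2 * (b1 0 * b2 0 - D * (b1 1 * b2 1)) :=
    ⟨2 * (k1 * b2 0 + θ * b1 1 * k2 + k3 * b1 1 * b2 1), by
      linear_combination (-2 * b2 0) * hk1 - 2 * θ * b1 1 * hk2 - 2 * b1 1 * b2 1 * hk3⟩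
  have hform : ∀ x y : ℤ, nf D (x • b1 + y • b2) = p * (A * x ^ 2 + B * x * y + C' * y ^ 2) := by
    intro x y
    simp only [nf, Pi.add_apply, Pi.smul_apply, smul_eq_mul]
    linear_combination (-x ^ 2) * hA - x * y * hB - y ^ 2 * hC'
  have hdisc : B ^ 2 - 4 * A * C' = 4 * D := by
    have h1 : (p : ℤ) ^ 2 * (B ^ 2 - 4 * A * C') = p ^ 2 * (4 * D) := by
      calc (p : ℤ) ^ 2 * (B ^ 2 - 4 * A * C') = (p * B) ^ 2 - 4 * (p * A) * (p * C') := by ring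
        _ = 4 * D * (b1 0 * b2 1 - b1 1 * b2 0) ^ 2 := by rw [hA, hB, hC']; ring
        _ = _ := by rw [hdet]; ring
    exact mul_left_cancel₀ (pow_ne_zero 2 hpZ.ne') h1
  have hb1ne : b1 ≠ 0 := by
    intro h
    rw [h] at hdet
    simp only [Pi.zero_apply, zero_mul, sub_zero] at hdet
    exact hpZ.ne hdet
  have hA0 : A ≠ 0 := by
    intro h
    apply nf_ne hD hb1ne
    simp only [nf]
    rw [h, mul_zero] at hA
    linarith
  have hpos : ∃ x y : ℤ, 0 < A * x ^ 2 + B * x * y + C' * y ^ 2 := by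
    rcases lt_or_gt_of_ne hA0 with h | h
    · refine ⟨-B, 2 * A, ?_⟩
      have h1 : A * (-B) ^ 2 + B * (-B) * (2 * A) + C' * (2 * A) ^ 2 =
          -A * (B ^ 2 - 4 * A * C') := by ring
      rw [h1, hdisc]
      have hD0 : 0 < D := by
        by_contra hD0
        have h2 : 0 ≤ b1 0 * b1 0 - D * (b1 1 * b1 1) := by
          have h3 := mul_self_nonneg (b1 0)
          have h4 : 0 ≤ -D * (b1 1 * b1 1) :=
            mul_nonneg (by linarith) (mul_self_nonneg _)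
          linarith
        rw [← hA] at h2
        have h5 := mul_neg_of_pos_of_neg hpZ h
        linarith
      have : 0 < -A := by linarith
      positivity
    · exact ⟨1, 0, by simpa using h⟩
  -- the residue class
  have hcop : IsCoprime (p : ℤ) (K0 : ℤ) := by
    rw [Nat.isCoprime_iff_coprime]
    exact (hp.coprime_iff_not_dvd).2 fun h => absurd (Nat.le_of_dvd hK h) (by omega)
  obtain ⟨a, b, hab⟩ := hcop
  have hK0 : (0 : ℤ) < K0 := by exact_mod_cast hK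
  obtain ⟨x0, hx0, s1, hs1⟩ : ∃ x0 : ℤ, (0 ≤ x0 ∧ x0 ≤ K0) ∧ ∃ s1, x0 = a * b2 1 - K0 * s1 :=
    ⟨(a * b2 1) % K0, ⟨Int.emod_nonneg _ hK0.ne', (Int.emod_lt_of_pos _ hK0).le⟩,
      (a * b2 1) / K0, by rw [Int.emod_def]⟩
  obtain ⟨y0, hy0, s2, hs2⟩ : ∃ y0 : ℤ, (0 ≤ y0 ∧ y0 ≤ K0) ∧ ∃ s2, y0 = -(a * b1 1) - K0 * s2 :=
    ⟨(-(a * b1 1)) % K0, ⟨Int.emod_nonneg _ hK0.ne', (Int.emod_lt_of_pos _ hK0).le⟩,
      (-(a * b1 1)) / K0, by rw [Int.emod_def]⟩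
  have hr0 : x0 * b1 0 + y0 * b2 0 = 1 + K0 * (-b - s1 * b1 0 - s2 * b2 0) := by
    rw [hs1, hs2]
    linear_combination a * hdet + hab
  have hr1 : x0 * b1 1 + y0 * b2 1 = K0 * (-s1 * b1 1 - s2 * b2 1) := by
    rw [hs1, hs2]
    ring
  have hqc : IsCoprime (A * x0 ^ 2 + B * x0 * y0 + C' * y0 ^ 2) (K0 : ℤ) := by
    have h1 := hform x0 y0
    simp only [nf, Pi.add_apply, Pi.smul_apply, smul_eq_mul] at h1
    rw [hr0, hr1] at h1
    set u := -b - s1 * b1 0 - s2 * b2 0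
    set v := -s1 * b1 1 - s2 * b2 1
    refine ⟨p, -(2 * u + K0 * u ^ 2 - D * K0 * v ^ 2), ?_⟩
    linear_combination -h1
  obtain ⟨x, y, ⟨hx, hy, hxy, hq, hlam⟩, hxR, hyR⟩ := hR (A, B, C', x0, y0)
    (by
      simp only [Finset.mem_product, Finset.mem_Icc]
      refine ⟨abs_le.1 (sc_abs hM hpZ (Or.inl hA) ?_ ?_ ?_ ?_),
        abs_le.1 (sc_abs hM hpZ (Or.inr hB) ?_ ?_ ?_ ?_),
        abs_le.1 (sc_abs hM hpZ (Or.inl hC') ?_ ?_ ?_ ?_), hx0, hy0⟩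
      all_goals first
        | exact_mod_cast (hbd 0).1
        | exact_mod_cast (hbd 1).1
        | exact_mod_cast (hbd 0).2
        | exact_mod_cast (hbd 1).2)
    (forms_value hQ D hD A B C' hdisc hpos K0 hK x0 y0 hqc)
  simp only at hx hy hq hlam
  have hAM : |A| ≤ M := sc_abs hM hpZ (Or.inl hA) (by exact_mod_cast (hbd 0).1)
    (by exact_mod_cast (hbd 0).1) (by exact_mod_cast (hbd 1).1) (by exact_mod_cast (hbd 1).1)
  have hBM : |B| ≤ M := sc_abs hM hpZ (Or.inr hB) (by exact_mod_cast (hbd 0).1)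
    (by exact_mod_cast (hbd 0).2) (by exact_mod_cast (hbd 1).1) (by exact_mod_cast (hbd 1).2)
  have hCM : |C'| ≤ M := sc_abs hM hpZ (Or.inl hC') (by exact_mod_cast (hbd 0).2)
    (by exact_mod_cast (hbd 0).2) (by exact_mod_cast (hbd 1).2) (by exact_mod_cast (hbd 1).2)
  obtain ⟨m, hm⟩ : ∃ m : ℕ, (m : ℤ) = A * x ^ 2 + B * x * y + C' * y ^ 2 :=
    ⟨(A * x ^ 2 + B * x * y + C' * y ^ 2).toNat, Int.toNat_of_nonneg hq.le⟩
  have hm1 : 1 ≤ m := by
    have : (0 : ℤ) < m := by rw [hm]; exact hq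
    exact_mod_cast this
  have hmb : m ≤ 3 * M * R ^ 2 := by
    have hx2 : |x * x| ≤ R * R := by
      rw [abs_mul]; exact mul_le_mul hxR hxR (abs_nonneg _) (by positivity)
    have hxy2 : |x * y| ≤ R * R := by
      rw [abs_mul]; exact mul_le_mul hxR hyR (abs_nonneg _) (by positivity)
    have hy2 : |y * y| ≤ R * R := by
      rw [abs_mul]; exact mul_le_mul hyR hyR (abs_nonneg _) (by positivity)
    have e1 : A * (x * x) ≤ M * (R * R) := by
      refine (le_abs_self _).trans ?_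
      rw [abs_mul]; exact mul_le_mul hAM hx2 (abs_nonneg _) (by positivity)
    have e2 : B * (x * y) ≤ M * (R * R) := by
      refine (le_abs_self _).trans ?_
      rw [abs_mul]; exact mul_le_mul hBM hxy2 (abs_nonneg _) (by positivity)
    have e3 : C' * (y * y) ≤ M * (R * R) := by
      refine (le_abs_self _).trans ?_
      rw [abs_mul]; exact mul_le_mul hCM hy2 (abs_nonneg _) (by positivity)
    have : (m : ℤ) ≤ 3 * M * R ^ 2 := by
      rw [hm]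
      linarith
    exact_mod_cast this
  have hnf : nf D (x • b1 + y • b2) = (p : ℤ) * m := by rw [hform, hm]
  obtain ⟨tx, htx⟩ := hx
  obtain ⟨ty, hty⟩ := hy
  refine ⟨m, x • b1 + y • b2, hm1, hmb, ?_, hnf, ?_, ?_, ?_, ?_⟩
  · rw [hm]
    exact hlam
  · refine ⟨tx * b1 0 + ty * b2 0 + (-b - s1 * b1 0 - s2 * b2 0), ?_⟩
    simp only [Pi.add_apply, Pi.smul_apply, smul_eq_mul]
    linear_combination b1 0 * htx + b2 0 * hty + hr0
  · refine ⟨tx * b1 1 + ty * b2 1 + (-s1 * b1 1 - s2 * b2 1), ?_⟩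
    simp only [Pi.add_apply, Pi.smul_apply, smul_eq_mul]
    linear_combination b1 1 * htx + b2 1 * hty + hr1
  · by_contra hne
    obtain ⟨l, hl, h1, h2⟩ := Nat.Prime.not_coprime_iff_dvd.1 hne
    have h1' : (l : ℤ) ∣ (x • b1 + y • b2) 0 := Int.natCast_dvd.2 h1
    have h2' : (l : ℤ) ∣ (x • b1 + y • b2) 1 := Int.natCast_dvd.2 h2
    obtain ⟨r0, hr0'⟩ := h1'
    obtain ⟨r1, hr1'⟩ := h2'
    by_cases hlp : l = p
    · rw [hlp] at hr0' hr1'
      have h3 : (p : ℤ) * m = p * (p * (r0 ^ 2 - D * r1 ^ 2)) := by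
        rw [← hnf]
        simp only [nf]
        rw [hr0', hr1']
        ring
      have h4 : (p : ℤ) ∣ m := ⟨_, mul_left_cancel₀ hpZ.ne' h3⟩
      have h5 : p ∣ m := Int.natCast_dvd_natCast.1 h4
      have h6 := Nat.le_of_dvd hm1 h5
      omega
    · have h3 : (p : ℤ) ∣ l * (r0 - θ * r1) := by
        refine ⟨x * k1 + y * k2, ?_⟩
        simp only [Pi.add_apply, Pi.smul_apply, smul_eq_mul] at hr0' hr1'
        linear_combination -hr0' + θ * hr1' + x * hk1 + y * hk2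
      have h4 : (p : ℤ) ∣ r0 - θ * r1 := by
        rcases hpp.dvd_or_dvd h3 with h | h
        · exfalso
          exact hlp ((Nat.prime_dvd_prime_iff_eq hp hl).1 (Int.natCast_dvd_natCast.1 h)).symm
        · exact h
      obtain ⟨x', y', hxy'⟩ := hbas ![r0, r1] (by simpa using h4)
      have e0 := congrFun hxy' 0
      have e1 := congrFun hxy' 1
      simp only [Pi.add_apply, Pi.smul_apply, smul_eq_mul, Matrix.cons_val_zero,
        Matrix.cons_val_one] at e0 e1 hr0' hr1'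
      have f1 : (p : ℤ) * x = p * (l * x') := by
        rw [← hdet]
        linear_combination b2 1 * hr0' - b2 0 * hr1' + l * b2 1 * e0 - l * b2 0 * e1
      have f2 : (p : ℤ) * y = p * (l * y') := by
        rw [← hdet]
        linear_combination b1 0 * hr1' - b1 1 * hr0' + l * b1 0 * e1 - l * b1 1 * e0
      have g1 : (l : ℤ) ∣ x := ⟨x', mul_left_cancel₀ hpZ.ne' f1⟩
      have g2 : (l : ℤ) ∣ y := ⟨y', mul_left_cancel₀ hpZ.ne' f2⟩
      have g3 : l ∣ Int.gcd x y := Int.dvd_gcd g1 g2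
      rw [hxy] at g3
      exact hl.one_lt.ne' (Nat.dvd_one.1 g3)
  · intro j
    have hsq : 0 ≤ √(p : ℝ) := Real.sqrt_nonneg _
    have hxR' : |(x : ℝ)| ≤ R := by exact_mod_cast hxR
    have hyR' : |(y : ℝ)| ≤ R := by exact_mod_cast hyR
    simp only [Pi.add_apply, Pi.smul_apply, smul_eq_mul]
    push_cast
    calc |(x : ℝ) * b1 j + y * b2 j| ≤ |(x : ℝ) * b1 j| + |(y : ℝ) * b2 j| := abs_add_le _ _
      _ = |(x : ℝ)| * |(b1 j : ℝ)| + |(y : ℝ)| * |(b2 j : ℝ)| := by rw [abs_mul, abs_mul]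
      _ ≤ R * (C0 * √p) + R * (C0 * √p) := by
          gcongr
          · exact (hbd j).1
          · exact (hbd j).2
      _ ≤ (2 * R * C0 + 1) * √p := by
          nlinarith

end Pool.Agent.CQF
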