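import Pool.Agent.CQF.Def

set_option autoImplicit false

/-!
# Module Sva (size 3): the right action of matrices over `ZMod p` on the projective line

Points of the projective line over `ZMod p` are row vectors up to scalars: `none = (0 : 1)`,
`some j = (1 : j)`.  Everything here is a direct computation (case distinction `x = 0` or not; a nonzero row
vector stays nonzero after multiplication with an invertible matrix; `act` is injective because
`act (adjugate g)` is a left inverse (`act_mul`, and scalars act trivially), or directly).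
-/

namespace Pool.Agent.CQF

/-- class of the row vector `(x, y)` -/
def cls {p : ℕ} [Fact p.Prime] (x y : ZMod p) : Option (ZMod p) :=
  if x = 0 then none else some (y / x)

/-- a representative row vector -/
def rp {p : ℕ} : Option (ZMod p) → ZMod p × ZMod p
  | none => (0, 1)
  | some j => (1, j)

/-- right action -/
def act {p : ℕ} [Fact p.Prime] (g : Matrix (Fin 2) (Fin 2) (ZMod p)) (ω : Option (ZMod p)) :
    Option (ZMod p) :=
  cls ((rp ω).1 * g 0 0 + (rp ω).2 * g 1 0) ((rp ω).1 * g 0 1 + (rp ω).2 * g 1 1)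

/-- reduction mod `p` -/
def red (p : ℕ) (m : M2) : Matrix (Fin 2) (Fin 2) (ZMod p) := m.map (fun z : ℤ => (z : ZMod p))

theorem cls_rp {p : ℕ} [Fact p.Prime] (ω : Option (ZMod p)) : cls (rp ω).1 (rp ω).2 = ω := by
  cases ω with
  | none => simp [cls, rp]
  | some j => simp [cls, rp]

theorem rp_ne {p : ℕ} [Fact p.Prime] (ω : Option (ZMod p)) : (rp ω).1 ≠ 0 ∨ (rp ω).2 ≠ 0 := by
  cases ω with
  | none => simp [rp]
  | some j => simp [rp]

/-- two nonzero vectors have the same class iff they are parallel -/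
theorem cls_eq_iff {p : ℕ} [Fact p.Prime] {x y x' y' : ZMod p} (h : x ≠ 0 ∨ y ≠ 0)
    (h' : x' ≠ 0 ∨ y' ≠ 0) : cls x y = cls x' y' ↔ x * y' = x' * y := by
  unfold cls
  by_cases hx : x = 0
  · by_cases hx' : x' = 0
    · simp [hx, hx']
    · rw [if_pos hx, if_neg hx']
      constructor
      · intro hh
        cases hh
      · intro hh
        exfalso
        rw [hx, zero_mul] at hh
        rcases mul_eq_zero.1 hh.symm with h1 | h1
        · exact hx' h1
        · rcases h with h2 | h2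
          · exact h2 hx
          · exact h2 h1
  · by_cases hx' : x' = 0
    · rw [if_neg hx, if_pos hx']
      constructor
      · intro hh
        cases hh
      · intro hh
        exfalso
        rw [hx', zero_mul] at hh
        rcases mul_eq_zero.1 hh with h1 | h1
        · exact hx h1
        · rcases h' with h2 | h2
          · exact h2 hx'
          · exact h2 h1
    · rw [if_neg hx, if_neg hx', Option.some.injEq, div_eq_div_iff hx hx']
      constructor
      · intro hh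
        linear_combination -hh
      · intro hh
        linear_combination -hh

theorem Sva_mul_ne {p : ℕ} [Fact p.Prime] (g : Matrix (Fin 2) (Fin 2) (ZMod p)) (hg : g.det ≠ 0)
    {x y : ZMod p} (h : x ≠ 0 ∨ y ≠ 0) :
    x * g 0 0 + y * g 1 0 ≠ 0 ∨ x * g 0 1 + y * g 1 1 ≠ 0 := by
  by_contra hc
  push Not at hc
  obtain ⟨h1, h2⟩ := hc
  rw [Matrix.det_fin_two] at hg
  have e1 : x * (g 0 0 * g 1 1 - g 0 1 * g 1 0) = 0 := by
    linear_combination g 1 1 * h1 - g 1 0 * h2
  have e2 : y * (g 0 0 * g 1 1 - g 0 1 * g 1 0) = 0 := by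
    linear_combination g 0 0 * h2 - g 0 1 * h1
  rcases h with h | h
  · exact (mul_ne_zero h hg) e1
  · exact (mul_ne_zero h hg) e2

theorem cls_mul {p : ℕ} [Fact p.Prime] (g : Matrix (Fin 2) (Fin 2) (ZMod p)) (hg : g.det ≠ 0)
    {x y : ZMod p} (h : x ≠ 0 ∨ y ≠ 0) :
    cls (x * g 0 0 + y * g 1 0) (x * g 0 1 + y * g 1 1) = act g (cls x y) := by
  unfold act
  rw [cls_eq_iff (Sva_mul_ne g hg h) (Sva_mul_ne g hg (rp_ne _))]
  have hpar : x * (rp (cls x y)).2 = (rp (cls x y)).1 * y := by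
    have := (cls_eq_iff h (rp_ne (cls x y))).1 (cls_rp _).symm
    exact this
  linear_combination (g 0 0 * g 1 1 - g 0 1 * g 1 0) * hpar

theorem act_mul {p : ℕ} [Fact p.Prime] (g g' : Matrix (Fin 2) (Fin 2) (ZMod p)) (hg : g.det ≠ 0)
    (hg' : g'.det ≠ 0) (ω : Option (ZMod p)) : act (g * g') ω = act g' (act g ω) := by
  have h1 : act (g * g') ω = cls
      (((rp ω).1 * g 0 0 + (rp ω).2 * g 1 0) * g' 0 0 + ((rp ω).1 * g 0 1 + (rp ω).2 * g 1 1) * g' 1 0)
      (((rp ω).1 * g 0 0 + (rp ω).2 * g 1 0) * g' 0 1 +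
        ((rp ω).1 * g 0 1 + (rp ω).2 * g 1 1) * g' 1 1) := by
    unfold act
    congr 1
    · rw [Matrix.mul_apply, Matrix.mul_apply, Fin.sum_univ_two, Fin.sum_univ_two]
      ring
    · rw [Matrix.mul_apply, Matrix.mul_apply, Fin.sum_univ_two, Fin.sum_univ_two]
      ring
  rw [h1, cls_mul g' hg' (Sva_mul_ne g hg (rp_ne ω))]
  rfl

theorem act_inj {p : ℕ} [Fact p.Prime] (g : Matrix (Fin 2) (Fin 2) (ZMod p)) (hg : g.det ≠ 0) :
    Function.Injective (act g) := by
  intro ω ω' hh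
  unfold act at hh
  rw [cls_eq_iff (Sva_mul_ne g hg (rp_ne _)) (Sva_mul_ne g hg (rp_ne _))] at hh
  rw [Matrix.det_fin_two] at hg
  have e : (g 0 0 * g 1 1 - g 0 1 * g 1 0) * ((rp ω).1 * (rp ω').2 - (rp ω').1 * (rp ω).2) = 0 := by
    linear_combination hh
  have e2 : (rp ω).1 * (rp ω').2 = (rp ω').1 * (rp ω).2 := by
    rcases mul_eq_zero.1 e with h | h
    · exact absurd h hg
    · exact sub_eq_zero.1 h
  have := (cls_eq_iff (rp_ne ω) (rp_ne ω')).2 e2
  rwa [cls_rp, cls_rp] at this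

theorem red_mul (p : ℕ) (m m' : M2) : red p (m * m') = red p m * red p m' := by
  unfold red
  ext i j
  simp [Matrix.mul_apply]

theorem red_det (p : ℕ) (m : M2) (hm : m 0 0 * m 1 1 - m 0 1 * m 1 0 = 1) :
    (red p m).det = 1 := by
  unfold red
  rw [Matrix.det_fin_two]
  simp only [Matrix.map_apply]
  have := congrArg (fun z : ℤ => (z : ZMod p)) hm
  push_cast at this
  exact this

/-- the class of matrices of determinant `≡ 0` mod `p`: for integers `x, y` not both `≡ 0` and an integer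
matrix `M` with `p ∣ det M`, `p ∤ M 0 1`, the row vector `(x, y) M` is `≡ 0` mod `p` iff `(x, y)` has the
class `cls (M 1 1) (- M 0 1)`.
(`(M11, -M01) M = (det M, 0) ≡ 0`. If `x M01 + y M11 ≡ 0` then
`M01 (x M00 + y M10) ≡ M00 (-y M11) + y M01 M10 = - y det M ≡ 0`; and `x M01 + y M11 ≡ 0` says that
`(x, y)` is parallel to `(M11, -M01)`, which is nonzero.) -/
theorem cls_null {p : ℕ} [Fact p.Prime] (M : M2) (hd : (p : ℤ) ∣ M 0 0 * M 1 1 - M 0 1 * M 1 0)
    (h01 : ¬ (p : ℤ) ∣ M 0 1) {x y : ℤ} (hxy : ¬ ((p : ℤ) ∣ x ∧ (p : ℤ) ∣ y)) :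
    ((p : ℤ) ∣ x * M 0 0 + y * M 1 0 ∧ (p : ℤ) ∣ x * M 0 1 + y * M 1 1) ↔
      cls (x : ZMod p) (y : ZMod p) = cls ((M 1 1 : ℤ) : ZMod p) ((-(M 0 1) : ℤ) : ZMod p) := by
  have hd' : ((M 0 0 : ℤ) : ZMod p) * (M 1 1 : ℤ) - (M 0 1 : ℤ) * (M 1 0 : ℤ) = 0 := by
    have := (ZMod.intCast_zmod_eq_zero_iff_dvd _ p).2 hd
    push_cast at this
    exact this
  have h01' : ((M 0 1 : ℤ) : ZMod p) ≠ 0 := fun hh =>
    h01 ((ZMod.intCast_zmod_eq_zero_iff_dvd _ p).1 hh)
  have hxy' : (x : ZMod p) ≠ 0 ∨ (y : ZMod p) ≠ 0 := by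
    by_contra hc
    push Not at hc
    exact hxy ⟨(ZMod.intCast_zmod_eq_zero_iff_dvd _ p).1 hc.1,
      (ZMod.intCast_zmod_eq_zero_iff_dvd _ p).1 hc.2⟩
  have hne : ((M 1 1 : ℤ) : ZMod p) ≠ 0 ∨ ((-(M 0 1) : ℤ) : ZMod p) ≠ 0 := by
    right
    push_cast
    exact neg_ne_zero.2 h01'
  rw [cls_eq_iff hxy' hne, ← ZMod.intCast_zmod_eq_zero_iff_dvd, ← ZMod.intCast_zmod_eq_zero_iff_dvd]
  push_cast
  constructor
  · rintro ⟨_, h2⟩
    linear_combination -h2
  · intro hh
    have h2 : (x : ZMod p) * (M 0 1 : ℤ) + y * (M 1 1 : ℤ) = 0 := by linear_combination -hh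
    refine ⟨?_, h2⟩
    have h3 : ((M 0 1 : ℤ) : ZMod p) * ((x : ZMod p) * (M 0 0 : ℤ) + y * (M 1 0 : ℤ)) = 0 := by
      linear_combination ((M 0 0 : ℤ) : ZMod p) * h2 - (y : ZMod p) * hd'
    exact (mul_eq_zero.1 h3).resolve_left h01'

end Pool.Agent.CQF
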