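import Pool.Agent.CQF.Sva

set_option autoImplicit false

/-!
# Module Svb (size 4): `SL₂(𝔽_p)` is two-transitive with `p - 1` matrices for each pair of pairs

For `ω1 ≠ ω2` the row vectors `v1 = rp ω1`, `v2 = rp ω2` are linearly independent, same for `v1', v2'`.
`act g ω1 = ω1'` and `act g ω2 = ω2'` mean `v1 g = α v1'`, `v2 g = β v2'` with `α, β ≠ 0`; let `P` be the matrix
with rows `v1, v2` and `P'` with rows `v1', v2'`: `P g = diag(α, β) P'`, `g = P⁻¹ diag(α, β) P'`, and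
`det g = 1` iff `α β det P' = det P`. So the matrices correspond to the units `α`
(`β = det P / (α det P')`): `p - 1` of them.
-/

namespace Pool.Agent.CQF

private theorem svb_key {p : ℕ} [Fact p.Prime] (g : Matrix.SpecialLinearGroup (Fin 2) (ZMod p))
    (ω ω' : Option (ZMod p)) : act g.1 ω = ω' ↔ ∃ α : ZMod p, α ≠ 0 ∧
      (rp ω).1 * g.1 0 0 + (rp ω).2 * g.1 1 0 = α * (rp ω').1 ∧
      (rp ω).1 * g.1 0 1 + (rp ω).2 * g.1 1 1 = α * (rp ω').2 := by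
  have hdet : g.1 0 0 * g.1 1 1 - g.1 0 1 * g.1 1 0 = 1 := by
    have := g.2
    rwa [Matrix.det_fin_two] at this
  set x := (rp ω).1 with hx
  set y := (rp ω).2 with hy
  have hxy : x ≠ 0 ∨ y ≠ 0 := rp_ne ω
  set u := x * g.1 0 0 + y * g.1 1 0 with hu
  set v := x * g.1 0 1 + y * g.1 1 1 with hv
  have huv : u ≠ 0 ∨ v ≠ 0 := by
    by_contra hcon
    push Not at hcon
    have h1 : x = 0 := by
      calc x = x * (g.1 0 0 * g.1 1 1 - g.1 0 1 * g.1 1 0) := by rw [hdet, mul_one]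
        _ = u * g.1 1 1 - v * g.1 1 0 := by rw [hu, hv]; ring
        _ = 0 := by rw [hcon.1, hcon.2]; ring
    have h2 : y = 0 := by
      calc y = y * (g.1 0 0 * g.1 1 1 - g.1 0 1 * g.1 1 0) := by rw [hdet, mul_one]
        _ = v * g.1 0 0 - u * g.1 0 1 := by rw [hu, hv]; ring
        _ = 0 := by rw [hcon.1, hcon.2]; ring
    rcases hxy with h | h
    · exact h h1
    · exact h h2
  have hact : act g.1 ω = cls u v := rfl
  rw [hact]
  constructor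
  · intro h
    have h1 : cls u v = cls (rp ω').1 (rp ω').2 := by rw [cls_rp, h]
    rw [cls_eq_iff huv (rp_ne ω')] at h1
    cases ω' with
    | none =>
      simp only [rp] at h1 ⊢
      have hu0 : u = 0 := by simpa using h1
      refine ⟨v, ?_, ?_, ?_⟩
      · rcases huv with h2 | h2
        · exact absurd hu0 h2
        · exact h2
      · rw [hu0, mul_zero]
      · rw [mul_one]
    | some j =>
      simp only [rp] at h1 ⊢
      rw [one_mul] at h1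
      refine ⟨u, ?_, ?_, ?_⟩
      · intro hu0
        rw [hu0, zero_mul] at h1
        rcases huv with h2 | h2
        · exact h2 hu0
        · exact h2 h1.symm
      · rw [mul_one]
      · exact h1.symm
  · rintro ⟨α, hα, h1, h2⟩
    have h3 : cls u v = cls (rp ω').1 (rp ω').2 := by
      rw [cls_eq_iff huv (rp_ne ω'), h1, h2]
      ring
    rw [h3, cls_rp]

private theorem svb_D {p : ℕ} [Fact p.Prime] {ω1 ω2 : Option (ZMod p)} (h : ω1 ≠ ω2) :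
    (rp ω1).1 * (rp ω2).2 - (rp ω2).1 * (rp ω1).2 ≠ 0 := by
  intro h0
  apply h
  have h1 := (cls_eq_iff (rp_ne ω1) (rp_ne ω2)).2 (by linear_combination h0)
  rwa [cls_rp, cls_rp] at h1

/-- the matrix with given images of two row vectors -/
private def svbM {p : ℕ} [Fact p.Prime] (x1 y1 x2 y2 X1 Y1 X2 Y2 α β : ZMod p) :
    Matrix (Fin 2) (Fin 2) (ZMod p) :=
  !![(y2 * α * X1 - y1 * β * X2) / (x1 * y2 - x2 * y1),
      (y2 * α * Y1 - y1 * β * Y2) / (x1 * y2 - x2 * y1);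
      (-x2 * α * X1 + x1 * β * X2) / (x1 * y2 - x2 * y1),
      (-x2 * α * Y1 + x1 * β * Y2) / (x1 * y2 - x2 * y1)]

private theorem svbM_det {p : ℕ} [Fact p.Prime] {x1 y1 x2 y2 X1 Y1 X2 Y2 α β : ZMod p}
    (hD : x1 * y2 - x2 * y1 ≠ 0) (h : α * β * (X1 * Y2 - X2 * Y1) = x1 * y2 - x2 * y1) :
    (svbM x1 y1 x2 y2 X1 Y1 X2 Y2 α β).det = 1 := by
  unfold svbM
  rw [Matrix.det_fin_two_of]
  have e : (y2 * α * X1 - y1 * β * X2) / (x1 * y2 - x2 * y1) *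
      ((-x2 * α * Y1 + x1 * β * Y2) / (x1 * y2 - x2 * y1)) -
      (y2 * α * Y1 - y1 * β * Y2) / (x1 * y2 - x2 * y1) *
      ((-x2 * α * X1 + x1 * β * X2) / (x1 * y2 - x2 * y1)) =
      (α * β * (X1 * Y2 - X2 * Y1)) * (x1 * y2 - x2 * y1) /
        ((x1 * y2 - x2 * y1) * (x1 * y2 - x2 * y1)) := by
    rw [div_mul_div_comm, div_mul_div_comm, ← sub_div]
    congr 1
    ring
  rw [e, h]
  exact div_self (mul_ne_zero hD hD)

private theorem svbM_rows {p : ℕ} [Fact p.Prime] {x1 y1 x2 y2 X1 Y1 X2 Y2 α β : ZMod p}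
    (hD : x1 * y2 - x2 * y1 ≠ 0) :
    (x1 * svbM x1 y1 x2 y2 X1 Y1 X2 Y2 α β 0 0 + y1 * svbM x1 y1 x2 y2 X1 Y1 X2 Y2 α β 1 0 =
      α * X1) ∧
    (x1 * svbM x1 y1 x2 y2 X1 Y1 X2 Y2 α β 0 1 + y1 * svbM x1 y1 x2 y2 X1 Y1 X2 Y2 α β 1 1 =
      α * Y1) ∧
    (x2 * svbM x1 y1 x2 y2 X1 Y1 X2 Y2 α β 0 0 + y2 * svbM x1 y1 x2 y2 X1 Y1 X2 Y2 α β 1 0 =
      β * X2) ∧
    (x2 * svbM x1 y1 x2 y2 X1 Y1 X2 Y2 α β 0 1 + y2 * svbM x1 y1 x2 y2 X1 Y1 X2 Y2 α β 1 1 =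
      β * Y2) := by
  simp only [svbM, Matrix.of_apply, Matrix.cons_val', Matrix.cons_val_zero, Matrix.cons_val_one,
    Matrix.cons_val_fin_one]
  refine ⟨?_, ?_, ?_, ?_⟩ <;>
  · rw [← mul_div_assoc, ← mul_div_assoc, ← add_div, div_eq_iff hD]
    ring

private theorem svbM_eq {p : ℕ} [Fact p.Prime] {x1 y1 x2 y2 X1 Y1 X2 Y2 α β : ZMod p}
    (hD : x1 * y2 - x2 * y1 ≠ 0) {g : Matrix (Fin 2) (Fin 2) (ZMod p)}
    (h1 : x1 * g 0 0 + y1 * g 1 0 = α * X1) (h2 : x1 * g 0 1 + y1 * g 1 1 = α * Y1)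
    (h3 : x2 * g 0 0 + y2 * g 1 0 = β * X2) (h4 : x2 * g 0 1 + y2 * g 1 1 = β * Y2) :
    svbM x1 y1 x2 y2 X1 Y1 X2 Y2 α β = g := by
  ext i j
  fin_cases i <;> fin_cases j <;>
  simp only [svbM, Matrix.of_apply, Matrix.cons_val', Matrix.cons_val_zero, Matrix.cons_val_one,
    Matrix.cons_val_fin_one, Fin.zero_eta, Fin.mk_one, Fin.isValue]
  · rw [div_eq_iff hD]
    linear_combination -y2 * h1 + y1 * h3
  · rw [div_eq_iff hD]
    linear_combination -y2 * h2 + y1 * h4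
  · rw [div_eq_iff hD]
    linear_combination x2 * h1 - x1 * h3
  · rw [div_eq_iff hD]
    linear_combination x2 * h2 - x1 * h4

open Classical in
theorem two_trans {p : ℕ} [Fact p.Prime] {ω1 ω2 ω1' ω2' : Option (ZMod p)} (h : ω1 ≠ ω2)
    (h' : ω1' ≠ ω2') :
    (Finset.univ.filter (fun g : Matrix.SpecialLinearGroup (Fin 2) (ZMod p) =>
      act g.1 ω1 = ω1' ∧ act g.1 ω2 = ω2')).card = p - 1 := by
  have hD := svb_D h
  have hD' := svb_D h'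
  have hne' := rp_ne ω1'
  have hmem : ∀ g : Matrix.SpecialLinearGroup (Fin 2) (ZMod p),
      (act g.1 ω1 = ω1' ∧ act g.1 ω2 = ω2') ↔ (∃ α : ZMod p, α ≠ 0 ∧
        (rp ω1).1 * g.1 0 0 + (rp ω1).2 * g.1 1 0 = α * (rp ω1').1 ∧
        (rp ω1).1 * g.1 0 1 + (rp ω1).2 * g.1 1 1 = α * (rp ω1').2) ∧
        ∃ β : ZMod p, β ≠ 0 ∧ (rp ω2).1 * g.1 0 0 + (rp ω2).2 * g.1 1 0 = β * (rp ω2').1 ∧
          (rp ω2).1 * g.1 0 1 + (rp ω2).2 * g.1 1 1 = β * (rp ω2').2 := by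
    intro g
    rw [svb_key g ω1 ω1', svb_key g ω2 ω2']
  generalize (rp ω1).1 = x1 at *
  generalize (rp ω1).2 = y1 at *
  generalize (rp ω2).1 = x2 at *
  generalize (rp ω2).2 = y2 at *
  generalize (rp ω1').1 = X1 at *
  generalize (rp ω1').2 = Y1 at *
  generalize (rp ω2').1 = X2 at *
  generalize (rp ω2').2 = Y2 at *
  have hcard : (Finset.univ.filter (fun α : ZMod p => α ≠ 0)).card = p - 1 := by
    rw [Finset.filter_ne', Finset.card_erase_of_mem (Finset.mem_univ _), Finset.card_univ,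
      ZMod.card]
  rw [← hcard]
  symm
  have hβ : ∀ α : ZMod p, α ≠ 0 → α * ((x1 * y2 - x2 * y1) / (α * (X1 * Y2 - X2 * Y1))) *
      (X1 * Y2 - X2 * Y1) = x1 * y2 - x2 * y1 := by
    intro α hα
    have h1 : α * (X1 * Y2 - X2 * Y1) ≠ 0 := mul_ne_zero hα hD'
    calc α * ((x1 * y2 - x2 * y1) / (α * (X1 * Y2 - X2 * Y1))) * (X1 * Y2 - X2 * Y1) =
        (x1 * y2 - x2 * y1) / (α * (X1 * Y2 - X2 * Y1)) * (α * (X1 * Y2 - X2 * Y1)) := by ring
      _ = _ := div_mul_cancel₀ _ h1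
  refine Finset.card_bij (fun α hα => ⟨svbM x1 y1 x2 y2 X1 Y1 X2 Y2 α
    ((x1 * y2 - x2 * y1) / (α * (X1 * Y2 - X2 * Y1))),
    svbM_det hD (hβ α (Finset.mem_filter.1 hα).2)⟩) ?_ ?_ ?_
  · intro α hα
    have hα0 : α ≠ 0 := (Finset.mem_filter.1 hα).2
    rw [Finset.mem_filter]
    refine ⟨Finset.mem_univ _, ?_⟩
    rw [hmem]
    obtain ⟨r1, r2, r3, r4⟩ := svbM_rows (X1 := X1) (Y1 := Y1) (X2 := X2) (Y2 := Y2) (α := α)
      (β := (x1 * y2 - x2 * y1) / (α * (X1 * Y2 - X2 * Y1))) hD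
    exact ⟨⟨α, hα0, r1, r2⟩, ⟨_, div_ne_zero hD (mul_ne_zero hα0 hD'), r3, r4⟩⟩
  · intro α hα α' hα' heq
    have heq' := congrArg Subtype.val heq
    simp only at heq'
    obtain ⟨r1, r2, -, -⟩ := svbM_rows (X1 := X1) (Y1 := Y1) (X2 := X2) (Y2 := Y2) (α := α)
      (β := (x1 * y2 - x2 * y1) / (α * (X1 * Y2 - X2 * Y1))) hD
    obtain ⟨s1, s2, -, -⟩ := svbM_rows (X1 := X1) (Y1 := Y1) (X2 := X2) (Y2 := Y2) (α := α')
      (β := (x1 * y2 - x2 * y1) / (α' * (X1 * Y2 - X2 * Y1))) hD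
    rw [heq'] at r1 r2
    rcases hne' with h1 | h1
    · exact mul_right_cancel₀ h1 (r1.symm.trans s1)
    · exact mul_right_cancel₀ h1 (r2.symm.trans s2)
  · intro g hg
    rw [Finset.mem_filter, hmem] at hg
    obtain ⟨-, ⟨α, hα, r1, r2⟩, ⟨β, hb, r3, r4⟩⟩ := hg
    refine ⟨α, Finset.mem_filter.2 ⟨Finset.mem_univ _, hα⟩, ?_⟩
    apply Subtype.ext
    have hdet : g.1 0 0 * g.1 1 1 - g.1 0 1 * g.1 1 0 = 1 := by
      have := g.2
      rwa [Matrix.det_fin_two] at this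
    have hαβ : α * β * (X1 * Y2 - X2 * Y1) = x1 * y2 - x2 * y1 := by
      calc α * β * (X1 * Y2 - X2 * Y1) = (α * X1) * (β * Y2) - (α * Y1) * (β * X2) := by ring
        _ = (x1 * y2 - x2 * y1) * (g.1 0 0 * g.1 1 1 - g.1 0 1 * g.1 1 0) := by
          rw [← r1, ← r2, ← r3, ← r4]; ring
        _ = _ := by rw [hdet, mul_one]
    have hβe : (x1 * y2 - x2 * y1) / (α * (X1 * Y2 - X2 * Y1)) = β := by
      rw [div_eq_iff (mul_ne_zero hα hD'), ← hαβ]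
      ring
    show svbM x1 y1 x2 y2 X1 Y1 X2 Y2 α ((x1 * y2 - x2 * y1) / (α * (X1 * Y2 - X2 * Y1))) = g.1
    rw [hβe]
    exact svbM_eq hD r1 r2 r3 r4

end Pool.Agent.CQF
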