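import Pool.Agent.CQF.Fxc
import Pool.Agent.CQF.Eb
import Pool.Agent.CQF.Pg
import Pool.Agent.CQF.Cob
import Pool.Agent.CQF.Rk

set_option autoImplicit false

/-!
# Module Tb (size 5): choice of the parameters for one prime

Fix `A = 200`, `R` from `exists_nn`, `cB` from `exists_class`, `Cc` from `coll_le`.
`L = log N`, `Pm = L^(2a)`, `Ms = N Pm⁴`. For a prime `L² < p ≤ Pm`: `n = ⌈p^{4/3}⌉` (so `p⁴ ≤ n³ ≤ 8 p⁴`),
`np = ⌊Ms / (√p n²)⌋`. As `√p n² ≤ 4 p^{19/6} ≤ 4 Pm^{19/6}`: `np ≥ N` and `Ms/2 ≤ √p np n² ≤ Ms` for `N` large.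
`lo = c1 Ms / (16 A)` (`≥ N`, `≥ Pm²`), `Λ = 32 A R c2/c1`: `c2 √p · 2 R np n² ≤ 2 R c2 Ms = Λ lo`.
`N2 = ⌊N L^C⌋` with `C = 8a + 1`: `2 R np n² (1 + c2 √p) ≤ 2 R Ms (1 + c2) ≤ N2`.
`B` from `exists_class` (`n ≥ n0`; `cB n² ≤ |B|`, all elements congruent mod `K`), elements in the cone by `bk_cone`.
`r w`: by `exists_nn` choose `r w` nonnegative, entries `≤ R`, congruent mod `K` to `w⁻¹ H0 m2⁻¹ m1⁻¹` for one (hence,
as all elements of `B` are congruent, for all) `m1, m2 ∈ B` (inverses = adjugates), so that `w r m1 m2 ≡ H0`.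
`p ∤ K` as `p > K`.  So `Dat.Ok` holds, and `xs_le` with `Q = Cc n^{2 + 1/16}` gives the claim, where
* `mu K (Eun K np np A) ≤ 4 K (2 + log 2)/A ≤ 0.06 K` (`eun_le` with `N1 = N2 = np`);
* `K · 4 (p+1)² ((p²-1) Q)²/|B|⁴ / p ≤ 16 K Cc² cB^{-4} p⁵ n^{-4 + 1/8} ≤ const · p^{-1/6}` (`n ≥ p^{4/3}`,
  `5 - (4/3)(31/8) = -1/6`);
* `8 A K/p → 0`;
* `(2 (p+1)/|B|² · 4 R² A n⁴)/(p m) ≤ 16 R² A / (cB² m)`, so the last term is
  `≤ (16 R² A/cB²)(u + c2² p ∑ len v)`.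
So `C1 = 1 + 16 R² A cB^{-2} (1 + c2²)` works.
-/

open MeasureTheory

namespace Pool.Agent.CQF

private theorem Tb_cg {K : ℕ} {g h : M2} : Cg K g h ↔
    (Int.castRingHom (ZMod K)).mapMatrix g = (Int.castRingHom (ZMod K)).mapMatrix h := by
  constructor
  · intro hc
    ext i j
    have := hc i j
    simp only [RingHom.mapMatrix_apply, Matrix.map_apply, eq_intCast]
    rw [ZMod.intCast_eq_intCast_iff_dvd_sub]
    exact (dvd_sub_comm).1 this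
  · intro hc i j
    have := congrFun (congrFun hc i) j
    simp only [RingHom.mapMatrix_apply, Matrix.map_apply, eq_intCast] at this
    rw [ZMod.intCast_eq_intCast_iff_dvd_sub] at this
    exact (dvd_sub_comm).1 this

/-- the correcting matrices -/
private theorem Tb_r (K R : ℕ) (hR : ∀ g : M2,
    g 0 0 * g 1 1 - g 0 1 * g 1 0 = 1 → ∃ r : M2, IsNN r ∧ Cg K r g ∧ ∀ i j, r i j ≤ R)
    (H0 : M2) (hH : H0 0 0 * H0 1 1 - H0 0 1 * H0 1 0 = 1) (B : Finset M2) (b : M2) (hb : b ∈ B)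
    (hB : ∀ m ∈ B, m 0 0 * m 1 1 - m 0 1 * m 1 0 = 1) (hBc : ∀ m ∈ B, ∀ m' ∈ B, Cg K m m') :
    ∃ r : M2 → M2, ∀ w : M2, w 0 0 * w 1 1 - w 0 1 * w 1 0 = 1 → IsNN (r w) ∧
      (∀ i j, r w i j ≤ R) ∧ ∀ m1 ∈ B, ∀ m2 ∈ B, Cg K (w * r w * m1 * m2) H0 := by
  have hdet : ∀ g : M2, g 0 0 * g 1 1 - g 0 1 * g 1 0 = 1 ↔ g.det = 1 := fun g => by
    rw [Matrix.det_fin_two]
  have key : ∀ w : M2, ∃ r : M2, w 0 0 * w 1 1 - w 0 1 * w 1 0 = 1 → IsNN r ∧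
      (∀ i j, r i j ≤ R) ∧ ∀ m1 ∈ B, ∀ m2 ∈ B, Cg K (w * r * m1 * m2) H0 := by
    intro w
    by_cases hw : w 0 0 * w 1 1 - w 0 1 * w 1 0 = 1
    · have hbd := hB b hb
      rw [hdet] at hw hH hbd
      obtain ⟨r, h1, h2, h3⟩ := hR (w.adjugate * H0 * b.adjugate * b.adjugate) (by
        rw [hdet, Matrix.det_mul, Matrix.det_mul, Matrix.det_mul, Matrix.det_adjugate,
          Matrix.det_adjugate, hw, hbd, hH]
        simp)
      refine ⟨r, fun _ => ⟨h1, h3, ?_⟩⟩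
      intro m1 hm1 m2 hm2
      rw [Tb_cg] at h2 ⊢
      have e1 := Tb_cg.1 (hBc m1 hm1 b hb)
      have e2 := Tb_cg.1 (hBc m2 hm2 b hb)
      rw [map_mul, map_mul, map_mul, h2, e1, e2, ← map_mul, ← map_mul, ← map_mul]
      congr 1
      have k1 : w * w.adjugate = 1 := by rw [Matrix.mul_adjugate, hw, one_smul]
      have k2 : b.adjugate * b = 1 := by rw [Matrix.adjugate_mul, hbd, one_smul]
      calc w * (w.adjugate * H0 * b.adjugate * b.adjugate) * b * b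
          = (w * w.adjugate) * H0 * b.adjugate * (b.adjugate * b) * b := by
            simp only [Matrix.mul_assoc]
        _ = H0 := by
            rw [k1, k2]
            simp only [one_mul, mul_one, Matrix.mul_assoc]
            rw [k2, mul_one]
    · exact ⟨1, fun h => absurd h hw⟩
  choose r hr using key
  exact ⟨r, hr⟩

/-- the order `n` -/
private theorem Tb_n {p : ℕ} (hp : 1 ≤ p) : ∃ n : ℕ, p ^ 4 ≤ n ^ 3 ∧ n ^ 3 ≤ 8 * p ^ 4 ∧ p ≤ n ∧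
    (n : ℝ) ≤ 2 * (p : ℝ) ^ (4 / 3 : ℝ) := by
  have hp1 : (1:ℝ) ≤ p := by exact_mod_cast hp
  have hp0 : (0:ℝ) ≤ p := by linarith
  have hr1 : (1:ℝ) ≤ (p : ℝ) ^ (4 / 3 : ℝ) := Real.one_le_rpow hp1 (by norm_num)
  have hcube : ((p : ℝ) ^ (4 / 3 : ℝ)) ^ 3 = (p : ℝ) ^ 4 := by
    rw [← Real.rpow_natCast, ← Real.rpow_mul hp0]
    norm_num
  have hup : (⌈(p : ℝ) ^ (4 / 3 : ℝ)⌉₊ : ℝ) ≤ 2 * (p : ℝ) ^ (4 / 3 : ℝ) := by
    have := Nat.ceil_lt_add_one (show (0:ℝ) ≤ (p : ℝ) ^ (4 / 3 : ℝ) by positivity)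
    linarith
  have hlo : (p : ℝ) ^ (4 / 3 : ℝ) ≤ (⌈(p : ℝ) ^ (4 / 3 : ℝ)⌉₊ : ℝ) := Nat.le_ceil _
  refine ⟨⌈(p : ℝ) ^ (4 / 3 : ℝ)⌉₊, ?_, ?_, ?_, hup⟩
  · have h : (p : ℝ) ^ 4 ≤ (⌈(p : ℝ) ^ (4 / 3 : ℝ)⌉₊ : ℝ) ^ 3 := by
      rw [← hcube]; gcongr
    exact_mod_cast h
  · have h : (⌈(p : ℝ) ^ (4 / 3 : ℝ)⌉₊ : ℝ) ^ 3 ≤ 8 * (p : ℝ) ^ 4 := by
      calc _ ≤ (2 * (p : ℝ) ^ (4 / 3 : ℝ)) ^ 3 := by gcongr
        _ = 8 * (p : ℝ) ^ 4 := by rw [mul_pow, hcube]; norm_num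
    exact_mod_cast h
  · have h : (p : ℝ) ≤ (⌈(p : ℝ) ^ (4 / 3 : ℝ)⌉₊ : ℝ) := by
      refine le_trans ?_ hlo
      calc (p : ℝ) = (p : ℝ) ^ (1 : ℝ) := (Real.rpow_one _).symm
        _ ≤ _ := Real.rpow_le_rpow_of_exponent_le hp1 (by norm_num)
    exact_mod_cast h

private theorem Tb_pow {P x : ℝ} (hP : 1 ≤ P) (hx : 1 ≤ x) (h : P ^ 4 ≤ x ^ 3) :
    (x ^ (2 + 1 / 16 : ℝ)) ^ 2 * (P ^ 5 * P ^ (1 / 6 : ℝ)) ≤ x ^ 8 := by
  have hP0 : 0 ≤ P := by linarith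
  have hx0 : 0 ≤ x := by linarith
  have h1 : P ^ 5 * P ^ (1 / 6 : ℝ) = (P ^ 4) ^ (31 / 24 : ℝ) := by
    rw [← Real.rpow_natCast P 5, ← Real.rpow_natCast P 4, ← Real.rpow_add (by linarith),
      ← Real.rpow_mul hP0]
    norm_num
  have h2 : (P ^ 4) ^ (31 / 24 : ℝ) ≤ (x ^ 3) ^ (31 / 24 : ℝ) :=
    Real.rpow_le_rpow (by positivity) h (by norm_num)
  have h3 : (x ^ 3) ^ (31 / 24 : ℝ) = x ^ (31 / 8 : ℝ) := by
    rw [← Real.rpow_natCast x 3, ← Real.rpow_mul hx0]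
    norm_num
  have h4 : (x ^ (2 + 1 / 16 : ℝ)) ^ 2 = x ^ (33 / 8 : ℝ) := by
    rw [← Real.rpow_natCast, ← Real.rpow_mul hx0]
    norm_num
  rw [h1, h4]
  calc x ^ (33 / 8 : ℝ) * (P ^ 4) ^ (31 / 24 : ℝ) ≤ x ^ (33 / 8 : ℝ) * x ^ (31 / 8 : ℝ) := by
        rw [← h3]; gcongr
    _ = x ^ 8 := by
        rw [← Real.rpow_add (by linarith), ← Real.rpow_natCast]
        norm_num

/-- the second error term -/
private theorem Tb_e {P x b Cc cB : ℝ} (hP : 1 ≤ P) (hx : 1 ≤ x) (h : P ^ 4 ≤ x ^ 3) (hcB : 0 < cB)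
    (hb : cB * x ^ 2 ≤ b) (hPl : (1600 * Cc ^ 2 / cB ^ 4) ^ 6 ≤ P) :
    4 * (P + 1) ^ 2 * ((P ^ 2 - 1) * (Cc * x ^ (2 + 1 / 16 : ℝ))) ^ 2 / b ^ 4 / P ≤ 1 / 100 := by
  have hP0 : 0 < P := by linarith
  have hx0 : 0 < x := by linarith
  have hb0 : 0 < cB * x ^ 2 := by positivity
  have hb1 : 0 < b := hb0.trans_le hb
  set y : ℝ := x ^ (2 + 1 / 16 : ℝ) with hy
  have hy0 : 0 < y := Real.rpow_pos_of_pos hx0 _
  set T : ℝ := 1600 * Cc ^ 2 / cB ^ 4 with hT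
  have hT0 : 0 ≤ T := by positivity
  have hPT : T ≤ P ^ (1 / 6 : ℝ) := by
    calc T = (T ^ 6) ^ (1 / 6 : ℝ) := by
          rw [← Real.rpow_natCast T 6, ← Real.rpow_mul hT0]; norm_num
      _ ≤ P ^ (1 / 6 : ℝ) := Real.rpow_le_rpow (by positivity) hPl (by norm_num)
  have hk := Tb_pow hP hx h
  rw [← hy] at hk
  have hP6 : 0 < P ^ (1 / 6 : ℝ) := Real.rpow_pos_of_pos hP0 _
  rw [div_div, div_le_div_iff₀ (by positivity) (by norm_num)]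
  have h1 : (P + 1) ^ 2 ≤ (2 * P) ^ 2 := by gcongr; linarith
  have h2 : ((P ^ 2 - 1) * (Cc * y)) ^ 2 ≤ (P ^ 2) ^ 2 * (Cc * y) ^ 2 := by
    rw [mul_pow]
    apply mul_le_mul_of_nonneg_right _ (by positivity)
    have : 0 ≤ P ^ 2 - 1 := by nlinarith
    gcongr
    linarith
  have h3 : (cB * x ^ 2) ^ 4 ≤ b ^ 4 := by gcongr
  calc 4 * (P + 1) ^ 2 * ((P ^ 2 - 1) * (Cc * y)) ^ 2 * 100
      ≤ 4 * (2 * P) ^ 2 * ((P ^ 2) ^ 2 * (Cc * y) ^ 2) * 100 := by gcongr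
    _ = T * cB ^ 4 * P * (y ^ 2 * P ^ 5) := by
        rw [hT]; field_simp; ring
    _ ≤ P ^ (1 / 6 : ℝ) * cB ^ 4 * P * (y ^ 2 * P ^ 5) := by gcongr
    _ = cB ^ 4 * P * (y ^ 2 * (P ^ 5 * P ^ (1 / 6 : ℝ))) := by ring
    _ ≤ cB ^ 4 * P * x ^ 8 := by gcongr
    _ = (cB * x ^ 2) ^ 4 * P := by ring
    _ ≤ b ^ 4 * P := by gcongr
    _ = 1 * (b ^ 4 * P) := by ring

/-- the orders -/
private theorem Tb_np {P x L : ℝ} {N a : ℕ} (hN : 1 ≤ N) (hP : 16 ≤ P) (hx : 1 ≤ x)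
    (hx2 : x ≤ 2 * P ^ (4 / 3 : ℝ)) (hPL : P ≤ L ^ (2 * a)) :
    ∃ np : ℕ, N ≤ np ∧ √P * (np * x ^ 2) ≤ N * L ^ (8 * a) ∧
      N * L ^ (8 * a) / 2 ≤ √P * (np * x ^ 2) := by
  have hP0 : 0 < P := by linarith
  have hx0 : 0 < x := by linarith
  have hs : 0 < √P := Real.sqrt_pos.2 hP0
  have hN0 : (1:ℝ) ≤ N := by exact_mod_cast hN
  have h1 : √P * x ^ 2 ≤ P ^ 4 := by
    have h2 : x ^ 2 ≤ 4 * P ^ (8 / 3 : ℝ) := by
      calc x ^ 2 ≤ (2 * P ^ (4 / 3 : ℝ)) ^ 2 := by gcongr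
        _ = 4 * P ^ (8 / 3 : ℝ) := by
          rw [mul_pow, ← Real.rpow_natCast (P ^ (4 / 3 : ℝ)), ← Real.rpow_mul hP0.le]
          norm_num
    have h3 : (4:ℝ) ≤ P ^ (5 / 6 : ℝ) := by
      calc (4:ℝ) = (16:ℝ) ^ (1 / 2 : ℝ) := by
            rw [← Real.sqrt_eq_rpow, show (16:ℝ) = 4 ^ 2 by norm_num,
              Real.sqrt_sq (by norm_num)]
        _ ≤ P ^ (1 / 2 : ℝ) := Real.rpow_le_rpow (by norm_num) hP (by norm_num)
        _ ≤ P ^ (5 / 6 : ℝ) := Real.rpow_le_rpow_of_exponent_le (by linarith) (by norm_num)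
    calc √P * x ^ 2 ≤ P ^ (1 / 2 : ℝ) * (4 * P ^ (8 / 3 : ℝ)) := by
          rw [Real.sqrt_eq_rpow]; gcongr
      _ ≤ P ^ (1 / 2 : ℝ) * (P ^ (5 / 6 : ℝ) * P ^ (8 / 3 : ℝ)) := by gcongr
      _ = P ^ 4 := by
          rw [← Real.rpow_add hP0, ← Real.rpow_add hP0, ← Real.rpow_natCast]
          norm_num
  have h2 : P ^ 4 ≤ L ^ (8 * a) := by
    calc P ^ 4 ≤ (L ^ (2 * a)) ^ 4 := by gcongr
      _ = L ^ (8 * a) := by rw [← pow_mul]; congr 1; ring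
  set X : ℝ := N * L ^ (8 * a) / (√P * x ^ 2) with hX
  have hX0 : (N : ℝ) ≤ X := by
    rw [hX, le_div_iff₀ (by positivity)]
    exact mul_le_mul_of_nonneg_left (h1.trans h2) (by positivity)
  have hXe : X * (√P * x ^ 2) = N * L ^ (8 * a) := by
    rw [hX]; field_simp
  have hX1 : 0 ≤ X := by linarith
  have hf : (⌊X⌋₊ : ℝ) ≤ X := Nat.floor_le hX1
  have hf2 : X / 2 ≤ (⌊X⌋₊ : ℝ) := by
    have h3 := Nat.lt_floor_add_one X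
    have h4 : N ≤ ⌊X⌋₊ := Nat.le_floor hX0
    have h5 : (1:ℝ) ≤ (⌊X⌋₊ : ℝ) := by exact_mod_cast hN.trans h4
    linarith
  refine ⟨⌊X⌋₊, Nat.le_floor hX0, ?_, ?_⟩
  · calc √P * (⌊X⌋₊ * x ^ 2) ≤ √P * (X * x ^ 2) := by gcongr
      _ = X * (√P * x ^ 2) := by ring
      _ = _ := hXe
  · calc N * L ^ (8 * a) / 2 = √P * ((X / 2) * x ^ 2) := by rw [← hXe]; ring
      _ ≤ _ := by gcongr

open Classical in
theorem per_prime (K a : ℕ) (hK : 1 ≤ K) (ha : 1 ≤ a) (ζ c1 c2 : ℝ) (h0 : 0 < ζ) (h1 : ζ ≤ 1)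
    (hc1 : 0 < c1) (hc12 : c1 ≤ c2) :
    ∃ C1 Λ : ℝ, 1 ≤ C1 ∧ 1 ≤ Λ ∧ ∃ C N0 : ℕ, ∀ N : ℕ, N0 ≤ N → ∃ lo : ℝ, (N : ℝ) ≤ lo ∧
      (Real.log N) ^ (4 * a) ≤ lo ∧
      ∀ (m p : ℕ) (H0 M : M2) (Φ : M2 → ℝ) (Bd : Set M2), 1 ≤ m → m ∣ K →
        H0 0 0 * H0 1 1 - H0 0 1 * H0 1 0 = 1 → p.Prime → (Real.log N) ^ 2 < p →
        (p : ℝ) ≤ (Real.log N) ^ (2 * a) → FamOk K m H0 ζ c1 c2 p M → PhiOk K m H0 Φ Bd p M →
        ∀ V : Finset M2, (∀ v, v ∈ V ↔ v ∈ ndw K N ⌊(N : ℝ) * (Real.log N) ^ C⌋₊ ∧ Bal (c2 / c1) v ∧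
            lo ≤ (v 1 0 : ℝ) ∧ (v 1 0 : ℝ) ≤ Λ * lo ∧ (p : ℤ) ∣ v 1 0 * M 0 1 - v 1 1 * M 0 0 ∧
            (v ∈ Bd ∨ ∀ s ∈ J v, Irrational s → s ∈ Ust Φ K N ⌊(N : ℝ) * (Real.log N) ^ C⌋₊)) →
          (mu K).real (Xs Φ K N (p * m)) ≤ K / 8 +
            C1 * ((mu K).real (Ust Φ K N ⌊(N : ℝ) * (Real.log N) ^ C⌋₊) + p * ∑ v ∈ V, len v) := by
  obtain ⟨R, hR1, hR⟩ := exists_nn K hK
  obtain ⟨cB, hcB, nB, hnB⟩ := exists_class ζ h0 h1 K hK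
  obtain ⟨Cc, hCc1, nC, hnC⟩ := coll_le ζ h0 h1
  obtain ⟨nD, hnD⟩ := bk_cone ζ h0 h1
  have hc2 : 0 < c2 := hc1.trans_le hc12
  have hR1' : (1:ℝ) ≤ R := by exact_mod_cast hR1
  have hK1' : (1:ℝ) ≤ K := by exact_mod_cast hK
  set C1 : ℝ := 1 + 16 * (R : ℝ) ^ 2 * 200 / cB ^ 2 * (1 + c2 ^ 2) with hC1
  set Λ : ℝ := 32 * 200 * R * c2 / c1 with hΛ
  set Lm : ℝ := 160000 + K + (2 * R * (1 + c2) + 1) + 16 * 200 / c1 + nB + nC + nD +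
    (1600 * Cc ^ 2 / cB ^ 4) ^ 6 with hLm
  have hev : ∀ᶠ N : ℕ in Filter.atTop, Lm ≤ Real.log N ∧ (Real.log N) ^ (4 * a) ≤ N := by
    have t1 : Filter.Tendsto (fun N : ℕ => Real.log N) Filter.atTop Filter.atTop :=
      Real.tendsto_log_atTop.comp tendsto_natCast_atTop_atTop
    have t2 := (Real.isLittleO_pow_log_id_atTop (n := 4 * a)).bound (one_pos)
    have t3 := (tendsto_natCast_atTop_atTop (R := ℝ)).eventually t2
    filter_upwards [t1.eventually_ge_atTop Lm, t3] with N hN1 hN2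
    refine ⟨hN1, ?_⟩
    simp only [one_mul, id] at hN2
    have := (le_abs_self _).trans hN2
    simpa using this
  obtain ⟨N0, hN0⟩ := Filter.eventually_atTop.1 hev
  refine ⟨C1, Λ, ?_, ?_, 8 * a + 1, N0, ?_⟩
  · rw [hC1]
    have : 0 ≤ 16 * (R : ℝ) ^ 2 * 200 / cB ^ 2 * (1 + c2 ^ 2) := by positivity
    linarith
  · rw [hΛ, le_div_iff₀ hc1]
    nlinarith
  intro N hN
  obtain ⟨hL, hLa⟩ := hN0 N hN
  set L : ℝ := Real.log N with hLdef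
  have hT0 : 0 ≤ (1600 * Cc ^ 2 / cB ^ 4) ^ 6 := by positivity
  have hA0 : 0 ≤ 16 * 200 / c1 := by positivity
  have hnB0 : (0:ℝ) ≤ nB := Nat.cast_nonneg _
  have hnC0 : (0:ℝ) ≤ nC := Nat.cast_nonneg _
  have hnD0 : (0:ℝ) ≤ nD := Nat.cast_nonneg _
  have hRc : 0 ≤ 2 * (R : ℝ) * (1 + c2) + 1 := by positivity
  have L1 : 160000 ≤ L := by linarith
  have L2 : (K : ℝ) ≤ L := by linarith
  have L3 : 2 * (R : ℝ) * (1 + c2) + 1 ≤ L := by linarith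
  have L4 : 16 * 200 / c1 ≤ L := by linarith
  have L5 : (nB : ℝ) ≤ L := by linarith
  have L6 : (nC : ℝ) ≤ L := by linarith
  have L7 : (nD : ℝ) ≤ L := by linarith
  have L8 : (1600 * Cc ^ 2 / cB ^ 4) ^ 6 ≤ L := by linarith
  have hL0 : 0 < L := by linarith
  have hL1 : 1 ≤ L := by linarith
  have hN1 : 1 ≤ N := by
    rcases Nat.eq_zero_or_pos N with h | h
    · exfalso
      rw [hLdef, h] at L1
      simp at L1
      linarith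
    · exact h
  have hN1' : (1:ℝ) ≤ N := by exact_mod_cast hN1
  have hLp : L ≤ L ^ (8 * a) := le_self_pow₀ hL1 (by omega)
  set lo : ℝ := c1 * (N * L ^ (8 * a)) / (16 * 200) with hlo
  have hloN : (N : ℝ) ≤ lo := by
    rw [hlo, le_div_iff₀ (by norm_num)]
    have h2 : 16 * 200 ≤ c1 * L ^ (8 * a) := by
      calc (16 * 200 : ℝ) = c1 * (16 * 200 / c1) := by field_simp
        _ ≤ c1 * L ^ (8 * a) := by gcongr; linarith
    calc (N : ℝ) * (16 * 200) ≤ N * (c1 * L ^ (8 * a)) := by gcongr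
      _ = _ := by ring
  refine ⟨lo, hloN, hLa.trans hloN, ?_⟩
  intro m p H0 M Φ Bd hm hmK hH0 hp hpl hpu hF hΦ V hV
  have hLL : L ≤ L ^ 2 := le_self_pow₀ hL1 two_ne_zero
  have hpL : L < p := lt_of_le_of_lt hLL hpl
  have hp1 : 1 ≤ p := hp.one_lt.le
  have hP1 : (1:ℝ) ≤ p := by exact_mod_cast hp1
  have hP0 : (0:ℝ) < p := by linarith
  obtain ⟨n, hn1, hn2, hn3, hn4⟩ := Tb_n hp1
  have hn5 : 1 ≤ n := hp1.trans hn3
  have hn5' : (1:ℝ) ≤ n := by exact_mod_cast hn5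
  have hn0' : (0:ℝ) < n := by linarith
  have hpn : (p : ℝ) ≤ n := by exact_mod_cast hn3
  have hLn : L ≤ n := by linarith
  have hnB1 : nB ≤ n := by exact_mod_cast L5.trans hLn
  have hnC1 : nC ≤ n := by exact_mod_cast L6.trans hLn
  have hnD1 : nD ≤ n := by exact_mod_cast L7.trans hLn
  obtain ⟨np, hnp1, hnp2, hnp3⟩ := Tb_np (a := a) hN1 (by linarith) hn5' hn4 hpu
  obtain ⟨B, hBs, hBc, hBK⟩ := hnB n hnB1
  have hcoll := hnC p n hp1 hnC1 hn1 hn2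
  have hcone := hnD n hnD1
  have hBpos : (0:ℝ) < B.card := lt_of_lt_of_le (by positivity) hBc
  have hBne : B.Nonempty := by
    rw [← Finset.card_pos]; exact_mod_cast hBpos
  obtain ⟨b, hb⟩ := hBne
  have hBdet : ∀ m ∈ B, m 0 0 * m 1 1 - m 0 1 * m 1 0 = 1 := fun m hm => (bk_nn (hBs hm)).2
  obtain ⟨r, hr⟩ := Tb_r K R hR H0 hH0 B b hb hBdet hBK
  set N2 : ℕ := ⌊(N : ℝ) * L ^ (8 * a + 1)⌋₊ with hN2
  set D : Dat := ⟨K, p, m, N, N2, np, n, R, H0, M, B, r, ζ, c1, c2, 200⟩ with hDdef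
  have hsp : 1 ≤ √(p : ℝ) := by
    rw [Real.one_le_sqrt]; exact hP1
  have hsp0 : 0 < √(p : ℝ) := by linarith
  have hMs : 1 ≤ (N : ℝ) * L ^ (8 * a) := by
    have : 1 ≤ L ^ (8 * a) := one_le_pow₀ hL1
    nlinarith
  have hOk : D.Ok := by
    refine ⟨hK, hp, ?_, hm, hmK, hN1, hnp1, hn5, hR1, h0, h1, hc1, hc12, ?_, hH0, hF, ?_, ?_, ?_⟩
    · intro hd
      have h2 := Nat.le_of_dvd hK hd
      have h3 : (p : ℝ) ≤ K := by exact_mod_cast h2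
      linarith
    · norm_num [hDdef]
    · intro m hm
      exact ⟨hBs hm, hcone m (hBs hm)⟩
    · intro w hw
      exact hr w ((mem_ndw hK).1 hw).1.det
    · have e1 : 2 * (R : ℝ) * np * (n : ℝ) ^ 2 * (1 + c2 * √p) ≤
          2 * R * (1 + c2) * (N * L ^ (8 * a)) := by
        calc 2 * (R : ℝ) * np * (n : ℝ) ^ 2 * (1 + c2 * √p)
            ≤ 2 * (R : ℝ) * np * (n : ℝ) ^ 2 * ((1 + c2) * √p) := by
              gcongr; nlinarith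
          _ = 2 * R * (1 + c2) * (√p * (np * (n : ℝ) ^ 2)) := by ring
          _ ≤ _ := by gcongr
      have e2 : (N : ℝ) * L ^ (8 * a + 1) - 1 ≤ N2 := by
        have := Nat.lt_floor_add_one ((N : ℝ) * L ^ (8 * a + 1))
        rw [← hN2] at this
        linarith
      have e3 : 2 * R * (1 + c2) * (N * L ^ (8 * a)) + 1 ≤ (N : ℝ) * L ^ (8 * a + 1) := by
        calc 2 * R * (1 + c2) * (N * L ^ (8 * a)) + 1
            ≤ 2 * R * (1 + c2) * (N * L ^ (8 * a)) + N * L ^ (8 * a) := by linarith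
          _ = (N * L ^ (8 * a)) * (2 * R * (1 + c2) + 1) := by ring
          _ ≤ (N * L ^ (8 * a)) * L := by gcongr
          _ = _ := by ring
      show 2 * (R : ℝ) * np * (n : ℝ) ^ 2 * (1 + c2 * √p) ≤ N2
      linarith
  have hlo' : lo ≤ c1 * √p * (np * (n : ℝ) ^ 2 / (8 * 200)) := by
    calc lo = c1 * (N * L ^ (8 * a) / 2) / (8 * 200) := by rw [hlo]; ring
      _ ≤ c1 * (√p * (np * (n : ℝ) ^ 2)) / (8 * 200) := by gcongr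
      _ = _ := by ring
  have hΛlo : c2 * √p * (2 * R * np * (n : ℝ) ^ 2) ≤ Λ * lo := by
    calc c2 * √p * (2 * R * np * (n : ℝ) ^ 2) = 2 * R * c2 * (√p * (np * (n : ℝ) ^ 2)) := by ring
      _ ≤ 2 * R * c2 * (N * L ^ (8 * a)) := by gcongr
      _ = Λ * lo := by rw [hΛ, hlo]; field_simp; ring
  have hmain := xs_le hOk (Φ := Φ) (Bd := Bd) hΦ (Cc * (n : ℝ) ^ (2 + 1 / 16 : ℝ)) ⟨b, hb⟩
    (by
      refine le_trans ?_ hcoll
      exact_mod_cast Finset.card_le_card (Finset.filter_subset_filter _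
        (Finset.product_subset_product hBs hBs)))
    lo hloN hlo' (V.filter (fun v => (v 1 0 : ℝ) ≤ c2 * √p * (2 * R * np * (n : ℝ) ^ 2)))
    (by
      intro v
      rw [Finset.mem_filter, hV]
      constructor
      · rintro ⟨⟨a1, a2, a3, a4, a5, a6⟩, a7⟩
        exact ⟨a1, a2, a3, a7, a5, a6⟩
      · rintro ⟨a1, a2, a3, a7, a5, a6⟩
        exact ⟨⟨a1, a2, a3, a7.trans hΛlo, a5, a6⟩, a7⟩)
  change (mu K).real (Xs Φ K N (p * m)) ≤ (mu K).real (Ust Φ K N N2) +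
      (mu K).real (Eun K np np 200) +
      K * (4 * ((p : ℝ) + 1) ^ 2 * (((p : ℝ) ^ 2 - 1) * (Cc * (n : ℝ) ^ (2 + 1 / 16 : ℝ))) ^ 2 /
        (B.card : ℝ) ^ 4) / p +
      8 * 200 * K / p +
      (2 * (p + 1) / (B.card : ℝ) ^ 2 * (4 * (R : ℝ) ^ 2 * 200 * (n : ℝ) ^ 4)) / (p * m) *
        (m * (mu K).real (Ust Φ K N N2) + c2 ^ 2 * p *
          ∑ v ∈ V.filter (fun v => (v 1 0 : ℝ) ≤ c2 * √p * (2 * R * np * (n : ℝ) ^ 2)), len v)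
    at hmain
  have hnp0 : 1 ≤ np := hN1.trans hnp1
  have hnp0' : (0:ℝ) < np := by exact_mod_cast hnp0
  -- unbalanced
  have hE : (mu K).real (Eun K np np 200) ≤ K * (3 / 50) := by
    have h := eun_le K np np hK hnp0 le_rfl 200 (by norm_num)
    have h2 : (2 * (np : ℝ) / np) = 2 := by field_simp
    rw [h2] at h
    have h3 := Real.log_two_lt_d9
    refine h.trans ?_
    have : 4 * (K : ℝ) * (2 + Real.log 2) / 200 = K * ((2 + Real.log 2) / 50) := by ring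
    rw [this]
    gcongr
    linarith
  -- coverage
  have hC : K * (4 * ((p : ℝ) + 1) ^ 2 * (((p : ℝ) ^ 2 - 1) * (Cc * (n : ℝ) ^ (2 + 1 / 16 : ℝ))) ^ 2 /
        (B.card : ℝ) ^ 4) / p ≤ K * (1 / 100) := by
    have hL9 : (1600 * Cc ^ 2 / cB ^ 4) ^ 6 ≤ (p : ℝ) := L8.trans hpL.le
    have hn6 : (p : ℝ) ^ 4 ≤ (n : ℝ) ^ 3 := by exact_mod_cast hn1
    have hTe := Tb_e hP1 hn5' hn6 hcB hBc hL9
    rw [mul_div_assoc]
    exact mul_le_mul_of_nonneg_left hTe (by linarith)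
  -- crossing
  have hX : 8 * 200 * (K : ℝ) / p ≤ K * (1 / 100) := by
    rw [div_le_iff₀ hP0]
    nlinarith
  -- last
  set u := (mu K).real (Ust Φ K N N2) with hu
  have hu0 : 0 ≤ u := measureReal_nonneg
  have hVpos : ∀ v ∈ V, 0 ≤ len v := by
    intro v hv
    have h1 := ((hV v).1 hv).1
    exact (len_pos ((mem_ndw hK).1 h1).1).le
  set S := ∑ v ∈ V, len v with hS
  have hS0 : 0 ≤ S := Finset.sum_nonneg hVpos
  have hSS : ∑ v ∈ V.filter (fun v => (v 1 0 : ℝ) ≤ c2 * √p * (2 * R * np * (n : ℝ) ^ 2)), len v ≤ S :=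
    Finset.sum_le_sum_of_subset_of_nonneg (Finset.filter_subset _ _) (fun v hv _ => hVpos v hv)
  have hm0 : (1:ℝ) ≤ m := by exact_mod_cast hm
  have hcoef : (2 * ((p : ℝ) + 1) / (B.card : ℝ) ^ 2 * (4 * (R : ℝ) ^ 2 * 200 * (n : ℝ) ^ 4)) / (p * m) ≤
      16 * (R : ℝ) ^ 2 * 200 / cB ^ 2 / m := by
    have h2 : (cB * (n : ℝ) ^ 2) ^ 2 ≤ (B.card : ℝ) ^ 2 := by gcongr
    have h3 : 2 * ((p : ℝ) + 1) / (B.card : ℝ) ^ 2 ≤ 4 * p / (cB * (n : ℝ) ^ 2) ^ 2 := by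
      apply div_le_div₀ (by positivity) (by linarith) (by positivity) h2
    calc _ ≤ (4 * p / (cB * (n : ℝ) ^ 2) ^ 2 * (4 * (R : ℝ) ^ 2 * 200 * (n : ℝ) ^ 4)) / (p * m) := by
          gcongr
      _ = 16 * (R : ℝ) ^ 2 * 200 / cB ^ 2 / m := by
          field_simp
          ring
  have hlast : (2 * ((p : ℝ) + 1) / (B.card : ℝ) ^ 2 * (4 * (R : ℝ) ^ 2 * 200 * (n : ℝ) ^ 4)) / (p * m) *
        (m * u + c2 ^ 2 * p *
          ∑ v ∈ V.filter (fun v => (v 1 0 : ℝ) ≤ c2 * √p * (2 * R * np * (n : ℝ) ^ 2)), len v) ≤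
      16 * (R : ℝ) ^ 2 * 200 / cB ^ 2 * (1 + c2 ^ 2) * (u + p * S) := by
    have hF0 : 0 ≤ ∑ v ∈ V.filter (fun v => (v 1 0 : ℝ) ≤ c2 * √p * (2 * R * np * (n : ℝ) ^ 2)), len v :=
      Finset.sum_nonneg (fun v hv => hVpos v (Finset.mem_filter.1 hv).1)
    have hF1 : 0 ≤ m * u + c2 ^ 2 * p *
          ∑ v ∈ V.filter (fun v => (v 1 0 : ℝ) ≤ c2 * √p * (2 * R * np * (n : ℝ) ^ 2)), len v :=
      add_nonneg (mul_nonneg (by linarith) hu0) (mul_nonneg (by positivity) hF0)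
    have hF2 : m * u + c2 ^ 2 * p *
          ∑ v ∈ V.filter (fun v => (v 1 0 : ℝ) ≤ c2 * √p * (2 * R * np * (n : ℝ) ^ 2)), len v ≤
          m * u + c2 ^ 2 * p * S := by
      have := mul_le_mul_of_nonneg_left hSS (show 0 ≤ c2 ^ 2 * (p : ℝ) by positivity)
      linarith
    calc _ ≤ 16 * (R : ℝ) ^ 2 * 200 / cB ^ 2 / m * (m * u + c2 ^ 2 * p * S) :=
          mul_le_mul hcoef hF2 hF1 (by positivity)
      _ = 16 * (R : ℝ) ^ 2 * 200 / cB ^ 2 * (u + c2 ^ 2 * (p * S) / m) := by field_simp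
      _ ≤ 16 * (R : ℝ) ^ 2 * 200 / cB ^ 2 * (u + c2 ^ 2 * (p * S)) := by
          gcongr
          exact div_le_self (by positivity) hm0
      _ ≤ 16 * (R : ℝ) ^ 2 * 200 / cB ^ 2 * ((1 + c2 ^ 2) * (u + p * S)) := by
          gcongr
          have : 0 ≤ c2 ^ 2 * u := by positivity
          have : 0 ≤ p * S := by positivity
          nlinarith
      _ = _ := by ring
  have hfin : C1 * (u + p * S) = (u + p * S) + 16 * (R : ℝ) ^ 2 * 200 / cB ^ 2 * (1 + c2 ^ 2) * (u + p * S) := by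
    rw [hC1]; ring
  have hpS : 0 ≤ p * S := by positivity
  rw [hfin]
  have hKK : (K : ℝ) * (3 / 50) + K * (1 / 100) + K * (1 / 100) ≤ K / 8 := by
    linarith
  linarith

end Pool.Agent.CQF
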